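import Pool.Agent.Work.MP_ceb7a8_co.L6Defs

/-!
Lemma 6, event (b): almost all vertices have their middle vertex towards u in Z, for every Z that
is almost all of Nu.  Author: helper43.
-/

namespace CEB

namespace L6

namespace Ab

open Finset Rg

noncomputable section

open scoped Classical

variable {V : Type*} [Fintype V] {G : SimpleGraph V} {g : V → V → V}

theorem mem_Vu {u c : V} {p p' : Sym2 V} : c ∈ Vu G g u p p' ↔ c ∈ reg G g ∧ c ∉ hub g ∧
    c ≠ u ∧ c ∉ bad G g u ∧ c ∉ exc G g u ∧ s(u, c) ≠ p ∧ s(u, c) ≠ p' := by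
  simp [Vu]

/-- the set Vu is almost everything -/
theorem card_Vu_ge (hG : QR G) (hn : Big (Fintype.card V)) (ht : Typ G g) {u : V}
    (hu : u ∈ reg G g) (p p' : Sym2 V) :
    99 / 100 * nn V ≤ (#(Vu G g u p p') : ℝ) := by
  set S := Vu G g u p p' with hS
  have hone : ∀ q : Sym2 V, (#(univ.filter fun c : V => s(u, c) = q) : ℝ) ≤ 1 := by
    intro q
    have : #(univ.filter fun c : V => s(u, c) = q) ≤ 1 := by
      apply card_le_one.2
      intro a ha b hb
      have ha' := (mem_filter.1 ha).2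
      have hb' := (mem_filter.1 hb).2
      rw [← hb'] at ha'
      rcases Sym2.eq_iff.1 ha' with ⟨_, h⟩ | ⟨h1, h2⟩
      · exact h
      · rw [← h1, h2]
    exact_mod_cast this
  have hsub : (univ : Finset V) ⊆ S ∪ (univ \ reg G g) ∪ hub g ∪ {u} ∪ bad G g u ∪ exc G g u ∪
      (univ.filter fun c : V => s(u, c) = p) ∪ (univ.filter fun c : V => s(u, c) = p') := by
    intro c _
    simp only [mem_union, hS, mem_Vu, mem_sdiff, mem_univ, true_and, mem_singleton, mem_filter]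
    tauto
  have cu : ∀ A B : Finset V, (#(A ∪ B) : ℝ) ≤ #A + #B := by
    intro A B
    exact_mod_cast card_union_le A B
  have h1 : nn V ≤ (#S : ℝ) + #(univ \ reg G g) + #(hub g) + 1 + #(bad G g u) +
      #(exc G g u) + 1 + 1 := by
    have h2 : nn V = (#(univ : Finset V) : ℝ) := rfl
    rw [h2]
    have h3 : (#(univ : Finset V) : ℝ) ≤ (#(S ∪ (univ \ reg G g) ∪ hub g ∪ {u} ∪ bad G g u ∪
      exc G g u ∪ (univ.filter fun c : V => s(u, c) = p) ∪
      (univ.filter fun c : V => s(u, c) = p')) : ℝ) := Nat.cast_le.2 (card_le_card hsub)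
    have h4 := cu (S ∪ (univ \ reg G g) ∪ hub g ∪ {u} ∪ bad G g u ∪
      exc G g u ∪ (univ.filter fun c : V => s(u, c) = p))
      (univ.filter fun c : V => s(u, c) = p')
    have h5 := cu (S ∪ (univ \ reg G g) ∪ hub g ∪ {u} ∪ bad G g u ∪
      exc G g u) (univ.filter fun c : V => s(u, c) = p)
    have h6 := cu (S ∪ (univ \ reg G g) ∪ hub g ∪ {u} ∪ bad G g u) (exc G g u)
    have h7 := cu (S ∪ (univ \ reg G g) ∪ hub g ∪ {u}) (bad G g u)
    have h8 := cu (S ∪ (univ \ reg G g) ∪ hub g) {u}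
    have h9 := cu (S ∪ (univ \ reg G g)) (hub g)
    have h10 := cu S (univ \ reg G g)
    have h11 := hone p
    have h12 := hone p'
    rw [card_singleton, Nat.cast_one] at h8
    linarith
  have h2 := card_irr_le hG hn ht
  have h3 := jj_le hn
  have h4 := hh_le hn
  have h5 := ht.s2
  have h6 := card_bad_le hu
  have h7 := rho_le hn
  have h8 := card_exc_le hG hn ht hu
  have h9 := LL_le_rho hn
  have h10 := hh_pos hn
  have h11 := one_le_LL hn
  have h12 := rho_pos hn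
  have h13 := nn_pos hn
  generalize nn V ^ (1 - sig / 2) = ρ at *
  have k1 : hh V / 10 ^ 50 ≤ hh V := div_le_self h10.le (by norm_num)
  have k2 : hh V / 10 ^ 60 ≤ hh V := div_le_self h10.le (by norm_num)
  have k3 : ρ / 10 ^ 60 ≤ ρ / 10 ^ 7 :=
    div_le_div_of_nonneg_left h12.le (by norm_num) (by norm_num)
  have k4 : nn V / 10 ^ 90 ≤ nn V / 10 ^ 4 :=
    div_le_div_of_nonneg_left h13.le (by norm_num) (by norm_num)
  have k5 : 1 ≤ ρ := by
    have : ρ / 10 ^ 60 ≤ ρ := div_le_self h12.le (by norm_num)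
    linarith
  linarith

omit [Fintype V] in
theorem image_card_Vu (u : V) (S : Finset V) :
    Set.InjOn (fun c => (s(u, c) : Sym2 V)) (S : Set V) := by
  intro c _ c' _ h
  simp only at h
  rcases Sym2.eq_iff.1 h with ⟨_, h4⟩ | ⟨h4, h5⟩
  · exact h4
  · rw [← h4, h5]

/-- the number of vertices of Vu whose middle is outside Z -/
theorem hits_eq (u : V) (S Z : Finset V) (ω : Sym2 V → V) :
    hits (S.image fun c => (s(u, c) : Sym2 V)) (fun _ => Zᶜ) ω + #(SZ S u ω Z) = #S := by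
  unfold hits SZ
  have h1 : ((S.image fun c => (s(u, c) : Sym2 V)).filter fun i => ω i ∈ Zᶜ) =
      (S.filter fun c => ω s(u, c) ∉ Z).image fun c => (s(u, c) : Sym2 V) := by
    ext i
    simp only [mem_filter, mem_image, mem_compl]
    constructor
    · rintro ⟨⟨c, hc, rfl⟩, h⟩
      exact ⟨c, ⟨hc, h⟩, rfl⟩
    · rintro ⟨c, ⟨hc, h⟩, rfl⟩
      exact ⟨⟨c, hc, rfl⟩, h⟩
  rw [h1, card_image_of_injOn (image_card_Vu u _), add_comm]
  exact card_filter_add_card_filter_not (s := S) (fun c => ω s(u, c) ∈ Z)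

/-- for one set Z -/
theorem event_b_one (hG : QR G) (hn : Big (Fintype.card V)) (hg : IsSys G g) (ht : Typ G g)
    {u : V} (hu : u ∈ reg G g) (hu' : u ∉ hub g) (p p' : Sym2 V) (Z : Finset V)
    (hZ : (#(Nu G g u \ Z) : ℝ) ≤ nn V ^ (1 - sig / 2)) :
    (#{ω ∈ Fintype.piFinset (mids g) |
      (#(SZ (Vu G g u p p') u ω Z) : ℝ) < 85 / 100 * nn V} : ℝ) ≤
      2 ^ (Fintype.card V) * (1 / 10 ^ 5) ^ (Fintype.card V) *
        #(Fintype.piFinset (mids g)) := by
  have hnp := nn_pos hn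
  have hhp := hh_pos hn
  set I := (Vu G g u p p').image fun c => (s(u, c) : Sym2 V) with hI
  set r := ⌈nn V / 10⌉₊ with hr
  have hr1 : nn V / 10 ≤ r := Nat.le_ceil _
  have hr2 : (r : ℝ) < nn V / 10 + 1 := Nat.ceil_lt_add_one (by positivity)
  have hnbig : 1000 ≤ nn V := by
    have h1 := hh_le hn
    have h2 := LL_le_rho hn
    have h3 := rho_le hn
    have h4 := one_le_LL hn
    have h5 := rho_pos hn
    have h6 := LL_ge hn
    generalize nn V ^ (1 - sig / 2) = ρ at *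
    have h7 : ρ / 10 ^ 60 ≤ ρ := div_le_self h5.le (by norm_num)
    have h8 : hh V / 10 ^ 60 ≤ hh V := div_le_self hhp.le (by norm_num)
    have h9 : nn V / 10 ^ 90 ≤ nn V := div_le_self hnp.le (by norm_num)
    have h10 : (1000 : ℝ) ≤ 10 ^ 100 := by norm_num
    linarith
  have key := T3 (mids g) I (fun _ => Zᶜ) (p := 1 / 10 ^ 50) (by
    intro i hi
    rw [hI, mem_image] at hi
    obtain ⟨c, hc, rfl⟩ := hi
    obtain ⟨c1, c2, c3, c4, c5, _, _⟩ := mem_Vu.1 hc
    have hq : Q g u c := q_of_off c3.symm hu' c2 c4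
    rw [mids_eq hq]
    have h1 := card_mids_ge hn ht hu c1 c5
    have h2 : (#(nb g u ∩ nb g c ∩ Zᶜ) : ℝ) ≤ #(nb g u \ Nu G g u) + #(Nu G g u \ Z) := by
      have h3 : nb g u ∩ nb g c ∩ Zᶜ ⊆ (nb g u \ Nu G g u) ∪ (Nu G g u \ Z) := by
        intro x hx
        simp only [mem_inter, mem_compl, mem_union, mem_sdiff] at hx ⊢
        tauto
      exact_mod_cast (card_le_card h3).trans (card_union_le _ _)
    have h3 := card_nb_sdiff_Nu hG hn hg ht hu hu'
    have h4 : (#(nb g u ∩ nb g c ∩ Zᶜ) : ℝ) ≤ 7 * (hh V / 10 ^ 60) := by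
      have h5 := rho_le hn
      unfold jj at h3
      linarith
    refine h4.trans ?_
    have h5 : 7 * (hh V / 10 ^ 60) ≤ 1 / 10 ^ 50 * (23 / 100 * hh V) := by
      have : 7 * (hh V / 10 ^ 60) = (7 / 10 ^ 60) * hh V := by ring
      rw [this]
      have : 1 / 10 ^ 50 * (23 / 100 * hh V) = (23 / 10 ^ 52) * hh V := by ring
      rw [this]
      apply mul_le_mul_of_nonneg_right _ hhp.le
      norm_num
    refine h5.trans ?_
    exact mul_le_mul_of_nonneg_left h1 (by positivity)) r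
  have hsub : {ω ∈ Fintype.piFinset (mids g) |
      (#(SZ (Vu G g u p p') u ω Z) : ℝ) < 85 / 100 * nn V} ⊆
      {ω ∈ Fintype.piFinset (mids g) | r ≤ hits I (fun _ => Zᶜ) ω} := by
    intro ω hω
    rw [mem_filter] at hω ⊢
    refine ⟨hω.1, ?_⟩
    have h1 := hits_eq u (Vu G g u p p') Z ω
    have h2 : (hits I (fun _ => Zᶜ) ω : ℝ) + #(SZ (Vu G g u p p') u ω Z) =
        #(Vu G g u p p') := by exact_mod_cast h1
    have h3 := card_Vu_ge hG hn ht hu p p'
    have h4 : (r : ℝ) ≤ hits I (fun _ => Zᶜ) ω := by linarith [hω.2]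
    exact_mod_cast h4
  have h1 : (#{ω ∈ Fintype.piFinset (mids g) |
      (#(SZ (Vu G g u p p') u ω Z) : ℝ) < 85 / 100 * nn V} : ℝ) ≤
      (#{ω ∈ Fintype.piFinset (mids g) | r ≤ hits I (fun _ => Zᶜ) ω} : ℝ) := by
    exact_mod_cast card_le_card hsub
  refine h1.trans (key.trans ?_)
  apply mul_le_mul_of_nonneg_right _ (Nat.cast_nonneg _)
  apply mul_le_mul _ _ (by positivity) (by positivity)
  · have h2 : (#I).choose r ≤ 2 ^ (Fintype.card V) := by
      refine (Nat.choose_le_two_pow _ _).trans ?_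
      apply Nat.pow_le_pow_right (by norm_num)
      refine card_image_le.trans ?_
      exact card_le_univ _
    exact_mod_cast h2
  · have h2 : (1 / 10 ^ 50 : ℝ) ^ r = (1 / 10 ^ 5) ^ (10 * r) := by
      rw [pow_mul]
      norm_num
    rw [h2]
    apply pow_le_pow_of_le_one (by positivity) (by norm_num)
    have h3 : (Fintype.card V : ℝ) ≤ 10 * r := by
      have : (Fintype.card V : ℝ) = nn V := rfl
      rw [this]; linarith
    exact_mod_cast h3

/-- event (b) -/
theorem _root_.CEB.L6.event_b (hG : QR G) (hn : Big (Fintype.card V)) (hg : IsSys G g) (ht : Typ G g)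
    {u : V} (hu : u ∈ reg G g) (hu' : u ∉ hub g) (p p' : Sym2 V) :
    (#{ω ∈ Fintype.piFinset (mids g) | ¬ ∀ Z ⊆ Nu G g u,
      (#(Nu G g u \ Z) : ℝ) ≤ nn V ^ (1 - sig / 2) →
      85 / 100 * nn V ≤ (#(SZ (Vu G g u p p') u ω Z) : ℝ)} : ℝ) ≤
      1 / 3 * Real.exp (-(8 * LL V)) * #(Fintype.piFinset (mids g)) := by
  set K := (Nu G g u).powerset.filter fun Z =>
    (#(Nu G g u \ Z) : ℝ) ≤ nn V ^ (1 - sig / 2) with hK
  have hsub : {ω ∈ Fintype.piFinset (mids g) | ¬ ∀ Z ⊆ Nu G g u,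
      (#(Nu G g u \ Z) : ℝ) ≤ nn V ^ (1 - sig / 2) →
      85 / 100 * nn V ≤ (#(SZ (Vu G g u p p') u ω Z) : ℝ)} ⊆
      {ω ∈ Fintype.piFinset (mids g) | ∃ Z ∈ K,
        (#(SZ (Vu G g u p p') u ω Z) : ℝ) < 85 / 100 * nn V} := by
    intro ω hω
    rw [mem_filter] at hω ⊢
    refine ⟨hω.1, ?_⟩
    have h := hω.2
    push Not at h
    obtain ⟨Z, h1, h2, h3⟩ := h
    exact ⟨Z, by rw [hK, mem_filter, mem_powerset]; exact ⟨h1, h2⟩, h3⟩
  have h1 : (#{ω ∈ Fintype.piFinset (mids g) | ¬ ∀ Z ⊆ Nu G g u,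
      (#(Nu G g u \ Z) : ℝ) ≤ nn V ^ (1 - sig / 2) →
      85 / 100 * nn V ≤ (#(SZ (Vu G g u p p') u ω Z) : ℝ)} : ℝ) ≤
      ∑ Z ∈ K, (#{ω ∈ Fintype.piFinset (mids g) |
        (#(SZ (Vu G g u p p') u ω Z) : ℝ) < 85 / 100 * nn V} : ℝ) := by
    have h2 := card_filter_exists_le (Fintype.piFinset (mids g)) K
      (fun Z ω => (#(SZ (Vu G g u p p') u ω Z) : ℝ) < 85 / 100 * nn V)
    refine le_trans ?_ h2
    exact_mod_cast card_le_card hsub
  have h2 : ∑ Z ∈ K, (#{ω ∈ Fintype.piFinset (mids g) |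
        (#(SZ (Vu G g u p p') u ω Z) : ℝ) < 85 / 100 * nn V} : ℝ) ≤
      #K * (2 ^ (Fintype.card V) * (1 / 10 ^ 5) ^ (Fintype.card V) *
        #(Fintype.piFinset (mids g))) := by
    rw [← nsmul_eq_mul]
    apply sum_le_card_nsmul
    intro Z hZ
    rw [hK, mem_filter] at hZ
    exact event_b_one hG hn hg ht hu hu' p p' Z hZ.2
  have h3 : (#K : ℝ) ≤ 2 ^ (Fintype.card V) := by
    have : #K ≤ 2 ^ (Fintype.card V) := by
      refine (card_filter_le _ _).trans ?_
      rw [card_powerset]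
      exact Nat.pow_le_pow_right (by norm_num) (card_le_univ _)
    exact_mod_cast this
  have hΩ : (0 : ℝ) ≤ #(Fintype.piFinset (mids g)) := Nat.cast_nonneg _
  have h4 : (2 : ℝ) ^ (Fintype.card V) * (2 ^ (Fintype.card V) *
      (1 / 10 ^ 5) ^ (Fintype.card V)) ≤ 1 / 3 * Real.exp (-(8 * LL V)) := by
    rw [← mul_pow, ← mul_pow]
    have h5 : (2 * (2 * (1 / 10 ^ 5)) : ℝ) ≤ Real.exp (-1) := by
      have := Real.exp_one_lt_d9
      rw [Real.exp_neg, le_inv_comm₀ (by norm_num) (Real.exp_pos 1)]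
      norm_num
      linarith
    have h6 : (2 * (2 * (1 / 10 ^ 5)) : ℝ) ^ (Fintype.card V) ≤
        Real.exp (-1) ^ (Fintype.card V) := pow_le_pow_left₀ (by positivity) h5 _
    refine h6.trans ?_
    rw [← Real.exp_nat_mul]
    have h7 : (1 / 3 : ℝ) ≥ Real.exp (-2) := by
      have h8 := Real.exp_one_gt_d9
      have h9 : Real.exp (-2) = (Real.exp 1 * Real.exp 1)⁻¹ := by
        rw [← Real.exp_add, ← Real.exp_neg]; norm_num
      rw [h9]
      rw [ge_iff_le, inv_le_comm₀ (by positivity) (by norm_num)]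
      nlinarith
    have h8 : Real.exp ((Fintype.card V : ℝ) * -1) ≤ Real.exp (-2) * Real.exp (-(8 * LL V)) := by
      rw [← Real.exp_add]
      apply Real.exp_le_exp.2
      have h9 : (Fintype.card V : ℝ) = nn V := rfl
      rw [h9]
      have k1 := hh_mul hn
      have k2 := LL_ge hn
      have k3 := hh_le hn
      have k4 := LL_le_rho hn
      have k5 := rho_le hn
      have k6 := rho_pos hn
      have k7 := hh_pos hn
      have k8 := nn_pos hn
      generalize nn V ^ (1 - sig / 2) = ρ at *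
      have k9 : ρ / 10 ^ 60 ≤ ρ := div_le_self k6.le (by norm_num)
      have k10 : hh V / 10 ^ 60 ≤ hh V := div_le_self k7.le (by norm_num)
      have k11 : nn V / 10 ^ 90 ≤ nn V / 100 :=
        div_le_div_of_nonneg_left k8.le (by norm_num) (by norm_num)
      have k12 : (2 : ℝ) ≤ LL V := le_trans (by norm_num) k2
      linarith
    refine h8.trans ?_
    exact mul_le_mul_of_nonneg_right h7 (Real.exp_pos _).le
  refine h1.trans (h2.trans ?_)
  calc (#K : ℝ) * (2 ^ (Fintype.card V) * (1 / 10 ^ 5) ^ (Fintype.card V) *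
        #(Fintype.piFinset (mids g)))
      ≤ 2 ^ (Fintype.card V) * (2 ^ (Fintype.card V) * (1 / 10 ^ 5) ^ (Fintype.card V) *
        #(Fintype.piFinset (mids g))) := mul_le_mul_of_nonneg_right h3 (by positivity)
    _ = (2 : ℝ) ^ (Fintype.card V) * (2 ^ (Fintype.card V) *
      (1 / 10 ^ 5) ^ (Fintype.card V)) * #(Fintype.piFinset (mids g)) := by ring
    _ ≤ _ := mul_le_mul_of_nonneg_right h4 hΩ

end

end Ab

end L6

end CEB
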