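import Pool.Agent.Work.MP_ceb7a8_co.M43Metr

/-!
Theorem M, the double counting.  Author: helper43.
-/

namespace CEB

open Finset

variable {V : Type*} [Fintype V] [DecidableEq V]

/-- g' comes from g by a three-step switch. -/
def SwRel (G : SimpleGraph V) (N : (V → V → V) → V → Finset V) (r : ℝ)
    (g g' : V → V → V) : Prop :=
  ∃ u v a b, Swit G g (N g) r u v a b ∧ g' = switch g u v a b

omit [Fintype V] in
theorem Swit.isSys {G : SimpleGraph V} {g : V → V → V} {N : V → Finset V} {r : ℝ}
    {u v a b : V} (h : IsSys G g) (hs : Swit G g N r u v a b) : IsSys G (switch g u v a b) :=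
  h.switch hs.q.1 hs.q.2.2.2 hs.opt

open Classical in
/-- A switched system comes from at most |V| good metrizable systems. -/
theorem card_pre_le {G : SimpleGraph V} {N : (V → V → V) → V → Finset V}
    {r : ℝ} (F : Finset (V → V → V)) (hN : ∀ g ∈ F, ∀ u, ∀ a ∈ N g u, G.Adj u a)
    (hF : ∀ g ∈ F, IsSys G g ∧ Metr G g) (g' : V → V → V) :
    (F.filter (fun g => SwRel G N r g g')).card ≤ Fintype.card V := by
  rcases (F.filter (fun g => SwRel G N r g g')).eq_empty_or_nonempty with he | ⟨g₀, hg₀⟩
  · rw [he]; simp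
  · rw [mem_filter] at hg₀
    obtain ⟨hg₀F, u, v, a, b, hs, he⟩ := hg₀
    have hne : (univ : Finset V).card = Fintype.card V := rfl
    rw [← hne]
    apply card_le_card_of_injOn (fun g => g u v) (fun _ _ => mem_univ _)
    -- for every g in the set the switched pair is (u, v)
    have key : ∀ g ∈ F, SwRel G N r g g' → g u v = g v u ∧
        ∀ s t, s(s, t) ≠ s(u, v) → g s t = g' s t := by
      intro g hg hr
      obtain ⟨u₁, v₁, a₁, b₁, hs₁, he₁⟩ := hr
      have hp : s(u₁, v₁) = s(u, v) := by
        apply switch_pair (hF g hg).1 (hF g₀ hg₀F).1 (hF g₀ hg₀F).2 (hN g hg) hs₁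
        rw [← he₁, he]
      constructor
      · rcases Sym2.eq_iff.1 hp with ⟨rfl, rfl⟩ | ⟨rfl, rfl⟩
        · exact hs₁.q.2.2.1
        · exact hs₁.q.2.2.1.symm
      · intro s t hst
        rw [he₁, switch_agree s t (by rw [hp]; exact hst)]
    intro g hg g1 hg1 heq
    rw [coe_filter, Set.mem_ofPred_eq] at hg hg1
    obtain ⟨k1, k2⟩ := key g hg.1 hg.2
    obtain ⟨k3, k4⟩ := key g1 hg1.1 hg1.2
    simp only at heq
    funext s t
    by_cases hst : s(s, t) = s(u, v)
    · rcases Sym2.eq_iff.1 hst with ⟨rfl, rfl⟩ | ⟨rfl, rfl⟩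
      · exact heq
      · rw [← k1, heq, k3]
    · rw [k2 s t hst, k4 s t hst]

/-- The pairs (u, b) that have a three-step switch. -/
def HasSw (G : SimpleGraph V) (g : V → V → V) (N : V → Finset V) (r : ℝ) (u b : V) : Prop :=
  ∃ v a, Swit G g N r u v a b

open Classical in
/-- The number of different switched systems is at least half of the number of pairs (u, b)
that have a switch. -/
theorem card_sw_ge {G : SimpleGraph V} {N : (V → V → V) → V → Finset V} {r : ℝ}
    (P : Finset (V → V → V)) (hP : ∀ g, IsSys G g → g ∈ P) {g : V → V → V} (h : IsSys G g)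
    (B : Finset (V × V)) (hB : ∀ p ∈ B, HasSw G g (N g) r p.1 p.2) :
    B.card ≤ 2 * (P.filter (fun g' => SwRel G N r g g')).card := by
  rcases B.eq_empty_or_nonempty with he | ⟨p₀, _⟩
  · rw [he]; simp
  have : Nonempty V := ⟨p₀.1⟩
  choose! v a hva using hB
  set f : V × V → (V → V → V) := fun p => switch g p.1 (v p) (a p) p.2 with hf
  have himg : B.image f ⊆ P.filter (fun g' => SwRel G N r g g') := by
    intro g' hg'
    rw [mem_image] at hg'
    obtain ⟨p, hp, rfl⟩ := hg'
    rw [mem_filter]
    refine ⟨hP _ ?_, p.1, v p, a p, p.2, hva p hp, rfl⟩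
    exact (hva p hp).isSys h
  have h2 : B.card ≤ 2 * (B.image f).card := by
    apply card_le_mul_card_image
    intro g' hg'
    rw [mem_image] at hg'
    obtain ⟨p, hp, rfl⟩ := hg'
    have hs := hva p hp
    have huv := hs.q.1
    -- all pairs with the same image
    have hsub : B.filter (fun q => f q = f p) ⊆
        {(p.1, f p (v p) p.1), (v p, f p p.1 (v p))} := by
      intro q hq
      rw [mem_filter] at hq
      obtain ⟨hqB, hqe⟩ := hq
      have hs' := hva q hqB
      have huv' := hs'.q.1
      have hpair : s(q.1, v q) = s(p.1, v p) := by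
        by_contra hne
        -- then f p = g on the pair of q
        have e1 : f q q.1 (v q) = a q := switch_left
        have e2 : f q (v q) q.1 = q.2 := switch_right huv'
        have e3 : f p q.1 (v q) = g q.1 (v q) := switch_agree _ _ hne
        have e4 : f p (v q) q.1 = g (v q) q.1 :=
          switch_agree _ _ (by rw [Sym2.eq_swap]; exact hne)
        apply hs'.ne
        rw [← e1, ← e2, hqe, e3, e4]
        exact hs'.q.2.2.1
      rw [mem_insert, mem_singleton]
      rcases Sym2.eq_iff.1 hpair with ⟨h1, h2⟩ | ⟨h1, h2⟩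
      · left
        have e2 : f q (v q) q.1 = q.2 := switch_right huv'
        rw [Prod.ext_iff]
        refine ⟨h1, ?_⟩
        simp only
        rw [← hqe, ← h1, ← h2, e2]
      · right
        have e2 : f q (v q) q.1 = q.2 := switch_right huv'
        rw [Prod.ext_iff]
        refine ⟨h1, ?_⟩
        simp only
        rw [← hqe, ← h1, ← h2, e2]
    exact (card_le_card hsub).trans card_le_two
  exact h2.trans (Nat.mul_le_mul_left 2 (card_le_card himg))

open Classical in
/-- Theorem M, counting form: if every system of F is metrizable and has at least K pairs (u, b)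
with a switch, then |F| K ≤ 2 n |Pi|. -/
theorem card_metr_le {G : SimpleGraph V} {N : (V → V → V) → V → Finset V}
    {r : ℝ} (P : Finset (V → V → V))
    (hP : ∀ g, IsSys G g → g ∈ P) (F : Finset (V → V → V))
    (hN : ∀ g ∈ F, ∀ u, ∀ a ∈ N g u, G.Adj u a)
    (hF : ∀ g ∈ F, IsSys G g ∧ Metr G g) (K : ℝ)
    (hK : ∀ g ∈ F, ∃ B : Finset (V × V), K ≤ (B.card : ℝ) ∧
      ∀ p ∈ B, HasSw G g (N g) r p.1 p.2) :
    (F.card : ℝ) * K ≤ 2 * (Fintype.card V : ℝ) * (P.card : ℝ) := by
  have h1 : ∑ g ∈ F, (P.filter (fun g' => SwRel G N r g g')).card =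
      ∑ g' ∈ P, (F.filter (fun g => SwRel G N r g g')).card := by
    simp only [card_filter]
    exact sum_comm
  have h2 : ∑ g' ∈ P, (F.filter (fun g => SwRel G N r g g')).card ≤
      P.card * Fintype.card V := by
    rw [← smul_eq_mul]
    exact sum_le_card_nsmul _ _ _ (fun g' _ => card_pre_le F hN hF g')
  have h3 : (F.card : ℝ) * K ≤
      ∑ g ∈ F, (2 * ((P.filter (fun g' => SwRel G N r g g')).card : ℝ)) := by
    rw [← nsmul_eq_mul]
    apply card_nsmul_le_sum
    intro g hg
    obtain ⟨B, hBK, hB⟩ := hK g hg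
    have := card_sw_ge (N := N) P hP (hF g hg).1 B hB
    have h4 : (B.card : ℝ) ≤ 2 * ((P.filter (fun g' => SwRel G N r g g')).card : ℝ) := by
      exact_mod_cast this
    linarith
  have h5 : ∑ g ∈ F, (2 * ((P.filter (fun g' => SwRel G N r g g')).card : ℝ)) =
      2 * ((∑ g ∈ F, (P.filter (fun g' => SwRel G N r g g')).card : ℕ) : ℝ) := by
    rw [← mul_sum]
    push_cast
    rfl
  rw [h5, h1] at h3
  have h6 : ((∑ g' ∈ P, (F.filter (fun g => SwRel G N r g g')).card : ℕ) : ℝ) ≤
      (P.card : ℝ) * (Fintype.card V : ℝ) := by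
    exact_mod_cast h2
  nlinarith

end CEB
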