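import Pool.Agent.Work.MP_ceb7a8_co.ProdClass

/-!
Lemma 8, abstract form: in a product class most pairs (u, b) of a given set have a three-step
option.  Author: helper43.
-/

namespace CEB

open Finset

variable {V : Type*} [Fintype V] [DecidableEq V]

/-- The pair (u, b) has a three-step option for the choice ω: the middle of (u, b) is a, and some
v in T u b a has b as the middle of (a, v). -/
def OptAt (Wr : Finset V) (T : V → V → V → Finset V) (ω : Sym2 V → V) (q : V × V) : Prop :=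
  ω s(q.1, q.2) ∈ Wr ∧ ∃ v ∈ T q.1 q.2 (ω s(q.1, q.2)), ω s(ω s(q.1, q.2), v) = q.2

open Classical in
/-- The failure probability of one pair. -/
theorem card_fail_le {G : SimpleGraph V} {g : V → V → V} (h : IsSys G g) (Wr : Finset V)
    (T : V → V → V → Finset V) {p μ : ℝ} (q : V × V) (hq : Q g q.1 q.2)
    (hp : (#(mids g s(q.1, q.2) ∩ Wrᶜ) : ℝ) ≤ p * #(mids g s(q.1, q.2)))
    (hT : ∀ a ∈ mids g s(q.1, q.2), a ∈ Wr → ∀ v ∈ T q.1 q.2 a, Q g a v ∧ Used g q.2 v)
    (hμ : ∀ a ∈ mids g s(q.1, q.2), a ∈ Wr →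
      μ ≤ ∑ v ∈ T q.1 q.2 a, (1 : ℝ) / #(mids g s(a, v))) :
    (#{ω ∈ Fintype.piFinset (mids g) | ¬ OptAt Wr T ω q} : ℝ) ≤
      (p + Real.exp (-μ)) * #(Fintype.piFinset (mids g)) := by
  set O := mids g with hO
  set e : Sym2 V := s(q.1, q.2) with he
  -- first case: the middle vertex is not in Wr
  have h1 : (#{ω ∈ Fintype.piFinset O | ∀ i ∈ ({e} : Finset (Sym2 V)), ω i ∈ Wrᶜ} : ℝ) ≤
      p ^ #({e} : Finset (Sym2 V)) * #(Fintype.piFinset O) := by
    apply card_all_hit_le O {e} (fun _ => Wrᶜ)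
    intro i hi
    rw [mem_singleton] at hi
    rw [hi]
    exact hp
  rw [card_singleton, pow_one] at h1
  -- second case
  have h2 : (#{ω ∈ Fintype.piFinset O | ω e ∈ Wr ∧ ∀ v ∈ T q.1 q.2 (ω e),
      ω s(ω e, v) ≠ q.2} : ℝ) ≤ Real.exp (-μ) * #(Fintype.piFinset O) := by
    apply cond_bound O {e}
    intro ω0 h0
    have ha : ω0 e ∈ O e := Fintype.mem_piFinset.1 h0 e
    set a := ω0 e with hadef
    by_cases haW : a ∈ Wr
    · -- the indices s(a, v)
      have hua : Used g q.1 a ∧ Used g q.2 a := by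
        have := ha
        rw [hO, he, mem_mids hq] at this
        exact this
      have hinj : Set.InjOn (fun v => (s(a, v) : Sym2 V)) (T q.1 q.2 a : Set V) := by
        intro v _ v' _ hvv
        simp only at hvv
        rcases Sym2.eq_iff.1 hvv with ⟨_, h4⟩ | ⟨h4, h5⟩
        · exact h4
        · rw [← h4, h5]
      have hdis : ∀ v, (s(a, v) : Sym2 V) ≠ e := by
        intro v hv
        rw [he] at hv
        rcases Sym2.eq_iff.1 hv with ⟨h4, _⟩ | ⟨h4, _⟩
        · exact hua.1.1 h4.symm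
        · exact hua.2.1 h4.symm
      have h3 := T1 (freeze O {e} ω0) ((T q.1 q.2 a).image (fun v => (s(a, v) : Sym2 V)))
        (fun _ => {q.2}) (μ := μ) (by
          rw [sum_image hinj]
          refine (hμ a ha haW).trans (sum_le_sum ?_)
          intro v hv
          have hfr : freeze O {e} ω0 s(a, v) = O s(a, v) :=
            freeze_of_notMem (by rw [mem_singleton]; exact hdis v)
          rw [hfr]
          obtain ⟨h4, h5⟩ := hT a ha haW v hv
          have h6 : q.2 ∈ O s(a, v) := by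
            rw [hO, mem_mids h4]
            exact ⟨h.used_symm hua.2, h.used_symm h5⟩
          have h7 : O s(a, v) ∩ {q.2} = {q.2} := by
            rw [inter_eq_right, singleton_subset_iff]
            exact h6
          rw [h7, card_singleton]
          simp)
      refine le_trans ?_ h3
      have h8 : #{ω ∈ Fintype.piFinset (freeze O {e} ω0) | ω e ∈ Wr ∧
            ∀ v ∈ T q.1 q.2 (ω e), ω s(ω e, v) ≠ q.2} ≤
          #{ω ∈ Fintype.piFinset (freeze O {e} ω0) |
            ∀ i ∈ (T q.1 q.2 a).image (fun v => (s(a, v) : Sym2 V)),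
              ω i ∉ ({q.2} : Finset V)} := by
        apply card_le_card
        intro ω hω
        rw [mem_filter] at hω ⊢
        refine ⟨hω.1, ?_⟩
        have h9 := (mem_freeze h0).1 hω.1
        have h10 : ω e = a := h9.2 e (mem_singleton_self e)
        intro i hi
        rw [mem_image] at hi
        obtain ⟨v, hv, rfl⟩ := hi
        rw [mem_singleton]
        have h11 := hω.2.2
        rw [h10] at h11
        exact h11 v hv
      exact_mod_cast h8
    · have h3 : ({ω ∈ Fintype.piFinset (freeze O {e} ω0) | ω e ∈ Wr ∧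
          ∀ v ∈ T q.1 q.2 (ω e), ω s(ω e, v) ≠ q.2}) = ∅ := by
        apply filter_eq_empty_iff.2
        intro ω hω hc
        have h4 := (mem_freeze h0).1 hω
        rw [h4.2 e (mem_singleton_self e)] at hc
        exact haW hc.1
      rw [h3]
      simp only [card_empty, Nat.cast_zero]
      positivity
  have h3 : ({ω ∈ Fintype.piFinset O | ¬ OptAt Wr T ω q}) ⊆
      ({ω ∈ Fintype.piFinset O | ∀ i ∈ ({e} : Finset (Sym2 V)), ω i ∈ Wrᶜ}) ∪
      ({ω ∈ Fintype.piFinset O | ω e ∈ Wr ∧ ∀ v ∈ T q.1 q.2 (ω e), ω s(ω e, v) ≠ q.2}) := by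
    intro ω hω
    rw [mem_filter] at hω
    rw [mem_union, mem_filter, mem_filter]
    by_cases hW : ω e ∈ Wr
    · right
      refine ⟨hω.1, hW, ?_⟩
      intro v hv heq
      exact hω.2 ⟨hW, v, hv, heq⟩
    · left
      refine ⟨hω.1, ?_⟩
      intro i hi
      rw [mem_singleton] at hi
      rw [hi, mem_compl]
      exact hW
  have h4 : (#{ω ∈ Fintype.piFinset O | ¬ OptAt Wr T ω q} : ℝ) ≤
      (#{ω ∈ Fintype.piFinset O | ∀ i ∈ ({e} : Finset (Sym2 V)), ω i ∈ Wrᶜ} : ℝ) +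
      (#{ω ∈ Fintype.piFinset O | ω e ∈ Wr ∧ ∀ v ∈ T q.1 q.2 (ω e),
        ω s(ω e, v) ≠ q.2} : ℝ) := by
    exact_mod_cast (card_le_card h3).trans (card_union_le _ _)
  linarith

open Classical in
/-- Markov: few choices have fewer than 2/3 of the pairs of B with an option. -/
theorem card_few_opt_le {G : SimpleGraph V} {g : V → V → V} (h : IsSys G g) (Wr : Finset V)
    (T : V → V → V → Finset V) {p μ : ℝ} (hp0 : 0 ≤ p) (B : Finset (V × V))
    (hq : ∀ q ∈ B, Q g q.1 q.2)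
    (hp : ∀ q ∈ B, (#(mids g s(q.1, q.2) ∩ Wrᶜ) : ℝ) ≤ p * #(mids g s(q.1, q.2)))
    (hT : ∀ q ∈ B, ∀ a ∈ mids g s(q.1, q.2), a ∈ Wr →
      ∀ v ∈ T q.1 q.2 a, Q g a v ∧ Used g q.2 v)
    (hμ : ∀ q ∈ B, ∀ a ∈ mids g s(q.1, q.2), a ∈ Wr →
      μ ≤ ∑ v ∈ T q.1 q.2 a, (1 : ℝ) / #(mids g s(a, v))) :
    (#{ω ∈ Fintype.piFinset (mids g) |
      (#{q ∈ B | OptAt Wr T ω q} : ℝ) < 2 / 3 * #B} : ℝ) ≤
      3 * (p + Real.exp (-μ)) * #(Fintype.piFinset (mids g)) := by
  set O := mids g with hO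
  have hpos : 0 < p + Real.exp (-μ) := add_pos_of_nonneg_of_pos hp0 (Real.exp_pos _)
  rcases B.eq_empty_or_nonempty with hB | hB
  · have h0 : ({ω ∈ Fintype.piFinset O |
      (#{q ∈ B | OptAt Wr T ω q} : ℝ) < 2 / 3 * #B}) = ∅ := by
      apply filter_eq_empty_iff.2
      intro ω _ hc
      rw [hB] at hc
      simp at hc
    rw [h0, card_empty, Nat.cast_zero]
    exact mul_nonneg (by linarith) (Nat.cast_nonneg _)
  · have hBpos : (0 : ℝ) < #B := by exact_mod_cast card_pos.2 hB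
    set F := ({ω ∈ Fintype.piFinset O |
      (#{q ∈ B | OptAt Wr T ω q} : ℝ) < 2 / 3 * #B}) with hF
    have h1 : (∑ ω ∈ Fintype.piFinset O, (#{q ∈ B | ¬ OptAt Wr T ω q} : ℕ)) =
        ∑ q ∈ B, (#{ω ∈ Fintype.piFinset O | ¬ OptAt Wr T ω q} : ℕ) := by
      simp only [card_filter]
      exact sum_comm
    have h2 : (∑ q ∈ B, (#{ω ∈ Fintype.piFinset O | ¬ OptAt Wr T ω q} : ℝ)) ≤
        ∑ _q ∈ B, (p + Real.exp (-μ)) * #(Fintype.piFinset O) :=
      sum_le_sum (fun q hqB => card_fail_le h Wr T q (hq q hqB) (hp q hqB) (hT q hqB)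
        (hμ q hqB))
    have h3 : (∑ ω ∈ F, (1 / 3 : ℝ) * #B) ≤
        ∑ ω ∈ F, (#{q ∈ B | ¬ OptAt Wr T ω q} : ℝ) := by
      apply sum_le_sum
      intro ω hω
      rw [hF, mem_filter] at hω
      have h4 : (#{q ∈ B | OptAt Wr T ω q} : ℝ) + #{q ∈ B | ¬ OptAt Wr T ω q} = #B := by
        exact_mod_cast card_filter_add_card_filter_not (s := B) (fun q => OptAt Wr T ω q)
      linarith [hω.2]
    have h5 : (∑ ω ∈ F, (#{q ∈ B | ¬ OptAt Wr T ω q} : ℝ)) ≤
        ∑ ω ∈ Fintype.piFinset O, (#{q ∈ B | ¬ OptAt Wr T ω q} : ℝ) :=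
      sum_le_sum_of_subset_of_nonneg (filter_subset _ _) (fun _ _ _ => Nat.cast_nonneg _)
    have h6 : (∑ ω ∈ Fintype.piFinset O, (#{q ∈ B | ¬ OptAt Wr T ω q} : ℝ)) =
        ∑ q ∈ B, (#{ω ∈ Fintype.piFinset O | ¬ OptAt Wr T ω q} : ℝ) := by
      exact_mod_cast h1
    rw [sum_const, nsmul_eq_mul] at h2 h3
    have h7 : (#F : ℝ) * (1 / 3 * #B) ≤
        #B * ((p + Real.exp (-μ)) * #(Fintype.piFinset O)) := by linarith
    have h8 : (#B : ℝ) * #F ≤
        #B * (3 * (p + Real.exp (-μ)) * #(Fintype.piFinset O)) := by nlinarith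
    exact le_of_mul_le_mul_left h8 hBpos

end CEB
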