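import Pool.Agent.Work.MP_ceb7a8_co.M43Reg
import Pool.Agent.Work.MP_ceb7a8_co.M43Count
import Pool.Agent.Work.MP_ceb7a8_co.M43Opt

/-!
Lemma 8 in the product classes, and Theorem M: metrizable systems are rare.  Author: helper43.
-/

namespace CEB

namespace Det

open Finset

noncomputable section

open scoped Classical

variable {V : Type*} [Fintype V] {G : SimpleGraph V} {g g' : V → V → V}

/-- regular vertices that are not hubs -/
def UU (G : SimpleGraph V) (g : V → V → V) : Finset V := reg G g \ hub g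

/-- the pairs (u, b) where an option is looked for -/
def B0 (G : SimpleGraph V) (g : V → V → V) : Finset (V × V) :=
  univ.filter fun q => q.1 ∈ UU G g ∧ q.2 ∈ hubr G g ∧ Q g q.1 q.2 ∧ q.2 ∉ exc G g q.1

/-- the possible last vertices v of an option u a b v -/
def TT (G : SimpleGraph V) (g : V → V → V) (u b a : V) : Finset V :=
  univ.filter fun v => v ∈ UU G g ∧ v ≠ u ∧ Used g b v ∧ Q g a v ∧ Q g u v ∧ v ∉ exc G g u

/-- the pair (u, b) has an option -/
def HasO (G : SimpleGraph V) (g : V → V → V) (q : V × V) : Prop :=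
  g q.1 q.2 ∈ hubr G g ∧ ∃ v ∈ TT G g q.1 q.2 (g q.1 q.2), g (g q.1 q.2) v = q.2

/-- few pairs have an option -/
def Few (G : SimpleGraph V) (g : V → V → V) : Prop :=
  (((B0 G g).filter fun q => HasO G g q).card : ℝ) < 2 / 3 * ((B0 G g).card : ℝ)

theorem mem_UU {v : V} : v ∈ UU G g ↔ v ∈ reg G g ∧ v ∉ hub g := by simp [UU]

theorem mem_B0 {q : V × V} : q ∈ B0 G g ↔ q.1 ∈ UU G g ∧ q.2 ∈ hubr G g ∧ Q g q.1 q.2 ∧
    q.2 ∉ exc G g q.1 := by simp [B0]

theorem mem_TT {u b a v : V} : v ∈ TT G g u b a ↔ v ∈ UU G g ∧ v ≠ u ∧ Used g b v ∧ Q g a v ∧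
    Q g u v ∧ v ∉ exc G g u := by simp [TT]

theorem UU_sgt (h : sgt g' = sgt g) : UU G g' = UU G g := by
  unfold UU
  rw [reg_sgt h, hub_sgt h]

theorem B0_sgt (h : sgt g' = sgt g) : B0 G g' = B0 G g := by
  ext q
  rw [mem_B0, mem_B0, UU_sgt h, hubr_sgt h, sgt_q h, exc_sgt h]

theorem TT_sgt (h : sgt g' = sgt g) (u b a : V) : TT G g' u b a = TT G g u b a := by
  ext v
  rw [mem_TT, mem_TT, UU_sgt h, sgt_used h, sgt_q h, sgt_q h, exc_sgt h]

omit [Fintype V] in
theorem cu (A B : Finset V) : ((A ∪ B).card : ℝ) ≤ A.card + B.card := by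
  exact_mod_cast card_union_le A B

/-- for a regular hub b there are many u with (u, b) in B0 -/
theorem fiber_ge (hg : IsSys G g) (hG : QR G) (hn : Big (Fintype.card V)) (hs : S3 G g) {b : V}
    (hb : b ∈ hubr G g) :
    49 / 100 * nn V ≤ ((univ.filter fun u : V => (u, b) ∈ B0 G g).card : ℝ) := by
  have hb' := mem_hubr.1 hb
  set S := univ.filter fun u : V => (u, b) ∈ B0 G g with hS
  have hsub : (univ : Finset V) ⊆ S ∪ gn G b ∪ (univ \ reg G g) ∪ hub g ∪ bad G g b ∪
      exc G g b := by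
    intro u _
    simp only [mem_union, hS, mem_filter, mem_sdiff, mem_univ, true_and, mem_B0]
    by_cases h1 : u ∈ reg G g
    · by_cases h2 : u ∈ hub g
      · tauto
      · by_cases h3 : u ∈ gn G b
        · tauto
        · by_cases h4 : u ∈ bad G g b
          · tauto
          · by_cases h5 : u ∈ exc G g b
            · tauto
            · have h6 : Q g u b := by
                apply hg.q_symm
                apply q_of_not_adj
                · rintro rfl; exact h2 hb'.1
                · rwa [mem_gn] at h3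
                · exact h4
              have h7 : b ∉ exc G g u := fun h => h5 (exc_symm.1 h)
              have h8 : u ∈ UU G g := mem_UU.2 ⟨h1, h2⟩
              tauto
    · tauto
  have h1 : nn V ≤ (S.card : ℝ) + (gn G b).card + (univ \ reg G g).card + (hub g).card +
      (bad G g b).card + (exc G g b).card := by
    have h2 : nn V = ((univ : Finset V).card : ℝ) := rfl
    rw [h2]
    have h3 : ((univ : Finset V).card : ℝ) ≤ ((S ∪ gn G b ∪ (univ \ reg G g) ∪ hub g ∪
      bad G g b ∪ exc G g b).card : ℝ) := Nat.cast_le.2 (card_le_card hsub)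
    have h4 := cu (S ∪ gn G b ∪ (univ \ reg G g) ∪ hub g ∪ bad G g b) (exc G g b)
    have h5 := cu (S ∪ gn G b ∪ (univ \ reg G g) ∪ hub g) (bad G g b)
    have h6 := cu (S ∪ gn G b ∪ (univ \ reg G g)) (hub g)
    have h7 := cu (S ∪ gn G b) (univ \ reg G g)
    have h8 := cu S (gn G b)
    linarith
  have h2 := hG.gn_le b
  have h3 := irr_card hG hn hs
  have h4 := hs.s2
  have h5 := reg_bad hb'.2
  have h6 := exc_card hG hn hs hb'.2
  have h7 := hh_le hn
  have h8 := jj_le_hh hn
  have h9 := rr_le_hh hn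
  have h10 := hh_pos hn
  have h11 := rr_pos hn
  have h12 := jj_nonneg V
  unfold eta at h2
  nlinarith

/-- B0 is large -/
theorem B0_card (hg : IsSys G g) (hG : QR G) (hn : Big (Fintype.card V)) (hs : S3 G g) :
    47 / 100 * (nn V * hh V) ≤ ((B0 G g).card : ℝ) := by
  have h1 : (B0 G g).card = ∑ b ∈ hubr G g, ((B0 G g).filter fun q => q.2 = b).card := by
    apply card_eq_sum_card_fiberwise
    intro q hq
    exact (mem_B0.1 (mem_coe.1 hq)).2.1
  have h2 : ∀ b ∈ hubr G g, 49 / 100 * nn V ≤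
      (((B0 G g).filter fun q => q.2 = b).card : ℝ) := by
    intro b hb
    refine (fiber_ge hg hG hn hs hb).trans (Nat.cast_le.2 ?_)
    apply card_le_card_of_injOn (fun u => (u, b))
    · intro u hu
      have h3 := (mem_filter.1 (mem_coe.1 hu)).2
      exact mem_coe.2 (mem_filter.2 ⟨h3, rfl⟩)
    · intro u _ u' _ h
      exact (Prod.ext_iff.1 h).1
  have h3 : ((hubr G g).card : ℝ) * (49 / 100 * nn V) ≤
      ∑ b ∈ hubr G g, (((B0 G g).filter fun q => q.2 = b).card : ℝ) := by
    rw [← nsmul_eq_mul]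
    exact card_nsmul_le_sum _ _ _ h2
  have h4 := hubr_card_ge hG hn hs
  have h5 : 0 ≤ nn V := Nat.cast_nonneg _
  rw [h1]
  push_cast
  refine le_trans ?_ h3
  have h6 := hh_pos hn
  have h7 : 96 / 100 * hh V * (49 / 100 * nn V) ≤ ((hubr G g).card : ℝ) * (49 / 100 * nn V) :=
    mul_le_mul_of_nonneg_right h4 (by linarith)
  have h8 : 0 ≤ nn V * hh V := mul_nonneg h5 h6.le
  nlinarith

/-- TT is large -/
theorem TT_card (hg : IsSys G g) (hG : QR G) (hn : Big (Fintype.card V)) (hs : S3 G g)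
    {u b a : V} (hu : u ∈ UU G g) (hb : b ∈ hubr G g) (ha : a ∈ hubr G g) (hab : a ≠ b) :
    19 / 100 * nn V ≤ ((TT G g u b a).card : ℝ) := by
  have hb' := mem_hubr.1 hb
  have ha' := mem_hubr.1 ha
  have hu' := mem_UU.1 hu
  set S := TT G g u b a with hS
  have hsub : nb g b ⊆ S ∪ (univ \ reg G g) ∪ hub g ∪ {u} ∪ (gn G a ∩ gn G b) ∪ bad G g a ∪
      bad G g u ∪ exc G g u := by
    intro v hv
    have hvG := nb_sub_gn hg b hv
    rw [mem_nb] at hv
    simp only [mem_union, hS, mem_TT, mem_sdiff, mem_univ, true_and, mem_singleton, mem_inter]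
    by_cases h1 : v ∈ reg G g
    · by_cases h2 : v ∈ hub g
      · tauto
      · by_cases h3 : v ∈ gn G a
        · tauto
        · by_cases h4 : v ∈ bad G g a
          · tauto
          · by_cases h5 : v ∈ bad G g u
            · tauto
            · by_cases h6 : v ∈ exc G g u
              · tauto
              · by_cases h7 : v = u
                · tauto
                · have h8 : Q g a v := by
                    apply q_of_not_adj
                    · rintro rfl; exact h2 ha'.1
                    · rwa [mem_gn] at h3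
                    · exact h4
                  have h9 : Q g u v := q_of_not_hub (fun h => h7 h.symm) hu'.2 h2 h5
                  have h10 : v ∈ UU G g := mem_UU.2 ⟨h1, h2⟩
                  tauto
    · tauto
  have h1 : ((nb g b).card : ℝ) ≤ (S.card : ℝ) + (univ \ reg G g).card + (hub g).card + 1 +
      (gn G a ∩ gn G b).card + (bad G g a).card + (bad G g u).card + (exc G g u).card := by
    have h3 : ((nb g b).card : ℝ) ≤ ((S ∪ (univ \ reg G g) ∪ hub g ∪ {u} ∪
      (gn G a ∩ gn G b) ∪ bad G g a ∪ bad G g u ∪ exc G g u).card : ℝ) :=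
      Nat.cast_le.2 (card_le_card hsub)
    have h4 := cu (S ∪ (univ \ reg G g) ∪ hub g ∪ {u} ∪
      (gn G a ∩ gn G b) ∪ bad G g a ∪ bad G g u) (exc G g u)
    have h5 := cu (S ∪ (univ \ reg G g) ∪ hub g ∪ {u} ∪
      (gn G a ∩ gn G b) ∪ bad G g a) (bad G g u)
    have h6 := cu (S ∪ (univ \ reg G g) ∪ hub g ∪ {u} ∪ (gn G a ∩ gn G b)) (bad G g a)
    have h7 := cu (S ∪ (univ \ reg G g) ∪ hub g ∪ {u}) (gn G a ∩ gn G b)
    have h8 := cu (S ∪ (univ \ reg G g) ∪ hub g) {u}
    have h9 := cu (S ∪ (univ \ reg G g)) (hub g)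
    have h10 := cu S (univ \ reg G g)
    rw [card_singleton, Nat.cast_one] at h8
    linarith
  have h2 := hG.co_le hab
  have h3 := irr_card hG hn hs
  have h4 := hs.s2
  have h5 := reg_bad ha'.2
  have h6 := reg_bad hu'.1
  have h7 := exc_card hG hn hs hu'.1
  have h8 : 9 / 20 * nn V ≤ ((nb g b).card : ℝ) := (mem_filter.1 hb'.1).2
  have h9 := hh_le hn
  have h10 := jj_le_hh hn
  have h11 := rr_le_hh hn
  have h12 := hh_pos hn
  have h13 := one_le_rr hn
  have h14 := jj_nonneg V
  unfold eta at h2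
  nlinarith

/-- Lemma 8. -/
theorem few_rare (hG : QR G) (hn : Big (Fintype.card V)) (hg : IsSys G g) (hs : S3 G g) :
    (((Fintype.piFinset (mids g)).filter fun ω => Few G (mk g ω)).card : ℝ) ≤
      3 * (2 * jj V / (23 / 100 * hh V) + Real.exp (-(15 / 100 * LL V))) *
        ((Fintype.piFinset (mids g)).card : ℝ) := by
  have hhp := hh_pos hn
  have hj := jj_nonneg V
  have hL := LL_pos hn
  have key := card_few_opt_le hg (hubr G g) (TT G g) (p := 2 * jj V / (23 / 100 * hh V))
    (μ := 15 / 100 * LL V) (by positivity) (B0 G g)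
    (fun q hq => (mem_B0.1 hq).2.2.1)
    (by
      intro q hq
      obtain ⟨h1, h2, h3, h4⟩ := mem_B0.1 hq
      have h1' := mem_UU.1 h1
      have h2' := mem_hubr.1 h2
      have h5 := mids_compl_le hg hG hn hs h3 h1'.1 h1'.2
      have h6 := mids_ge hG hn hs h3 h1'.1 h2'.2 h4
      refine h5.trans ?_
      rw [div_mul_eq_mul_div, le_div_iff₀ (by positivity)]
      exact mul_le_mul_of_nonneg_left h6 (by positivity))
    (by
      intro q _ a _ _ v hv
      obtain ⟨_, _, h5, h6, _⟩ := mem_TT.1 hv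
      exact ⟨h6, h5⟩)
    (by
      intro q hq a ha haW
      obtain ⟨h1, h2, h3, h4⟩ := mem_B0.1 hq
      have h5 := (mem_mids h3).1 ha
      have hab : a ≠ q.2 := fun h => h5.2.1 h.symm
      have h6 := TT_card hg hG hn hs h1 h2 haW hab
      have h7 : ∀ v ∈ TT G g q.1 q.2 a, 1 / (12 / 10 * hh V) ≤
          (1 : ℝ) / (mids g s(a, v)).card := by
        intro v hv
        obtain ⟨k1, k2, k3, k4, _⟩ := mem_TT.1 hv
        have k1' := mem_UU.1 k1
        have k5 := mids_le hg hn hs (hg.q_symm k4) k1'.1 k1'.2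
        rw [Sym2.eq_swap] at k5
        have k6 : q.2 ∈ mids g s(a, v) := by
          rw [mem_mids k4]
          exact ⟨hg.used_symm h5.2, hg.used_symm k3⟩
        have k7 : (0 : ℝ) < (mids g s(a, v)).card := by
          exact_mod_cast card_pos.2 ⟨_, k6⟩
        exact one_div_le_one_div_of_le k7 k5
      have h8 : ((TT G g q.1 q.2 a).card : ℝ) * (1 / (12 / 10 * hh V)) ≤
          ∑ v ∈ TT G g q.1 q.2 a, (1 : ℝ) / (mids g s(a, v)).card := by
        rw [← nsmul_eq_mul]
        exact card_nsmul_le_sum _ _ _ h7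
      refine le_trans ?_ h8
      have h9 := hh_mul hn
      rw [mul_one_div, le_div_iff₀ (by positivity)]
      have h10 : 0 ≤ hh V * LL V := by positivity
      nlinarith)
  refine le_trans ?_ key
  refine Nat.cast_le.2 (card_le_card ?_)
  intro ω hω
  rw [mem_filter] at hω ⊢
  refine ⟨hω.1, ?_⟩
  have hsg := sgt_mk hg hω.1
  have h1 := hω.2
  unfold Few at h1
  rw [B0_sgt hsg] at h1
  refine lt_of_le_of_lt ?_ h1
  refine Nat.cast_le.2 (card_le_card ?_)
  intro q hq
  rw [mem_filter] at hq ⊢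
  refine ⟨hq.1, ?_⟩
  obtain ⟨_, _, h3, _⟩ := mem_B0.1 hq.1
  obtain ⟨h4, v, h5, h6⟩ := hq.2
  have h7 : mk g ω q.1 q.2 = ω s(q.1, q.2) := mk_q h3
  unfold HasO
  rw [h7, hubr_sgt hsg]
  refine ⟨h4, v, ?_, ?_⟩
  · rw [TT_sgt hsg]; exact h5
  · rw [mk_q (mem_TT.1 h5).2.2.2.1]
    exact h6

/-- the crossing event of Lemma 6 -/
def Cr (G : SimpleGraph V) (g : V → V → V) : Prop :=
  ∀ u ∈ reg G g \ hub g, SCross g u (nb g u ∩ hubr G g) (hh V / 20)

/-- the failure of the crossing event -/
def NCr (G : SimpleGraph V) (g : V → V → V) : Prop := ¬ Cr G g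

/-- an option gives a switch -/
theorem hasSw_of_hasO (hG : QR G) (hn : Big (Fintype.card V)) (hg : IsSys G g) (hs : S3 G g)
    (hc : Cr G g) {q : V × V} (hq : q ∈ B0 G g) (ho : HasO G g q) :
    HasSw G g (fun u => nb g u ∩ hubr G g) (hh V / 20) q.1 q.2 := by
  obtain ⟨h1, h2, h3, h4⟩ := mem_B0.1 hq
  obtain ⟨h5, v, h6, h7⟩ := ho
  obtain ⟨k1, k2, k3, k4, k5, k6⟩ := mem_TT.1 h6
  have h1' := mem_UU.1 h1
  have k1' := mem_UU.1 k1
  refine ⟨v, g q.1 q.2, ?_⟩
  exact {
    q := k5
    opt := ⟨h3.1, k4.1.symm, rfl, by rw [← k4.2.2.1]; exact h7⟩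
    ne := h3.2.1
    mem_left := mem_inter.2 ⟨mem_nb.2 (hg.used_first h3.1), h5⟩
    mem_right := mem_inter.2 ⟨mem_nb.2 (hg.used_symm k3), h2⟩
    cross_left := hc q.1 h1
    cross_right := hc v k1
    inter := by
      have h8 := common_ge hG hn hs h1'.1 k1'.1 k6
      have h9 : nb g q.1 ∩ nb g v ∩ hubr G g ⊆
          nb g q.1 ∩ hubr G g ∩ (nb g v ∩ hubr G g) := by
        intro z hz
        simp only [mem_inter] at hz ⊢
        tauto
      have h10 : ((nb g q.1 ∩ nb g v ∩ hubr G g).card : ℝ) ≤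
          ((nb g q.1 ∩ hubr G g ∩ (nb g v ∩ hubr G g)).card : ℝ) :=
        Nat.cast_le.2 (card_le_card h9)
      have h11 := hh_pos hn
      linarith }

/-- the union of few exceptional events: numerics -/
theorem metr_num (hn : Big (Fintype.card V)) :
    20 / 3 / hh V + (1 / nn V + 3 * (2 * jj V / (23 / 100 * hh V) +
      Real.exp (-(15 / 100 * LL V)))) ≤ 1 / LL V := by
  obtain ⟨hL, he, h0, h1⟩ := big_facts hn
  have hLp := LL_pos hn
  have hhp := hh_pos hn
  have hj := jj_nonneg V
  have hm := hh_mul hn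
  have h2 := LL_le_hh hn
  have a1 : 20 / 3 / hh V ≤ 1 / 10 * (1 / LL V) := by
    rw [div_le_iff₀ hhp]
    have : 1 / 10 * (1 / LL V) * hh V = hh V / (10 * LL V) := by field_simp
    rw [this, le_div_iff₀ (by positivity)]
    nlinarith
  have a2 : 1 / nn V ≤ 1 / 10 * (1 / LL V) := by
    rw [div_le_iff₀ h0]
    have : 1 / 10 * (1 / LL V) * nn V = nn V / (10 * LL V) := by field_simp
    rw [this, le_div_iff₀ (by positivity)]
    nlinarith
  have a3 : 3 * (2 * jj V / (23 / 100 * hh V)) ≤ 1 / 10 * (1 / LL V) := by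
    have h3 := jj_le hn
    have h4 : 10 ^ 49 * (jj V * LL V) ≤ hh V := by
      rw [← hm] at h3
      have h5 : 10 ^ 50 * (jj V * LL V ^ 2) * LL V ≤ hh V * LL V := by
        have : 10 ^ 50 * (jj V * LL V ^ 2) * LL V = 10 ^ 50 * (jj V * LL V ^ 3) := by ring
        rw [this]; exact h3
      have h6 := le_of_mul_le_mul_right h5 hLp
      have h7 : jj V * LL V * 1 ≤ jj V * LL V * LL V :=
        mul_le_mul_of_nonneg_left (le_trans (by norm_num) hL) (by positivity)
      have h8 : jj V * LL V * LL V = jj V * LL V ^ 2 := by ring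
      have h9 : 0 ≤ jj V * LL V := by positivity
      nlinarith
    have h5 : 3 * (2 * jj V / (23 / 100 * hh V)) = 600 / 23 * jj V / hh V := by
      field_simp
      ring
    rw [h5, div_le_iff₀ hhp]
    have : 1 / 10 * (1 / LL V) * hh V = hh V / (10 * LL V) := by field_simp
    rw [this, le_div_iff₀ (by positivity)]
    have h9 : 0 ≤ jj V * LL V := by positivity
    nlinarith
  have a4 : 3 * Real.exp (-(15 / 100 * LL V)) ≤ 1 / 10 * (1 / LL V) := by
    have h3 := exp_big (c := 15 / 100) (by norm_num) hL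
    rw [Real.exp_neg]
    have h4 : 0 < Real.exp (15 / 100 * LL V) := Real.exp_pos _
    have h5 : 30 * LL V ≤ Real.exp (15 / 100 * LL V) := by
      have h6 : (1 : ℝ) ≤ LL V := le_trans (by norm_num) hL
      have h7 : LL V ≤ LL V ^ 3 := by
        calc LL V = LL V ^ 1 := (pow_one _).symm
          _ ≤ LL V ^ 3 := pow_le_pow_right₀ h6 (by norm_num)
      nlinarith
    have h6 : (Real.exp (15 / 100 * LL V))⁻¹ ≤ (30 * LL V)⁻¹ :=
      inv_anti₀ (by positivity) h5
    have h7 : 3 * (30 * LL V)⁻¹ = 1 / 10 * (1 / LL V) := by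
      field_simp
      norm_num
    linarith
  have h3 : 0 < 1 / LL V := by positivity
  have h4 : 3 * (2 * jj V / (23 / 100 * hh V) + Real.exp (-(15 / 100 * LL V))) =
      3 * (2 * jj V / (23 / 100 * hh V)) + 3 * Real.exp (-(15 / 100 * LL V)) := by ring
  rw [h4]
  linarith

/-- Theorem M, from Lemma 6. -/
theorem metr_rare_of (hG : QR G) (hn : Big (Fintype.card V))
    (h6 : ∀ g : V → V → V, IsSys G g → S3 G g →
      (((Fintype.piFinset (mids g)).filter fun ω => ¬ ∀ u ∈ reg G g \ hub g,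
        SCross (mk g ω) u (nb g u ∩ hubr G g) (hh V / 20)).card : ℝ) ≤
        1 / nn V * ((Fintype.piFinset (mids g)).card : ℝ)) :
    (((PS G).filter fun g => Struct G g ∧ Metr G g).card : ℝ) ≤
      1 / LL V * ((PS G).card : ℝ) := by
  have hPS : ∀ g, g ∈ PS G ↔ IsSys G g := fun g => by simp [PS]
  have hT : ∀ g g' : V → V → V, IsSys G g → IsSys G g' → sgt g' = sgt g → S3 G g' →
      S3 G g := fun g g' _ _ h1 h2 => s3_sgt h1 h2
  obtain ⟨hL, he, h0, h1⟩ := big_facts hn
  have hLp := LL_pos hn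
  have hhp := hh_pos hn
  have hj := jj_nonneg V
  -- systems without crossings
  have b1 : (((PS G).filter fun g => S3 G g ∧ NCr G g).card : ℝ) ≤
      1 / nn V * ((PS G).card : ℝ) := by
    apply class_bound (PS G) hPS (S3 G) (NCr G) hT (by positivity)
    intro g hg hs
    refine le_trans (Nat.cast_le.2 (card_le_card ?_)) (h6 g ((hPS g).1 hg) hs)
    intro ω hω
    rw [mem_filter] at hω ⊢
    refine ⟨hω.1, ?_⟩
    have hsg := sgt_mk ((hPS g).1 hg) hω.1
    have h2 := hω.2
    unfold NCr Cr at h2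
    rw [reg_sgt hsg, hub_sgt hsg, hubr_sgt hsg] at h2
    simp only [nb_sgt hsg] at h2
    exact h2
  -- systems with few options
  have b2 : (((PS G).filter fun g => S3 G g ∧ Few G g).card : ℝ) ≤
      3 * (2 * jj V / (23 / 100 * hh V) + Real.exp (-(15 / 100 * LL V))) *
        ((PS G).card : ℝ) := by
    apply class_bound (PS G) hPS (S3 G) (fun g => Few G g) hT (by positivity)
    intro g hg hs
    exact few_rare hG hn ((hPS g).1 hg) hs
  -- good metrizable systems
  set F := (PS G).filter fun g => S3 G g ∧ Metr G g ∧ Cr G g ∧ ¬ Few G g with hF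
  have b3 : (F.card : ℝ) * (3 / 10 * (nn V * hh V)) ≤
      2 * (Fintype.card V : ℝ) * ((PS G).card : ℝ) := by
    apply card_metr_le (G := G) (N := fun g u => nb g u ∩ hubr G g) (r := hh V / 20) (PS G)
      (fun g hg => (hPS g).2 hg) F
    · intro g hg u a ha
      have hg' := mem_filter.1 hg
      exact mem_gn.1 (nb_sub_gn ((hPS g).1 hg'.1) u (mem_inter.1 ha).1)
    · intro g hg
      have hg' := mem_filter.1 hg
      exact ⟨(hPS g).1 hg'.1, hg'.2.2.1⟩
    · intro g hg
      have hg' := mem_filter.1 hg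
      have hgs := (hPS g).1 hg'.1
      obtain ⟨hs, _, hc, hf⟩ := hg'.2
      refine ⟨(B0 G g).filter fun q => HasO G g q, ?_, ?_⟩
      · unfold Few at hf
        rw [not_lt] at hf
        have h2 := B0_card hgs hG hn hs
        have h3 : 0 ≤ nn V * hh V := by positivity
        linarith
      · intro q hq
        rw [mem_filter] at hq
        exact hasSw_of_hasO hG hn hgs hs hc hq.1 hq.2
  have b4 : (F.card : ℝ) ≤ 20 / 3 / hh V * ((PS G).card : ℝ) := by
    have h2 : (Fintype.card V : ℝ) = nn V := rfl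
    rw [h2] at b3
    have h3 : (F.card : ℝ) * (3 / 10 * hh V) ≤ 2 * ((PS G).card : ℝ) := by
      have h4 : nn V * ((F.card : ℝ) * (3 / 10 * hh V)) ≤ nn V * (2 * ((PS G).card : ℝ)) := by
        linarith
      exact le_of_mul_le_mul_left h4 h0
    rw [div_mul_eq_mul_div, le_div_iff₀ hhp]
    linarith
  -- union
  have b5 : ((PS G).filter fun g => Struct G g ∧ Metr G g) ⊆
      F ∪ (((PS G).filter fun g => S3 G g ∧ NCr G g) ∪
        ((PS G).filter fun g => S3 G g ∧ Few G g)) := by
    intro g hg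
    rw [mem_filter] at hg
    have hs : S3 G g := S3.of_struct hg.2.1
    rw [mem_union, mem_union, hF, mem_filter, mem_filter, mem_filter]
    have h2 := hg.1
    have h3 := hg.2.2
    have h4 : Cr G g ∨ NCr G g := em (Cr G g)
    tauto
  have b6 : (((PS G).filter fun g => Struct G g ∧ Metr G g).card : ℝ) ≤
      F.card + ((((PS G).filter fun g => S3 G g ∧ NCr G g).card : ℝ) +
        (((PS G).filter fun g => S3 G g ∧ Few G g).card : ℝ)) := by
    have h2 := card_le_card b5
    have h3 := card_union_le F (((PS G).filter fun g => S3 G g ∧ NCr G g) ∪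
        ((PS G).filter fun g => S3 G g ∧ Few G g))
    have h4 := card_union_le ((PS G).filter fun g => S3 G g ∧ NCr G g)
        ((PS G).filter fun g => S3 G g ∧ Few G g)
    have h5 : ((PS G).filter fun g => Struct G g ∧ Metr G g).card ≤
      F.card + (((PS G).filter fun g => S3 G g ∧ NCr G g).card +
        ((PS G).filter fun g => S3 G g ∧ Few G g).card) := by omega
    exact_mod_cast h5
  have b7 := metr_num hn
  have b8 : (0 : ℝ) ≤ ((PS G).card : ℝ) := Nat.cast_nonneg _
  have b9 := mul_le_mul_of_nonneg_right b7 b8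
  refine b6.trans (le_trans ?_ b9)
  nlinarith

end

end Det

end CEB
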