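import Pool.Agent.Work.MP_ceb7a8_co.L6D
import Pool.Agent.Work.MP_ceb7a8_co.L6Ab
import Pool.Agent.Work.MP_ceb7a8_co.M43Thm

/-!
Lemma 6 from the three events.
-/

namespace CEB

namespace L6

open Finset Rg

noncomputable section

open scoped Classical

section main

variable {V : Type*} [Fintype V] {G : SimpleGraph V} {g : V → V → V} {u : V}
  {p p' : Sym2 V}

theorem part1_of (hG : QR G) (hn : Big (Fintype.card V)) (hg : IsSys G g) (ht : Typ G g)
    (hu : u ∈ reg G g) (hu' : u ∉ hub g) (p p' : Sym2 V)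
    (hb : (#{ω ∈ Fintype.piFinset (mids g) | ¬ ∀ Z ⊆ Nu G g u,
      (#(Nu G g u \ Z) : ℝ) ≤ nn V ^ (1 - CEB.sig / 2) →
      85 / 100 * nn V ≤ (#(SZ (Vu G g u p p') u ω Z) : ℝ)} : ℝ) ≤
      1 / 3 * Real.exp (-(8 * LL V)) * #(Fintype.piFinset (mids g))) :
    (#{ω ∈ Fintype.piFinset (mids g) | ¬ Good G g u p p' ω} : ℝ) ≤
      Real.exp (-(8 * LL V)) * #(Fintype.piFinset (mids g)) := by
  have hLp := LL_pos hn
  have ha := ev_a hG hn hg ht hu hu' p p'
  have hc := ev_c hn ht hu hu' p p'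
  set EA := {ω ∈ Fintype.piFinset (mids g) | ∃ Z ∈ (Nu G g u).powerset.filter (fun Z =>
      hh V / 20 ≤ (#Z : ℝ)), (hits ((Vu G g u p p').image (fun d => s(u, d)))
        (fun _ => Z) ω : ℝ) ≤ nn V / 60 / 2} with hEA
  set EB := {ω ∈ Fintype.piFinset (mids g) | ¬ ∀ Z ⊆ Nu G g u,
      (#(Nu G g u \ Z) : ℝ) ≤ nn V ^ (1 - CEB.sig / 2) →
      85 / 100 * nn V ≤ (#(SZ (Vu G g u p p') u ω Z) : ℝ)} with hEB
  set EC := {ω ∈ Fintype.piFinset (mids g) | ∃ k ∈ (Vu G g u p p') ×ˢ (univ : Finset V),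
      (10 ^ 9 : ℕ) ≤ hits (((Vu G g u p p').filter fun d => d ∈ bad G g k.1).image
        (fun d => s(u, d))) (fun _ => {k.2}) ω} with hEC
  have h1 : {ω ∈ Fintype.piFinset (mids g) | ¬ Good G g u p p' ω} ⊆ EA ∪ (EB ∪ EC) := by
    intro ω hω
    obtain ⟨h2, h3⟩ := mem_filter.1 hω
    by_cases hA : ∀ Z ⊆ Nu G g u, hh V / 20 ≤ (#Z : ℝ) →
        nn V / 120 ≤ (#(SZ (Vu G g u p p') u ω Z) : ℝ)
    · by_cases hB : ∀ Z ⊆ Nu G g u, (#(Nu G g u \ Z) : ℝ) ≤ nn V ^ (1 - CEB.sig / 2) →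
          85 / 100 * nn V ≤ (#(SZ (Vu G g u p p') u ω Z) : ℝ)
      · apply mem_union_right
        apply mem_union_right
        by_cases hC : ∀ c ∈ Vu G g u p p', ∀ x : V,
            (#((Vu G g u p p').filter fun d => d ∈ bad G g c ∧ ω s(u, d) = x) : ℝ) ≤ 10 ^ 9
        · exact absurd ⟨hA, hB, hC⟩ h3
        · push Not at hC
          obtain ⟨c, hc, x, hx⟩ := hC
          refine mem_filter.2 ⟨h2, (c, x), mem_product.2 ⟨hc, mem_univ _⟩, ?_⟩
          rw [hits_image, filter_filter]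
          simp only [mem_singleton]
          have h4 : (10 ^ 9 : ℕ) <
              #((Vu G g u p p').filter fun d => d ∈ bad G g c ∧ ω s(u, d) = x) := by
            exact_mod_cast hx
          exact h4.le
      · exact mem_union_right _ (mem_union_left _ (mem_filter.2 ⟨h2, hB⟩))
    · apply mem_union_left
      push Not at hA
      obtain ⟨Z, hZ, hr, hlt⟩ := hA
      refine mem_filter.2 ⟨h2, Z, mem_filter.2 ⟨mem_powerset.2 hZ, hr⟩, ?_⟩
      rw [hits_image]
      have h4 : (#{d ∈ Vu G g u p p' | ω s(u, d) ∈ Z} : ℝ) < nn V / 120 := hlt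
      linarith
  have h2 : (#{ω ∈ Fintype.piFinset (mids g) | ¬ Good G g u p p' ω} : ℝ) ≤
      #EA + (#EB + #EC) := by
    exact_mod_cast (card_le_card h1).trans ((card_union_le _ _).trans
      (Nat.add_le_add_left (card_union_le _ _) _))
  have h3 : Real.exp (-(20 * LL V)) ≤ 1 / 3 * Real.exp (-(8 * LL V)) := by
    have h9 : Real.exp (-(20 * LL V)) = Real.exp (-(12 * LL V)) * Real.exp (-(8 * LL V)) := by
      rw [← Real.exp_add]; ring_nf
    rw [h9]
    apply mul_le_mul_of_nonneg_right _ (Real.exp_pos _).le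
    rw [Real.exp_neg, one_div]
    apply inv_anti₀ (by norm_num)
    have := Real.add_one_le_exp (12 * LL V)
    have h10 : (1:ℝ) ≤ LL V := one_le_LL hn
    linarith
  have h4 : (0:ℝ) ≤ #(Fintype.piFinset (mids g)) := Nat.cast_nonneg _
  have h5 := mul_le_mul_of_nonneg_right h3 h4
  linarith

theorem typ_of_s3 (h : Det.S3 G g) : Typ G g := ⟨h.s1, h.s2, h.s3⟩

/-- events (a), (b), (c) hold with high probability in every class -/
theorem part1 (hG : QR G) (hn : Big (Fintype.card V)) (hg : IsSys G g) (ht : Typ G g)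
    (hu : u ∈ reg G g) (hu' : u ∉ hub g) (p p' : Sym2 V) :
    (#{ω ∈ Fintype.piFinset (mids g) | ¬ Good G g u p p' ω} : ℝ) ≤
      Real.exp (-(8 * LL V)) * #(Fintype.piFinset (mids g)) :=
  part1_of hG hn hg ht hu hu' p p' (event_b hG hn hg ht hu hu' p p')

end main

end

end L6

noncomputable section

open Finset

open scoped Classical

variable {V : Type*} [Fintype V] {G : SimpleGraph V}

/-- Lemma 6 -/
theorem lemma6 (hG : QR G) (hn : Big (Fintype.card V)) {g : V → V → V} (hg : IsSys G g)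
    (hs : Det.S3 G g) :
    (#{ω ∈ Fintype.piFinset (mids g) | ¬ ∀ u ∈ reg G g \ hub g,
      SCross (mk g ω) u (nb g u ∩ hubr G g) (hh V / 20)} : ℝ) ≤
      1 / nn V * #(Fintype.piFinset (mids g)) :=
  L6.lemma6_of hG hn hg (L6.typ_of_s3 hs)
    (fun _ hu hu' p p' => L6.part1 hG hn hg (L6.typ_of_s3 hs) hu hu' p p')

/-- Almost no path system with the typical structure is metrizable. -/
theorem metr_rare {G : SimpleGraph V} (hG : QR G) (hn : Big (Fintype.card V)) :
    (((PS G).filter fun g => Struct G g ∧ Metr G g).card : ℝ) ≤ 1 / LL V * (PS G).card :=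
  Det.metr_rare_of hG hn (fun _ hg hs => lemma6 hG hn hg hs)

end

end CEB
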