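import Mathlib

/-!
Counting tools for choice functions (product classes): the bounds T1, T2, T3 and conditioning.
All statements count elements of Fintype.piFinset O.
-/

namespace CEB

open Finset

section tools

variable {ι α : Type*} [Fintype ι] [DecidableEq ι] [DecidableEq α]

/-- The number of indices i in I with ω i in Y i. -/
def hits (I : Finset ι) (Y : ι → Finset α) (ω : ι → α) : ℕ := #{i ∈ I | ω i ∈ Y i}

omit [DecidableEq α] in
/-- Expectation of a product of functions of the coordinates. -/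
theorem sum_piFinset_prod (O : ι → Finset α) (φ : ι → α → ℝ) :
    ∑ ω ∈ Fintype.piFinset O, ∏ i, φ i (ω i) = ∏ i, ∑ a ∈ O i, φ i a :=
  (Finset.prod_univ_sum O φ).symm

theorem sum_prod_le (O : ι → Finset α) (I : Finset ι) (Y : ι → Finset α) (c : ℝ)
    (hc0 : 0 ≤ c) :
    ∑ ω ∈ Fintype.piFinset O, ∏ i ∈ I, (if ω i ∈ Y i then c else 1) ≤
      Real.exp (-(1 - c) * ∑ i ∈ I, (#(O i ∩ Y i) : ℝ) / #(O i)) *
        #(Fintype.piFinset O) := by
  classical
  have h1 : ∀ ω : ι → α, ∏ i ∈ I, (if ω i ∈ Y i then c else 1) =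
      ∏ i, (if i ∈ I then (if ω i ∈ Y i then c else 1) else 1) := by
    intro ω
    rw [Finset.prod_ite_mem, Finset.univ_inter]
  have h2 : ∑ ω ∈ Fintype.piFinset O, ∏ i ∈ I, (if ω i ∈ Y i then c else 1) =
      ∏ i, ∑ a ∈ O i, (if i ∈ I then (if a ∈ Y i then c else 1) else 1) := by
    rw [Finset.sum_congr rfl (fun ω _ => h1 ω)]
    exact sum_piFinset_prod O (fun i a => if i ∈ I then (if a ∈ Y i then c else 1) else 1)
  rw [h2]
  have h3 : ∀ i, ∑ a ∈ O i, (if i ∈ I then (if a ∈ Y i then c else 1) else 1) ≤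
      Real.exp (if i ∈ I then -(1 - c) * ((#(O i ∩ Y i) : ℝ) / #(O i)) else 0) * #(O i) := by
    intro i
    by_cases hi : i ∈ I
    · simp only [hi, if_true]
      have h4 : ∑ a ∈ O i, (if a ∈ Y i then c else 1) =
          (#(O i) : ℝ) - (1 - c) * #(O i ∩ Y i) := by
        rw [Finset.sum_ite, Finset.sum_const, Finset.sum_const, nsmul_eq_mul, nsmul_eq_mul,
          Finset.filter_mem_eq_inter]
        have h5 : #(O i \ Y i) + #(O i ∩ Y i) = #(O i) := card_sdiff_add_card_inter _ _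
        have h6 : #({x ∈ O i | x ∉ Y i}) = #(O i \ Y i) := by
          congr 1
          ext x
          simp [mem_sdiff]
        rw [h6]
        have h7 : (#(O i \ Y i) : ℝ) + #(O i ∩ Y i) = #(O i) := by exact_mod_cast h5
        linarith
      rw [h4]
      rcases Nat.eq_zero_or_pos (#(O i)) with h0 | h0
      · have h8 : #(O i ∩ Y i) = 0 := by
          have := card_le_card (inter_subset_left : O i ∩ Y i ⊆ O i)
          omega
        simp [h0, h8]
      · have h9 : (0 : ℝ) < #(O i) := by exact_mod_cast h0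
        have h10 := Real.add_one_le_exp (-(1 - c) * ((#(O i ∩ Y i) : ℝ) / #(O i)))
        have h11 : (#(O i) : ℝ) - (1 - c) * #(O i ∩ Y i) =
            (-(1 - c) * ((#(O i ∩ Y i) : ℝ) / #(O i)) + 1) * #(O i) := by
          field_simp
          ring
        rw [h11]
        exact mul_le_mul_of_nonneg_right h10 h9.le
    · simp [hi]
  calc ∏ i, ∑ a ∈ O i, (if i ∈ I then (if a ∈ Y i then c else 1) else 1)
      ≤ ∏ i, (Real.exp (if i ∈ I then -(1 - c) * ((#(O i ∩ Y i) : ℝ) / #(O i)) else 0) *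
          #(O i)) := by
        apply Finset.prod_le_prod
        · intro i _
          apply Finset.sum_nonneg
          intro a _
          split_ifs <;> first | exact hc0 | exact zero_le_one
        · intro i _
          exact h3 i
    _ = Real.exp (-(1 - c) * ∑ i ∈ I, (#(O i ∩ Y i) : ℝ) / #(O i)) *
        #(Fintype.piFinset O) := by
        rw [Finset.prod_mul_distrib, ← Real.exp_sum, Finset.sum_ite_mem, Finset.univ_inter,
          ← Finset.mul_sum, Fintype.card_piFinset]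
        push_cast
        rfl

/-- T1: probability that no index hits. -/
theorem T1 (O : ι → Finset α) (I : Finset ι) (Y : ι → Finset α) {μ : ℝ}
    (hμ : μ ≤ ∑ i ∈ I, (#(O i ∩ Y i) : ℝ) / #(O i)) :
    (#{ω ∈ Fintype.piFinset O | ∀ i ∈ I, ω i ∉ Y i} : ℝ) ≤
      Real.exp (-μ) * #(Fintype.piFinset O) := by
  classical
  have h1 := sum_prod_le O I Y 0 le_rfl
  have h2 : (#{ω ∈ Fintype.piFinset O | ∀ i ∈ I, ω i ∉ Y i} : ℝ) ≤
      ∑ ω ∈ Fintype.piFinset O, ∏ i ∈ I, (if ω i ∈ Y i then (0:ℝ) else 1) := by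
    rw [← Finset.sum_filter_add_sum_filter_not (Fintype.piFinset O)
      (fun ω => ∀ i ∈ I, ω i ∉ Y i)]
    have h3 : ∑ ω ∈ Fintype.piFinset O with ∀ i ∈ I, ω i ∉ Y i,
        ∏ i ∈ I, (if ω i ∈ Y i then (0:ℝ) else 1) =
        (#{ω ∈ Fintype.piFinset O | ∀ i ∈ I, ω i ∉ Y i} : ℝ) := by
      rw [Finset.sum_congr rfl (g := fun _ => (1:ℝ))]
      · simp
      · intro ω hω
        apply Finset.prod_eq_one
        intro i hi
        rw [if_neg ((mem_filter.mp hω).2 i hi)]
    rw [h3]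
    have h4 : 0 ≤ ∑ ω ∈ Fintype.piFinset O with ¬ ∀ i ∈ I, ω i ∉ Y i,
        ∏ i ∈ I, (if ω i ∈ Y i then (0:ℝ) else 1) := by
      apply Finset.sum_nonneg
      intro ω _
      apply Finset.prod_nonneg
      intro i _
      split_ifs <;> norm_num
    linarith
  refine h2.trans (h1.trans ?_)
  apply mul_le_mul_of_nonneg_right _ (Nat.cast_nonneg _)
  apply Real.exp_le_exp.mpr
  linarith

omit [Fintype ι] [DecidableEq ι] in
theorem prod_ite_hits (I : Finset ι) (Y : ι → Finset α) (c : ℝ) (ω : ι → α) :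
    ∏ i ∈ I, (if ω i ∈ Y i then c else 1) = c ^ hits I Y ω := by
  rw [Finset.prod_ite, Finset.prod_const, Finset.prod_const_one, mul_one]
  rfl

/-- T2: lower tail. -/
theorem T2 (O : ι → Finset α) (I : Finset ι) (Y : ι → Finset α) {μ : ℝ}
    (hμ : μ ≤ ∑ i ∈ I, (#(O i ∩ Y i) : ℝ) / #(O i)) :
    (#{ω ∈ Fintype.piFinset O | (hits I Y ω : ℝ) ≤ μ / 2} : ℝ) ≤
      Real.exp (-μ / 8) * #(Fintype.piFinset O) := by
  classical
  rcases lt_or_ge μ 0 with hneg | hpos
  · have h0 : ({ω ∈ Fintype.piFinset O | (hits I Y ω : ℝ) ≤ μ / 2}) = ∅ := by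
      apply Finset.filter_eq_empty_iff.mpr
      intro ω _ hle
      have : (0:ℝ) ≤ hits I Y ω := Nat.cast_nonneg _
      linarith
    rw [h0]
    simp only [card_empty, Nat.cast_zero]
    positivity
  have h1 := sum_prod_le O I Y (1/2) (by norm_num)
  have h2 : (#{ω ∈ Fintype.piFinset O | (hits I Y ω : ℝ) ≤ μ / 2} : ℝ) *
      Real.exp (-(Real.log 2) * (μ / 2)) ≤
      ∑ ω ∈ Fintype.piFinset O, ∏ i ∈ I, (if ω i ∈ Y i then (1/2:ℝ) else 1) := by
    rw [← Finset.sum_filter_add_sum_filter_not (Fintype.piFinset O)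
      (fun ω => (hits I Y ω : ℝ) ≤ μ / 2)]
    have h3 : (#{ω ∈ Fintype.piFinset O | (hits I Y ω : ℝ) ≤ μ / 2} : ℝ) *
        Real.exp (-(Real.log 2) * (μ / 2)) ≤
        ∑ ω ∈ Fintype.piFinset O with (hits I Y ω : ℝ) ≤ μ / 2,
        ∏ i ∈ I, (if ω i ∈ Y i then (1/2:ℝ) else 1) := by
      rw [← nsmul_eq_mul]
      apply Finset.card_nsmul_le_sum
      intro ω hω
      rw [prod_ite_hits]
      have h5 := (mem_filter.mp hω).2
      have h6 : ((1/2:ℝ)) ^ hits I Y ω = Real.exp (-(Real.log 2) * (hits I Y ω)) := by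
        rw [neg_mul, Real.exp_neg, mul_comm, Real.exp_nat_mul, Real.exp_log (by norm_num)]
        simp
      rw [h6]
      apply Real.exp_le_exp.mpr
      have h7 : 0 < Real.log 2 := Real.log_pos (by norm_num)
      nlinarith
    have h4 : 0 ≤ ∑ ω ∈ Fintype.piFinset O with ¬ (hits I Y ω : ℝ) ≤ μ / 2,
        ∏ i ∈ I, (if ω i ∈ Y i then (1/2:ℝ) else 1) := by
      apply Finset.sum_nonneg
      intro ω _
      apply Finset.prod_nonneg
      intro i _
      split_ifs <;> norm_num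
    linarith
  have h3 := h2.trans h1
  have h8 : (#{ω ∈ Fintype.piFinset O | (hits I Y ω : ℝ) ≤ μ / 2} : ℝ) ≤
      Real.exp ((Real.log 2) * (μ / 2)) *
      (Real.exp (-(1 - 1/2) * ∑ i ∈ I, (#(O i ∩ Y i) : ℝ) / #(O i)) *
        #(Fintype.piFinset O)) := by
    have h9 : Real.exp ((Real.log 2) * (μ / 2)) * Real.exp (-(Real.log 2) * (μ / 2)) = 1 := by
      rw [← Real.exp_add]
      simp
    calc (#{ω ∈ Fintype.piFinset O | (hits I Y ω : ℝ) ≤ μ / 2} : ℝ)
        = Real.exp ((Real.log 2) * (μ / 2)) *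
          ((#{ω ∈ Fintype.piFinset O | (hits I Y ω : ℝ) ≤ μ / 2} : ℝ) *
            Real.exp (-(Real.log 2) * (μ / 2))) := by
          rw [mul_comm (#{ω ∈ Fintype.piFinset O | (hits I Y ω : ℝ) ≤ μ / 2} : ℝ), ← mul_assoc,
            h9, one_mul]
      _ ≤ _ := mul_le_mul_of_nonneg_left h3 (Real.exp_pos _).le
  refine h8.trans ?_
  rw [← mul_assoc, ← Real.exp_add]
  apply mul_le_mul_of_nonneg_right _ (Nat.cast_nonneg _)
  apply Real.exp_le_exp.mpr
  have h10 : Real.log 2 < 0.6931471808 := Real.log_two_lt_d9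
  have h11 : 0 ≤ μ / 2 := by linarith
  nlinarith

/-- Probability that all indices of a set hit. -/
theorem card_all_hit_le (O : ι → Finset α) (J : Finset ι) (Y : ι → Finset α) {p : ℝ}
    (hp : ∀ i ∈ J, (#(O i ∩ Y i) : ℝ) ≤ p * #(O i)) :
    (#{ω ∈ Fintype.piFinset O | ∀ i ∈ J, ω i ∈ Y i} : ℝ) ≤
      p ^ #J * #(Fintype.piFinset O) := by
  classical
  have h1 : ({ω ∈ Fintype.piFinset O | ∀ i ∈ J, ω i ∈ Y i}) =
      Fintype.piFinset (fun i => if i ∈ J then O i ∩ Y i else O i) := by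
    ext f
    simp only [mem_filter, Fintype.mem_piFinset]
    constructor
    · rintro ⟨h1, h2⟩ i
      by_cases hi : i ∈ J
      · simp [hi, h1 i, h2 i hi]
      · simp [hi, h1 i]
    · intro h1
      refine ⟨fun i => ?_, fun i hi => ?_⟩
      · have := h1 i
        by_cases hi : i ∈ J
        · simp [hi] at this; exact this.1
        · simpa [hi] using this
      · have := h1 i
        simp [hi] at this; exact this.2
  rw [h1, Fintype.card_piFinset, Fintype.card_piFinset]
  push_cast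
  have h2 : ∀ i, (((if i ∈ J then O i ∩ Y i else O i).card : ℕ) : ℝ) ≤
      (if i ∈ J then p else 1) * (O i).card := by
    intro i
    by_cases hi : i ∈ J
    · simp only [hi, if_true]
      exact hp i hi
    · simp [hi]
  calc ∏ i, (((if i ∈ J then O i ∩ Y i else O i).card : ℕ) : ℝ)
      ≤ ∏ i, ((if i ∈ J then p else 1) * ((O i).card : ℝ)) :=
        Finset.prod_le_prod (fun i _ => Nat.cast_nonneg _) (fun i _ => h2 i)
    _ = p ^ #J * ∏ i, ((O i).card : ℝ) := by
        rw [Finset.prod_mul_distrib]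
        congr 1
        rw [Finset.prod_ite_mem, Finset.univ_inter, Finset.prod_const]

/-- Union bound. -/
theorem card_filter_exists_le {κ β : Type*} [DecidableEq β] (S : Finset β) (K : Finset κ)
    (B : κ → β → Prop) [∀ k, DecidablePred (B k)] [DecidablePred fun x => ∃ k ∈ K, B k x] :
    (#{x ∈ S | ∃ k ∈ K, B k x} : ℝ) ≤ ∑ k ∈ K, (#{x ∈ S | B k x} : ℝ) := by
  classical
  have h1 : ({x ∈ S | ∃ k ∈ K, B k x}) ⊆ K.biUnion (fun k => {x ∈ S | B k x}) := by
    intro x hx
    obtain ⟨hx1, k, hk, hB⟩ := mem_filter.mp hx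
    exact mem_biUnion.mpr ⟨k, hk, mem_filter.mpr ⟨hx1, hB⟩⟩
  have h2 := (card_le_card h1).trans card_biUnion_le
  exact_mod_cast h2

/-- T3: upper tail. -/
theorem T3 (O : ι → Finset α) (I : Finset ι) (Y : ι → Finset α) {p : ℝ}
    (hp : ∀ i ∈ I, (#(O i ∩ Y i) : ℝ) ≤ p * #(O i)) (r : ℕ) :
    (#{ω ∈ Fintype.piFinset O | r ≤ hits I Y ω} : ℝ) ≤
      (#I).choose r * p ^ r * #(Fintype.piFinset O) := by
  classical
  have h1 : ({ω ∈ Fintype.piFinset O | r ≤ hits I Y ω}) ⊆
      {ω ∈ Fintype.piFinset O | ∃ J ∈ I.powersetCard r, ∀ i ∈ J, ω i ∈ Y i} := by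
    intro ω hω
    obtain ⟨h1, h2⟩ := mem_filter.mp hω
    obtain ⟨J, hJ1, hJ2⟩ := Finset.exists_subset_card_eq h2
    refine mem_filter.mpr ⟨h1, J, mem_powersetCard.mpr ⟨hJ1.trans (filter_subset _ _), hJ2⟩, ?_⟩
    intro i hi
    exact (mem_filter.mp (hJ1 hi)).2
  have h2 : (#{ω ∈ Fintype.piFinset O | r ≤ hits I Y ω} : ℝ) ≤
      (#{ω ∈ Fintype.piFinset O | ∃ J ∈ I.powersetCard r, ∀ i ∈ J, ω i ∈ Y i} : ℝ) := by
    exact_mod_cast card_le_card h1
  refine h2.trans ((card_filter_exists_le _ _ _).trans ?_)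
  calc ∑ J ∈ I.powersetCard r, (#{ω ∈ Fintype.piFinset O | ∀ i ∈ J, ω i ∈ Y i} : ℝ)
      ≤ ∑ J ∈ I.powersetCard r, p ^ r * #(Fintype.piFinset O) := by
        apply Finset.sum_le_sum
        intro J hJ
        obtain ⟨hJ1, hJ2⟩ := mem_powersetCard.mp hJ
        have := card_all_hit_le O J Y (fun i hi => hp i (hJ1 hi))
        rwa [hJ2] at this
    _ = (#I).choose r * p ^ r * #(Fintype.piFinset O) := by
        rw [Finset.sum_const, card_powersetCard, nsmul_eq_mul]
        ring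

/-- Freeze the coordinates in I at the values of ω0. -/
def freeze (O : ι → Finset α) (I : Finset ι) (ω0 : ι → α) : ι → Finset α :=
  fun i => if i ∈ I then {ω0 i} else O i

omit [DecidableEq α] in
theorem mem_freeze {O : ι → Finset α} {I : Finset ι} {ω0 ω : ι → α}
    (h0 : ω0 ∈ Fintype.piFinset O) :
    ω ∈ Fintype.piFinset (freeze O I ω0) ↔ ω ∈ Fintype.piFinset O ∧ ∀ i ∈ I, ω i = ω0 i := by
  simp only [Fintype.mem_piFinset, freeze] at *
  constructor
  · intro h1
    refine ⟨fun i => ?_, fun i hi => ?_⟩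
    · have h2 := h1 i
      by_cases hi : i ∈ I
      · simp only [hi, if_true, mem_singleton] at h2
        rw [h2]; exact h0 i
      · simpa [hi] using h2
    · have h2 := h1 i
      simpa [hi] using h2
  · rintro ⟨h1, h2⟩ i
    by_cases hi : i ∈ I
    · simp only [hi, if_true, mem_singleton]; exact h2 i hi
    · simpa [hi] using h1 i

omit [Fintype ι] [DecidableEq α] in
theorem freeze_of_notMem {O : ι → Finset α} {I : Finset ι} {ω0 : ι → α} {i : ι}
    (hi : i ∉ I) : freeze O I ω0 i = O i := by simp [freeze, hi]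

/-- Counting by fibres of a map. -/
theorem fiber_bound {β γ : Type*} [DecidableEq γ] (S : Finset β)
    (f : β → γ) (B : β → Prop) [DecidablePred B] (δ : ℝ)
    (h : ∀ x ∈ S, (#{y ∈ S | f y = f x ∧ B y} : ℝ) ≤ δ * #{y ∈ S | f y = f x}) :
    (#{y ∈ S | B y} : ℝ) ≤ δ * #S := by
  classical
  have h1 : #{y ∈ S | B y} = ∑ c ∈ S.image f, #{y ∈ S | f y = c ∧ B y} := by
    rw [Finset.card_eq_sum_card_fiberwise (f := f) (t := S.image f)]
    · apply Finset.sum_congr rfl
      intro c _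
      congr 1
      ext y
      simp only [mem_filter]
      tauto
    · intro y hy
      exact Finset.mem_coe.mpr (mem_image_of_mem f (mem_filter.mp (Finset.mem_coe.mp hy)).1)
  have h2 : #S = ∑ c ∈ S.image f, #{y ∈ S | f y = c} := by
    rw [Finset.card_eq_sum_card_fiberwise (f := f) (t := S.image f)]
    intro y hy
    exact Finset.mem_coe.mpr (mem_image_of_mem f (Finset.mem_coe.mp hy))
  rw [h1, h2]
  push_cast
  rw [Finset.mul_sum]
  apply Finset.sum_le_sum
  intro c hc
  obtain ⟨x, hx, rfl⟩ := mem_image.mp hc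
  exact h x hx

/-- Conditioning on the coordinates in I. -/
theorem cond_bound (O : ι → Finset α) (I : Finset ι) (B : (ι → α) → Prop) [DecidablePred B]
    (δ : ℝ)
    (h : ∀ ω0 ∈ Fintype.piFinset O,
      (#{ω ∈ Fintype.piFinset (freeze O I ω0) | B ω} : ℝ) ≤
        δ * #(Fintype.piFinset (freeze O I ω0))) :
    (#{ω ∈ Fintype.piFinset O | B ω} : ℝ) ≤ δ * #(Fintype.piFinset O) := by
  classical
  apply fiber_bound (Fintype.piFinset O) (fun ω (i : I) => ω i) B δ
  intro ω0 h0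
  have h1 := h ω0 h0
  have h2 : ({y ∈ Fintype.piFinset O | (fun i : I => y i) = fun i : I => ω0 i}) =
      Fintype.piFinset (freeze O I ω0) := by
    ext ω
    rw [mem_filter, mem_freeze h0, funext_iff]
    simp
  have h3 : ({y ∈ Fintype.piFinset O | (fun i : I => y i) = (fun i : I => ω0 i) ∧ B y}) =
      {ω ∈ Fintype.piFinset (freeze O I ω0) | B ω} := by
    ext ω
    rw [mem_filter, mem_filter, mem_freeze h0, funext_iff]
    simp only [Subtype.forall]
    tauto
  rw [h2, h3]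
  exact h1

end tools

end CEB
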