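import Pool.Agent.Work.MP_ceb7a8_co.Sys
import Pool.Agent.Work.MP_ceb7a8_co.ProdTools

/-!
Product classes: the systems with the same signature (same maximal 2-path pairs, same paths
elsewhere) are the choice functions of middle vertices.
-/

namespace CEB

open Finset

variable {V : Type*} {G : SimpleGraph V}

open Classical in
/-- The signature: which pairs are maximal 2-paths, and the first steps elsewhere. -/
noncomputable def sgt (g : V → V → V) : V → V → Option V :=
  fun u v => if Q g u v then none else some (g u v)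

theorem sgt_q {g g' : V → V → V} (h : sgt g' = sgt g) (u v : V) : Q g' u v ↔ Q g u v := by
  have h1 : sgt g' u v = sgt g u v := by rw [h]
  simp only [sgt] at h1
  by_cases h2 : Q g' u v <;> by_cases h3 : Q g u v <;> simp_all

theorem sgt_off {g g' : V → V → V} (h : sgt g' = sgt g) {u v : V} (hq : ¬ Q g u v) :
    g' u v = g u v := by
  have h1 : sgt g' u v = sgt g u v := by rw [h]
  have h2 : ¬ Q g' u v := fun h3 => hq ((sgt_q h u v).1 h3)
  simpa [sgt, hq, h2] using h1

theorem sgt_used {g g' : V → V → V} (h : sgt g' = sgt g) (u v : V) :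
    Used g' u v ↔ Used g u v := by
  by_cases hq : Q g u v
  · have hq' := (sgt_q h u v).2 hq
    constructor
    · intro h1; exact absurd hq' (used_not_q h1)
    · intro h1; exact absurd hq (used_not_q h1)
  · unfold Used
    rw [sgt_off h hq]

section fin

variable [Fintype V] [DecidableEq V]

/-- The unordered pair is a maximal 2-path pair. -/
def QS (g : V → V → V) (e : Sym2 V) : Prop := ∃ u v, e = s(u, v) ∧ Q g u v

open Classical in
/-- Choice sets of the product class of g. -/
noncomputable def mids (g : V → V → V) (e : Sym2 V) : Finset V :=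
  if QS g e then univ.filter (fun z => ∀ u ∈ e, Used g u z) else {(Quot.out e).1}

/-- The system with middle vertices ω. -/
noncomputable def mk (g : V → V → V) (ω : Sym2 V → V) : V → V → V :=
  resample g (fun u v => ω s(u, v))

omit [Fintype V] [DecidableEq V] in
theorem mk_q {g : V → V → V} {ω : Sym2 V → V} {u v : V} (hq : Q g u v) :
    mk g ω u v = ω s(u, v) := resample_of_q hq

omit [Fintype V] [DecidableEq V] in
theorem mk_not_q {g : V → V → V} {ω : Sym2 V → V} {u v : V} (hq : ¬ Q g u v) :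
    mk g ω u v = g u v := resample_of_not_q hq

theorem mem_mids {g : V → V → V} {u v z : V} (hq : Q g u v) :
    z ∈ mids g s(u, v) ↔ Used g u z ∧ Used g v z := by
  have h1 : QS g s(u, v) := ⟨u, v, rfl, hq⟩
  simp [mids, h1]

theorem mids_of_not {g : V → V → V} {e : Sym2 V} (hq : ¬ QS g e) :
    mids g e = {(Quot.out e).1} := by simp [mids, hq]

omit [Fintype V] [DecidableEq V] in
theorem qs_iff {g : V → V → V} (h : IsSys G g) {u v : V} : QS g s(u, v) ↔ Q g u v := by
  constructor
  · rintro ⟨a, b, hab, hq⟩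
    rcases Sym2.eq_iff.mp hab with ⟨rfl, rfl⟩ | ⟨rfl, rfl⟩
    · exact hq
    · exact h.q_symm hq
  · intro hq; exact ⟨u, v, rfl, hq⟩

theorem mids_of_mem {g : V → V → V} {ω : Sym2 V → V}
    (hω : ω ∈ Fintype.piFinset (mids g)) : Mids g (fun u v => ω s(u, v)) := by
  intro u v hq
  have h1 := (mem_mids hq).1 (Fintype.mem_piFinset.1 hω s(u, v))
  exact ⟨congrArg ω Sym2.eq_swap, h1.1, h1.2⟩

theorem isSys_mk {g : V → V → V} (h : IsSys G g) {ω : Sym2 V → V}
    (hω : ω ∈ Fintype.piFinset (mids g)) : IsSys G (mk g ω) := h.resample (mids_of_mem hω)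

theorem mk_q_iff {g : V → V → V} (h : IsSys G g) {ω : Sym2 V → V}
    (hω : ω ∈ Fintype.piFinset (mids g)) {u v : V} : Q (mk g ω) u v ↔ Q g u v :=
  resample_q h (mids_of_mem hω)

theorem mk_used_iff {g : V → V → V} {ω : Sym2 V → V}
    (hω : ω ∈ Fintype.piFinset (mids g)) {u v : V} : Used (mk g ω) u v ↔ Used g u v :=
  resample_used (mids_of_mem hω)

theorem sgt_mk {g : V → V → V} (h : IsSys G g) {ω : Sym2 V → V}
    (hω : ω ∈ Fintype.piFinset (mids g)) : sgt (mk g ω) = sgt g := by
  funext u v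
  by_cases hq : Q g u v
  · have := (mk_q_iff h hω (u := u) (v := v)).2 hq
    simp [sgt, hq, this]
  · have h1 : ¬ Q (mk g ω) u v := fun h2 => hq ((mk_q_iff h hω).1 h2)
    simp [sgt, hq, h1, mk_not_q hq]

/-- Every system with the same signature is a choice of middle vertices. -/
theorem exists_mk {g g' : V → V → V} (h' : IsSys G g') (hs : sgt g' = sgt g) :
    ∃ ω ∈ Fintype.piFinset (mids g), mk g ω = g' := by
  classical
  refine ⟨fun e => if QS g e then g' (Quot.out e).1 (Quot.out e).2 else (Quot.out e).1, ?_, ?_⟩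
  · rw [Fintype.mem_piFinset]
    intro e
    by_cases he : QS g e
    · simp only [he, if_true]
      obtain ⟨a, b, rfl, hq⟩ := he
      have h1 : (s((Quot.out s(a, b)).1, (Quot.out s(a, b)).2) : Sym2 V) = s(a, b) :=
        Quot.out_eq s(a, b)
      have hq' := (sgt_q hs a b).2 hq
      have hu := h'.q_used hq'
      have hu' := h'.q_used (h'.q_symm hq')
      rw [mem_mids hq]
      rcases Sym2.eq_iff.mp h1 with ⟨h2, h3⟩ | ⟨h2, h3⟩
      · rw [h2, h3]
        exact ⟨(sgt_used hs _ _).1 hu.1, (sgt_used hs _ _).1 hu.2⟩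
      · rw [h2, h3]
        exact ⟨(sgt_used hs _ _).1 hu'.2, (sgt_used hs _ _).1 hu'.1⟩
    · simp [he, mids_of_not he]
  · funext u v
    by_cases hq : Q g u v
    · rw [mk_q hq]
      have h1 : QS g s(u, v) := ⟨u, v, rfl, hq⟩
      simp only [h1, if_true]
      have h2 : (s((Quot.out s(u, v)).1, (Quot.out s(u, v)).2) : Sym2 V) = s(u, v) :=
        Quot.out_eq s(u, v)
      have hq' := (sgt_q hs u v).2 hq
      rcases Sym2.eq_iff.mp h2 with ⟨h3, h4⟩ | ⟨h3, h4⟩
      · rw [h3, h4]
      · rw [h3, h4]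
        exact hq'.2.2.1.symm
    · rw [mk_not_q hq]
      exact (sgt_off hs hq).symm

theorem mk_injOn (g : V → V → V) :
    Set.InjOn (mk g) (Fintype.piFinset (mids g) : Set (Sym2 V → V)) := by
  intro ω hω ω' hω' heq
  rw [Finset.mem_coe, Fintype.mem_piFinset] at hω hω'
  funext e
  by_cases he : QS g e
  · obtain ⟨a, b, rfl, hq⟩ := he
    have h1 : mk g ω a b = mk g ω' a b := by rw [heq]
    rwa [mk_q hq, mk_q hq] at h1
  · have h1 := hω e
    have h2 := hω' e
    rw [mids_of_not he, mem_singleton] at h1 h2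
    rw [h1, h2]

open Classical in
/-- The class of g is the image of the choice functions. -/
theorem class_eq (S : Finset (V → V → V)) (hS : ∀ g, g ∈ S ↔ IsSys G g) {g : V → V → V}
    (hg : g ∈ S) (B : (V → V → V) → Prop) :
    #{g' ∈ S | sgt g' = sgt g ∧ B g'} =
      #{ω ∈ Fintype.piFinset (mids g) | B (mk g ω)} := by
  have hgs := (hS g).1 hg
  rw [← Finset.card_image_of_injOn (s := {ω ∈ Fintype.piFinset (mids g) | B (mk g ω)})
    (f := mk g)]
  · congr 1
    ext g'
    simp only [mem_filter, mem_image]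
    constructor
    · rintro ⟨h1, h2, h3⟩
      obtain ⟨ω, hω, rfl⟩ := exists_mk ((hS g').1 h1) h2
      exact ⟨ω, ⟨hω, h3⟩, rfl⟩
    · rintro ⟨ω, ⟨hω, h3⟩, rfl⟩
      exact ⟨(hS _).2 (isSys_mk hgs hω), sgt_mk hgs hω, h3⟩
  · intro ω hω ω' hω' heq
    exact mk_injOn g (Finset.mem_coe.2 (mem_filter.1 (Finset.mem_coe.1 hω)).1)
      (Finset.mem_coe.2 (mem_filter.1 (Finset.mem_coe.1 hω')).1) heq

open Classical in
/-- Bad systems of a class-invariant set, counted class by class. -/
theorem class_bound (S : Finset (V → V → V)) (hS : ∀ g, g ∈ S ↔ IsSys G g)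
    (T B : (V → V → V) → Prop)
    (hT : ∀ g g', IsSys G g → IsSys G g' → sgt g' = sgt g → T g' → T g)
    {δ : ℝ} (hδ : 0 ≤ δ)
    (h : ∀ g ∈ S, T g → (#{ω ∈ Fintype.piFinset (mids g) | B (mk g ω)} : ℝ) ≤
      δ * #(Fintype.piFinset (mids g))) :
    (#{g ∈ S | T g ∧ B g} : ℝ) ≤ δ * #S := by
  apply fiber_bound S sgt (fun g => T g ∧ B g) δ
  intro g hg
  have hgs := (hS g).1 hg
  have h2 : #{g' ∈ S | sgt g' = sgt g} = #(Fintype.piFinset (mids g)) := by
    have := class_eq S hS hg (fun _ => True)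
    simpa using this
  by_cases hTg : T g
  · have h1 : #{g' ∈ S | sgt g' = sgt g ∧ T g' ∧ B g'} ≤
        #{ω ∈ Fintype.piFinset (mids g) | B (mk g ω)} := by
      rw [← class_eq S hS hg B]
      apply card_le_card
      intro g' hg'
      simp only [mem_filter] at hg' ⊢
      tauto
    rw [h2]
    exact le_trans (by exact_mod_cast h1) (h g hg hTg)
  · have h1 : ({g' ∈ S | sgt g' = sgt g ∧ T g' ∧ B g'}) = ∅ := by
      apply Finset.filter_eq_empty_iff.mpr
      rintro g' hg' ⟨h3, h4, _⟩
      exact hTg (hT g g' hgs ((hS g').1 hg') h3 h4)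
    rw [h1]
    simp only [card_empty, Nat.cast_zero]
    positivity

end fin

end CEB
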