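import Pool.Agent.Work.MP_ceb7a8_co.Rand

/-!
Degrees into a set, for graphs of small discrepancy, on any finite vertex type (helper25).
-/

namespace Pool.Agent.Work.MP_ceb7a8_co

open Finset

open Classical in
/-- the number of neighbours of `u` in `W` -/
noncomputable def dgr {V : Type*} (G : SimpleGraph V) (u : V) (W : Finset V) : ℕ :=
  (W.filter fun w => G.Adj u w).card

theorem eST_eq_sum {V : Type*} (G : SimpleGraph V) (S W : Finset V) :
    eST G S W = ∑ u ∈ S, dgr G u W := by
  classical
  unfold eST dgr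
  rw [card_filter, sum_product]
  refine sum_congr rfl (fun u _ => ?_)
  rw [card_filter]

theorem set_le_of_mul_lt {n s h ε K : ℝ} (h0 : 0 ≤ n) (hs : 0 ≤ s) (hh : 0 < h) (hε : 0 < ε)
    (h1 : ε * h * s ≤ K * Real.sqrt (n * (s * h))) : s ≤ K ^ 2 * n / (ε ^ 2 * h) := by
  rw [le_div_iff₀ (by positivity)]
  rcases hs.lt_or_eq with hs' | hs'
  · have h2 : (ε * h * s) ^ 2 ≤ (K * Real.sqrt (n * (s * h))) ^ 2 :=
      pow_le_pow_left₀ (by positivity) h1 2
    rw [mul_pow K, Real.sq_sqrt (by positivity)] at h2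
    have h3 : s * h * (s * (ε ^ 2 * h)) ≤ s * h * (K ^ 2 * n) := by nlinarith
    exact le_of_mul_le_mul_left h3 (by positivity)
  · rw [← hs']
    have : 0 ≤ K ^ 2 * n := by positivity
    linarith

open Classical in
/-- few vertices have many neighbours in `W` -/
theorem card_high {V : Type*} [Fintype V] {K : ℝ} {G : SimpleGraph V} (hG : DiscK K G)
    {W : Finset V} (hW : W.Nonempty) {ε : ℝ} (hε : 0 < ε) :
    ((univ.filter fun u : V => (1 / 2 + ε) * W.card ≤ dgr G u W).card : ℝ) ≤
      K ^ 2 * Fintype.card V / (ε ^ 2 * W.card) := by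
  set S := univ.filter fun u : V => (1 / 2 + ε) * W.card ≤ dgr G u W with hS
  have hh : (0 : ℝ) < W.card := by exact_mod_cast card_pos.2 hW
  refine set_le_of_mul_lt (Nat.cast_nonneg _) (Nat.cast_nonneg _) hh hε ?_
  have h1 := (le_abs_self _).trans (hG S W)
  have h2 : (1 / 2 + ε) * W.card * S.card ≤ eST G S W := by
    rw [eST_eq_sum]
    push_cast
    have h3 : ∀ u ∈ S, (1 / 2 + ε) * W.card ≤ (dgr G u W : ℝ) := fun u hu => (mem_filter.1 hu).2
    have h4 := sum_le_sum h3
    rw [sum_const, nsmul_eq_mul] at h4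
    linarith
  linarith

open Classical in
/-- few vertices have few neighbours in `W` -/
theorem card_low {V : Type*} [Fintype V] {K : ℝ} {G : SimpleGraph V} (hG : DiscK K G)
    {W : Finset V} (hW : W.Nonempty) {ε : ℝ} (hε : 0 < ε) :
    ((univ.filter fun u : V => (dgr G u W : ℝ) ≤ (1 / 2 - ε) * W.card).card : ℝ) ≤
      K ^ 2 * Fintype.card V / (ε ^ 2 * W.card) := by
  set S := univ.filter fun u : V => (dgr G u W : ℝ) ≤ (1 / 2 - ε) * W.card with hS
  have hh : (0 : ℝ) < W.card := by exact_mod_cast card_pos.2 hW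
  refine set_le_of_mul_lt (Nat.cast_nonneg _) (Nat.cast_nonneg _) hh hε ?_
  have h1 := (neg_le_abs _).trans (hG S W)
  have h2 : (eST G S W : ℝ) ≤ (1 / 2 - ε) * W.card * S.card := by
    rw [eST_eq_sum]
    push_cast
    have h3 : ∀ u ∈ S, (dgr G u W : ℝ) ≤ (1 / 2 - ε) * W.card := fun u hu => (mem_filter.1 hu).2
    have h4 := sum_le_sum h3
    rw [sum_const, nsmul_eq_mul] at h4
    linarith
  linarith

open Classical in
/-- all but few vertices have about one half of `W` as neighbours -/
theorem card_dgr {V : Type*} [Fintype V] {K : ℝ} {G : SimpleGraph V} (hG : DiscK K G)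
    {W : Finset V} (hW : W.Nonempty) {ε : ℝ} (hε : 0 < ε) :
    ((univ.filter fun u : V => ε * W.card ≤ |(dgr G u W : ℝ) - (W.card : ℝ) / 2|).card : ℝ) ≤
      2 * K ^ 2 * Fintype.card V / (ε ^ 2 * W.card) := by
  have h1 := card_high hG hW hε
  have h2 := card_low hG hW hε
  have h3 : (univ.filter fun u : V => ε * W.card ≤ |(dgr G u W : ℝ) - (W.card : ℝ) / 2|) ⊆
      (univ.filter fun u : V => (1 / 2 + ε) * W.card ≤ dgr G u W) ∪
      (univ.filter fun u : V => (dgr G u W : ℝ) ≤ (1 / 2 - ε) * W.card) := by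
    intro v hv
    have h4 := (mem_filter.1 hv).2
    rw [mem_union, mem_filter, mem_filter]
    rcases le_abs.1 h4 with h5 | h5
    · left
      exact ⟨mem_univ _, by linarith⟩
    · right
      exact ⟨mem_univ _, by linarith⟩
  have h4 : ((univ.filter fun u : V =>
      ε * W.card ≤ |(dgr G u W : ℝ) - (W.card : ℝ) / 2|).card : ℝ) ≤
      ((univ.filter fun u : V => (1 / 2 + ε) * W.card ≤ dgr G u W).card : ℝ) +
      ((univ.filter fun u : V => (dgr G u W : ℝ) ≤ (1 / 2 - ε) * W.card).card : ℝ) := by
    have h5 := (card_le_card h3).trans (card_union_le _ _)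
    exact_mod_cast h5
  refine h4.trans ((add_le_add h1 h2).trans (le_of_eq ?_))
  ring

open Classical in
/-- the number of common neighbours of `u` and `v` in `W` -/
noncomputable def codgr {V : Type*} (G : SimpleGraph V) (u v : V) (W : Finset V) : ℕ :=
  (W.filter fun w => G.Adj u w ∧ G.Adj v w).card

open Classical in
theorem codgr_eq {V : Type*} (G : SimpleGraph V) (u v : V) (W : Finset V) :
    codgr G u v W = dgr G v (W.filter fun w => G.Adj u w) := by
  unfold codgr dgr
  rw [filter_filter]

open Classical in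
/-- for a vertex `u` with neighbours in `W`, few vertices `v` have a number of common neighbours
with `u` in `W` different from one half of the degree of `u` -/
theorem card_codgr {V : Type*} [Fintype V] {K : ℝ} {G : SimpleGraph V} (hG : DiscK K G)
    {W : Finset V} {u : V} {ε : ℝ} (hε : 0 < ε) (hu : 0 < dgr G u W) :
    ((univ.filter fun v : V => ε * dgr G u W ≤
      |(codgr G u v W : ℝ) - (dgr G u W : ℝ) / 2|).card : ℝ) ≤
      2 * K ^ 2 * Fintype.card V / (ε ^ 2 * dgr G u W) := by
  have hd : dgr G u W = (W.filter fun w => G.Adj u w).card := rfl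
  have hne : (W.filter fun w => G.Adj u w).Nonempty := card_pos.1 (hd ▸ hu)
  have h1 := card_dgr hG hne hε
  simp only [codgr_eq]
  rw [hd]
  exact h1

end Pool.Agent.Work.MP_ceb7a8_co
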