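import Pool.Agent.Work.MP_ceb7a8_co.Moment
import Pool.Agent.Work.MP_ceb7a8_co.DiscCor

/-!
Averaging over the edges which do not lie inside a set `B` of vertices (helper25): for sets
`W P ⊆ B` which depend only on the edges inside `B`, most graphs are such that for at least half
of the `P` all vertices outside `B` have at least `0.49 |W P|` neighbours in `W P`.
-/

namespace Pool.Agent.Work.MP_ceb7a8_co

open Finset

namespace Rand

/-- the pairs inside `B` -/
def EB {n : ℕ} (B : Finset (Fin n)) : Finset (Sym2 (Fin n)) :=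
  (E n).filter fun e => ∀ x ∈ e, x ∈ B

theorem mem_EB {n : ℕ} {B : Finset (Fin n)} {a b : Fin n} :
    s(a, b) ∈ EB B ↔ a ≠ b ∧ a ∈ B ∧ b ∈ B := by
  unfold EB E
  simp only [mem_filter, mem_univ, true_and, Sym2.mk_isDiag_iff, Sym2.mem_iff, forall_eq_or_imp,
    forall_eq]

/-- two graphs which agree inside `B` -/
def Agree {n : ℕ} (B : Finset (Fin n)) (G G' : SimpleGraph (Fin n)) : Prop :=
  ∀ u ∈ B, ∀ v ∈ B, G.Adj u v ↔ G'.Adj u v

theorem agree_iff {n : ℕ} {B : Finset (Fin n)} {G G' : SimpleGraph (Fin n)} :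
    Agree B G G' ↔ toF G ∩ EB B = toF G' ∩ EB B := by
  constructor
  · intro h
    ext e
    induction e using Sym2.ind with
    | _ a b =>
      rw [mem_inter, mem_inter, mem_toF, mem_toF, mem_EB, SimpleGraph.mem_edgeSet,
        SimpleGraph.mem_edgeSet]
      constructor
      · rintro ⟨h1, h2⟩
        exact ⟨(h a h2.2.1 b h2.2.2).1 h1, h2⟩
      · rintro ⟨h1, h2⟩
        exact ⟨(h a h2.2.1 b h2.2.2).2 h1, h2⟩
  · intro h a ha b hb
    have h1 : s(a, b) ∈ toF G ∩ EB B ↔ s(a, b) ∈ toF G' ∩ EB B := by rw [h]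
    rw [mem_inter, mem_inter, mem_toF, mem_toF, mem_EB, SimpleGraph.mem_edgeSet,
      SimpleGraph.mem_edgeSet] at h1
    constructor
    · intro h2
      exact (h1.1 ⟨h2, h2.ne, ha, hb⟩).1
    · intro h2
      exact (h1.2 ⟨h2, h2.ne, ha, hb⟩).1

open Classical in
/-- the number of graphs which agree with `G₀` inside `B` -/
theorem card_agree {n : ℕ} (B : Finset (Fin n)) (G₀ : SimpleGraph (Fin n)) :
    (univ.filter fun G : SimpleGraph (Fin n) => Agree B G G₀).card = 2 ^ (E n \ EB B).card := by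
  rw [← card_powerset]
  refine card_bij (fun G _ => toF G \ EB B) ?_ ?_ ?_
  · intro G _
    rw [mem_powerset]
    exact sdiff_subset_sdiff (filter_subset _ _) (le_refl _)
  · intro G hG G' hG' h
    have h1 := agree_iff.1 (mem_filter.1 hG).2
    have h2 := agree_iff.1 (mem_filter.1 hG').2
    refine toF_inj ?_
    rw [← sdiff_union_inter (toF G) (EB B), ← sdiff_union_inter (toF G') (EB B), h, h1, h2]
  · intro F hF
    rw [mem_powerset] at hF
    have h1 : F ∪ (toF G₀ ∩ EB B) ∈ (E n).powerset := by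
      rw [mem_powerset]
      exact union_subset (hF.trans sdiff_subset) (inter_subset_left.trans (filter_subset _ _))
    obtain ⟨G, hG⟩ := toF_surj h1
    have h2 : ∀ e ∈ F, e ∉ EB B := fun e he => (mem_sdiff.1 (hF he)).2
    refine ⟨G, mem_filter.2 ⟨mem_univ _, agree_iff.2 ?_⟩, ?_⟩
    · rw [hG]
      ext e
      simp only [mem_inter, mem_union]
      constructor
      · rintro ⟨h3 | h3, h4⟩
        · exact absurd h4 (h2 e h3)
        · exact h3
      · intro h3
        exact ⟨Or.inr h3, h3.2⟩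
    · rw [hG]
      ext e
      simp only [mem_sdiff, mem_inter, mem_union]
      constructor
      · rintro ⟨h3 | h3, h4⟩
        · exact h3
        · exact absurd h3.2 h4
      · intro h3
        exact ⟨Or.inl h3, h2 e h3⟩

open Classical in
/-- for one vertex outside `B` and one set inside `B` -/
theorem tail_agree {n : ℕ} {B : Finset (Fin n)} (G₀ : SimpleGraph (Fin n)) {v : Fin n}
    (hv : v ∉ B) {T : Finset (Fin n)} (hT : T ⊆ B) (hpos : 0 < T.card) {τ : ℝ} (hτ : 0 ≤ τ) :
    ((univ.filter fun G : SimpleGraph (Fin n) => Agree B G G₀ ∧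
      (dgr G v T : ℝ) ≤ T.card / 2 - τ).card : ℝ) ≤
      2 ^ (E n \ EB B).card * Real.exp (-(2 * τ ^ 2 / T.card)) := by
  set S : Finset (Sym2 (Fin n)) := T.image fun t => s(v, t) with hS
  have hSc : S.card = T.card := by
    rw [hS, card_image_of_injOn]
    intro a _ b _ h
    exact Sym2.congr_right.1 h
  have hSE : S ⊆ E n \ EB B := by
    intro e he
    rw [hS, mem_image] at he
    obtain ⟨t, ht, rfl⟩ := he
    rw [mem_sdiff, mem_EB]
    refine ⟨mem_filter.2 ⟨mem_univ _, ?_⟩, fun h => hv h.2.1⟩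
    rw [Sym2.mk_isDiag_iff]
    exact fun h => hv (h ▸ hT ht)
  have h1 := tail_low (E n \ EB B) S hSE hτ (by rw [hSc]; exact hpos)
  rw [hSc] at h1
  refine le_trans ?_ h1
  refine Nat.cast_le.2 (card_le_card_of_injOn (fun G => toF G \ EB B) ?_ ?_)
  · intro G hG
    obtain ⟨h2, h3⟩ := (mem_filter.1 hG).2
    refine mem_coe.2 (mem_filter.2 ⟨mem_powerset.2
      (sdiff_subset_sdiff (filter_subset _ _) (le_refl _)), ?_⟩)
    have h4 : ((toF G \ EB B) ∩ S).card = dgr G v T := by
      have h5 : (toF G \ EB B) ∩ S = (T.filter fun t => G.Adj v t).image fun t => s(v, t) := by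
        ext e
        rw [mem_inter, mem_sdiff, hS, mem_image, mem_image]
        constructor
        · rintro ⟨⟨h6, -⟩, t, ht, rfl⟩
          rw [mem_toF, SimpleGraph.mem_edgeSet] at h6
          exact ⟨t, mem_filter.2 ⟨ht, h6⟩, rfl⟩
        · rintro ⟨t, ht, rfl⟩
          obtain ⟨ht1, ht2⟩ := mem_filter.1 ht
          refine ⟨⟨?_, ?_⟩, t, ht1, rfl⟩
          · rw [mem_toF, SimpleGraph.mem_edgeSet]
            exact ht2
          · rw [mem_EB]
            exact fun h => hv h.2.1
      rw [h5, card_image_of_injOn]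
      · rfl
      · intro a _ b _ h
        exact Sym2.congr_right.1 h
    rw [h4]
    exact h3
  · intro G hG G' hG' h
    have h2 := agree_iff.1 ((mem_filter.1 hG).2.1)
    have h3 := agree_iff.1 ((mem_filter.1 hG').2.1)
    simp only at h
    refine toF_inj ?_
    rw [← sdiff_union_inter (toF G) (EB B), ← sdiff_union_inter (toF G') (EB B), h, h2, h3]

open Classical in
/-- the pairs (vertex of `A`, set) that fail -/
theorem class_bound {n : ℕ} {ι : Type*} (A : Finset (Fin n)) (I : Finset ι)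
    (W : ι → Finset (Fin n)) {w : ℝ} (hw : 0 < w) {k : ℕ} (hk : 0 < k)
    (hW : ∀ P ∈ I, W P ⊆ Aᶜ ∧ w ≤ ((W P).card : ℝ)) (G₀ : SimpleGraph (Fin n)) :
    ((univ.filter fun G : SimpleGraph (Fin n) => Agree Aᶜ G G₀ ∧
      I.card < k * (I.filter fun P => ∃ v ∈ A, (dgr G v (W P) : ℝ) <
        49 / 100 * (W P).card).card).card : ℝ) ≤
      k * A.card * Real.exp (-(w / 5000)) *
        ((univ.filter fun G : SimpleGraph (Fin n) => Agree Aᶜ G G₀).card : ℝ) := by
  set X := univ.filter fun G : SimpleGraph (Fin n) => Agree Aᶜ G G₀ ∧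
      I.card < k * (I.filter fun P => ∃ v ∈ A, (dgr G v (W P) : ℝ) <
        49 / 100 * (W P).card).card with hX
  rcases I.eq_empty_or_nonempty with h0 | h0
  · have h1 : X = ∅ := by
      rw [hX, h0]
      simp
    rw [h1, card_empty, Nat.cast_zero]
    positivity
  have hI : (0 : ℝ) < I.card := by exact_mod_cast card_pos.2 h0
  have hk' : (0 : ℝ) < k := by exact_mod_cast hk
  have hcl : ((univ.filter fun G : SimpleGraph (Fin n) => Agree Aᶜ G G₀).card : ℝ) =
      2 ^ (E n \ EB Aᶜ).card := by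
    rw [card_agree]
    push_cast
    rfl
  rw [hcl]
  have hone : ∀ P ∈ I, ((univ.filter fun G : SimpleGraph (Fin n) => Agree Aᶜ G G₀ ∧
      ∃ v ∈ A, (dgr G v (W P) : ℝ) < 49 / 100 * (W P).card).card : ℝ) ≤
      A.card * (2 ^ (E n \ EB Aᶜ).card * Real.exp (-(w / 5000))) := by
    intro P hP
    obtain ⟨h1, h2⟩ := hW P hP
    have hpos : 0 < (W P).card := by
      have : (0 : ℝ) < (W P).card := lt_of_lt_of_le hw h2
      exact_mod_cast this
    have h3 : (univ.filter fun G : SimpleGraph (Fin n) => Agree Aᶜ G G₀ ∧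
        ∃ v ∈ A, (dgr G v (W P) : ℝ) < 49 / 100 * (W P).card) ⊆
        A.biUnion fun v => univ.filter fun G : SimpleGraph (Fin n) => Agree Aᶜ G G₀ ∧
          (dgr G v (W P) : ℝ) ≤ (W P).card / 2 - (W P).card / 100 := by
      intro G hG
      obtain ⟨h4, v, hv, h5⟩ := (mem_filter.1 hG).2
      rw [mem_biUnion]
      exact ⟨v, hv, mem_filter.2 ⟨mem_univ _, h4, by linarith⟩⟩
    have h4 : ((univ.filter fun G : SimpleGraph (Fin n) => Agree Aᶜ G G₀ ∧
        ∃ v ∈ A, (dgr G v (W P) : ℝ) < 49 / 100 * (W P).card).card : ℝ) ≤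
        ∑ v ∈ A, ((univ.filter fun G : SimpleGraph (Fin n) => Agree Aᶜ G G₀ ∧
          (dgr G v (W P) : ℝ) ≤ (W P).card / 2 - (W P).card / 100).card : ℝ) := by
      exact_mod_cast (card_le_card h3).trans card_biUnion_le
    refine h4.trans ((sum_le_sum (fun v hv => ?_)).trans (le_of_eq (by
      rw [sum_const, nsmul_eq_mul])))
    have h5 := tail_agree (B := Aᶜ) G₀ (v := v) (by
      rw [mem_compl, not_not]
      exact hv) h1 hpos (τ := (W P).card / 100) (by positivity)
    refine h5.trans (mul_le_mul_of_nonneg_left (Real.exp_le_exp.2 (neg_le_neg ?_)) (by positivity))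
    have h6 : (0 : ℝ) < (W P).card := by exact_mod_cast hpos
    have h7 : 2 * ((W P).card / 100 : ℝ) ^ 2 / (W P).card = (W P).card / 5000 := by
      field_simp
      ring
    rw [h7]
    exact div_le_div_of_nonneg_right h2 (by norm_num)
  have hdouble : ∑ G ∈ X, ((I.filter fun P => ∃ v ∈ A, (dgr G v (W P) : ℝ) <
      49 / 100 * (W P).card).card : ℝ) ≤
      ∑ P ∈ I, ((univ.filter fun G : SimpleGraph (Fin n) => Agree Aᶜ G G₀ ∧
      ∃ v ∈ A, (dgr G v (W P) : ℝ) < 49 / 100 * (W P).card).card : ℝ) := by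
    have h1 : ∀ G : SimpleGraph (Fin n), ((I.filter fun P => ∃ v ∈ A, (dgr G v (W P) : ℝ) <
        49 / 100 * (W P).card).card : ℝ) = ∑ P ∈ I, if (∃ v ∈ A, (dgr G v (W P) : ℝ) <
        49 / 100 * (W P).card) then (1 : ℝ) else 0 := by
      intro G
      rw [sum_boole]
    simp only [h1]
    rw [sum_comm]
    refine sum_le_sum (fun P _ => ?_)
    rw [sum_boole]
    refine Nat.cast_le.2 (card_le_card ?_)
    intro G hG
    obtain ⟨h2, h3⟩ := mem_filter.1 hG
    exact mem_filter.2 ⟨mem_univ _, (mem_filter.1 h2).2.1, h3⟩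
  have hlow : (X.card : ℝ) * (I.card / k) ≤ ∑ G ∈ X, ((I.filter fun P => ∃ v ∈ A,
      (dgr G v (W P) : ℝ) < 49 / 100 * (W P).card).card : ℝ) := by
    rw [← nsmul_eq_mul, ← sum_const]
    refine sum_le_sum (fun G hG => ?_)
    have h1 := (mem_filter.1 hG).2.2
    have h2 : (I.card : ℝ) < k * ((I.filter fun P => ∃ v ∈ A, (dgr G v (W P) : ℝ) <
        49 / 100 * (W P).card).card : ℝ) := by exact_mod_cast h1
    rw [div_le_iff₀ hk', mul_comm]
    exact h2.le
  have hup := hlow.trans (hdouble.trans (sum_le_sum hone))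
  rw [sum_const, nsmul_eq_mul] at hup
  have h1 : (X.card : ℝ) * (I.card / k) ≤
      (k * A.card * Real.exp (-(w / 5000)) * 2 ^ (E n \ EB Aᶜ).card) * (I.card / k) := by
    refine hup.trans (le_of_eq ?_)
    field_simp
  exact le_of_mul_le_mul_right h1 (by positivity)

end Rand

open Classical in
/-- most graphs are good for `A` -/
theorem goodA {n : ℕ} {ι : Type*} (A : Finset (Fin n)) (I : SimpleGraph (Fin n) → Finset ι)
    (W : ι → Finset (Fin n)) {w : ℝ} (hw : 0 < w) {k : ℕ} (hk : 0 < k)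
    (hI : ∀ G G' : SimpleGraph (Fin n), Rand.Agree Aᶜ G G' → I G = I G')
    (hW : ∀ G, ∀ P ∈ I G, W P ⊆ Aᶜ ∧ w ≤ ((W P).card : ℝ)) :
    ((univ.filter fun G : SimpleGraph (Fin n) =>
      (I G).card < k * ((I G).filter fun P => ∃ v ∈ A, (dgr G v (W P) : ℝ) <
        49 / 100 * (W P).card).card).card : ℝ) ≤
      k * A.card * Real.exp (-(w / 5000)) * Fintype.card (SimpleGraph (Fin n)) := by
  set f : SimpleGraph (Fin n) → Finset (Sym2 (Fin n)) := fun G => Rand.toF G ∩ Rand.EB Aᶜ with hf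
  set T : Finset (Finset (Sym2 (Fin n))) := univ.image f with hT
  set X := univ.filter fun G : SimpleGraph (Fin n) =>
      (I G).card < k * ((I G).filter fun P => ∃ v ∈ A, (dgr G v (W P) : ℝ) <
        49 / 100 * (W P).card).card with hX
  have h1 : (X.card : ℝ) = ∑ F ∈ T, ((X.filter fun G => f G = F).card : ℝ) := by
    have := card_eq_sum_card_fiberwise (f := f) (s := X) (t := T)
      (fun G _ => mem_coe.2 (mem_image_of_mem f (mem_univ G)))
    exact_mod_cast this
  have h2 : (Fintype.card (SimpleGraph (Fin n)) : ℝ) =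
      ∑ F ∈ T, ((univ.filter fun G : SimpleGraph (Fin n) => f G = F).card : ℝ) := by
    have := card_eq_sum_card_fiberwise (f := f) (s := (univ : Finset (SimpleGraph (Fin n))))
      (t := T) (fun G _ => mem_coe.2 (mem_image_of_mem f (mem_univ G)))
    rw [card_univ] at this
    exact_mod_cast this
  rw [h1, h2, mul_sum]
  refine sum_le_sum (fun F hF => ?_)
  rw [hT, mem_image] at hF
  obtain ⟨G₀, -, rfl⟩ := hF
  have h3 := Rand.class_bound A (I G₀) W hw hk (hW G₀) G₀
  have h4 : (univ.filter fun G : SimpleGraph (Fin n) => f G = f G₀) =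
      univ.filter fun G : SimpleGraph (Fin n) => Rand.Agree Aᶜ G G₀ := by
    refine filter_congr (fun G _ => ?_)
    rw [Rand.agree_iff]
  rw [h4]
  refine le_trans (Nat.cast_le.2 (card_le_card ?_)) h3
  intro G hG
  obtain ⟨h5, h6⟩ := mem_filter.1 hG
  have h7 : Rand.Agree Aᶜ G G₀ := Rand.agree_iff.2 h6
  have h8 := (mem_filter.1 h5).2
  rw [hI G G₀ h7] at h8
  exact mem_filter.2 ⟨mem_univ _, h7, h8⟩

end Pool.Agent.Work.MP_ceb7a8_co
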