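import Mathlib

/-!
Kraft lemma for the path system count (MP_ceb7a8_co).

A family of pairs (O i, F i) of disjoint finite sets such that for i different from j
one of O i, O j meets the other F: the events (O i inside S, S misses F i) of a p-random
subset S are disjoint, hence the sum of their probabilities is at most 1.
-/

open Finset

namespace CEB

variable {U ι : Type*} [Fintype U] [DecidableEq U]

/-- Total mass of a cylinder event of the p-random subset. -/
theorem cylinder_mass (p : ℝ) (O F : Finset U) (h : Disjoint O F) :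
    ∑ S ∈ (univ : Finset (Finset U)).filter (fun S => O ⊆ S ∧ Disjoint S F),
      p ^ S.card * (1 - p) ^ (Fintype.card U - S.card) = p ^ O.card * (1 - p) ^ F.card := by
  classical
  set R : Finset U := (O ∪ F)ᶜ with hR
  have hRO : Disjoint R O := by
    rw [hR]; exact (disjoint_compl_left).mono_right subset_union_left
  have hRF : Disjoint R F := by
    rw [hR]; exact (disjoint_compl_left).mono_right subset_union_right
  have hcard : R.card + (O.card + F.card) = Fintype.card U := by
    rw [← card_union_of_disjoint h, hR, add_comm]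
    exact card_add_card_compl (O ∪ F)
  have key : ∑ S ∈ (univ : Finset (Finset U)).filter (fun S => O ⊆ S ∧ Disjoint S F),
      p ^ S.card * (1 - p) ^ (Fintype.card U - S.card)
      = ∑ T ∈ R.powerset, p ^ (O.card + T.card) *
          (1 - p) ^ (F.card + (R.card - T.card)) := by
    symm
    refine sum_bij' (fun T _ => O ∪ T) (fun S _ => S \ O) ?_ ?_ ?_ ?_ ?_
    · intro T hT
      rw [mem_powerset] at hT
      simp only [mem_filter, mem_univ, true_and]
      refine ⟨subset_union_left, ?_⟩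
      rw [disjoint_union_left]
      exact ⟨h, hRF.mono_left hT⟩
    · intro S hS
      simp only [mem_filter, mem_univ, true_and] at hS
      rw [mem_powerset, hR]
      intro x hx
      rw [mem_sdiff] at hx
      rw [mem_compl, mem_union]
      rintro (h1 | h1)
      · exact hx.2 h1
      · exact (disjoint_left.1 hS.2 hx.1) h1
    · intro T hT
      rw [mem_powerset] at hT
      have hd : Disjoint T O := hRO.mono_left hT
      rw [union_sdiff_cancel_left hd.symm]
    · intro S hS
      simp only [mem_filter, mem_univ, true_and] at hS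
      exact union_sdiff_of_subset hS.1
    · intro T hT
      rw [mem_powerset] at hT
      have hd : Disjoint O T := (hRO.mono_left hT).symm
      have hc : (O ∪ T).card = O.card + T.card := card_union_of_disjoint hd
      have hTR : T.card ≤ R.card := card_le_card hT
      have h2 : Fintype.card U - (O ∪ T).card = F.card + (R.card - T.card) := by
        omega
      rw [hc, ← hc, h2, hc]
  rw [key]
  have h3 : ∀ T ∈ R.powerset, p ^ (O.card + T.card) * (1 - p) ^ (F.card + (R.card - T.card))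
      = (p ^ O.card * (1 - p) ^ F.card) * (p ^ T.card * (1 - p) ^ (R.card - T.card)) := by
    intro T _
    rw [pow_add, pow_add]; ring
  rw [sum_congr rfl h3, ← mul_sum, sum_pow_mul_eq_add_pow]
  simp

/-- Kraft lemma. -/
theorem kraft (s : Finset ι) (O F : ι → Finset U) (p : ℝ) (hp0 : 0 ≤ p) (hp1 : p ≤ 1)
    (hd : ∀ i ∈ s, Disjoint (O i) (F i))
    (hc : ∀ i ∈ s, ∀ j ∈ s, i ≠ j → ¬ Disjoint (O i) (F j) ∨ ¬ Disjoint (O j) (F i)) :
    ∑ i ∈ s, p ^ (O i).card * (1 - p) ^ (F i).card ≤ 1 := by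
  classical
  set E : ι → Finset (Finset U) := fun i =>
    (univ : Finset (Finset U)).filter (fun S => O i ⊆ S ∧ Disjoint S (F i)) with hE
  set μ : Finset U → ℝ := fun S => p ^ S.card * (1 - p) ^ (Fintype.card U - S.card) with hμ
  have hμ0 : ∀ S, 0 ≤ μ S := fun S => by
    rw [hμ]; exact mul_nonneg (pow_nonneg hp0 _) (pow_nonneg (by linarith) _)
  have hdis : (s : Set ι).PairwiseDisjoint E := by
    intro i hi j hj hij
    rw [Function.onFun, disjoint_left]
    intro S hSi hSj
    simp only [hE, mem_filter, mem_univ, true_and] at hSi hSj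
    rcases hc i hi j hj hij with h | h
    · exact h (hSj.2.mono_left hSi.1)
    · exact h (hSi.2.mono_left hSj.1)
  have h1 : ∑ i ∈ s, p ^ (O i).card * (1 - p) ^ (F i).card = ∑ i ∈ s, ∑ S ∈ E i, μ S :=
    sum_congr rfl fun i hi => (cylinder_mass p (O i) (F i) (hd i hi)).symm
  rw [h1, ← sum_biUnion hdis]
  have h2 : ∑ S : Finset U, μ S = 1 := by
    have := Fintype.sum_pow_mul_eq_add_pow U p (1 - p)
    rw [hμ]
    simpa using this
  rw [← h2]
  exact sum_le_sum_of_subset_of_nonneg (subset_univ _) fun S _ _ => hμ0 S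

/-- Kraft lemma, counting form: if every O i has at most a elements and every F i at
most b elements, then the number of indices times p^a (1-p)^b is at most 1. -/
theorem kraft_card (s : Finset ι) (O F : ι → Finset U) (p : ℝ) (hp0 : 0 ≤ p) (hp1 : p ≤ 1)
    (hd : ∀ i ∈ s, Disjoint (O i) (F i))
    (hc : ∀ i ∈ s, ∀ j ∈ s, i ≠ j → ¬ Disjoint (O i) (F j) ∨ ¬ Disjoint (O j) (F i))
    (a b : ℕ) (ha : ∀ i ∈ s, (O i).card ≤ a) (hb : ∀ i ∈ s, (F i).card ≤ b) :
    (s.card : ℝ) * (p ^ a * (1 - p) ^ b) ≤ 1 := by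
  refine le_trans ?_ (kraft s O F p hp0 hp1 hd hc)
  rw [← nsmul_eq_mul]
  refine card_nsmul_le_sum _ _ _ fun i hi => ?_
  exact mul_le_mul (pow_le_pow_of_le_one hp0 hp1 (ha i hi))
    (pow_le_pow_of_le_one (by linarith) (by linarith) (hb i hi))
    (pow_nonneg (by linarith) _) (pow_nonneg hp0 _)

/-- Kraft lemma, exponential form: `#s <= p^(-a) exp (2 p b)` for 0 < p <= 1/2. -/
theorem kraft_exp (s : Finset ι) (O F : ι → Finset U) (p : ℝ) (hp0 : 0 < p) (hp1 : p ≤ 1 / 2)
    (hd : ∀ i ∈ s, Disjoint (O i) (F i))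
    (hc : ∀ i ∈ s, ∀ j ∈ s, i ≠ j → ¬ Disjoint (O i) (F j) ∨ ¬ Disjoint (O j) (F i))
    (a : ℕ) (b : ℝ) (ha : ∀ i ∈ s, (O i).card ≤ a) (hb : ∀ i ∈ s, ((F i).card : ℝ) ≤ b) :
    (s.card : ℝ) ≤ (p ^ a)⁻¹ * Real.exp (2 * p * b) := by
  rcases s.eq_empty_or_nonempty with rfl | ⟨i0, hi0⟩
  · simp only [card_empty, Nat.cast_zero]
    positivity
  have hb0 : 0 ≤ b := le_trans (Nat.cast_nonneg _) (hb i0 hi0)
  have hbf : ∀ i ∈ s, (F i).card ≤ ⌊b⌋₊ := fun i hi => Nat.le_floor (hb i hi)
  have h1 := kraft_card s O F p hp0.le (by linarith) hd hc a ⌊b⌋₊ ha hbf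
  have h2 : Real.exp (-(2 * p)) ≤ 1 - p := by
    -- exp(-2p) <= 1 - p for 0 <= p <= 1/2
    have h3 : Real.exp (-(2 * p)) = (Real.exp (2 * p))⁻¹ := Real.exp_neg _
    have h4 : 2 * p + 1 ≤ Real.exp (2 * p) := Real.add_one_le_exp _
    rw [h3]
    have h5 : (Real.exp (2 * p))⁻¹ ≤ (2 * p + 1)⁻¹ :=
      inv_anti₀ (by linarith) h4
    refine h5.trans ?_
    rw [inv_eq_one_div, div_le_iff₀ (by linarith)]
    nlinarith
  have h6 : Real.exp (-(2 * p * b)) ≤ (1 - p) ^ ⌊b⌋₊ := by
    have h7 : Real.exp (-(2 * p)) ^ ⌊b⌋₊ ≤ (1 - p) ^ ⌊b⌋₊ :=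
      pow_le_pow_left₀ (Real.exp_pos _).le h2 _
    refine le_trans ?_ h7
    rw [← Real.exp_nat_mul]
    apply Real.exp_le_exp.2
    have := Nat.floor_le hb0
    nlinarith
  have h8 : (s.card : ℝ) * (p ^ a * Real.exp (-(2 * p * b))) ≤ 1 := by
    refine le_trans ?_ h1
    apply mul_le_mul_of_nonneg_left _ (Nat.cast_nonneg _)
    exact mul_le_mul_of_nonneg_left h6 (by positivity)
  rw [Real.exp_neg] at h8
  have hpa : 0 < p ^ a := by positivity
  have he : 0 < Real.exp (2 * p * b) := Real.exp_pos _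
  have h9 : (s.card : ℝ) * (p ^ a * (Real.exp (2 * p * b))⁻¹) =
      (s.card : ℝ) / ((p ^ a)⁻¹ * Real.exp (2 * p * b)) := by
    field_simp
  rw [h9, div_le_one (by positivity)] at h8
  exact h8

/-- Cost of choosing a subset: `sum over A in the powerset of q^#A <= exp (q #X)`. -/
theorem sum_pow_card_le_exp {α : Type*} (X : Finset α) (q : ℝ) (hq : 0 ≤ q) :
    ∑ A ∈ X.powerset, q ^ A.card ≤ Real.exp (q * X.card) := by
  classical
  have h := sum_pow_mul_eq_add_pow q 1 X
  simp only [one_pow, mul_one] at h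
  rw [h]
  have h1 : q + 1 ≤ Real.exp q := Real.add_one_le_exp q
  calc (q + 1) ^ X.card ≤ Real.exp q ^ X.card := pow_le_pow_left₀ (by linarith) h1 _
    _ = Real.exp (q * X.card) := by rw [← Real.exp_nat_mul, mul_comm]

end CEB
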