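import Mathlib

/-!
Consistent path systems coded by first steps.  g u v is the first vertex after u on the path
from u to v, and g u u = u.
-/

namespace CEB

open Finset

variable {V : Type*}

/-- d is the length function of g. -/
def IsLen (g : V → V → V) (d : V → V → ℕ) : Prop :=
  (∀ u v, d u v = d v u) ∧ (∀ u, d u u = 0) ∧ ∀ u v, u ≠ v → d u v = d (g u v) v + 1

/-- A consistent path system of the graph G, coded by its first steps. -/
structure IsSys (G : SimpleGraph V) (g : V → V → V) : Prop where
  self : ∀ u, g u u = u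
  adj : ∀ u v, u ≠ v → G.Adj u (g u v)
  cons : ∀ u v, u ≠ v → g u v ≠ v → g v (g u v) = g v u
  len : ∃ d : V → V → ℕ, IsLen g d

/-- The pair u v is a used edge: the path is the edge u v. -/
def Used (g : V → V → V) (u v : V) : Prop := u ≠ v ∧ g u v = v

/-- No path of the system properly contains the path from u to v. -/
def Maxl (g : V → V → V) (u v : V) : Prop :=
  (∀ s, s ≠ v → g s v ≠ u) ∧ (∀ s, s ≠ u → g s u ≠ v)

/-- The pair u v is a maximal 2-path. -/
def Q (g : V → V → V) (u v : V) : Prop :=
  u ≠ v ∧ g u v ≠ v ∧ g u v = g v u ∧ Maxl g u v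

/-- (x, y) is an option for the pair (u, v). -/
def Opt (g : V → V → V) (u v x y : V) : Prop :=
  u ≠ y ∧ v ≠ x ∧ g u y = x ∧ g v x = y

/-- A set that contains the path of each two of its points. -/
def Closed (g : V → V → V) (A : Set V) : Prop := ∀ u ∈ A, ∀ v ∈ A, g u v ∈ A

/-- Reducible systems. -/
def Red (g : V → V → V) : Prop :=
  ∃ A : Set V, A.Nonempty ∧ Aᶜ.Nonempty ∧ Closed g A ∧ Closed g Aᶜ

/-- Metrizable systems: D is the distance function. -/
def Metr (G : SimpleGraph V) (g : V → V → V) : Prop :=
  ∃ (w : V → V → ℝ) (D : V → V → ℝ), (∀ u v, w u v = w v u) ∧ (∀ u v, G.Adj u v → 0 < w u v) ∧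
    (∀ u, D u u = 0) ∧ (∀ u v, u ≠ v → D u v = w u (g u v) + D (g u v) v) ∧
    (∀ u v x, G.Adj u x → D u v ≤ w u x + D x v)

theorem IsLen.pos {g : V → V → V} {d : V → V → ℕ} (h : IsLen g d) {u v : V} (huv : u ≠ v) :
    0 < d u v := by
  rw [h.2.2 u v huv]; omega

theorem IsLen.eq_zero {g : V → V → V} {d : V → V → ℕ} (h : IsLen g d) {u v : V} :
    d u v = 0 ↔ u = v := by
  constructor
  · intro h0
    by_contra hne
    have := h.pos hne
    omega
  · rintro rfl
    exact h.2.1 u

theorem IsLen.unique {g : V → V → V} {d d' : V → V → ℕ} (h : IsLen g d) (h' : IsLen g d') :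
    d = d' := by
  have key : ∀ n : ℕ, ∀ u v, d u v = n → d' u v = n := by
    intro n
    induction n with
    | zero =>
      intro u v huv
      rw [h.eq_zero] at huv
      subst huv
      exact h'.2.1 u
    | succ n ih =>
      intro u v huv
      have hne : u ≠ v := by
        rintro rfl
        rw [h.2.1 u] at huv
        omega
      have h1 := h.2.2 u v hne
      have h2 := h'.2.2 u v hne
      have h3 := ih (g u v) v (by omega)
      omega
  funext u v
  exact (key (d u v) u v rfl).symm

theorem Used.ne {g : V → V → V} {u v : V} (h : Used g u v) : u ≠ v := h.1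

namespace IsSys

variable {G : SimpleGraph V} {g : V → V → V}

theorem ne_first (h : IsSys G g) {u v : V} (huv : u ≠ v) : g u v ≠ u := by
  intro h1
  have := h.adj u v huv
  rw [h1] at this
  exact G.loopless.irrefl u this

/-- An edge pair in one direction is an edge pair in the other direction. -/
theorem used_symm (h : IsSys G g) {u v : V} (huv : Used g u v) : Used g v u := by
  obtain ⟨d, hd⟩ := h.len
  obtain ⟨hne, hg⟩ := huv
  refine ⟨hne.symm, ?_⟩
  have h1 : d u v = 1 := by
    rw [hd.2.2 u v hne, hg, hd.2.1 v]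
  have h2 : d v u = 1 := by rw [hd.1 v u, h1]
  have h3 := hd.2.2 v u hne.symm
  have h4 : d (g v u) u = 0 := by omega
  exact hd.eq_zero.1 h4

theorem used_comm (h : IsSys G g) {u v : V} : Used g u v ↔ Used g v u :=
  ⟨h.used_symm, h.used_symm⟩

theorem used_adj (h : IsSys G g) {u v : V} (huv : Used g u v) : G.Adj u v := by
  have := h.adj u v huv.1
  rwa [huv.2] at this

/-- (P2): the last step seen from the other side. -/
theorem opt_self (h : IsSys G g) {u v : V} (huv : u ≠ v) (hn : g u v ≠ v) :
    Opt g u v (g u v) (g v u) := by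
  have hn' : g v u ≠ u := by
    intro h1
    exact hn (h.used_symm ⟨huv.symm, h1⟩).2
  refine ⟨hn'.symm, hn.symm, ?_, ?_⟩
  · exact h.cons v u huv.symm hn'
  · exact h.cons u v huv hn

theorem len_first (_h : IsSys G g) {d : V → V → ℕ} (hd : IsLen g d) {u v : V} (huv : u ≠ v) :
    d (g u v) v + 1 = d u v := (hd.2.2 u v huv).symm

theorem len_last (_h : IsSys G g) {d : V → V → ℕ} (hd : IsLen g d) {u v : V} (huv : u ≠ v) :
    d u (g v u) + 1 = d u v := by
  have h1 := hd.2.2 v u huv.symm
  rw [hd.1 u (g v u), hd.1 u v]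
  exact h1.symm

/-- The first step is a used edge. -/
theorem used_first (h : IsSys G g) {u v : V} (huv : u ≠ v) : Used g u (g u v) := by
  obtain ⟨d, hd⟩ := h.len
  have key : ∀ n : ℕ, ∀ v, u ≠ v → d u v = n → g u (g u v) = g u v := by
    intro n
    induction n using Nat.strong_induction_on with
    | _ n ih =>
      intro v huv hdn
      by_cases hv : g u v = v
      · rw [hv]; exact hv
      · have hv' : g v u ≠ u := by
          intro h1
          exact hv (h.used_symm ⟨huv.symm, h1⟩).2
        have h1 : g u (g v u) = g u v := h.cons v u huv.symm hv'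
        have h2 : d u (g v u) + 1 = d u v := h.len_last hd huv
        have h3 := ih (d u (g v u)) (by omega) (g v u) hv'.symm rfl
        rw [h1] at h3
        exact h3
  exact ⟨(h.ne_first huv).symm, key _ v huv rfl⟩

/-- (P4) disjointness of opposite classes. -/
theorem class_disjoint (h : IsSys G g) {u x y : V} (hxy : x ≠ y) (huy : u ≠ y)
    (h1 : g u y = x) (h2 : g u x = y) : False := by
  have h3 := (h.used_first huy).2
  rw [h1, h2] at h3
  exact hxy h3.symm

theorem two_path_iff (h : IsSys G g) {d : V → V → ℕ} (hd : IsLen g d) {u v : V} (huv : u ≠ v)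
    (hn : g u v ≠ v) : g u v = g v u ↔ d u v = 2 := by
  have ho := h.opt_self huv hn
  constructor
  · intro he
    have h1 : d u v = d (g u v) v + 1 := hd.2.2 u v huv
    have h2 : g v (g u v) = g u v := by rw [ho.2.2.2, he]
    have h3 : d v (g u v) = d (g v (g u v)) (g u v) + 1 := hd.2.2 v (g u v) ho.2.1
    rw [h2, hd.2.1] at h3
    rw [h1, hd.1, h3]
  · intro h2
    have h1 : d u v = d (g u v) v + 1 := hd.2.2 u v huv
    have h3 : d v (g u v) = d (g v (g u v)) (g u v) + 1 := hd.2.2 v (g u v) ho.2.1
    have h4 : d (g v (g u v)) (g u v) = 0 := by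
      have := hd.1 (g u v) v
      omega
    have h5 := hd.eq_zero.1 h4
    rw [ho.2.2.2] at h5
    exact h5.symm

theorem maxl_symm {u v : V} (hm : Maxl g u v) : Maxl g v u := ⟨hm.2, hm.1⟩

theorem q_symm {u v : V} (h : IsSys G g) (hq : Q g u v) : Q g v u := by
  refine ⟨hq.1.symm, ?_, hq.2.2.1.symm, maxl_symm hq.2.2.2⟩
  intro h1
  exact hq.2.1 (h.used_symm ⟨hq.1.symm, h1⟩).2

/-- In a maximal 2-path the two edges are used. -/
theorem q_used {u v : V} (h : IsSys G g) (hq : Q g u v) :
    Used g u (g u v) ∧ Used g v (g u v) := by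
  refine ⟨h.used_first hq.1, ?_⟩
  rw [hq.2.2.1]
  exact h.used_first hq.1.symm

end IsSys

/-! ### Options and switches -/

section switch

variable [DecidableEq V]

/-- Replace the path from u to v by the option (x, y). -/
def switch (g : V → V → V) (u v x y : V) : V → V → V :=
  fun s t => if s = u ∧ t = v then x else if s = v ∧ t = u then y else g s t

theorem switch_of_ne {g : V → V → V} {u v x y s t : V} (h1 : ¬ (s = u ∧ t = v))
    (h2 : ¬ (s = v ∧ t = u)) : switch g u v x y s t = g s t := by
  simp only [switch, if_neg h1, if_neg h2]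

theorem switch_left {g : V → V → V} {u v x y : V} : switch g u v x y u v = x := by
  simp [switch]

theorem switch_right {g : V → V → V} {u v x y : V} (huv : u ≠ v) :
    switch g u v x y v u = y := by
  simp [switch, huv, huv.symm]

theorem IsSys.switch {G : SimpleGraph V} {g : V → V → V} (h : IsSys G g) {u v x y : V}
    (huv : u ≠ v) (hm : Maxl g u v) (ho : Opt g u v x y) : IsSys G (switch g u v x y) := by
  obtain ⟨huy, hvx, hx, hy⟩ := ho
  have hxu : x ≠ u := by rw [← hx]; exact h.ne_first huy
  have hyv : y ≠ v := by rw [← hy]; exact h.ne_first hvx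
  obtain ⟨d, hd⟩ := h.len
  refine ⟨?_, ?_, ?_, ?_⟩
  · intro s
    rw [switch_of_ne]
    · exact h.self s
    · rintro ⟨rfl, h2⟩; exact huv h2
    · rintro ⟨rfl, h2⟩; exact huv h2.symm
  · intro s t hst
    by_cases h1 : s = u ∧ t = v
    · obtain ⟨rfl, rfl⟩ := h1
      rw [switch_left, ← hx]
      exact h.adj s y huy
    · by_cases h2 : s = v ∧ t = u
      · obtain ⟨rfl, rfl⟩ := h2
        rw [switch_right huv, ← hy]
        exact h.adj s x hvx
      · rw [switch_of_ne h1 h2]
        exact h.adj s t hst
  · intro s t hst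
    by_cases h1 : s = u ∧ t = v
    · obtain ⟨rfl, rfl⟩ := h1
      intro _
      rw [switch_left, switch_right huv, switch_of_ne]
      · exact hy
      · rintro ⟨h3, _⟩; exact huv h3.symm
      · rintro ⟨_, h3⟩; exact hxu h3
    · by_cases h2 : s = v ∧ t = u
      · obtain ⟨rfl, rfl⟩ := h2
        intro _
        rw [switch_left, switch_right huv, switch_of_ne]
        · exact hx
        · rintro ⟨_, h3⟩; exact hyv h3
        · rintro ⟨h3, _⟩; exact huv h3
      · rw [switch_of_ne h1 h2]
        intro hne
        rw [switch_of_ne (s := t) (t := s), switch_of_ne]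
        · exact h.cons s t hst hne
        · rintro ⟨rfl, h3⟩
          exact hm.2 s hst h3
        · rintro ⟨rfl, h3⟩
          exact hm.1 s hst h3
        · rintro ⟨rfl, rfl⟩; exact h2 ⟨rfl, rfl⟩
        · rintro ⟨rfl, rfl⟩; exact h1 ⟨rfl, rfl⟩
  · refine ⟨fun s t => if (s = u ∧ t = v) ∨ (s = v ∧ t = u) then d x y + 2 else d s t,
      ?_, ?_, ?_⟩
    · intro s t
      have : ((s = u ∧ t = v) ∨ (s = v ∧ t = u)) ↔ ((t = u ∧ s = v) ∨ (t = v ∧ s = u)) := by
        tauto
      simp only [this, hd.1 s t]
    · intro s
      have : ¬ ((s = u ∧ s = v) ∨ (s = v ∧ s = u)) := by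
        rintro (⟨rfl, h2⟩ | ⟨rfl, h2⟩)
        · exact huv h2
        · exact huv h2.symm
      simp only [if_neg this]
      exact hd.2.1 s
    · intro s t hst
      by_cases h1 : s = u ∧ t = v
      · obtain ⟨rfl, rfl⟩ := h1
        have hc1 : (s = s ∧ t = t) ∨ (s = t ∧ t = s) := Or.inl ⟨rfl, rfl⟩
        have hc2 : ¬ ((x = s ∧ t = t) ∨ (x = t ∧ t = s)) := by
          rintro (⟨h3, _⟩ | ⟨_, h3⟩)
          · exact hxu h3
          · exact huv h3.symm
        have h4 : d t x = d (g t x) x + 1 := hd.2.2 t x hvx
        rw [hy] at h4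
        show (if (s = s ∧ t = t) ∨ (s = t ∧ t = s) then d x y + 2 else d s t) =
          (if (CEB.switch g s t x y s t = s ∧ t = t) ∨ (CEB.switch g s t x y s t = t ∧ t = s)
            then d x y + 2 else d (CEB.switch g s t x y s t) t) + 1
        rw [switch_left, if_pos hc1, if_neg hc2, hd.1 x t, h4, hd.1 y x]
      · by_cases h2 : s = v ∧ t = u
        · obtain ⟨rfl, rfl⟩ := h2
          have hc1 : (s = t ∧ t = s) ∨ (s = s ∧ t = t) := Or.inr ⟨rfl, rfl⟩
          have hc2 : ¬ ((y = t ∧ t = s) ∨ (y = s ∧ t = t)) := by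
            rintro (⟨_, h3⟩ | ⟨h3, _⟩)
            · exact huv h3
            · exact hyv h3
          have h4 : d t y = d (g t y) y + 1 := hd.2.2 t y huy
          rw [hx] at h4
          show (if (s = t ∧ t = s) ∨ (s = s ∧ t = t) then d x y + 2 else d s t) =
            (if (CEB.switch g t s x y s t = t ∧ t = s) ∨ (CEB.switch g t s x y s t = s ∧ t = t)
              then d x y + 2 else d (CEB.switch g t s x y s t) t) + 1
          rw [switch_right huv, if_pos hc1, if_neg hc2, hd.1 y t, h4]
        · have hc1 : ¬ ((s = u ∧ t = v) ∨ (s = v ∧ t = u)) := by tauto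
          have hc2 : ¬ ((g s t = u ∧ t = v) ∨ (g s t = v ∧ t = u)) := by
            rintro (⟨h3, rfl⟩ | ⟨h3, rfl⟩)
            · exact hm.1 s hst h3
            · exact hm.2 s hst h3
          simp only [switch_of_ne h1 h2, if_neg hc1, if_neg hc2]
          exact hd.2.2 s t hst

end switch

/-! ### Resampling the maximal 2-paths -/

open Classical in
/-- New first steps: f on the maximal 2-paths, g elsewhere. -/
noncomputable def resample (g f : V → V → V) : V → V → V :=
  fun u v => if Q g u v then f u v else g u v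

/-- f is an admissible choice of middle vertices for the maximal 2-paths of g. -/
def Mids (g f : V → V → V) : Prop :=
  ∀ u v, Q g u v → f u v = f v u ∧ Used g u (f u v) ∧ Used g v (f u v)

section resample

variable {G : SimpleGraph V} {g f : V → V → V}

theorem resample_of_q {u v : V} (hq : Q g u v) : resample g f u v = f u v := by
  simp [resample, hq]

theorem resample_of_not_q {u v : V} (hq : ¬ Q g u v) : resample g f u v = g u v := by
  simp [resample, hq]

theorem used_not_q {u v : V} (hu : Used g u v) : ¬ Q g u v := fun hq => hq.2.1 hu.2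

theorem IsSys.resample (h : IsSys G g) (hf : Mids g f) : IsSys G (resample g f) := by
  obtain ⟨d, hd⟩ := h.len
  refine ⟨?_, ?_, ?_, d, hd.1, hd.2.1, ?_⟩
  · intro u
    rw [resample_of_not_q (fun hq => hq.1 rfl)]
    exact h.self u
  · intro u v huv
    by_cases hq : Q g u v
    · rw [resample_of_q hq]
      exact h.used_adj (hf u v hq).2.1
    · rw [resample_of_not_q hq]
      exact h.adj u v huv
  · intro u v huv
    by_cases hq : Q g u v
    · have hq' := h.q_symm hq
      obtain ⟨h1, h2, h3⟩ := hf u v hq
      intro _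
      rw [resample_of_q hq, resample_of_q hq', ← h1, resample_of_not_q (used_not_q h3)]
      exact h3.2
    · rw [resample_of_not_q hq]
      intro hn
      have hq' : ¬ Q g v u := fun h1 => hq (h.q_symm h1)
      have hq2 : ¬ Q g v (g u v) := by
        intro h1
        exact h1.2.2.2.2 u huv rfl
      rw [resample_of_not_q hq', resample_of_not_q hq2]
      exact h.cons u v huv hn
  · intro u v huv
    by_cases hq : Q g u v
    · obtain ⟨h1, h2, h3⟩ := hf u v hq
      rw [resample_of_q hq]
      have h4 : d u v = 2 := (h.two_path_iff hd huv hq.2.1).1 hq.2.2.1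
      have h5 := h.used_symm h3
      have h6 : d (f u v) v = 1 := by
        rw [hd.2.2 _ _ h5.1, h5.2, hd.2.1]
      rw [h4, h6]
    · rw [resample_of_not_q hq]
      exact hd.2.2 u v huv

theorem resample_used (hf : Mids g f) {u v : V} :
    Used (resample g f) u v ↔ Used g u v := by
  by_cases hq : Q g u v
  · constructor
    · rintro ⟨_, h2⟩
      rw [resample_of_q hq] at h2
      have := (hf u v hq).2.2
      rw [h2] at this
      exact absurd rfl this.1
    · intro h1
      exact absurd hq (used_not_q h1)
  · unfold Used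
    rw [resample_of_not_q hq]

/-- Resampling does not change the set of maximal 2-paths. -/
theorem resample_q (h : IsSys G g) (hf : Mids g f) {u v : V} :
    Q (resample g f) u v ↔ Q g u v := by
  have hmax : ∀ u v : V, u ≠ v → ¬ Used g u v →
      ((∀ s, s ≠ v → resample g f s v ≠ u) ↔ (∀ s, s ≠ v → g s v ≠ u)) := by
    intro u v huv hnu
    constructor
    · intro h1 s hs h2
      refine h1 s hs ?_
      by_cases hq : Q g s v
      · exfalso
        -- then u is the middle vertex, so u v is used
        have h3 := (h.q_used hq).2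
        rw [h2] at h3
        exact hnu (h.used_symm h3)
      · rw [resample_of_not_q hq]; exact h2
    · intro h1 s hs h2
      by_cases hq : Q g s v
      · rw [resample_of_q hq] at h2
        have h3 := (hf s v hq).2.2
        rw [h2] at h3
        exact hnu (h.used_symm h3)
      · rw [resample_of_not_q hq] at h2
        exact h1 s hs h2
  constructor
  · rintro ⟨h1, h2, h3, h4, h5⟩
    have hnu : ¬ Used g u v := fun hu => h2 ((resample_used hf).2 hu).2
    have hnu' : ¬ Used g v u := fun hu => hnu (h.used_symm hu)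
    have h4' := (hmax u v h1 hnu).1 h4
    have h5' := (hmax v u h1.symm hnu').1 h5
    by_cases hq : Q g u v
    · exact hq
    · have hq' : ¬ Q g v u := fun h6 => hq (h.q_symm h6)
      rw [resample_of_not_q hq] at h2 h3
      rw [resample_of_not_q hq'] at h3
      exact ⟨h1, h2, h3, h4', h5'⟩
  · intro hq
    obtain ⟨h1, h2, h3, h4, h5⟩ := id hq
    have hnu : ¬ Used g u v := fun hu => h2 hu.2
    have hnu' : ¬ Used g v u := fun hu => hnu (h.used_symm hu)
    have hq' := h.q_symm hq
    obtain ⟨k1, k2, k3⟩ := hf u v hq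
    refine ⟨h1, ?_, ?_, (hmax u v h1 hnu).2 h4, (hmax v u h1.symm hnu').2 h5⟩
    · rw [resample_of_q hq]
      intro h6
      rw [h6] at k3
      exact k3.1 rfl
    · rw [resample_of_q hq, resample_of_q hq']
      exact k1

end resample

end CEB
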