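import Mathlib
import Pool.Agent.Work.MP_ceb7a8_co.Sys
import Pool.Agent.Work.MP_ceb7a8_co.Kraft

/-!
Encoding of a consistent path system (note 2443, section 2, Theorem 2).
-/

open Finset

namespace CEB

noncomputable section

open scoped Classical

variable {V : Type*} [Fintype V] [LinearOrder V]

/-- All consistent path systems of G. -/
def systems (G : SimpleGraph V) : Finset (V → V → V) := univ.filter (fun g => IsSys G g)

/-- The class C_y(x): all u whose path to y starts with the step to x. -/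
def C (g : V → V → V) (y x : V) : Finset V := univ.filter (fun u => u ≠ y ∧ g u y = x)

/-- (x, y) is heavy. -/
def Heavy (g : V → V → V) (θ : ℝ) (x y : V) : Prop := x ≠ y ∧ θ ≤ ((C g y x).card : ℝ)

/-- The label of (u, y): the first step x from u to y when (x, y) is heavy. -/
def om (g : V → V → V) (θ : ℝ) (u y : V) : Option V :=
  if u ≠ y ∧ Heavy g θ (g u y) y then some (g u y) else none

variable (V) in
/-- Pairs u < v. -/
def prs : Finset (V × V) := univ.filter (fun p : V × V => p.1 < p.2)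

/-- Used edges as pairs u < v. -/
def usedP (g : V → V → V) : Finset (V × V) := (prs V).filter (fun p => Used g p.1 p.2)

/-- Wasted pairs of a labelling. -/
def wastedP (ω : V → V → Option V) : Finset (V × V) :=
  (prs V).filter (fun p => ω p.1 p.2 ≠ none ∨ ω p.2 p.1 ≠ none)

/-- Number of ordered wasted incidences. -/
def Kw (ω : V → V → Option V) : ℕ := (univ.filter (fun p : V × V => ω p.1 p.2 ≠ none)).card

/-- The heavy relation of a labelling. -/
def HvO (ω : V → V → Option V) (x y : V) : Prop := ∃ u, ω u y = some x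

/-- Light pairs. -/
def lightP (g : V → V → V) (θ : ℝ) : Finset (V × V) :=
  (prs V).filter (fun p => ¬ Used g p.1 p.2 ∧ om g θ p.1 p.2 = none ∧ om g θ p.2 p.1 = none ∧
    g p.1 p.2 ≠ g p.2 p.1 ∧
    ¬ (HvO (om g θ) (g p.1 p.2) (g p.2 p.1) ∧ HvO (om g θ) (g p.2 p.1) (g p.1 p.2)))

/-- Rest pairs. -/
def restP (g : V → V → V) (θ : ℝ) : Finset (V × V) :=
  prs V \ (usedP g ∪ wastedP (om g θ) ∪ lightP g θ)

/-- Number of rest pairs of heavy type. -/
def eta2 (g : V → V → V) (θ : ℝ) : ℕ :=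
  ((restP g θ).filter (fun p => g p.1 p.2 ≠ g p.2 p.1)).card

/-- Adjacency in a set of pairs. -/
def Hs (HP : Finset (V × V)) (u x : V) : Prop := (u, x) ∈ HP ∨ (x, u) ∈ HP

/-- Number of possible middle vertices. -/
def kk (HP : Finset (V × V)) (u v : V) : ℕ := (univ.filter (fun z => Hs HP u z ∧ Hs HP v z)).card

/-- Number of possible heavy types. -/
def tt (ω : V → V → Option V) (u v : V) : ℕ :=
  (univ.filter (fun o : V × V => ω u o.2 = some o.1 ∧ ω v o.1 = some o.2)).card

/-- The possible types of a rest pair. -/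
def optF (HP : Finset (V × V)) (ω : V → V → Option V) (u v : V) : Finset (V × V) :=
  univ.filter (fun o : V × V => (o.1 = o.2 ∧ Hs HP u o.1 ∧ Hs HP v o.1) ∨
    (ω u o.2 = some o.1 ∧ ω v o.1 = some o.2))

/-- Weight of a type. -/
def wt (s : ℝ) (o : V × V) : ℝ := if o.1 = o.2 then 1 else s

theorem mem_systems {G : SimpleGraph V} {g : V → V → V} : g ∈ systems G ↔ IsSys G g := by
  simp [systems]

theorem mem_C {g : V → V → V} {y x u : V} : u ∈ C g y x ↔ u ≠ y ∧ g u y = x := by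
  simp [C]

theorem mem_prs {p : V × V} : p ∈ prs V ↔ p.1 < p.2 := by simp [prs]

theorem mem_usedP {g : V → V → V} {p : V × V} : p ∈ usedP g ↔ p.1 < p.2 ∧ Used g p.1 p.2 := by
  simp [usedP, mem_prs]

theorem mem_wastedP {ω : V → V → Option V} {p : V × V} :
    p ∈ wastedP ω ↔ p.1 < p.2 ∧ (ω p.1 p.2 ≠ none ∨ ω p.2 p.1 ≠ none) := by
  simp only [wastedP, mem_filter, mem_prs]

theorem om_eq_some {g : V → V → V} {θ : ℝ} {u y x : V} :
    om g θ u y = some x ↔ u ≠ y ∧ g u y = x ∧ Heavy g θ x y := by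
  unfold om
  split_ifs with h
  · constructor
    · intro h1
      have h2 : g u y = x := by simpa using h1
      exact ⟨h.1, h2, h2 ▸ h.2⟩
    · rintro ⟨_, h2, _⟩
      rw [h2]
  · constructor
    · intro h1; simp at h1
    · rintro ⟨h1, h2, h3⟩
      exact absurd ⟨h1, h2 ▸ h3⟩ h

theorem om_none {g : V → V → V} {θ : ℝ} {u y : V} (h : om g θ u y = none) (huy : u ≠ y) :
    ¬ Heavy g θ (g u y) y := by
  intro h1
  have : om g θ u y = some (g u y) := om_eq_some.2 ⟨huy, rfl, h1⟩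
  rw [h] at this
  simp at this

theorem hvO_om {g : V → V → V} {θ : ℝ} (hθ : 0 < θ) {x y : V} :
    HvO (om g θ) x y ↔ Heavy g θ x y := by
  constructor
  · rintro ⟨u, hu⟩
    exact (om_eq_some.1 hu).2.2
  · intro h
    have hpos : 0 < (C g y x).card := by
      have : (0 : ℝ) < ((C g y x).card : ℝ) := lt_of_lt_of_le hθ h.2
      exact_mod_cast this
    obtain ⟨u, hu⟩ := card_pos.1 hpos
    rw [mem_C] at hu
    exact ⟨u, om_eq_some.2 ⟨hu.1, hu.2, h⟩⟩

theorem mem_lightP {g : V → V → V} {θ : ℝ} {p : V × V} : p ∈ lightP g θ ↔ p.1 < p.2 ∧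
    ¬ Used g p.1 p.2 ∧ om g θ p.1 p.2 = none ∧ om g θ p.2 p.1 = none ∧
    g p.1 p.2 ≠ g p.2 p.1 ∧
    ¬ (HvO (om g θ) (g p.1 p.2) (g p.2 p.1) ∧ HvO (om g θ) (g p.2 p.1) (g p.1 p.2)) := by
  simp only [lightP, mem_filter, mem_prs]

theorem mem_restP {g : V → V → V} {θ : ℝ} {p : V × V} : p ∈ restP g θ ↔ p.1 < p.2 ∧
    p ∉ usedP g ∧ p ∉ wastedP (om g θ) ∧ p ∉ lightP g θ := by
  simp only [restP, mem_sdiff, mem_prs, mem_union, not_or]
  tauto

/-- A rest pair has one of the possible types. -/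
theorem rest_type {G : SimpleGraph V} {g : V → V → V} (hg : IsSys G g) {θ : ℝ} (hθ : 0 < θ)
    {p : V × V} (hp : p ∈ restP g θ) :
    (g p.1 p.2, g p.2 p.1) ∈ optF (usedP g) (om g θ) p.1 p.2 := by
  rw [mem_restP, mem_usedP, mem_wastedP, mem_lightP] at hp
  obtain ⟨hlt, h1, h2, h3⟩ := hp
  have hne : p.1 ≠ p.2 := hlt.ne
  have hnu : ¬ Used g p.1 p.2 := fun h => h1 ⟨hlt, h⟩
  have hgn : g p.1 p.2 ≠ p.2 := fun h => hnu ⟨hne, h⟩
  have ho := hg.opt_self hne hgn
  rw [not_and_or] at h2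
  rcases h2 with h2 | h2
  · exact absurd hlt h2
  rw [not_or, not_not, not_not] at h2
  simp only [optF, mem_filter, mem_univ, true_and]
  by_cases he : g p.1 p.2 = g p.2 p.1
  · left
    refine ⟨he, ?_, ?_⟩
    · have hu := hg.used_first hne
      unfold Hs
      rw [mem_usedP, mem_usedP]
      rcases lt_or_gt_of_ne hu.1 with h | h
      · exact Or.inl ⟨h, hu⟩
      · exact Or.inr ⟨h, hg.used_symm hu⟩
    · have hu := hg.used_first hne.symm
      rw [← he] at hu
      unfold Hs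
      rw [mem_usedP, mem_usedP]
      rcases lt_or_gt_of_ne hu.1 with h | h
      · exact Or.inl ⟨h, hu⟩
      · exact Or.inr ⟨h, hg.used_symm hu⟩
  · right
    have h4 : HvO (om g θ) (g p.1 p.2) (g p.2 p.1) ∧ HvO (om g θ) (g p.2 p.1) (g p.1 p.2) := by
      by_contra h5
      exact h3 ⟨hlt, hnu, h2.1, h2.2, he, h5⟩
    rw [hvO_om hθ, hvO_om hθ] at h4
    exact ⟨om_eq_some.2 ⟨ho.1, ho.2.2.1, h4.1⟩, om_eq_some.2 ⟨ho.2.1, ho.2.2.2, h4.2⟩⟩

/-! ### The conflict lemma -/

/-- Open tuples. -/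
def OpenT (g : V → V → V) (θ : ℝ) : Finset ((V × V) × (V × V)) :=
  (lightP g θ).image (fun p => (p, (g p.1 p.2, g p.2 p.1)))

/-- Candidate tuples. -/
def CandT (g : V → V → V) (θ : ℝ) : Finset ((V × V) × (V × V)) :=
  univ.filter (fun q => q.1 ∈ lightP g θ ∧ q.2.1 ≠ q.2.2 ∧
    ¬ (HvO (om g θ) q.2.1 q.2.2 ∧ HvO (om g θ) q.2.2 q.2.1) ∧
    Opt g q.1.1 q.1.2 q.2.1 q.2.2)

theorem openT_card (g : V → V → V) (θ : ℝ) : (OpenT g θ).card = (lightP g θ).card := by
  unfold OpenT
  rw [card_image_of_injective]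
  intro p q h
  exact (Prod.mk.inj h).1

theorem opt_card_le (g : V → V → V) (θ : ℝ) (hθ : 0 < θ) :
    ((univ.filter (fun q : (V × V) × (V × V) => ((C g q.2.2 q.2.1).card : ℝ) < θ ∧
      Opt g q.1.1 q.1.2 q.2.1 q.2.2)).card : ℝ) ≤ θ * (Fintype.card V : ℝ) ^ 2 := by
  set A := univ.filter (fun q : (V × V) × (V × V) => ((C g q.2.2 q.2.1).card : ℝ) < θ ∧
      Opt g q.1.1 q.1.2 q.2.1 q.2.2) with hA
  have h1 : A.card ≤ ⌊θ⌋₊ * (A.image (fun q => (q.1.2, q.2.1))).card := by
    apply card_le_mul_card_image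
    rintro ⟨v, x⟩ hvx
    rw [mem_image] at hvx
    obtain ⟨q0, hq0, hq0'⟩ := hvx
    have hv0 : q0.1.2 = v := (Prod.mk.inj hq0').1
    have hx0 : q0.2.1 = x := (Prod.mk.inj hq0').2
    rw [hA, mem_filter] at hq0
    have hy0 : q0.2.2 = g v x := by rw [← hv0, ← hx0]; exact hq0.2.2.2.2.2.symm
    have h2 : (A.filter (fun q => (q.1.2, q.2.1) = (v, x))).card ≤ (C g (g v x) x).card := by
      apply card_le_card_of_injOn (fun q => q.1.1)
      · intro q hq
        rw [mem_coe, mem_filter, hA, mem_filter] at hq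
        obtain ⟨⟨_, _, hopt⟩, hq2⟩ := hq
        have hv : q.1.2 = v := (Prod.mk.inj hq2).1
        have hx : q.2.1 = x := (Prod.mk.inj hq2).2
        have hy : q.2.2 = g v x := by rw [← hv, ← hx]; exact hopt.2.2.2.symm
        rw [mem_coe, mem_C]
        refine ⟨?_, ?_⟩
        · rw [← hy]; exact hopt.1
        · rw [← hy, ← hx]; exact hopt.2.2.1
      · intro q hq q' hq' hqq
        rw [mem_coe, mem_filter, hA, mem_filter] at hq hq'
        have e1 : q.1.2 = v := (Prod.mk.inj hq.2).1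
        have e2 : q.2.1 = x := (Prod.mk.inj hq.2).2
        have e3 : q'.1.2 = v := (Prod.mk.inj hq'.2).1
        have e4 : q'.2.1 = x := (Prod.mk.inj hq'.2).2
        have e5 : q.2.2 = g v x := by rw [← e1, ← e2]; exact hq.1.2.2.2.2.2.symm
        have e6 : q'.2.2 = g v x := by rw [← e3, ← e4]; exact hq'.1.2.2.2.2.2.symm
        ext
        · exact hqq
        · rw [e1, e3]
        · rw [e2, e4]
        · rw [e5, e6]
    refine h2.trans ?_
    apply Nat.le_floor
    have := hq0.2.1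
    rw [hy0, hx0] at this
    exact this.le
  have h2 : (A.image (fun q => (q.1.2, q.2.1))).card ≤ Fintype.card V ^ 2 := by
    refine (card_le_univ _).trans ?_
    rw [Fintype.card_prod, sq]
  calc (A.card : ℝ) ≤ ((⌊θ⌋₊ * (A.image (fun q => (q.1.2, q.2.1))).card : ℕ) : ℝ) := by
        exact_mod_cast h1
    _ ≤ θ * (Fintype.card V : ℝ) ^ 2 := by
        push_cast
        apply mul_le_mul (Nat.floor_le hθ.le) _ (Nat.cast_nonneg _) hθ.le
        exact_mod_cast h2

theorem opt_card_le' (g : V → V → V) (θ : ℝ) (hθ : 0 < θ) :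
    ((univ.filter (fun q : (V × V) × (V × V) => ((C g q.2.1 q.2.2).card : ℝ) < θ ∧
      Opt g q.1.1 q.1.2 q.2.1 q.2.2)).card : ℝ) ≤ θ * (Fintype.card V : ℝ) ^ 2 := by
  refine le_trans ?_ (opt_card_le g θ hθ)
  have : (univ.filter (fun q : (V × V) × (V × V) => ((C g q.2.1 q.2.2).card : ℝ) < θ ∧
      Opt g q.1.1 q.1.2 q.2.1 q.2.2)).card ≤
      (univ.filter (fun q : (V × V) × (V × V) => ((C g q.2.2 q.2.1).card : ℝ) < θ ∧
      Opt g q.1.1 q.1.2 q.2.1 q.2.2)).card := by
    apply card_le_card_of_injOn (fun q => ((q.1.2, q.1.1), (q.2.2, q.2.1)))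
    · intro q hq
      rw [mem_coe, mem_filter] at hq ⊢
      obtain ⟨_, h1, h2⟩ := hq
      exact ⟨mem_univ _, h1, h2.2.1, h2.1, h2.2.2.2, h2.2.2.1⟩
    · intro q _ q' _ h
      obtain ⟨h1, h2⟩ := Prod.mk.inj h
      obtain ⟨h3, h4⟩ := Prod.mk.inj h1
      obtain ⟨h5, h6⟩ := Prod.mk.inj h2
      ext
      · exact h4
      · exact h3
      · exact h6
      · exact h5
  exact_mod_cast this

theorem candT_card (g : V → V → V) (θ : ℝ) (hθ : 0 < θ) :
    ((CandT g θ).card : ℝ) ≤ 2 * θ * (Fintype.card V : ℝ) ^ 2 := by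
  have hsub : CandT g θ ⊆
      (univ.filter (fun q : (V × V) × (V × V) => ((C g q.2.2 q.2.1).card : ℝ) < θ ∧
        Opt g q.1.1 q.1.2 q.2.1 q.2.2)) ∪
      (univ.filter (fun q : (V × V) × (V × V) => ((C g q.2.1 q.2.2).card : ℝ) < θ ∧
        Opt g q.1.1 q.1.2 q.2.1 q.2.2)) := by
    intro q hq
    simp only [CandT, mem_filter, mem_univ, true_and] at hq
    obtain ⟨_, hne, hnh, hopt⟩ := hq
    rw [mem_union, mem_filter, mem_filter]
    rw [hvO_om hθ, hvO_om hθ] at hnh
    by_cases h1 : ((C g q.2.2 q.2.1).card : ℝ) < θ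
    · exact Or.inl ⟨mem_univ _, h1, hopt⟩
    · right
      refine ⟨mem_univ _, ?_, hopt⟩
      by_contra h2
      exact hnh ⟨⟨hne, not_lt.1 h1⟩, ⟨hne.symm, not_lt.1 h2⟩⟩
  have h1 := (card_le_card hsub).trans (card_union_le _ _)
  have h2 := opt_card_le g θ hθ
  have h3 := opt_card_le' g θ hθ
  have h4 : ((CandT g θ).card : ℝ) ≤
      ((univ.filter (fun q : (V × V) × (V × V) => ((C g q.2.2 q.2.1).card : ℝ) < θ ∧
        Opt g q.1.1 q.1.2 q.2.1 q.2.2)).card : ℝ) +
      ((univ.filter (fun q : (V × V) × (V × V) => ((C g q.2.1 q.2.2).card : ℝ) < θ ∧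
        Opt g q.1.1 q.1.2 q.2.1 q.2.2)).card : ℝ) := by
    exact_mod_cast h1
  linarith

/-- One sided conflict lemma. -/
theorem conflict_aux {G : SimpleGraph V} {g g' : V → V → V} (hg : IsSys G g)
    (hg' : IsSys G g') {θ : ℝ} {d : V → V → ℕ} (hd : IsLen g d)
    (h1 : usedP g = usedP g') (h2 : om g θ = om g' θ) (h3 : lightP g θ = lightP g' θ)
    (h4 : ∀ p ∈ restP g θ, g p.1 p.2 = g' p.1 p.2 ∧ g p.2 p.1 = g' p.2 p.1)
    {u v : V} (huv : u < v) (hdiff : g u v ≠ g' u v ∨ g v u ≠ g' v u)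
    (hmin : ∀ a b, d a b < d u v → g a b = g' a b) :
    ¬ Disjoint (OpenT g θ) (CandT g' θ \ OpenT g' θ) := by
  have hne : u ≠ v := huv.ne
  have hused : ∀ w : V → V → V, (u, v) ∈ usedP w ↔ Used w u v := by
    intro w; rw [mem_usedP]; exact ⟨fun h => h.2, fun h => ⟨huv, h⟩⟩
  by_cases hu : Used g u v
  · exfalso
    have hu' : Used g' u v := by
      rw [← hused g', ← h1, hused g]; exact hu
    rcases hdiff with h | h
    · exact h (hu.2.trans hu'.2.symm)
    · exact h ((hg.used_symm hu).2.trans (hg'.used_symm hu').2.symm)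
  have hu' : ¬ Used g' u v := by
    rw [← hused g', ← h1, hused g]; exact hu
  have hx : g u v ≠ v := fun h => hu ⟨hne, h⟩
  have hx' : g' u v ≠ v := fun h => hu' ⟨hne, h⟩
  have hy' : g' v u ≠ u := fun h => hu' (hg'.used_symm ⟨hne.symm, h⟩)
  have ho := hg.opt_self hne hx
  have hl1 : d v (g u v) < d u v := by
    have := hg.len_first hd hne
    rw [hd.1 v (g u v)]; omega
  have hl2 : d u (g v u) < d u v := by
    have := hg.len_last hd hne
    omega
  have e1 : g' v (g u v) = g v u := by rw [← hmin _ _ hl1]; exact ho.2.2.2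
  have e2 : g' u (g v u) = g u v := by rw [← hmin _ _ hl2]; exact ho.2.2.1
  have key1 : g u v ≠ g' u v := by
    intro h
    have h5 := hg'.cons u v hne hx'
    rw [← h, e1] at h5
    rcases hdiff with h6 | h6
    · exact h6 h
    · exact h6 h5
  have key2 : g v u ≠ g' v u := by
    intro h
    have h5 := hg'.cons v u hne.symm hy'
    rw [← h, e2] at h5
    rcases hdiff with h6 | h6
    · exact h6 h5
    · exact h6 h
  have hw1 : om g θ u v = none := by
    by_contra h
    obtain ⟨x, hxx⟩ := Option.ne_none_iff_exists'.1 h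
    have h5 := om_eq_some.1 hxx
    rw [h2] at hxx
    have h6 := om_eq_some.1 hxx
    exact key1 (h5.2.1.trans h6.2.1.symm)
  have hw2 : om g θ v u = none := by
    by_contra h
    obtain ⟨x, hxx⟩ := Option.ne_none_iff_exists'.1 h
    have h5 := om_eq_some.1 hxx
    rw [h2] at hxx
    have h6 := om_eq_some.1 hxx
    exact key2 (h5.2.1.trans h6.2.1.symm)
  have hlight : (u, v) ∈ lightP g θ := by
    by_contra h
    have h5 : (u, v) ∈ restP g θ := by
      rw [mem_restP, mem_wastedP]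
      refine ⟨huv, ?_, ?_, h⟩
      · rw [hused]; exact hu
      · rintro ⟨_, h6 | h6⟩
        · exact h6 hw1
        · exact h6 hw2
    exact key1 (h4 _ h5).1
  rw [not_disjoint_iff]
  refine ⟨((u, v), (g u v, g v u)), ?_, ?_⟩
  · rw [OpenT, mem_image]
    exact ⟨(u, v), hlight, rfl⟩
  · rw [mem_sdiff]
    constructor
    · simp only [CandT, mem_filter, mem_univ, true_and]
      have hl := mem_lightP.1 hlight
      refine ⟨h3 ▸ hlight, hl.2.2.2.2.1, ?_, ho.1, ho.2.1, e2, e1⟩
      rw [← h2]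
      exact hl.2.2.2.2.2
    · rw [OpenT, mem_image]
      rintro ⟨p, _, hp⟩
      obtain ⟨hp1, hp2⟩ := Prod.mk.inj hp
      subst hp1
      exact key1 (Prod.mk.inj hp2).1.symm

/-- Conflict lemma. -/
theorem conflict {G : SimpleGraph V} {g g' : V → V → V} (hg : IsSys G g)
    (hg' : IsSys G g') {θ : ℝ}
    (h1 : usedP g = usedP g') (h2 : om g θ = om g' θ) (h3 : lightP g θ = lightP g' θ)
    (h4 : ∀ p ∈ restP g θ, g p.1 p.2 = g' p.1 p.2 ∧ g p.2 p.1 = g' p.2 p.1)
    (hne : g ≠ g') :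
    ¬ Disjoint (OpenT g θ) (CandT g' θ \ OpenT g' θ) ∨
    ¬ Disjoint (OpenT g' θ) (CandT g θ \ OpenT g θ) := by
  obtain ⟨d, hd⟩ := hg.len
  obtain ⟨d', hd'⟩ := hg'.len
  have hrest : restP g θ = restP g' θ := by
    unfold restP; rw [h1, h2, h3]
  set D : Finset (V × V) := (prs V).filter (fun p => g p.1 p.2 ≠ g' p.1 p.2 ∨
    g p.2 p.1 ≠ g' p.2 p.1) with hD
  have hDne : D.Nonempty := by
    by_contra hemp
    rw [not_nonempty_iff_eq_empty] at hemp
    apply hne
    funext u v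
    rcases lt_trichotomy u v with h | h | h
    · by_contra h5
      have : (u, v) ∈ D := by
        rw [hD, mem_filter, mem_prs]; exact ⟨h, Or.inl h5⟩
      rw [hemp] at this
      simp at this
    · subst h
      rw [hg.self, hg'.self]
    · by_contra h5
      have : (v, u) ∈ D := by
        rw [hD, mem_filter, mem_prs]; exact ⟨h, Or.inr h5⟩
      rw [hemp] at this
      simp at this
  obtain ⟨p, hpD, hpmin⟩ := exists_min_image D
    (fun p => min (d p.1 p.2) (d' p.1 p.2)) hDne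
  rw [hD, mem_filter, mem_prs] at hpD
  obtain ⟨hlt, hdiff⟩ := hpD
  have hagree : ∀ a b, min (d a b) (d' a b) < min (d p.1 p.2) (d' p.1 p.2) →
      g a b = g' a b := by
    intro a b hab
    by_contra h5
    rcases lt_trichotomy a b with h | h | h
    · have hm : (a, b) ∈ D := by
        rw [hD, mem_filter, mem_prs]; exact ⟨h, Or.inl h5⟩
      have := hpmin _ hm
      simp only at this
      omega
    · subst h
      exact h5 ((hg.self a).trans (hg'.self a).symm)
    · have hm : (b, a) ∈ D := by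
        rw [hD, mem_filter, mem_prs]; exact ⟨h, Or.inr h5⟩
      have := hpmin _ hm
      simp only at this
      rw [hd.1 b a, hd'.1 b a] at this
      omega
  rcases le_total (d p.1 p.2) (d' p.1 p.2) with hle | hle
  · left
    refine conflict_aux hg hg' hd h1 h2 h3 h4 hlt hdiff ?_
    intro a b hab
    apply hagree
    have : min (d a b) (d' a b) ≤ d a b := min_le_left _ _
    omega
  · right
    refine conflict_aux hg' hg hd' h1.symm h2.symm h3.symm ?_ hlt ?_ ?_
    · intro q hq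
      rw [← hrest] at hq
      exact ⟨(h4 q hq).1.symm, (h4 q hq).2.symm⟩
    · rcases hdiff with h | h
      · exact Or.inl (Ne.symm h)
      · exact Or.inr (Ne.symm h)
    · intro a b hab
      refine (hagree a b ?_).symm
      have : min (d a b) (d' a b) ≤ d' a b := min_le_right _ _
      omega

end

end CEB
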