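import Mathlib
import Pool.Agent.Work.MP_ceb7a8_co.Enc

/-!
The sum of the numbers of options over the rest pairs (note 2443, (3.2)).
-/

open Finset

namespace CEB

noncomputable section

set_option linter.unusedSectionVars false
set_option linter.unusedSimpArgs false

open scoped Classical

variable {V : Type*} [Fintype V] [LinearOrder V]

/-- Number of used edges at z. -/
def dH (g : V → V → V) (z : V) : ℕ := (univ.filter (fun u => Used g u z)).card

/-- Number of labelled incidences towards y. -/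
def wO (ω : V → V → Option V) (y : V) : ℕ := (univ.filter (fun u => ω u y ≠ none)).card

/-- Size of the labelled class. -/
def cO (ω : V → V → Option V) (y x : V) : ℕ := (univ.filter (fun u => ω u y = some x)).card

/-- Splitting an ordered double sum over pairs u < v. -/
theorem sum_ordered (F : V → V → ℝ) :
    ∑ u, ∑ v, F u v = ∑ p ∈ prs V, (F p.1 p.2 + F p.2 p.1) + ∑ u, F u u := by
  have h0 : ∑ u, ∑ v, F u v = ∑ p : V × V, F p.1 p.2 := by
    rw [Fintype.sum_prod_type]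
  have h1 : (univ : Finset (V × V)) =
      (prs V ∪ (univ.filter (fun p : V × V => p.2 < p.1))) ∪
        univ.filter (fun p : V × V => p.1 = p.2) := by
    ext p
    simp only [mem_univ, mem_union, mem_prs, mem_filter, true_and, true_iff]
    rcases lt_trichotomy p.1 p.2 with h | h | h
    · exact Or.inl (Or.inl h)
    · exact Or.inr h
    · exact Or.inl (Or.inr h)
  rw [h0, h1, sum_union, sum_union]
  · have h2 : ∑ p ∈ univ.filter (fun p : V × V => p.2 < p.1), F p.1 p.2 =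
        ∑ p ∈ prs V, F p.2 p.1 := by
      refine sum_bij' (fun p _ => (p.2, p.1)) (fun p _ => (p.2, p.1)) ?_ ?_ ?_ ?_ ?_
      · intro p hp; rw [mem_prs]; simpa using hp
      · intro p hp; rw [mem_prs] at hp; simpa using hp
      · intro p _; rfl
      · intro p _; rfl
      · intro p _; rfl
    have h3 : ∑ p ∈ univ.filter (fun p : V × V => p.1 = p.2), F p.1 p.2 = ∑ u, F u u := by
      refine sum_bij' (fun p _ => p.1) (fun u _ => (u, u)) ?_ ?_ ?_ ?_ ?_
      · intro p _; exact mem_univ _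
      · intro u _; simp
      · intro p hp
        have : p.1 = p.2 := by simpa using hp
        ext
        · rfl
        · exact this
      · intro u _; rfl
      · intro p hp
        have : p.1 = p.2 := by simpa using hp
        rw [← this]
    rw [h2, h3, sum_add_distrib]
  · rw [disjoint_left]
    intro p hp1 hp2
    rw [mem_prs] at hp1
    have : p.2 < p.1 := by simpa using hp2
    exact lt_asymm hp1 this
  · rw [disjoint_left]
    intro p hp1 hp2
    have h : p.1 = p.2 := by simpa using hp2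
    rw [mem_union, mem_prs] at hp1
    rcases hp1 with h1 | h1
    · exact absurd h h1.ne
    · have : p.2 < p.1 := by simpa using h1
      exact absurd h.symm this.ne

theorem two_sum_prs_le (F : V → V → ℝ) (hs : ∀ u v, F u v = F v u) (h0 : ∀ u, 0 ≤ F u u) :
    2 * ∑ p ∈ prs V, F p.1 p.2 ≤ ∑ u, ∑ v, F u v := by
  rw [sum_ordered]
  have h1 : ∑ p ∈ prs V, (F p.1 p.2 + F p.2 p.1) = 2 * ∑ p ∈ prs V, F p.1 p.2 := by
    rw [mul_sum]
    refine sum_congr rfl fun p _ => ?_
    rw [hs p.2 p.1]; ring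
  rw [h1]
  have h2 : 0 ≤ ∑ u, F u u := sum_nonneg fun u _ => h0 u
  linarith

theorem card_filter_eq_sum {α : Type*} (s : Finset α) (P : α → Prop) [DecidablePred P] :
    ((s.filter P).card : ℝ) = ∑ a ∈ s, if P a then (1 : ℝ) else 0 := by
  rw [card_filter]; push_cast; rfl

theorem sum_ind_mul (T : Finset V) (f : V → ℝ) :
    ∑ z, (if z ∈ T then (1 : ℝ) else 0) * f z = ∑ z ∈ T, f z := by
  simp [ite_mul, sum_ite_mem]

/-- Weighted degree sum as a sum over used pairs. -/
theorem sum_dH {G : SimpleGraph V} {g : V → V → V} (hg : IsSys G g) (f : V → ℝ) :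
    ∑ z, f z * (dH g z : ℝ) = ∑ p ∈ usedP g, (f p.1 + f p.2) := by
  have h1 : ∑ z, f z * (dH g z : ℝ) = ∑ u, ∑ z, (if Used g u z then f z else 0) := by
    rw [sum_comm]
    refine sum_congr rfl fun z _ => ?_
    unfold dH
    rw [card_filter_eq_sum, mul_sum]
    refine sum_congr rfl fun u _ => ?_
    split_ifs <;> simp
  rw [h1, sum_ordered]
  have h2 : ∑ u, (if Used g u u then f u else 0) = 0 := by
    refine sum_eq_zero fun u _ => ?_
    rw [if_neg (fun h => h.1 rfl)]
  rw [h2, add_zero]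
  unfold usedP
  rw [sum_filter]
  refine sum_congr rfl fun p _ => ?_
  by_cases h : Used g p.1 p.2
  · rw [if_pos h, if_pos (hg.used_symm h), if_pos h]; ring
  · rw [if_neg h, if_neg (fun h' => h (hg.used_symm h')), if_neg h]; ring

/-- Weighted label sum as a sum over wasted pairs (upper bound). -/
theorem sum_wO (ω : V → V → Option V) (hω : ∀ u, ω u u = none) (f : V → ℝ)
    (hf : ∀ z, 0 ≤ f z) :
    ∑ y, f y * (wO ω y : ℝ) ≤ ∑ p ∈ wastedP ω, (f p.1 + f p.2) := by
  have h1 : ∑ y, f y * (wO ω y : ℝ) = ∑ u, ∑ y, (if ω u y ≠ none then f y else 0) := by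
    rw [sum_comm]
    refine sum_congr rfl fun z _ => ?_
    unfold wO
    rw [card_filter_eq_sum, mul_sum]
    refine sum_congr rfl fun u _ => ?_
    split_ifs <;> simp
  rw [h1, sum_ordered]
  have h2 : ∑ u, (if ω u u ≠ none then f u else 0) = 0 := by
    refine sum_eq_zero fun u _ => ?_
    rw [if_neg (by rw [hω u]; simp)]
  rw [h2, add_zero]
  unfold wastedP
  rw [sum_filter]
  refine sum_le_sum fun p _ => ?_
  have := hf p.1
  have := hf p.2
  by_cases ha : ω p.1 p.2 = none <;> by_cases hb : ω p.2 p.1 = none <;>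
    simp [ha, hb] <;> linarith

theorem sum_dH_all {G : SimpleGraph V} {g : V → V → V} (hg : IsSys G g) :
    ∑ z, (dH g z : ℝ) = 2 * ((usedP g).card : ℝ) := by
  have h := sum_dH hg (fun _ => (1 : ℝ))
  simp only [one_mul] at h
  rw [h, sum_const, nsmul_eq_mul]
  ring

theorem sum_wO_all (ω : V → V → Option V) : ∑ y, (wO ω y : ℝ) = (Kw ω : ℝ) := by
  unfold wO Kw
  rw [card_filter_eq_sum, Fintype.sum_prod_type_right]
  refine sum_congr rfl fun y _ => ?_
  rw [card_filter_eq_sum]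

theorem Kw_le (ω : V → V → Option V) (hω : ∀ u, ω u u = none) :
    (Kw ω : ℝ) ≤ 2 * ((wastedP ω).card : ℝ) := by
  have h := sum_wO ω hω (fun _ => (1 : ℝ)) (fun _ => zero_le_one)
  simp only [one_mul] at h
  rw [sum_wO_all, sum_const, nsmul_eq_mul] at h
  linarith

/-- Degree sum over a set T containing W: edges meeting W. -/
theorem sum_dH_W {G : SimpleGraph V} {g : V → V → V} (hg : IsSys G g) (W : Finset V) :
    ∑ z ∈ W, (dH g z : ℝ) ≤
      (((usedP g).filter (fun p => p.1 ∈ W ∨ p.2 ∈ W)).card : ℝ) + (W.card : ℝ) ^ 2 := by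
  have h := sum_dH hg (fun z => if z ∈ W then (1 : ℝ) else 0)
  have h1 : ∑ z, (if z ∈ W then (1 : ℝ) else 0) * (dH g z : ℝ) = ∑ z ∈ W, (dH g z : ℝ) := by
    exact sum_ind_mul _ _
  rw [← h1, h]
  have h2 : ∑ p ∈ usedP g, ((if p.1 ∈ W then (1 : ℝ) else 0) + (if p.2 ∈ W then (1 : ℝ) else 0))
      ≤ ∑ p ∈ usedP g, ((if p.1 ∈ W ∨ p.2 ∈ W then (1 : ℝ) else 0) +
          (if p ∈ W ×ˢ W then (1 : ℝ) else 0)) := by
    refine sum_le_sum fun p _ => ?_
    by_cases ha : p.1 ∈ W <;> by_cases hb : p.2 ∈ W <;> simp [ha, hb, mem_product]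
  refine h2.trans ?_
  rw [sum_add_distrib, card_filter_eq_sum]
  have h3 : ∑ p ∈ usedP g, (if p ∈ W ×ˢ W then (1 : ℝ) else 0) ≤ (W.card : ℝ) ^ 2 := by
    rw [← card_filter_eq_sum]
    have h4 : ((usedP g).filter (fun p => p ∈ W ×ˢ W)).card ≤ (W ×ˢ W).card :=
      card_le_card (by intro p hp; exact (mem_filter.1 hp).2)
    have h5 : (((usedP g).filter (fun p => p ∈ W ×ˢ W)).card : ℝ) ≤ ((W ×ˢ W).card : ℝ) := by
      exact_mod_cast h4
    rw [card_product] at h5
    push_cast at h5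
    nlinarith
  linarith

/-- Degree sum over Y - W. -/
theorem sum_dH_YW {G : SimpleGraph V} {g : V → V → V} (hg : IsSys G g) (W Y : Finset V)
    (hWY : W ⊆ Y) :
    ∑ z ∈ Y \ W, (dH g z : ℝ) ≤
      (((usedP g).filter (fun p => ¬ (p.1 ∈ W ∨ p.2 ∈ W))).card : ℝ) + (Y.card : ℝ) ^ 2 := by
  have h := sum_dH hg (fun z => if z ∈ Y \ W then (1 : ℝ) else 0)
  have h1 : ∑ z, (if z ∈ Y \ W then (1 : ℝ) else 0) * (dH g z : ℝ) =
      ∑ z ∈ Y \ W, (dH g z : ℝ) := sum_ind_mul _ _
  rw [← h1, h]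
  have h2 : ∑ p ∈ usedP g, ((if p.1 ∈ Y \ W then (1 : ℝ) else 0) +
        (if p.2 ∈ Y \ W then (1 : ℝ) else 0))
      ≤ ∑ p ∈ usedP g, ((if ¬ (p.1 ∈ W ∨ p.2 ∈ W) then (1 : ℝ) else 0) +
          (if p ∈ Y ×ˢ Y then (1 : ℝ) else 0)) := by
    refine sum_le_sum fun p _ => ?_
    by_cases ha : p.1 ∈ W <;> by_cases hb : p.2 ∈ W <;>
      by_cases hc : p.1 ∈ Y <;> by_cases hd : p.2 ∈ Y <;>
      first
      | exact absurd (hWY ha) hc
      | exact absurd (hWY hb) hd
      | simp [ha, hb, hc, hd, mem_product]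
  refine h2.trans ?_
  rw [sum_add_distrib, card_filter_eq_sum]
  have h3 : ∑ p ∈ usedP g, (if p ∈ Y ×ˢ Y then (1 : ℝ) else 0) ≤ (Y.card : ℝ) ^ 2 := by
    rw [← card_filter_eq_sum]
    have h4 : ((usedP g).filter (fun p => p ∈ Y ×ˢ Y)).card ≤ (Y ×ˢ Y).card :=
      card_le_card (by intro p hp; exact (mem_filter.1 hp).2)
    have h5 : (((usedP g).filter (fun p => p ∈ Y ×ˢ Y)).card : ℝ) ≤ ((Y ×ˢ Y).card : ℝ) := by
      exact_mod_cast h4
    rw [card_product] at h5
    push_cast at h5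
    nlinarith
  linarith

/-- Label sum over Y. -/
theorem sum_wO_Y (ω : V → V → Option V) (hω : ∀ u, ω u u = none) (Y : Finset V) :
    ∑ y ∈ Y, (wO ω y : ℝ) ≤ ((wastedP ω).card : ℝ) + (Y.card : ℝ) ^ 2 := by
  have h := sum_wO ω hω (fun z => if z ∈ Y then (1 : ℝ) else 0) (fun z => by split_ifs <;> simp)
  have h1 : ∑ z, (if z ∈ Y then (1 : ℝ) else 0) * (wO ω z : ℝ) =
      ∑ z ∈ Y, (wO ω z : ℝ) := by
    simp [ite_mul, sum_ite_mem]
  rw [← h1]
  refine h.trans ?_
  have h2 : ∑ p ∈ wastedP ω, ((if p.1 ∈ Y then (1 : ℝ) else 0) +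
        (if p.2 ∈ Y then (1 : ℝ) else 0))
      ≤ ∑ p ∈ wastedP ω, ((1 : ℝ) + (if p ∈ Y ×ˢ Y then (1 : ℝ) else 0)) := by
    refine sum_le_sum fun p _ => ?_
    by_cases hc : p.1 ∈ Y <;> by_cases hd : p.2 ∈ Y <;> simp [hc, hd, mem_product]
  refine h2.trans ?_
  rw [sum_add_distrib, sum_const, nsmul_eq_mul, mul_one]
  have h3 : ∑ p ∈ wastedP ω, (if p ∈ Y ×ˢ Y then (1 : ℝ) else 0) ≤ (Y.card : ℝ) ^ 2 := by
    rw [← card_filter_eq_sum]
    have h4 : ((wastedP ω).filter (fun p => p ∈ Y ×ˢ Y)).card ≤ (Y ×ˢ Y).card :=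
      card_le_card (by intro p hp; exact (mem_filter.1 hp).2)
    have h5 : (((wastedP ω).filter (fun p => p ∈ Y ×ˢ Y)).card : ℝ) ≤ ((Y ×ˢ Y).card : ℝ) := by
      exact_mod_cast h4
    rw [card_product] at h5
    push_cast at h5
    nlinarith
  linarith

/-- Hs of the used pairs is the used relation. -/
theorem hs_usedP {G : SimpleGraph V} {g : V → V → V} (hg : IsSys G g) (u x : V) :
    Hs (usedP g) u x ↔ Used g u x := by
  unfold Hs
  rw [mem_usedP, mem_usedP]
  constructor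
  · rintro (⟨_, h⟩ | ⟨_, h⟩)
    · exact h
    · exact hg.used_symm h
  · intro h
    rcases lt_or_gt_of_ne h.1 with h1 | h1
    · exact Or.inl ⟨h1, h⟩
    · exact Or.inr ⟨h1, hg.used_symm h⟩

theorem kk_symm (HP : Finset (V × V)) (u v : V) : kk HP u v = kk HP v u := by
  unfold kk
  congr 1
  ext z
  simp [and_comm]

theorem tt_symm (ω : V → V → Option V) (u v : V) : tt ω u v = tt ω v u := by
  unfold tt
  refine card_bij' (fun o _ => (o.2, o.1)) (fun o _ => (o.2, o.1)) ?_ ?_ ?_ ?_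
  · intro o ho
    simp only [mem_filter, mem_univ, true_and] at ho ⊢
    exact ⟨ho.2, ho.1⟩
  · intro o ho
    simp only [mem_filter, mem_univ, true_and] at ho ⊢
    exact ⟨ho.2, ho.1⟩
  · intro o _; rfl
  · intro o _; rfl

theorem sum_kk {G : SimpleGraph V} {g : V → V → V} (hg : IsSys G g) :
    ∑ u, ∑ v, (kk (usedP g) u v : ℝ) = ∑ z, (dH g z : ℝ) ^ 2 := by
  have h1 : ∀ u v, (kk (usedP g) u v : ℝ) =
      ∑ z, (if Used g u z then (1 : ℝ) else 0) * (if Used g v z then (1 : ℝ) else 0) := by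
    intro u v
    unfold kk
    rw [card_filter_eq_sum]
    refine sum_congr rfl fun z _ => ?_
    rw [hs_usedP hg, hs_usedP hg]
    by_cases ha : Used g u z <;> by_cases hb : Used g v z <;> simp [ha, hb]
  simp only [h1]
  have h2 : ∀ z, (dH g z : ℝ) ^ 2 = ∑ u, ∑ v, (if Used g u z then (1 : ℝ) else 0) *
      (if Used g v z then (1 : ℝ) else 0) := by
    intro z
    unfold dH
    rw [card_filter_eq_sum, sq, sum_mul_sum]
  simp only [h2]
  rw [sum_comm' (s := univ) (t := fun _ => univ) (s' := fun _ => univ) (t' := univ) (by simp)]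
  rw [sum_congr rfl (fun v _ => sum_comm)]
  rw [sum_comm]
  refine sum_congr rfl fun z _ => ?_
  rw [sum_comm]

theorem sum_tt (ω : V → V → Option V) :
    ∑ u, ∑ v, (tt ω u v : ℝ) = ∑ x, ∑ y, (cO ω y x : ℝ) * (cO ω x y : ℝ) := by
  have h1 : ∀ u v, (tt ω u v : ℝ) =
      ∑ o : V × V, (if ω u o.2 = some o.1 then (1 : ℝ) else 0) *
        (if ω v o.1 = some o.2 then (1 : ℝ) else 0) := by
    intro u v
    unfold tt
    rw [card_filter_eq_sum]
    refine sum_congr rfl fun o _ => ?_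
    by_cases ha : ω u o.2 = some o.1 <;> by_cases hb : ω v o.1 = some o.2 <;> simp [ha, hb]
  have h2 : ∀ o : V × V, (cO ω o.2 o.1 : ℝ) * (cO ω o.1 o.2 : ℝ) =
      ∑ u, ∑ v, (if ω u o.2 = some o.1 then (1 : ℝ) else 0) *
      (if ω v o.1 = some o.2 then (1 : ℝ) else 0) := by
    intro o
    unfold cO
    rw [card_filter_eq_sum, card_filter_eq_sum, sum_mul_sum]
  have h3 : ∑ x, ∑ y, (cO ω y x : ℝ) * (cO ω x y : ℝ) =
      ∑ o : V × V, (cO ω o.2 o.1 : ℝ) * (cO ω o.1 o.2 : ℝ) := by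
    rw [Fintype.sum_prod_type]
  rw [h3]
  simp only [h1, h2]
  rw [sum_congr rfl (fun u _ => sum_comm)]
  rw [sum_comm]

end

end CEB
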