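import Pool.Agent.Work.MP_ceb7a8_co.Pure
import Pool.Agent.Work.MP_ceb7a8_co.FirstSum

/-!
Lower bound for the number of consistent path systems of a quasi-random graph.
-/

namespace CEB

open Finset
open Pool.Agent.Work.MP_ceb7a8_co (DiscK eST dgr codgr card_low card_codgr codgr_eq)

noncomputable section

open scoped Classical

/-! ### codegrees into a set -/

section codeg

variable {V : Type*} [Fintype V]

theorem codgr_univ (G : SimpleGraph V) (u v : V) :
    codgr G u v univ = (gn G u ∩ gn G v).card := by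
  unfold codgr gn
  congr 1
  ext w
  simp

theorem dgr_univ (G : SimpleGraph V) (u : V) : dgr G u univ = (gn G u).card := rfl

/-- few pairs have few common neighbours in W -/
theorem card_codeg_low {G : SimpleGraph V} (hG : QR G) {W : Finset V} (hW : W.Nonempty) {e : ℝ}
    (he : 0 < e) (he' : e ≤ 1 / 10) :
    (((univ : Finset (V × V)).filter fun q =>
      (codgr G q.1 q.2 W : ℝ) < (1 / 4 - e) * W.card).card : ℝ) ≤
      64 * nn V ^ 2 / (e ^ 2 * W.card) := by
  have hd := hG.disc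
  have hw : (0 : ℝ) < W.card := by exact_mod_cast card_pos.2 hW
  set B1 : Finset V := univ.filter fun u : V => (dgr G u W : ℝ) ≤ (1 / 2 - e) * W.card with hB1
  have h1 : (B1.card : ℝ) ≤ 4 ^ 2 * Fintype.card V / (e ^ 2 * W.card) := card_low hd hW he
  have hn : (0 : ℝ) ≤ nn V := Nat.cast_nonneg _
  have hnn : (Fintype.card V : ℝ) = nn V := rfl
  rw [hnn] at h1
  -- the second coordinates
  set B2 : V → Finset V := fun u => univ.filter fun v : V =>
    (dgr G v (W.filter fun w => G.Adj u w) : ℝ) ≤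
      (1 / 2 - e) * ((W.filter fun w => G.Adj u w).card : ℝ) with hB2
  have h2 : ∀ u, u ∉ B1 → ((B2 u).card : ℝ) ≤ 48 * nn V / (e ^ 2 * W.card) := by
    intro u hu
    have h3 : (1 / 2 - e) * W.card < (dgr G u W : ℝ) := by
      by_contra h4
      exact hu (mem_filter.2 ⟨mem_univ _, not_lt.1 h4⟩)
    have h4 : (dgr G u W : ℝ) = ((W.filter fun w => G.Adj u w).card : ℝ) := rfl
    rw [h4] at h3
    have h5 : (W.card : ℝ) / 3 ≤ ((W.filter fun w => G.Adj u w).card : ℝ) := by
      have : (1 / 3 : ℝ) * W.card ≤ (1 / 2 - e) * W.card :=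
        mul_le_mul_of_nonneg_right (by linarith) hw.le
      linarith
    have hne : (W.filter fun w => G.Adj u w).Nonempty := by
      rw [← card_pos]
      have : (0 : ℝ) < ((W.filter fun w => G.Adj u w).card : ℝ) := by
        have : 0 < (W.card : ℝ) / 3 := by positivity
        linarith
      exact_mod_cast this
    have h6 := card_low hd hne he
    rw [hnn] at h6
    refine h6.trans ?_
    rw [div_le_div_iff₀ (by positivity) (by positivity)]
    have h7 : e ^ 2 * W.card * (1 / 3) ≤ e ^ 2 * ((W.filter fun w => G.Adj u w).card : ℝ) := by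
      have := mul_le_mul_of_nonneg_left h5 (sq_nonneg e)
      linarith
    have h8 := mul_le_mul_of_nonneg_left h7 (show 0 ≤ 48 * nn V by positivity)
    linarith
  have hsub : ((univ : Finset (V × V)).filter fun q =>
      (codgr G q.1 q.2 W : ℝ) < (1 / 4 - e) * W.card) ⊆
      (B1 ×ˢ univ) ∪ (B1ᶜ).biUnion fun u => ({u} : Finset V) ×ˢ B2 u := by
    rintro ⟨u, v⟩ hq
    have hq' : (codgr G u v W : ℝ) < (1 / 4 - e) * W.card := (mem_filter.1 hq).2
    rw [mem_union]
    by_cases hu : u ∈ B1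
    · left
      exact mem_product.2 ⟨hu, mem_univ _⟩
    · right
      rw [mem_biUnion]
      refine ⟨u, mem_compl.2 hu, mem_product.2 ⟨mem_singleton_self _, ?_⟩⟩
      refine mem_filter.2 ⟨mem_univ _, ?_⟩
      show (dgr G v (W.filter fun w => G.Adj u w) : ℝ) ≤
        (1 / 2 - e) * ((W.filter fun w => G.Adj u w).card : ℝ)
      by_contra h3
      rw [not_le] at h3
      have h4 : (dgr G v (W.filter fun w => G.Adj u w) : ℝ) = (codgr G u v W : ℝ) := by
        rw [codgr_eq]
      rw [h4] at h3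
      have h5 : (1 / 2 - e) * W.card < (dgr G u W : ℝ) := by
        by_contra h4
        exact hu (mem_filter.2 ⟨mem_univ _, not_lt.1 h4⟩)
      have h6 : (dgr G u W : ℝ) = ((W.filter fun w => G.Adj u w).card : ℝ) := rfl
      rw [h6] at h5
      have h7 : (1 / 2 - e) * ((1 / 2 - e) * W.card) ≤
          (1 / 2 - e) * ((W.filter fun w => G.Adj u w).card : ℝ) :=
        mul_le_mul_of_nonneg_left h5.le (by linarith)
      have h8 : (1 / 4 - e) * W.card ≤ (1 / 2 - e) * ((1 / 2 - e) * W.card) := by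
        have : (1 / 4 - e) ≤ (1 / 2 - e) * (1 / 2 - e) := by nlinarith [sq_nonneg e]
        have := mul_le_mul_of_nonneg_right this hw.le
        linarith
      linarith
  have h3 : (((B1 ×ˢ (univ : Finset V)) ∪
      (B1ᶜ).biUnion fun u => ({u} : Finset V) ×ˢ B2 u).card : ℝ) ≤
      B1.card * nn V + ∑ u ∈ B1ᶜ, ((B2 u).card : ℝ) := by
    have h4 := (card_union_le (B1 ×ˢ (univ : Finset V))
      ((B1ᶜ).biUnion fun u => ({u} : Finset V) ×ˢ B2 u))
    have h5 : ((B1ᶜ).biUnion fun u => ({u} : Finset V) ×ˢ B2 u).card ≤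
        ∑ u ∈ B1ᶜ, (B2 u).card := by
      refine card_biUnion_le.trans (le_of_eq ?_)
      refine sum_congr rfl fun u _ => ?_
      rw [card_product, card_singleton, one_mul]
    have h6 : (B1 ×ˢ (univ : Finset V)).card = B1.card * Fintype.card V := by
      rw [card_product, card_univ]
    rw [h6] at h4
    have h7 := h4.trans (Nat.add_le_add_left h5 _)
    have h8 : (((B1 ×ˢ (univ : Finset V)) ∪
      (B1ᶜ).biUnion fun u => ({u} : Finset V) ×ˢ B2 u).card : ℝ) ≤
      ((B1.card * Fintype.card V + ∑ u ∈ B1ᶜ, (B2 u).card : ℕ) : ℝ) := by exact_mod_cast h7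
    push_cast at h8
    exact h8
  have h4 : ∑ u ∈ B1ᶜ, ((B2 u).card : ℝ) ≤ nn V * (48 * nn V / (e ^ 2 * W.card)) := by
    calc ∑ u ∈ B1ᶜ, ((B2 u).card : ℝ) ≤ ∑ u ∈ B1ᶜ, 48 * nn V / (e ^ 2 * W.card) :=
          sum_le_sum fun u hu => h2 u (mem_compl.1 hu)
      _ = (B1ᶜ.card : ℝ) * (48 * nn V / (e ^ 2 * W.card)) := by rw [sum_const, nsmul_eq_mul]
      _ ≤ nn V * (48 * nn V / (e ^ 2 * W.card)) := by
          refine mul_le_mul_of_nonneg_right ?_ (by positivity)
          have h9 : (B1ᶜ).card ≤ Fintype.card V := card_le_univ _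
          show ((B1ᶜ).card : ℝ) ≤ (Fintype.card V : ℝ)
          exact_mod_cast h9
  have h5 : (B1.card : ℝ) * nn V ≤ 4 ^ 2 * nn V / (e ^ 2 * W.card) * nn V :=
    mul_le_mul_of_nonneg_right h1 hn
  have h6 := card_le_card hsub
  have h7 : (((univ : Finset (V × V)).filter fun q =>
      (codgr G q.1 q.2 W : ℝ) < (1 / 4 - e) * W.card).card : ℝ) ≤
      (((B1 ×ˢ (univ : Finset V)) ∪
      (B1ᶜ).biUnion fun u => ({u} : Finset V) ×ˢ B2 u).card : ℝ) := by exact_mod_cast h6
  have h8 : 4 ^ 2 * nn V / (e ^ 2 * W.card) * nn V + nn V * (48 * nn V / (e ^ 2 * W.card)) =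
      64 * nn V ^ 2 / (e ^ 2 * W.card) := by
    field_simp
    ring
  linarith

end codeg

section count

variable {V : Type*} [Fintype V] [LinearOrder V]

theorem card_prs : 2 * ((prs V).card : ℝ) + nn V = nn V ^ 2 := by
  have h := sum_ordered (V := V) (fun _ _ => 1)
  simp only [sum_const, card_univ, nsmul_eq_mul, mul_one] at h
  have h1 : (Fintype.card V : ℝ) = nn V := rfl
  rw [h1] at h
  nlinarith

/-- number of edges that meet Z -/
theorem card_inE_le {G : SimpleGraph V} (hG : QR G) (Z : Finset V) :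
    (((prs V).filter fun q => InE G Z q.1 q.2).card : ℝ) ≤
      Z.card * ((1 / 2 + eta) * nn V) := by
  have hsub : ((prs V).filter fun q => InE G Z q.1 q.2) ⊆
      Z.biUnion fun z => (gn G z).image fun v => if z < v then (z, v) else (v, z) := by
    rintro ⟨u, v⟩ hq
    rw [mem_filter, mem_prs] at hq
    obtain ⟨hlt, hadj, hZ⟩ := hq
    simp only at hlt hadj hZ
    rw [mem_biUnion]
    rcases hZ with h | h
    · refine ⟨u, h, mem_image.2 ⟨v, ?_, ?_⟩⟩
      · simpa [gn] using hadj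
      · rw [if_pos hlt]
    · refine ⟨v, h, mem_image.2 ⟨u, ?_, ?_⟩⟩
      · simpa [gn] using hadj.symm
      · rw [if_neg (not_lt.2 hlt.le)]
  have h1 := (card_le_card hsub).trans card_biUnion_le
  have h2 : ∑ z ∈ Z, ((gn G z).image fun v => if z < v then (z, v) else (v, z)).card ≤
      ∑ z ∈ Z, (gn G z).card := sum_le_sum fun z _ => card_image_le
  have h3 : (((prs V).filter fun q => InE G Z q.1 q.2).card : ℝ) ≤
      ((∑ z ∈ Z, (gn G z).card : ℕ) : ℝ) := by exact_mod_cast h1.trans h2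
  refine h3.trans ?_
  push_cast
  calc ∑ z ∈ Z, ((gn G z).card : ℝ) ≤ ∑ z ∈ Z, ((1 / 2 + eta) * nn V) := by
        refine sum_le_sum fun z _ => ?_
        have := (abs_le.1 (hG.q2 z)).2
        linarith
    _ = Z.card * ((1 / 2 + eta) * nn V) := by rw [sum_const, nsmul_eq_mul]

theorem card_NE_ge {G : SimpleGraph V} (hG : QR G) (Z : Finset V) :
    (nn V ^ 2 - nn V) / 2 - Z.card * ((1 / 2 + eta) * nn V) ≤ ((NE G Z).card : ℝ) := by
  have h1 := card_inE_le hG Z
  have h2 := card_prs (V := V)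
  have h3 : ((prs V).filter fun q => InE G Z q.1 q.2).card + (NE G Z).card = (prs V).card := by
    unfold NE
    exact card_filter_add_card_filter_not _
  have h4 : (((prs V).filter fun q => InE G Z q.1 q.2).card : ℝ) + ((NE G Z).card : ℝ) =
      ((prs V).card : ℝ) := by exact_mod_cast h3
  linarith

omit [LinearOrder V] in
theorem codgr_le_KZ (G : SimpleGraph V) {W Z : Finset V} (hWZ : W ⊆ Z) (u v : V) :
    codgr G u v W ≤ KZ G Z u v := by
  unfold codgr KZ KS
  refine card_le_card ?_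
  intro z hz
  rw [mem_filter] at hz
  rw [mem_filter]
  exact ⟨mem_univ _, ⟨hz.2.1, Or.inr (hWZ hz.1)⟩, ⟨hz.2.2.symm, Or.inl (hWZ hz.1)⟩⟩

/-! ### numerical facts for large n -/

omit [LinearOrder V] in
theorem big_facts (hn : Big (Fintype.card V)) :
    (10 : ℝ) ^ 100 ≤ LL V ∧ nn V = Real.exp (LL V) ∧ 0 < nn V ∧ 10 ^ 30 * LL V ^ 2 ≤ nn V := by
  have h1 : (10 : ℝ) ^ 100 ≤ LL V := hn
  have h0 : 0 < nn V := by
    rcases (Nat.cast_nonneg (Fintype.card V) : (0 : ℝ) ≤ _).lt_or_eq with h | h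
    · exact h
    · exfalso
      have h2 : LL V = 0 := by
        unfold LL nn
        rw [← h, Real.log_zero]
      rw [h2] at h1
      norm_num at h1
  have h2 : nn V = Real.exp (LL V) := (Real.exp_log h0).symm
  refine ⟨h1, h2, h0, ?_⟩
  have hL : 0 ≤ LL V := le_trans (by positivity) h1
  have h3 := Real.pow_div_factorial_le_exp (LL V) hL 3
  rw [← h2] at h3
  have h4 : (Nat.factorial 3 : ℝ) = 6 := by norm_num [Nat.factorial]
  rw [h4] at h3
  refine le_trans ?_ h3
  have h5 : (10 : ℝ) ^ 31 ≤ LL V := le_trans (by norm_num) h1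
  have h6 : (10 : ℝ) ^ 31 * LL V ^ 2 ≤ LL V * LL V ^ 2 :=
    mul_le_mul_of_nonneg_right h5 (sq_nonneg _)
  rw [le_div_iff₀ (by norm_num)]
  nlinarith [sq_nonneg (LL V)]

theorem dom_of_qr {G : SimpleGraph V} (hG : QR G) (hn : Big (Fintype.card V)) :
    ∃ R : Finset V, (R.card : ℝ) ≤ 20 * LL V ∧ ∀ u v, u ≠ v → ∃ z ∈ R, G.Adj u z ∧ G.Adj v z := by
  obtain ⟨hL, he, h0, h30⟩ := big_facts hn
  have h1 : 2 ≤ Fintype.card V := by
    have h2 : (2 : ℝ) ≤ nn V := by
      have : (1 : ℝ) ≤ LL V ^ 2 := by nlinarith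
      nlinarith
    have h3 : (2 : ℝ) ≤ (Fintype.card V : ℝ) := h2
    exact_mod_cast h3
  refine Pool.Agent.Work.MP_ceb7a8_co.domination h1 G ?_
  intro u v huv
  rw [codgr_univ]
  have h2 := (abs_le.1 (hG.q3 u v huv)).1
  have h3 : (Fintype.card V : ℝ) = nn V := rfl
  rw [h3]
  unfold eta at h2
  have h4 : (10 : ℝ) ^ 6 = 1000000 := by norm_num
  rw [h4] at h2
  linarith

theorem lower_bound {G : SimpleGraph V} (hG : QR G) (hn : Big (Fintype.card V)) :
    Real.exp (nn V ^ 2 / 2 * (LL V - Real.log (LL V) - Real.log 4 - 1 - 10 * eta)) ≤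
      ((PS G).card : ℝ) := by
  obtain ⟨hL, he, h0, h30⟩ := big_facts hn
  obtain ⟨R, hR, hdom⟩ := dom_of_qr hG hn
  have hη : (0 : ℝ) < eta := by unfold eta; norm_num
  have hη' : eta = 1 / 10 ^ 6 := rfl
  set n := nn V with hnn
  set L := LL V with hLL
  have hL1 : (1 : ℝ) ≤ L := le_trans (by norm_num) hL
  have hL0 : (0 : ℝ) < L := by linarith
  have hh0 : hh V = n / L := rfl
  have hh1 : 1 ≤ n / L := by
    rw [le_div_iff₀ hL0]
    nlinarith
  have hhn : n / L ≤ n := div_le_self h0.le hL1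
  -- the hub set
  obtain ⟨Z0, hZ0⟩ : ∃ Z0 : Finset V, Z0.card = ⌈n / L⌉₊ := by
    have h1 : ⌈n / L⌉₊ ≤ (univ : Finset V).card := by
      rw [Nat.ceil_le, card_univ]
      exact hhn
    obtain ⟨Z0, _, h2⟩ := exists_subset_card_eq h1
    exact ⟨Z0, h2⟩
  have hZ0l : n / L ≤ (Z0.card : ℝ) := by rw [hZ0]; exact Nat.le_ceil _
  have hZ0u : (Z0.card : ℝ) ≤ n / L + 1 := by
    rw [hZ0]; exact (Nat.ceil_lt_add_one (by positivity)).le
  set Z := Z0 ∪ R with hZ
  have hZc : (Z.card : ℝ) ≤ n / L + 1 + 20 * L := by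
    have h1 : Z.card ≤ Z0.card + R.card := card_union_le _ _
    have h2 : (Z.card : ℝ) ≤ (Z0.card : ℝ) + R.card := by exact_mod_cast h1
    linarith
  -- exceptional pairs
  set a : ℝ := (1 / 4 - eta) * (n / L) with ha
  have ha1 : 1 ≤ a := by
    rw [ha, hη']
    have h1 : (10 : ℝ) ≤ n / L := by
      rw [le_div_iff₀ hL0]
      nlinarith
    have h2 : (1 / 10 : ℝ) * (n / L) ≤ (1 / 4 - 1 / 10 ^ 6) * (n / L) :=
      mul_le_mul_of_nonneg_right (by norm_num) (by positivity)
    linarith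
  set Ex := (NE G Z).filter fun q => (KZ G Z q.1 q.2 : ℝ) < a with hEx
  have hExc : (Ex.card : ℝ) ≤ 64 * n * L / eta ^ 2 := by
    have hne : Z0.Nonempty := by
      rw [← card_pos]
      have : (0 : ℝ) < (Z0.card : ℝ) := by linarith
      exact_mod_cast this
    have h1 := card_codeg_low hG hne hη (by rw [hη']; norm_num)
    have h2 : Ex ⊆ (univ : Finset (V × V)).filter fun q =>
      (codgr G q.1 q.2 Z0 : ℝ) < (1 / 4 - eta) * Z0.card := by
      intro q hq
      have h3 := (mem_filter.1 hq).2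
      refine mem_filter.2 ⟨mem_univ _, ?_⟩
      have h4 : (codgr G q.1 q.2 Z0 : ℝ) ≤ (KZ G Z q.1 q.2 : ℝ) := by
        exact_mod_cast codgr_le_KZ G subset_union_left q.1 q.2
      have h5 : a ≤ (1 / 4 - eta) * Z0.card := by
        rw [ha]
        exact mul_le_mul_of_nonneg_left hZ0l (by rw [hη']; norm_num)
      linarith
    have h3 : (Ex.card : ℝ) ≤ (((univ : Finset (V × V)).filter fun q =>
      (codgr G q.1 q.2 Z0 : ℝ) < (1 / 4 - eta) * Z0.card).card : ℝ) := by
      exact_mod_cast card_le_card h2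
    refine h3.trans (h1.trans ?_)
    rw [div_le_div_iff₀ (by positivity) (by positivity)]
    have h4 : n ≤ Z0.card * L := by
      have := mul_le_mul_of_nonneg_right hZ0l hL0.le
      rwa [div_mul_cancel₀ _ hL0.ne'] at this
    have h5 := mul_le_mul_of_nonneg_left h4 (show 0 ≤ 64 * n * eta ^ 2 by positivity)
    nlinarith
  -- the logarithm
  have hK1 : ∀ q ∈ NE G Z, 1 ≤ KZ G Z q.1 q.2 := by
    intro q hq
    obtain ⟨z, hz, h1, h2⟩ := hdom q.1 q.2 (mem_NE.1 hq).1.ne
    refine card_pos.2 ⟨z, mem_KS.2 ⟨⟨h1, Or.inr (mem_union_right _ hz)⟩,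
      ⟨h2.symm, Or.inl (mem_union_right _ hz)⟩⟩⟩
  set X : ℝ := ((NE G Z).card : ℝ) - Ex.card with hX
  have hNZ : X * Real.log a ≤ Real.log (NZ G Z) := by
    unfold NZ
    push_cast
    rw [Real.log_prod (fun q hq => by
      have := hK1 q hq
      exact_mod_cast (Nat.pos_iff_ne_zero.1 this))]
    have h1 : X = (((NE G Z) \ Ex).card : ℝ) := by
      rw [card_sdiff_of_subset (filter_subset _ _), Nat.cast_sub (card_le_card (filter_subset _ _))]
    rw [h1]
    have h2 : ((((NE G Z) \ Ex).card : ℝ)) * Real.log a =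
        ∑ q ∈ (NE G Z) \ Ex, Real.log a := by rw [sum_const, nsmul_eq_mul]
    rw [h2]
    refine le_trans (sum_le_sum (g := fun q => Real.log (KZ G Z q.1 q.2 : ℝ)) ?_) ?_
    · intro q hq
      have h3 := mem_sdiff.1 hq
      have h4 : a ≤ (KZ G Z q.1 q.2 : ℝ) := by
        by_contra h5
        exact h3.2 (mem_filter.2 ⟨h3.1, not_le.1 h5⟩)
      exact Real.log_le_log (by linarith) h4
    · refine sum_le_sum_of_subset_of_nonneg sdiff_subset fun q hq _ => ?_
      exact Real.log_nonneg (by exact_mod_cast hK1 q hq)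
  have hNEge := card_NE_ge hG Z
  -- the value of log a
  have hlogh : Real.log (n / L) = L - Real.log L := by
    rw [Real.log_div h0.ne' hL0.ne']
    rfl
  have hloga : L - Real.log L - Real.log 4 - 5 * eta ≤ Real.log a := by
    rw [ha, Real.log_mul (by rw [hη']; norm_num) (by positivity), hlogh]
    have h1 : (1 / 4 - eta : ℝ) = (1 / 4) * (1 - 4 * eta) := by ring
    rw [h1, Real.log_mul (by norm_num) (by rw [hη']; norm_num)]
    have h2 : Real.log (1 / 4) = - Real.log 4 := by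
      rw [one_div, Real.log_inv]
    have h3 := Real.one_sub_inv_le_log_of_pos (show (0 : ℝ) < 1 - 4 * eta by rw [hη']; norm_num)
    have h4 : - 5 * eta ≤ 1 - (1 - 4 * eta)⁻¹ := by rw [hη']; norm_num
    linarith
  have hloga' : Real.log a ≤ L := by
    have h1 : a ≤ n := by
      rw [ha]
      have : (1 / 4 - eta) * (n / L) ≤ 1 * (n / L) :=
        mul_le_mul_of_nonneg_right (by rw [hη']; norm_num) (by positivity)
      linarith
    exact Real.log_le_log (by linarith) h1
  have hloga0 : 0 ≤ Real.log a := Real.log_nonneg ha1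
  -- final computation
  have hD : n ^ 2 / 2 - (n / 2 + (n / L + 1 + 20 * L) * ((1 / 2 + eta) * n) +
      64 * n * L / eta ^ 2) ≤ X := by
    have h1 : (Z.card : ℝ) * ((1 / 2 + eta) * n) ≤ (n / L + 1 + 20 * L) * ((1 / 2 + eta) * n) :=
      mul_le_mul_of_nonneg_right hZc (by positivity)
    linarith
  have hDL : (n / 2 + (n / L + 1 + 20 * L) * ((1 / 2 + eta) * n) + 64 * n * L / eta ^ 2) * L ≤
      n ^ 2 / 2 * (1 + 4 * eta) := by
    have h1 : n / L * L = n := div_mul_cancel₀ _ hL0.ne'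
    have h2 : (n / 2 + (n / L + 1 + 20 * L) * ((1 / 2 + eta) * n) + 64 * n * L / eta ^ 2) * L =
        (1 / 2 + eta) * n ^ 2 + n * (L / 2 + (1 + 20 * L) * L * (1 / 2 + eta) +
          64 * L ^ 2 / eta ^ 2) := by
      have : (n / L) * ((1 / 2 + eta) * n) * L = (1 / 2 + eta) * n ^ 2 := by
        calc (n / L) * ((1 / 2 + eta) * n) * L = (n / L * L) * ((1 / 2 + eta) * n) := by ring
          _ = (1 / 2 + eta) * n ^ 2 := by rw [h1]; ring
      linear_combination this
    rw [h2]
    have h3 : L / 2 + (1 + 20 * L) * L * (1 / 2 + eta) + 64 * L ^ 2 / eta ^ 2 ≤ eta * n := by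
      rw [hη']
      have h4 : L ≤ L ^ 2 := by nlinarith
      have h5 : 64 * L ^ 2 / (1 / 10 ^ 6 : ℝ) ^ 2 = 64 * 10 ^ 12 * L ^ 2 := by norm_num; ring
      rw [h5]
      nlinarith
    have h6 := mul_le_mul_of_nonneg_left h3 h0.le
    nlinarith
  have hfin : n ^ 2 / 2 * (L - Real.log L - Real.log 4 - 1 - 10 * eta) ≤ Real.log (NZ G Z) := by
    refine le_trans ?_ hNZ
    set D := (n / 2 + (n / L + 1 + 20 * L) * ((1 / 2 + eta) * n) + 64 * n * L / eta ^ 2) with hDD
    have hD0 : 0 ≤ D := by positivity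
    have h1 : (n ^ 2 / 2 - D) * Real.log a ≤ X * Real.log a :=
      mul_le_mul_of_nonneg_right hD hloga0
    have h2 : D * Real.log a ≤ D * L := mul_le_mul_of_nonneg_left hloga' hD0
    have h3 : n ^ 2 / 2 * (L - Real.log L - Real.log 4 - 5 * eta) ≤ n ^ 2 / 2 * Real.log a :=
      mul_le_mul_of_nonneg_left hloga (by positivity)
    have h4 : 0 ≤ n ^ 2 / 2 * eta := by positivity
    nlinarith
  have hpos : 0 < (NZ G Z : ℝ) := by
    have : 0 < NZ G Z := prod_pos fun q hq => hK1 q hq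
    exact_mod_cast this
  calc Real.exp (n ^ 2 / 2 * (L - Real.log L - Real.log 4 - 1 - 10 * eta)) ≤
        Real.exp (Real.log (NZ G Z)) := Real.exp_le_exp.2 hfin
    _ = (NZ G Z : ℝ) := Real.exp_log hpos
    _ ≤ ((PS G).card : ℝ) := by exact_mod_cast nz_le G Z

end count

end

end CEB
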