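import Pool.Agent.Work.MP_ceb7a8_co.QR
import Pool.Agent.Work.MP_ceb7a8_co.GoodA
import Pool.Agent.Work.MP_ceb7a8_co.Lower

/-!
Almost all labelled graphs are quasirandom and good for all small sets of vertices (helper25).
-/

namespace CEB

open Finset
open Pool.Agent.Work.MP_ceb7a8_co (DiscK eST dgr codgr)

noncomputable section

/-- strong quasi-randomness, inherited by induced subgraphs -/
structure QRs {n : ℕ} (G : SimpleGraph (Fin n)) : Prop where
  q1 : ∀ S T : Finset (Fin n),
    |(eS G S T : ℝ) - (S.card : ℝ) * T.card / 2| ≤ 2 * Real.sqrt (n * (S.card * T.card))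
  q2 : ∀ v, |((gn G v).card : ℝ) - n / 2| ≤ eta / 2 * n
  q3 : ∀ u v, u ≠ v → |((gn G u ∩ gn G v).card : ℝ) - n / 4| ≤ eta / 2 * n

theorem nn_fin (n : ℕ) : nn (Fin n) = n := by
  unfold nn
  rw [Fintype.card_fin]

theorem codgr_fin {n : ℕ} (G : SimpleGraph (Fin n)) (u v : Fin n) :
    codgr G u v univ = (gn G u ∩ gn G v).card := by
  rw [codgr_univ]
  congr 1
  ext x
  simp

theorem QRs.qr {n : ℕ} {G : SimpleGraph (Fin n)} (h : QRs G) : QR G where
  q1 S T := by
    refine (h.q1 S T).trans ?_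
    rw [nn_fin]
    exact mul_le_mul_of_nonneg_right (by norm_num) (Real.sqrt_nonneg _)
  q2 v := by
    rw [nn_fin]
    refine (h.q2 v).trans (mul_le_mul_of_nonneg_right ?_ (Nat.cast_nonneg _))
    unfold eta
    norm_num
  q3 u v huv := by
    rw [nn_fin, ← codgr_univ, codgr_fin]
    refine (h.q3 u v huv).trans (mul_le_mul_of_nonneg_right ?_ (Nat.cast_nonneg _))
    unfold eta
    norm_num

theorem QRs.qrk {n : ℕ} {G : SimpleGraph (Fin n)} (h : QRs G) :
    Pool.Agent.Work.MP_ceb7a8_co.QRK 2 (eta / 2) G where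
  disc S T := by
    rw [Fintype.card_fin]
    exact h.q1 S T
  deg u := by
    rw [Fintype.card_fin]
    exact h.q2 u
  codeg u v huv := by
    rw [Fintype.card_fin, codgr_fin]
    exact h.q3 u v huv

theorem qr_of_qrk {V : Type*} [Fintype V] {G : SimpleGraph V}
    (h : Pool.Agent.Work.MP_ceb7a8_co.QRK 4 eta G) : QR G where
  q1 S T := h.disc S T
  q2 v := h.deg v
  q3 u v huv := by
    rw [← codgr_univ]
    exact h.codeg u v huv

theorem qrs_of_qrk {n : ℕ} {G : SimpleGraph (Fin n)}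
    (h : Pool.Agent.Work.MP_ceb7a8_co.QRK 2 (eta / 2) G) : QRs G where
  q1 S T := by
    have := h.disc S T
    rwa [Fintype.card_fin] at this
  q2 v := by
    have := h.deg v
    rwa [Fintype.card_fin] at this
  q3 u v huv := by
    have := h.codeg u v huv
    rwa [Fintype.card_fin, codgr_fin] at this

/-! ### the number of exceptional vertices -/

/-- exponentials beat powers -/
theorem exp_big {c L : ℝ} (hc : 1 / 10 ^ 10 ≤ c) (hL : (10 : ℝ) ^ 100 ≤ L) :
    10 ^ 60 * L ^ 3 ≤ Real.exp (c * L) := by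
  have hL0 : 0 ≤ L := le_trans (by positivity) hL
  have hc0 : 0 ≤ c := le_trans (by positivity) hc
  have h1 := Real.pow_div_factorial_le_exp (c * L) (by positivity) 5
  have h2 : (Nat.factorial 5 : ℝ) = 120 := by norm_num [Nat.factorial]
  rw [h2] at h1
  refine le_trans ?_ h1
  rw [le_div_iff₀ (by norm_num), mul_pow]
  have h3 : (1 / 10 ^ 10 : ℝ) ^ 5 ≤ c ^ 5 := pow_le_pow_left₀ (by positivity) hc 5
  have h4 : ((10 : ℝ) ^ 100) ^ 2 ≤ L ^ 2 := pow_le_pow_left₀ (by positivity) hL 2
  have h5 : (1 / 10 ^ 10 : ℝ) ^ 5 * (((10 : ℝ) ^ 100) ^ 2 * L ^ 3) ≤ c ^ 5 * (L ^ 2 * L ^ 3) :=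
    mul_le_mul h3 (mul_le_mul_of_nonneg_right h4 (by positivity)) (by positivity) (by positivity)
  have h6 : c ^ 5 * (L ^ 2 * L ^ 3) = c ^ 5 * L ^ 5 := by ring
  rw [h6] at h5
  refine le_trans ?_ h5
  have h7 : (0 : ℝ) ≤ L ^ 3 := by positivity
  have h8 : (10 : ℝ) ^ 60 * 120 ≤ (1 / 10 ^ 10 : ℝ) ^ 5 * ((10 : ℝ) ^ 100) ^ 2 := by norm_num
  nlinarith [mul_le_mul_of_nonneg_right h8 h7]

/-- the number of exceptional vertices is much smaller than n / (log n)^3 -/
theorem jj_le {V : Type*} [Fintype V] (hn : Big (Fintype.card V)) :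
    10 ^ 50 * (jj V * LL V ^ 3) ≤ nn V := by
  obtain ⟨hL, he, h0, -⟩ := big_facts hn
  have hL0 : 0 < LL V := lt_of_lt_of_le (by positivity) hL
  have h1 := exp_big (c := sig / 2) (by unfold sig; norm_num) hL
  have h2 : nn V ^ (sig / 2) = Real.exp (sig / 2 * LL V) := by
    rw [Real.rpow_def_of_pos h0, mul_comm]
    rfl
  have h3 : nn V ^ (1 - sig / 2) * nn V ^ (sig / 2) = nn V := by
    rw [← Real.rpow_add h0]
    rw [show 1 - sig / 2 + sig / 2 = 1 by ring, Real.rpow_one]
  have h4 : 0 < nn V ^ (1 - sig / 2) := Real.rpow_pos_of_pos h0 _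
  have h5 : nn V ^ (1 - sig / 2) * (10 ^ 60 * LL V ^ 3) ≤ nn V := by
    calc _ ≤ nn V ^ (1 - sig / 2) * nn V ^ (sig / 2) := by
          rw [h2]
          exact mul_le_mul_of_nonneg_left h1 h4.le
      _ = nn V := h3
  refine le_trans ?_ h5
  unfold jj
  have h6 : 0 ≤ nn V ^ (1 - sig / 2) * LL V ^ 3 := by positivity
  nlinarith

theorem jj_nonneg (V : Type*) [Fintype V] : 0 ≤ jj V := by
  unfold jj nn
  positivity

theorem jj_le_nn {V : Type*} [Fintype V] (hn : Big (Fintype.card V)) :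
    10 ^ 50 * jj V ≤ nn V := by
  obtain ⟨hL, he, h0, -⟩ := big_facts hn
  have h1 := jj_le hn
  have h2 : (1 : ℝ) ≤ LL V ^ 3 := one_le_pow₀ (le_trans (by norm_num) hL)
  have h3 := jj_nonneg V
  nlinarith [mul_le_mul_of_nonneg_left h2 h3]

/-! ### induced subgraphs -/

theorem card_out {V : Type*} [Fintype V] (A : Finset V) :
    Fintype.card (Out A) + A.card = Fintype.card V := by
  classical
  have h1 : Fintype.card (Out A) = Fintype.card {x : V // x ∉ A} :=
    Fintype.card_congr (Equiv.refl _)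
  rw [h1, Fintype.card_subtype_compl, Fintype.card_coe]
  exact Nat.sub_add_cancel (card_le_univ A)

theorem nn_out {V : Type*} [Fintype V] (A : Finset V) : nn (Out A) = nn V - A.card := by
  unfold nn
  have h1 : (Fintype.card (Out A) : ℝ) + A.card = Fintype.card V := by
    exact_mod_cast card_out A
  linarith

/-- the inclusion of the vertices outside A -/
def outE {V : Type*} (A : Finset V) : Out A ↪ V where
  toFun x := x.1
  inj' _ _ h := Subtype.ext h

theorem ind_eq_comap {V : Type*} (G : SimpleGraph V) (A : Finset V) :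
    ind G A = G.comap (outE A) := rfl

theorem QRs.ind {n : ℕ} {G : SimpleGraph (Fin n)} (h : QRs G) (hn : Big n) (A : Finset (Fin n))
    (hj : (A.card : ℝ) ≤ jj (Fin n)) : QR (ind G A) := by
  have hn' : Big (Fintype.card (Fin n)) := by rwa [Fintype.card_fin]
  have h1 := jj_le_nn hn'
  have h2 := h.qrk.comap (by norm_num) (by unfold eta; norm_num) (by unfold eta; norm_num)
    (outE A) (by
      have h3 := nn_out A
      unfold nn at h3
      rw [h3]
      have h4 : (Fintype.card (Fin n) : ℝ) = nn (Fin n) := rfl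
      rw [h4]
      unfold eta
      have h5 := jj_nonneg (Fin n)
      nlinarith)
  rw [show (2 : ℝ) * 2 = 4 by norm_num, show 2 * (eta / 2) = eta by ring] at h2
  rw [ind_eq_comap]
  exact qr_of_qrk h2

open Classical in
/-- G is good for A: for at least half of the systems outside A the vertices of A are well
attached to the hubs -/
def GoodA {n : ℕ} (G : SimpleGraph (Fin n)) (A : Finset (Fin n)) : Prop :=
  (PS (ind G A)).card ≤ 2 * ((PS (ind G A)).filter fun g =>
      Struct (ind G A) g ∧ ∀ v ∈ A, 49 / 100 * ((hub g).card : ℝ) ≤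
        (((hub g).filter fun x => G.Adj v x.1).card : ℝ)).card

open Classical in
/-- the statement of the structure theorem -/
def ThmS : Prop := ∀ (V : Type) [Fintype V] (G : SimpleGraph V), QR G → Big (Fintype.card V) →
    (((PS G).filter fun g => ¬ Struct G g).card : ℝ) ≤ Real.exp (- nn V) * (PS G).card

open Classical in
/-- the typical systems outside A -/
def indS {n : ℕ} (A : Finset (Fin n)) (G : SimpleGraph (Fin n)) :
    Finset (Out A → Out A → Out A) :=
  if QR (ind G A) then (PS (ind G A)).filter fun g => Struct (ind G A) g else ∅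

/-- the hubs as vertices of the whole graph -/
def hubV {n : ℕ} (A : Finset (Fin n)) (g : Out A → Out A → Out A) : Finset (Fin n) :=
  (hub g).map (outE A)

open Classical in
theorem dgr_hubV {n : ℕ} (A : Finset (Fin n)) (g : Out A → Out A → Out A)
    (G : SimpleGraph (Fin n)) (v : Fin n) :
    dgr G v (hubV A g) = ((hub g).filter fun x => G.Adj v x.1).card := by
  unfold dgr hubV
  rw [filter_map, card_map]
  rfl

theorem ind_agree {n : ℕ} {A : Finset (Fin n)} {G G' : SimpleGraph (Fin n)}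
    (h : Pool.Agent.Work.MP_ceb7a8_co.Rand.Agree Aᶜ G G') : ind G A = ind G' A := by
  ext x y
  exact h x.1 (mem_compl.2 x.2) y.1 (mem_compl.2 y.2)

theorem big_out {n : ℕ} (hn : (10 : ℝ) ^ 100 + 1 ≤ Real.log n) (A : Finset (Fin n))
    (hj : (A.card : ℝ) ≤ jj (Fin n)) : Big (Fintype.card (Out A)) := by
  have hn1 : Big n := le_trans (by norm_num) hn
  have hn' : Big (Fintype.card (Fin n)) := by rwa [Fintype.card_fin]
  obtain ⟨hL, he, h0, -⟩ := big_facts hn'
  have h1 := jj_le_nn hn'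
  have h2 := nn_out A
  have h3 : nn (Fin n) * Real.exp (-1) ≤ nn (Out A) := by
    have h4 : Real.exp (-1) ≤ 1 / 2 := by
      rw [Real.exp_neg, inv_eq_one_div]
      refine one_div_le_one_div_of_le (by norm_num) ?_
      have := Real.add_one_le_exp (1 : ℝ)
      linarith
    rw [h2]
    have h5 := jj_nonneg (Fin n)
    nlinarith
  have h4 : Real.log (nn (Fin n) * Real.exp (-1)) ≤ Real.log (nn (Out A)) :=
    Real.log_le_log (mul_pos h0 (Real.exp_pos _)) h3
  rw [Real.log_mul h0.ne' (Real.exp_pos _).ne', Real.log_exp, nn_fin] at h4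
  unfold Big
  have h5 : (Fintype.card (Out A) : ℝ) = nn (Out A) := rfl
  rw [h5]
  linarith

/-- hubs outside A -/
theorem hh_out {n : ℕ} (hn : Big n) (A : Finset (Fin n)) (hj : (A.card : ℝ) ≤ jj (Fin n))
    (hb : Big (Fintype.card (Out A))) :
    9 / 10 * hh (Fin n) ≤ 97 / 100 * hh (Out A) := by
  have hn' : Big (Fintype.card (Fin n)) := by rwa [Fintype.card_fin]
  obtain ⟨hL, he, h0, -⟩ := big_facts hn'
  obtain ⟨hL1, he1, h01, -⟩ := big_facts hb
  have h1 := jj_le_nn hn'
  have h2 := nn_out A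
  have hL0 : 0 < LL (Fin n) := lt_of_lt_of_le (by positivity) hL
  have hL10 : 0 < LL (Out A) := lt_of_lt_of_le (by positivity) hL1
  have h3 : LL (Out A) ≤ LL (Fin n) := by
    refine Real.log_le_log h01 ?_
    rw [h2]
    have : (0 : ℝ) ≤ A.card := Nat.cast_nonneg _
    linarith
  have h4 : 9 / 10 * nn (Fin n) ≤ 97 / 100 * nn (Out A) := by
    rw [h2]
    have h5 := jj_nonneg (Fin n)
    nlinarith
  unfold hh
  calc 9 / 10 * (nn (Fin n) / LL (Fin n)) = (9 / 10 * nn (Fin n)) / LL (Fin n) := by ring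
    _ ≤ (97 / 100 * nn (Out A)) / LL (Fin n) := div_le_div_of_nonneg_right h4 hL0.le
    _ ≤ (97 / 100 * nn (Out A)) / LL (Out A) :=
        div_le_div_of_nonneg_left (by positivity) hL10 h3
    _ = _ := by ring

open Classical in
/-- graphs that are not good for A -/
theorem card_not_goodA (hS : ThmS) {n : ℕ} (hn : (10 : ℝ) ^ 100 + 1 ≤ Real.log n)
    (A : Finset (Fin n)) (hj : (A.card : ℝ) ≤ jj (Fin n)) :
    (((univ : Finset (SimpleGraph (Fin n))).filter fun G => QRs G ∧ ¬ GoodA G A).card : ℝ) ≤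
      4 * A.card * Real.exp (-(9 / 10 * hh (Fin n) / 5000)) *
        Fintype.card (SimpleGraph (Fin n)) := by
  have hn1 : Big n := le_trans (by norm_num) hn
  have hn' : Big (Fintype.card (Fin n)) := by rwa [Fintype.card_fin]
  have hb := big_out hn A hj
  obtain ⟨hL, he, h0, -⟩ := big_facts hn'
  have hL0 : 0 < LL (Fin n) := lt_of_lt_of_le (by positivity) hL
  have hh0 : 0 < hh (Fin n) := div_pos h0 hL0
  have h1 := Pool.Agent.Work.MP_ceb7a8_co.goodA A (indS A) (hubV A)
    (w := 9 / 10 * hh (Fin n)) (by positivity) (k := 4) (by norm_num)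
    (fun G G' h => by unfold indS; rw [ind_agree h])
    (fun G g hg => by
      unfold indS at hg
      split_ifs at hg with hq
      · obtain ⟨-, hst⟩ := mem_filter.1 hg
        refine ⟨fun x hx => ?_, ?_⟩
        · unfold hubV at hx
          rw [mem_map] at hx
          obtain ⟨y, -, rfl⟩ := hx
          exact mem_compl.2 y.2
        · unfold hubV
          rw [card_map]
          exact (hh_out hn1 A hj hb).trans hst.s1
      · simp at hg)
  refine le_trans (Nat.cast_le.2 (card_le_card ?_)) h1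
  intro G hG
  obtain ⟨-, hq, hg⟩ := mem_filter.1 hG
  have hqi := hq.ind hn1 A hj
  rw [mem_filter]
  refine ⟨mem_univ _, ?_⟩
  by_contra hcon
  apply hg
  have hI : indS A G = (PS (ind G A)).filter fun g => Struct (ind G A) g := if_pos hqi
  have hs := hS (Out A) (ind G A) hqi hb
  rw [hI] at hcon
  set S := PS (ind G A) with hSdef
  set T := S.filter fun g => Struct (ind G A) g with hT
  set B := T.filter fun P => ∃ v ∈ A, (dgr G v (hubV A P) : ℝ) <
    49 / 100 * (hubV A P).card with hB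
  have h2 : (T.card : ℝ) + (S.filter fun g => ¬ Struct (ind G A) g).card = S.card := by
    exact_mod_cast card_filter_add_card_filter_not (s := S) (fun g => Struct (ind G A) g)
  have h3 : (4 : ℝ) * B.card ≤ T.card := by
    have : 4 * B.card ≤ T.card := not_lt.1 hcon
    exact_mod_cast this
  have h4 : (T.card : ℝ) - B.card ≤ ((S.filter fun g =>
      Struct (ind G A) g ∧ ∀ v ∈ A, 49 / 100 * ((hub g).card : ℝ) ≤
        (((hub g).filter fun x => G.Adj v x.1).card : ℝ)).card : ℝ) := by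
    have h5 : T \ B ⊆ S.filter fun g =>
      Struct (ind G A) g ∧ ∀ v ∈ A, 49 / 100 * ((hub g).card : ℝ) ≤
        (((hub g).filter fun x => G.Adj v x.1).card : ℝ) := by
      intro g hg'
      obtain ⟨hgT, hgB⟩ := mem_sdiff.1 hg'
      obtain ⟨hgS, hst⟩ := mem_filter.1 hgT
      refine mem_filter.2 ⟨hgS, hst, fun v hv => ?_⟩
      by_contra h6
      refine hgB (mem_filter.2 ⟨hgT, v, hv, ?_⟩)
      rw [dgr_hubV]
      unfold hubV
      rw [card_map]
      exact not_le.1 h6
    have h6 : T.card - B.card ≤ (T \ B).card := le_card_sdiff _ _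
    have h7 := card_le_card h5
    have h8 : T.card ≤ (S.filter fun g =>
      Struct (ind G A) g ∧ ∀ v ∈ A, 49 / 100 * ((hub g).card : ℝ) ≤
        (((hub g).filter fun x => G.Adj v x.1).card : ℝ)).card + B.card := by omega
    have h9 : (T.card : ℝ) ≤ ((S.filter fun g =>
      Struct (ind G A) g ∧ ∀ v ∈ A, 49 / 100 * ((hub g).card : ℝ) ≤
        (((hub g).filter fun x => G.Adj v x.1).card : ℝ)).card : ℝ) + B.card := by
      exact_mod_cast h8
    linarith
  have h5 : Real.exp (- nn (Out A)) ≤ 1 / 3 := by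
    obtain ⟨hL1, he1, h01, h02⟩ := big_facts hb
    have h6 : (2 : ℝ) ≤ nn (Out A) := by nlinarith
    have h7 := Real.add_one_le_exp (nn (Out A))
    rw [Real.exp_neg, inv_eq_one_div]
    exact one_div_le_one_div_of_le (by norm_num) (by linarith)
  have h6 : (0 : ℝ) ≤ S.card := Nat.cast_nonneg _
  have h7 := mul_le_mul_of_nonneg_right h5 h6
  have h8 : (S.card : ℝ) ≤ 2 * ((S.filter fun g =>
      Struct (ind G A) g ∧ ∀ v ∈ A, 49 / 100 * ((hub g).card : ℝ) ≤
        (((hub g).filter fun x => G.Adj v x.1).card : ℝ)).card : ℝ) := by linarith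
  unfold GoodA
  exact_mod_cast h8

/-- the number of small sets -/
theorem card_small_sets {V : Type*} [Fintype V] (j : ℕ) :
    ((univ : Finset (Finset V)).filter fun A => A.Nonempty ∧ A.card ≤ j).card ≤
      Fintype.card V ^ j := by
  classical
  have h1 : ((univ : Finset (Finset V)).filter fun A => A.Nonempty ∧ A.card ≤ j) ⊆
      (univ : Finset (Fin j → V)).image fun f => univ.image f := by
    intro A hA
    obtain ⟨-, hne, hc⟩ := mem_filter.1 hA
    obtain ⟨a, ha⟩ := hne
    rw [mem_image]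
    let e := A.equivFin
    refine ⟨fun i => if h : (i : ℕ) < A.card then (e.symm ⟨i, h⟩ : V) else a, mem_univ _, ?_⟩
    ext x
    simp only [mem_image, mem_univ, true_and]
    constructor
    · rintro ⟨i, rfl⟩
      split_ifs with h
      · exact (e.symm ⟨i, h⟩).2
      · exact ha
    · intro hx
      refine ⟨⟨e ⟨x, hx⟩, (e ⟨x, hx⟩).2.trans_le hc⟩, ?_⟩
      have h : ((e ⟨x, hx⟩ : Fin A.card) : ℕ) < A.card := (e ⟨x, hx⟩).2
      simp only [h, dif_pos, Fin.eta, Equiv.symm_apply_apply]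
  refine (card_le_card h1).trans (card_image_le.trans ?_)
  rw [card_univ, Fintype.card_fun, Fintype.card_fin]

open Classical in
/-- the main estimate for random graphs -/
theorem random_bound (hS : ThmS) {n : ℕ} (hn : (10 : ℝ) ^ 100 + 1 ≤ Real.log n) :
    (((univ : Finset (SimpleGraph (Fin n))).filter fun G =>
      ¬ (QRs G ∧ ∀ A : Finset (Fin n), A.Nonempty → (A.card : ℝ) ≤ jj (Fin n) → GoodA G A)).card :
        ℝ) ≤ 8 / n * Fintype.card (SimpleGraph (Fin n)) := by
  have hn1 : Big n := le_trans (by norm_num) hn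
  have hn' : Big (Fintype.card (Fin n)) := by rwa [Fintype.card_fin]
  obtain ⟨hL, he, h0, h30⟩ := big_facts hn'
  have hjL := jj_le hn'
  have hj0 := jj_nonneg (Fin n)
  have hjn := jj_le_nn hn'
  set L : ℝ := LL (Fin n) with hLdef
  have hnL : (n : ℝ) = Real.exp L := by rw [← nn_fin, he]
  rw [nn_fin] at h0 h30 hjL hjn
  set F : ℝ := (Fintype.card (SimpleGraph (Fin n)) : ℝ) with hF
  have hF0 : 0 ≤ F := Nat.cast_nonneg _
  have hL1 : (1 : ℝ) ≤ L := le_trans (by norm_num) hL
  have hL0 : 0 < L := by linarith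
  have hh' : hh (Fin n) = n / L := by
    unfold hh
    rw [nn_fin]
  have hinv : 1 / (n : ℝ) = Real.exp (-L) := by
    rw [hnL, Real.exp_neg, one_div]
  -- sizes
  have hLL : L ≤ L ^ 2 := by nlinarith
  have s1 : 10 ^ 30 * L ≤ (n : ℝ) := by nlinarith
  have s2 : (10 : ℝ) ^ 30 * L ≤ n / L := by
    rw [le_div_iff₀ hL0]
    nlinarith
  set J : ℕ := ⌊jj (Fin n)⌋₊ with hJ
  have hJ1 : (J : ℝ) ≤ jj (Fin n) := Nat.floor_le hj0
  have s3 : (10 : ℝ) ^ 50 * (J * L) ≤ n / L := by
    rw [le_div_iff₀ hL0]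
    have h1 : L ^ 2 ≤ L ^ 3 := by nlinarith [sq_nonneg L]
    have h2 : (J : ℝ) * L ^ 2 ≤ jj (Fin n) * L ^ 3 :=
      mul_le_mul hJ1 h1 (by positivity) hj0
    nlinarith
  -- the event
  have hsub : ((univ : Finset (SimpleGraph (Fin n))).filter fun G =>
      ¬ (QRs G ∧ ∀ A : Finset (Fin n), A.Nonempty → (A.card : ℝ) ≤ jj (Fin n) → GoodA G A)) ⊆
      (univ.filter fun G : SimpleGraph (Fin n) =>
        ¬ Pool.Agent.Work.MP_ceb7a8_co.QRK 2 (eta / 2) G) ∪
      ((univ : Finset (Finset (Fin n))).filter fun A => A.Nonempty ∧ A.card ≤ J).biUnion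
        fun A => univ.filter fun G => QRs G ∧ ¬ GoodA G A := by
    intro G hG
    have hG' := (mem_filter.1 hG).2
    rw [mem_union, mem_filter, mem_biUnion]
    by_cases hq : Pool.Agent.Work.MP_ceb7a8_co.QRK 2 (eta / 2) G
    · right
      have hqs := qrs_of_qrk hq
      have h1 : ¬ ∀ A : Finset (Fin n), A.Nonempty → (A.card : ℝ) ≤ jj (Fin n) → GoodA G A :=
        fun h => hG' ⟨hqs, h⟩
      push Not at h1
      obtain ⟨A, hne, hc, hgA⟩ := h1
      exact ⟨A, mem_filter.2 ⟨mem_univ _, hne, Nat.le_floor hc⟩,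
        mem_filter.2 ⟨mem_univ _, hqs, hgA⟩⟩
    · left
      exact ⟨mem_univ _, hq⟩
  have hcard : (((univ : Finset (SimpleGraph (Fin n))).filter fun G =>
      ¬ (QRs G ∧ ∀ A : Finset (Fin n), A.Nonempty → (A.card : ℝ) ≤ jj (Fin n) →
        GoodA G A)).card : ℝ) ≤
      (univ.filter fun G : SimpleGraph (Fin n) =>
        ¬ Pool.Agent.Work.MP_ceb7a8_co.QRK 2 (eta / 2) G).card +
      ∑ A ∈ (univ : Finset (Finset (Fin n))).filter fun A => A.Nonempty ∧ A.card ≤ J,
        ((univ.filter fun G : SimpleGraph (Fin n) => QRs G ∧ ¬ GoodA G A).card : ℝ) := by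
    have h1 := (card_le_card hsub).trans ((card_union_le _ _).trans
      (Nat.add_le_add_left card_biUnion_le _))
    exact_mod_cast h1
  -- quasirandomness
  have hq := Pool.Agent.Work.MP_ceb7a8_co.card_not_QRK (η := eta / 2) (by unfold eta; norm_num)
    (by unfold eta; norm_num) (n := n) (by
      have : (4 : ℝ) ≤ n := by nlinarith
      exact_mod_cast this) (by unfold eta; nlinarith)
  rw [← hF] at hq
  have e1 : 2 * Real.exp (-((n : ℝ) / 2)) ≤ 2 / n := by
    have : Real.exp (-((n : ℝ) / 2)) ≤ 1 / n := by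
      rw [hinv]
      refine Real.exp_le_exp.2 ?_
      nlinarith
    calc _ ≤ 2 * (1 / (n : ℝ)) := by linarith
      _ = 2 / n := by ring
  have e2 : 2 * (n : ℝ) ^ 2 * Real.exp (-((eta / 2) ^ 2 * n / 4)) ≤ 2 / n := by
    have h1 : (n : ℝ) ^ 2 * Real.exp (-((eta / 2) ^ 2 * n / 4)) ≤ 1 / n := by
      rw [hinv]
      have h2 : (n : ℝ) ^ 2 = Real.exp (2 * L) := by
        rw [hnL, ← Real.exp_nat_mul]
        norm_num
      rw [h2, ← Real.exp_add]
      refine Real.exp_le_exp.2 ?_
      have h3 : (eta / 2) ^ 2 * n / 4 = (n : ℝ) / (16 * 10 ^ 12) := by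
        unfold eta
        ring
      rw [h3]
      have h4 : 3 * L ≤ (n : ℝ) / (16 * 10 ^ 12) := by
        rw [le_div_iff₀ (by norm_num)]
        nlinarith
      linarith
    calc _ = 2 * ((n : ℝ) ^ 2 * Real.exp (-((eta / 2) ^ 2 * n / 4))) := by ring
      _ ≤ 2 * (1 / (n : ℝ)) := by linarith
      _ = 2 / n := by ring
  -- the sets
  have hA : ∑ A ∈ (univ : Finset (Finset (Fin n))).filter fun A => A.Nonempty ∧ A.card ≤ J,
      ((univ.filter fun G : SimpleGraph (Fin n) => QRs G ∧ ¬ GoodA G A).card : ℝ) ≤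
      4 / n * F := by
    have h1 : ∀ A ∈ (univ : Finset (Finset (Fin n))).filter fun A => A.Nonempty ∧ A.card ≤ J,
        ((univ.filter fun G : SimpleGraph (Fin n) => QRs G ∧ ¬ GoodA G A).card : ℝ) ≤
        4 * n * Real.exp (-(9 / 10 * (n / L) / 5000)) * F := by
      intro A hA
      obtain ⟨-, -, hc⟩ := mem_filter.1 hA
      have hc' : (A.card : ℝ) ≤ jj (Fin n) := by
        refine le_trans ?_ hJ1
        exact_mod_cast hc
      have h2 := card_not_goodA hS hn A hc'
      rw [← hF, hh'] at h2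
      refine h2.trans (mul_le_mul_of_nonneg_right (mul_le_mul_of_nonneg_right ?_
        (Real.exp_pos _).le) hF0)
      have h3 : jj (Fin n) ≤ n := by nlinarith
      linarith
    have h2 := sum_le_card_nsmul _ _ _ h1
    rw [nsmul_eq_mul] at h2
    refine h2.trans ?_
    have h3 : ((((univ : Finset (Finset (Fin n))).filter fun A =>
        A.Nonempty ∧ A.card ≤ J).card : ℕ) : ℝ) ≤ (n : ℝ) ^ J := by
      have := card_small_sets (V := Fin n) J
      rw [Fintype.card_fin] at this
      exact_mod_cast this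
    have h4 : (0 : ℝ) ≤ 4 * n * Real.exp (-(9 / 10 * (n / L) / 5000)) * F := by positivity
    refine (mul_le_mul_of_nonneg_right h3 h4).trans ?_
    have h5 : (n : ℝ) ^ J * (n * Real.exp (-(9 / 10 * (n / L) / 5000))) ≤ 1 / n := by
      rw [hinv]
      have h6 : (n : ℝ) ^ J = Real.exp (J * L) := by
        rw [Real.exp_nat_mul, ← hnL]
      have h7 : (n : ℝ) * Real.exp (-(9 / 10 * (n / L) / 5000)) =
          Real.exp (L + -(9 / 10 * (n / L) / 5000)) := by
        rw [Real.exp_add, ← hnL]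
      rw [h6, h7, ← Real.exp_add]
      refine Real.exp_le_exp.2 ?_
      nlinarith
    calc _ = 4 * ((n : ℝ) ^ J * (n * Real.exp (-(9 / 10 * (n / L) / 5000)))) * F := by ring
      _ ≤ 4 * (1 / n) * F := by
          refine mul_le_mul_of_nonneg_right (mul_le_mul_of_nonneg_left h5 (by norm_num)) hF0
      _ = 4 / n * F := by ring
  have hfin : (8 : ℝ) / n * F = (2 / n + 2 / n) * F + 4 / n * F := by ring
  rw [hfin]
  refine hcard.trans (add_le_add (hq.trans ?_) hA)
  exact mul_le_mul_of_nonneg_right (add_le_add e1 e2) hF0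

open Classical in
theorem random_graph (hS : ThmS) : ∀ ε : ℝ, 0 < ε → ∃ N : ℕ, ∀ n ≥ N,
    (((univ : Finset (SimpleGraph (Fin n))).filter fun G =>
      ¬ (QRs G ∧ ∀ A : Finset (Fin n), A.Nonempty → (A.card : ℝ) ≤ jj (Fin n) → GoodA G A)).card :
        ℝ) ≤ ε * Fintype.card (SimpleGraph (Fin n)) := by
  intro ε hε
  refine ⟨⌈Real.exp (10 ^ 100 + 1)⌉₊ + ⌈8 / ε⌉₊, fun n hn => ?_⟩
  have h1 : Real.exp (10 ^ 100 + 1) ≤ n := by
    refine (Nat.le_ceil _).trans ?_
    exact_mod_cast (Nat.le_add_right _ _).trans hn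
  have h2 : 8 / ε ≤ n := by
    refine (Nat.le_ceil _).trans ?_
    exact_mod_cast (Nat.le_add_left _ _).trans hn
  have h0 : (0 : ℝ) < n := lt_of_lt_of_le (Real.exp_pos _) h1
  have h3 : (10 : ℝ) ^ 100 + 1 ≤ Real.log n := (Real.le_log_iff_exp_le h0).2 h1
  refine (random_bound hS h3).trans (mul_le_mul_of_nonneg_right ?_ (Nat.cast_nonneg _))
  rw [div_le_iff₀ h0]
  rw [div_le_iff₀ hε] at h2
  linarith

end

end CEB
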