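import Pool.Agent.Work.MP_ceb7a8_co.Quasi
import Pool.Agent.Work.MP_ceb7a8_co.Random
import Pool.Agent.Work.MP_ceb7a8_co.ProdClass

/-!
Deterministic facts about a path system with the typical structure, and their invariance on
product classes (helper78).
-/

namespace CEB

namespace Det

open Finset

noncomputable section

open scoped Classical

section num

variable (V : Type*) [Fintype V]

/-- the bound for a typical number of bad neighbours -/
def rr : ℝ := nn V ^ (1 - sig / 2)

theorem jj_eq : jj V = 3 * rr V := rfl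

variable {V}

theorem rr_pos (hn : Big (Fintype.card V)) : 0 < rr V := by
  obtain ⟨-, -, h0, -⟩ := big_facts hn
  exact Real.rpow_pos_of_pos h0 _

theorem rr_sq (hn : Big (Fintype.card V)) : nn V ^ (2 - sig) = rr V ^ 2 := by
  obtain ⟨-, -, h0, -⟩ := big_facts hn
  unfold rr
  rw [← Real.rpow_natCast, ← Real.rpow_mul h0.le]
  congr 1
  push_cast
  ring

theorem LL_pos (hn : Big (Fintype.card V)) : 0 < LL V := by
  obtain ⟨hL, -⟩ := big_facts hn
  exact lt_of_lt_of_le (by positivity) hL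

theorem hh_mul (hn : Big (Fintype.card V)) : hh V * LL V = nn V := by
  unfold hh
  exact div_mul_cancel₀ _ (LL_pos hn).ne'

theorem hh_pos (hn : Big (Fintype.card V)) : 0 < hh V := by
  obtain ⟨-, -, h0, -⟩ := big_facts hn
  exact div_pos h0 (LL_pos hn)

theorem hh_le (hn : Big (Fintype.card V)) : 10 ^ 100 * hh V ≤ nn V := by
  obtain ⟨hL, -⟩ := big_facts hn
  rw [← hh_mul hn, mul_comm]
  exact mul_le_mul_of_nonneg_left hL (hh_pos hn).le

/-- 10^30 (log n)^2 <= n gives 10^30 log n <= h -/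
theorem LL_le_hh (hn : Big (Fintype.card V)) : 10 ^ 30 * LL V ≤ hh V := by
  obtain ⟨-, -, -, h1⟩ := big_facts hn
  have hL := LL_pos hn
  have h2 := hh_mul hn
  rw [← h2] at h1
  have h3 : 10 ^ 30 * LL V * LL V ≤ hh V * LL V := by
    have : 10 ^ 30 * LL V * LL V = 10 ^ 30 * LL V ^ 2 := by ring
    rw [this]; exact h1
  exact le_of_mul_le_mul_right h3 hL

theorem rr_le_hh (hn : Big (Fintype.card V)) : 10 ^ 50 * rr V ≤ hh V := by
  obtain ⟨hL, -⟩ := big_facts hn
  have h1 := jj_le hn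
  rw [jj_eq] at h1
  have hLp := LL_pos hn
  have hr := rr_pos hn
  have h2 := hh_mul hn
  rw [← h2] at h1
  have hL1 : (1 : ℝ) ≤ LL V := le_trans (by norm_num) hL
  have h3 : 10 ^ 50 * rr V * LL V ≤ hh V * LL V := by
    refine le_trans ?_ h1
    have h4 : (1 : ℝ) ≤ LL V ^ 2 := one_le_pow₀ hL1
    have h5 : 0 < rr V * LL V := mul_pos hr hLp
    have h6 : rr V * LL V * 1 ≤ rr V * LL V * LL V ^ 2 := mul_le_mul_of_nonneg_left h4 h5.le
    nlinarith
  exact le_of_mul_le_mul_right h3 hLp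

theorem jj_le_hh (hn : Big (Fintype.card V)) : 10 ^ 49 * jj V ≤ hh V := by
  have h1 := rr_le_hh hn
  have h2 := rr_pos hn
  rw [jj_eq]
  nlinarith

theorem rr_ge (hn : Big (Fintype.card V)) : 10 ^ 15 * LL V ≤ rr V := by
  obtain ⟨hL, he, h0, h1⟩ := big_facts hn
  have hLp := LL_pos hn
  have hn1 : 1 ≤ nn V := by
    rw [he]
    exact Real.one_le_exp hLp.le
  have h2 : nn V ^ ((1 : ℝ) / 2) ≤ rr V := by
    unfold rr
    apply Real.rpow_le_rpow_of_exponent_le hn1
    unfold sig
    norm_num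
  refine le_trans ?_ h2
  rw [← Real.sqrt_eq_rpow]
  apply Real.le_sqrt_of_sq_le
  refine le_trans (le_of_eq ?_) h1
  ring

theorem one_le_rr (hn : Big (Fintype.card V)) : 1 ≤ rr V := by
  obtain ⟨hL, -⟩ := big_facts hn
  have := rr_ge hn
  have h2 : (1 : ℝ) ≤ LL V := le_trans (by norm_num) hL
  nlinarith

end num

section inv

variable {V : Type*} [Fintype V] {G : SimpleGraph V} {g g' : V → V → V}

theorem mem_nb {u v : V} : v ∈ nb g u ↔ Used g u v := by simp [nb]

theorem mem_bad {u v : V} : v ∈ bad G g u ↔ BadP G g u v := by simp [bad]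

theorem mem_hubr {v : V} : v ∈ hubr G g ↔ v ∈ hub g ∧ v ∈ reg G g := by simp [hubr]

theorem mem_reg {v : V} : v ∈ reg G g ↔ ((bad G g v).card : ℝ) ≤ rr V ∧
    49 / 100 * ((hub g).card : ℝ) ≤ ((gn G v ∩ hub g).card : ℝ) := by
  simp [reg, rr]

/-- The class invariant part of the structure. -/
structure S3 (G : SimpleGraph V) (g : V → V → V) : Prop where
  s1 : 97 / 100 * hh V ≤ ((hub g).card : ℝ)
  s2 : ((hub g).card : ℝ) ≤ 115 / 100 * hh V
  s3 : ((∑ u, (bad G g u).card : ℕ) : ℝ) ≤ 2 * nn V ^ (2 - sig)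

theorem S3.of_struct (h : Struct G g) : S3 G g := ⟨h.s1, h.s2, h.s3⟩

theorem nb_sgt (h : sgt g' = sgt g) (u : V) : nb g' u = nb g u := by
  ext v
  rw [mem_nb, mem_nb]
  exact sgt_used h u v

theorem hub_sgt (h : sgt g' = sgt g) : hub g' = hub g := by
  unfold hub
  simp only [nb_sgt h]

theorem badP_sgt (h : sgt g' = sgt g) (u v : V) : BadP G g' u v ↔ BadP G g u v := by
  unfold BadP
  rw [hub_sgt h, sgt_used h u v, sgt_q h u v]

theorem bad_sgt (h : sgt g' = sgt g) (u : V) : bad G g' u = bad G g u := by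
  ext v
  rw [mem_bad, mem_bad]
  exact badP_sgt h u v

theorem reg_sgt (h : sgt g' = sgt g) : reg G g' = reg G g := by
  ext v
  rw [mem_reg, mem_reg, hub_sgt h, bad_sgt h]

theorem hubr_sgt (h : sgt g' = sgt g) : hubr G g' = hubr G g := by
  unfold hubr
  rw [hub_sgt h, reg_sgt h]

theorem s3_sgt (h : sgt g' = sgt g) (hs : S3 G g') : S3 G g := by
  obtain ⟨h1, h2, h3⟩ := hs
  rw [hub_sgt h] at h1 h2
  simp only [bad_sgt h] at h3
  exact ⟨h1, h2, h3⟩

end inv

section facts

variable {V : Type*} [Fintype V] {G : SimpleGraph V} {g : V → V → V}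

theorem nb_sub_gn (hg : IsSys G g) (u : V) : nb g u ⊆ gn G u := by
  intro v hv
  rw [mem_nb] at hv
  rw [mem_gn]
  exact hg.used_adj hv

/-- a graph edge between v and a hub is used or bad -/
theorem gn_hub_sub (v : V) : gn G v ∩ hub g ⊆ nb g v ∪ bad G g v := by
  intro w hw
  rw [mem_inter, mem_gn] at hw
  rw [mem_union, mem_nb, mem_bad]
  by_cases hu : Used g v w
  · exact Or.inl hu
  · exact Or.inr ⟨hw.1.ne, Or.inl ⟨⟨hw.1, Or.inr hw.2⟩, hu⟩⟩

/-- a graph edge at a hub is used or bad -/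
theorem gn_sub_of_hub {z : V} (hz : z ∈ hub g) : gn G z ⊆ nb g z ∪ bad G g z := by
  intro w hw
  rw [mem_gn] at hw
  rw [mem_union, mem_nb, mem_bad]
  by_cases hu : Used g z w
  · exact Or.inl hu
  · exact Or.inr ⟨hw.ne, Or.inl ⟨⟨hw, Or.inl hz⟩, hu⟩⟩

/-- a used edge outside the hubs is bad -/
theorem nb_sub_of_not_hub (hg : IsSys G g) {v : V} (hv : v ∉ hub g) :
    nb g v ⊆ (gn G v ∩ hub g) ∪ bad G g v := by
  intro w hw
  have hw' := nb_sub_gn hg v hw
  rw [mem_nb] at hw
  rw [mem_union, mem_inter, mem_bad]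
  by_cases hwh : w ∈ hub g
  · exact Or.inl ⟨hw', hwh⟩
  · refine Or.inr ⟨hw.1, Or.inr ⟨?_, used_not_q hw⟩⟩
    rintro ⟨-, h1 | h1⟩
    · exact hv h1
    · exact hwh h1

theorem q_of_not_hub {s t : V} (hst : s ≠ t) (hs : s ∉ hub g) (ht : t ∉ hub g)
    (hb : t ∉ bad G g s) : Q g s t := by
  rw [mem_bad] at hb
  by_contra hq
  refine hb ⟨hst, Or.inr ⟨?_, hq⟩⟩
  rintro ⟨-, h1 | h1⟩
  · exact hs h1
  · exact ht h1

theorem q_of_not_adj {s t : V} (hst : s ≠ t) (ha : ¬ G.Adj s t)
    (hb : t ∉ bad G g s) : Q g s t := by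
  rw [mem_bad] at hb
  by_contra hq
  exact hb ⟨hst, Or.inr ⟨fun h => ha h.1, hq⟩⟩

theorem reg_bad {v : V} (hv : v ∈ reg G g) : ((bad G g v).card : ℝ) ≤ rr V := (mem_reg.1 hv).1

/-- number of vertices with many bad neighbours -/
theorem card_many_bad (hn : Big (Fintype.card V)) (hs : S3 G g) :
    ((univ.filter fun v : V => rr V < ((bad G g v).card : ℝ)).card : ℝ) ≤ 2 * rr V := by
  have hr := rr_pos hn
  have h1 := hs.s3
  rw [rr_sq hn] at h1
  have h2 : ((univ.filter fun v : V => rr V < ((bad G g v).card : ℝ)).card : ℝ) * rr V ≤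
      ((∑ u, (bad G g u).card : ℕ) : ℝ) := by
    push_cast
    rw [← nsmul_eq_mul]
    calc _ ≤ ∑ u ∈ univ.filter fun v : V => rr V < ((bad G g v).card : ℝ),
          ((bad G g u).card : ℝ) := by
          apply card_nsmul_le_sum
          intro v hv
          exact (mem_filter.1 hv).2.le
      _ ≤ _ := sum_le_sum_of_subset_of_nonneg (subset_univ _) fun _ _ _ => Nat.cast_nonneg _
  have h3 := h2.trans h1
  have h4 : 2 * rr V ^ 2 = 2 * rr V * rr V := by ring
  rw [h4] at h3
  exact le_of_mul_le_mul_right h3 hr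

theorem hub_nonempty (hn : Big (Fintype.card V)) (hs : S3 G g) : (hub g).Nonempty := by
  have h1 := hs.s1
  have h2 := hh_pos hn
  rw [← card_pos]
  have : (0 : ℝ) < ((hub g).card : ℝ) := by linarith
  exact_mod_cast this

/-- number of vertices badly attached to the hubs -/
theorem card_low_hub (hG : QR G) (hn : Big (Fintype.card V)) (hs : S3 G g) :
    ((univ.filter fun v : V => ((gn G v ∩ hub g).card : ℝ) <
      49 / 100 * ((hub g).card : ℝ)).card : ℝ) ≤ rr V := by
  have h1 := hG.card_low (hub_nonempty hn hs) (e := 1 / 100) (by norm_num)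
  have h2 : ((univ.filter fun v : V => ((gn G v ∩ hub g).card : ℝ) <
      49 / 100 * ((hub g).card : ℝ)).card : ℝ) ≤
      ((univ.filter fun v : V => ((gn G v ∩ hub g).card : ℝ) ≤
        (1 / 2 - 1 / 100) * ((hub g).card : ℝ)).card : ℝ) := by
    refine Nat.cast_le.2 (card_le_card ?_)
    intro v hv
    rw [mem_filter] at hv ⊢
    refine ⟨hv.1, ?_⟩
    have := hv.2
    norm_num at this ⊢
    linarith
  refine h2.trans (h1.trans ?_)
  have hhp := hh_pos hn
  have h3 := hs.s1
  have h4 := hh_mul hn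
  have h5 := rr_ge hn
  have hL := LL_pos hn
  rw [div_le_iff₀ (by nlinarith)]
  have h6 : 0 ≤ rr V := (rr_pos hn).le
  have h7 : (10 : ℝ) ^ 15 * LL V * (97 / 100 * hh V) ≤ rr V * ((hub g).card : ℝ) := by
    apply mul_le_mul h5 h3 (by positivity) h6
  nlinarith

/-- the number of irregular vertices -/
theorem irr_card (hG : QR G) (hn : Big (Fintype.card V)) (hs : S3 G g) :
    ((univ \ reg G g).card : ℝ) ≤ jj V := by
  have h1 := card_many_bad hn hs
  have h2 := card_low_hub hG hn hs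
  have h3 : univ \ reg G g ⊆ (univ.filter fun v : V => rr V < ((bad G g v).card : ℝ)) ∪
      (univ.filter fun v : V => ((gn G v ∩ hub g).card : ℝ) <
        49 / 100 * ((hub g).card : ℝ)) := by
    intro v hv
    rw [mem_sdiff, mem_reg, not_and_or, not_le, not_le] at hv
    rw [mem_union, mem_filter, mem_filter]
    rcases hv.2 with h | h
    · exact Or.inl ⟨mem_univ _, h⟩
    · exact Or.inr ⟨mem_univ _, h⟩
  have h4 : ((univ \ reg G g).card : ℝ) ≤
      ((univ.filter fun v : V => rr V < ((bad G g v).card : ℝ)).card : ℝ) +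
      ((univ.filter fun v : V => ((gn G v ∩ hub g).card : ℝ) <
        49 / 100 * ((hub g).card : ℝ)).card : ℝ) := by
    exact_mod_cast (card_le_card h3).trans (card_union_le _ _)
  rw [jj_eq]
  linarith

theorem hub_sdiff_card (hG : QR G) (hn : Big (Fintype.card V)) (hs : S3 G g) :
    ((hub g \ hubr G g).card : ℝ) ≤ jj V := by
  refine le_trans ?_ (irr_card hG hn hs)
  refine Nat.cast_le.2 (card_le_card ?_)
  intro v hv
  rw [mem_sdiff, mem_hubr] at hv
  rw [mem_sdiff]
  exact ⟨mem_univ _, fun h => hv.2 ⟨hv.1, h⟩⟩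

theorem hubr_card_ge (hG : QR G) (hn : Big (Fintype.card V)) (hs : S3 G g) :
    96 / 100 * hh V ≤ ((hubr G g).card : ℝ) := by
  have h1 := hub_sdiff_card hG hn hs
  have h2 : ((hub g).card : ℝ) ≤ ((hub g \ hubr G g).card : ℝ) + ((hubr G g).card : ℝ) := by
    have : (hub g).card ≤ (hub g \ hubr G g).card + (hubr G g).card := by
      rw [card_sdiff_add_card]
      exact card_le_card subset_union_left
    exact_mod_cast this
  have h3 := hs.s1
  have h4 := jj_le_hh hn
  have h5 := hh_pos hn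
  nlinarith

/-- a regular vertex has many used edges to regular hubs -/
theorem nb_hubr_ge (hG : QR G) (hn : Big (Fintype.card V)) (hs : S3 G g) {v : V}
    (hv : v ∈ reg G g) : 45 / 100 * hh V ≤ ((nb g v ∩ hubr G g).card : ℝ) := by
  have h1 := hub_sdiff_card hG hn hs
  have h2 := (mem_reg.1 hv).1
  have h3 := (mem_reg.1 hv).2
  have h4 : gn G v ∩ hub g ⊆ (nb g v ∩ hubr G g) ∪ bad G g v ∪ (hub g \ hubr G g) := by
    intro w hw
    have h5 := gn_hub_sub v hw
    rw [mem_inter] at hw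
    rw [mem_union, mem_union, mem_inter, mem_sdiff]
    rw [mem_union] at h5
    by_cases h6 : w ∈ hubr G g
    · rcases h5 with h5 | h5
      · exact Or.inl (Or.inl ⟨h5, h6⟩)
      · exact Or.inl (Or.inr h5)
    · exact Or.inr ⟨hw.2, h6⟩
  have h5 : ((gn G v ∩ hub g).card : ℝ) ≤ ((nb g v ∩ hubr G g).card : ℝ) +
      ((bad G g v).card : ℝ) + ((hub g \ hubr G g).card : ℝ) := by
    have h6 := card_le_card h4
    have h7 := card_union_le ((nb g v ∩ hubr G g) ∪ bad G g v) (hub g \ hubr G g)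
    have h8 := card_union_le (nb g v ∩ hubr G g) (bad G g v)
    have h9 : (gn G v ∩ hub g).card ≤ (nb g v ∩ hubr G g).card + (bad G g v).card +
      (hub g \ hubr G g).card := by omega
    exact_mod_cast h9
  have h6 := hs.s1
  have h7 := jj_le_hh hn
  have h8 := rr_le_hh hn
  have h9 := hh_pos hn
  have h10 := rr_pos hn
  nlinarith

/-- a regular vertex that is no hub has few used edges -/
theorem nb_card_le (hg : IsSys G g) (hn : Big (Fintype.card V)) (hs : S3 G g) {v : V}
    (hv : v ∈ reg G g) (hv' : v ∉ hub g) : ((nb g v).card : ℝ) ≤ 12 / 10 * hh V := by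
  have h1 := (card_le_card (nb_sub_of_not_hub hg hv')).trans (card_union_le _ _)
  have h2 : (gn G v ∩ hub g).card ≤ (hub g).card := card_le_card inter_subset_right
  have h3 : ((nb g v).card : ℝ) ≤ ((hub g).card : ℝ) + ((bad G g v).card : ℝ) := by
    have : (nb g v).card ≤ (hub g).card + (bad G g v).card := by omega
    exact_mod_cast this
  have h4 := hs.s2
  have h5 := reg_bad hv
  have h6 := rr_le_hh hn
  have h7 := hh_pos hn
  nlinarith

end facts

end

end Det

end CEB
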