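import Pool.Agent.Work.MP_ceb7a8_co.DiscCor

/-!
A small set of vertices which meets every common neighbourhood (helper25).
-/

namespace Pool.Agent.Work.MP_ceb7a8_co

open Finset

open Classical in
theorem sum_codgr {V : Type*} [Fintype V] (G : SimpleGraph V) (M : Finset (V × V)) :
    ∑ z : V, (M.filter fun q => G.Adj q.1 z ∧ G.Adj q.2 z).card =
      ∑ q ∈ M, codgr G q.1 q.2 univ := by
  unfold codgr
  simp only [card_filter]
  rw [sum_comm]

open Classical in
theorem exists_dom {V : Type*} [Fintype V] (G : SimpleGraph V) (M : Finset (V × V))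
    (hM : ∀ q ∈ M, (Fintype.card V : ℝ) / 5 ≤ codgr G q.1 q.2 univ) (hn : 0 < Fintype.card V) :
    ∃ z : V, (M.card : ℝ) / 5 ≤ (M.filter fun q => G.Adj q.1 z ∧ G.Adj q.2 z).card := by
  by_contra h
  push Not at h
  have h1 : (∑ z : V, ((M.filter fun q => G.Adj q.1 z ∧ G.Adj q.2 z).card : ℝ)) <
      ∑ z : V, (M.card : ℝ) / 5 :=
    sum_lt_sum_of_nonempty (card_pos.1 hn) (fun z _ => h z)
  have h2 : (∑ z : V, ((M.filter fun q => G.Adj q.1 z ∧ G.Adj q.2 z).card : ℝ)) =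
      ∑ q ∈ M, (codgr G q.1 q.2 univ : ℝ) := by exact_mod_cast sum_codgr G M
  have h3 := sum_le_sum hM
  rw [sum_const, nsmul_eq_mul] at h3
  rw [h2, sum_const, card_univ, nsmul_eq_mul] at h1
  have h4 : (M.card : ℝ) * ((Fintype.card V : ℝ) / 5) = Fintype.card V * (M.card / 5) := by ring
  linarith

open Classical in
theorem greedy_dom {V : Type*} [Fintype V] (G : SimpleGraph V) (M : Finset (V × V))
    (hM : ∀ q ∈ M, (Fintype.card V : ℝ) / 5 ≤ codgr G q.1 q.2 univ) (hn : 0 < Fintype.card V)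
    (t : ℕ) : ∃ R : Finset V, R.card ≤ t ∧
      ((M.filter fun q => ∀ z ∈ R, ¬ (G.Adj q.1 z ∧ G.Adj q.2 z)).card : ℝ) ≤
        (4 / 5) ^ t * M.card := by
  induction t with
  | zero =>
    refine ⟨∅, le_rfl, ?_⟩
    rw [pow_zero, one_mul]
    exact_mod_cast card_filter_le _ _
  | succ t ih =>
    obtain ⟨R, hR, h1⟩ := ih
    obtain ⟨z, hz⟩ := exists_dom G (M.filter fun q => ∀ z ∈ R, ¬ (G.Adj q.1 z ∧ G.Adj q.2 z))
      (fun q hq => hM q (mem_filter.1 hq).1) hn
    refine ⟨insert z R, (card_insert_le _ _).trans (by omega), ?_⟩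
    have h2 : (M.filter fun q => ∀ w ∈ insert z R, ¬ (G.Adj q.1 w ∧ G.Adj q.2 w)) =
        (M.filter fun q => ∀ z ∈ R, ¬ (G.Adj q.1 z ∧ G.Adj q.2 z)).filter
          (fun q => ¬ (G.Adj q.1 z ∧ G.Adj q.2 z)) := by
      ext q
      simp only [mem_filter, mem_insert, forall_eq_or_imp]
      tauto
    have h3 := card_filter_add_card_filter_not
      (s := M.filter fun q => ∀ z ∈ R, ¬ (G.Adj q.1 z ∧ G.Adj q.2 z))
      (fun q => G.Adj q.1 z ∧ G.Adj q.2 z)
    rw [h2]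
    have h4 : (((M.filter fun q => ∀ z ∈ R, ¬ (G.Adj q.1 z ∧ G.Adj q.2 z)).filter
        (fun q => G.Adj q.1 z ∧ G.Adj q.2 z)).card : ℝ) +
        (((M.filter fun q => ∀ z ∈ R, ¬ (G.Adj q.1 z ∧ G.Adj q.2 z)).filter
        (fun q => ¬ (G.Adj q.1 z ∧ G.Adj q.2 z))).card : ℝ) =
        ((M.filter fun q => ∀ z ∈ R, ¬ (G.Adj q.1 z ∧ G.Adj q.2 z)).card : ℝ) := by
      exact_mod_cast h3
    rw [pow_succ]
    linarith

/-- domination: a set of at most `20 log n` vertices which meets all common neighbourhoods -/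
theorem domination {V : Type*} [Fintype V] (hn : 2 ≤ Fintype.card V) (G : SimpleGraph V)
    (h : ∀ u v : V, u ≠ v → (Fintype.card V : ℝ) / 5 ≤ codgr G u v univ) :
    ∃ R : Finset V, (R.card : ℝ) ≤ 20 * Real.log (Fintype.card V) ∧
      ∀ u v : V, u ≠ v → ∃ z ∈ R, G.Adj u z ∧ G.Adj v z := by
  classical
  obtain ⟨n, hN⟩ : ∃ n : ℝ, n = Fintype.card V := ⟨_, rfl⟩
  have hn0 : (2 : ℝ) ≤ n := by rw [hN]; exact_mod_cast hn
  have hlog : 1 / 2 ≤ Real.log n := by
    have h1 := Real.log_le_log (by norm_num) hn0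
    have h2 := Real.log_two_gt_d9
    linarith
  rw [← hN] at h ⊢
  obtain ⟨R, hR, h1⟩ := greedy_dom G ((univ : Finset (V × V)).filter fun q => q.1 ≠ q.2)
    (fun q hq => hN ▸ h q.1 q.2 (mem_filter.1 hq).2) (by omega) (⌊10 * Real.log n⌋₊ + 1)
  refine ⟨R, ?_, ?_⟩
  · have h2 : (R.card : ℝ) ≤ (⌊10 * Real.log n⌋₊ : ℝ) + 1 := by exact_mod_cast hR
    have h3 := Nat.floor_le (show 0 ≤ 10 * Real.log n by linarith)
    linarith
  · intro u v huv
    by_contra h2
    push Not at h2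
    have h3 : 1 ≤ (((univ : Finset (V × V)).filter fun q => q.1 ≠ q.2).filter
        fun q => ∀ z ∈ R, ¬ (G.Adj q.1 z ∧ G.Adj q.2 z)).card := by
      refine card_pos.2 ⟨(u, v), ?_⟩
      rw [mem_filter, mem_filter]
      exact ⟨⟨mem_univ _, huv⟩, fun z hz hh => h2 z hz hh.1 hh.2⟩
    have h4 : (1 : ℝ) ≤ (((univ : Finset (V × V)).filter fun q => q.1 ≠ q.2).filter
        fun q => ∀ z ∈ R, ¬ (G.Adj q.1 z ∧ G.Adj q.2 z)).card := by exact_mod_cast h3
    have h5 : ((((univ : Finset (V × V)).filter fun q => q.1 ≠ q.2).card : ℕ) : ℝ) ≤ n ^ 2 := by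
      have h6 : ((univ : Finset (V × V)).filter fun q => q.1 ≠ q.2).card ≤ Fintype.card V ^ 2 := by
        refine (card_filter_le _ _).trans (le_of_eq ?_)
        rw [card_univ, Fintype.card_prod, sq]
      rw [hN]
      exact_mod_cast h6
    have h6 : ((4 : ℝ) / 5) ^ (⌊10 * Real.log n⌋₊ + 1) * n ^ 2 < 1 := by
      have h7 : ((4 : ℝ) / 5) ≤ Real.exp (-(1 / 5)) := by
        have := Real.add_one_le_exp (-(1 / 5 : ℝ))
        linarith
      have h8 : ((4 : ℝ) / 5) ^ (⌊10 * Real.log n⌋₊ + 1) ≤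
          Real.exp (((⌊10 * Real.log n⌋₊ + 1 : ℕ) : ℝ) * (-(1 / 5))) := by
        rw [Real.exp_nat_mul]
        exact pow_le_pow_left₀ (by norm_num) h7 _
      have h9 : n ^ 2 = Real.exp (2 * Real.log n) := by
        rw [mul_comm, Real.exp_mul, Real.exp_log (by linarith)]
        norm_cast
      have h10 : 10 * Real.log n < ((⌊10 * Real.log n⌋₊ + 1 : ℕ) : ℝ) := by
        push_cast
        exact Nat.lt_floor_add_one _
      calc ((4 : ℝ) / 5) ^ (⌊10 * Real.log n⌋₊ + 1) * n ^ 2 ≤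
            Real.exp (((⌊10 * Real.log n⌋₊ + 1 : ℕ) : ℝ) * (-(1 / 5))) *
              Real.exp (2 * Real.log n) := by
            rw [h9]
            exact mul_le_mul_of_nonneg_right h8 (Real.exp_pos _).le
        _ = Real.exp (((⌊10 * Real.log n⌋₊ + 1 : ℕ) : ℝ) * (-(1 / 5)) + 2 * Real.log n) := by
            rw [Real.exp_add]
        _ < 1 := by
            rw [Real.exp_lt_one_iff]
            linarith
    have h7 := mul_le_mul_of_nonneg_left h5
      (show (0 : ℝ) ≤ (4 / 5) ^ (⌊10 * Real.log n⌋₊ + 1) by positivity)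
    linarith

end Pool.Agent.Work.MP_ceb7a8_co
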