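import Pool.Agent.Work.MP_ceb7a8_co.Sys

/-!
Parameters, quasi-random graphs, and the structure of a typical path system.
Everything is stated for an arbitrary finite vertex type V (later V = Fin n or a set of vertices).
-/

namespace CEB

open Finset

noncomputable section

/-- n is astronomically large. -/
def Big (n : ℕ) : Prop := (10 : ℝ) ^ 100 ≤ Real.log n

/-- the constants -/
def eta : ℝ := 1 / 10 ^ 6
def kap : ℝ := 5 / 10 ^ 6
def sig : ℝ := 1 / 10 ^ 7

section par

variable (V : Type*) [Fintype V]

/-- number of vertices, as a real number -/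
def nn : ℝ := Fintype.card V

/-- its logarithm -/
def LL : ℝ := Real.log (nn V)

/-- n / log n, the number of hubs -/
def hh : ℝ := nn V / LL V

/-- the bound for the number of exceptional vertices -/
def jj : ℝ := 3 * nn V ^ (1 - sig / 2)

end par

section graph

variable {V : Type*} [Fintype V]

open Classical in
/-- G-neighbours of v -/
def gn (G : SimpleGraph V) (v : V) : Finset V := univ.filter fun w => G.Adj v w

open Classical in
/-- number of adjacent pairs in S x T -/
def eS (G : SimpleGraph V) (S T : Finset V) : ℕ :=
  ((S ×ˢ T).filter fun q => G.Adj q.1 q.2).card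

open Classical in
/-- quasi-random graphs -/
structure QR (G : SimpleGraph V) : Prop where
  q1 : ∀ S T : Finset V,
    |(eS G S T : ℝ) - (S.card : ℝ) * T.card / 2| ≤ 4 * Real.sqrt (nn V * (S.card * T.card))
  q2 : ∀ v, |((gn G v).card : ℝ) - nn V / 2| ≤ eta * nn V
  q3 : ∀ u v, u ≠ v → |((gn G u ∩ gn G v).card : ℝ) - nn V / 4| ≤ eta * nn V

/-- codegrees, for any decidable equality -/
theorem QR.q3d [inst : DecidableEq V] {G : SimpleGraph V} (hG : QR G) {u v : V} (huv : u ≠ v) :
    |((gn G u ∩ gn G v).card : ℝ) - nn V / 4| ≤ eta * nn V := by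
  have h := hG.q3 u v huv
  have e : inst = fun a b => Classical.propDecidable (a = b) := Subsingleton.elim _ _
  subst e
  exact h

/-- the vertices outside A, as a type (with one fixed Fintype instance) -/
def Out (A : Finset V) : Type _ := {x : V // x ∉ A}

instance (A : Finset V) : Finite (Out A) := inferInstanceAs (Finite {x : V // x ∉ A})

instance (A : Finset V) : Fintype (Out A) := Fintype.ofFinite _

/-- the induced graph outside A -/
def ind (G : SimpleGraph V) (A : Finset V) : SimpleGraph (Out A) where
  Adj x y := G.Adj x.1 y.1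
  symm := ⟨fun _ _ h => h.symm⟩
  loopless := ⟨fun x h => G.loopless.irrefl x.1 h⟩

/-- pairs of adjacent vertices that meet W -/
def InE (G : SimpleGraph V) (W : Finset V) (u v : V) : Prop := G.Adj u v ∧ (u ∈ W ∨ v ∈ W)

end graph

section sys

variable {V : Type*} [Fintype V]

open Classical in
/-- all consistent path systems of G -/
def PS (G : SimpleGraph V) : Finset (V → V → V) := univ.filter fun g => IsSys G g

open Classical in
/-- used neighbours -/
def nb (g : V → V → V) (u : V) : Finset V := univ.filter fun v => Used g u v

open Classical in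
/-- the class C_y(x): the vertices u whose path to y starts with x -/
def cl (g : V → V → V) (y x : V) : Finset V := univ.filter fun u => u ≠ y ∧ g u y = x

open Classical in
/-- the hubs -/
def hub (g : V → V → V) : Finset V := univ.filter fun z => 9 / 20 * nn V ≤ ((nb g z).card : ℝ)

/-- bad pairs: unused graph edges at a hub, and other pairs that are not maximal 2-paths -/
def BadP (G : SimpleGraph V) (g : V → V → V) (u v : V) : Prop :=
  u ≠ v ∧ ((InE G (hub g) u v ∧ ¬ Used g u v) ∨ (¬ InE G (hub g) u v ∧ ¬ Q g u v))

open Classical in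
/-- the bad neighbours of a vertex -/
def bad (G : SimpleGraph V) (g : V → V → V) (u : V) : Finset V := univ.filter fun v => BadP G g u v

open Classical in
/-- vertices with a large class c_y(x), x not y -/
def thick (g : V → V → V) : Finset V :=
  univ.filter fun y => ∃ x, x ≠ y ∧ nn V ^ (1 - sig / 2) < ((cl g y x).card : ℝ)

open Classical in
/-- the typical structure -/
structure Struct (G : SimpleGraph V) (g : V → V → V) : Prop where
  s1 : 97 / 100 * hh V ≤ ((hub g).card : ℝ)
  s2 : ((hub g).card : ℝ) ≤ 115 / 100 * hh V
  s3 : ((∑ u, (bad G g u).card : ℕ) : ℝ) ≤ 2 * nn V ^ (2 - sig)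
  s4 : ((thick g).card : ℝ) ≤ nn V ^ (1 - sig / 2)

open Classical in
/-- regular vertices -/
def reg (G : SimpleGraph V) (g : V → V → V) : Finset V :=
  univ.filter fun v => ((bad G g v).card : ℝ) ≤ nn V ^ (1 - sig / 2) ∧
    49 / 100 * ((hub g).card : ℝ) ≤ ((gn G v ∩ hub g).card : ℝ)

open Classical in
/-- regular hubs -/
def hubr (G : SimpleGraph V) (g : V → V → V) : Finset V := hub g ∩ reg G g

open Classical in
/-- the only kind of closed set that has to be treated by counting: a small set without regular
hubs, all of whose vertices have few used edges to regular hubs -/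
def Poor (G : SimpleGraph V) (g : V → V → V) (A : Finset V) : Prop :=
  A.Nonempty ∧ ((A.card : ℝ) ≤ jj V) ∧ Closed g (A : Set V) ∧ Closed g ((A : Set V)ᶜ) ∧
    (∀ z ∈ hubr G g, z ∉ A) ∧
    ∀ v ∈ A, ((nb g v ∩ hubr G g).card : ℝ) < 1 / 100 * hh V

end sys

end

end CEB
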