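import Mathlib
import Pool.Agent.Work.MP_ceb7a8_co.Kraft

/-!
Cost of the set choices in the path system count (MP_ceb7a8_co): sums over subsets and
over partial label functions with few labels in every column.
-/

open Finset

namespace CEB

set_option linter.unusedSectionVars false

variable {V : Type*} [Fintype V] [DecidableEq V]

theorem sum_biUnion_le_sum {α β : Type*} [DecidableEq β] (s : Finset α)
    (t : α → Finset β) (f : β → ℝ) (hf : ∀ x, 0 ≤ f x) :
    ∑ x ∈ s.biUnion t, f x ≤ ∑ i ∈ s, ∑ x ∈ t i, f x := by
  classical
  induction s using Finset.induction_on with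
  | empty => simp
  | insert a s ha ih =>
    rw [biUnion_insert, sum_insert ha]
    have h := sum_union_inter (s₁ := t a) (s₂ := s.biUnion t) (f := f)
    have h2 : 0 ≤ ∑ x ∈ t a ∩ s.biUnion t, f x := sum_nonneg fun x _ => hf x
    linarith

/-- The number of subsets with at most m elements is at most (n+1)^m. -/
theorem card_small_subsets (m : ℕ) :
    ((univ : Finset (Finset V)).filter (fun X => X.card ≤ m)).card
      ≤ (Fintype.card V + 1) ^ m := by
  classical
  have h : ((univ : Finset (Finset V)).filter (fun X => X.card ≤ m))
      ⊆ (univ : Finset (Fin m → Option V)).image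
        (fun f => univ.filter (fun x => ∃ i, f i = some x)) := by
    intro X hX
    simp only [mem_filter, mem_univ, true_and] at hX
    simp only [mem_image, mem_univ, true_and]
    -- enumerate X
    refine ⟨fun i => if h : (i : ℕ) < X.card then
      some ((X.equivFin.symm ⟨i, h⟩ : X) : V) else none, ?_⟩
    ext x
    simp only [mem_filter, mem_univ, true_and]
    constructor
    · rintro ⟨i, hi⟩
      split_ifs at hi with h1
      simp only [Option.some.injEq] at hi
      rw [← hi]
      exact (X.equivFin.symm ⟨i, h1⟩).2
    · intro hx
      have hlt : ((X.equivFin ⟨x, hx⟩ : Fin X.card) : ℕ) < X.card := (X.equivFin ⟨x, hx⟩).2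
      refine ⟨⟨(X.equivFin ⟨x, hx⟩ : Fin X.card), lt_of_lt_of_le hlt hX⟩, ?_⟩
      rw [dif_pos hlt]
      simp
  refine (card_le_card h).trans (card_image_le.trans ?_)
  simp [Fintype.card_option]

/-- The number of partial label assignments weights: `K(om)` is the number of ordered
pairs at which om is defined. -/
noncomputable def Kom (om : V → V → Option V) : ℕ :=
  (univ.filter (fun p : V × V => om p.1 p.2 ≠ none)).card

/-- the label set of column y -/
noncomputable def labels (om : V → V → Option V) (y : V) : Finset V :=
  univ.filter (fun x => ∃ u, om u y = some x)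

theorem pow_Kom (om : V → V → Option V) (q : ℝ) :
    q ^ Kom om = ∏ u : V, ∏ y : V, (if om u y = none then 1 else q) := by
  classical
  rw [← Fintype.prod_prod_type' (f := fun u y => if om u y = none then (1:ℝ) else q)]
  rw [Kom, ← prod_const, prod_filter]
  refine prod_congr rfl fun p _ => ?_
  by_cases h : om p.1 p.2 = none <;> simp [h]

/-- For fixed label lists X the weighted number of label functions. -/
theorem sum_fixed_lists (X : V → Finset V) (q : ℝ) :
    ∑ om ∈ Fintype.piFinset (fun _ : V => Fintype.piFinset
        (fun y : V => insert none ((X y).image some))), q ^ Kom om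
      = ∏ _u : V, ∏ y : V, (1 + (X y).card * q) := by
  classical
  have h1 : ∀ om ∈ Fintype.piFinset (fun _ : V => Fintype.piFinset
        (fun y : V => insert none ((X y).image some))),
      q ^ Kom om = ∏ u : V, ∏ y : V, (if om u y = none then (1:ℝ) else q) :=
    fun om _ => pow_Kom om q
  rw [sum_congr rfl h1]
  rw [← prod_univ_sum (t := fun _ : V => Fintype.piFinset
        (fun y : V => insert none ((X y).image some)))
        (f := fun _ (g : V → Option V) => ∏ y : V, (if g y = none then (1:ℝ) else q))]
  refine prod_congr rfl fun u _ => ?_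
  rw [← prod_univ_sum (t := fun y : V => insert none ((X y).image some))
        (f := fun _ (o : Option V) => (if o = none then (1:ℝ) else q))]
  refine prod_congr rfl fun y _ => ?_
  rw [sum_insert (by simp)]
  simp only [if_true]
  rw [sum_image (by intro a _ b _ h; exact Option.some_injective _ h)]
  simp

/-- Cost of the label function: at most m labels in every column. -/
theorem sum_labels_le (m : ℕ) (q : ℝ) (hq : 0 ≤ q) :
    ∑ om ∈ (univ : Finset (V → V → Option V)).filter (fun om => ∀ y, (labels om y).card ≤ m),
      q ^ Kom om ≤ ((Fintype.card V : ℝ) + 1) ^ (Fintype.card V * m) *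
        Real.exp (q * m * (Fintype.card V : ℝ) ^ 2) := by
  classical
  set n := Fintype.card V with hn
  -- lists
  set LL : Finset (V → Finset V) := Fintype.piFinset (fun _ : V =>
    (univ : Finset (Finset V)).filter (fun X => X.card ≤ m)) with hLL
  have hsub : (univ : Finset (V → V → Option V)).filter (fun om => ∀ y, (labels om y).card ≤ m)
      ⊆ LL.biUnion (fun X => Fintype.piFinset (fun _ : V => Fintype.piFinset
        (fun y : V => insert none ((X y).image some)))) := by
    intro om hom
    simp only [mem_filter, mem_univ, true_and] at hom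
    rw [mem_biUnion]
    refine ⟨fun y => labels om y, ?_, ?_⟩
    · rw [hLL, Fintype.mem_piFinset]
      intro y
      simpa using hom y
    · rw [Fintype.mem_piFinset]
      intro u
      rw [Fintype.mem_piFinset]
      intro y
      rw [mem_insert]
      rcases h : om u y with _ | x
      · left; rfl
      · right
        rw [mem_image]
        exact ⟨x, by simp only [labels, mem_filter, mem_univ, true_and]; exact ⟨u, h⟩, rfl⟩
  have hnn : ∀ om : V → V → Option V, 0 ≤ q ^ Kom om := fun om => pow_nonneg hq _
  calc ∑ om ∈ (univ : Finset (V → V → Option V)).filter (fun om => ∀ y, (labels om y).card ≤ m),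
        q ^ Kom om
      ≤ ∑ om ∈ LL.biUnion (fun X => Fintype.piFinset (fun _ : V => Fintype.piFinset
        (fun y : V => insert none ((X y).image some)))), q ^ Kom om :=
        sum_le_sum_of_subset_of_nonneg hsub fun om _ _ => hnn om
    _ ≤ ∑ X ∈ LL, ∑ om ∈ Fintype.piFinset (fun _ : V => Fintype.piFinset
        (fun y : V => insert none ((X y).image some))), q ^ Kom om := by
        exact sum_biUnion_le_sum _ _ _ hnn
    _ = ∑ X ∈ LL, ∏ _u : V, ∏ y : V, (1 + (X y).card * q) :=
        sum_congr rfl fun X _ => sum_fixed_lists X q
    _ ≤ ∑ X ∈ LL, Real.exp (q * m * (n : ℝ) ^ 2) := by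
        refine sum_le_sum fun X hX => ?_
        rw [hLL, Fintype.mem_piFinset] at hX
        have h1 : ∀ y : V, (1 + (X y).card * q) ≤ Real.exp (q * m) := by
          intro y
          have h2 : (X y).card ≤ m := by simpa using hX y
          have h3 : ((X y).card : ℝ) ≤ m := by exact_mod_cast h2
          have h4 : q * m + 1 ≤ Real.exp (q * m) := Real.add_one_le_exp _
          nlinarith
        have h5 : ∀ y : V, 0 ≤ (1 + (X y).card * q) := fun y => by positivity
        calc ∏ _u : V, ∏ y : V, (1 + (X y).card * q)
            ≤ ∏ _u : V, ∏ _y : V, Real.exp (q * m) := by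
              refine prod_le_prod (fun u _ => prod_nonneg fun y _ => h5 y) fun u _ => ?_
              exact prod_le_prod (fun y _ => h5 y) fun y _ => h1 y
          _ = Real.exp (q * m * (n : ℝ) ^ 2) := by
              simp only [prod_const, card_univ, ← hn]
              rw [← Real.exp_nat_mul, ← Real.exp_nat_mul]
              congr 1
              ring
    _ = LL.card * Real.exp (q * m * (n : ℝ) ^ 2) := by
        rw [sum_const, nsmul_eq_mul]
    _ ≤ ((n : ℝ) + 1) ^ (n * m) * Real.exp (q * m * (n : ℝ) ^ 2) := by
        apply mul_le_mul_of_nonneg_right _ (Real.exp_pos _).le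
        have h1 : LL.card ≤ ((n + 1) ^ m) ^ n := by
          rw [hLL, Fintype.card_piFinset]
          simp only [prod_const, card_univ, ← hn]
          exact Nat.pow_le_pow_left (card_small_subsets m) n
        have h2 : (LL.card : ℝ) ≤ (((n + 1) ^ m) ^ n : ℕ) := by exact_mod_cast h1
        refine h2.trans (le_of_eq ?_)
        push_cast
        rw [← pow_mul, mul_comm m n]

end CEB
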