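import Mathlib
import Pool.Agent.Work.MP_ceb7a8_co.Enc
import Pool.Agent.Work.MP_ceb7a8_co.SetChoice
import Pool.Agent.Work.MP_ceb7a8_co.Par

/-!
Counting theorem (note 2443, Theorem 2) and the master inequality.
-/

open Finset

namespace CEB

noncomputable section

open scoped Classical

variable {V : Type*} [Fintype V] [LinearOrder V]

/-- Number of systems with fixed data. -/
theorem kraft_data {G : SimpleGraph V} {θ p : ℝ} (hθ : 0 < θ) (hp0 : 0 < p) (hp1 : p ≤ 1 / 2)
    (A : Finset (V → V → V)) (hA : ∀ g ∈ A, IsSys G g) (Λ : Finset (V × V))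
    (hdata : ∀ g ∈ A, ∀ g' ∈ A, usedP g = usedP g' ∧ om g θ = om g' θ ∧
      ∀ q ∈ restP g θ, g q.1 q.2 = g' q.1 q.2 ∧ g q.2 q.1 = g' q.2 q.1)
    (hΛ : ∀ g ∈ A, lightP g θ = Λ) :
    (A.card : ℝ) ≤ (p ^ Λ.card)⁻¹ * Real.exp (4 * p * θ * (Fintype.card V : ℝ) ^ 2) := by
  have h := kraft_exp A (fun g => OpenT g θ) (fun g => CandT g θ \ OpenT g θ) p hp0 hp1
    (fun g _ => disjoint_sdiff) ?_ Λ.card (2 * θ * (Fintype.card V : ℝ) ^ 2) ?_ ?_
  · refine h.trans (le_of_eq ?_)
    congr 2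
    ring
  · intro g hg g' hg' hne
    obtain ⟨h1, h2, h3⟩ := hdata g hg g' hg'
    exact conflict (hA g hg) (hA g' hg') h1 h2 ((hΛ g hg).trans (hΛ g' hg').symm) h3 hne
  · intro g hg
    rw [openT_card, hΛ g hg]
  · intro g hg
    refine le_trans ?_ (candT_card g θ hθ)
    exact_mod_cast card_le_card sdiff_subset

theorem sum_wt_le (HP : Finset (V × V)) (ω : V → V → Option V) (u v : V) {s : ℝ} (hs : 1 ≤ s) :
    ∑ o ∈ optF HP ω u v, wt s o ≤ kk HP u v + s * tt ω u v := by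
  have hsub : optF HP ω u v ⊆
      (univ.filter (fun o : V × V => o.1 = o.2 ∧ Hs HP u o.1 ∧ Hs HP v o.1)) ∪
      (univ.filter (fun o : V × V => ω u o.2 = some o.1 ∧ ω v o.1 = some o.2)) := by
    intro o ho
    simp only [optF, mem_filter, mem_univ, true_and] at ho
    simp only [mem_union, mem_filter, mem_univ, true_and]
    exact ho
  have hnn : ∀ o : V × V, 0 ≤ wt s o := by
    intro o; unfold wt; split_ifs <;> linarith
  have hle : ∀ o : V × V, wt s o ≤ s := by
    intro o; unfold wt; split_ifs <;> linarith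
  have h1 : ∑ o ∈ optF HP ω u v, wt s o ≤
      ∑ o ∈ (univ.filter (fun o : V × V => o.1 = o.2 ∧ Hs HP u o.1 ∧ Hs HP v o.1)) ∪
        (univ.filter (fun o : V × V => ω u o.2 = some o.1 ∧ ω v o.1 = some o.2)), wt s o :=
    sum_le_sum_of_subset_of_nonneg hsub fun o _ _ => hnn o
  have h2 := sum_union_inter
    (s₁ := univ.filter (fun o : V × V => o.1 = o.2 ∧ Hs HP u o.1 ∧ Hs HP v o.1))
    (s₂ := univ.filter (fun o : V × V => ω u o.2 = some o.1 ∧ ω v o.1 = some o.2)) (f := wt s)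
  have h3 : 0 ≤ ∑ o ∈ (univ.filter (fun o : V × V => o.1 = o.2 ∧ Hs HP u o.1 ∧ Hs HP v o.1)) ∩
      (univ.filter (fun o : V × V => ω u o.2 = some o.1 ∧ ω v o.1 = some o.2)), wt s o :=
    sum_nonneg fun o _ => hnn o
  have h4 : ∑ o ∈ univ.filter (fun o : V × V => o.1 = o.2 ∧ Hs HP u o.1 ∧ Hs HP v o.1), wt s o
      = kk HP u v := by
    have h5 : ∀ o ∈ univ.filter (fun o : V × V => o.1 = o.2 ∧ Hs HP u o.1 ∧ Hs HP v o.1),
        wt s o = 1 := by
      intro o ho
      simp only [mem_filter, mem_univ, true_and] at ho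
      unfold wt
      rw [if_pos ho.1]
    rw [sum_congr rfl h5, sum_const, nsmul_eq_mul, mul_one]
    norm_cast
    unfold kk
    symm
    apply card_bij (fun z _ => (z, z))
    · intro z hz
      simp only [mem_filter, mem_univ, true_and] at hz ⊢
      exact hz
    · intro z _ z' _ h
      exact (Prod.mk.inj h).1
    · rintro ⟨a, b⟩ ho
      simp only [mem_filter, mem_univ, true_and] at ho
      obtain ⟨hab, h6, h7⟩ := ho
      subst hab
      exact ⟨a, by simp only [mem_filter, mem_univ, true_and]; exact ⟨h6, h7⟩, rfl⟩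
  have h5 : ∑ o ∈ univ.filter (fun o : V × V => ω u o.2 = some o.1 ∧ ω v o.1 = some o.2), wt s o
      ≤ s * tt ω u v := by
    calc _ ≤ ∑ o ∈ univ.filter (fun o : V × V => ω u o.2 = some o.1 ∧ ω v o.1 = some o.2), s :=
          sum_le_sum fun o _ => hle o
      _ = s * tt ω u v := by
          rw [sum_const, nsmul_eq_mul, mul_comm]
          rfl
  linarith

/-- Theorem 2 (fixed used edges, labels, light pairs). -/
theorem enc_fiber_bound {G : SimpleGraph V} {θ p s : ℝ} (hθ : 0 < θ) (hp0 : 0 < p) (hp1 : p ≤ 1 / 2)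
    (hs : 1 ≤ s) (A : Finset (V → V → V)) (hA : ∀ g ∈ A, IsSys G g)
    (HP Λ : Finset (V × V)) (ω : V → V → Option V)
    (h1 : ∀ g ∈ A, usedP g = HP) (h2 : ∀ g ∈ A, om g θ = ω) (h3 : ∀ g ∈ A, lightP g θ = Λ) :
    ∑ g ∈ A, s ^ eta2 g θ ≤ (p ^ Λ.card)⁻¹ * Real.exp (4 * p * θ * (Fintype.card V : ℝ) ^ 2) *
      ∏ r ∈ prs V \ (HP ∪ wastedP ω ∪ Λ), (kk HP r.1 r.2 + s * tt ω r.1 r.2) := by
  set R : Finset (V × V) := prs V \ (HP ∪ wastedP ω ∪ Λ) with hR
  have hRg : ∀ g ∈ A, restP g θ = R := by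
    intro g hg
    unfold restP
    rw [h1 g hg, h2 g hg, h3 g hg]
  set T : (V → V → V) → (V × V → V × V) := fun g r =>
    if r ∈ R then (g r.1 r.2, g r.2 r.1) else r with hT
  set Sx : V × V → Finset (V × V) := fun r => if r ∈ R then optF HP ω r.1 r.2 else {r} with hSx
  set wx : V × V → V × V → ℝ := fun r o => if r ∈ R then wt s o else 1 with hwx
  have hs0 : 0 ≤ s := by linarith
  have hwnn : ∀ r o, 0 ≤ wx r o := by
    intro r o
    simp only [hwx]
    unfold wt
    split_ifs <;> linarith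
  have hmaps : ∀ g ∈ A, T g ∈ Fintype.piFinset Sx := by
    intro g hg
    rw [Fintype.mem_piFinset]
    intro r
    simp only [hT, hSx]
    split_ifs with hr
    · rw [← hRg g hg] at hr
      have := rest_type (hA g hg) hθ hr
      rw [h1 g hg, h2 g hg] at this
      exact this
    · simp
  have hweight : ∀ g ∈ A, s ^ eta2 g θ = ∏ r : V × V, wx r (T g r) := by
    intro g hg
    unfold eta2
    rw [hRg g hg]
    have h4 : ∀ r : V × V, wx r (T g r) =
        if r ∈ R then (if g r.1 r.2 ≠ g r.2 r.1 then s else 1) else 1 := by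
      intro r
      simp only [hwx, hT]
      split_ifs with hr h5
      · unfold wt
        rw [if_neg h5]
      · unfold wt
        rw [if_pos (not_not.1 h5)]
      · rfl
    rw [prod_congr rfl (fun r _ => h4 r)]
    rw [prod_ite_mem, univ_inter, ← prod_filter, prod_const]
  have hfib : ∑ g ∈ A, s ^ eta2 g θ =
      ∑ τ ∈ Fintype.piFinset Sx, ∑ g ∈ A.filter (fun g => T g = τ), ∏ r : V × V, wx r (T g r) := by
    rw [sum_fiberwise_of_maps_to hmaps]
    exact sum_congr rfl hweight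
  rw [hfib]
  set B : ℝ := (p ^ Λ.card)⁻¹ * Real.exp (4 * p * θ * (Fintype.card V : ℝ) ^ 2) with hB
  have hB0 : 0 ≤ B := by positivity
  have hτ : ∀ τ ∈ Fintype.piFinset Sx,
      ∑ g ∈ A.filter (fun g => T g = τ), ∏ r : V × V, wx r (T g r) ≤
        B * ∏ r : V × V, wx r (τ r) := by
    intro τ _
    have h4 : ∀ g ∈ A.filter (fun g => T g = τ), ∏ r : V × V, wx r (T g r) =
        ∏ r : V × V, wx r (τ r) := by
      intro g hg
      rw [(mem_filter.1 hg).2]
    rw [sum_congr rfl h4, sum_const, nsmul_eq_mul]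
    apply mul_le_mul_of_nonneg_right _ (prod_nonneg fun r _ => hwnn r _)
    apply kraft_data hθ hp0 hp1 (G := G)
    · intro g hg
      exact hA g (mem_filter.1 hg).1
    · intro g hg g' hg'
      rw [mem_filter] at hg hg'
      refine ⟨(h1 g hg.1).trans (h1 g' hg'.1).symm, (h2 g hg.1).trans (h2 g' hg'.1).symm, ?_⟩
      intro q hq
      rw [hRg g hg.1] at hq
      have h5 : T g q = T g' q := by rw [hg.2, hg'.2]
      simp only [hT, if_pos hq] at h5
      exact Prod.mk.inj h5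
    · intro g hg
      exact h3 g (mem_filter.1 hg).1
  refine (sum_le_sum hτ).trans ?_
  rw [← mul_sum]
  apply mul_le_mul_of_nonneg_left _ hB0
  rw [← prod_univ_sum]
  have h4 : ∀ r : V × V, ∑ o ∈ Sx r, wx r o ≤
      if r ∈ R then ((kk HP r.1 r.2 : ℝ) + s * tt ω r.1 r.2) else 1 := by
    intro r
    simp only [hSx, hwx]
    split_ifs with hr
    · exact sum_wt_le HP ω r.1 r.2 hs
    · simp
  calc ∏ r : V × V, ∑ o ∈ Sx r, wx r o ≤
        ∏ r : V × V, (if r ∈ R then ((kk HP r.1 r.2 : ℝ) + s * tt ω r.1 r.2) else 1) := by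
        apply prod_le_prod
        · intro r _
          exact sum_nonneg fun o _ => hwnn r o
        · intro r _
          exact h4 r
    _ = ∏ r ∈ R, ((kk HP r.1 r.2 : ℝ) + s * tt ω r.1 r.2) := by
        rw [prod_ite_mem, univ_inter]

/-! ### The master inequality -/

variable (V) in
/-- The heaviness threshold. -/
def th (κ : ℝ) : ℝ := (nn V) ^ (1 - κ)

/-- Entropy part. -/
def Mfun (κ s : ℝ) (g : V → V → V) : ℝ :=
  (1 - κ / 2) * LL V * (lightP g (th V κ)).card +
    ∑ r ∈ restP g (th V κ), Real.log (kk (usedP g) r.1 r.2 + s * tt (om g (th V κ)) r.1 r.2)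

/-- Cost of the set choices. -/
def cost (κ : ℝ) (HP0 : Finset (V × V)) (g : V → V → V) : ℝ :=
  κ * LL V * (symmDiff (usedP g) HP0).card + 2 * κ * LL V * Kw (om g (th V κ)) +
    κ / 8 * LL V * (lightP g (th V κ)).card

theorem labels_card_mul (g : V → V → V) (θ : ℝ) (y : V) :
    ((labels (om g θ) y).card : ℝ) * θ ≤ Fintype.card V := by
  have h1 : ∀ x ∈ labels (om g θ) y, θ ≤ ((C g y x).card : ℝ) := by
    intro x hx
    simp only [labels, mem_filter, mem_univ, true_and] at hx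
    obtain ⟨u, hu⟩ := hx
    exact (om_eq_some.1 hu).2.2.2
  have h2 : ((labels (om g θ) y).card : ℝ) * θ ≤ ∑ x ∈ labels (om g θ) y, ((C g y x).card : ℝ) := by
    rw [← nsmul_eq_mul]
    exact card_nsmul_le_sum _ _ _ h1
  refine h2.trans ?_
  have h3 : ∑ x ∈ labels (om g θ) y, (C g y x).card ≤ Fintype.card V := by
    rw [← card_biUnion]
    · exact card_le_univ _
    · intro x _ x' _ hne
      rw [Function.onFun, disjoint_left]
      intro u hu hu'
      rw [mem_C] at hu hu'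
      exact hne (hu.2.symm.trans hu'.2)
  exact_mod_cast h3

theorem labels_card_le {κ : ℝ} (g : V → V → V) (y : V) :
    (labels (om g (th V κ)) y).card ≤ ⌊(nn V) ^ κ⌋₊ := by
  have hn : 0 < Fintype.card V := Fintype.card_pos_iff.2 ⟨y⟩
  have hn' : (0 : ℝ) < nn V := by unfold nn; exact_mod_cast hn
  apply Nat.le_floor
  have h1 := labels_card_mul g (th V κ) y
  have hth : 0 < th V κ := Real.rpow_pos_of_pos hn' _
  rw [← le_div_iff₀ hth] at h1
  refine h1.trans (le_of_eq ?_)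
  unfold th
  show nn V / nn V ^ (1 - κ) = nn V ^ κ
  rw [Real.rpow_sub hn', Real.rpow_one]
  have : 0 < nn V ^ κ := Real.rpow_pos_of_pos hn' _
  field_simp

omit [Fintype V] in
theorem sum_symmDiff_le (X HP0 : Finset (V × V)) (h0 : HP0 ⊆ X) (q : ℝ) (hq : 0 ≤ q) :
    ∑ HP ∈ X.powerset, q ^ (symmDiff HP HP0).card ≤ Real.exp (q * X.card) := by
  refine le_trans (le_of_eq ?_) (sum_pow_card_le_exp X q hq)
  refine sum_bij' (fun HP _ => symmDiff HP HP0) (fun HP _ => symmDiff HP HP0) ?_ ?_ ?_ ?_ ?_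
  · intro HP hHP
    rw [mem_powerset] at hHP ⊢
    exact symmDiff_subset_union.trans (union_subset hHP h0)
  · intro HP hHP
    rw [mem_powerset] at hHP ⊢
    exact symmDiff_subset_union.trans (union_subset hHP h0)
  · intro HP _
    exact symmDiff_symmDiff_cancel_right _ _
  · intro HP _
    exact symmDiff_symmDiff_cancel_right _ _
  · intro HP _
    rfl

theorem card_prs_le : ((prs V).card : ℝ) ≤ (nn V) ^ 2 := by
  unfold nn
  have : (prs V).card ≤ Fintype.card V ^ 2 := by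
    refine (card_le_univ _).trans ?_
    rw [Fintype.card_prod, sq]
  exact_mod_cast this

/-- MASTER INEQUALITY. -/
theorem master {G : SimpleGraph V} {κ s Φ : ℝ} (hκ0 : 0 < κ) (hκ1 : κ ≤ 1 / 4) (hs : 1 ≤ s)
    (hn : (2 : ℝ) ≤ (nn V) ^ (1 - κ / 2))
    (HP0 : Finset (V × V)) (hHP0 : HP0 ⊆ prs V) (A : Finset (V → V → V))
    (hA : ∀ g ∈ A, IsSys G g) (hΦ : ∀ g ∈ A, Mfun κ s g + cost κ HP0 g ≤ Φ) :
    ∑ g ∈ A, s ^ eta2 g (th V κ) ≤ Real.exp (Φ + 12 * (nn V) ^ (2 - κ / 8)) := by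
  have a1 : 2 - κ / 2 ≤ 2 - κ / 8 := by linarith
  have a2 : 2 - κ ≤ 2 - κ / 8 := by linarith
  have a3 : 1 / 2 + 1 + κ ≤ 2 - κ / 8 := by linarith
  set n : ℝ := nn V with hnn
  have hn1 : 1 < n := by
    by_contra h
    have h0 : 0 ≤ n := by rw [hnn]; unfold nn; positivity
    have := Real.rpow_le_one h0 (not_lt.1 h) (by linarith : 0 ≤ 1 - κ / 2)
    linarith
  have hn0 : 0 < n := by linarith
  set L : ℝ := LL V with hL
  have hLn : L = Real.log n := rfl
  have hL0 : 0 < L := by rw [hLn]; exact Real.log_pos hn1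
  set θ : ℝ := th V κ with hθdef
  have hθeq : θ = n ^ (1 - κ) := rfl
  have hθ : 0 < θ := by rw [hθeq]; positivity
  set p : ℝ := n ^ (-(1 - κ / 2)) with hp
  have hp0 : 0 < p := by positivity
  have hp1 : p ≤ 1 / 2 := by
    rw [hp, Real.rpow_neg hn0.le, one_div]
    exact inv_anti₀ (by norm_num) hn
  have hexpn : ∀ a : ℝ, n ^ a = Real.exp (a * L) := by
    intro a
    rw [hLn, Real.rpow_def_of_pos hn0, mul_comm]
  -- the data map
  set D : (V → V → V) → Finset (V × V) × (V → V → Option V) × Finset (V × V) :=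
    fun g => (usedP g, om g θ, lightP g θ) with hD
  set m : ℕ := ⌊n ^ κ⌋₊ with hm
  set Ω : Finset (V → V → Option V) :=
    univ.filter (fun om => ∀ y, (labels om y).card ≤ m) with hΩ
  set Y : Finset (Finset (V × V) × (V → V → Option V) × Finset (V × V)) :=
    (prs V).powerset ×ˢ (Ω ×ˢ (prs V).powerset) with hY
  have hmaps : ∀ g ∈ A, D g ∈ Y := by
    intro g _
    simp only [hD, hY, mem_product, mem_powerset]
    refine ⟨filter_subset _ _, ?_, filter_subset _ _⟩
    rw [hΩ, mem_filter]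
    exact ⟨mem_univ _, fun y => labels_card_le g y⟩
  -- cost of the data
  set cD : Finset (V × V) × (V → V → Option V) × Finset (V × V) → ℝ := fun δ =>
    κ * L * (symmDiff δ.1 HP0).card + 2 * κ * L * Kw δ.2.1 + κ / 8 * L * δ.2.2.card with hcD
  set E : ℝ := 4 * p * θ * n ^ 2 with hE
  have hfiber : ∀ δ ∈ Y, ∑ g ∈ A.filter (fun g => D g = δ), s ^ eta2 g θ ≤
      Real.exp (Φ + E) * Real.exp (-cD δ) := by
    intro δ _
    rcases (A.filter (fun g => D g = δ)).eq_empty_or_nonempty with hemp | ⟨g0, hg0⟩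
    · rw [hemp, sum_empty]; positivity
    · rw [mem_filter] at hg0
      have hd1 : ∀ g ∈ A.filter (fun g => D g = δ), usedP g = δ.1 ∧ om g θ = δ.2.1 ∧
          lightP g θ = δ.2.2 := by
        intro g hg
        have := (mem_filter.1 hg).2
        rw [← this]
        exact ⟨rfl, rfl, rfl⟩
      have hfb := enc_fiber_bound (G := G) hθ hp0 hp1 hs (A.filter (fun g => D g = δ))
        (fun g hg => hA g (mem_filter.1 hg).1) δ.1 δ.2.2 δ.2.1
        (fun g hg => (hd1 g hg).1) (fun g hg => (hd1 g hg).2.1) (fun g hg => (hd1 g hg).2.2)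
      have hg0' := hd1 g0 (mem_filter.2 hg0)
      have hM := hΦ g0 hg0.1
      have hrest : restP g0 θ = prs V \ (δ.1 ∪ wastedP δ.2.1 ∪ δ.2.2) := by
        unfold restP
        rw [hg0'.1, hg0'.2.1, hg0'.2.2]
      have hcost : cost κ HP0 g0 = cD δ := by
        unfold cost
        rw [← hθdef, hg0'.1, hg0'.2.1, hg0'.2.2]
      have hMf : Mfun κ s g0 = (1 - κ / 2) * L * δ.2.2.card +
          ∑ r ∈ prs V \ (δ.1 ∪ wastedP δ.2.1 ∪ δ.2.2),
            Real.log (kk δ.1 r.1 r.2 + s * tt δ.2.1 r.1 r.2) := by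
        unfold Mfun
        rw [← hθdef, hrest, hg0'.1, hg0'.2.1, hg0'.2.2]
      have hpos : ∀ r ∈ prs V \ (δ.1 ∪ wastedP δ.2.1 ∪ δ.2.2),
          0 < (kk δ.1 r.1 r.2 + s * tt δ.2.1 r.1 r.2 : ℝ) := by
        intro r hr
        have h5 := rest_type (hA g0 hg0.1) hθ (p := r) (by rw [hrest]; exact hr)
        rw [hg0'.1, hg0'.2.1] at h5
        simp only [optF, mem_filter, mem_univ, true_and] at h5
        rcases h5 with ⟨_, h6, h7⟩ | h6
        · have h8 : 0 < kk δ.1 r.1 r.2 := by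
            unfold kk
            apply card_pos.2
            exact ⟨g0 r.1 r.2, by simp only [mem_filter, mem_univ, true_and]; exact ⟨h6, h7⟩⟩
          have h9 : (0 : ℝ) < kk δ.1 r.1 r.2 := by exact_mod_cast h8
          have h10 : (0 : ℝ) ≤ s * tt δ.2.1 r.1 r.2 := by positivity
          linarith
        · have h8 : 0 < tt δ.2.1 r.1 r.2 := by
            unfold tt
            apply card_pos.2
            exact ⟨(g0 r.1 r.2, g0 r.2 r.1), by
              simp only [mem_filter, mem_univ, true_and]; exact h6⟩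
          have h9 : (0 : ℝ) < tt δ.2.1 r.1 r.2 := by exact_mod_cast h8
          have h10 : (0 : ℝ) < s * tt δ.2.1 r.1 r.2 := by positivity
          have h11 : (0 : ℝ) ≤ kk δ.1 r.1 r.2 := by positivity
          linarith
      have hprod : ∏ r ∈ prs V \ (δ.1 ∪ wastedP δ.2.1 ∪ δ.2.2),
          (kk δ.1 r.1 r.2 + s * tt δ.2.1 r.1 r.2 : ℝ) =
          Real.exp (∑ r ∈ prs V \ (δ.1 ∪ wastedP δ.2.1 ∪ δ.2.2),
            Real.log (kk δ.1 r.1 r.2 + s * tt δ.2.1 r.1 r.2)) := by
        rw [Real.exp_sum]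
        exact prod_congr rfl fun r hr => (Real.exp_log (hpos r hr)).symm
      have hpinv : (p ^ δ.2.2.card)⁻¹ = Real.exp ((1 - κ / 2) * L * δ.2.2.card) := by
        rw [hp, hexpn, ← Real.exp_nat_mul, ← Real.exp_neg]
        congr 1
        ring
      have hEE : 4 * p * θ * (Fintype.card V : ℝ) ^ 2 = E := rfl
      rw [hEE, hprod, hpinv, ← Real.exp_add, ← Real.exp_add] at hfb
      refine hfb.trans ?_
      rw [← Real.exp_add]
      apply Real.exp_le_exp.2
      rw [hMf, hcost] at hM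
      linarith
  have htotal : ∑ g ∈ A, s ^ eta2 g θ ≤ Real.exp (Φ + E) * ∑ δ ∈ Y, Real.exp (-cD δ) := by
    rw [← sum_fiberwise_of_maps_to hmaps, mul_sum]
    exact sum_le_sum hfiber
  -- the sum over the data
  set q1 : ℝ := Real.exp (-(κ * L)) with hq1
  set q2 : ℝ := Real.exp (-(2 * κ * L)) with hq2
  set q3 : ℝ := Real.exp (-(κ / 8 * L)) with hq3
  have hsplit : ∑ δ ∈ Y, Real.exp (-cD δ) =
      (∑ HP ∈ (prs V).powerset, q1 ^ (symmDiff HP HP0).card) *
        ((∑ ω ∈ Ω, q2 ^ Kom ω) * (∑ Λ ∈ (prs V).powerset, q3 ^ Λ.card)) := by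
    rw [hY, sum_product, sum_mul]
    refine sum_congr rfl fun HP _ => ?_
    rw [sum_product, sum_mul, mul_sum]
    refine sum_congr rfl fun ω _ => ?_
    rw [mul_sum, mul_sum]
    refine sum_congr rfl fun Λ _ => ?_
    have hK : Kw ω = Kom ω := rfl
    simp only [hcD, hq1, hq2, hq3]
    rw [← Real.exp_nat_mul, ← Real.exp_nat_mul, ← Real.exp_nat_mul, ← Real.exp_add,
      ← Real.exp_add, ← hK]
    congr 1
    ring
  have hb1 : ∑ HP ∈ (prs V).powerset, q1 ^ (symmDiff HP HP0).card ≤ Real.exp (q1 * n ^ 2) := by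
    refine (sum_symmDiff_le (prs V) HP0 hHP0 q1 (Real.exp_pos _).le).trans ?_
    apply Real.exp_le_exp.2
    exact mul_le_mul_of_nonneg_left card_prs_le (Real.exp_pos _).le
  have hb3 : ∑ Λ ∈ (prs V).powerset, q3 ^ Λ.card ≤ Real.exp (q3 * n ^ 2) := by
    refine (sum_pow_card_le_exp (prs V) q3 (Real.exp_pos _).le).trans ?_
    apply Real.exp_le_exp.2
    exact mul_le_mul_of_nonneg_left card_prs_le (Real.exp_pos _).le
  have hb2 : ∑ ω ∈ Ω, q2 ^ Kom ω ≤ Real.exp (2 * L * n * n ^ κ + q2 * n ^ κ * n ^ 2) := by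
    refine (sum_labels_le m q2 (Real.exp_pos _).le).trans ?_
    rw [Real.exp_add]
    have hmle : (m : ℝ) ≤ n ^ κ := Nat.floor_le (by positivity)
    have hcn : (Fintype.card V : ℝ) = n := rfl
    apply mul_le_mul
    · rw [hcn]
      have h5 : n + 1 ≤ Real.exp (2 * L) := by
        have : Real.exp (2 * L) = n ^ 2 := by
          rw [hLn, two_mul, Real.exp_add, Real.exp_log hn0]; ring
        rw [this]
        have h6 : (2 : ℝ) ≤ n := by
          have h7 : n ^ (1 - κ / 2) ≤ n ^ (1 : ℝ) :=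
            Real.rpow_le_rpow_of_exponent_le hn1.le (by linarith)
          rw [Real.rpow_one] at h7
          linarith
        nlinarith
      calc (n + 1) ^ (Fintype.card V * m) ≤ Real.exp (2 * L) ^ (Fintype.card V * m) :=
            pow_le_pow_left₀ (by linarith) h5 _
        _ = Real.exp ((2 * L) * (n * m)) := by
            rw [← Real.exp_nat_mul]
            congr 1
            push_cast
            rw [hcn]
            ring
        _ ≤ Real.exp (2 * L * n * n ^ κ) := by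
            apply Real.exp_le_exp.2
            have : 2 * L * n * (m : ℝ) ≤ 2 * L * n * n ^ κ :=
              mul_le_mul_of_nonneg_left hmle (by positivity)
            nlinarith
    · apply Real.exp_le_exp.2
      rw [hcn]
      have h8 : 0 ≤ q2 := (Real.exp_pos _).le
      have : q2 * (m : ℝ) ≤ q2 * n ^ κ := mul_le_mul_of_nonneg_left hmle h8
      exact mul_le_mul_of_nonneg_right this (by positivity)
    · positivity
    · positivity
  have hsum : ∑ δ ∈ Y, Real.exp (-cD δ) ≤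
      Real.exp (q1 * n ^ 2 + (2 * L * n * n ^ κ + q2 * n ^ κ * n ^ 2) + q3 * n ^ 2) := by
    rw [hsplit, Real.exp_add, Real.exp_add, mul_assoc]
    have hq2n : 0 ≤ q2 := (Real.exp_pos _).le
    have hq3n : 0 ≤ q3 := (Real.exp_pos _).le
    have hs2 : 0 ≤ ∑ ω ∈ Ω, q2 ^ Kom ω := sum_nonneg fun ω _ => pow_nonneg hq2n _
    have hs3 : 0 ≤ ∑ Λ ∈ (prs V).powerset, q3 ^ Λ.card := sum_nonneg fun Λ _ => pow_nonneg hq3n _
    apply mul_le_mul hb1 _ (mul_nonneg hs2 hs3) (Real.exp_pos _).le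
    exact mul_le_mul hb2 hb3 hs3 (Real.exp_pos _).le
  refine htotal.trans ?_
  refine (mul_le_mul_of_nonneg_left hsum (Real.exp_pos _).le).trans ?_
  rw [← Real.exp_add]
  apply Real.exp_le_exp.2
  -- exponent arithmetic
  have hmono : ∀ a : ℝ, a ≤ 2 - κ / 8 → n ^ a ≤ n ^ (2 - κ / 8) := fun a ha =>
    Real.rpow_le_rpow_of_exponent_le hn1.le ha
  have hn2 : n ^ 2 = n ^ (2 : ℝ) := by norm_cast
  have t1 : E = 4 * n ^ (2 - κ / 2) := by
    rw [hE, hp, hθeq, hn2, mul_assoc, mul_assoc, ← mul_assoc (n ^ (-(1 - κ / 2))),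
      ← Real.rpow_add hn0, ← Real.rpow_add hn0]
    congr 2
    ring
  have t2 : q1 * n ^ 2 = n ^ (2 - κ) := by
    rw [hq1, ← neg_mul, ← hexpn, hn2, ← Real.rpow_add hn0]
    congr 1
    ring
  have t3 : q2 * n ^ κ * n ^ 2 = n ^ (2 - κ) := by
    rw [hq2, ← neg_mul, ← hexpn, hn2, ← Real.rpow_add hn0, ← Real.rpow_add hn0]
    congr 1
    ring
  have t4 : q3 * n ^ 2 = n ^ (2 - κ / 8) := by
    rw [hq3, ← neg_mul, ← hexpn, hn2, ← Real.rpow_add hn0]
    congr 1
    ring
  have t5 : L ≤ 2 * n ^ (1 / 2 : ℝ) := by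
    have h1 := Real.add_one_le_exp (L / 2)
    have h2 : Real.exp (L / 2) = n ^ (1 / 2 : ℝ) := by
      rw [hexpn]; congr 1; ring
    rw [h2] at h1
    linarith
  have t6 : 2 * L * n * n ^ κ ≤ 4 * n ^ (2 - κ / 8) := by
    have h1 : 2 * L * n * n ^ κ ≤ 2 * (2 * n ^ (1 / 2 : ℝ)) * n * n ^ κ := by
      gcongr
    have h2 : 2 * (2 * n ^ (1 / 2 : ℝ)) * n * n ^ κ = 4 * n ^ (1 / 2 + 1 + κ) := by
      rw [Real.rpow_add hn0, Real.rpow_add hn0, Real.rpow_one]
      ring
    have h3 := hmono (1 / 2 + 1 + κ) a3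
    linarith
  have t7 := hmono (2 - κ / 2) a1
  have t8 := hmono (2 - κ) a2
  have t9 : 0 ≤ n ^ (2 - κ / 8) := by positivity
  rw [t1, t2, t3, t4]
  linarith

end

end CEB
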