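import Pool.Agent.Work.MP_ceb7a8_co.Leaf
import Pool.Agent.Work.MP_ceb7a8_co.Lower

/-!
(7.3), lower bound: most systems outside A have many extensions in which the vertices of A are
leaves.
-/

namespace CEB

open Finset
open Pool.Agent.Work.MP_ceb7a8_co (DiscK dgr card_low)

noncomputable section

open scoped Classical

/-! ### vertices outside A -/

section out

variable {V : Type*} {A : Finset V}

/-- a vertex outside A, as a vertex -/
def vl (x : Out A) : V := x.1

/-- a vertex that is not in A, as an element of Out A -/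
def mo (x : V) (h : x ∉ A) : Out A := ⟨x, h⟩

theorem vl_injective : Function.Injective (vl : Out A → V) := fun _ _ h => Subtype.ext h

theorem vl_notMem (x : Out A) : vl x ∉ A := x.2

theorem vl_mo (x : V) (h : x ∉ A) : vl (mo x h) = x := rfl

theorem mo_vl (x : Out A) (h : vl x ∉ A) : mo (vl x) h = x := rfl

theorem lift_mo (g : Out A → Out A → Out A) {u v : V} (hu : u ∉ A) (hv : v ∉ A) :
    lift A g u v = vl (g (mo u hu) (mo v hv)) := lift_mk g hu hv

end out

/-! ### numerical facts -/

section num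

variable {V : Type*} [Fintype V]

theorem Q_small (hn : Big (Fintype.card V)) :
    10 ^ 50 * LL V ^ 3 * nn V ^ (1 - sig / 2) ≤ nn V := by
  obtain ⟨hL, he, h0, -⟩ := big_facts hn
  have hL0 : 0 < LL V := lt_of_lt_of_le (by norm_num) hL
  have h1 : nn V ^ (1 - sig / 2) = nn V / Real.exp (sig / 2 * LL V) := by
    rw [Real.rpow_sub h0, Real.rpow_one, Real.rpow_def_of_pos h0 (sig / 2)]
    congr 2
    rw [mul_comm]
    rfl
  rw [h1, mul_div_assoc', div_le_iff₀ (Real.exp_pos _)]
  have h2 := Real.pow_div_factorial_le_exp (sig / 2 * LL V)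
    (mul_nonneg (by unfold sig; norm_num) hL0.le) 5
  have h3 : (Nat.factorial 5 : ℝ) = 120 := by norm_num [Nat.factorial]
  rw [h3] at h2
  have h4 : 10 ^ 50 * LL V ^ 3 ≤ Real.exp (sig / 2 * LL V) := by
    refine le_trans ?_ h2
    rw [mul_pow, le_div_iff₀ (by norm_num)]
    have h5 : (10 : ℝ) ^ 200 ≤ LL V ^ 2 := by
      calc (10 : ℝ) ^ 200 = (10 ^ 100) ^ 2 := by norm_num
        _ ≤ LL V ^ 2 := pow_le_pow_left₀ (by positivity) hL 2
    have h6 : (10 : ℝ) ^ 50 * 120 ≤ (sig / 2) ^ 5 * LL V ^ 2 := by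
      refine le_trans ?_ (mul_le_mul_of_nonneg_left h5 (by unfold sig; positivity))
      unfold sig
      norm_num
    calc 10 ^ 50 * LL V ^ 3 * 120 = (10 ^ 50 * 120) * LL V ^ 3 := by ring
      _ ≤ ((sig / 2) ^ 5 * LL V ^ 2) * LL V ^ 3 :=
          mul_le_mul_of_nonneg_right h6 (by positivity)
      _ = (sig / 2) ^ 5 * LL V ^ 5 := by ring
  have h5 := mul_le_mul_of_nonneg_right h4 h0.le
  linarith

theorem Q_one (hn : Big (Fintype.card V)) : 1 ≤ nn V ^ (1 - sig / 2) := by
  obtain ⟨hL, he, h0, h30⟩ := big_facts hn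
  refine Real.one_le_rpow ?_ (by unfold sig; norm_num)
  have : (1 : ℝ) ≤ LL V ^ 2 := by
    have : (1 : ℝ) ≤ LL V := le_trans (by norm_num) hL
    nlinarith
  nlinarith

theorem Q_sq (hn : Big (Fintype.card V)) :
    nn V ^ (2 - sig) = nn V ^ (1 - sig / 2) * nn V ^ (1 - sig / 2) := by
  obtain ⟨-, -, h0, -⟩ := big_facts hn
  rw [← Real.rpow_add h0]
  congr 1
  ring

theorem log_num : -(142 / 100 : ℝ) ≤ Real.log (2448 / 10000) := by
  rw [Real.le_log_iff_exp_le (by norm_num)]
  have h1 : (4085 / 1000 : ℝ) ≤ Real.exp (142 / 100) := by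
    have h2 : Real.exp (142 / 100) = Real.exp 1 * Real.exp (42 / 100) := by
      rw [← Real.exp_add]; norm_num
    have h3 := Real.exp_one_gt_d9
    have h4 := Real.quadratic_le_exp_of_nonneg (show (0 : ℝ) ≤ 42 / 100 by norm_num)
    rw [h2]
    nlinarith
  rw [Real.exp_neg, inv_le_comm₀ (Real.exp_pos _) (by norm_num)]
  refine le_trans ?_ h1
  norm_num

theorem card_Out (A : Finset V) : Fintype.card (Out A) + A.card = Fintype.card V := by
  have h0 : Fintype.card (Out A) = (Aᶜ).card := by
    rw [← card_univ, ← card_image_of_injective univ (vl_injective (A := A))]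
    congr 1
    ext x
    simp only [mem_image, mem_univ, true_and, mem_compl]
    constructor
    · rintro ⟨y, rfl⟩
      exact vl_notMem y
    · intro hx
      exact ⟨mo x hx, rfl⟩
  rw [h0, card_compl]
  have := card_le_univ A
  omega

theorem nn_Out (A : Finset V) : nn (Out A) + A.card = nn V := by
  have h := card_Out A
  unfold nn
  exact_mod_cast h

/-- the numerical inequality behind one leaf -/
theorem leaf_num {n L w Q k H t : ℝ} (h0 : 0 < n) (hL1 : 1 ≤ L) (hQ0 : 0 ≤ Q)
    (hQL : 10 ^ 10 * (L * Q) ≤ n) (hwl : 96 / 100 * (n / L) ≤ w) (hwu : w ≤ 116 / 100 * (n / L))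
    (hkl : n - 49 / 100 * w - 26 * Q ≤ k) (hH : H = Real.log (n / L))
    (ht : t = 2448 / 10000 * w) (ht1 : 1 ≤ t) (hlogn : Real.log n = L) :
    n * H - 195 / 100 * n ≤ k * Real.log t := by
  have hL0 : 0 < L := by linarith
  have hx : 0 < n / L := by positivity
  have hw0 : 0 < w := lt_of_lt_of_le (by positivity) hwl
  have hlogt0 : 0 ≤ Real.log t := Real.log_nonneg ht1
  have hlogtL : Real.log t ≤ L := by
    rw [← hlogn]
    refine Real.log_le_log (by linarith) ?_
    rw [ht]
    have h1 : n / L ≤ n := div_le_self h0.le hL1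
    linarith
  have hlogt : Real.log t = Real.log (2448 / 10000) + Real.log w := by
    rw [ht, Real.log_mul (by norm_num) hw0.ne']
  obtain ⟨x, hxdef⟩ : ∃ x, x = w / (n / L) := ⟨_, rfl⟩
  have hxl : 96 / 100 ≤ x := by rw [hxdef, le_div_iff₀ hx]; exact hwl
  have hxu : x ≤ 116 / 100 := by rw [hxdef, div_le_iff₀ hx]; exact hwu
  have hwx : w = x * (n / L) := by rw [hxdef, div_mul_cancel₀ _ hx.ne']
  have hlogw : Real.log w = Real.log x + H := by
    rw [hH, hwx, Real.log_mul (by linarith) hx.ne']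
  have hlogx : 1 - x⁻¹ ≤ Real.log x := Real.one_sub_inv_le_log_of_pos (by linarith)
  have hwL : w * L = x * n := by
    rw [hwx, mul_assoc, div_mul_cancel₀ _ hL0.ne']
  have hx0 : 0 < x := by linarith
  have hx2 : x⁻¹ + 49 / 100 * x ≤ 1522 / 1000 := by
    have h1 : 1 + 49 / 100 * x ^ 2 ≤ 1522 / 1000 * x := by nlinarith
    have h3 : x⁻¹ * (1 + 49 / 100 * x ^ 2) ≤ x⁻¹ * (1522 / 1000 * x) :=
      mul_le_mul_of_nonneg_left h1 (by positivity)
    have h6 : x⁻¹ * x = 1 := inv_mul_cancel₀ hx0.ne'
    have h4 : x⁻¹ * (1 + 49 / 100 * x ^ 2) = x⁻¹ + 49 / 100 * x * (x⁻¹ * x) := by ring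
    have h5 : x⁻¹ * (1522 / 1000 * x) = 1522 / 1000 * (x⁻¹ * x) := by ring
    rw [h4, h5, h6] at h3
    linarith
  have h1 : (n - 49 / 100 * w - 26 * Q) * Real.log t ≤ k * Real.log t :=
    mul_le_mul_of_nonneg_right hkl hlogt0
  refine le_trans ?_ h1
  have h2 : (49 / 100 * w + 26 * Q) * Real.log t ≤ (49 / 100 * w + 26 * Q) * L :=
    mul_le_mul_of_nonneg_left hlogtL (by positivity)
  have h3 := log_num
  have h4 : n * (-(142 / 100) + (1 - x⁻¹) + H) ≤ n * Real.log t := by
    refine mul_le_mul_of_nonneg_left ?_ h0.le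
    rw [hlogt, hlogw]
    linarith
  have h5 : n * (x⁻¹ + 49 / 100 * x) ≤ n * (1522 / 1000) :=
    mul_le_mul_of_nonneg_left hx2 h0.le
  have h6 : (49 / 100 * w + 26 * Q) * L = 49 / 100 * (x * n) + 26 * (L * Q) := by
    rw [← hwL]; ring
  rw [h6] at h2
  have h7 : (n - 49 / 100 * w - 26 * Q) * Real.log t =
      n * Real.log t - (49 / 100 * w + 26 * Q) * Real.log t := by ring
  rw [h7]
  have h8 : n * (x⁻¹ + 49 / 100 * x) = n * x⁻¹ + 49 / 100 * (x * n) := by ring
  have h9 : n * (-(142 / 100) + (1 - x⁻¹) + H) = n * H - 42 / 100 * n - n * x⁻¹ := by ring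
  rw [h8] at h5
  rw [h9] at h4
  have h10 : 0 ≤ L * Q := by positivity
  linarith

end num

/-! ### one leaf -/

section one

variable {V : Type*} [Fintype V] {G : SimpleGraph V} {A : Finset V}

theorem card_bad_gt {G : SimpleGraph V} {g : V → V → V} (hn : Big (Fintype.card V))
    (hS : Struct G g) (X : Finset V)
    (hX : ∀ x ∈ X, nn V ^ (1 - sig / 2) < ((bad G g x).card : ℝ)) :
    (X.card : ℝ) ≤ 2 * nn V ^ (1 - sig / 2) := by
  have hq := Q_one hn
  have h1 : (X.card : ℝ) * nn V ^ (1 - sig / 2) ≤ 2 * nn V ^ (2 - sig) := by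
    refine le_trans ?_ hS.s3
    push_cast
    calc (X.card : ℝ) * nn V ^ (1 - sig / 2) = ∑ x ∈ X, nn V ^ (1 - sig / 2) := by
          rw [sum_const, nsmul_eq_mul]
      _ ≤ ∑ x ∈ X, ((bad G g x).card : ℝ) := sum_le_sum fun x hx => (hX x hx).le
      _ ≤ ∑ x, ((bad G g x).card : ℝ) :=
          sum_le_sum_of_subset_of_nonneg (subset_univ _) fun _ _ _ => Nat.cast_nonneg _
  rw [Q_sq hn, ← mul_assoc] at h1
  exact le_of_mul_le_mul_right h1 (by linarith)

theorem far_subset_bad {G : SimpleGraph V} {g : V → V → V} (h : IsSys G g) {x0 w : V}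
    (hw : g (g w x0) x0 ≠ x0) : w ∈ bad G g x0 := by
  have hne : x0 ≠ w := by
    rintro rfl
    rw [h.self, h.self] at hw
    exact hw rfl
  have hnu : ¬ Used g x0 w := by
    intro hu
    have h1 := (h.used_symm hu).2
    rw [h1, h.self] at hw
    exact hw rfl
  refine mem_filter.2 ⟨mem_univ _, hne, ?_⟩
  by_cases hE : InE G (hub g) x0 w
  · exact Or.inl ⟨hE, hnu⟩
  · refine Or.inr ⟨hE, fun hq => ?_⟩
    have h1 := (h.q_used hq).1
    have h2 := (h.used_symm h1).2
    rw [hq.2.2.1] at h2
    exact hw h2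

theorem one_leaf (hn : Big (Fintype.card V)) (hj : (A.card : ℝ) ≤ jj V)
    (hG' : QR (ind G A)) (hn' : Big (Fintype.card (Out A))) {PB : Out A → Out A → Out A}
    (hPB : IsSys (ind G A) PB) (hS : Struct (ind G A) PB) {v : V}
    (hatt : 49 / 100 * ((hub PB).card : ℝ) ≤ (((hub PB).filter fun x => G.Adj v x.1).card : ℝ))
    {S : Finset V} (hAS : Aᶜ ⊆ S) (hvS : v ∉ S) {g : V → V → V} (hg : SysOn G S g)
    (hext : ∀ a b, a ∉ A → b ∉ A → g a b = lift A PB a b) :
    Real.exp (nn V * Real.log (hh V) - 195 / 100 * nn V) ≤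
      ((univ.filter fun g' : V → V → V => SysOn G (insert v S) g' ∧
        ∀ a ∈ S, ∀ b ∈ S, g' a b = g a b).card : ℝ) := by
  obtain ⟨hL, he, h0, h30⟩ := big_facts hn
  obtain ⟨hL', he', h0', h30'⟩ := big_facts hn'
  have hQs := Q_small hn
  have hQ1 := Q_one hn
  have hq1 := Q_one hn'
  have hnB := nn_Out A
  set n := nn V with hndef
  set L := LL V with hLdef
  set nB := nn (Out A) with hnBdef
  set LB := LL (Out A) with hLBdef
  set Q := n ^ (1 - sig / 2) with hQdef
  set q := nB ^ (1 - sig / 2) with hqdef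
  have hA0 : (0 : ℝ) ≤ A.card := Nat.cast_nonneg _
  have hj' : (A.card : ℝ) ≤ 3 * Q := hj
  have hqQ : q ≤ Q := Real.rpow_le_rpow h0'.le (by linarith) (by unfold sig; norm_num)
  have hL0 : 0 < L := lt_of_lt_of_le (by norm_num) hL
  have hL1 : 1 ≤ L := le_trans (by norm_num) hL
  have hLB0 : 0 < LB := lt_of_lt_of_le (by norm_num) hL'
  -- q is much larger than LB
  have hq12 : 10 ^ 12 * LB ≤ q := by
    have h11 : q = Real.exp ((1 - sig / 2) * LB) := by
      rw [hqdef, Real.rpow_def_of_pos h0', mul_comm]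
      rfl
    have h12 := Real.pow_div_factorial_le_exp ((1 - sig / 2) * LB)
      (mul_nonneg (by unfold sig; norm_num) hLB0.le) 2
    rw [← h11] at h12
    refine le_trans ?_ h12
    have h13 : (Nat.factorial 2 : ℝ) = 2 := by norm_num [Nat.factorial]
    rw [h13, le_div_iff₀ (by norm_num), mul_pow]
    have h14 : (1 / 2 : ℝ) ≤ (1 - sig / 2) ^ 2 := by unfold sig; norm_num
    have h15 : (1 / 2 : ℝ) * LB ^ 2 ≤ (1 - sig / 2) ^ 2 * LB ^ 2 :=
      mul_le_mul_of_nonneg_right h14 (sq_nonneg _)
    have h16 : (4 : ℝ) * 10 ^ 12 ≤ LB := le_trans (by norm_num) hL'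
    have h17 := mul_le_mul_of_nonneg_right h16 hLB0.le
    linarith
  have hL5 : (10 : ℝ) ^ 5 ≤ L := le_trans (by norm_num) hL
  have hLB5 : (10 : ℝ) ^ 5 ≤ LB := le_trans (by norm_num) hL'
  clear hL hL' h30 h30' he he'
  -- Q is tiny
  have hQ0 : 0 ≤ Q := by linarith
  have hQL : 10 ^ 10 * (L * Q) ≤ n := by
    refine le_trans ?_ hQs
    have h1 : L ≤ L ^ 3 := by
      have : L * 1 ≤ L * L ^ 2 := mul_le_mul_of_nonneg_left (by nlinarith only [hL1]) hL0.le
      linarith [this, show L * L ^ 2 = L ^ 3 by ring]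
    have h2 := mul_le_mul_of_nonneg_right h1 hQ0
    have h3 : 0 ≤ L ^ 3 * Q := by positivity
    have h4 : (10 : ℝ) ^ 10 * (L ^ 3 * Q) ≤ 10 ^ 50 * (L ^ 3 * Q) :=
      mul_le_mul_of_nonneg_right (by norm_num) h3
    have h5 : 10 ^ 50 * L ^ 3 * Q = 10 ^ 50 * (L ^ 3 * Q) := by ring
    linarith only [h2, h4, h5]
  clear hQs
  have hQn : 10 ^ 10 * Q ≤ n := by
    have := mul_le_mul_of_nonneg_right hL1 hQ0
    linarith only [this, hQL]
  have hnBl : n * (999 / 1000) ≤ nB := by linarith only [hQn, hj', hnB, hQ0]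
  have hnBu : nB ≤ n := by linarith only [hnB, hA0]
  have hLBL : LB ≤ L := Real.log_le_log h0' hnBu
  have hLBl : L - 1 ≤ LB := by
    have h1 : Real.log (n / 2) ≤ LB := Real.log_le_log (by linarith) (by linarith)
    rw [Real.log_div h0.ne' (by norm_num)] at h1
    have h2 : Real.log 2 < 0.6931471808 := Real.log_two_lt_d9
    have h3 : Real.log n = L := rfl
    linarith
  -- the hubs
  set w : ℝ := ((hub PB).card : ℝ) with hw
  have hwl : 97 / 100 * (nB / LB) ≤ w := hS.s1
  have hwu : w ≤ 115 / 100 * (nB / LB) := hS.s2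
  have hwl2 : 96 / 100 * (n / L) ≤ w := by
    refine le_trans ?_ hwl
    have h1 : nB / L ≤ nB / LB := div_le_div_of_nonneg_left h0'.le hLB0 hLBL
    have h2 : n * (999 / 1000) / L ≤ nB / L := div_le_div_of_nonneg_right hnBl hL0.le
    have h3 : n * (999 / 1000) / L = 999 / 1000 * (n / L) := by ring
    have h4 : 0 < n / L := by positivity
    linarith only [h1, h2, h3, h4]
  have hwu2 : w ≤ 116 / 100 * (n / L) := by
    refine hwu.trans ?_
    have h1 : nB / LB ≤ n / LB := div_le_div_of_nonneg_right hnBu hLB0.le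
    have h2 : n / LB ≤ 1001 / 1000 * (n / L) := by
      rw [div_le_iff₀ hLB0]
      have h3 : 1001 / 1000 * (n / L) * LB = n * (1001 / 1000 * (LB / L)) := by ring
      rw [h3]
      have h4 : 1 ≤ 1001 / 1000 * (LB / L) := by
        rw [← mul_div_assoc, le_div_iff₀ hL0]
        linarith only [hLBl, hL5]
      have h5 := mul_le_mul_of_nonneg_left h4 h0.le
      linarith only [h5]
    have h4 : 0 < n / L := by positivity
    linarith only [h1, h2, h4]
  have hw0 : 0 < w := lt_of_lt_of_le (by positivity) hwl2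
  have hQw : 10 ^ 9 * Q ≤ w := by
    refine le_trans ?_ hwl2
    rw [← mul_div_assoc, le_div_iff₀ hL0]
    have h1 : 0 ≤ L * Q := by positivity
    linarith only [hQL, h1, h0]
  -- the neighbourhood D'
  obtain ⟨D', hD's, hD'c⟩ : ∃ D' ⊆ (hub PB).filter (fun x => G.Adj v x.1),
      D'.card = ⌈49 / 100 * w⌉₊ :=
    exists_subset_card_eq (Nat.ceil_le.2 hatt)
  have hD'l : 49 / 100 * w ≤ (D'.card : ℝ) := by rw [hD'c]; exact Nat.le_ceil _
  have hD'u : (D'.card : ℝ) ≤ 49 / 100 * w + 1 := by
    rw [hD'c]; exact (Nat.ceil_lt_add_one (by positivity)).le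
  -- a good root
  obtain ⟨x0, hx0D, hx0b⟩ : ∃ x0 ∈ D', ((bad (ind G A) PB x0).card : ℝ) ≤ q := by
    by_contra hcon
    push Not at hcon
    have h1 := card_bad_gt hn' hS D' hcon
    have h2 : (D'.card : ℝ) ≤ 2 * q := h1
    linarith only [h2, hD'l, hQw, hqQ, hQ1]
  -- exceptional vertices outside A
  set Far : Finset (Out A) := univ.filter fun w => PB (PB w x0) x0 ≠ x0 with hFar
  have hFarc : (Far.card : ℝ) ≤ q := by
    have h1 : Far ⊆ bad (ind G A) PB x0 := fun w hw =>
      far_subset_bad hPB (mem_filter.1 hw).2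
    have h2 : (Far.card : ℝ) ≤ ((bad (ind G A) PB x0).card : ℝ) := by
      exact_mod_cast card_le_card h1
    linarith
  set r : ℝ := (1 / 2 - 2 / 10000) * D'.card - q with hr
  set Y : Finset (Out A) := univ.filter fun b =>
    ((D'.filter fun z => Used PB b z).card : ℝ) < r with hY
  have hYc : (Y.card : ℝ) ≤ 3 * q := by
    set Y1 : Finset (Out A) := univ.filter fun b => q < ((bad (ind G A) PB b).card : ℝ) with hY1
    set Y2 : Finset (Out A) := univ.filter fun b =>
      (dgr (ind G A) b D' : ℝ) ≤ (1 / 2 - 2 / 10000) * D'.card with hY2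
    have h1 : Y ⊆ Y1 ∪ Y2 := by
      intro b hb
      rw [mem_union]
      by_contra hcon
      rw [not_or] at hcon
      have h2 : ((bad (ind G A) PB b).card : ℝ) ≤ q := by
        by_contra h3
        exact hcon.1 (mem_filter.2 ⟨mem_univ _, not_le.1 h3⟩)
      have h3 : (1 / 2 - 2 / 10000) * D'.card < (dgr (ind G A) b D' : ℝ) := by
        by_contra h4
        exact hcon.2 (mem_filter.2 ⟨mem_univ _, not_lt.1 h4⟩)
      have h4 := (mem_filter.1 hb).2
      have h5 : (D'.filter fun z => (ind G A).Adj b z) ⊆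
          (D'.filter fun z => Used PB b z) ∪ bad (ind G A) PB b := by
        intro z hz
        rw [mem_filter] at hz
        rw [mem_union]
        by_cases hu : Used PB b z
        · left
          exact mem_filter.2 ⟨hz.1, hu⟩
        · right
          refine mem_filter.2 ⟨mem_univ _, hz.2.ne, Or.inl ⟨⟨hz.2, Or.inr ?_⟩, hu⟩⟩
          exact (mem_filter.1 (hD's hz.1)).1
      have h6 := (card_le_card h5).trans (card_union_le _ _)
      have h7 : (dgr (ind G A) b D' : ℝ) ≤
          ((D'.filter fun z => Used PB b z).card : ℝ) + ((bad (ind G A) PB b).card : ℝ) := by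
        unfold dgr
        exact_mod_cast h6
      rw [hr] at h4
      linarith
    have h2 : (Y1.card : ℝ) ≤ 2 * q := card_bad_gt hn' hS Y1 fun x hx => (mem_filter.1 hx).2
    have hne : D'.Nonempty := ⟨x0, hx0D⟩
    have h3 : (Y2.card : ℝ) ≤ 4 ^ 2 * Fintype.card (Out A) / ((2 / 10000) ^ 2 * D'.card) :=
      card_low hG'.disc hne (by norm_num)
    have h4 : (4 : ℝ) ^ 2 * Fintype.card (Out A) / ((2 / 10000) ^ 2 * D'.card) ≤ q := by
      have h5 : (Fintype.card (Out A) : ℝ) = nB := rfl
      have hD0 : (0 : ℝ) < D'.card := by linarith only [hD'l, hw0]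
      rw [h5, div_le_iff₀ (by positivity)]
      have h6 : 47 / 100 * (nB / LB) ≤ (D'.card : ℝ) := by
        linarith only [hD'l, hwl, show 0 < nB / LB by positivity]
      have h7 : q * ((2 / 10000) ^ 2 * (47 / 100 * (nB / LB))) ≤
          q * ((2 / 10000) ^ 2 * D'.card) := by
        refine mul_le_mul_of_nonneg_left ?_ (by linarith)
        exact mul_le_mul_of_nonneg_left h6 (by positivity)
      refine le_trans ?_ h7
      have h8 : q * ((2 / 10000) ^ 2 * (47 / 100 * (nB / LB))) =
          nB * (q * (47 / 2500000000) / LB) := by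
        ring
      rw [h8]
      have h9 : (4 : ℝ) ^ 2 ≤ q * (47 / 2500000000) / LB := by
        rw [le_div_iff₀ hLB0]
        linarith only [hq12, hLB0]
      have h11 := mul_le_mul_of_nonneg_left h9 h0'.le
      linarith only [h11]
    have h5 := (card_le_card h1).trans (card_union_le _ _)
    have h6 : (Y.card : ℝ) ≤ (Y1.card : ℝ) + (Y2.card : ℝ) := by exact_mod_cast h5
    linarith
  -- the sets in V
  set D : Finset V := D'.image vl with hD
  have hval : Function.Injective (vl : Out A → V) := vl_injective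
  have hDc : D.card = D'.card := card_image_of_injective _ hval
  have hDA : ∀ x ∈ D, x ∉ A := by
    intro x hx
    obtain ⟨y, _, rfl⟩ := mem_image.1 hx
    exact vl_notMem y
  set T : Finset V := (A ∩ S) ∪ (Far ∪ Y).image vl with hT
  have hTc : (T.card : ℝ) ≤ 7 * Q := by
    have h1 : T.card ≤ A.card + (Far.card + Y.card) := by
      refine (card_union_le _ _).trans (Nat.add_le_add (card_le_card inter_subset_left) ?_)
      exact card_image_le.trans (card_union_le _ _)
    have h2 : (T.card : ℝ) ≤ (A.card : ℝ) + ((Far.card : ℝ) + (Y.card : ℝ)) := by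
      exact_mod_cast h1
    linarith
  have hTS : T ⊆ S := by
    intro x hx
    rw [hT, mem_union] at hx
    rcases hx with hx | hx
    · exact (mem_inter.1 hx).2
    · obtain ⟨y, _, rfl⟩ := mem_image.1 hx
      exact hAS (mem_compl.2 (vl_notMem y))
  set par : V → V := fun b => g b (vl x0) with hpar
  have hpx : par (vl x0) = vl x0 := hg.self _
  set Zp : Finset V := insert (vl x0) (T ∪ T.image par ∪ (T.image par).image par) with hZp
  have hZpc : (Zp.card : ℝ) ≤ 22 * Q := by
    have h1 : Zp.card ≤ (T.card + T.card + T.card) + 1 := by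
      refine (card_insert_le _ _).trans (Nat.add_le_add_right ?_ 1)
      refine (card_union_le _ _).trans (Nat.add_le_add ((card_union_le _ _).trans
        (Nat.add_le_add_left card_image_le _)) ?_)
      exact card_image_le.trans card_image_le
    have h2 : (Zp.card : ℝ) ≤ ((T.card : ℝ) + T.card + T.card) + 1 := by exact_mod_cast h1
    linarith
  have hx0S : vl x0 ∈ S := hAS (mem_compl.2 (vl_notMem x0))
  have hclos : ∀ b ∈ Zp, b ∈ S → g b (vl x0) ∈ Zp := by
    intro b hb _
    show par b ∈ Zp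
    have himg : ∀ w ∈ T, par w ∈ Zp := fun w hw =>
      mem_insert_of_mem (mem_union_left _ (mem_union_right _ (mem_image_of_mem _ hw)))
    have himg2 : ∀ w ∈ T.image par, par w ∈ Zp := fun w hw =>
      mem_insert_of_mem (mem_union_right _ (mem_image_of_mem _ hw))
    rw [hZp, mem_insert, mem_union, mem_union] at hb
    rcases hb with hb | (hb | hb) | hb
    · rw [hb, hpx]
      exact mem_insert_self _ _
    · exact himg b hb
    · exact himg2 b hb
    · obtain ⟨w1, hw1, rfl⟩ := mem_image.1 hb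
      obtain ⟨w0, hw0T, rfl⟩ := mem_image.1 hw1
      by_cases hwT : par w0 ∈ T
      · exact himg2 _ (mem_image_of_mem _ hwT)
      · have hwS : par w0 ∈ S := by
          by_cases hw00 : w0 = vl x0
          · rw [hw00, hpx]; exact hx0S
          · exact hg.mem w0 (hTS hw0T) _ hx0S hw00
        have hwA : par w0 ∉ A := by
          intro h1
          exact hwT (mem_union_left _ (mem_inter.2 ⟨h1, hwS⟩))
        have hwF : (mo (par w0) hwA : Out A) ∉ Far := by
          intro h1
          refine hwT (mem_union_right _ (mem_image.2 ⟨mo (par w0) hwA, mem_union_left _ h1, rfl⟩))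
        have h2 : PB (PB (mo (par w0) hwA) x0) x0 = x0 := by
          by_contra h3
          exact hwF (mem_filter.2 ⟨mem_univ _, h3⟩)
        have h3 : par (par w0) = vl (PB (mo (par w0) hwA) x0) := by
          show g (par w0) (vl x0) = _
          rw [hext _ _ hwA (vl_notMem x0), lift_mo PB hwA (vl_notMem x0), mo_vl]
        have h4 : par (par (par w0)) = vl x0 := by
          rw [h3]
          show g _ (vl x0) = _
          rw [hext _ _ (vl_notMem (PB (mo (par w0) hwA) x0)) (vl_notMem x0),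
            lift_mo PB (vl_notMem (PB (mo (par w0) hwA) x0)) (vl_notMem x0), mo_vl, mo_vl]
          exact congrArg vl h2
        rw [h4]
        exact mem_insert_self _ _
  -- the number of choices
  set t : ℝ := 2448 / 10000 * w with ht
  have ht1 : 1 ≤ t := by rw [ht]; linarith only [hQw, hQ1]
  have hcount := card_leaf_ge (D := D) (Zp := Zp) (x0 := vl x0) hg hvS
    (fun x hx => hAS (mem_compl.2 (hDA x hx)))
    (by
      intro x hx
      obtain ⟨y, hy, rfl⟩ := mem_image.1 hx
      exact (mem_filter.1 (hD's hy)).2)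
    (mem_image_of_mem _ hx0D) hclos ht1 (by
      intro b hbS _ hbZ
      have hbT : b ∉ T := fun h1 =>
        hbZ (mem_insert_of_mem (mem_union_left _ (mem_union_left _ h1)))
      have hbA : b ∉ A := fun h1 => hbT (mem_union_left _ (mem_inter.2 ⟨h1, hbS⟩))
      have hbY : (mo b hbA : Out A) ∉ Y := by
        intro h1
        exact hbT (mem_union_right _ (mem_image.2 ⟨mo b hbA, mem_union_right _ h1, rfl⟩))
      have h1 : r ≤ ((D'.filter fun z => Used PB (mo b hbA) z).card : ℝ) := by
        by_contra h2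
        exact hbY (mem_filter.2 ⟨mem_univ _, not_le.1 h2⟩)
      have h2 : ((D'.filter fun z => Used PB (mo b hbA) z).image vl) ⊆
          ((D \ Zp).filter fun z => Used g b z) ∪ Zp := by
        intro z hz
        obtain ⟨y, hy, rfl⟩ := mem_image.1 hz
        rw [mem_filter] at hy
        rw [mem_union]
        by_cases hzZ : vl y ∈ Zp
        · exact Or.inr hzZ
        · left
          refine mem_filter.2 ⟨mem_sdiff.2 ⟨mem_image_of_mem _ hy.1, hzZ⟩, ?_, ?_⟩
          · intro h3
            exact hy.2.1 (vl_injective h3)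
          · rw [hext b (vl y) hbA (vl_notMem y), lift_mo PB hbA (vl_notMem y), mo_vl]
            exact congrArg vl hy.2.2
      have h3 := (card_le_card h2).trans (card_union_le _ _)
      rw [card_image_of_injective _ hval] at h3
      have h4 : ((D'.filter fun z => Used PB (mo b hbA) z).card : ℝ) ≤
          (((D \ Zp).filter fun z => Used g b z).card : ℝ) + Zp.card := by exact_mod_cast h3
      rw [ht]
      rw [hr] at h1
      linarith only [h1, h4, hZpc, hQw, hD'l, hqQ, hQ1])
  refine le_trans ?_ hcount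
  -- numerics
  set k : ℕ := S.card - D.card - Zp.card with hk
  have hkl : n - 49 / 100 * w - 26 * Q ≤ (k : ℝ) := by
    have h1 : S.card ≤ k + D.card + Zp.card := by omega
    have h2 : (S.card : ℝ) ≤ k + D.card + Zp.card := by exact_mod_cast h1
    have h3 : Fintype.card V ≤ S.card + A.card := by
      have h4 := card_le_card hAS
      rw [card_compl] at h4
      omega
    have h4 : n ≤ S.card + A.card := by
      rw [hndef]
      unfold nn
      exact_mod_cast h3
    rw [hDc] at h2
    linarith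
  have hmain : nn V * Real.log (hh V) - 195 / 100 * nn V ≤ k * Real.log t :=
    leaf_num h0 hL1 (by linarith) hQL hwl2 hwu2 hkl rfl ht ht1 rfl
  calc Real.exp (nn V * Real.log (hh V) - 195 / 100 * nn V) ≤ Real.exp (k * Real.log t) :=
        Real.exp_le_exp.2 hmain
    _ = t ^ k := by rw [Real.exp_nat_mul, Real.exp_log (by linarith)]

end one

end

end CEB
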