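import Pool.Agent.Work.MP_ceb7a8_co.ExtLower

/-!
(7.3), lower bound, end: the vertices of A are added one after the other.
-/

namespace CEB

open Finset

noncomputable section

open scoped Classical

variable {V : Type*} [Fintype V] {G : SimpleGraph V} {A : Finset V}

/-- systems on S that extend a given system outside A -/
def extOn (G : SimpleGraph V) (A S : Finset V) (PB : Out A → Out A → Out A) :
    Finset (V → V → V) :=
  univ.filter fun g => SysOn G S g ∧ ∀ a b, a ∉ A → b ∉ A → g a b = lift A PB a b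

theorem mem_extOn {S : Finset V} {PB : Out A → Out A → Out A} {g : V → V → V} :
    g ∈ extOn G A S PB ↔ SysOn G S g ∧ ∀ a b, a ∉ A → b ∉ A → g a b = lift A PB a b := by
  simp [extOn]

theorem extOn_step {S : Finset V} (hAS : Aᶜ ⊆ S) {v : V} {PB : Out A → Out A → Out A} {c : ℝ}
    (hc : ∀ g ∈ extOn G A S PB, c ≤
      ((univ.filter fun g' : V → V → V => SysOn G (insert v S) g' ∧
        ∀ a ∈ S, ∀ b ∈ S, g' a b = g a b).card : ℝ)) :
    ((extOn G A S PB).card : ℝ) * c ≤ ((extOn G A (insert v S) PB).card : ℝ) := by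
  set E : (V → V → V) → Finset (V → V → V) := fun g =>
    univ.filter fun g' : V → V → V => SysOn G (insert v S) g' ∧
      ∀ a ∈ S, ∀ b ∈ S, g' a b = g a b with hE
  have hsub : (extOn G A S PB).biUnion E ⊆ extOn G A (insert v S) PB := by
    intro g' hg'
    obtain ⟨g, hg, h1⟩ := mem_biUnion.1 hg'
    have h2 := (mem_filter.1 h1).2
    rw [mem_extOn] at hg ⊢
    refine ⟨h2.1, fun a b ha hb => ?_⟩
    rw [h2.2 a (hAS (mem_compl.2 ha)) b (hAS (mem_compl.2 hb)), hg.2 a b ha hb]
  have hdisj : ((extOn G A S PB : Finset (V → V → V)) : Set (V → V → V)).PairwiseDisjoint E := by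
    intro g hg g1 hg1 hne
    rw [Function.onFun, disjoint_left]
    intro g' h1 h2
    apply hne
    have h3 := (mem_filter.1 h1).2.2
    have h4 := (mem_filter.1 h2).2.2
    have hg2 := (mem_extOn.1 (mem_coe.1 hg)).1
    have hg3 := (mem_extOn.1 (mem_coe.1 hg1)).1
    funext a b
    by_cases hab : a ∈ S ∧ b ∈ S
    · rw [← h3 a hab.1 b hab.2, ← h4 a hab.1 b hab.2]
    · rw [not_and_or] at hab
      rw [hg2.out a b hab, hg3.out a b hab]
  have h1 := card_le_card hsub
  rw [card_biUnion hdisj] at h1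
  have h2 : ((∑ g ∈ extOn G A S PB, (E g).card : ℕ) : ℝ) ≤
      ((extOn G A (insert v S) PB).card : ℝ) := by exact_mod_cast h1
  refine le_trans ?_ h2
  push_cast
  calc ((extOn G A S PB).card : ℝ) * c = ∑ g ∈ extOn G A S PB, c := by
        rw [sum_const, nsmul_eq_mul]
    _ ≤ ∑ g ∈ extOn G A S PB, ((E g).card : ℝ) := sum_le_sum hc

theorem ext_lower {G : SimpleGraph V} (_hG : QR G) (hn : Big (Fintype.card V)) (A : Finset V)
    (hj : (A.card : ℝ) ≤ jj V) (hG' : QR (ind G A)) (hn' : Big (Fintype.card (Out A)))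
    (hhalf : (PS (ind G A)).card ≤ 2 * ((PS (ind G A)).filter fun g =>
      Struct (ind G A) g ∧ ∀ v ∈ A, 49 / 100 * ((hub g).card : ℝ) ≤
        (((hub g).filter fun x => G.Adj v x.1).card : ℝ)).card) :
    Real.exp (A.card * (nn V * Real.log (hh V) - 195 / 100 * nn V)) * (PS (ind G A)).card ≤
      2 * ((PS G).card : ℝ) := by
  set c : ℝ := Real.exp (nn V * Real.log (hh V) - 195 / 100 * nn V) with hc
  have hc0 : 0 < c := Real.exp_pos _
  set Gd := (PS (ind G A)).filter fun g =>
      Struct (ind G A) g ∧ ∀ v ∈ A, 49 / 100 * ((hub g).card : ℝ) ≤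
        (((hub g).filter fun x => G.Adj v x.1).card : ℝ) with hGd
  -- many extensions of each good system
  have hone : ∀ PB ∈ Gd, c ^ A.card ≤ ((extOn G A univ PB).card : ℝ) := by
    intro PB hPB
    rw [hGd, mem_filter] at hPB
    obtain ⟨hPS, hS, hatt⟩ := hPB
    have hsys : IsSys (ind G A) PB := (mem_filter.1 hPS).2
    have key : ∀ A' : Finset V, A' ⊆ A → c ^ A'.card ≤ ((extOn G A (Aᶜ ∪ A') PB).card : ℝ) := by
      intro A'
      induction A' using Finset.induction_on with
      | empty =>
        intro _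
        rw [card_empty, pow_zero, union_empty]
        have h1 : 0 < (extOn G A Aᶜ PB).card :=
          card_pos.2 ⟨lift A PB, mem_extOn.2 ⟨sysOn_lift hsys, fun _ _ _ _ => rfl⟩⟩
        exact_mod_cast h1
      | insert v A' hv ih =>
        intro hsub
        have hvA : v ∈ A := hsub (mem_insert_self _ _)
        have h1 := ih (fun x hx => hsub (mem_insert_of_mem hx))
        have hvS : v ∉ Aᶜ ∪ A' := by
          rw [mem_union, mem_compl, not_or, not_not]
          exact ⟨hvA, hv⟩
        have h2 := extOn_step (G := G) (A := A) (S := Aᶜ ∪ A') subset_union_left (v := v)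
          (PB := PB) (c := c) (fun g hg => one_leaf hn hj hG' hn' hsys hS (hatt v hvA)
            subset_union_left hvS (mem_extOn.1 hg).1 (mem_extOn.1 hg).2)
        rw [card_insert_of_notMem hv, pow_succ, union_insert]
        exact (mul_le_mul_of_nonneg_right h1 hc0.le).trans h2
    have h1 := key A Subset.rfl
    have h2 : Aᶜ ∪ A = univ := by
      ext x
      simp only [mem_union, mem_compl, mem_univ, iff_true]
      tauto
    rwa [h2] at h1
  -- the extensions of different systems are different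
  have hdisj : ((Gd : Finset _) : Set (Out A → Out A → Out A)).PairwiseDisjoint
      (fun PB => extOn G A univ PB) := by
    intro P1 _ P2 _ hne
    rw [Function.onFun, disjoint_left]
    intro g h1 h2
    apply hne
    have h3 := (mem_extOn.1 h1).2
    have h4 := (mem_extOn.1 h2).2
    apply lift_injective A
    funext a b
    by_cases hab : a ∉ A ∧ b ∉ A
    · rw [← h3 a b hab.1 hab.2, ← h4 a b hab.1 hab.2]
    · unfold lift
      rw [dif_neg hab, dif_neg hab]
  have hsub : Gd.biUnion (fun PB => extOn G A univ PB) ⊆ PS G := by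
    intro g hg
    obtain ⟨PB, _, h1⟩ := mem_biUnion.1 hg
    exact mem_filter.2 ⟨mem_univ _, sysOn_univ.1 (mem_extOn.1 h1).1⟩
  have h1 := card_le_card hsub
  rw [card_biUnion hdisj] at h1
  have h2 : ((∑ PB ∈ Gd, (extOn G A univ PB).card : ℕ) : ℝ) ≤ ((PS G).card : ℝ) := by
    exact_mod_cast h1
  have h3 : (Gd.card : ℝ) * c ^ A.card ≤ ((PS G).card : ℝ) := by
    refine le_trans ?_ h2
    push_cast
    calc (Gd.card : ℝ) * c ^ A.card = ∑ PB ∈ Gd, c ^ A.card := by
          rw [sum_const, nsmul_eq_mul]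
      _ ≤ ∑ PB ∈ Gd, ((extOn G A univ PB).card : ℝ) := sum_le_sum hone
  have h4 : ((PS (ind G A)).card : ℝ) ≤ 2 * Gd.card := by exact_mod_cast hhalf
  have h5 : Real.exp (A.card * (nn V * Real.log (hh V) - 195 / 100 * nn V)) = c ^ A.card := by
    rw [hc, ← Real.exp_nat_mul]
  rw [h5]
  calc c ^ A.card * ((PS (ind G A)).card : ℝ) ≤ c ^ A.card * (2 * Gd.card) :=
        mul_le_mul_of_nonneg_left h4 (by positivity)
    _ = 2 * ((Gd.card : ℝ) * c ^ A.card) := by ring
    _ ≤ 2 * ((PS G).card : ℝ) := by linarith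

end

end CEB
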