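import Pool.Agent.Work.MP_ceb7a8_co.Par

/-!
Path systems on a set S of vertices, and the leaf lemma: adding a vertex v to a consistent
system on S so that v is not an inner vertex of any path.
-/

namespace CEB

open Finset

noncomputable section

open scoped Classical

variable {V : Type*}

/-- consistent path systems on the set S, with the value g u v = u outside S -/
structure SysOn (G : SimpleGraph V) (S : Finset V) (g : V → V → V) : Prop where
  out : ∀ u v, (u ∉ S ∨ v ∉ S) → g u v = u
  self : ∀ u, g u u = u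
  mem : ∀ u ∈ S, ∀ v ∈ S, u ≠ v → g u v ∈ S
  adj : ∀ u ∈ S, ∀ v ∈ S, u ≠ v → G.Adj u (g u v)
  cons : ∀ u ∈ S, ∀ v ∈ S, u ≠ v → g u v ≠ v → g v (g u v) = g v u
  len : ∃ d : V → V → ℕ, (∀ u ∈ S, ∀ v ∈ S, d u v = d v u) ∧ (∀ u ∈ S, d u u = 0) ∧
    ∀ u ∈ S, ∀ v ∈ S, u ≠ v → d u v = d (g u v) v + 1

theorem sysOn_univ [Fintype V] {G : SimpleGraph V} {g : V → V → V} :
    SysOn G univ g ↔ IsSys G g := by
  constructor
  · intro h
    obtain ⟨d, h1, h2, h3⟩ := h.len
    exact ⟨h.self, fun u v => h.adj u (mem_univ _) v (mem_univ _),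
      fun u v => h.cons u (mem_univ _) v (mem_univ _), d,
      fun u v => h1 u (mem_univ _) v (mem_univ _), fun u => h2 u (mem_univ _),
      fun u v => h3 u (mem_univ _) v (mem_univ _)⟩
  · intro h
    obtain ⟨d, h1, h2, h3⟩ := h.len
    exact ⟨fun u v h => by simp at h, h.self, fun _ _ _ _ _ => mem_univ _,
      fun u _ v _ => h.adj u v, fun u _ v _ => h.cons u v, d,
      fun u _ v _ => h1 u v, fun u _ => h2 u, fun u _ v _ => h3 u v⟩

/-- v is added as a leaf: the path from v to b starts with the edge from v to ρ b -/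
def leafExt (g : V → V → V) (S : Finset V) (v : V) (ρ : V → V) : V → V → V := fun a b =>
  if a = v then (if b ∈ S then ρ b else v)
  else if b = v then (if a ∈ S then (if ρ a = a then v else g a (ρ a)) else a)
  else g a b

section leaf

variable {G : SimpleGraph V} {S : Finset V} {g : V → V → V} {v : V} {ρ : V → V}

theorem leafExt_old {a b : V} (ha : a ≠ v) (hb : b ≠ v) : leafExt g S v ρ a b = g a b := by
  unfold leafExt
  rw [if_neg ha, if_neg hb]

theorem leafExt_left {b : V} (hb : b ∈ S) : leafExt g S v ρ v b = ρ b := by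
  unfold leafExt
  rw [if_pos rfl, if_pos hb]

theorem leafExt_self (hv : v ∉ S) : leafExt g S v ρ v v = v := by
  unfold leafExt
  rw [if_pos rfl, if_neg hv]

theorem leafExt_right {a : V} (hv : v ∉ S) (ha : a ∈ S) :
    leafExt g S v ρ a v = if ρ a = a then v else g a (ρ a) := by
  have hne : a ≠ v := fun h => hv (h ▸ ha)
  unfold leafExt
  rw [if_neg hne, if_pos rfl, if_pos ha]

/-- the leaf lemma -/
theorem SysOn.leaf (h : SysOn G S g) (hv : v ∉ S) (h1 : ∀ b ∈ S, ρ b ∈ S)
    (h2 : ∀ b ∈ S, G.Adj v (ρ b)) (h3 : ∀ b ∈ S, ρ b ≠ b → ρ (g b (ρ b)) = ρ b) :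
    SysOn G (insert v S) (leafExt g S v ρ) := by
  have hne : ∀ {a : V}, a ∈ S → a ≠ v := fun {a} ha h4 => hv (h4 ▸ ha)
  obtain ⟨d, hd1, hd2, hd3⟩ := h.len
  refine ⟨?_, ?_, ?_, ?_, ?_, ?_⟩
  · intro a b hab
    simp only [mem_insert, not_or] at hab
    unfold leafExt
    by_cases ha : a = v
    · rw [if_pos ha]
      rcases hab with hab | hab
      · exact absurd ha hab.1
      · rw [if_neg hab.2, ha]
    · rw [if_neg ha]
      by_cases hb : b = v
      · rw [if_pos hb]
        rcases hab with hab | hab
        · rw [if_neg hab.2]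
        · exact absurd hb hab.1
      · rw [if_neg hb]
        exact h.out a b (hab.imp (fun h => h.2) (fun h => h.2))
  · intro a
    by_cases ha : a = v
    · rw [ha]; exact leafExt_self hv
    · rw [leafExt_old ha ha]; exact h.self a
  · intro a ha b hb hab
    rw [mem_insert] at ha hb
    rcases ha with ha | ha
    · rcases hb with hb | hb
      · exact absurd (ha.trans hb.symm) hab
      · rw [ha, leafExt_left hb]
        exact mem_insert_of_mem (h1 b hb)
    · rcases hb with hb | hb
      · rw [hb, leafExt_right hv ha]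
        split_ifs with h4
        · exact mem_insert_self _ _
        · exact mem_insert_of_mem (h.mem a ha _ (h1 a ha) (fun h5 => h4 h5.symm))
      · rw [leafExt_old (hne ha) (hne hb)]
        exact mem_insert_of_mem (h.mem a ha b hb hab)
  · intro a ha b hb hab
    rw [mem_insert] at ha hb
    rcases ha with ha | ha
    · rcases hb with hb | hb
      · exact absurd (ha.trans hb.symm) hab
      · rw [ha, leafExt_left hb]
        exact h2 b hb
    · rcases hb with hb | hb
      · rw [hb, leafExt_right hv ha]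
        split_ifs with h4
        · have := h2 a ha
          rw [h4] at this
          exact this.symm
        · exact h.adj a ha _ (h1 a ha) (fun h5 => h4 h5.symm)
      · rw [leafExt_old (hne ha) (hne hb)]
        exact h.adj a ha b hb hab
  · intro a ha b hb hab hn
    rw [mem_insert] at ha hb
    rcases ha with ha | ha
    · rcases hb with hb | hb
      · exact absurd (ha.trans hb.symm) hab
      · rw [ha, leafExt_left hb] at hn
        rw [ha, leafExt_left hb, leafExt_right hv hb, if_neg hn,
          leafExt_old (hne hb) (hne (h1 b hb))]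
    · rcases hb with hb | hb
      · rw [hb, leafExt_right hv ha] at hn
        by_cases h4 : ρ a = a
        · rw [if_pos h4] at hn
          exact absurd rfl hn
        · have h5 : g a (ρ a) ∈ S := h.mem a ha _ (h1 a ha) (fun h5 => h4 h5.symm)
          rw [hb, leafExt_right hv ha, if_neg h4, leafExt_left h5, leafExt_left ha]
          exact h3 a ha h4
      · rw [leafExt_old (hne ha) (hne hb)] at hn
        have h5 := h.mem a ha b hb hab
        rw [leafExt_old (hne ha) (hne hb), leafExt_old (hne hb) (hne h5),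
          leafExt_old (hne hb) (hne ha)]
        exact h.cons a ha b hb hab hn
  · refine ⟨fun a b => if a = v then (if b = v then 0 else d (ρ b) b + 1)
      else if b = v then d (ρ a) a + 1 else d a b, ?_, ?_, ?_⟩
    · intro a ha b hb
      rw [mem_insert] at ha hb
      by_cases hav : a = v
      · by_cases hbv : b = v
        · simp [hav, hbv]
        · simp [hav, hbv]
      · by_cases hbv : b = v
        · simp [hav, hbv]
        · simp only [if_neg hav, if_neg hbv]
          exact hd1 a (ha.resolve_left hav) b (hb.resolve_left hbv)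
    · intro a ha
      rw [mem_insert] at ha
      by_cases hav : a = v
      · simp [hav]
      · simp only [if_neg hav]
        exact hd2 a (ha.resolve_left hav)
    · intro a ha b hb hab
      rw [mem_insert] at ha hb
      rcases ha with ha | ha
      · rcases hb with hb | hb
        · exact absurd (ha.trans hb.symm) hab
        · rw [ha, leafExt_left hb]
          simp only [if_pos, if_neg (hne hb), if_neg (hne (h1 b hb))]
      · rcases hb with hb | hb
        · rw [hb, leafExt_right hv ha]
          by_cases h4 : ρ a = a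
          · have h5 := hd2 a ha
            simp only [if_neg (hne ha), if_pos, h4, h5]
          · have h5 : g a (ρ a) ∈ S := h.mem a ha _ (h1 a ha) (fun h5 => h4 h5.symm)
            have h6 := hd3 a ha (ρ a) (h1 a ha) (fun h5 => h4 h5.symm)
            have h7 := hd1 a ha (ρ a) (h1 a ha)
            have h8 := hd1 _ h5 (ρ a) (h1 a ha)
            have h9 := h3 a ha h4
            simp only [if_neg (hne ha), if_pos, if_neg h4, if_neg (hne h5), h9]
            omega
        · rw [leafExt_old (hne ha) (hne hb)]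
          have h5 := h.mem a ha b hb hab
          simp only [if_neg (hne ha), if_neg (hne hb), if_neg (hne h5)]
          exact hd3 a ha b hb hab

end leaf

/-! ### the systems outside A -/

section lift

variable [Fintype V]

/-- a system on the vertices outside A, as a function on V -/
def lift (A : Finset V) (g : Out A → Out A → Out A) : V → V → V := fun u v =>
  if h : u ∉ A ∧ v ∉ A then (g ⟨u, h.1⟩ ⟨v, h.2⟩).1 else u

omit [Fintype V] in
theorem lift_mk {A : Finset V} (g : Out A → Out A → Out A) {u v : V} (hu : u ∉ A) (hv : v ∉ A) :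
    lift A g u v = (g ⟨u, hu⟩ ⟨v, hv⟩).1 := by
  unfold lift
  rw [dif_pos ⟨hu, hv⟩]

theorem lift_injective (A : Finset V) : Function.Injective (lift A) := by
  intro g g' h
  funext x y
  have h1 := congrFun (congrFun h x.1) y.1
  rw [lift_mk g x.2 y.2, lift_mk g' x.2 y.2] at h1
  exact Subtype.ext h1

theorem sysOn_lift {G : SimpleGraph V} {A : Finset V} {g : Out A → Out A → Out A}
    (h : IsSys (ind G A) g) : SysOn G Aᶜ (lift A g) := by
  obtain ⟨d, hd1, hd2, hd3⟩ := h.len
  refine ⟨?_, ?_, ?_, ?_, ?_, ?_⟩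
  · intro u v huv
    unfold lift
    rw [dif_neg]
    rintro ⟨h1, h2⟩
    simp only [mem_compl, not_not] at huv
    rcases huv with h3 | h3
    · exact h1 h3
    · exact h2 h3
  · intro u
    by_cases hu : u ∉ A
    · rw [lift_mk g hu hu, h.self]
    · unfold lift
      rw [dif_neg (fun h1 => hu h1.1)]
  · intro u hu v hv _
    rw [mem_compl] at hu hv
    rw [lift_mk g hu hv, mem_compl]
    exact (g _ _).2
  · intro u hu v hv huv
    rw [mem_compl] at hu hv
    rw [lift_mk g hu hv]
    exact h.adj ⟨u, hu⟩ ⟨v, hv⟩ (fun h1 => huv (congrArg Subtype.val h1))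
  · intro u hu v hv huv hn
    rw [mem_compl] at hu hv
    rw [lift_mk g hu hv] at hn
    rw [lift_mk g hu hv, lift_mk g hv (g _ _).2, lift_mk g hv hu]
    have h1 := h.cons ⟨u, hu⟩ ⟨v, hv⟩ (fun h1 => huv (congrArg Subtype.val h1))
      (fun h1 => hn (congrArg Subtype.val h1))
    exact congrArg Subtype.val h1
  · refine ⟨fun u v => if h : u ∉ A ∧ v ∉ A then d ⟨u, h.1⟩ ⟨v, h.2⟩ else 0, ?_, ?_, ?_⟩
    · intro u hu v hv
      rw [mem_compl] at hu hv
      simp only [dif_pos (And.intro hu hv), dif_pos (And.intro hv hu)]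
      exact hd1 _ _
    · intro u hu
      rw [mem_compl] at hu
      simp only [dif_pos (And.intro hu hu)]
      exact hd2 _
    · intro u hu v hv huv
      rw [mem_compl] at hu hv
      have h1 : lift A g u v ∉ A := by
        rw [lift_mk g hu hv]
        exact (g _ _).2
      simp only [dif_pos (And.intro hu hv), dif_pos (And.intro h1 hv)]
      have h2 : (⟨lift A g u v, h1⟩ : Out A) = g ⟨u, hu⟩ ⟨v, hv⟩ := by
        apply Subtype.ext
        exact lift_mk g hu hv
      rw [h2]
      exact hd3 ⟨u, hu⟩ ⟨v, hv⟩ (fun h1 => huv (congrArg Subtype.val h1))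

end lift

/-! ### counting the leaf extensions -/

section count

variable [Fintype V] {G : SimpleGraph V} {S : Finset V} {g : V → V → V} {v x0 : V}

/-- the possible first inner vertices for a leaf v with neighbourhood D: the vertices of Zp hang
at x0, the other vertices of D are joined by an edge, the others choose freely -/
def rootSet (g : V → V → V) (S D Zp : Finset V) (x0 b : V) : Finset V :=
  if b ∉ S then {b} else if b ∈ Zp then {x0} else if b ∈ D then {b}
  else (D \ Zp).filter fun z => Used g b z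

omit [Fintype V] in
theorem SysOn.leaf_of_root (h : SysOn G S g) (hv : v ∉ S) {D Zp : Finset V}
    (hDS : D ⊆ S) (hD : ∀ x ∈ D, G.Adj v x) (hx0 : x0 ∈ D)
    (hZp : ∀ b ∈ Zp, b ∈ S → g b x0 ∈ Zp) {ρ : V → V}
    (hρ : ∀ b, ρ b ∈ rootSet g S D Zp x0 b) : SysOn G (insert v S) (leafExt g S v ρ) := by
  have key : ∀ b ∈ S, (b ∈ Zp ∧ ρ b = x0) ∨ (b ∉ Zp ∧ b ∈ D ∧ ρ b = b) ∨
      (b ∉ Zp ∧ b ∉ D ∧ ρ b ∈ D ∧ ρ b ∉ Zp ∧ Used g b (ρ b)) := by
    intro b hb
    have h1 := hρ b
    unfold rootSet at h1
    rw [if_neg (not_not.2 hb)] at h1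
    by_cases h2 : b ∈ Zp
    · rw [if_pos h2, mem_singleton] at h1
      exact Or.inl ⟨h2, h1⟩
    · rw [if_neg h2] at h1
      by_cases h3 : b ∈ D
      · rw [if_pos h3, mem_singleton] at h1
        exact Or.inr (Or.inl ⟨h2, h3, h1⟩)
      · rw [if_neg h3, mem_filter, mem_sdiff] at h1
        exact Or.inr (Or.inr ⟨h2, h3, h1.1.1, h1.1.2, h1.2⟩)
  refine h.leaf hv ?_ ?_ ?_
  · intro b hb
    rcases key b hb with h1 | h1 | h1
    · rw [h1.2]; exact hDS hx0
    · rw [h1.2.2]; exact hb
    · exact hDS h1.2.2.1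
  · intro b hb
    rcases key b hb with h1 | h1 | h1
    · rw [h1.2]; exact hD x0 hx0
    · rw [h1.2.2]; exact hD b h1.2.1
    · exact hD _ h1.2.2.1
  · intro b hb hn
    rcases key b hb with h1 | h1 | h1
    · rw [h1.2] at hn ⊢
      have h2 : g b x0 ∈ Zp := hZp b h1.1 hb
      have h3 : g b x0 ∈ S := h.mem b hb x0 (hDS hx0) (fun h4 => hn h4.symm)
      rcases key _ h3 with h4 | h4 | h4
      · exact h4.2
      · exact absurd h2 h4.1
      · exact absurd h2 h4.1
    · exact absurd h1.2.2 hn
    · rw [h1.2.2.2.2.2]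
      rcases key _ (hDS h1.2.2.1) with h4 | h4 | h4
      · exact absurd h4.1 h1.2.2.2.1
      · exact h4.2.2
      · exact absurd h1.2.2.1 h4.2.1

/-- number of leaf extensions -/
theorem card_leaf_ge (h : SysOn G S g) (hv : v ∉ S) {D Zp : Finset V}
    (hDS : D ⊆ S) (hD : ∀ x ∈ D, G.Adj v x) (hx0 : x0 ∈ D)
    (hZp : ∀ b ∈ Zp, b ∈ S → g b x0 ∈ Zp) {t : ℝ} (ht : 1 ≤ t)
    (hr : ∀ b ∈ S, b ∉ D → b ∉ Zp → t ≤ (((D \ Zp).filter fun z => Used g b z).card : ℝ)) :
    t ^ (S.card - D.card - Zp.card) ≤
      ((univ.filter fun g' : V → V → V => SysOn G (insert v S) g' ∧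
        ∀ a ∈ S, ∀ b ∈ S, g' a b = g a b).card : ℝ) := by
  have h1 : ((Fintype.piFinset fun b => rootSet g S D Zp x0 b).card : ℝ) ≤
      ((univ.filter fun g' : V → V → V => SysOn G (insert v S) g' ∧
        ∀ a ∈ S, ∀ b ∈ S, g' a b = g a b).card : ℝ) := by
    norm_cast
    refine card_le_card_of_injOn (fun ρ => leafExt g S v ρ) ?_ ?_
    · intro ρ hρ
      rw [mem_coe, Fintype.mem_piFinset] at hρ
      rw [mem_coe, mem_filter]
      refine ⟨mem_univ _, h.leaf_of_root hv hDS hD hx0 hZp hρ, ?_⟩
      intro a ha b hb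
      exact leafExt_old (fun h4 => hv (h4 ▸ ha)) (fun h4 => hv (h4 ▸ hb))
    · intro ρ hρ ρ' hρ' h2
      rw [mem_coe, Fintype.mem_piFinset] at hρ hρ'
      funext b
      by_cases hb : b ∈ S
      · have h3 := congrFun (congrFun h2 v) b
        simp only at h3
        rwa [leafExt_left hb, leafExt_left hb] at h3
      · have h3 := hρ b
        have h4 := hρ' b
        unfold rootSet at h3 h4
        rw [if_pos hb, mem_singleton] at h3 h4
        rw [h3, h4]
  refine le_trans ?_ h1
  rw [Fintype.card_piFinset]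
  push_cast
  set F := S.filter fun b => b ∉ D ∧ b ∉ Zp with hF
  have h2 : ∏ b ∈ F, t ≤ ∏ b, ((rootSet g S D Zp x0 b).card : ℝ) := by
    have h3 : ∏ b ∈ F, t ≤ ∏ b ∈ F, ((rootSet g S D Zp x0 b).card : ℝ) := by
      refine prod_le_prod (fun _ _ => by linarith) fun b hb => ?_
      rw [hF, mem_filter] at hb
      unfold rootSet
      rw [if_neg (not_not.2 hb.1), if_neg hb.2.2, if_neg hb.2.1]
      exact hr b hb.1 hb.2.1 hb.2.2
    have h4 : ∏ b ∈ F, ((rootSet g S D Zp x0 b).card : ℝ) =
        ∏ b, ((rootSet g S D Zp x0 b).card : ℝ) := by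
      refine prod_subset (subset_univ _) fun b _ hb => ?_
      have h5 : (rootSet g S D Zp x0 b).card = 1 := by
        unfold rootSet
        by_cases hbS : b ∉ S
        · rw [if_pos hbS, card_singleton]
        · rw [if_neg hbS]
          by_cases hbZ : b ∈ Zp
          · rw [if_pos hbZ, card_singleton]
          · rw [if_neg hbZ]
            by_cases hbD : b ∈ D
            · rw [if_pos hbD, card_singleton]
            · exact absurd (mem_filter.2 ⟨not_not.1 hbS, hbD, hbZ⟩) hb
      rw [h5, Nat.cast_one]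
    rw [← h4]
    exact h3
  refine le_trans ?_ h2
  rw [prod_const]
  refine pow_le_pow_right₀ ht ?_
  have h3 : S \ (D ∪ Zp) ⊆ F := by
    intro b hb
    rw [mem_sdiff, mem_union, not_or] at hb
    exact mem_filter.2 ⟨hb.1, hb.2.1, hb.2.2⟩
  have h4 := card_le_card h3
  have h5 := le_card_sdiff (D ∪ Zp) S
  have h6 := card_union_le D Zp
  omega

end count

end

end CEB
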