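import Pool.Agent.Work.MP_ceb7a8_co.ExtUp3
import Pool.Agent.Work.MP_ceb7a8_co.Leaf

/-!
Upper bound for the number of typical path systems that have a given poor closed set.
-/

namespace CEB.ExtU

open Finset

noncomputable section

open scoped Classical

variable {V : Type*} [Fintype V]

/-! ### the possible used neighbourhoods -/

/-- possible sets of used neighbours -/
def DDs (q : V → V → V) (A : Finset V) : Finset (Finset V) :=
  univ.filter fun D : Finset V => ∑ b ∈ univ.filter (fun b => b ∉ A ∧ b ∉ D),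
    ((D.filter fun x => q x b = b).card : ℝ) ≤
      502 / 100000 * hh V * nn V + 115 / 100 * hh V * D.card

theorem dB_mem {G : SimpleGraph V} (hG : QR G) (hn : Big (Fintype.card V)) {A : Finset V}
    {q g : V → V → V} (hg : Ext G q A g) (hs : Struct G g) (hp : Poor G g A) {v : V}
    (hv : v ∈ A) : dB g A v ∈ DDs q A := by
  refine mem_filter.2 ⟨mem_univ _, ?_⟩
  set D := dB g A v with hD
  have hDm : ∀ x, x ∈ D ↔ x ∉ A ∧ g v x = x := fun x => by
    rw [hD]
    unfold dB
    rw [mem_filter]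
    simp
  have h1 : ((D ∩ hubr G g).card : ℝ) ≤ 1 / 100 * hh V := by
    refine le_trans ?_ (hp.2.2.2.2.2 v hv).le
    have : D ∩ hubr G g ⊆ nb g v ∩ hubr G g := by
      intro x hx
      rw [mem_inter] at hx ⊢
      refine ⟨?_, hx.2⟩
      have h2 := (hDm x).1 hx.1
      exact mem_filter.2 ⟨mem_univ _, fun h => h2.1 (h ▸ hv), h2.2⟩
    exact_mod_cast card_le_card this
  refine le_trans ?_ (sum_nb_le hG hn hg.sys hs D h1)
  have h2 : ∀ b, ((D.filter fun x => q x b = b).card : ℝ) =
      ∑ x ∈ D, (if q x b = b then (1 : ℝ) else 0) := by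
    intro b
    rw [card_filter]
    push_cast
    rfl
  rw [sum_congr rfl fun b _ => h2 b, sum_comm]
  refine sum_le_sum fun x hx => ?_
  have h3 : ∑ b ∈ univ.filter (fun b => b ∉ A ∧ b ∉ D), (if q x b = b then (1 : ℝ) else 0) =
      (((univ.filter (fun b => b ∉ A ∧ b ∉ D)).filter fun b => q x b = b).card : ℝ) := by
    rw [card_filter]
    push_cast
    rfl
  rw [h3]
  have h4 : ((univ.filter (fun b => b ∉ A ∧ b ∉ D)).filter fun b => q x b = b) ⊆ nb g x := by
    intro b hb
    rw [mem_filter, mem_filter] at hb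
    obtain ⟨⟨_, hbA, hbD⟩, hq⟩ := hb
    refine mem_filter.2 ⟨mem_univ _, fun h => hbD (h ▸ hx), ?_⟩
    rw [hg.agr x ((hDm x).1 hx).1 b hbA]
    exact hq
  exact_mod_cast card_le_card h4

theorem exp_nat_le {k : ℕ} : Real.exp k ≤ 2.7182818286 ^ k := by
  have h1 : Real.exp (k : ℝ) = Real.exp 1 ^ k := by
    rw [← Real.exp_nat_mul, mul_one]
  rw [h1]
  exact pow_le_pow_left₀ (Real.exp_pos _).le Real.exp_one_lt_d9.le _

/-- one factor -/
theorem factor_le (hn : Big (Fintype.card V)) (q : V → V → V) (A : Finset V)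
    (hj : (A.card : ℝ) ≤ jj V) (hI : ((irrS q A).card : ℝ) ≤ nn V ^ (1 - sig / 2))
    {D : Finset V} (hD : D ∈ DDs q A) :
    ∏ b ∈ univ.filter (fun b => b ∉ A ∧ b ∉ D), cB q A (nn V ^ (1 - sig / 4)) D b ≤
      Real.exp (nn V * Real.log (hh V) - 525 / 100 * nn V) *
        (Real.exp 178 / hh V) ^ D.card := by
  obtain ⟨hL, he, h0, h30⟩ := big_facts hn
  have hL0 : 0 < LL V := lt_of_lt_of_le (by positivity) hL
  have hh0 := hh_pos hn
  have hK := rpow_le_hh hn (c := sig / 4) (by unfold sig; norm_num)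
  have hK2 := rpow_le_hh hn (c := sig / 2) (by unfold sig; norm_num)
  have hKp : 0 < nn V ^ (1 - sig / 4) := Real.rpow_pos_of_pos h0 _
  have hKp2 : 0 < nn V ^ (1 - sig / 2) := Real.rpow_pos_of_pos h0 _
  set B : Finset V := univ.filter (fun b => b ∉ A ∧ b ∉ D) with hB
  have hBD : (B.card : ℝ) + D.card ≤ nn V := by
    have h1 : Disjoint B D := by
      rw [disjoint_left]
      intro b hb
      exact (mem_filter.1 hb).2.2
    have h2 := card_le_univ (B ∪ D)
    rw [card_union_of_disjoint h1] at h2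
    unfold nn
    exact_mod_cast h2
  have hBn : (B.card : ℝ) ≤ nn V := by
    have : (0 : ℝ) ≤ D.card := Nat.cast_nonneg _
    linarith
  -- the sum
  have hS : ∑ b ∈ B, cB q A (nn V ^ (1 - sig / 4)) D b ≤
      503 / 100000 * hh V * nn V + 115 / 100 * hh V * D.card := by
    have h1 : ∀ b ∈ B, cB q A (nn V ^ (1 - sig / 4)) D b ≤
        1 / 100000 * hh V + ((D.filter fun x => q x b = b).card : ℝ) := by
      intro b _
      unfold cB
      have h2 := (card_union_le (A ∪ irrS q A) (D.filter fun x => q x b = b))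
      have h3 := card_union_le A (irrS q A)
      have h4 : ((A ∪ irrS q A ∪ D.filter fun x => q x b = b).card : ℝ) ≤
          (A.card : ℝ) + (irrS q A).card + ((D.filter fun x => q x b = b).card : ℝ) := by
        exact_mod_cast h2.trans (Nat.add_le_add_right h3 _)
      unfold jj at hj
      have h5 : 10 ^ 60 * nn V ^ (1 - sig / 4) + 4 * (10 ^ 60 * nn V ^ (1 - sig / 2)) ≤
        5 * hh V := by linarith
      norm_num at h5
      linarith
    refine (sum_le_sum h1).trans ?_
    rw [sum_add_distrib, sum_const, nsmul_eq_mul]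
    have h2 := (mem_filter.1 hD).2
    have h3 : (B.card : ℝ) * (1 / 100000 * hh V) ≤ nn V * (1 / 100000 * hh V) :=
      mul_le_mul_of_nonneg_right hBn (by positivity)
    linarith
  set μ : ℝ := hh V * Real.exp (-5) with hμ
  have hμ0 : 0 < μ := by positivity
  have h1 := prod_le_exp_sum B (fun b => cB q A (nn V ^ (1 - sig / 4)) D b) hμ0
    (fun b _ => by unfold cB; positivity)
  refine h1.trans ?_
  have h2 : (Real.exp 178 / hh V) ^ D.card =
      Real.exp ((D.card : ℝ) * (178 - Real.log (hh V))) := by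
    rw [Real.exp_nat_mul, Real.exp_sub, Real.exp_log hh0]
  rw [h2, ← Real.exp_add]
  apply Real.exp_le_exp.2
  have h3 : Real.log μ = Real.log (hh V) - 5 := by
    rw [hμ, Real.log_mul hh0.ne' (Real.exp_pos _).ne', Real.log_exp]
    ring
  rw [h3]
  have h4 : 6 ≤ Real.log (hh V) := by
    rw [Real.le_log_iff_exp_le hh0]
    have h5 : Real.exp 6 ≤ 2.7182818286 ^ 6 := by
      have := exp_nat_le (k := 6)
      norm_num at this ⊢
      exact this
    have h6 : (1 : ℝ) ≤ nn V ^ (1 - sig / 4) := by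
      apply Real.one_le_rpow
      · have : (1 : ℝ) ≤ LL V ^ 2 := one_le_pow₀ (le_trans (by norm_num) hL)
        nlinarith
      · unfold sig; norm_num
    norm_num at h5
    nlinarith
  have h5 : (B.card : ℝ) * (Real.log (hh V) - 6) ≤
      (nn V - D.card) * (Real.log (hh V) - 6) :=
    mul_le_mul_of_nonneg_right (by linarith) (by linarith)
  have h6 : (∑ b ∈ B, cB q A (nn V ^ (1 - sig / 4)) D b) / μ ≤
      75 / 100 * nn V + 172 * D.card := by
    rw [div_le_iff₀ hμ0, hμ]
    refine hS.trans ?_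
    have h7 : Real.exp 5 ≤ 149 := by
      have := exp_nat_le (k := 5)
      norm_num at this ⊢
      linarith
    have h8 : 1 / 149 ≤ Real.exp (-5) := by
      rw [Real.exp_neg, one_div]
      exact inv_anti₀ (Real.exp_pos _) h7
    have hD0 : (0 : ℝ) ≤ D.card := Nat.cast_nonneg _
    have h9 : (75 / 100 * nn V + 172 * D.card) * (hh V * (1 / 149)) ≤
        (75 / 100 * nn V + 172 * D.card) * (hh V * Real.exp (-5)) := by
      apply mul_le_mul_of_nonneg_left _ (by positivity)
      exact mul_le_mul_of_nonneg_left h8 hh0.le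
    refine le_trans ?_ h9
    have h10 : 0 ≤ hh V * nn V := by positivity
    have h11 : 0 ≤ hh V * D.card := by positivity
    nlinarith
  have h7 : (B.card : ℝ) * (Real.log (hh V) - 5 - 1) = (B.card : ℝ) * (Real.log (hh V) - 6) := by
    ring
  show (B.card : ℝ) * (Real.log (hh V) - 5 - 1) +
    (∑ b ∈ B, cB q A (nn V ^ (1 - sig / 4)) D b) / μ ≤ _
  rw [h7]
  nlinarith

/-- the sum over the used neighbourhoods -/
theorem sum_factor_le (hn : Big (Fintype.card V)) (q : V → V → V) (A : Finset V)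
    (hj : (A.card : ℝ) ≤ jj V) (hI : ((irrS q A).card : ℝ) ≤ nn V ^ (1 - sig / 2)) :
    ∑ D ∈ DDs q A, ∏ b ∈ univ.filter (fun b => b ∉ A ∧ b ∉ D),
      cB q A (nn V ^ (1 - sig / 4)) D b ≤
      Real.exp (nn V * Real.log (hh V) - 425 / 100 * nn V) := by
  obtain ⟨hL, he, h0, h30⟩ := big_facts hn
  have hL0 : 0 < LL V := lt_of_lt_of_le (by positivity) hL
  have hh0 := hh_pos hn
  have h1 := sum_le_sum fun D (hD : D ∈ DDs q A) => factor_le hn q A hj hI hD
  refine h1.trans ?_
  rw [← mul_sum]
  have h2 : ∑ D ∈ DDs q A, (Real.exp 178 / hh V) ^ D.card ≤ Real.exp (nn V) := by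
    calc ∑ D ∈ DDs q A, (Real.exp 178 / hh V) ^ D.card
        ≤ ∑ D ∈ (univ : Finset V).powerset, (Real.exp 178 / hh V) ^ D.card := by
          refine sum_le_sum_of_subset_of_nonneg ?_ fun D _ _ => by positivity
          intro D _
          exact mem_powerset.2 (subset_univ _)
      _ ≤ Real.exp (Real.exp 178 / hh V * (univ : Finset V).card) :=
          sum_pow_card_le_exp _ _ (by positivity)
      _ ≤ Real.exp (nn V) := by
          apply Real.exp_le_exp.2
          rw [card_univ]
          have h3 : (Fintype.card V : ℝ) = nn V := rfl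
          rw [h3]
          have h4 : Real.exp 178 / hh V * nn V = Real.exp 178 * LL V := by
            unfold hh
            field_simp
          rw [h4]
          have h5 : Real.exp 178 ≤ 10 ^ 100 := by
            have := exp_nat_le (k := 178)
            have h6 : (2.7182818286 : ℝ) ^ 178 ≤ 3 ^ 178 :=
              pow_le_pow_left₀ (by norm_num) (by norm_num) _
            have h7 : (3 : ℝ) ^ 178 ≤ 10 ^ 100 := by norm_num
            push_cast at this
            linarith
          have h6 : Real.exp 178 * LL V ≤ 10 ^ 100 * LL V :=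
            mul_le_mul_of_nonneg_right h5 hL0.le
          have h7 : (10 : ℝ) ^ 100 * LL V ≤ LL V * LL V :=
            mul_le_mul_of_nonneg_right hL hL0.le
          have h8 : LL V * LL V ≤ 10 ^ 30 * LL V ^ 2 := by nlinarith [sq_nonneg (LL V)]
          linarith
  calc Real.exp (nn V * Real.log (hh V) - 525 / 100 * nn V) *
        ∑ D ∈ DDs q A, (Real.exp 178 / hh V) ^ D.card
      ≤ Real.exp (nn V * Real.log (hh V) - 525 / 100 * nn V) * Real.exp (nn V) :=
        mul_le_mul_of_nonneg_left h2 (Real.exp_pos _).le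
    _ = Real.exp (nn V * Real.log (hh V) - 425 / 100 * nn V) := by
        rw [← Real.exp_add]
        congr 1
        ring

/-- the systems that extend q -/
theorem card_ext_fix {G : SimpleGraph V} (hG : QR G) (hn : Big (Fintype.card V)) (A : Finset V)
    (hj : (A.card : ℝ) ≤ jj V) (q : V → V → V) (S : Finset (V → V → V))
    (hS : ∀ g ∈ S, Ext G q A g ∧ Struct G g ∧ Poor G g A) :
    (S.card : ℝ) ≤ Real.exp (A.card * (nn V * Real.log (hh V) - 24 / 10 * nn V)) := by
  obtain ⟨hL, he, h0, h30⟩ := big_facts hn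
  have hL0 : 0 < LL V := lt_of_lt_of_le (by positivity) hL
  rcases S.eq_empty_or_nonempty with rfl | ⟨g0, hg0⟩
  · rw [card_empty, Nat.cast_zero]
    exact (Real.exp_pos _).le
  have hI : ((irrS q A).card : ℝ) ≤ nn V ^ (1 - sig / 2) := by
    obtain ⟨he0, hs0, _⟩ := hS g0 hg0
    refine le_trans ?_ hs0.s4
    have : irrS q A ⊆ thick g0 := by
      intro x hx
      obtain ⟨hxA, y, hyx, hc⟩ := (mem_filter.1 hx).2
      refine mem_filter.2 ⟨mem_univ _, y, hyx, lt_of_lt_of_le hc ?_⟩
      have h1 : (univ.filter fun b => b ∉ A ∧ b ≠ x ∧ q b x = y) ⊆ cl g0 x y := by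
        intro b hb
        obtain ⟨hbA, hbx, hq⟩ := (mem_filter.1 hb).2
        refine mem_filter.2 ⟨mem_univ _, hbx, ?_⟩
        rw [he0.agr b hbA x hxA]
        exact hq
      exact_mod_cast card_le_card h1
    exact_mod_cast card_le_card this
  have hM : 0 < nn V ^ (1 - sig / 4) := Real.rpow_pos_of_pos h0 _
  have hM2 : 2 ≤ nn V ^ (1 - sig / 4) := by
    have h1 : nn V ^ (1 / 2 : ℝ) ≤ nn V ^ (1 - sig / 4) := by
      apply Real.rpow_le_rpow_of_exponent_le
      · have : (1 : ℝ) ≤ LL V ^ 2 := one_le_pow₀ (le_trans (by norm_num) hL)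
        nlinarith
      · unfold sig; norm_num
    refine le_trans ?_ h1
    rw [Real.rpow_def_of_pos h0]
    have h10 := exp_big (c := 1 / 2) (by norm_num) hL
    have h11 : Real.log (nn V) * (1 / 2) = 1 / 2 * LL V := by
      unfold LL; ring
    rw [h11]
    refine le_trans ?_ h10
    have : (1 : ℝ) ≤ LL V ^ 3 := one_le_pow₀ (le_trans (by norm_num) hL)
    nlinarith
  have h1 := card_ext_le G q A S (fun g hg => (hS g hg).1) (DDs q A)
    (fun g hg v hv => dB_mem hG hn (hS g hg).1 (hS g hg).2.1 (hS g hg).2.2 hv)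
    (p := (nn V ^ (1 - sig / 4))⁻¹) (by positivity) (by
      rw [one_div]
      exact inv_anti₀ (by norm_num) hM2)
  rw [inv_inv] at h1
  refine h1.trans ?_
  have hs := sum_factor_le hn q A hj hI
  have hs0 : 0 ≤ ∑ D ∈ DDs q A, ∏ b ∈ univ.filter (fun b => b ∉ A ∧ b ∉ D),
      cB q A (nn V ^ (1 - sig / 4)) D b :=
    sum_nonneg fun D _ => prod_nonneg fun b _ => by unfold cB; positivity
  have e1 : (Fintype.card V : ℝ) ^ (A.card * A.card) = Real.exp (A.card * (A.card * LL V)) := by
    have h2 : (Fintype.card V : ℝ) = nn V := rfl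
    rw [h2, he, ← Real.exp_nat_mul]
    push_cast
    congr 1
    ring
  have e2 : 2 * (nn V ^ (1 - sig / 4))⁻¹ * (A.card * (nn V * nn V ^ (1 - sig / 2))) =
      A.card * (2 * nn V ^ (1 - sig / 4)) := by
    have h2 : nn V * nn V ^ (1 - sig / 2) = nn V ^ (1 - sig / 4) * nn V ^ (1 - sig / 4) := by
      have h3 : nn V * nn V ^ (1 - sig / 2) = nn V ^ (1 : ℝ) * nn V ^ (1 - sig / 2) := by
        rw [Real.rpow_one]
      rw [h3, ← Real.rpow_add h0, ← Real.rpow_add h0]
      congr 1
      ring
    rw [h2]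
    field_simp
  rw [e1, e2]
  have h2 : (∑ D ∈ DDs q A, ∏ b ∈ univ.filter (fun b => b ∉ A ∧ b ∉ D),
      cB q A (nn V ^ (1 - sig / 4)) D b) ^ A.card ≤
      Real.exp (A.card * (nn V * Real.log (hh V) - 425 / 100 * nn V)) := by
    rw [Real.exp_nat_mul]
    exact pow_le_pow_left₀ hs0 hs _
  have h3 : Real.exp (A.card * (A.card * LL V)) *
      Real.exp (A.card * (2 * nn V ^ (1 - sig / 4))) *
      (∑ D ∈ DDs q A, ∏ b ∈ univ.filter (fun b => b ∉ A ∧ b ∉ D),
      cB q A (nn V ^ (1 - sig / 4)) D b) ^ A.card ≤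
      Real.exp (A.card * (A.card * LL V)) *
      Real.exp (A.card * (2 * nn V ^ (1 - sig / 4))) *
      Real.exp (A.card * (nn V * Real.log (hh V) - 425 / 100 * nn V)) :=
    mul_le_mul_of_nonneg_left h2 (by positivity)
  refine h3.trans ?_
  rw [← Real.exp_add, ← Real.exp_add]
  apply Real.exp_le_exp.2
  have h4 : (A.card : ℝ) * LL V ≤ 1 / 10 * nn V := by
    have h5 := jj_le hn
    have h6 : (A.card : ℝ) * LL V ≤ jj V * LL V := mul_le_mul_of_nonneg_right hj hL0.le
    have h7 : LL V ≤ LL V ^ 3 := by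
      have : (1 : ℝ) ≤ LL V ^ 2 := one_le_pow₀ (le_trans (by norm_num) hL)
      nlinarith
    have h8 : jj V * LL V ≤ jj V * LL V ^ 3 := mul_le_mul_of_nonneg_left h7 (jj_nonneg V)
    have h9 : 0 ≤ jj V * LL V ^ 3 := mul_nonneg (jj_nonneg V) (by positivity)
    norm_num at h5
    linarith
  have h5 : 2 * nn V ^ (1 - sig / 4) ≤ 1 / 10 * nn V := by
    have h6 := rpow_small hn (c := sig / 4) (by unfold sig; norm_num)
    have h7 : (1 : ℝ) ≤ LL V ^ 3 := one_le_pow₀ (le_trans (by norm_num) hL)
    have h8 : nn V ^ (1 - sig / 4) * 1 ≤ nn V ^ (1 - sig / 4) * LL V ^ 3 :=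
      mul_le_mul_of_nonneg_left h7 hM.le
    norm_num at h6 h8
    linarith
  have hA0 : (0 : ℝ) ≤ A.card := Nat.cast_nonneg _
  have h6 : (A.card : ℝ) * (A.card * LL V) + A.card * (2 * nn V ^ (1 - sig / 4)) +
      A.card * (nn V * Real.log (hh V) - 425 / 100 * nn V) =
      A.card * (A.card * LL V + 2 * nn V ^ (1 - sig / 4) +
        (nn V * Real.log (hh V) - 425 / 100 * nn V)) := by ring
  rw [h6]
  apply mul_le_mul_of_nonneg_left _ hA0
  linarith

/-! ### restriction to the complement -/

/-- the restriction of a system to the vertices outside A -/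
def restr (A : Finset V) (g : V → V → V) : Out A → Out A → Out A := fun x y =>
  if h : g x.1 y.1 ∉ A then ⟨g x.1 y.1, h⟩ else x

omit [Fintype V] in
theorem restr_val {A : Finset V} {g : V → V → V} (h : Closed g ((A : Set V)ᶜ))
    (x y : Out A) : (restr A g x y).1 = g x.1 y.1 := by
  have h1 : g x.1 y.1 ∉ A := by
    have := h x.1 (by simp) y.1 (by simp)
    simpa using this
  unfold restr
  rw [dif_pos h1]

theorem restr_sys {G : SimpleGraph V} {A : Finset V} {g : V → V → V} (hg : IsSys G g)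
    (h : Closed g ((A : Set V)ᶜ)) : IsSys (ind G A) (restr A g) := by
  obtain ⟨d, hd1, hd2, hd3⟩ := hg.len
  refine ⟨?_, ?_, ?_, ?_⟩
  · intro u
    apply Subtype.ext
    rw [restr_val h, hg.self]
  · intro u v huv
    show G.Adj u.1 (restr A g u v).1
    rw [restr_val h]
    exact hg.adj _ _ (fun h1 => huv (Subtype.ext h1))
  · intro u v huv hn
    apply Subtype.ext
    rw [restr_val h, restr_val h, restr_val h]
    refine hg.cons _ _ (fun h1 => huv (Subtype.ext h1)) ?_
    intro h1
    apply hn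
    apply Subtype.ext
    rw [restr_val h]
    exact h1
  · refine ⟨fun u v => d u.1 v.1, fun u v => hd1 _ _, fun u => hd2 _, fun u v huv => ?_⟩
    show d u.1 v.1 = d (restr A g u v).1 v.1 + 1
    rw [restr_val h]
    exact hd3 _ _ (fun h1 => huv (Subtype.ext h1))

end

end CEB.ExtU

namespace CEB

open Finset ExtU

noncomputable section

open scoped Classical

variable {V : Type*} [Fintype V]

/-- (7.3), upper bound -/
theorem ext_upper {G : SimpleGraph V} (hG : QR G) (hn : Big (Fintype.card V)) (A : Finset V)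
    (hA : A.Nonempty) (hj : (A.card : ℝ) ≤ jj V) :
    (((PS G).filter fun g => Struct G g ∧ Poor G g A).card : ℝ) ≤
      Real.exp (A.card * (nn V * Real.log (hh V) - 24 / 10 * nn V)) * (PS (ind G A)).card := by
  set F := (PS G).filter fun g => Struct G g ∧ Poor G g A with hF
  have hmem : ∀ g ∈ F, IsSys G g ∧ Struct G g ∧ Poor G g A := by
    intro g hg
    obtain ⟨h1, h2⟩ := mem_filter.1 hg
    exact ⟨(mem_filter.1 h1).2, h2⟩
  have hmaps : ∀ g ∈ F, restr A g ∈ PS (ind G A) := by
    intro g hg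
    obtain ⟨h1, h2, h3⟩ := hmem g hg
    exact mem_filter.2 ⟨mem_univ _, restr_sys h1 h3.2.2.2.1⟩
  have h1 : (F.card : ℝ) = ∑ q ∈ PS (ind G A), ((F.filter fun g => restr A g = q).card : ℝ) := by
    rw [card_eq_sum_card_fiberwise (f := restr A) (t := PS (ind G A)) (fun g hg => hmaps g hg)]
    push_cast
    rfl
  rw [h1]
  have h2 : ∀ q ∈ PS (ind G A), ((F.filter fun g => restr A g = q).card : ℝ) ≤
      Real.exp (A.card * (nn V * Real.log (hh V) - 24 / 10 * nn V)) := by
    intro q _
    refine card_ext_fix hG hn A hj (lift A q) _ ?_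
    intro g hg
    obtain ⟨hgF, hgq⟩ := mem_filter.1 hg
    obtain ⟨k1, k2, k3⟩ := hmem g hgF
    refine ⟨⟨k1, ?_, ?_, ?_⟩, k2, k3⟩
    · intro u hu v hv
      have := k3.2.2.1 u (by simpa using hu) v (by simpa using hv)
      simpa using this
    · intro u hu v hv
      have := k3.2.2.2.1 u (by simpa using hu) v (by simpa using hv)
      simpa using this
    · intro u hu v hv
      rw [lift_mk q hu hv, ← hgq, restr_val k3.2.2.2.1]
  refine (sum_le_sum h2).trans (le_of_eq ?_)
  rw [sum_const, nsmul_eq_mul]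
  ring

end

end CEB
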