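import Pool.Agent.Work.MP_ceb7a8_co.Par
import Pool.Agent.Work.MP_ceb7a8_co.Kraft

/-!
Extensions of a path system outside A to a path system with A and its complement closed:
encoding and conflict lemma (note 2444, (7.3), upper bound).
-/

namespace CEB.ExtU

open Finset

noncomputable section

open scoped Classical

variable {V : Type*} [Fintype V]

/-- vertices x outside A with a large class of q -/
def irrS (q : V → V → V) (A : Finset V) : Finset V :=
  univ.filter fun x => x ∉ A ∧ ∃ y, y ≠ x ∧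
    nn V ^ (1 - sig / 2) < ((univ.filter fun b => b ∉ A ∧ b ≠ x ∧ q b x = y).card : ℝ)

/-- the first step x of the path from a vertex of A to b is recorded -/
def RecP (q : V → V → V) (A : Finset V) (x b : V) : Prop := x ∈ A ∨ x ∈ irrS q A ∨ q x b = b

/-- the recorded first steps -/
def rowR (g q : V → V → V) (A : Finset V) (v b : V) : Option V :=
  if v ∈ A ∧ b ∉ A ∧ RecP q A (g v b) b then some (g v b) else none

/-- open tuples -/
def OpenX (g q : V → V → V) (A : Finset V) : Finset (V × V × V) :=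
  univ.filter fun t => t.1 ∈ A ∧ t.2.1 ∉ A ∧ ¬ RecP q A t.2.2 t.2.1 ∧ g t.1 t.2.1 = t.2.2

/-- candidate tuples -/
def CandX (g q : V → V → V) (A : Finset V) : Finset (V × V × V) :=
  univ.filter fun t => t.1 ∈ A ∧ t.2.1 ∉ A ∧ ¬ RecP q A t.2.2 t.2.1 ∧
    g t.1 (q t.2.1 t.2.2) = t.2.2

/-- number of open pairs of a table -/
def N0 (R : V → V → Option V) (A : Finset V) : ℕ :=
  ((A ×ˢ Aᶜ).filter fun p => R p.1 p.2 = none).card

/-- g extends q, A and its complement are closed -/
structure Ext (G : SimpleGraph V) (q : V → V → V) (A : Finset V) (g : V → V → V) : Prop where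
  sys : IsSys G g
  clA : ∀ u ∈ A, ∀ v ∈ A, g u v ∈ A
  clB : ∀ u, u ∉ A → ∀ v, v ∉ A → g u v ∉ A
  agr : ∀ u, u ∉ A → ∀ v, v ∉ A → g u v = q u v

section conflict

variable {G : SimpleGraph V} {g g' q : V → V → V} {A : Finset V}

theorem rowR_eq_some {v b x : V} : rowR g q A v b = some x ↔
    v ∈ A ∧ b ∉ A ∧ RecP q A x b ∧ g v b = x := by
  unfold rowR
  split_ifs with h
  · constructor
    · intro h1
      have h2 : g v b = x := by simpa using h1
      exact ⟨h.1, h.2.1, h2 ▸ h.2.2, h2⟩
    · rintro ⟨_, _, _, h2⟩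
      rw [h2]
  · constructor
    · intro h1; simp at h1
    · rintro ⟨h1, h2, h3, h4⟩
      exact absurd ⟨h1, h2, h4 ▸ h3⟩ h

theorem rowR_eq_none {v b : V} (hv : v ∈ A) (hb : b ∉ A) :
    rowR g q A v b = none ↔ ¬ RecP q A (g v b) b := by
  unfold rowR
  split_ifs with h
  · simp [h.2.2]
  · simp only [true_iff]
    intro h1
    exact h ⟨hv, hb, h1⟩

/-- one-sided conflict lemma -/
theorem ext_conflict_aux (hg : Ext G q A g) (hg' : Ext G q A g') {d : V → V → ℕ}
    (hd : IsLen g d) (hR : rowR g q A = rowR g' q A) {v b : V} (hv : v ∈ A) (hb : b ∉ A)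
    (hdiff : g v b ≠ g' v b ∨ g b v ≠ g' b v)
    (hmin : ∀ a c, d a c < d v b → g a c = g' a c) :
    ¬ Disjoint (OpenX g q A) (CandX g' q A \ OpenX g' q A) := by
  have hne : v ≠ b := fun h => hb (h ▸ hv)
  have hqb : q b b = b := by rw [← hg.agr b hb b hb, hg.sys.self]
  have key : g v b ≠ g' v b := by
    intro h
    rcases hdiff with h1 | h1
    · exact h1 h
    · by_cases hx : g v b = b
      · have h2 := (hg.sys.used_symm ⟨hne, hx⟩).2
        have h3 := (hg'.sys.used_symm ⟨hne, h ▸ hx⟩).2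
        exact h1 (h2.trans h3.symm)
      · have h2 := hg.sys.cons v b hne hx
        have hx' : g' v b ≠ b := fun h4 => hx (h.trans h4)
        have h3 := hg'.sys.cons v b hne hx'
        apply h1
        rw [← h2, ← h3, ← h]
        by_cases hxA : g v b ∈ A
        · apply hmin
          have := hg.sys.len_first hd hne
          rw [hd.1 b (g v b)]
          omega
        · rw [hg.agr b hb _ hxA, hg'.agr b hb _ hxA]
  have hrec : ¬ RecP q A (g v b) b := by
    intro h
    have h1 : rowR g q A v b = some (g v b) := rowR_eq_some.2 ⟨hv, hb, h, rfl⟩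
    rw [hR] at h1
    exact key (rowR_eq_some.1 h1).2.2.2.symm
  have hxA : g v b ∉ A := fun h => hrec (Or.inl h)
  have hxb : g v b ≠ b := fun h => hrec (Or.inr (Or.inr (by rw [h]; exact hqb)))
  rw [not_disjoint_iff]
  refine ⟨(v, b, g v b), ?_, ?_⟩
  · exact mem_filter.2 ⟨mem_univ _, hv, hb, hrec, rfl⟩
  · rw [mem_sdiff]
    constructor
    · refine mem_filter.2 ⟨mem_univ _, hv, hb, hrec, ?_⟩
      show g' v (q b (g v b)) = g v b
      rw [← hg.agr b hb _ hxA, hg.sys.cons v b hne hxb]
      have ho := hg.sys.opt_self hne hxb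
      have hl := hg.sys.len_last hd hne
      rw [← hmin v (g b v) (by omega)]
      exact ho.2.2.1
    · intro h
      exact key (mem_filter.1 h).2.2.2.2.symm

/-- conflict lemma -/
theorem ext_conflict (hg : Ext G q A g) (hg' : Ext G q A g')
    (hA : ∀ u ∈ A, ∀ v ∈ A, g u v = g' u v) (hR : rowR g q A = rowR g' q A) (hne : g ≠ g') :
    ¬ Disjoint (OpenX g q A) (CandX g' q A \ OpenX g' q A) ∨
    ¬ Disjoint (OpenX g' q A) (CandX g q A \ OpenX g q A) := by
  obtain ⟨d, hd⟩ := hg.sys.len
  obtain ⟨d', hd'⟩ := hg'.sys.len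
  set D : Finset (V × V) := univ.filter (fun p => g p.1 p.2 ≠ g' p.1 p.2) with hD
  have hDne : D.Nonempty := by
    by_contra hemp
    rw [not_nonempty_iff_eq_empty] at hemp
    apply hne
    funext u v
    by_contra h5
    have : (u, v) ∈ D := mem_filter.2 ⟨mem_univ _, h5⟩
    rw [hemp] at this
    simp at this
  obtain ⟨p, hpD, hpmin⟩ := exists_min_image D
    (fun p => min (d p.1 p.2) (d' p.1 p.2)) hDne
  have hdiff : g p.1 p.2 ≠ g' p.1 p.2 := (mem_filter.1 hpD).2
  have hagree : ∀ a b, min (d a b) (d' a b) < min (d p.1 p.2) (d' p.1 p.2) →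
      g a b = g' a b := by
    intro a b hab
    by_contra h5
    have hm : (a, b) ∈ D := mem_filter.2 ⟨mem_univ _, h5⟩
    have := hpmin _ hm
    simp only at this
    omega
  -- the pair has one vertex in A
  obtain ⟨v, b, hv, hb, hdif, hag⟩ : ∃ v b, v ∈ A ∧ b ∉ A ∧ (g v b ≠ g' v b ∨ g b v ≠ g' b v) ∧
      ∀ a c, min (d a c) (d' a c) < min (d v b) (d' v b) → g a c = g' a c := by
    by_cases h1 : p.1 ∈ A
    · by_cases h2 : p.2 ∈ A
      · exact absurd (hA _ h1 _ h2) hdiff
      · exact ⟨p.1, p.2, h1, h2, Or.inl hdiff, hagree⟩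
    · by_cases h2 : p.2 ∈ A
      · refine ⟨p.2, p.1, h2, h1, Or.inr hdiff, ?_⟩
        intro a c hac
        apply hagree
        rwa [hd.1 p.1 p.2, hd'.1 p.1 p.2]
      · exact absurd ((hg.agr _ h1 _ h2).trans (hg'.agr _ h1 _ h2).symm) hdiff
  rcases le_total (d v b) (d' v b) with hle | hle
  · left
    refine ext_conflict_aux hg hg' hd hR hv hb hdif ?_
    intro a c hac
    apply hag
    have : min (d a c) (d' a c) ≤ d a c := min_le_left _ _
    omega
  · right
    refine ext_conflict_aux hg' hg hd' hR.symm hv hb (hdif.imp Ne.symm Ne.symm) ?_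
    intro a c hac
    refine (hag a c ?_).symm
    have : min (d a c) (d' a c) ≤ d' a c := min_le_right _ _
    omega

theorem openX_card_le (g q : V → V → V) (A : Finset V) :
    (OpenX g q A).card ≤ N0 (rowR g q A) A := by
  unfold N0
  refine card_le_card_of_injOn (fun t => (t.1, t.2.1)) ?_ ?_
  · intro t ht
    rw [mem_coe] at ht
    obtain ⟨h1, h2, h3, h4⟩ := (mem_filter.1 ht).2
    rw [mem_coe, mem_filter, mem_product, mem_compl]
    refine ⟨⟨h1, h2⟩, ?_⟩
    show rowR g q A t.1 t.2.1 = none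
    rw [rowR_eq_none h1 h2, h4]
    exact h3
  · intro t ht t' ht' h
    rw [mem_coe] at ht ht'
    have h1 := (mem_filter.1 ht).2.2.2.2
    have h2 := (mem_filter.1 ht').2.2.2.2
    obtain ⟨h3, h4⟩ := Prod.mk.inj h
    rw [h3, h4] at h1
    ext
    · exact h3
    · exact h4
    · exact h1.symm.trans h2

theorem candX_card_le (hg : Ext G q A g) :
    ((CandX g q A).card : ℝ) ≤ A.card * (nn V * nn V ^ (1 - sig / 2)) := by
  have hK : 0 ≤ nn V ^ (1 - sig / 2) := Real.rpow_nonneg (Nat.cast_nonneg _) _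
  have h1 : (CandX g q A).card ≤ ⌊nn V ^ (1 - sig / 2)⌋₊ *
      ((CandX g q A).image (fun t => (t.1, q t.2.1 t.2.2))).card := by
    apply card_le_mul_card_image
    rintro ⟨v, y⟩ hvy
    rw [mem_image] at hvy
    obtain ⟨t0, ht0, ht0'⟩ := hvy
    obtain ⟨hv0, hy0⟩ := Prod.mk.inj ht0'
    obtain ⟨h1, h2, h3, h4⟩ := (mem_filter.1 ht0).2
    have hx0 : t0.2.2 = g v y := by rw [← h4, hv0, hy0]
    have hxA : g v y ∉ A := fun h => h3 (Or.inl (by rw [hx0]; exact h))
    have hxI : g v y ∉ irrS q A := fun h => h3 (Or.inr (Or.inl (by rw [hx0]; exact h)))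
    have hyx : y ≠ g v y := by
      intro h
      apply h3
      right; right
      -- y = x is used with t0.2.1
      have hb : t0.2.1 ≠ g v y := by
        intro h5
        apply h3
        right; right
        rw [hx0, h5, ← hg.agr _ hxA _ hxA, hg.sys.self]
      have h5 : g t0.2.1 (g v y) = g v y := by
        rw [hg.agr _ h2 _ hxA, ← hx0, hy0]
        rw [hx0]; exact h
      have h6 := (hg.sys.used_symm ⟨hb, h5⟩).2
      rw [hx0, ← hg.agr _ hxA _ h2]
      exact h6
    have h5 : ((univ.filter fun b => b ∉ A ∧ b ≠ g v y ∧ q b (g v y) = y).card : ℝ) ≤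
        nn V ^ (1 - sig / 2) := by
      by_contra h5
      rw [not_le] at h5
      exact hxI (mem_filter.2 ⟨mem_univ _, hxA, y, hyx, h5⟩)
    refine le_trans ?_ (Nat.le_floor h5)
    refine card_le_card_of_injOn (fun t => t.2.1) ?_ ?_
    · intro t ht
      rw [mem_coe, mem_filter] at ht
      obtain ⟨ht1, ht2⟩ := ht
      obtain ⟨k1, k2, k3, k4⟩ := (mem_filter.1 ht1).2
      obtain ⟨e1, e2⟩ := Prod.mk.inj ht2
      have e3 : t.2.2 = g v y := by rw [← k4, e1, e2]
      rw [mem_coe, mem_filter]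
      refine ⟨mem_univ _, k2, ?_, ?_⟩
      · intro h6
        apply k3
        right; right
        show q t.2.2 t.2.1 = t.2.1
        have h6' : t.2.1 = g v y := h6
        rw [e3, h6', ← hg.agr _ hxA _ hxA, hg.sys.self]
      · show q t.2.1 (g v y) = y
        rw [← e3]; exact e2
    · intro t ht t' ht' h
      rw [mem_coe, mem_filter] at ht ht'
      obtain ⟨e1, e2⟩ := Prod.mk.inj ht.2
      obtain ⟨e1', e2'⟩ := Prod.mk.inj ht'.2
      have k4 := (mem_filter.1 ht.1).2.2.2.2
      have k4' := (mem_filter.1 ht'.1).2.2.2.2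
      ext
      · exact e1.trans e1'.symm
      · exact h
      · rw [← k4, ← k4', e1, e1', e2, e2']
  have h2 : ((CandX g q A).image (fun t => (t.1, q t.2.1 t.2.2))).card ≤
      A.card * Fintype.card V := by
    have : (CandX g q A).image (fun t => (t.1, q t.2.1 t.2.2)) ⊆ A ×ˢ univ := by
      intro p hp
      rw [mem_image] at hp
      obtain ⟨t, ht, rfl⟩ := hp
      exact mem_product.2 ⟨(mem_filter.1 ht).2.1, mem_univ _⟩
    refine (card_le_card this).trans ?_
    rw [card_product, card_univ]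
  calc ((CandX g q A).card : ℝ) ≤ ((⌊nn V ^ (1 - sig / 2)⌋₊ *
      ((CandX g q A).image (fun t => (t.1, q t.2.1 t.2.2))).card : ℕ) : ℝ) := by
        exact_mod_cast h1
    _ ≤ nn V ^ (1 - sig / 2) * (A.card * Fintype.card V) := by
        push_cast
        apply mul_le_mul (Nat.floor_le hK) _ (Nat.cast_nonneg _) hK
        exact_mod_cast h2
    _ = A.card * (nn V * nn V ^ (1 - sig / 2)) := by
        unfold nn
        ring

end conflict

/-- the number of extensions with given data -/
theorem card_ext_data (G : SimpleGraph V) (q : V → V → V) (A : Finset V)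
    (S : Finset (V → V → V)) (hS : ∀ g ∈ S, Ext G q A g)
    (hA : ∀ g ∈ S, ∀ g' ∈ S, ∀ u ∈ A, ∀ v ∈ A, g u v = g' u v)
    (R : V → V → Option V) (hR : ∀ g ∈ S, rowR g q A = R) {p : ℝ} (hp : 0 < p)
    (hp' : p ≤ 1 / 2) :
    (S.card : ℝ) ≤ (p ^ N0 R A)⁻¹ *
      Real.exp (2 * p * (A.card * (nn V * nn V ^ (1 - sig / 2)))) := by
  refine kraft_exp S (fun g => OpenX g q A) (fun g => CandX g q A \ OpenX g q A) p hp hp'
    (fun g _ => disjoint_sdiff) ?_ _ _ ?_ ?_
  · intro g hg g' hg' hne
    exact ext_conflict (hS g hg) (hS g' hg') (hA g hg g' hg')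
      ((hR g hg).trans (hR g' hg').symm) hne
  · intro g hg
    rw [← hR g hg]
    exact openX_card_le g q A
  · intro g hg
    refine le_trans ?_ (candX_card_le (hS g hg))
    exact_mod_cast card_le_card sdiff_subset

end

end CEB.ExtU
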