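import Pool.Agent.Work.MP_ceb7a8_co.ExtUp1
import Pool.Agent.Work.MP_ceb7a8_co.SetChoice

/-!
Extensions of a path system outside A: sum over the data.
-/

namespace CEB.ExtU

open Finset

noncomputable section

open scoped Classical

variable {V : Type*} [Fintype V]

/-- possible rows for a given set D of used neighbours -/
def rowsOf (q : V → V → V) (A D : Finset V) : Finset (V → Option V) :=
  Fintype.piFinset fun b => if b ∈ A then {none} else if b ∈ D then {some b}
    else insert none ((A ∪ irrS q A ∪ D.filter fun x => q x b = b).image some)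

/-- weight of a row -/
def wrow (A : Finset V) (M : ℝ) (ρ : V → Option V) : ℝ :=
  ∏ b : V, if b ∉ A ∧ ρ b = none then M else 1

/-- the number of choices at b -/
def cB (q : V → V → V) (A : Finset V) (M : ℝ) (D : Finset V) (b : V) : ℝ :=
  M + ((A ∪ irrS q A ∪ D.filter fun x => q x b = b).card : ℝ)

/-- the used neighbours of v outside A -/
def dB (g : V → V → V) (A : Finset V) (v : V) : Finset V :=
  univ.filter fun b => b ∉ A ∧ g v b = b

theorem sum_rowsOf (q : V → V → V) (A D : Finset V) (M : ℝ) :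
    ∑ ρ ∈ rowsOf q A D, wrow A M ρ =
      ∏ b ∈ univ.filter (fun b => b ∉ A ∧ b ∉ D), cB q A M D b := by
  unfold rowsOf wrow
  rw [← prod_univ_sum (t := fun b => if b ∈ A then {none} else if b ∈ D then {some b}
    else insert none ((A ∪ irrS q A ∪ D.filter fun x => q x b = b).image some))
    (f := fun b (o : Option V) => if b ∉ A ∧ o = none then M else 1)]
  rw [prod_filter]
  refine prod_congr rfl fun b _ => ?_
  by_cases hA : b ∈ A
  · simp [hA]
  · by_cases hD : b ∈ D
    · simp [hA, hD]
    · simp only [hA, hD, not_false_iff, true_and, and_self, if_true, if_false]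
      rw [sum_insert (by simp)]
      simp only [if_true]
      rw [sum_image (by intro a _ b _ h; exact Option.some_injective _ h)]
      simp [cB]

theorem pow_N0 (R : V → V → Option V) (A : Finset V) (M : ℝ) :
    M ^ N0 R A = ∏ v : V, if v ∈ A then wrow A M (R v) else 1 := by
  unfold N0 wrow
  rw [← prod_filter, ← prod_const, prod_filter, prod_product]
  have h1 : (univ.filter fun v : V => v ∈ A) = A := by ext; simp
  rw [h1]
  refine prod_congr rfl fun v _ => ?_
  rw [← prod_filter, ← prod_filter]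
  refine prod_congr ?_ fun _ _ => rfl
  ext b
  simp

/-- the row of a system belongs to the set of possible rows -/
theorem rowR_mem {G : SimpleGraph V} {q g : V → V → V} {A : Finset V} (hg : Ext G q A g)
    {v : V} (hv : v ∈ A) : rowR g q A v ∈ rowsOf q A (dB g A v) := by
  unfold rowsOf
  rw [Fintype.mem_piFinset]
  intro b
  by_cases hA : b ∈ A
  · rw [if_pos hA, mem_singleton]
    unfold rowR
    rw [if_neg]
    rintro ⟨_, h, _⟩
    exact h hA
  · rw [if_neg hA]
    have hne : v ≠ b := fun h => hA (h ▸ hv)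
    by_cases hD : b ∈ dB g A v
    · rw [if_pos hD, mem_singleton]
      have hD' := (mem_filter.1 hD).2
      refine rowR_eq_some.2 ⟨hv, hA, ?_, hD'.2⟩
      right; right
      rw [← hg.agr b hA b hA, hg.sys.self]
    · rw [if_neg hD, mem_insert]
      rcases h : rowR g q A v b with _ | x
      · left; rfl
      · right
        rw [mem_image]
        refine ⟨x, ?_, rfl⟩
        obtain ⟨_, _, h3, h4⟩ := rowR_eq_some.1 h
        rw [mem_union, mem_union]
        by_cases hxA : x ∈ A
        · exact Or.inl (Or.inl hxA)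
        · rcases h3 with h3 | h3 | h3
          · exact absurd h3 hxA
          · exact Or.inl (Or.inr h3)
          · right
            rw [mem_filter]
            refine ⟨mem_filter.2 ⟨mem_univ _, hxA, ?_⟩, h3⟩
            have h5 := (hg.sys.used_first hne).2
            rw [h4] at h5
            exact h5

/-- the system on A -/
def alph (g : V → V → V) (A : Finset V) : V → V → V := fun u v =>
  if u ∈ A ∧ v ∈ A then g u v else u

/-- possible systems on A -/
def alphS (A : Finset V) : Finset (V → V → V) :=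
  Fintype.piFinset fun u => Fintype.piFinset fun v => if u ∈ A ∧ v ∈ A then univ else {u}

theorem card_alphS (A : Finset V) : (alphS A).card = Fintype.card V ^ (A.card * A.card) := by
  unfold alphS
  rw [Fintype.card_piFinset]
  have h1 : ∀ u : V, (Fintype.piFinset fun v => if u ∈ A ∧ v ∈ A then
      (univ : Finset V) else {u}).card = if u ∈ A then Fintype.card V ^ A.card else 1 := by
    intro u
    rw [Fintype.card_piFinset]
    by_cases hu : u ∈ A
    · rw [if_pos hu]
      have h2 : ∀ v : V, (if u ∈ A ∧ v ∈ A then (univ : Finset V) else {u}).card =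
          if v ∈ A then Fintype.card V else 1 := by
        intro v
        by_cases hv : v ∈ A
        · rw [if_pos ⟨hu, hv⟩, if_pos hv, card_univ]
        · rw [if_neg (fun h => hv h.2), if_neg hv, card_singleton]
      rw [prod_congr rfl fun v _ => h2 v, ← prod_filter, prod_const]
      congr 2
      ext; simp
    · rw [if_neg hu]
      refine prod_eq_one fun v _ => ?_
      rw [if_neg (fun h => hu h.1), card_singleton]
  rw [prod_congr rfl fun u _ => h1 u, ← prod_filter, prod_const, pow_mul]
  congr 2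
  ext; simp

theorem alph_mem (g : V → V → V) (A : Finset V) : alph g A ∈ alphS A := by
  unfold alphS
  rw [Fintype.mem_piFinset]
  intro u
  rw [Fintype.mem_piFinset]
  intro v
  unfold alph
  split_ifs
  · exact mem_univ _
  · exact mem_singleton_self _

/-- the number of extensions -/
theorem card_ext_le (G : SimpleGraph V) (q : V → V → V) (A : Finset V)
    (S : Finset (V → V → V)) (hS : ∀ g ∈ S, Ext G q A g) (DD : Finset (Finset V))
    (hD : ∀ g ∈ S, ∀ v ∈ A, dB g A v ∈ DD) {p : ℝ} (hp : 0 < p) (hp' : p ≤ 1 / 2) :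
    (S.card : ℝ) ≤ (Fintype.card V : ℝ) ^ (A.card * A.card) *
      Real.exp (2 * p * (A.card * (nn V * nn V ^ (1 - sig / 2)))) *
      (∑ D ∈ DD, ∏ b ∈ univ.filter (fun b => b ∉ A ∧ b ∉ D), cB q A p⁻¹ D b) ^ A.card := by
  set E : ℝ := Real.exp (2 * p * (A.card * (nn V * nn V ^ (1 - sig / 2)))) with hE
  set T2 : Finset (V → V → Option V) := Fintype.piFinset fun v =>
    if v ∈ A then DD.biUnion (rowsOf q A) else {fun _ => none} with hT2
  have hmaps : ∀ g ∈ S, (alph g A, rowR g q A) ∈ alphS A ×ˢ T2 := by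
    intro g hg
    refine mem_product.2 ⟨alph_mem g A, ?_⟩
    rw [hT2, Fintype.mem_piFinset]
    intro v
    by_cases hv : v ∈ A
    · rw [if_pos hv, mem_biUnion]
      exact ⟨dB g A v, hD g hg v hv, rowR_mem (hS g hg) hv⟩
    · rw [if_neg hv, mem_singleton]
      funext b
      show rowR g q A v b = none
      unfold rowR
      rw [if_neg (fun h => hv h.1)]
  have h1 : (S.card : ℝ) = ∑ τ ∈ alphS A ×ˢ T2,
      ((S.filter fun g => (alph g A, rowR g q A) = τ).card : ℝ) := by
    rw [card_eq_sum_card_fiberwise (f := fun g => (alph g A, rowR g q A)) (t := alphS A ×ˢ T2)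
      (fun g hg => hmaps g hg)]
    push_cast
    rfl
  have h2 : ∀ τ ∈ alphS A ×ˢ T2, ((S.filter fun g => (alph g A, rowR g q A) = τ).card : ℝ) ≤
      p⁻¹ ^ N0 τ.2 A * E := by
    intro τ _
    have := card_ext_data G q A (S.filter fun g => (alph g A, rowR g q A) = τ)
      (fun g hg => hS g (mem_filter.1 hg).1) ?_ τ.2 ?_ hp hp'
    · rw [inv_pow]
      exact this
    · intro g hg g' hg' u hu v hv
      have e1 := (mem_filter.1 hg).2
      have e2 := (mem_filter.1 hg').2
      have e3 : alph g A = alph g' A := by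
        rw [← e2] at e1
        exact (Prod.mk.inj e1).1
      have e4 := congrFun (congrFun e3 u) v
      unfold alph at e4
      rwa [if_pos ⟨hu, hv⟩, if_pos ⟨hu, hv⟩] at e4
    · intro g hg
      have e1 := (mem_filter.1 hg).2
      rw [← e1]
  have hM : 0 ≤ p⁻¹ := by positivity
  have hw0 : ∀ ρ : V → Option V, 0 ≤ wrow A p⁻¹ ρ := fun ρ =>
    prod_nonneg fun b _ => by split_ifs <;> [exact hM; exact zero_le_one]
  have h3 : ∑ R ∈ T2, p⁻¹ ^ N0 R A ≤
      (∑ D ∈ DD, ∏ b ∈ univ.filter (fun b => b ∉ A ∧ b ∉ D), cB q A p⁻¹ D b) ^ A.card := by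
    have e1 : ∑ R ∈ T2, p⁻¹ ^ N0 R A =
        ∑ R ∈ T2, ∏ v : V, (if v ∈ A then wrow A p⁻¹ (R v) else 1) :=
      sum_congr rfl fun R _ => pow_N0 R A p⁻¹
    rw [e1, hT2]
    rw [← prod_univ_sum (t := fun v => if v ∈ A then DD.biUnion (rowsOf q A)
      else {fun _ => none}) (f := fun v (ρ : V → Option V) => if v ∈ A then wrow A p⁻¹ ρ else 1)]
    have e2 : ∏ v : V, ∑ ρ ∈ (if v ∈ A then DD.biUnion (rowsOf q A) else {fun _ => none}),
        (if v ∈ A then wrow A p⁻¹ ρ else 1) =
        ∏ v : V, if v ∈ A then (∑ ρ ∈ DD.biUnion (rowsOf q A), wrow A p⁻¹ ρ) else 1 := by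
      refine prod_congr rfl fun v _ => ?_
      by_cases hv : v ∈ A
      · simp only [if_pos hv]
      · simp only [if_neg hv, sum_singleton]
    rw [e2, ← prod_filter, prod_const]
    have e3 : (univ.filter fun v : V => v ∈ A) = A := by ext; simp
    rw [e3]
    refine pow_le_pow_left₀ (sum_nonneg fun ρ _ => hw0 ρ) ?_ _
    refine (sum_biUnion_le_sum DD (rowsOf q A) (wrow A p⁻¹) hw0).trans (le_of_eq ?_)
    exact sum_congr rfl fun D _ => sum_rowsOf q A D p⁻¹
  rw [h1]
  calc ∑ τ ∈ alphS A ×ˢ T2, ((S.filter fun g => (alph g A, rowR g q A) = τ).card : ℝ)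
      ≤ ∑ τ ∈ alphS A ×ˢ T2, p⁻¹ ^ N0 τ.2 A * E := sum_le_sum h2
    _ = ∑ _a ∈ alphS A, ∑ R ∈ T2, p⁻¹ ^ N0 R A * E := by rw [sum_product]
    _ = (alphS A).card * ((∑ R ∈ T2, p⁻¹ ^ N0 R A) * E) := by
        rw [sum_const, nsmul_eq_mul, sum_mul]
    _ = (Fintype.card V : ℝ) ^ (A.card * A.card) * ((∑ R ∈ T2, p⁻¹ ^ N0 R A) * E) := by
        rw [card_alphS]
        push_cast
        rfl
    _ ≤ (Fintype.card V : ℝ) ^ (A.card * A.card) *
        ((∑ D ∈ DD, ∏ b ∈ univ.filter (fun b => b ∉ A ∧ b ∉ D), cB q A p⁻¹ D b) ^ A.card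
          * E) := by
        refine mul_le_mul_of_nonneg_left ?_ (by positivity)
        exact mul_le_mul_of_nonneg_right h3 (Real.exp_pos _).le
    _ = _ := by ring

end

end CEB.ExtU
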