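import Mathlib

/-!
Numerical inequalities of the first order step (MP_ceb7a8_co, note 2443 section 3).
-/

namespace CEB

open Real

/-- Tangent line of the logarithm. -/
theorem log_tangent {a b : ℝ} (ha : 0 < a) (hb : 0 < b) :
    log a ≤ log b + (a - b) / b := by
  have h1 : log (a / b) ≤ a / b - 1 := log_le_sub_one_of_pos (div_pos ha hb)
  rw [log_div ha.ne' hb.ne'] at h1
  have h2 : a / b - 1 = (a - b) / b := by field_simp
  linarith

theorem log_102_le : log (1.02 : ℝ) ≤ 0.019803 := by
  have h := abs_log_sub_add_sum_range_le (x := (-0.02 : ℝ)) (by norm_num [abs_of_neg]) 3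
  rw [Finset.sum_range_succ, Finset.sum_range_succ, Finset.sum_range_succ,
    Finset.sum_range_zero] at h
  have h2 : (1 : ℝ) - (-0.02) = 1.02 := by norm_num
  rw [h2] at h
  have h3 := (abs_le.1 h).2
  have h4 : |(-0.02 : ℝ)| = 0.02 := by norm_num [abs_of_neg]
  rw [h4] at h3
  norm_num at h3 ⊢
  linarith

theorem log_098_le : log (0.98 : ℝ) ≤ -0.0202 := by
  have h := abs_log_sub_add_sum_range_le (x := (0.02 : ℝ)) (by norm_num) 3
  rw [Finset.sum_range_succ, Finset.sum_range_succ, Finset.sum_range_succ,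
    Finset.sum_range_zero] at h
  have h2 : (1 : ℝ) - (0.02) = 0.98 := by norm_num
  rw [h2] at h
  have h3 := (abs_le.1 h).2
  have h4 : |(0.02 : ℝ)| = 0.02 := by norm_num
  rw [h4] at h3
  norm_num at h3 ⊢
  linarith

/-- The macroscopic profile function is clearly negative away from 1. -/
theorem profile_neg {α : ℝ} (hα : 0 ≤ α) (h : α < 0.98 ∨ 1.02 < α) :
    1 + log (max α (1 / 100)) - (1 - 0.000025) * α + 0.000042 ≤ -0.0001 := by
  rcases h with h | h
  · rcases le_total α (1 / 100) with h1 | h1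
    · rw [max_eq_right h1]
      have h2 : log (1 / 100 : ℝ) ≤ log 0.98 + (1 / 100 - 0.98) / 0.98 :=
        log_tangent (by norm_num) (by norm_num)
      have h3 := log_098_le
      -- this tangent is too weak, use log (1/100) = - log 100
      have h4 : log (1 / 100 : ℝ) ≤ -4 := by
        rw [one_div, log_inv]
        have h5 : (4 : ℝ) ≤ log 100 := by
          rw [le_log_iff_exp_le (by norm_num)]
          have h6 : exp 1 ≤ 2.7182818286 := exp_one_lt_d9.le
          have h7 : exp (4 : ℝ) = exp 1 ^ 4 := by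
            rw [← exp_nat_mul]; norm_num
          rw [h7]
          calc exp 1 ^ 4 ≤ 2.7182818286 ^ 4 :=
                pow_le_pow_left₀ (exp_pos _).le h6 4
            _ ≤ 100 := by norm_num
        linarith
      nlinarith
    · rw [max_eq_left h1]
      have h2 : log α ≤ log 0.98 + (α - 0.98) / 0.98 := log_tangent (by linarith) (by norm_num)
      have h3 := log_098_le
      have h4 : (α - 0.98) / 0.98 ≤ (α - 0.98) * 1.02 := by
        rw [div_le_iff₀ (by norm_num)]
        nlinarith
      nlinarith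
  · have h1 : (1 / 100 : ℝ) ≤ α := by linarith
    rw [max_eq_left h1]
    have h2 : log α ≤ log 1.02 + (α - 1.02) / 1.02 := log_tangent (by linarith) (by norm_num)
    have h3 := log_102_le
    have h4 : (α - 1.02) / 1.02 ≤ (α - 1.02) * 0.9804 := by
      rw [div_le_iff₀ (by norm_num)]
      nlinarith
    nlinarith

/-- Global upper bound of the macroscopic profile function. -/
theorem profile_le {α : ℝ} (hα : 0 ≤ α) :
    1 + log (max α (1 / 100)) - (1 - 0.000025) * α + 0.000042 ≤ 0.00007 := by
  by_cases h : α < 0.98 ∨ 1.02 < α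
  · have := profile_neg hα h
    linarith
  · push_neg at h
    have h1 : (1 / 100 : ℝ) ≤ α := by linarith [h.1]
    rw [max_eq_left h1]
    -- tangent at 1: log α ≤ α - 1
    have h2 : log α ≤ α - 1 := log_le_sub_one_of_pos (by linarith)
    nlinarith [h.2]

/-- `x <= μ exp (x/μ - 1)`. -/
theorem le_mul_exp {x μ : ℝ} (hμ : 0 < μ) : x ≤ μ * exp (x / μ - 1) := by
  have h := add_one_le_exp (x / μ - 1)
  have h2 : x / μ ≤ exp (x / μ - 1) := by linarith
  calc x = μ * (x / μ) := by field_simp
    _ ≤ μ * exp (x / μ - 1) := mul_le_mul_of_nonneg_left h2 hμ.le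

/-- Product against sum: `prod x_i <= (μ/e)^#s exp (sum x_i / μ)`. -/
theorem prod_le_exp_sum {ι : Type*} (s : Finset ι) (x : ι → ℝ) {μ : ℝ} (hμ : 0 < μ)
    (hx : ∀ i ∈ s, 0 ≤ x i) :
    ∏ i ∈ s, x i ≤ exp ((s.card : ℝ) * (log μ - 1) + (∑ i ∈ s, x i) / μ) := by
  have h1 : ∏ i ∈ s, x i ≤ ∏ i ∈ s, exp (log μ - 1 + x i / μ) := by
    refine Finset.prod_le_prod hx fun i hi => ?_
    have h2 := le_mul_exp (x := x i) hμ
    have h3 : μ * exp (x i / μ - 1) = exp (log μ - 1 + x i / μ) := by
      rw [show log μ - 1 + x i / μ = log μ + (x i / μ - 1) by ring, exp_add, exp_log hμ]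
    rw [← h3]; exact h2
  refine h1.trans (le_of_eq ?_)
  rw [← exp_sum, Finset.sum_add_distrib, Finset.sum_const, nsmul_eq_mul, Finset.sum_div]

end CEB
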