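import Pool.Agent.Work.MP_ceb7a8_co.ExtUp2
import Pool.Agent.Work.MP_ceb7a8_co.FirstNum
import Pool.Agent.Work.MP_ceb7a8_co.Random

/-!
Extensions of a path system outside A: the structure of the used neighbourhoods.
-/

namespace CEB.ExtU

open Finset
open Pool.Agent.Work.MP_ceb7a8_co (DiscK eST dgr codgr card_low)

noncomputable section

open scoped Classical

variable {V : Type*} [Fintype V]

/-! ### sizes -/

theorem rpow_small (hn : Big (Fintype.card V)) {c : ℝ} (hc : 1 / 10 ^ 10 ≤ c) :
    10 ^ 60 * (nn V ^ (1 - c) * LL V ^ 3) ≤ nn V := by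
  obtain ⟨hL, he, h0, -⟩ := big_facts hn
  have h1 := exp_big hc hL
  have h2 : nn V ^ c = Real.exp (c * LL V) := by
    rw [Real.rpow_def_of_pos h0, mul_comm]
    rfl
  have h3 : nn V ^ (1 - c) * nn V ^ c = nn V := by
    rw [← Real.rpow_add h0]
    rw [show 1 - c + c = 1 by ring, Real.rpow_one]
  have h4 : 0 < nn V ^ (1 - c) := Real.rpow_pos_of_pos h0 _
  calc 10 ^ 60 * (nn V ^ (1 - c) * LL V ^ 3) = nn V ^ (1 - c) * (10 ^ 60 * LL V ^ 3) := by ring
    _ ≤ nn V ^ (1 - c) * nn V ^ c := by
        rw [h2]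
        exact mul_le_mul_of_nonneg_left h1 h4.le
    _ = nn V := h3

/-- powers below n are much smaller than h -/
theorem rpow_le_hh (hn : Big (Fintype.card V)) {c : ℝ} (hc : 1 / 10 ^ 10 ≤ c) :
    10 ^ 60 * nn V ^ (1 - c) ≤ hh V := by
  obtain ⟨hL, he, h0, -⟩ := big_facts hn
  have h1 := rpow_small hn hc
  have hL1 : (1 : ℝ) ≤ LL V := le_trans (by norm_num) hL
  have h4 : 0 < nn V ^ (1 - c) := Real.rpow_pos_of_pos h0 _
  unfold hh
  rw [le_div_iff₀ (by linarith)]
  have h5 : LL V ≤ LL V ^ 3 := by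
    have : (1 : ℝ) ≤ LL V ^ 2 := one_le_pow₀ hL1
    nlinarith
  nlinarith [mul_le_mul_of_nonneg_left h5 h4.le]

theorem hh_pos (hn : Big (Fintype.card V)) : 0 < hh V := by
  obtain ⟨hL, he, h0, -⟩ := big_facts hn
  unfold hh
  exact div_pos h0 (lt_of_lt_of_le (by positivity) hL)

/-! ### irregular vertices -/

theorem card_irreg {G : SimpleGraph V} (hG : QR G) (hn : Big (Fintype.card V))
    {g : V → V → V} (hs : Struct G g) : ((univ \ reg G g).card : ℝ) ≤ jj V := by
  obtain ⟨hL, he, h0, h30⟩ := big_facts hn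
  have hL0 : 0 < LL V := lt_of_lt_of_le (by positivity) hL
  have hK : 0 < nn V ^ (1 - sig / 2) := Real.rpow_pos_of_pos h0 _
  set B1 : Finset V := univ.filter fun v => nn V ^ (1 - sig / 2) < ((bad G g v).card : ℝ) with hB1
  set B2 : Finset V := univ.filter fun u : V => (dgr G u (hub g) : ℝ) ≤
    (1 / 2 - 1 / 100) * (hub g).card with hB2
  have hsub : univ \ reg G g ⊆ B1 ∪ B2 := by
    intro v hv
    rw [mem_sdiff] at hv
    rw [mem_union]
    by_contra hc
    rw [not_or] at hc
    apply hv.2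
    refine mem_filter.2 ⟨mem_univ _, ?_, ?_⟩
    · by_contra h1
      exact hc.1 (mem_filter.2 ⟨mem_univ _, not_le.1 h1⟩)
    · by_contra h1
      rw [not_le] at h1
      apply hc.2
      refine mem_filter.2 ⟨mem_univ _, ?_⟩
      have h2 : (dgr G v (hub g) : ℝ) = ((gn G v ∩ hub g).card : ℝ) := by
        unfold dgr gn
        congr 2
        ext x
        simp only [mem_filter, mem_inter, mem_univ, true_and]
        tauto
      rw [h2]
      norm_num
      norm_num at h1
      linarith
  have h1 : (B1.card : ℝ) ≤ 2 * nn V ^ (1 - sig / 2) := by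
    have h2 : (B1.card : ℝ) * nn V ^ (1 - sig / 2) ≤ 2 * nn V ^ (2 - sig) := by
      refine le_trans ?_ hs.s3
      rw [← nsmul_eq_mul]
      push_cast
      calc B1.card • nn V ^ (1 - sig / 2) ≤ ∑ u ∈ B1, ((bad G g u).card : ℝ) :=
            card_nsmul_le_sum _ _ _ fun u hu => (mem_filter.1 hu).2.le
        _ ≤ ∑ u, ((bad G g u).card : ℝ) :=
            sum_le_sum_of_subset_of_nonneg (subset_univ _) fun _ _ _ => Nat.cast_nonneg _
    have h3 : nn V ^ (2 - sig) = nn V ^ (1 - sig / 2) * nn V ^ (1 - sig / 2) := by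
      rw [← Real.rpow_add h0]
      congr 1
      ring
    rw [h3] at h2
    have h4 : (B1.card : ℝ) * nn V ^ (1 - sig / 2) ≤
        2 * nn V ^ (1 - sig / 2) * nn V ^ (1 - sig / 2) := by linarith
    exact le_of_mul_le_mul_right h4 hK
  have hhub : 0 < ((hub g).card : ℝ) := by
    have := hs.s1
    have := hh_pos hn
    linarith
  have h2 : (B2.card : ℝ) ≤ nn V ^ (1 - sig / 2) := by
    have hne : (hub g).Nonempty := by
      rw [← card_pos]
      exact_mod_cast hhub
    have h3 := card_low hG.disc hne (show (0 : ℝ) < 1 / 100 by norm_num)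
    have h4 : (Fintype.card V : ℝ) = nn V := rfl
    rw [h4] at h3
    refine h3.trans ?_
    rw [div_le_iff₀ (by positivity)]
    have h5 := hs.s1
    have h6 : hh V * LL V = nn V := by
      unfold hh
      field_simp
    -- n = h L <= (100/97) hub * L
    have h7 : nn V ≤ 100 / 97 * (hub g).card * LL V := by
      rw [← h6]
      apply mul_le_mul_of_nonneg_right _ hL0.le
      linarith
    have h8 : 10 ^ 40 * LL V ≤ nn V ^ (1 - sig / 2) := by
      have h9 : nn V ^ (1 / 2 : ℝ) ≤ nn V ^ (1 - sig / 2) := by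
        apply Real.rpow_le_rpow_of_exponent_le
        · have : (1 : ℝ) ≤ LL V ^ 2 := one_le_pow₀ (le_trans (by norm_num) hL)
          nlinarith
        · unfold sig; norm_num
      refine le_trans ?_ h9
      rw [Real.rpow_def_of_pos h0]
      have h10 := exp_big (c := 1 / 2) (by norm_num) hL
      have h11 : Real.log (nn V) * (1 / 2) = 1 / 2 * LL V := by
        unfold LL; ring
      rw [h11]
      refine le_trans ?_ h10
      have h12 : LL V ≤ LL V ^ 3 := by
        have : (1 : ℝ) ≤ LL V ^ 2 := one_le_pow₀ (le_trans (by norm_num) hL)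
        nlinarith
      nlinarith
    have h9 : 10 ^ 40 * LL V * (hub g).card ≤ nn V ^ (1 - sig / 2) * (hub g).card :=
      mul_le_mul_of_nonneg_right h8 hhub.le
    have h10 : 0 < LL V * (hub g).card := by positivity
    nlinarith
  have h3 := (card_le_card hsub).trans (card_union_le _ _)
  have h4 : ((univ \ reg G g).card : ℝ) ≤ (B1.card : ℝ) + B2.card := by exact_mod_cast h3
  unfold jj
  linarith

/-! ### the used degrees -/

theorem card_nb_le {G : SimpleGraph V} (hG : QR G) {g : V → V → V} (hg : IsSys G g)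
    (hs : Struct G g) (x : V) : ((nb g x).card : ℝ) ≤
      (if x ∈ hubr G g then (1 / 2 + eta) * nn V else 0) +
      (if x ∈ univ \ reg G g then nn V else 0) + 115 / 100 * hh V + (bad G g x).card := by
  have hb0 : (0 : ℝ) ≤ (bad G g x).card := Nat.cast_nonneg _
  have hn0 : 0 ≤ nn V := Nat.cast_nonneg _
  have hh0 : 0 ≤ 115 / 100 * hh V := le_trans (Nat.cast_nonneg _) hs.s2
  have he : 0 ≤ (1 / 2 + eta) * nn V := by
    unfold eta
    positivity
  by_cases h1 : x ∈ hubr G g
  · rw [if_pos h1]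
    have h2 : ((nb g x).card : ℝ) ≤ (1 / 2 + eta) * nn V := by
      have h3 : nb g x ⊆ gn G x := by
        intro y hy
        exact mem_filter.2 ⟨mem_univ _, hg.used_adj (mem_filter.1 hy).2⟩
      have h4 : ((nb g x).card : ℝ) ≤ (gn G x).card := by exact_mod_cast card_le_card h3
      have h5 := (abs_le.1 (hG.q2 x)).2
      linarith
    have h3 : (0 : ℝ) ≤ if x ∈ univ \ reg G g then nn V else 0 := by
      split_ifs
      · exact hn0
      · exact le_refl _
    linarith
  · rw [if_neg h1]
    by_cases h2 : x ∈ univ \ reg G g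
    · rw [if_pos h2]
      have h3 : ((nb g x).card : ℝ) ≤ nn V := by
        unfold nn
        exact_mod_cast card_le_univ _
      linarith
    · rw [if_neg h2]
      have h3 : x ∉ hub g := by
        intro h4
        apply h1
        unfold hubr
        rw [mem_inter]
        refine ⟨h4, ?_⟩
        by_contra h5
        exact h2 (mem_sdiff.2 ⟨mem_univ _, h5⟩)
      have h4 : nb g x ⊆ hub g ∪ bad G g x := by
        intro y hy
        have hu := (mem_filter.1 hy).2
        rw [mem_union]
        by_cases hyh : y ∈ hub g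
        · exact Or.inl hyh
        · right
          refine mem_filter.2 ⟨mem_univ _, hu.1, Or.inr ⟨?_, used_not_q hu⟩⟩
          rintro ⟨_, h5 | h5⟩
          · exact h3 h5
          · exact hyh h5
      have h5 := (card_le_card h4).trans (card_union_le _ _)
      have h6 : ((nb g x).card : ℝ) ≤ ((hub g).card : ℝ) + (bad G g x).card := by
        exact_mod_cast h5
      have := hs.s2
      linarith

/-- total used degree of the used neighbours of a poor vertex -/
theorem sum_nb_le {G : SimpleGraph V} (hG : QR G) (hn : Big (Fintype.card V)) {g : V → V → V}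
    (hg : IsSys G g) (hs : Struct G g) (D : Finset V)
    (hD : ((D ∩ hubr G g).card : ℝ) ≤ 1 / 100 * hh V) :
    ∑ x ∈ D, ((nb g x).card : ℝ) ≤ 502 / 100000 * hh V * nn V + 115 / 100 * hh V * D.card := by
  obtain ⟨hL, he, h0, h30⟩ := big_facts hn
  have hh0 := hh_pos hn
  have hj : 10 ^ 50 * jj V ≤ hh V := by
    have := rpow_le_hh hn (c := sig / 2) (by unfold sig; norm_num)
    unfold jj
    nlinarith [Real.rpow_pos_of_pos h0 (1 - sig / 2)]
  have hj0 := jj_nonneg V
  have h1 : ∑ x ∈ D, ((nb g x).card : ℝ) ≤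
      ∑ x ∈ D, ((if x ∈ hubr G g then (1 / 2 + eta) * nn V else 0) +
      (if x ∈ univ \ reg G g then nn V else 0) + 115 / 100 * hh V + (bad G g x).card) :=
    sum_le_sum fun x _ => card_nb_le hG hg hs x
  refine h1.trans ?_
  rw [sum_add_distrib, sum_add_distrib, sum_add_distrib]
  have e1 : ∑ x ∈ D, (if x ∈ hubr G g then (1 / 2 + eta) * nn V else 0) ≤
      1 / 100 * hh V * ((1 / 2 + eta) * nn V) := by
    rw [← sum_filter, sum_const, nsmul_eq_mul]
    have : D.filter (fun x => x ∈ hubr G g) = D ∩ hubr G g := by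
      ext x; simp
    rw [this]
    apply mul_le_mul_of_nonneg_right hD
    unfold eta
    positivity
  have e2 : ∑ x ∈ D, (if x ∈ univ \ reg G g then nn V else 0) ≤ jj V * nn V := by
    rw [← sum_filter, sum_const, nsmul_eq_mul]
    apply mul_le_mul_of_nonneg_right _ h0.le
    refine le_trans ?_ (card_irreg hG hn hs)
    have : D.filter (fun x => x ∈ univ \ reg G g) ⊆ univ \ reg G g := by
      intro x hx
      exact (mem_filter.1 hx).2
    exact_mod_cast card_le_card this
  have e3 : ∑ _x ∈ D, (115 / 100 * hh V) = 115 / 100 * hh V * D.card := by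
    rw [sum_const, nsmul_eq_mul]; ring
  have e4 : ∑ x ∈ D, ((bad G g x).card : ℝ) ≤ jj V * nn V := by
    have h2 : ∑ x ∈ D, ((bad G g x).card : ℝ) ≤ 2 * nn V ^ (2 - sig) := by
      refine le_trans ?_ hs.s3
      push_cast
      exact sum_le_sum_of_subset_of_nonneg (subset_univ _) fun _ _ _ => Nat.cast_nonneg _
    refine h2.trans ?_
    have h3 : nn V ^ (2 - sig) = nn V ^ (1 - sig) * nn V := by
      have : nn V ^ (1 - sig) * nn V = nn V ^ (1 - sig) * nn V ^ (1 : ℝ) := by
        rw [Real.rpow_one]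
      rw [this, ← Real.rpow_add h0]
      congr 1
      ring
    have h4 : nn V ^ (1 - sig) ≤ nn V ^ (1 - sig / 2) := by
      apply Real.rpow_le_rpow_of_exponent_le
      · have : (1 : ℝ) ≤ LL V ^ 2 := one_le_pow₀ (le_trans (by norm_num) hL)
        nlinarith
      · unfold sig; norm_num
    rw [h3]
    unfold jj
    have h5 : 0 < nn V ^ (1 - sig / 2) := Real.rpow_pos_of_pos h0 _
    nlinarith [mul_le_mul_of_nonneg_right h4 h0.le, mul_pos h5 h0]
  rw [e3]
  have h7 : jj V * nn V ≤ 1 / 10 ^ 50 * hh V * nn V := by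
    apply mul_le_mul_of_nonneg_right _ h0.le
    linarith
  have h8 : 0 < hh V * nn V := mul_pos hh0 h0
  have h10 : 1 / 100 * hh V * ((1 / 2 + eta) * nn V) = 500001 / 10 ^ 8 * (hh V * nn V) := by
    unfold eta
    ring
  have h11 : 1 / 10 ^ 50 * hh V * nn V ≤ 1 / 10 ^ 8 * (hh V * nn V) := by
    have : (1 / 10 ^ 50 : ℝ) ≤ 1 / 10 ^ 8 := by norm_num
    have := mul_le_mul_of_nonneg_right this h8.le
    linarith
  have h12 : 502 / 100000 * hh V * nn V = 502000 / 10 ^ 8 * (hh V * nn V) := by ring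
  have h13 : 500001 / 10 ^ 8 * (hh V * nn V) + 1 / 10 ^ 8 * (hh V * nn V) +
      1 / 10 ^ 8 * (hh V * nn V) ≤ 502000 / 10 ^ 8 * (hh V * nn V) := by
    have : (500001 / 10 ^ 8 + 1 / 10 ^ 8 + 1 / 10 ^ 8 : ℝ) ≤ 502000 / 10 ^ 8 := by norm_num
    have := mul_le_mul_of_nonneg_right this h8.le
    linarith
  rw [h12]
  rw [h10] at e1
  linarith

end

end CEB.ExtU
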