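import Pool.Agent.Work.MP_ceb7a8_co.Det78

/-!
(7.1) and (7.2): in a reducible typical system the smaller closed set is poor, with few
exceptions (helper78).
-/

namespace CEB

namespace RedP

open Finset Det

noncomputable section

open scoped Classical

variable {V : Type*} [Fintype V] {G : SimpleGraph V} {g : V → V → V}

/-- (7.1) fails for A and z. -/
def E1 (G : SimpleGraph V) (g : V → V → V) (A : Finset V) (z : V) : Prop :=
  (z ∈ A ∧ z ∈ hubr G g ∧ 1 / 10 * nn V ≤ ((gn G z \ A).card : ℝ)) ∧ Closed g ((A : Set V)ᶜ)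

/-- (7.2) fails for v. -/
def E2 (G : SimpleGraph V) (g : V → V → V) (v : V) : Prop :=
  1 / 100 * hh V ≤ ((nb g v ∩ hubr G g).card : ℝ) ∧
    ∀ z ∈ hubr G g, ∀ z' ∈ hubr G g, Q g z z' → g z z' ≠ v

/-- the deterministic part, step 1: no regular hub lies in A -/
theorem no_hub (hG : QR G) (hn : Big (Fintype.card V)) (hs : S3 G g)
    (h1 : ∀ A z, ¬ E1 G g A z) {A : Finset V}
    (hcA : Closed g (A : Set V)) (hcB : Closed g ((A : Set V)ᶜ))
    (hle : 2 * (A.card : ℝ) ≤ nn V) : ∀ z ∈ hubr G g, z ∉ A := by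
  intro z0 hz0 hzA
  have hn0 : 0 < nn V := by
    obtain ⟨-, -, h0, -⟩ := big_facts hn
    exact h0
  have heta : eta = 1 / 10 ^ 6 := rfl
  by_cases hA : (A.card : ℝ) ≤ 39 / 100 * nn V
  · refine h1 A z0 ⟨⟨hzA, hz0, ?_⟩, hcB⟩
    have h2 := hG.gn_ge z0
    have h3 : ((gn G z0).card : ℝ) ≤ ((gn G z0 \ A).card : ℝ) + (A.card : ℝ) := by
      have : (gn G z0).card ≤ (gn G z0 \ A).card + A.card := by
        rw [card_sdiff_add_card]
        exact card_le_card subset_union_left
      exact_mod_cast this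
    rw [heta] at h2
    nlinarith
  · rw [not_le] at hA
    have hcomp : (A.card : ℝ) + ((univ \ A).card : ℝ) = nn V := by
      have : A.card + (univ \ A).card = Fintype.card V := by
        rw [add_comm, card_sdiff_add_card_eq_card (subset_univ A), card_univ]
      unfold nn
      exact_mod_cast this
    have hAne : A.Nonempty := ⟨z0, hzA⟩
    have hBne : (univ \ A).Nonempty := by
      rw [← card_pos]
      have : (0 : ℝ) < ((univ \ A).card : ℝ) := by linarith
      exact_mod_cast this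
    have h2 := hG.card_low hAne (e := 1 / 5) (by norm_num)
    have h3 := hG.card_low hBne (e := 1 / 5) (by norm_num)
    have h4 : 16 * nn V / ((1 / 5) ^ 2 * (A.card : ℝ)) ≤ 1100 := by
      rw [div_le_iff₀ (by nlinarith)]
      nlinarith
    have h5 : 16 * nn V / ((1 / 5) ^ 2 * ((univ \ A).card : ℝ)) ≤ 1100 := by
      rw [div_le_iff₀ (by nlinarith)]
      nlinarith
    have h6 := hubr_card_ge hG hn hs
    have h7 := LL_le_hh hn
    have h8 : (10 : ℝ) ^ 100 ≤ LL V := (big_facts hn).1
    obtain ⟨z, hz, hz2, hz3⟩ : ∃ z ∈ hubr G g,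
        (1 / 2 - 1 / 5) * (A.card : ℝ) < ((gn G z ∩ A).card : ℝ) ∧
        (1 / 2 - 1 / 5) * ((univ \ A).card : ℝ) < ((gn G z ∩ (univ \ A)).card : ℝ) := by
      by_contra hcon
      push Not at hcon
      have h9 : hubr G g ⊆
          (univ.filter fun v : V => ((gn G v ∩ A).card : ℝ) ≤ (1 / 2 - 1 / 5) * (A.card : ℝ)) ∪
          (univ.filter fun v : V => ((gn G v ∩ (univ \ A)).card : ℝ) ≤
            (1 / 2 - 1 / 5) * ((univ \ A).card : ℝ)) := by
        intro z hz
        rw [mem_union, mem_filter, mem_filter]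
        by_cases h10 : ((gn G z ∩ A).card : ℝ) ≤ (1 / 2 - 1 / 5) * (A.card : ℝ)
        · exact Or.inl ⟨mem_univ _, h10⟩
        · exact Or.inr ⟨mem_univ _, hcon z hz (not_le.1 h10)⟩
      have h10 := (card_le_card h9).trans (card_union_le _ _)
      have h11 : ((hubr G g).card : ℝ) ≤
          ((univ.filter fun v : V => ((gn G v ∩ A).card : ℝ) ≤
            (1 / 2 - 1 / 5) * (A.card : ℝ)).card : ℝ) +
          ((univ.filter fun v : V => ((gn G v ∩ (univ \ A)).card : ℝ) ≤
            (1 / 2 - 1 / 5) * ((univ \ A).card : ℝ)).card : ℝ) := by exact_mod_cast h10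
      have h12 : ((hubr G g).card : ℝ) ≤ 2200 := by linarith
      have h13 : (96 / 100 : ℝ) * (10 ^ 30 * 10 ^ 100) ≤ 2200 := by nlinarith
      norm_num at h13
    have hd1 : gn G z \ A = gn G z ∩ (univ \ A) := by
      ext x; simp
    have hd2 : gn G z \ (univ \ A) = gn G z ∩ A := by
      ext x; simp
    by_cases hzA' : z ∈ A
    · refine h1 A z ⟨⟨hzA', hz, ?_⟩, hcB⟩
      rw [hd1]
      nlinarith
    · refine h1 (univ \ A) z ⟨⟨by simp [hzA'], hz, ?_⟩, ?_⟩
      · rw [hd2]
        nlinarith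
      · have : (((univ \ A : Finset V) : Set V))ᶜ = (A : Set V) := by
          ext x; simp
        rw [this]
        exact hcA

/-- the deterministic part -/
theorem poor_of (hG : QR G) (hn : Big (Fintype.card V)) (hs : S3 G g)
    (h1 : ∀ A z, ¬ E1 G g A z) (h2 : ∀ v, ¬ E2 G g v) {A : Finset V} (hne : A.Nonempty)
    (hcA : Closed g (A : Set V)) (hcB : Closed g ((A : Set V)ᶜ))
    (hle : 2 * (A.card : ℝ) ≤ nn V) : Poor G g A := by
  have h3 := no_hub hG hn hs h1 hcA hcB hle
  have h4 : ∀ v ∈ A, ((nb g v ∩ hubr G g).card : ℝ) < 1 / 100 * hh V := by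
    intro v hv
    by_contra hcon
    rw [not_lt] at hcon
    refine h2 v ⟨hcon, ?_⟩
    intro z hz z' hz' hq heq
    have h5 : g z z' ∈ ((A : Set V)ᶜ) := hcB z (h3 z hz) z' (h3 z' hz')
    rw [heq] at h5
    exact h5 hv
  refine ⟨hne, ?_, hcA, hcB, h3, h4⟩
  refine le_trans ?_ (irr_card hG hn hs)
  refine Nat.cast_le.2 (card_le_card ?_)
  intro v hv
  rw [mem_sdiff]
  refine ⟨mem_univ _, fun hr => ?_⟩
  have h5 := nb_hubr_ge hG hn hs hr
  have h6 := h4 v hv
  have h7 := hh_pos hn
  linarith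

theorem exists_poor (hG : QR G) (hn : Big (Fintype.card V)) (hs : S3 G g)
    (h1 : ∀ A z, ¬ E1 G g A z) (h2 : ∀ v, ¬ E2 G g v) (hr : Red g) :
    ∃ A : Finset V, Poor G g A := by
  obtain ⟨A0, hA0, hB0, hcA, hcB⟩ := hr
  set A : Finset V := A0.toFinset with hA
  have hAc : (A : Set V) = A0 := by rw [hA]; simp
  have hBc : ((A0ᶜ.toFinset : Finset V) : Set V) = A0ᶜ := by simp
  have hcomp : (A.card : ℝ) + ((A0ᶜ.toFinset : Finset V).card : ℝ) = nn V := by
    have h3 : (A0ᶜ.toFinset : Finset V) = univ \ A := by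
      ext x
      simp [hA]
    have : A.card + (univ \ A).card = Fintype.card V := by
      rw [add_comm, card_sdiff_add_card_eq_card (subset_univ A), card_univ]
    rw [h3]
    unfold nn
    exact_mod_cast this
  rcases le_total (A.card : ℝ) ((A0ᶜ.toFinset : Finset V).card : ℝ) with h | h
  · refine ⟨A, poor_of hG hn hs h1 h2 ?_ ?_ ?_ (by linarith)⟩
    · obtain ⟨x, hx⟩ := hA0
      exact ⟨x, by rw [hA]; simpa using hx⟩
    · rw [hAc]; exact hcA
    · rw [hAc]; exact hcB
  · refine ⟨A0ᶜ.toFinset, poor_of hG hn hs h1 h2 ?_ ?_ ?_ (by linarith)⟩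
    · obtain ⟨x, hx⟩ := hB0
      exact ⟨x, by simpa using hx⟩
    · rw [hBc]; exact hcB
    · rw [hBc, compl_compl]; exact hcA

/-! ### the probability estimates -/

/-- an unordered pair comes from at most two ordered pairs -/
theorem card_le_two_mul_image (P : Finset (V × V)) :
    P.card ≤ 2 * (P.image fun q => s(q.1, q.2)).card := by
  apply card_le_mul_card_image
  intro e he
  obtain ⟨q, hq, rfl⟩ := mem_image.1 he
  have h1 : (P.filter fun x => s(x.1, x.2) = s(q.1, q.2)) ⊆ {(q.1, q.2), (q.2, q.1)} := by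
    intro x hx
    rw [mem_filter] at hx
    rw [mem_insert, mem_singleton]
    rcases Sym2.eq_iff.1 hx.2 with ⟨h1, h2⟩ | ⟨h1, h2⟩
    · left; ext
      · exact h1
      · exact h2
    · right; ext
      · exact h1
      · exact h2
  exact (card_le_card h1).trans card_le_two

/-- a lower bound for the mean in T1 -/
theorem mean_ge {P : Finset (V × V)} {z : V} {m : ℝ} (hm : 0 < m)
    (hP : ∀ q ∈ P, z ∈ mids g s(q.1, q.2) ∧ ((mids g s(q.1, q.2)).card : ℝ) ≤ m) :
    (P.card : ℝ) / (2 * m) ≤ ∑ i ∈ P.image fun q => s(q.1, q.2),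
      ((mids g i ∩ {z}).card : ℝ) / (mids g i).card := by
  have h1 : ∀ i ∈ P.image fun q => s(q.1, q.2),
      1 / m ≤ ((mids g i ∩ {z}).card : ℝ) / (mids g i).card := by
    intro i hi
    obtain ⟨q, hq, rfl⟩ := mem_image.1 hi
    obtain ⟨h2, h3⟩ := hP q hq
    have h4 : mids g s(q.1, q.2) ∩ {z} = {z} := by
      rw [inter_singleton_of_mem h2]
    rw [h4, card_singleton, Nat.cast_one]
    have h5 : 0 < (mids g s(q.1, q.2)).card := card_pos.2 ⟨z, h2⟩
    have h6 : (0 : ℝ) < ((mids g s(q.1, q.2)).card : ℝ) := by exact_mod_cast h5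
    exact one_div_le_one_div_of_le h6 h3
  have h2 := card_nsmul_le_sum _ _ _ h1
  refine le_trans ?_ h2
  rw [nsmul_eq_mul]
  have h3 : (P.card : ℝ) ≤ 2 * ((P.image fun q => s(q.1, q.2)).card : ℝ) := by
    exact_mod_cast card_le_two_mul_image P
  rw [div_le_iff₀ (by positivity)]
  have h4 : ((P.image fun q => s(q.1, q.2)).card : ℝ) * (1 / m) * (2 * m) =
      2 * ((P.image fun q => s(q.1, q.2)).card : ℝ) := by
    field_simp
  rw [h4]
  exact h3

theorem mids_sub {s t : V} (hq : Q g s t) : mids g s(s, t) ⊆ nb g s := by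
  intro z hz
  rw [mem_mids hq] at hz
  rw [mem_nb]
  exact hz.1

/-- pairs of a set that avoid bad pairs -/
theorem card_pairs_ge {S : Finset V} {m : ℝ} (hS : ∀ s ∈ S, ((bad G g s).card : ℝ) ≤ m) :
    (S.card : ℝ) * ((S.card : ℝ) - 1 - m) ≤
      (((S ×ˢ S).filter fun q => q.1 ≠ q.2 ∧ q.2 ∉ bad G g q.1).card : ℝ) := by
  have h1 : ((S ×ˢ S).filter fun q => q.1 ≠ q.2 ∧ q.2 ∉ bad G g q.1).card =
      ∑ s ∈ S, (S.filter fun t => s ≠ t ∧ t ∉ bad G g s).card := by
    rw [card_filter, sum_product]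
    refine sum_congr rfl fun s _ => ?_
    rw [card_filter]
  rw [h1]
  push_cast
  rw [← nsmul_eq_mul]
  apply card_nsmul_le_sum
  intro s hs
  have h2 : S ⊆ (S.filter fun t => s ≠ t ∧ t ∉ bad G g s) ∪ ({s} ∪ bad G g s) := by
    intro t ht
    rw [mem_union, mem_filter, mem_union, mem_singleton]
    by_cases h3 : t = s
    · exact Or.inr (Or.inl h3)
    · by_cases h4 : t ∈ bad G g s
      · exact Or.inr (Or.inr h4)
      · exact Or.inl ⟨ht, fun h => h3 h.symm, h4⟩
  have h3 := (card_le_card h2).trans (card_union_le _ _)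
  have h4 := card_union_le {s} (bad G g s)
  rw [card_singleton] at h4
  have h5 : S.card ≤ (S.filter fun t => s ≠ t ∧ t ∉ bad G g s).card + (1 + (bad G g s).card) := by
    omega
  have h6 : (S.card : ℝ) ≤ ((S.filter fun t => s ≠ t ∧ t ∉ bad G g s).card : ℝ) +
      (1 + ((bad G g s).card : ℝ)) := by exact_mod_cast h5
  have h7 := hS s hs
  linarith

theorem e1_bound (hG : QR G) (hn : Big (Fintype.card V)) (hg : IsSys G g) (hs : S3 G g)
    (A : Finset V) (z : V) :
    (((Fintype.piFinset (mids g)).filter fun ω => E1 G (mk g ω) A z).card : ℝ) ≤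
      Real.exp (-(nn V * LL V / 300)) * ((Fintype.piFinset (mids g)).card : ℝ) := by
  by_cases hz : z ∈ A ∧ z ∈ hubr G g ∧ 1 / 10 * nn V ≤ ((gn G z \ A).card : ℝ)
  · obtain ⟨hzA, hzh, hzn⟩ := hz
    have hzh' := mem_hubr.1 hzh
    have hnp : 0 < nn V := (big_facts hn).2.2.1
    have hhp := hh_pos hn
    have hrp := rr_pos hn
    have hLp := LL_pos hn
    -- the vertices used for the pairs
    set S : Finset V := (nb g z ∩ reg G g) \ (A ∪ hub g) with hSdef
    have hSmem : ∀ s ∈ S, Used g z s ∧ s ∈ reg G g ∧ s ∉ A ∧ s ∉ hub g := by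
      intro s hs'
      rw [hSdef, mem_sdiff, mem_inter, mem_nb, mem_union, not_or] at hs'
      exact ⟨hs'.1.1, hs'.1.2, hs'.2.1, hs'.2.2⟩
    have hScard : 1 / 11 * nn V ≤ (S.card : ℝ) := by
      have h1 : gn G z \ A ⊆ S ∪ (bad G g z ∪ ((univ \ reg G g) ∪ hub g)) := by
        intro w hw
        rw [mem_sdiff] at hw
        have h2 := gn_sub_of_hub (G := G) hzh'.1 hw.1
        rw [mem_union] at h2
        rw [mem_union, mem_union, mem_union, hSdef, mem_sdiff, mem_inter, mem_union, not_or,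
          mem_sdiff]
        by_cases h3 : w ∈ hub g
        · exact Or.inr (Or.inr (Or.inr h3))
        · by_cases h4 : w ∈ reg G g
          · rcases h2 with h2 | h2
            · exact Or.inl ⟨⟨h2, h4⟩, hw.2, h3⟩
            · exact Or.inr (Or.inl h2)
          · exact Or.inr (Or.inr (Or.inl ⟨mem_univ _, h4⟩))
      have h2 := (card_le_card h1).trans (card_union_le _ _)
      have h3 := card_union_le (bad G g z) ((univ \ reg G g) ∪ hub g)
      have h4 := card_union_le (univ \ reg G g) (hub g)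
      have h5 : ((gn G z \ A).card : ℝ) ≤ (S.card : ℝ) + (((bad G g z).card : ℝ) +
          (((univ \ reg G g).card : ℝ) + ((hub g).card : ℝ))) := by
        have : (gn G z \ A).card ≤ S.card + ((bad G g z).card +
          ((univ \ reg G g).card + (hub g).card)) := by omega
        exact_mod_cast this
      have h6 := reg_bad hzh'.2
      have h7 := irr_card hG hn hs
      have h8 := hs.s2
      have h9 := rr_le_hh hn
      have h10 := jj_le_hh hn
      have h11 := hh_le hn
      have h12 := jj_nonneg V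
      nlinarith
    set P : Finset (V × V) := (S ×ˢ S).filter fun q => q.1 ≠ q.2 ∧ q.2 ∉ bad G g q.1 with hPdef
    have hPq : ∀ q ∈ P, Q g q.1 q.2 ∧ Used g z q.1 ∧ Used g z q.2 ∧ q.1 ∈ reg G g ∧
        q.1 ∉ hub g ∧ q.1 ∉ A ∧ q.2 ∉ A := by
      intro q hq
      rw [hPdef, mem_filter, mem_product] at hq
      obtain ⟨⟨h1, h2⟩, h3, h4⟩ := hq
      have h5 := hSmem _ h1
      have h6 := hSmem _ h2
      exact ⟨q_of_not_hub h3 h5.2.2.2 h6.2.2.2 h4, h5.1, h6.1, h5.2.1, h5.2.2.2, h5.2.2.1,
        h6.2.2.1⟩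
    have hPcard : (S.card : ℝ) * ((S.card : ℝ) - 1 - rr V) ≤ (P.card : ℝ) :=
      card_pairs_ge fun s hs' => reg_bad (hSmem s hs').2.1
    have hmean := mean_ge (g := g) (P := P) (z := z) (m := 12 / 10 * hh V) (by positivity) (by
      intro q hq
      obtain ⟨h1, h2, h3, h4, h5, -⟩ := hPq q hq
      refine ⟨(mem_mids h1).2 ⟨hg.used_symm h2, hg.used_symm h3⟩, ?_⟩
      refine le_trans (Nat.cast_le.2 (card_le_card (mids_sub h1))) ?_
      exact nb_card_le hg hn hs h4 h5)
    have hμ : nn V * LL V / 300 ≤ (P.card : ℝ) / (2 * (12 / 10 * hh V)) := by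
      rw [le_div_iff₀ (by positivity)]
      refine le_trans ?_ hPcard
      have h1 : nn V * LL V / 300 * (2 * (12 / 10 * hh V)) = nn V ^ 2 / 125 := by
        have := hh_mul hn
        have h2 : nn V * LL V / 300 * (2 * (12 / 10 * hh V)) =
          nn V * (hh V * LL V) / 125 := by ring
        rw [h2, this]; ring
      rw [h1]
      have h9 := rr_le_hh hn
      have h11 := hh_le hn
      have h12 := one_le_rr hn
      have h13 : 1 + rr V ≤ nn V / 10 ^ 10 := by
        rw [le_div_iff₀ (by positivity)]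
        nlinarith
      have h14 : (S.card : ℝ) * ((S.card : ℝ) - nn V / 10 ^ 10) ≤
          (S.card : ℝ) * ((S.card : ℝ) - 1 - rr V) :=
        mul_le_mul_of_nonneg_left (by linarith) (Nat.cast_nonneg _)
      refine le_trans ?_ h14
      nlinarith [mul_nonneg hnp.le (sub_nonneg.2 hScard),
        mul_nonneg (sub_nonneg.2 hScard) (sub_nonneg.2 hScard)]
    have hT := T1 (mids g) (P.image fun q => s(q.1, q.2)) (fun _ => {z}) (hμ.trans hmean)
    refine le_trans ?_ hT
    refine Nat.cast_le.2 (card_le_card ?_)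
    intro ω hω
    rw [mem_filter] at hω ⊢
    refine ⟨hω.1, ?_⟩
    intro i hi hiz
    obtain ⟨q, hq, rfl⟩ := mem_image.1 hi
    obtain ⟨h1, -, -, -, -, h2, h3⟩ := hPq q hq
    rw [mem_singleton] at hiz
    have h4 : mk g ω q.1 q.2 ∈ ((A : Set V)ᶜ) := hω.2.2 q.1 h2 q.2 h3
    rw [mk_q h1, hiz] at h4
    exact h4 hzA
  · have h1 : ((Fintype.piFinset (mids g)).filter fun ω => E1 G (mk g ω) A z) = ∅ := by
      rw [filter_eq_empty_iff]
      intro ω hω hE
      apply hz
      have h2 := sgt_mk hg hω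
      have h3 := hE.1
      rw [hubr_sgt h2] at h3
      exact h3
    rw [h1]
    simp only [card_empty, Nat.cast_zero]
    positivity

theorem e2_bound (hG : QR G) (hn : Big (Fintype.card V)) (hg : IsSys G g)
    (v : V) :
    (((Fintype.piFinset (mids g)).filter fun ω => E2 G (mk g ω) v).card : ℝ) ≤
      Real.exp (-(hh V ^ 2 / (60000 * nn V))) * ((Fintype.piFinset (mids g)).card : ℝ) := by
  by_cases hv : 1 / 100 * hh V ≤ ((nb g v ∩ hubr G g).card : ℝ)
  · have hnp : 0 < nn V := (big_facts hn).2.2.1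
    have hhp := hh_pos hn
    have hrp := rr_pos hn
    set S : Finset V := nb g v ∩ hubr G g with hSdef
    have hSmem : ∀ s ∈ S, Used g v s ∧ s ∈ hubr G g ∧ s ∈ reg G g := by
      intro s hs'
      rw [hSdef, mem_inter, mem_nb] at hs'
      exact ⟨hs'.1, hs'.2, (mem_hubr.1 hs'.2).2⟩
    set P : Finset (V × V) :=
      (S ×ˢ S).filter fun q => (q.1 ≠ q.2 ∧ ¬ G.Adj q.1 q.2) ∧ q.2 ∉ bad G g q.1 with hPdef
    have hPq : ∀ q ∈ P, Q g q.1 q.2 ∧ Used g v q.1 ∧ Used g v q.2 ∧ q.1 ∈ hubr G g ∧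
        q.2 ∈ hubr G g := by
      intro q hq
      rw [hPdef, mem_filter, mem_product] at hq
      obtain ⟨⟨h1, h2⟩, ⟨h3, h4⟩, h5⟩ := hq
      have h6 := hSmem _ h1
      have h7 := hSmem _ h2
      exact ⟨q_of_not_adj h3 h4 h5, h6.1, h7.1, h6.2.1, h7.2.1⟩
    have hPcard : (S.card : ℝ) ^ 2 / 3 ≤ (P.card : ℝ) := by
      have h1 := hG.nonadj_pairs_ge S
      have h2 : ((S ×ˢ S).filter fun q => q.1 ≠ q.2 ∧ ¬ G.Adj q.1 q.2) ⊆
          P ∪ ((S ×ˢ (univ : Finset V)).filter fun q => q.2 ∈ bad G g q.1) := by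
        intro q hq
        rw [mem_filter, mem_product] at hq
        rw [mem_union, hPdef, mem_filter, mem_filter, mem_product, mem_product]
        by_cases h3 : q.2 ∈ bad G g q.1
        · exact Or.inr ⟨⟨hq.1.1, mem_univ _⟩, h3⟩
        · exact Or.inl ⟨hq.1, hq.2, h3⟩
      have h3 : (((S ×ˢ (univ : Finset V)).filter fun q => q.2 ∈ bad G g q.1).card : ℝ) ≤
          (S.card : ℝ) * rr V := by
        have h4 : ((S ×ˢ (univ : Finset V)).filter fun q => q.2 ∈ bad G g q.1).card =
            ∑ s ∈ S, (bad G g s).card := by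
          rw [card_filter, sum_product]
          refine sum_congr rfl fun s _ => ?_
          rw [← card_filter]
          simp
        rw [h4]
        push_cast
        rw [← nsmul_eq_mul]
        apply sum_le_card_nsmul
        intro s hs'
        exact reg_bad (hSmem s hs').2.2
      have h4 := (card_le_card h2).trans (card_union_le _ _)
      have h5 : (((S ×ˢ S).filter fun q => q.1 ≠ q.2 ∧ ¬ G.Adj q.1 q.2).card : ℝ) ≤
          (P.card : ℝ) +
          (((S ×ˢ (univ : Finset V)).filter fun q => q.2 ∈ bad G g q.1).card : ℝ) := by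
        exact_mod_cast h4
      have h6 : Real.sqrt (nn V) ≤ rr V := by
        have hn1 : 1 ≤ nn V := by
          rw [(big_facts hn).2.1]
          exact Real.one_le_exp (LL_pos hn).le
        rw [Real.sqrt_eq_rpow]
        unfold rr
        apply Real.rpow_le_rpow_of_exponent_le hn1
        unfold sig
        norm_num
      have h7 := rr_le_hh hn
      have h8 := one_le_rr hn
      have h9 : 1 + 4 * Real.sqrt (nn V) + rr V ≤ (S.card : ℝ) / 6 := by
        have : 1 + 4 * Real.sqrt (nn V) + rr V ≤ 6 * rr V := by linarith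
        nlinarith
      have h10 : (S.card : ℝ) * (1 + 4 * Real.sqrt (nn V) + rr V) ≤
          (S.card : ℝ) * ((S.card : ℝ) / 6) :=
        mul_le_mul_of_nonneg_left h9 (Nat.cast_nonneg _)
      nlinarith
    have hmean := mean_ge (g := g) (P := P) (z := v) (m := nn V) hnp (by
      intro q hq
      obtain ⟨h1, h2, h3, -, -⟩ := hPq q hq
      refine ⟨(mem_mids h1).2 ⟨hg.used_symm h2, hg.used_symm h3⟩, ?_⟩
      unfold nn
      exact_mod_cast card_le_univ _)
    have hμ : hh V ^ 2 / (60000 * nn V) ≤ (P.card : ℝ) / (2 * nn V) := by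
      rw [div_le_div_iff₀ (by positivity) (by positivity)]
      have h1 : (1 / 100 * hh V) ^ 2 ≤ (S.card : ℝ) ^ 2 :=
        pow_le_pow_left₀ (by positivity) hv 2
      have h2 : hh V ^ 2 * 2 ≤ (P.card : ℝ) * 60000 := by nlinarith
      nlinarith
    have hT := T1 (mids g) (P.image fun q => s(q.1, q.2)) (fun _ => {v}) (hμ.trans hmean)
    refine le_trans ?_ hT
    refine Nat.cast_le.2 (card_le_card ?_)
    intro ω hω
    rw [mem_filter] at hω ⊢
    refine ⟨hω.1, ?_⟩
    intro i hi hiz
    obtain ⟨q, hq, rfl⟩ := mem_image.1 hi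
    obtain ⟨h1, -, -, h2, h3⟩ := hPq q hq
    rw [mem_singleton] at hiz
    have h4 := sgt_mk hg hω.1
    refine hω.2.2 q.1 ?_ q.2 ?_ ((mk_q_iff hg hω.1).2 h1) ?_
    · rw [hubr_sgt h4]; exact h2
    · rw [hubr_sgt h4]; exact h3
    · rw [mk_q h1, hiz]
  · have h1 : ((Fintype.piFinset (mids g)).filter fun ω => E2 G (mk g ω) v) = ∅ := by
      rw [filter_eq_empty_iff]
      intro ω hω hE
      apply hv
      have h2 := sgt_mk hg hω
      have h3 := hE.1
      rw [hubr_sgt h2, nb_sgt h2] at h3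
      exact h3
    rw [h1]
    simp only [card_empty, Nat.cast_zero]
    positivity

/-- the numbers add up to less than 1 / log n -/
theorem total_le (hn : Big (Fintype.card V)) :
    (2 : ℝ) ^ Fintype.card V * nn V * Real.exp (-(nn V * LL V / 300)) +
      nn V * Real.exp (-(hh V ^ 2 / (60000 * nn V))) ≤ 1 / LL V := by
  obtain ⟨hL, hne, hnp, hnL⟩ := big_facts hn
  have hLp := LL_pos hn
  have hhp := hh_pos hn
  have hL1 : (1 : ℝ) ≤ LL V := le_trans (by norm_num) hL
  have h2L : 2 * LL V ≤ nn V := by nlinarith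
  have h1 : (2 : ℝ) ^ Fintype.card V * nn V * Real.exp (-(nn V * LL V / 300)) ≤
      1 / (2 * LL V) := by
    have h2 : (2 : ℝ) ^ Fintype.card V ≤ Real.exp (nn V) := by
      have h3 : (2 : ℝ) ≤ Real.exp 1 := by
        have := Real.add_one_le_exp (1 : ℝ)
        linarith
      calc (2 : ℝ) ^ Fintype.card V ≤ Real.exp 1 ^ Fintype.card V :=
            pow_le_pow_left₀ (by norm_num) h3 _
        _ = Real.exp (nn V) := by
            rw [← Real.exp_nat_mul, mul_one]
            rfl
    have h3 : nn V ≤ Real.exp (nn V) := by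
      have := Real.add_one_le_exp (nn V)
      linarith
    have h4 : (2 : ℝ) ^ Fintype.card V * nn V ≤ Real.exp (nn V) * Real.exp (nn V) :=
      mul_le_mul h2 h3 hnp.le (Real.exp_pos _).le
    have h5 : (2 : ℝ) ^ Fintype.card V * nn V * Real.exp (-(nn V * LL V / 300)) ≤
        Real.exp (-nn V) := by
      calc _ ≤ Real.exp (nn V) * Real.exp (nn V) * Real.exp (-(nn V * LL V / 300)) :=
            mul_le_mul_of_nonneg_right h4 (Real.exp_pos _).le
        _ = Real.exp (nn V + nn V + -(nn V * LL V / 300)) := by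
            rw [← Real.exp_add, ← Real.exp_add]
        _ ≤ Real.exp (-nn V) := by
            apply Real.exp_le_exp.2
            have h900 : (900 : ℝ) ≤ LL V := le_trans (by norm_num) hL
            nlinarith
    refine h5.trans ?_
    rw [Real.exp_neg, ← one_div]
    apply one_div_le_one_div_of_le (by positivity)
    linarith
  have h2 : nn V * Real.exp (-(hh V ^ 2 / (60000 * nn V))) ≤ 1 / (2 * LL V) := by
    have h3 := exp_big (c := 1) (by norm_num) hL
    rw [one_mul, ← hne] at h3
    have h4 : 2 * LL V ≤ hh V ^ 2 / (60000 * nn V) := by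
      rw [le_div_iff₀ (by positivity)]
      have h5 := hh_mul hn
      have h6 : 2 * LL V * (60000 * nn V) * LL V ^ 2 ≤ hh V ^ 2 * LL V ^ 2 := by
        have h7 : hh V ^ 2 * LL V ^ 2 = nn V ^ 2 := by rw [← h5]; ring
        rw [h7]
        have h8 : 2 * LL V * (60000 * nn V) * LL V ^ 2 = 120000 * LL V ^ 3 * nn V := by ring
        rw [h8, sq]
        apply mul_le_mul_of_nonneg_right _ hnp.le
        have : 0 ≤ LL V ^ 3 := by positivity
        nlinarith
      exact le_of_mul_le_mul_right h6 (by positivity)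
    have h5 : Real.exp (-(hh V ^ 2 / (60000 * nn V))) ≤ Real.exp (-(2 * LL V)) :=
      Real.exp_le_exp.2 (by linarith)
    calc nn V * Real.exp (-(hh V ^ 2 / (60000 * nn V)))
        ≤ nn V * Real.exp (-(2 * LL V)) := mul_le_mul_of_nonneg_left h5 hnp.le
      _ = 1 / nn V := by
          have h6 : Real.exp (-(2 * LL V)) = (nn V * nn V)⁻¹ := by
            rw [Real.exp_neg, two_mul, Real.exp_add, ← hne]
          rw [h6]
          field_simp
      _ ≤ 1 / (2 * LL V) := one_div_le_one_div_of_le (by positivity) h2L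
  have h3 : 1 / (2 * LL V) + 1 / (2 * LL V) = 1 / LL V := by
    field_simp
    norm_num
  linarith

/-- one of the exceptional events -/
def Bad12 (G : SimpleGraph V) (g : V → V → V) : Prop :=
  (∃ p : Finset V × V, E1 G g p.1 p.2) ∨ ∃ v : V, E2 G g v

theorem bad12_bound (hG : QR G) (hn : Big (Fintype.card V)) (hg : IsSys G g) (hs : S3 G g) :
    (((Fintype.piFinset (mids g)).filter fun ω => Bad12 G (mk g ω)).card : ℝ) ≤
      1 / LL V * ((Fintype.piFinset (mids g)).card : ℝ) := by
  set Ω := Fintype.piFinset (mids g) with hΩ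
  have h1 : (Ω.filter fun ω => Bad12 G (mk g ω)) ⊆
      ((univ : Finset (Finset V × V)).biUnion fun p => Ω.filter fun ω =>
        E1 G (mk g ω) p.1 p.2) ∪
      ((univ : Finset V).biUnion fun v => Ω.filter fun ω => E2 G (mk g ω) v) := by
    intro ω hω
    rw [mem_filter] at hω
    rw [mem_union, mem_biUnion, mem_biUnion]
    rcases hω.2 with ⟨p, hp⟩ | ⟨v, hv⟩
    · exact Or.inl ⟨p, mem_univ _, mem_filter.2 ⟨hω.1, hp⟩⟩
    · exact Or.inr ⟨v, mem_univ _, mem_filter.2 ⟨hω.1, hv⟩⟩
  have h2 := (card_le_card h1).trans (card_union_le _ _)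
  have h3 : (((univ : Finset (Finset V × V)).biUnion fun p => Ω.filter fun ω =>
        E1 G (mk g ω) p.1 p.2).card : ℝ) ≤
      (2 : ℝ) ^ Fintype.card V * nn V * Real.exp (-(nn V * LL V / 300)) * (Ω.card : ℝ) := by
    have h4 : (((univ : Finset (Finset V × V)).biUnion fun p => Ω.filter fun ω =>
        E1 G (mk g ω) p.1 p.2).card : ℝ) ≤
        ∑ p : Finset V × V, ((Ω.filter fun ω => E1 G (mk g ω) p.1 p.2).card : ℝ) := by
      exact_mod_cast card_biUnion_le
    refine h4.trans ?_
    calc _ ≤ ∑ p : Finset V × V, Real.exp (-(nn V * LL V / 300)) * (Ω.card : ℝ) :=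
          sum_le_sum fun p _ => e1_bound hG hn hg hs p.1 p.2
      _ = _ := by
          rw [sum_const, card_univ, Fintype.card_prod, Fintype.card_finset, nsmul_eq_mul]
          unfold nn
          push_cast
          ring
  have h5 : (((univ : Finset V).biUnion fun v => Ω.filter fun ω =>
        E2 G (mk g ω) v).card : ℝ) ≤
      nn V * Real.exp (-(hh V ^ 2 / (60000 * nn V))) * (Ω.card : ℝ) := by
    have h4 : (((univ : Finset V).biUnion fun v => Ω.filter fun ω =>
        E2 G (mk g ω) v).card : ℝ) ≤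
        ∑ v : V, ((Ω.filter fun ω => E2 G (mk g ω) v).card : ℝ) := by
      exact_mod_cast card_biUnion_le
    refine h4.trans ?_
    calc _ ≤ ∑ v : V, Real.exp (-(hh V ^ 2 / (60000 * nn V))) * (Ω.card : ℝ) :=
          sum_le_sum fun v _ => e2_bound hG hn hg v
      _ = _ := by
          rw [sum_const, card_univ, nsmul_eq_mul]
          unfold nn
          ring
  have h6 : ((Ω.filter fun ω => Bad12 G (mk g ω)).card : ℝ) ≤
      (((univ : Finset (Finset V × V)).biUnion fun p => Ω.filter fun ω =>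
        E1 G (mk g ω) p.1 p.2).card : ℝ) +
      (((univ : Finset V).biUnion fun v => Ω.filter fun ω =>
        E2 G (mk g ω) v).card : ℝ) := by exact_mod_cast h2
  have h7 := mul_le_mul_of_nonneg_right (total_le hn) (Nat.cast_nonneg Ω.card : (0 : ℝ) ≤ Ω.card)
  rw [add_mul] at h7
  linarith

end

end RedP

open Finset Det RedP in
open Classical in
/-- (7.1), (7.2) -/
theorem red_poor {V : Type*} [Fintype V] {G : SimpleGraph V} (hG : QR G)
    (hn : Big (Fintype.card V)) :
    (((PS G).filter fun g => Struct G g ∧ Red g ∧ ¬ ∃ A : Finset V, Poor G g A).card : ℝ) ≤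
      1 / LL V * (PS G).card := by
  have hS : ∀ g, g ∈ PS G ↔ IsSys G g := by
    intro g
    simp [PS]
  have hLp := LL_pos hn
  have key := class_bound (G := G) (PS G) hS (fun g => S3 G g) (fun g => Bad12 G g)
    (fun g g' _ _ h1 h2 => s3_sgt h1 h2) (δ := 1 / LL V) (by positivity)
    (fun g hg hs => bad12_bound hG hn ((hS g).1 hg) hs)
  refine le_trans ?_ key
  refine Nat.cast_le.2 (card_le_card ?_)
  intro g hg
  rw [mem_filter] at hg ⊢
  obtain ⟨h1, h2, h3, h4⟩ := hg
  refine ⟨h1, S3.of_struct h2, ?_⟩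
  by_contra hcon
  unfold Bad12 at hcon
  rw [not_or, not_exists, not_exists] at hcon
  exact h4 (exists_poor hG hn (S3.of_struct h2) (fun A z => hcon.1 (A, z))
    (fun v => hcon.2 v) h3)

end CEB
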