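import Pool.Agent.Work.MP_ceb7a8_co.ListForm
import Pool.Agent.Work.MP_ceb7a8_co.Sys

/-!
Translation between the list form and the first step form of path systems.
-/

namespace CEBL

open CEB

variable {V : Type*}

/-- First step of the path from `u` to `v`. -/
def step (P : V → V → List V) (u v : V) : V := (P u v).tail.headD u

/-- Follow the first steps `k` times. -/
def build (g : V → V → V) : ℕ → V → V → List V
  | 0, u, _ => [u]
  | k + 1, u, v => u :: build g k (g u v) v

namespace IsSystem

variable {G : SimpleGraph V} {P : V → V → List V}

theorem head_P (h : IsSystem G P) (u v : V) : ∃ t, P u v = u :: t := (h.path u v).exists_cons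

theorem eq_cons (h : IsSystem G P) {u v : V} (huv : u ≠ v) :
    P u v = u :: P (step P u v) v := by
  obtain ⟨x, hx, _⟩ := h.exists_first huv
  obtain ⟨t, ht⟩ := h.head_P x v
  have : step P u v = x := by simp [step, hx, ht]
  rw [this, hx]

theorem adj_step (h : IsSystem G P) {u v : V} (huv : u ≠ v) : G.Adj u (step P u v) := by
  obtain ⟨x, hx, hadj⟩ := h.exists_first huv
  obtain ⟨t, ht⟩ := h.head_P x v
  have : step P u v = x := by simp [step, hx, ht]
  rw [this]; exact hadj

theorem isSys_step (h : IsSystem G P) : IsSys G (step P) where
  self u := by simp [step, h.self u]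
  adj u v huv := h.adj_step huv
  cons u v huv hx := by
    have h1 := h.eq_cons huv
    have h2 : P v u = P v (step P u v) ++ [u] := by
      rw [h.symm u v, h1, List.reverse_cons, h.symm (step P u v) v]
    have h3 := h.eq_cons (u := v) (v := step P u v) (Ne.symm hx)
    obtain ⟨t, ht⟩ := h.head_P (step P v (step P u v)) (step P u v)
    generalize step P u v = x at *
    generalize hy : step P v x = y at *
    have : step P v u = y := by
      simp [step, h2, h3, ht]
    exact this.symm
  len := by
    refine ⟨fun u v => (P u v).length - 1, ?_, ?_, ?_⟩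
    · intro u v
      simp only
      rw [h.symm v u, List.length_reverse]
    · intro u
      simp [h.self u]
    · intro u v huv
      obtain ⟨t, ht⟩ := h.head_P (step P u v) v
      simp only
      rw [h.eq_cons huv, ht]
      simp

theorem ext_step {P' : V → V → List V} (h : IsSystem G P) (h' : IsSystem G P')
    (hs : step P = step P') : P = P' := by
  have : ∀ n u v, (P u v).length ≤ n → P u v = P' u v := by
    intro n
    induction n with
    | zero =>
      intro u v hn
      obtain ⟨t, ht⟩ := h.head_P u v
      simp [ht] at hn
    | succ n ih =>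
      intro u v hn
      by_cases huv : u = v
      · subst huv; rw [h.self, h'.self]
      · rw [h.eq_cons huv, h'.eq_cons huv, ← hs]
        rw [h.eq_cons huv] at hn
        rw [ih _ _ (by simpa using hn)]
  funext u v
  exact this _ u v le_rfl

end IsSystem

section build

variable {G : SimpleGraph V} {g : V → V → V} {d : V → V → ℕ}

theorem build_head (k : ℕ) (u v : V) : ∃ t, build g k u v = u :: t := by
  cases k with
  | zero => exact ⟨[], rfl⟩
  | succ k => exact ⟨_, rfl⟩

variable (hg : IsSys G g) (hsymm : ∀ u v, d u v = d v u) (hrefl : ∀ u, d u u = 0)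
  (hstep : ∀ u v, u ≠ v → d u v = d (g u v) v + 1)

include hstep hrefl in
theorem d_eq_zero {u v : V} : d u v = 0 ↔ u = v := by
  constructor
  · intro h
    by_contra huv
    have := hstep u v huv
    omega
  · rintro rfl; exact hrefl u

include hstep in
theorem build_cons {u v : V} (huv : u ≠ v) :
    build g (d u v) u v = u :: build g (d (g u v) v) (g u v) v := by
  rw [hstep u v huv]; rfl

include hrefl in
theorem build_self (u : V) : build g (d u u) u u = [u] := by
  rw [hrefl u]; rfl

include hg hrefl hstep in
theorem build_path (n : ℕ) : ∀ u v, d u v ≤ n → IsPathList G u v (build g (d u v) u v) ∧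
    ∀ z ∈ build g (d u v) u v, d z v ≤ d u v := by
  induction n with
  | zero =>
    intro u v hn
    have huv : u = v := (d_eq_zero hrefl hstep).mp (Nat.le_zero.mp hn)
    subst huv
    rw [build_self hrefl]
    exact ⟨IsPathList.single G u, by simp⟩
  | succ n ih =>
    intro u v hn
    by_cases huv : u = v
    · subst huv
      rw [build_self hrefl]
      exact ⟨IsPathList.single G u, by simp⟩
    · have hs := hstep u v huv
      obtain ⟨h1, h2⟩ := ih (g u v) v (by omega)
      rw [build_cons hstep huv]
      refine ⟨⟨?_, ?_, rfl, ?_⟩, ?_⟩
      · rw [List.nodup_cons]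
        refine ⟨fun hmem => ?_, h1.nodup⟩
        have := h2 u hmem
        omega
      · obtain ⟨t, ht⟩ := build_head (g := g) (d (g u v) v) (g u v) v
        have hc := h1.chain
        rw [ht] at hc ⊢
        rw [List.isChain_cons_cons]
        exact ⟨hg.adj u v huv, hc⟩
      · obtain ⟨t, ht⟩ := build_head (g := g) (d (g u v) v) (g u v) v
        have hl := h1.last
        rw [ht] at hl ⊢
        rw [List.getLast?_cons_cons]
        exact hl
      · intro z hz
        rcases List.mem_cons.mp hz with rfl | hz
        · exact le_rfl
        · have := h2 z hz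
          omega

include hg hsymm hrefl hstep in
theorem build_concat (n : ℕ) : ∀ u v, u ≠ v → d u v ≤ n →
    build g (d v u) v u = build g (d v (g u v)) v (g u v) ++ [u] := by
  induction n with
  | zero =>
    intro u v huv hn
    exact absurd ((d_eq_zero hrefl hstep).mp (Nat.le_zero.mp hn)) huv
  | succ n ih =>
    intro u v huv hn
    have hs := hstep u v huv
    by_cases hx : g u v = v
    · rw [hx] at hs ⊢
      rw [hrefl] at hs
      rw [build_self hrefl, build_cons hstep huv.symm]
      have h1 := hstep v u huv.symm
      rw [hsymm v u, hs] at h1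
      have h2 : g v u = u := (d_eq_zero hrefl hstep).mp (by omega)
      rw [h2, build_self hrefl]
      rfl
    · have h1 := hg.cons u v huv hx
      have hyu : g v u ≠ u := by
        intro hyu
        have h3 := hstep v u huv.symm
        rw [hyu, hrefl, hsymm v u, hs] at h3
        apply hx
        apply (d_eq_zero hrefl hstep).mp
        omega
      rw [build_cons hstep huv.symm, build_cons hstep (Ne.symm hx), h1]
      have h2 := hg.cons v u huv.symm hyu
      -- `g u (g v u) = g u v`
      have hlen : d u (g v u) ≤ n := by
        have h3 := hstep v u huv.symm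
        rw [hsymm u (g v u)]
        rw [hsymm v u] at h3
        omega
      have h4 := ih u (g v u) (fun h => hyu h.symm) hlen
      rw [h2] at h4
      rw [h4]
      rfl

include hg hsymm hrefl hstep in
theorem build_reverse (n : ℕ) : ∀ u v, d u v ≤ n →
    build g (d v u) v u = (build g (d u v) u v).reverse := by
  induction n with
  | zero =>
    intro u v hn
    have huv : u = v := (d_eq_zero hrefl hstep).mp (Nat.le_zero.mp hn)
    subst huv
    rw [build_self hrefl]; rfl
  | succ n ih =>
    intro u v hn
    by_cases huv : u = v
    · subst huv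
      rw [build_self hrefl]; rfl
    · rw [build_concat hg hsymm hrefl hstep _ u v huv le_rfl, build_cons hstep huv,
        List.reverse_cons]
      have hs := hstep u v huv
      rw [ih (g u v) v (by omega)]

include hrefl hstep in
theorem build_suffix (l : List V) : ∀ u v x t, build g (d u v) u v = l ++ x :: t →
    x :: t = build g (d x v) x v := by
  induction l with
  | nil =>
    intro u v x t h
    obtain ⟨t', ht⟩ := build_head (g := g) (d u v) u v
    have : x = u := by
      rw [h] at ht
      exact (List.cons.inj ht).1
    subst this
    simpa using h.symm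
  | cons a l ih =>
    intro u v x t h
    by_cases huv : u = v
    · subst huv
      rw [build_self hrefl] at h
      simp at h
    · rw [build_cons hstep huv, List.cons_append] at h
      exact ih _ _ _ _ (List.cons.inj h).2

include hg hsymm hrefl hstep in
theorem build_isSystem : IsSystem G (fun u v => build g (d u v) u v) where
  path u v := (build_path hg hrefl hstep _ u v le_rfl).1
  symm u v := build_reverse hg hsymm hrefl hstep _ u v le_rfl
  seg u v x y l₁ l₂ l₃ h := by
    have h1 := build_suffix hrefl hstep l₁ u v x (l₂ ++ y :: l₃) h
    have h2 := build_reverse hg hsymm hrefl hstep _ x v le_rfl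
    rw [← h1] at h2
    have h3 : (x :: (l₂ ++ y :: l₃)).reverse = l₃.reverse ++ y :: (x :: l₂).reverse := by simp
    rw [h3] at h2
    have h4 := build_suffix hrefl hstep l₃.reverse v x y _ h2
    have h5 := build_reverse hg hsymm hrefl hstep _ y x le_rfl
    show build g (d x y) x y = _
    rw [h5, ← h4]
    simp

include hg hrefl hstep in
theorem step_build : step (fun u v => build g (d u v) u v) = g := by
  funext u v
  by_cases huv : u = v
  · subst huv
    simp [step, build_self hrefl, hg.self]
  · obtain ⟨t, ht⟩ := build_head (g := g) (d (g u v) v) (g u v) v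
    simp only [step]
    rw [build_cons hstep huv, ht]
    rfl

end build

theorem exists_system {G : SimpleGraph V} {g : V → V → V} (hg : IsSys G g) :
    ∃ P, IsSystem G P ∧ step P = g := by
  obtain ⟨d, h1, h2, h3⟩ := hg.len
  exact ⟨_, build_isSystem hg h1 h2 h3, step_build hg h2 h3⟩

theorem bijOn_step (G : SimpleGraph V) :
    Set.BijOn step {P | IsSystem G P} {g : V → V → V | IsSys G g} := by
  refine ⟨fun P hP => hP.isSys_step, fun P hP P' hP' h => IsSystem.ext_step hP hP' h, ?_⟩
  intro g hg
  obtain ⟨P, hP, rfl⟩ := exists_system hg
  exact ⟨P, hP, rfl⟩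

theorem finite_systems [Finite V] (G : SimpleGraph V) : {P : V → V → List V | IsSystem G P}.Finite :=
  Set.Finite.of_injOn (fun _ hP => (bijOn_step G).mapsTo hP) (bijOn_step G).injOn (Set.toFinite _)

theorem ncard_systems (G : SimpleGraph V) :
    {P : V → V → List V | IsSystem G P}.ncard = {g : V → V → V | IsSys G g}.ncard :=
  Set.BijOn.ncard_eq (bijOn_step G)

theorem wt_cons_cons (w : Sym2 V → ℝ) (a b : V) (l : List V) :
    wt w (a :: b :: l) = w s(a, b) + wt w (b :: l) := rfl

theorem wt_append (w : Sym2 V → ℝ) (l₁ : List V) (x : V) (l₂ : List V) :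
    wt w (l₁ ++ x :: l₂) = wt w (l₁ ++ [x]) + wt w (x :: l₂) := by
  induction l₁ with
  | nil => simp [wt]
  | cons a l ih =>
    cases l with
    | nil => simp [wt]
    | cons b l =>
      simp only [List.cons_append, wt_cons_cons] at ih ⊢
      rw [ih]; ring

theorem wt_nonneg {G : SimpleGraph V} (w : Sym2 V → ℝ) (hw : ∀ e ∈ G.edgeSet, 0 < w e) (l : List V)
    (hl : l.IsChain G.Adj) : 0 ≤ wt w l := by
  induction l with
  | nil => exact le_rfl
  | cons a l ih =>
    cases l with
    | nil => exact le_rfl
    | cons b l =>
      rw [wt_cons_cons]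
      rw [List.isChain_cons_cons] at hl
      have := hw s(a, b) (by simpa using hl.1)
      have := ih hl.2
      linarith

theorem Metrizable.metrG {G : SimpleGraph V} {P : V → V → List V} (hP : IsSystem G P)
    (h : Metrizable G P) : Metr G (step P) := by
  obtain ⟨w, hw, hmin⟩ := h
  refine ⟨fun u v => w s(u, v), fun u v => wt w (P u v), ?_, ?_, ?_, ?_, ?_⟩
  · intro u v; simp only [Sym2.eq_swap]
  · intro u v huv; exact hw _ (by simpa using huv)
  · intro u; simp [hP.self u, wt]
  · intro u v huv
    obtain ⟨t, ht⟩ := hP.head_P (step P u v) v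
    simp only
    rw [hP.eq_cons huv, ht, wt_cons_cons]
  · intro u v x hux
    simp only
    by_cases hmem : u ∈ P x v
    · obtain ⟨s, t, h1, h2, h3⟩ := hP.split hmem
      rw [h3, h2, wt_append]
      have h4 : 0 ≤ wt w (s ++ [u]) := by
        rw [← h1]; exact wt_nonneg w hw _ (hP.path x u).chain
      have h5 := hw s(u, x) (by simpa using hux)
      linarith
    · by_cases huv : u = v
      · subst huv
        exact absurd (hP.right_mem x u) hmem
      · obtain ⟨t, ht⟩ := hP.head_P x v
        have hl : IsPathList G u v (u :: P x v) := by
          refine ⟨List.nodup_cons.mpr ⟨hmem, (hP.path x v).nodup⟩, ?_, rfl, ?_⟩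
          · have := (hP.path x v).chain
            rw [ht] at this ⊢
            exact List.isChain_cons_cons.mpr ⟨hux, this⟩
          · have := (hP.path x v).last
            rw [ht] at this ⊢
            rw [List.getLast?_cons_cons]; exact this
        have := hmin u v _ hl
        rw [ht, wt_cons_cons] at this
        rw [ht]
        exact this

theorem Reducible.redG {G : SimpleGraph V} {P : V → V → List V} (hP : IsSystem G P)
    (h : Reducible P) : Red (step P) := by
  obtain ⟨A, hA, hA', h1, h2⟩ := h
  have key : ∀ u v, step P u v ∈ P u v := by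
    intro u v
    by_cases huv : u = v
    · subst huv; simp [step, hP.self u]
    · have h3 := hP.eq_cons huv
      have h4 := hP.left_mem (step P u v) v
      generalize step P u v = x at *
      rw [h3]; exact List.mem_cons_of_mem _ h4
  exact ⟨A, hA, hA', fun u hu v hv => h1 u hu v hv _ (key u v),
    fun u hu v hv => h2 u hu v hv _ (key u v)⟩

theorem ncard_bad_le [Finite V] (G : SimpleGraph V) :
    {P : V → V → List V | IsSystem G P ∧ (Metrizable G P ∨ Reducible P)}.ncard ≤
      {g : V → V → V | IsSys G g ∧ (Metr G g ∨ Red g)}.ncard := by
  apply Set.ncard_le_ncard_of_injOn step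
  · rintro P ⟨hP, h⟩
    refine ⟨hP.isSys_step, ?_⟩
    rcases h with h | h
    · exact Or.inl (h.metrG hP)
    · exact Or.inr (h.redG hP)
  · intro P hP P' hP' h
    exact IsSystem.ext_step hP.1 hP'.1 h

end CEBL
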