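import Pool.Agent.Work.MP_ceb7a8_co.SecF
import Pool.Agent.Work.MP_ceb7a8_co.ExtUp
import Pool.Agent.Work.MP_ceb7a8_co.ExtLower2
import Pool.Agent.Work.MP_ceb7a8_co.Translate
import Pool.Agent.Work.MP_ceb7a8_co.RedPoor

/-!
Assembly: from the structure theorem, the bounds for metrizable and reducible systems and the
properties of the random graph to the statement about almost all graphs.
-/

namespace CEB

namespace Asm

open Finset

noncomputable section

open scoped Classical

/-- one set A: the systems for which A is poor -/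
theorem poor_le {n : ℕ} (hn : (10 : ℝ) ^ 100 + 1 ≤ Real.log n) {G : SimpleGraph (Fin n)}
    (hG : QRs G) {A : Finset (Fin n)} (hA : A.Nonempty) (hj : (A.card : ℝ) ≤ jj (Fin n))
    (hgood : GoodA G A) :
    (((PS G).filter fun g => Struct G g ∧ Poor G g A).card : ℝ) ≤
      2 * Real.exp (-(45 / 100 * n)) ^ A.card * (PS G).card := by
  have hn1 : Big n := le_trans (by linarith) hn
  have hn2 : Big (Fintype.card (Fin n)) := by rw [Fintype.card_fin]; exact hn1
  have hup := ext_upper hG.qr hn2 A hA hj
  have hlo := ext_lower hG.qr hn2 A hj (hG.ind hn1 A hj) (big_out hn A hj) (by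
    unfold GoodA at hgood
    convert hgood)
  have h1 : Real.exp (A.card * (nn (Fin n) * Real.log (hh (Fin n)) - 24 / 10 * nn (Fin n))) =
      Real.exp (-(45 / 100 * n)) ^ A.card *
        Real.exp (A.card * (nn (Fin n) * Real.log (hh (Fin n)) - 195 / 100 * nn (Fin n))) := by
    rw [← Real.exp_nat_mul, ← Real.exp_add]
    congr 1
    rw [nn_fin]
    ring
  rw [h1, mul_assoc] at hup
  refine hup.trans ?_
  have h2 : (0 : ℝ) ≤ Real.exp (-(45 / 100 * n)) ^ A.card := by positivity
  calc _ ≤ Real.exp (-(45 / 100 * n)) ^ A.card * (2 * ((PS G).card : ℝ)) :=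
        mul_le_mul_of_nonneg_left hlo h2
    _ = _ := by ring

/-- the sum over all nonempty sets -/
theorem sum_small {n : ℕ} {x : ℝ} (hx : 0 ≤ x) (hnx : n * x ≤ 1) :
    ∑ A ∈ (univ : Finset (Finset (Fin n))).filter (fun A => A.Nonempty), x ^ A.card ≤
      2 * (n * x) := by
  have h1 : ∑ A : Finset (Fin n), x ^ A.card = (x + 1) ^ n := by
    have := Fintype.sum_pow_mul_eq_add_pow (Fin n) x 1
    simpa using this
  have h2 : ∑ A : Finset (Fin n), x ^ A.card =
      ∑ A ∈ (univ : Finset (Finset (Fin n))).filter (fun A => A.Nonempty), x ^ A.card +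
      ∑ A ∈ (univ : Finset (Finset (Fin n))).filter (fun A => ¬ A.Nonempty), x ^ A.card :=
    (sum_filter_add_sum_filter_not _ _ _).symm
  have h3 : (univ : Finset (Finset (Fin n))).filter (fun A => ¬ A.Nonempty) = {∅} := by
    ext A
    simp [not_nonempty_iff_eq_empty]
  rw [h3, sum_singleton, card_empty, pow_zero, h1] at h2
  have h4 : (x + 1) ^ n ≤ Real.exp (n * x) := by
    rw [Real.exp_nat_mul]
    exact pow_le_pow_left₀ (by linarith) (Real.add_one_le_exp x) n
  have h5 : Real.exp (n * x) ≤ 1 + 2 * (n * x) := by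
    have h0 : 0 ≤ n * x := by positivity
    have := Real.abs_exp_sub_one_le (x := n * x) (by rw [abs_of_nonneg h0]; exact hnx)
    rw [abs_of_nonneg h0] at this
    have := le_abs_self (Real.exp (n * x) - 1)
    linarith
  linarith

/-- numbers -/
theorem num {n : ℕ} (hn : (10 : ℝ) ^ 100 + 1 ≤ Real.log n) :
    n * Real.exp (-(45 / 100 * n)) ≤ 1 / (10 * Real.log n) ∧
    Real.exp (-(n : ℝ)) ≤ 1 / (10 * Real.log n) := by
  have hL : (10 : ℝ) ^ 100 ≤ Real.log n := by linarith
  have hL0 : 0 < Real.log n := lt_of_lt_of_le (by positivity) hL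
  have h0 : (0 : ℝ) < n := by
    by_contra h
    have : (n : ℝ) = 0 := le_antisymm (not_lt.1 h) (Nat.cast_nonneg n)
    rw [this, Real.log_zero] at hL0
    exact lt_irrefl _ hL0
  have hlog : Real.log n ≤ n := (Real.log_le_self h0.le)
  have hn100 : (10 : ℝ) ^ 100 ≤ n := hL.trans hlog
  have key : ∀ y : ℝ, 0 ≤ y → y ^ 3 / 6 ≤ Real.exp y := by
    intro y hy
    have := Real.pow_div_factorial_le_exp y hy 3
    norm_num [Nat.factorial] at this
    linarith
  have h1 : (45 / 100 * (n : ℝ)) ^ 3 / 6 ≤ Real.exp (45 / 100 * n) := key _ (by positivity)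
  have h2 : (n : ℝ) ^ 3 / 6 ≤ Real.exp n := key _ h0.le
  have h4 : 10 * (n : ℝ) * Real.log n ≤ 10 * (n : ℝ) ^ 2 := by nlinarith
  have h5 : (10 : ℝ) ^ 100 * (n : ℝ) ^ 2 ≤ (n : ℝ) ^ 3 := by
    have : (n : ℝ) ^ 3 = n * n ^ 2 := by ring
    rw [this]
    exact mul_le_mul_of_nonneg_right hn100 (by positivity)
  have h6 : (0 : ℝ) < (n : ℝ) ^ 2 := by positivity
  constructor
  · rw [Real.exp_neg, ← div_eq_mul_inv, div_le_div_iff₀ (Real.exp_pos _) (by positivity), one_mul]
    refine le_trans ?_ h1
    nlinarith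
  · rw [Real.exp_neg, ← one_div, div_le_div_iff₀ (Real.exp_pos _) (by positivity), one_mul,
      one_mul]
    refine le_trans ?_ h2
    have h7 : (1 : ℝ) ≤ n := le_trans (by norm_num) hn100
    have h8 : 10 * Real.log n ≤ 10 * (n : ℝ) ^ 2 := by nlinarith
    nlinarith

/-- a graph with the properties of the random graph has few metrizable or reducible systems -/
theorem bad_le {n : ℕ} (hn : (10 : ℝ) ^ 100 + 1 ≤ Real.log n) {G : SimpleGraph (Fin n)}
    (hG : QRs G)
    (hA : ∀ A : Finset (Fin n), A.Nonempty → (A.card : ℝ) ≤ jj (Fin n) → GoodA G A)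
    (hM : (((PS G).filter fun g => Struct G g ∧ Metr G g).card : ℝ) ≤
      1 / LL (Fin n) * (PS G).card) :
    (((PS G).filter fun g => Metr G g ∨ Red g).card : ℝ) ≤ 3 / Real.log n * (PS G).card := by
  have hn1 : Big n := le_trans (by linarith) hn
  have hn2 : Big (Fintype.card (Fin n)) := by rw [Fintype.card_fin]; exact hn1
  have hLL : LL (Fin n) = Real.log n := by unfold LL; rw [nn_fin]
  have hS := theorem_S hG.qr hn2
  have hR := red_poor hG.qr hn2
  rw [hLL] at hM hR
  rw [nn_fin] at hS
  obtain ⟨hx1, hx2⟩ := num hn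
  have hL : (10 : ℝ) ^ 100 ≤ Real.log n := by linarith
  have hL0 : 0 < Real.log n := lt_of_lt_of_le (by positivity) hL
  set N : Finset (Finset (Fin n)) := (univ : Finset (Finset (Fin n))).filter (fun A => A.Nonempty)
    with hN
  set P := PS G with hP
  have hsub : (P.filter fun g => Metr G g ∨ Red g) ⊆
      (P.filter fun g => ¬ Struct G g) ∪ ((P.filter fun g => Struct G g ∧ Metr G g) ∪
        ((P.filter fun g => Struct G g ∧ Red g ∧ ¬ ∃ A : Finset (Fin n), Poor G g A) ∪
          N.biUnion fun A => P.filter fun g => Struct G g ∧ Poor G g A)) := by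
    intro g hg
    obtain ⟨hgP, hgb⟩ := mem_filter.1 hg
    simp only [mem_union, mem_filter, mem_biUnion, hN, mem_univ, true_and]
    by_cases h1 : Struct G g
    · by_cases h2 : Metr G g
      · right; left; exact ⟨hgP, h1, h2⟩
      · have h3 : Red g := by tauto
        by_cases h4 : ∃ A : Finset (Fin n), Poor G g A
        · obtain ⟨A, hPA⟩ := h4
          right; right; right
          exact ⟨A, hPA.1, hgP, h1, hPA⟩
        · right; right; left; exact ⟨hgP, h1, h3, h4⟩
    · left; exact ⟨hgP, h1⟩
  have hcard : ((P.filter fun g => Metr G g ∨ Red g).card : ℝ) ≤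
      (P.filter fun g => ¬ Struct G g).card + ((P.filter fun g => Struct G g ∧ Metr G g).card +
        ((P.filter fun g => Struct G g ∧ Red g ∧ ¬ ∃ A : Finset (Fin n), Poor G g A).card +
          ∑ A ∈ N, ((P.filter fun g => Struct G g ∧ Poor G g A).card : ℝ))) := by
    have h1 := (card_le_card hsub).trans ((card_union_le _ _).trans
      (Nat.add_le_add_left ((card_union_le _ _).trans
        (Nat.add_le_add_left ((card_union_le _ _).trans
          (Nat.add_le_add_left card_biUnion_le _)) _)) _))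
    exact_mod_cast h1
  have hsum : ∑ A ∈ N, ((P.filter fun g => Struct G g ∧ Poor G g A).card : ℝ) ≤
      4 * (n * Real.exp (-(45 / 100 * n))) * P.card := by
    have h1 : ∀ A ∈ N, ((P.filter fun g => Struct G g ∧ Poor G g A).card : ℝ) ≤
        2 * Real.exp (-(45 / 100 * n)) ^ A.card * P.card := by
      intro A hAN
      have hne : A.Nonempty := (mem_filter.1 hAN).2
      by_cases hj : (A.card : ℝ) ≤ jj (Fin n)
      · exact poor_le hn hG hne hj (hA A hne hj)
      · have h2 : (P.filter fun g => Struct G g ∧ Poor G g A) = ∅ := by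
          refine filter_eq_empty_iff.2 fun g _ h => hj h.2.2.1
        rw [h2, card_empty, Nat.cast_zero]
        positivity
    refine (sum_le_sum h1).trans ?_
    rw [← sum_mul, ← mul_sum]
    refine mul_le_mul_of_nonneg_right ?_ (Nat.cast_nonneg _)
    have h2 := sum_small (n := n) (x := Real.exp (-(45 / 100 * n))) (Real.exp_pos _).le
      (hx1.trans (by
        rw [div_le_one (by positivity)]
        have : (1 : ℝ) ≤ Real.log n := le_trans (by norm_num) hL
        linarith))
    linarith
  have hP0 : (0 : ℝ) ≤ P.card := Nat.cast_nonneg _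
  have e1 : Real.exp (-(n : ℝ)) * P.card ≤ 1 / (10 * Real.log n) * P.card :=
    mul_le_mul_of_nonneg_right hx2 hP0
  have e2 : 4 * (n * Real.exp (-(45 / 100 * n))) * P.card ≤ 4 * (1 / (10 * Real.log n)) * P.card :=
    mul_le_mul_of_nonneg_right (by linarith) hP0
  have e3 : 1 / (10 * Real.log n) * (P.card : ℝ) = 1 / 10 * (1 / Real.log n * P.card) := by
    field_simp
  have e4 : 3 / Real.log n * (P.card : ℝ) = 3 * (1 / Real.log n * P.card) := by
    field_simp
  have e5 : 0 ≤ 1 / Real.log n * (P.card : ℝ) := by positivity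
  rw [e4]
  rw [e3] at e1
  have e6 : 4 * (1 / (10 * Real.log n)) * (P.card : ℝ) = 4 * (1 / 10 * (1 / Real.log n * P.card)) := by
    field_simp
  rw [e6] at e2
  linarith

end

end Asm

end CEB
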