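import Pool.Agent.Work.MP_ceb7a8_co.Final0

/-!
Assembly, end: from the bound for metrizable systems to the answer in terms of lists.
-/

namespace CEB

namespace Asm

open Finset

noncomputable section

open scoped Classical

theorem ncard_PS {n : ℕ} (G : SimpleGraph (Fin n)) :
    {P : Fin n → Fin n → List (Fin n) | CEBL.IsSystem G P}.ncard = (PS G).card := by
  rw [CEBL.ncard_systems, ← Set.ncard_coe_finset]
  congr 1
  ext g
  simp [PS]

theorem ncard_bad {n : ℕ} (G : SimpleGraph (Fin n)) :
    {P : Fin n → Fin n → List (Fin n) | CEBL.IsSystem G P ∧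
      (CEBL.Metrizable G P ∨ CEBL.Reducible P)}.ncard ≤
      ((PS G).filter fun g => Metr G g ∨ Red g).card := by
  refine (CEBL.ncard_bad_le G).trans (le_of_eq ?_)
  rw [← Set.ncard_coe_finset]
  congr 1
  ext g
  simp [PS]

/-- the answer, from the bound for metrizable systems -/
theorem final (hM : ∀ (n : ℕ) (G : SimpleGraph (Fin n)), QR G → Big n →
      (((PS G).filter fun g => Struct G g ∧ Metr G g).card : ℝ) ≤
        1 / LL (Fin n) * (PS G).card) :
    ∃ ε : ℕ → ℝ, (∀ n, ε n = 3 / Real.log n) ∧ Filter.Tendsto ε Filter.atTop (nhds 0) ∧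
      Filter.Tendsto (fun n : ℕ =>
        ({G : SimpleGraph (Fin n) |
          ¬ (({P : Fin n → Fin n → List (Fin n) | CEBL.IsSystem G P ∧
                (CEBL.Metrizable G P ∨ CEBL.Reducible P)}.ncard : ℝ) ≤
              ε n * ({P : Fin n → Fin n → List (Fin n) | CEBL.IsSystem G P}.ncard : ℝ))}.ncard :
            ℝ) / (Nat.card (SimpleGraph (Fin n)) : ℝ)) Filter.atTop (nhds 0) := by
  refine ⟨fun n => 3 / Real.log n, fun _ => rfl, ?_, ?_⟩
  · have h1 : Filter.Tendsto (fun n : ℕ => Real.log n) Filter.atTop Filter.atTop :=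
      Real.tendsto_log_atTop.comp tendsto_natCast_atTop_atTop
    exact h1.const_div_atTop 3
  · rw [Metric.tendsto_atTop]
    intro δ hδ
    obtain ⟨N, hN⟩ := random_graph thmS (δ / 2) (by positivity)
    refine ⟨max N ⌈Real.exp (10 ^ 100 + 1)⌉₊, fun n hn => ?_⟩
    have hnN : N ≤ n := (le_max_left _ _).trans hn
    have h1 : Real.exp (10 ^ 100 + 1) ≤ n :=
      (Nat.le_ceil _).trans (by exact_mod_cast (le_max_right _ _).trans hn)
    have h0 : (0 : ℝ) < n := lt_of_lt_of_le (Real.exp_pos _) h1
    have h3 : (10 : ℝ) ^ 100 + 1 ≤ Real.log n := (Real.le_log_iff_exp_le h0).2 h1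
    have h4 := hN n hnN
    set B : Finset (SimpleGraph (Fin n)) := (univ : Finset (SimpleGraph (Fin n))).filter fun G =>
      ¬ (QRs G ∧ ∀ A : Finset (Fin n), A.Nonempty → (A.card : ℝ) ≤ jj (Fin n) → GoodA G A)
      with hB
    have h5 : {G : SimpleGraph (Fin n) |
          ¬ (({P : Fin n → Fin n → List (Fin n) | CEBL.IsSystem G P ∧
                (CEBL.Metrizable G P ∨ CEBL.Reducible P)}.ncard : ℝ) ≤
              3 / Real.log n *
                ({P : Fin n → Fin n → List (Fin n) | CEBL.IsSystem G P}.ncard : ℝ))} ⊆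
        (B : Set (SimpleGraph (Fin n))) := by
      intro G hG
      rw [Set.mem_ofPred_eq] at hG
      rw [hB, coe_filter, Set.mem_ofPred_eq]
      refine ⟨mem_univ _, fun h6 => hG ?_⟩
      have hBig : Big n := le_trans (by linarith) h3
      have h7 := bad_le h3 h6.1 h6.2 (hM n G h6.1.qr hBig)
      rw [ncard_PS]
      refine le_trans ?_ h7
      exact_mod_cast ncard_bad G
    have h6 : ({G : SimpleGraph (Fin n) |
          ¬ (({P : Fin n → Fin n → List (Fin n) | CEBL.IsSystem G P ∧
                (CEBL.Metrizable G P ∨ CEBL.Reducible P)}.ncard : ℝ) ≤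
              3 / Real.log n *
                ({P : Fin n → Fin n → List (Fin n) | CEBL.IsSystem G P}.ncard : ℝ))}.ncard : ℝ) ≤
        B.card := by
      have := Set.ncard_le_ncard h5 B.finite_toSet
      rw [Set.ncard_coe_finset] at this
      exact_mod_cast this
    have h7 : (0 : ℝ) < Nat.card (SimpleGraph (Fin n)) := by
      have : 0 < Nat.card (SimpleGraph (Fin n)) := Nat.card_pos
      exact_mod_cast this
    rw [Real.dist_eq, sub_zero, abs_of_nonneg (by positivity), div_lt_iff₀ h7]
    have h8 : (Nat.card (SimpleGraph (Fin n)) : ℝ) = Fintype.card (SimpleGraph (Fin n)) := by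
      rw [Nat.card_eq_fintype_card]
    rw [← h8] at h4
    refine lt_of_le_of_lt (h6.trans h4) ?_
    nlinarith

end

end Asm

end CEB
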