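import Mathlib
import Pool.Agent.Work.MP_ceb7a8_co.FirstSum

/-!
The inequality (3.2) of note 2443: total number of options over the rest pairs.
-/

open Finset

namespace CEB

noncomputable section

set_option linter.unusedSectionVars false
set_option linter.unusedSimpArgs false

open scoped Classical

variable {V : Type*} [Fintype V] [LinearOrder V]

theorem om_self (g : V → V → V) (θ : ℝ) (u : V) : om g θ u u = none := by
  rcases h : om g θ u u with _ | x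
  · rfl
  · exact absurd rfl (om_eq_some.1 h).1

theorem sum_cO (ω : V → V → Option V) (y : V) : ∑ x, (cO ω y x : ℝ) = (wO ω y : ℝ) := by
  unfold cO wO
  rw [card_filter_eq_sum]
  have h1 : ∀ x, ((univ.filter (fun u => ω u y = some x)).card : ℝ) =
      ∑ u, (if ω u y = some x then (1 : ℝ) else 0) := fun x => card_filter_eq_sum _ _
  simp only [h1]
  rw [sum_comm]
  refine sum_congr rfl fun u _ => ?_
  rcases h : ω u y with _ | z
  · simp
  · simp

theorem cO_le_wO (ω : V → V → Option V) (y x : V) : (cO ω y x : ℝ) ≤ (wO ω y : ℝ) := by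
  rw [← sum_cO]
  exact single_le_sum (f := fun x => (cO ω y x : ℝ)) (fun i _ => Nat.cast_nonneg _) (mem_univ x)

/-- Opposite classes are disjoint subsets of the union of the two neighbourhoods. -/
theorem cO_add_le {G : SimpleGraph V} {g : V → V → V} (hg : IsSys G g) (θ : ℝ) {c : ℝ}
    (hN : ∀ x y : V, x ≠ y →
      ((univ.filter (fun u => G.Adj u x ∨ G.Adj u y)).card : ℝ) ≤ c) (hc : 0 ≤ c) (x y : V) :
    (cO (om g θ) y x : ℝ) + (cO (om g θ) x y : ℝ) ≤ c := by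
  by_cases hxy : x = y
  · subst hxy
    have h0 : cO (om g θ) x x = 0 := by
      unfold cO
      rw [card_eq_zero, filter_eq_empty_iff]
      intro u _ h
      exact (om_eq_some.1 h).2.2.1 rfl
    rw [h0]; simpa using hc
  · refine le_trans ?_ (hN x y hxy)
    have hd : Disjoint (univ.filter (fun u => om g θ u y = some x))
        (univ.filter (fun u => om g θ u x = some y)) := by
      rw [disjoint_left]
      intro u h1 h2
      simp only [mem_filter, mem_univ, true_and] at h1 h2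
      rw [om_eq_some] at h1 h2
      exact hg.class_disjoint hxy h1.1 h1.2.1 h2.2.1
    have hsub : (univ.filter (fun u => om g θ u y = some x)) ∪
        (univ.filter (fun u => om g θ u x = some y)) ⊆
        univ.filter (fun u => G.Adj u x ∨ G.Adj u y) := by
      intro u hu
      rw [mem_union] at hu
      simp only [mem_filter, mem_univ, true_and] at hu ⊢
      rcases hu with h | h
      · rw [om_eq_some] at h
        left
        have := hg.adj u y h.1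
        rwa [h.2.1] at this
      · rw [om_eq_some] at h
        right
        have := hg.adj u x h.1
        rwa [h.2.1] at this
    have h1 := card_le_card hsub
    rw [card_union_of_disjoint hd] at h1
    unfold cO
    exact_mod_cast h1

/-- Sum of squares of the degrees. -/
theorem sum_sq_dH {G : SimpleGraph V} {g : V → V → V} (hg : IsSys G g) {n η η1 : ℝ}
    (hη : 0 ≤ η) (hn : 0 ≤ n) (hη1 : η1 ≤ 1 / 2) (W Y : Finset V) (hWY : W ⊆ Y)
    (hdeg : ∀ z, (dH g z : ℝ) ≤ (1 / 2 + η) * n)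
    (hW : ∀ z ∉ W, (dH g z : ℝ) ≤ (1 / 2 - η1) * n)
    (hY : ∀ z ∉ Y, (dH g z : ℝ) ≤ η * n) :
    ∑ z, (dH g z : ℝ) ^ 2 ≤
      η * n * (2 * ((usedP g).card : ℝ)) +
      (1 / 2 + η) * n * ((((usedP g).filter (fun p => p.1 ∈ W ∨ p.2 ∈ W)).card : ℝ) +
        (Y.card : ℝ) ^ 2) +
      (1 / 2 - η1) * n * ((((usedP g).filter (fun p => ¬ (p.1 ∈ W ∨ p.2 ∈ W))).card : ℝ) +
        (Y.card : ℝ) ^ 2) := by
  have h1 : ∀ z, (dH g z : ℝ) ^ 2 ≤ η * n * (dH g z : ℝ) +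
      (1 / 2 + η) * n * ((if z ∈ W then (1 : ℝ) else 0) * (dH g z : ℝ)) +
      (1 / 2 - η1) * n * ((if z ∈ Y \ W then (1 : ℝ) else 0) * (dH g z : ℝ)) := by
    intro z
    have hd : (0 : ℝ) ≤ (dH g z : ℝ) := Nat.cast_nonneg _
    have hηn : 0 ≤ η * n := mul_nonneg hη hn
    have hηd : 0 ≤ η * n * (dH g z : ℝ) := mul_nonneg hηn hd
    by_cases hz : z ∈ W
    · have h2 : z ∉ Y \ W := by simp [hz]
      rw [if_pos hz, if_neg h2]
      have := mul_le_mul_of_nonneg_right (hdeg z) hd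
      nlinarith
    · rw [if_neg hz]
      by_cases hz2 : z ∈ Y
      · have h2 : z ∈ Y \ W := mem_sdiff.2 ⟨hz2, hz⟩
        rw [if_pos h2]
        have := mul_le_mul_of_nonneg_right (hW z hz) hd
        nlinarith
      · have h2 : z ∉ Y \ W := by simp [hz2]
        rw [if_neg h2]
        have := mul_le_mul_of_nonneg_right (hY z hz2) hd
        nlinarith
  refine (sum_le_sum fun z _ => h1 z).trans ?_
  rw [sum_add_distrib, sum_add_distrib, ← mul_sum, ← mul_sum, ← mul_sum, sum_ind_mul,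
    sum_ind_mul, sum_dH_all hg]
  have hW1 := sum_dH_W hg W
  have hW2 := sum_dH_YW hg W Y hWY
  have hWc : (W.card : ℝ) ≤ (Y.card : ℝ) := by exact_mod_cast card_le_card hWY
  have hWc2 : (W.card : ℝ) ^ 2 ≤ (Y.card : ℝ) ^ 2 :=
    pow_le_pow_left₀ (Nat.cast_nonneg _) hWc 2
  have ha : 0 ≤ (1 / 2 + η) * n := mul_nonneg (by linarith) hn
  have hb : 0 ≤ (1 / 2 - η1) * n := mul_nonneg (by linarith) hn
  have h3 := mul_le_mul_of_nonneg_left hW1 ha
  have h4 := mul_le_mul_of_nonneg_left hW2 hb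
  have h5 := mul_le_mul_of_nonneg_left hWc2 ha
  nlinarith

/-- Sum of the products of opposite classes. -/
theorem sum_cO_mul {G : SimpleGraph V} {g : V → V → V} (hg : IsSys G g) (θ : ℝ) {n η : ℝ}
    (hη : 0 ≤ η) (hn : 0 ≤ n) (Y : Finset V)
    (hY : ∀ z ∉ Y, (wO (om g θ) z : ℝ) ≤ η * n)
    (hN : ∀ x y : V, x ≠ y →
      ((univ.filter (fun u => G.Adj u x ∨ G.Adj u y)).card : ℝ) ≤ (3 / 4 + 3 * η) * n) :
    ∑ x, ∑ y, (cO (om g θ) y x : ℝ) * (cO (om g θ) x y : ℝ) ≤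
      4 * η * n * ((wastedP (om g θ)).card : ℝ) +
      (3 / 8 + 3 / 2 * η) * n * (((wastedP (om g θ)).card : ℝ) + (Y.card : ℝ) ^ 2) := by
  set ω := om g θ with hω
  have hself : ∀ u, ω u u = none := om_self g θ
  have h1 : ∀ x y, (cO ω y x : ℝ) * (cO ω x y : ℝ) ≤
      η * n * ((cO ω y x : ℝ) + (cO ω x y : ℝ)) +
      (3 / 16 + 3 / 4 * η) * n * ((if y ∈ Y then (1 : ℝ) else 0) * (cO ω y x : ℝ) +
        (if x ∈ Y then (1 : ℝ) else 0) * (cO ω x y : ℝ)) := by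
    intro x y
    have ha : (0 : ℝ) ≤ (cO ω y x : ℝ) := Nat.cast_nonneg _
    have hb : (0 : ℝ) ≤ (cO ω x y : ℝ) := Nat.cast_nonneg _
    have hηn : 0 ≤ η * n := mul_nonneg hη hn
    have hc : 0 ≤ (3 / 16 + 3 / 4 * η) * n := mul_nonneg (by linarith) hn
    by_cases hy : y ∈ Y
    · by_cases hx : x ∈ Y
      · rw [if_pos hy, if_pos hx]
        have h2 := cO_add_le hg θ hN (by positivity) x y
        rw [← hω] at h2
        have h3 : (cO ω y x : ℝ) * (cO ω x y : ℝ) ≤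
            ((cO ω y x : ℝ) + (cO ω x y : ℝ)) ^ 2 / 4 := by
          nlinarith [sq_nonneg ((cO ω y x : ℝ) - (cO ω x y : ℝ))]
        have h4 : ((cO ω y x : ℝ) + (cO ω x y : ℝ)) ^ 2 / 4 ≤
            (3 / 16 + 3 / 4 * η) * n * ((cO ω y x : ℝ) + (cO ω x y : ℝ)) := by
          have := mul_le_mul_of_nonneg_right h2 (add_nonneg ha hb)
          nlinarith
        have h5 : 0 ≤ η * n * ((cO ω y x : ℝ) + (cO ω x y : ℝ)) :=
          mul_nonneg hηn (add_nonneg ha hb)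
        nlinarith
      · rw [if_neg hx, if_pos hy]
        have h2 : (cO ω x y : ℝ) ≤ η * n := (cO_le_wO ω x y).trans (hY x hx)
        have h3 := mul_le_mul_of_nonneg_left h2 ha
        have h4 : 0 ≤ η * n * (cO ω x y : ℝ) := mul_nonneg hηn hb
        have h5 : 0 ≤ (3 / 16 + 3 / 4 * η) * n * (cO ω y x : ℝ) := mul_nonneg hc ha
        nlinarith
    · have h2 : (cO ω y x : ℝ) ≤ η * n := (cO_le_wO ω y x).trans (hY y hy)
      have h3 := mul_le_mul_of_nonneg_right h2 hb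
      have h4 : 0 ≤ η * n * (cO ω y x : ℝ) := mul_nonneg hηn ha
      have h5 : 0 ≤ (3 / 16 + 3 / 4 * η) * n * ((if y ∈ Y then (1 : ℝ) else 0) * (cO ω y x : ℝ) +
        (if x ∈ Y then (1 : ℝ) else 0) * (cO ω x y : ℝ)) := by
        apply mul_nonneg hc
        apply add_nonneg <;> apply mul_nonneg <;> first | assumption | (split_ifs <;> norm_num)
      nlinarith
  have e1 : ∑ x, ∑ y, (cO ω y x : ℝ) = (Kw ω : ℝ) := by
    rw [sum_comm, ← sum_wO_all]
    exact sum_congr rfl fun y _ => sum_cO ω y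
  have e2 : ∑ x, ∑ y, (cO ω x y : ℝ) = (Kw ω : ℝ) := by
    rw [← sum_wO_all]
    exact sum_congr rfl fun y _ => sum_cO ω y
  have e3 : ∑ x, ∑ y, (if y ∈ Y then (1 : ℝ) else 0) * (cO ω y x : ℝ) =
      ∑ y ∈ Y, (wO ω y : ℝ) := by
    rw [sum_comm, ← sum_ind_mul Y (fun y => (wO ω y : ℝ))]
    refine sum_congr rfl fun y _ => ?_
    rw [← mul_sum, sum_cO]
  have e4 : ∑ x, ∑ y, (if x ∈ Y then (1 : ℝ) else 0) * (cO ω x y : ℝ) =
      ∑ y ∈ Y, (wO ω y : ℝ) := by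
    rw [← sum_ind_mul Y (fun y => (wO ω y : ℝ))]
    refine sum_congr rfl fun y _ => ?_
    rw [← mul_sum, sum_cO]
  have h6 : ∑ x, ∑ y, (cO ω y x : ℝ) * (cO ω x y : ℝ) ≤
      η * n * ((Kw ω : ℝ) + (Kw ω : ℝ)) +
      (3 / 16 + 3 / 4 * η) * n * (∑ y ∈ Y, (wO ω y : ℝ) + ∑ y ∈ Y, (wO ω y : ℝ)) := by
    refine (sum_le_sum fun x _ => sum_le_sum fun y _ => h1 x y).trans (le_of_eq ?_)
    rw [← e3, ← e1]
    have e5 := e4
    rw [← e3] at e5
    have e6 := e2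
    rw [← e1] at e6
    rw [show ∀ a b : ℝ, η * n * (a + a) + (3 / 16 + 3 / 4 * η) * n * (b + b) =
      (η * n * a + η * n * a) + ((3 / 16 + 3 / 4 * η) * n * b + (3 / 16 + 3 / 4 * η) * n * b)
      from fun a b => by ring]
    nth_rewrite 2 [← e6]
    nth_rewrite 2 [← e5]
    simp only [mul_add, sum_add_distrib, mul_sum]
  have h7 := Kw_le ω hself
  have h8 := sum_wO_Y ω hself Y
  have hηn : 0 ≤ η * n := mul_nonneg hη hn
  have hc : 0 ≤ (3 / 16 + 3 / 4 * η) * n := mul_nonneg (by linarith) hn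
  have h9 := mul_le_mul_of_nonneg_left h7 hηn
  have h10 := mul_le_mul_of_nonneg_left h8 hc
  nlinarith

/-- (3.2): total number of options over the rest pairs. -/
theorem option_sum_le {G : SimpleGraph V} {g : V → V → V} (hg : IsSys G g) (θ : ℝ)
    {n η η1 : ℝ} (hη : 0 ≤ η) (hη2 : η ≤ 1 / 100) (hn : 0 ≤ n) (hη10 : 0 ≤ η1)
    (hη1 : η1 ≤ 1 / 2)
    (W Y : Finset V) (hWY : W ⊆ Y)
    (hdeg : ∀ z, (dH g z : ℝ) ≤ (1 / 2 + η) * n)
    (hW : ∀ z ∉ W, (dH g z : ℝ) ≤ (1 / 2 - η1) * n)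
    (hY : ∀ z ∉ Y, (dH g z : ℝ) + (wO (om g θ) z : ℝ) ≤ η * n)
    (hN : ∀ x y : V, x ≠ y →
      ((univ.filter (fun u => G.Adj u x ∨ G.Adj u y)).card : ℝ) ≤ (3 / 4 + 3 * η) * n) :
    ∑ p ∈ restP g θ, ((kk (usedP g) p.1 p.2 : ℝ) + (tt (om g θ) p.1 p.2 : ℝ)) ≤
      n * ((1 / 4 + 2 * η) *
          (((usedP g).filter (fun p => p.1 ∈ W ∨ p.2 ∈ W)).card : ℝ) +
        (1 / 4 - η1 / 2 + 2 * η) *
          (((usedP g).filter (fun p => ¬ (p.1 ∈ W ∨ p.2 ∈ W))).card : ℝ) +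
        (3 / 16 + 3 * η) * ((wastedP (om g θ)).card : ℝ)) + n * (Y.card : ℝ) ^ 2 := by
  have hY1 : ∀ z ∉ Y, (dH g z : ℝ) ≤ η * n := fun z hz => by
    have := hY z hz
    have h2 : (0 : ℝ) ≤ (wO (om g θ) z : ℝ) := Nat.cast_nonneg _
    linarith
  have hY2 : ∀ z ∉ Y, (wO (om g θ) z : ℝ) ≤ η * n := fun z hz => by
    have := hY z hz
    have h2 : (0 : ℝ) ≤ (dH g z : ℝ) := Nat.cast_nonneg _
    linarith
  have h1 : ∑ p ∈ restP g θ, ((kk (usedP g) p.1 p.2 : ℝ) + (tt (om g θ) p.1 p.2 : ℝ)) ≤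
      ∑ p ∈ prs V, ((kk (usedP g) p.1 p.2 : ℝ) + (tt (om g θ) p.1 p.2 : ℝ)) := by
    refine sum_le_sum_of_subset_of_nonneg ?_ fun p _ _ => by positivity
    exact sdiff_subset
  have h2 := two_sum_prs_le (fun u v => (kk (usedP g) u v : ℝ) + (tt (om g θ) u v : ℝ))
    (fun u v => by rw [kk_symm, tt_symm]) (fun u => by positivity)
  have h3 : ∑ u, ∑ v, ((kk (usedP g) u v : ℝ) + (tt (om g θ) u v : ℝ)) =
      ∑ z, (dH g z : ℝ) ^ 2 + ∑ x, ∑ y, (cO (om g θ) y x : ℝ) * (cO (om g θ) x y : ℝ) := by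
    simp only [sum_add_distrib]
    rw [sum_kk hg, sum_tt]
  rw [h3] at h2
  have h4 := sum_sq_dH hg hη hn hη1 W Y hWY hdeg hW hY1
  have h5 := sum_cO_mul hg θ hη hn Y hY2 hN
  have h6 : ((usedP g).card : ℝ) =
      (((usedP g).filter (fun p => p.1 ∈ W ∨ p.2 ∈ W)).card : ℝ) +
      (((usedP g).filter (fun p => ¬ (p.1 ∈ W ∨ p.2 ∈ W))).card : ℝ) := by
    have := card_filter_add_card_filter_not (s := usedP g) (fun p => p.1 ∈ W ∨ p.2 ∈ W)
    exact_mod_cast this.symm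
  set EW : ℝ := (((usedP g).filter (fun p => p.1 ∈ W ∨ p.2 ∈ W)).card : ℝ) with hEW
  set EO : ℝ := (((usedP g).filter (fun p => ¬ (p.1 ∈ W ∨ p.2 ∈ W))).card : ℝ) with hEO
  set K : ℝ := ((wastedP (om g θ)).card : ℝ) with hK
  set y : ℝ := (Y.card : ℝ) ^ 2 with hy
  rw [h6] at h4
  have hEW0 : 0 ≤ EW := Nat.cast_nonneg _
  have hEO0 : 0 ≤ EO := Nat.cast_nonneg _
  have hK0 : 0 ≤ K := Nat.cast_nonneg _
  have hy0 : 0 ≤ y := by positivity
  have p1 : 0 ≤ n * EW := mul_nonneg hn hEW0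
  have p2 : 0 ≤ n * EO := mul_nonneg hn hEO0
  have p3 : 0 ≤ n * K := mul_nonneg hn hK0
  have p4 : 0 ≤ n * y := mul_nonneg hn hy0
  have q1 : 0 ≤ η * (n * EW) := mul_nonneg hη p1
  have q2 : 0 ≤ η * (n * EO) := mul_nonneg hη p2
  have q3 : 0 ≤ η * (n * K) := mul_nonneg hη p3
  have q4 : η * (n * y) ≤ 1 / 100 * (n * y) := mul_le_mul_of_nonneg_right hη2 p4
  have q5 : 0 ≤ η1 * (n * y) := mul_nonneg hη10 p4
  nlinarith

/-- The set Y is small. -/
theorem card_Y_le {G : SimpleGraph V} {g : V → V → V} (hg : IsSys G g) (θ : ℝ)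
    {n η : ℝ} (Y : Finset V) (hY : ∀ z ∈ Y, η * n ≤ (dH g z : ℝ) + (wO (om g θ) z : ℝ)) :
    (Y.card : ℝ) * (η * n) ≤ 2 * (((usedP g).card : ℝ) + ((wastedP (om g θ)).card : ℝ)) := by
  have h1 : (Y.card : ℝ) * (η * n) ≤ ∑ z ∈ Y, ((dH g z : ℝ) + (wO (om g θ) z : ℝ)) := by
    rw [← nsmul_eq_mul]
    exact card_nsmul_le_sum _ _ _ hY
  have h2 : ∑ z ∈ Y, ((dH g z : ℝ) + (wO (om g θ) z : ℝ)) ≤
      ∑ z, ((dH g z : ℝ) + (wO (om g θ) z : ℝ)) :=
    sum_le_sum_of_subset_of_nonneg (subset_univ _) fun z _ _ => by positivity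
  have h4 : ∑ z, ((dH g z : ℝ) + (wO (om g θ) z : ℝ)) =
      2 * ((usedP g).card : ℝ) + (Kw (om g θ) : ℝ) := by
    rw [sum_add_distrib, sum_dH_all hg, sum_wO_all]
  have h3 := Kw_le (om g θ) (om_self g θ)
  linarith

end

end CEB
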