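import Mathlib
import Pool.Agent.Work.MP_ceb7a8_co.Enc2
import Pool.Agent.Work.MP_ceb7a8_co.FirstNum
import Pool.Agent.Work.MP_ceb7a8_co.FirstSum2

/-!
First order (note 2443, section 3): a system that is not macroscopically a hub system has a
small value of the master functional.
-/

open Finset

namespace CEB

noncomputable section

set_option linter.unusedSectionVars false
set_option linter.unusedSimpArgs false

/-! ### Numerical part -/

theorem log_large {L : ℝ} (hL : (10 : ℝ) ^ 100 ≤ L) : Real.log L + 8 ≤ 1 / 10 ^ 19 * L := by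
  have hL0 : 0 < L := lt_of_lt_of_le (by positivity) hL
  have h1 : Real.log L = 2 * Real.log (Real.sqrt L) := by
    rw [Real.log_sqrt hL0.le]; ring
  have h2 : Real.log (Real.sqrt L) ≤ Real.sqrt L - 1 :=
    Real.log_le_sub_one_of_pos (Real.sqrt_pos.2 hL0)
  have h3 : (10 : ℝ) ^ 50 ≤ Real.sqrt L := by
    apply Real.le_sqrt_of_sq_le
    rw [← pow_mul]
    exact hL
  have h4 : Real.sqrt L * Real.sqrt L = L := Real.mul_self_sqrt hL0.le
  have h5 : (10 : ℝ) ^ 50 * Real.sqrt L ≤ L := by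
    have := mul_le_mul_of_nonneg_right h3 (Real.sqrt_nonneg L)
    linarith
  have h6 : Real.sqrt L ≤ 1 / 10 ^ 20 * L := by
    have : Real.sqrt L * 10 ^ 20 ≤ (10 : ℝ) ^ 50 * Real.sqrt L := by
      have := Real.sqrt_nonneg L
      nlinarith
    have h7 : Real.sqrt L * 10 ^ 20 ≤ L := this.trans h5
    have h8 : 1 / 10 ^ 20 * L = L / 10 ^ 20 := by ring
    rw [h8, le_div_iff₀ (by positivity)]
    exact h7
  have h9 : (8 : ℝ) ≤ 1 / 10 ^ 20 * L := by
    have : (10 : ℝ) ^ 20 * 8 ≤ L := le_trans (by norm_num) hL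
    have h8 : 1 / 10 ^ 20 * L = L / 10 ^ 20 := by ring
    rw [h8, le_div_iff₀ (by positivity)]
    linarith
  have h10 : 2 * (1 / 10 ^ 20 * L) + 1 / 10 ^ 20 * L ≤ 1 / 10 ^ 19 * L := by
    have : 1 / 10 ^ 19 * L = 10 * (1 / 10 ^ 20 * L) := by ring
    rw [this]
    have : 0 ≤ 1 / 10 ^ 20 * L := by positivity
    linarith
  linarith

theorem log_four_le : Real.log 4 ≤ 2 := by
  have h : (4 : ℝ) = 2 ^ 2 := by norm_num
  rw [h, Real.log_pow]
  have := Real.log_two_lt_d9
  push_cast
  linarith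

theorem log_four_nonneg : 0 ≤ Real.log 4 := Real.log_nonneg (by norm_num)

/-- The numerical first order inequality. -/
theorem first_numeric {n L EW EO Ku K lam R S T : ℝ} (hL : (10 : ℝ) ^ 100 ≤ L)
    (hn : 0 < n) (hLn : L = Real.log n) (hEW : 0 ≤ EW) (hEO : 0 ≤ EO) (hKu : 0 ≤ Ku)
    (hlam : 0 ≤ lam) (hR : R ≤ n ^ 2 / 2 - (EW + EO) - Ku - lam)
    (hK : K ≤ 2 * Ku)
    (hA : T ≤ R * L)
    (hB : ∀ μ : ℝ, 0 < μ → T ≤ R * (Real.log μ - 1) + S / μ)
    (hS : EW + EO + Ku ≤ eta ^ 3 * n ^ 2 / 4 →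
      S ≤ n * ((1 / 4 + 3 * eta) * EW + (9 / 40 + 3 * eta) * EO + (3 / 16 + 4 * eta) * Ku)) :
    (0.98 * n ^ 2 ≤ 2 * L * (EW + EO + Ku) ∧ 2 * L * (EW + EO + Ku) ≤ 1.02 * n ^ 2 ∧
      L * EO ≤ 0.001 * n ^ 2 ∧ L * Ku ≤ 0.001 * n ^ 2) ∨
    (1 - kap / 2) * L * lam + T + kap * L * (EW + EO) + 2 * kap * L * K + kap / 8 * L * lam ≤
      n ^ 2 / 2 * (L - Real.log L - Real.log 4 - 1 - 10 * eta) - eta * n ^ 2 / 4 := by
  simp only [eta, kap] at hS ⊢
  have hL0 : 0 < L := lt_of_lt_of_le (by positivity) hL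
  have hlog := log_large hL
  have hl4 := log_four_le
  have hl40 := log_four_nonneg
  have hn2 : 0 < n ^ 2 := by positivity
  set B := EW + EO + Ku with hBdef
  have hB0 : 0 ≤ B := by positivity
  have hLlam : 0 ≤ L * lam := mul_nonneg hL0.le hlam
  have hLKu : 0 ≤ L * Ku := mul_nonneg hL0.le hKu
  have hLE : 0 ≤ L * (EW + EO) := mul_nonneg hL0.le (by positivity)
  have hLK : L * K ≤ 2 * (L * Ku) := by
    have := mul_le_mul_of_nonneg_left hK hL0.le
    linarith
  by_cases hcase : B ≤ (1 / 10 ^ 6) ^ 3 * n ^ 2 / 4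
  · have hS' := hS hcase
    by_cases hgood : 0.98 * n ^ 2 ≤ 2 * L * B ∧ 2 * L * B ≤ 1.02 * n ^ 2 ∧
      L * EO ≤ 0.001 * n ^ 2 ∧ L * Ku ≤ 0.001 * n ^ 2
    · exact Or.inl hgood
    right
    set α := 2 * L * B / n ^ 2 with hα
    have hαn : α * n ^ 2 = 2 * L * B := by rw [hα]; field_simp
    have hα0 : 0 ≤ α := by rw [hα]; positivity
    set a := max α (1 / 100) with ha
    have ha1 : 1 / 100 ≤ a := le_max_right _ _
    have ha2 : α ≤ a := le_max_left _ _
    have ha0 : 0 < a := by linarith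
    -- log a >= -5
    have hloga : -5 ≤ Real.log a := by
      have h1 : Real.log (1 / 100) ≤ Real.log a := Real.log_le_log (by norm_num) ha1
      have h2 : -5 ≤ Real.log (1 / 100 : ℝ) := by
        rw [one_div, Real.log_inv]
        have h3 : Real.log 100 ≤ 5 := by
          rw [Real.log_le_iff_le_exp (by norm_num)]
          have h4 : (2.7182818283 : ℝ) ≤ Real.exp 1 := Real.exp_one_gt_d9.le
          have h5 : Real.exp (5 : ℝ) = Real.exp 1 ^ 5 := by
            rw [← Real.exp_nat_mul]; norm_num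
          rw [h5]
          calc (100 : ℝ) ≤ 2.7182818283 ^ 5 := by norm_num
            _ ≤ Real.exp 1 ^ 5 := pow_le_pow_left₀ (by norm_num) h4 5
        linarith
      linarith
    set μ := a * n / (4 * L) with hμ
    have hμ0 : 0 < μ := by rw [hμ]; positivity
    have hlogμ : Real.log μ = Real.log a + L - Real.log 4 - Real.log L := by
      rw [hμ, Real.log_div (by positivity) (by positivity), Real.log_mul ha0.ne' hn.ne',
        Real.log_mul (by norm_num) hL0.ne', ← hLn]
      ring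
    have hT := hB μ hμ0
    set l := Real.log μ - 1 with hl
    have hl0 : 0 ≤ l := by
      rw [hl, hlogμ]
      have : 1 / 10 ^ 19 * L ≤ L := by
        have : (1 : ℝ) / 10 ^ 19 ≤ 1 := by norm_num
        nlinarith
      linarith
    have hLl : L - l ≤ 1 / 10 ^ 19 * L := by
      rw [hl, hlogμ]; linarith
    have hRl : R * l ≤ (n ^ 2 / 2 - (EW + EO) - Ku - lam) * l :=
      mul_le_mul_of_nonneg_right hR hl0
    -- S part
    have hSμ : S / μ ≤ (L / a) * ((1 + 12 / 10 ^ 6) * B - EO / 10 - Ku / 5) := by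
      have h1 : S / μ = (4 * L / (a * n)) * S := by
        rw [hμ]; field_simp
      have h2 := mul_le_mul_of_nonneg_left hS' (by positivity : (0 : ℝ) ≤ 4 * L / (a * n))
      have h3 : (4 * L / (a * n)) *
          (n * ((1 / 4 + 3 * (1 / 10 ^ 6)) * EW + (9 / 40 + 3 * (1 / 10 ^ 6)) * EO +
            (3 / 16 + 4 * (1 / 10 ^ 6)) * Ku)) =
          (L / a) * ((1 + 12 / 10 ^ 6) * EW + (9 / 10 + 12 / 10 ^ 6) * EO +
            (3 / 4 + 16 / 10 ^ 6) * Ku) := by
        field_simp
        ring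
      rw [h1]
      refine (h2.trans (le_of_eq h3)).trans ?_
      apply mul_le_mul_of_nonneg_left _ (by positivity)
      rw [hBdef]
      linarith
    have hLa : (L / a) * B ≤ n ^ 2 / 2 := by
      rw [div_mul_eq_mul_div, div_le_iff₀ ha0]
      have := mul_le_mul_of_nonneg_right ha2 hn2.le
      nlinarith
    -- collect
    have hmain : (1 - 5 / 10 ^ 6 / 2) * L * lam + T + 5 / 10 ^ 6 * L * (EW + EO) +
        2 * (5 / 10 ^ 6) * L * K + 5 / 10 ^ 6 / 8 * L * lam ≤
        n ^ 2 / 2 * (L - Real.log L - Real.log 4 - 1 - 10 * (1 / 10 ^ 6)) +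
        n ^ 2 / 2 * (1 + Real.log a - (1 - 0.000025) * α + 0.000042) -
        (L / a) * (EO / 10 + Ku / 5) := by
      have e1 : (L / a) * ((1 + 12 / 10 ^ 6) * B - EO / 10 - Ku / 5) =
          (1 + 12 / 10 ^ 6) * ((L / a) * B) - (L / a) * (EO / 10 + Ku / 5) := by ring
      rw [e1] at hSμ
      have e2 : (1 + 12 / 10 ^ 6) * ((L / a) * B) ≤ (1 + 12 / 10 ^ 6) * (n ^ 2 / 2) := by
        apply mul_le_mul_of_nonneg_left hLa
        norm_num
      have e3 : lam * (L - l) ≤ lam * (1 / 10 ^ 19 * L) := mul_le_mul_of_nonneg_left hLl hlam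
      have e4 : B * (L - l) ≤ B * (1 / 10 ^ 19 * L) := mul_le_mul_of_nonneg_left hLl hB0
      have e5 : (n ^ 2 / 2 - (EW + EO) - Ku - lam) * l =
          n ^ 2 / 2 * l - B * l - lam * l := by rw [hBdef]; ring
      rw [e5] at hRl
      have e6 : n ^ 2 / 2 * l = n ^ 2 / 2 * (Real.log a + L - Real.log 4 - Real.log L - 1) := by
        rw [hl, hlogμ]
      have e7 : L * B = α * n ^ 2 / 2 := by rw [hαn]; ring
      have e8 : L * B = L * (EW + EO) + L * Ku := by rw [hBdef]; ring
      have e9 : 0 ≤ L * B := mul_nonneg hL0.le hB0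
      generalize (L / a) * (EO / 10 + Ku / 5) = Q at hSμ ⊢
      generalize (L / a) * B = Q2 at hSμ e2
      linarith
    refine hmain.trans ?_
    have hLa0 : 0 ≤ (L / a) * (EO / 10 + Ku / 5) := by positivity
    by_cases hwin : α < 0.98 ∨ 1.02 < α
    · have h1 := profile_neg hα0 hwin
      rw [← ha] at h1
      have h2 := mul_le_mul_of_nonneg_left h1 (by positivity : (0 : ℝ) ≤ n ^ 2 / 2)
      linarith
    · rw [not_or, not_lt, not_lt] at hwin
      have hg1 : 0.98 * n ^ 2 ≤ 2 * L * B := by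
        rw [← hαn]; exact mul_le_mul_of_nonneg_right hwin.1 hn2.le
      have hg2 : 2 * L * B ≤ 1.02 * n ^ 2 := by
        rw [← hαn]; exact mul_le_mul_of_nonneg_right hwin.2 hn2.le
      have haα : a = α := by rw [ha]; exact max_eq_left (by linarith [hwin.1])
      have h1 := profile_le hα0
      rw [← ha] at h1
      have h2 := mul_le_mul_of_nonneg_left h1 (by positivity : (0 : ℝ) ≤ n ^ 2 / 2)
      have h3 : ¬ (L * EO ≤ 0.001 * n ^ 2 ∧ L * Ku ≤ 0.001 * n ^ 2) := fun h =>
        hgood ⟨hg1, hg2, h.1, h.2⟩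
      have h4 : 0.00009 * n ^ 2 ≤ (L / a) * (EO / 10 + Ku / 5) := by
        have h5 : (L / a) * (EO / 10 + Ku / 5) = (L * EO / 10 + L * Ku / 5) / a := by
          field_simp
        rw [h5, le_div_iff₀ ha0, haα]
        have h6 : 0.00009 * n ^ 2 * α ≤ 0.00009 * n ^ 2 * 1.02 :=
          mul_le_mul_of_nonneg_left hwin.2 (by positivity)
        have hLEO : 0 ≤ L * EO := mul_nonneg hL0.le hEO
        rw [not_and_or, not_le, not_le] at h3
        rcases h3 with h3 | h3
        · linarith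
        · linarith
      linarith
  · right
    rw [not_le] at hcase
    have h1 : R * L ≤ (n ^ 2 / 2 - (EW + EO) - Ku - lam) * L :=
      mul_le_mul_of_nonneg_right hR hL0.le
    have h2 : L * ((1 / 10 ^ 6) ^ 3 * n ^ 2 / 4) ≤ L * B :=
      mul_le_mul_of_nonneg_left hcase.le hL0.le
    have e8 : L * B = L * (EW + EO) + L * Ku := by rw [hBdef]; ring
    have h3 : n ^ 2 * (Real.log L + 8) ≤ n ^ 2 * (1 / 10 ^ 19 * L) :=
      mul_le_mul_of_nonneg_left hlog hn2.le
    have h4 : n ^ 2 * Real.log 4 ≤ n ^ 2 * 2 := mul_le_mul_of_nonneg_left hl4 hn2.le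
    have hLn2 : 0 ≤ L * n ^ 2 := by positivity
    linarith

/-! ### Combinatorial part -/

open scoped Classical

variable {V : Type*} [Fintype V] [LinearOrder V]

theorem dH_eq_nb {G : SimpleGraph V} {g : V → V → V} (hg : IsSys G g) (z : V) :
    dH g z = (nb g z).card := by
  unfold dH nb
  congr 1
  ext u
  simp only [mem_filter, mem_univ, true_and]
  exact hg.used_comm

theorem nb_sub_gn {G : SimpleGraph V} {g : V → V → V} (hg : IsSys G g) (z : V) :
    nb g z ⊆ gn G z := by
  intro u hu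
  simp only [nb, gn, mem_filter, mem_univ, true_and] at hu ⊢
  exact hg.used_adj hu

theorem card_prs_eq : (prs V).card * 2 + Fintype.card V = Fintype.card V ^ 2 := by
  have h := sum_ordered (V := V) (fun _ _ => (1 : ℝ))
  simp only [sum_const, card_univ, nsmul_eq_mul, mul_one] at h
  have h2 : ((Fintype.card V * Fintype.card V : ℕ) : ℝ) =
      (((prs V).card * 2 + Fintype.card V : ℕ) : ℝ) := by
    push_cast
    rw [h]
    ring
  have h3 : Fintype.card V * Fintype.card V = (prs V).card * 2 + Fintype.card V := by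
    exact_mod_cast h2
  rw [sq]; exact h3.symm

theorem card_rest_le {G : SimpleGraph V} {g : V → V → V} (hg : IsSys G g) (θ : ℝ) :
    ((restP g θ).card : ℝ) ≤ (nn V) ^ 2 / 2 - ((usedP g).card : ℝ) -
      ((wastedP (om g θ)).card : ℝ) - ((lightP g θ).card : ℝ) := by
  have hd1 : Disjoint (usedP g) (wastedP (om g θ)) := by
    rw [disjoint_left]
    intro p hp hw
    rw [mem_usedP] at hp
    rw [mem_wastedP] at hw
    rcases hw.2 with h | h
    · obtain ⟨x, hx⟩ := Option.ne_none_iff_exists'.1 h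
      rw [om_eq_some] at hx
      exact hx.2.2.1 (hx.2.1.symm.trans hp.2.2)
    · obtain ⟨x, hx⟩ := Option.ne_none_iff_exists'.1 h
      rw [om_eq_some] at hx
      exact hx.2.2.1 (hx.2.1.symm.trans (hg.used_symm hp.2).2)
  have hd2 : Disjoint (usedP g ∪ wastedP (om g θ)) (lightP g θ) := by
    rw [disjoint_left]
    intro p hp hl
    rw [mem_lightP] at hl
    rw [mem_union, mem_usedP, mem_wastedP] at hp
    rcases hp with h | h
    · exact hl.2.1 h.2
    · rcases h.2 with h1 | h1
      · exact h1 hl.2.2.1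
      · exact h1 hl.2.2.2.1
  have hsub : usedP g ∪ wastedP (om g θ) ∪ lightP g θ ⊆ prs V := by
    intro p hp
    rw [mem_union, mem_union, mem_usedP, mem_wastedP, mem_lightP] at hp
    rw [mem_prs]
    rcases hp with (h | h) | h
    · exact h.1
    · exact h.1
    · exact h.1
  have h1 : (restP g θ).card + (usedP g ∪ wastedP (om g θ) ∪ lightP g θ).card =
      (prs V).card := by
    unfold restP
    exact card_sdiff_add_card_eq_card hsub
  rw [card_union_of_disjoint hd2, card_union_of_disjoint hd1] at h1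
  have h2 := card_prs_eq (V := V)
  have h3 : ((prs V).card : ℝ) * 2 + (nn V) = (nn V) ^ 2 := by
    unfold nn; exact_mod_cast h2
  have h4 : ((restP g θ).card : ℝ) + (((usedP g).card : ℝ) + ((wastedP (om g θ)).card : ℝ) +
      ((lightP g θ).card : ℝ)) = ((prs V).card : ℝ) := by
    exact_mod_cast h1
  have h5 : (0 : ℝ) ≤ nn V := by unfold nn; positivity
  linarith

/-- The first step determines the option. -/
theorem kk_add_tt_le {G : SimpleGraph V} {g : V → V → V} (hg : IsSys G g) (θ : ℝ) (u v : V) :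
    kk (usedP g) u v + tt (om g θ) u v ≤ Fintype.card V := by
  set A := univ.filter (fun z => Hs (usedP g) u z ∧ Hs (usedP g) v z) with hA
  set B := univ.filter (fun o : V × V => om g θ u o.2 = some o.1 ∧ om g θ v o.1 = some o.2)
    with hB
  have h1 : (B.image Prod.fst).card = B.card := by
    apply card_image_of_injOn
    intro o ho o' ho' h
    rw [hB, mem_coe, mem_filter] at ho ho'
    have h2 := ho.2.2
    have h3 := ho'.2.2
    rw [← h, h2] at h3
    have h4 : o.2 = o'.2 := by simpa using h3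
    exact Prod.ext h h4
  have h2 : Disjoint A (B.image Prod.fst) := by
    rw [disjoint_left]
    intro z hz hz'
    rw [mem_image] at hz'
    obtain ⟨o, ho, rfl⟩ := hz'
    rw [hB, mem_filter] at ho
    rw [hA, mem_filter, hs_usedP hg, hs_usedP hg] at hz
    have h3 := om_eq_some.1 ho.2.2
    exact h3.2.2.1 (h3.2.1.symm.trans hz.2.2.2)
  have h3 : kk (usedP g) u v + tt (om g θ) u v = (A ∪ B.image Prod.fst).card := by
    rw [card_union_of_disjoint h2, h1]
    rfl
  rw [h3]
  exact card_le_univ _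

theorem one_le_kk_add_tt {G : SimpleGraph V} {g : V → V → V} (hg : IsSys G g) {θ : ℝ}
    (hθ : 0 < θ) {p : V × V} (hp : p ∈ restP g θ) :
    (1 : ℝ) ≤ (kk (usedP g) p.1 p.2 : ℝ) + 1 * (tt (om g θ) p.1 p.2 : ℝ) := by
  have h := rest_type hg hθ hp
  simp only [optF, mem_filter, mem_univ, true_and] at h
  have h2 : 1 ≤ kk (usedP g) p.1 p.2 + tt (om g θ) p.1 p.2 := by
    rcases h with h | h
    · have : 0 < kk (usedP g) p.1 p.2 := by
        unfold kk
        rw [card_pos]
        exact ⟨_, by rw [mem_filter]; exact ⟨mem_univ _, h.2.1, h.2.2⟩⟩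
      omega
    · have : 0 < tt (om g θ) p.1 p.2 := by
        unfold tt
        rw [card_pos]
        exact ⟨(g p.1 p.2, g p.2 p.1), by rw [mem_filter]; exact ⟨mem_univ _, h⟩⟩
      omega
  rw [one_mul]
  exact_mod_cast h2

theorem EW_le {G : SimpleGraph V} {g : V → V → V} (hg : IsSys G g) (W : Finset V) :
    (((usedP g).filter (fun p => p.1 ∈ W ∨ p.2 ∈ W)).card : ℝ) ≤ ∑ z ∈ W, (dH g z : ℝ) := by
  have h := sum_dH hg (fun z => if z ∈ W then (1 : ℝ) else 0)
  rw [sum_ind_mul W (fun z => (dH g z : ℝ))] at h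
  rw [h, card_filter_eq_sum]
  refine sum_le_sum fun p _ => ?_
  by_cases ha : p.1 ∈ W <;> by_cases hb : p.2 ∈ W <;> simp [ha, hb]

/-- First order theorem: a system that is not macroscopically a hub system has a small value
of the master functional. -/
theorem first_order {G : SimpleGraph V} (hG : QR G) (hn : Big (Fintype.card V))
    {g : V → V → V} (hg : IsSys G g) :
    (97 / 100 * hh V ≤ ((hub g).card : ℝ) ∧ ((hub g).card : ℝ) ≤ 115 / 100 * hh V ∧
      ((usedP g).card : ℝ) + ((wastedP (om g (th V kap))).card : ℝ) ≤ nn V * hh V) ∨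
    Mfun kap 1 g + cost kap ∅ g ≤
      nn V ^ 2 / 2 * (LL V - Real.log (LL V) - Real.log 4 - 1 - 10 * eta) -
        eta * nn V ^ 2 / 4 := by
  set n : ℝ := nn V with hnn
  set L : ℝ := LL V with hLL
  have hL : (10 : ℝ) ^ 100 ≤ L := hn
  have hLn : L = Real.log n := rfl
  have hL0 : 0 < L := lt_of_lt_of_le (by positivity) hL
  have hn0' : 0 ≤ n := by rw [hnn]; unfold nn; positivity
  have hn0 : 0 < n := by
    rcases hn0'.lt_or_eq with h | h
    · exact h
    · rw [← h, Real.log_zero] at hLn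
      linarith
  have hh_def : hh V = n / L := rfl
  have hθ : 0 < th V kap := by
    unfold th
    rw [← hnn]
    positivity
  set θ := th V kap with hθdef
  have heta : (0 : ℝ) ≤ eta := by unfold eta; norm_num
  set W := hub g with hW
  set Y : Finset V := univ.filter (fun z => eta * n ≤ (dH g z : ℝ) + (wO (om g θ) z : ℝ)) with hY
  -- degree facts
  have hdeg : ∀ z, (dH g z : ℝ) ≤ (1 / 2 + eta) * n := by
    intro z
    have h1 : (dH g z : ℝ) ≤ ((gn G z).card : ℝ) := by
      rw [dH_eq_nb hg]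
      exact_mod_cast card_le_card (nb_sub_gn hg z)
    have h2 := (abs_le.1 (hG.q2 z)).2
    rw [← hnn] at h2
    linarith
  have hWdeg : ∀ z ∉ W, (dH g z : ℝ) ≤ (1 / 2 - 1 / 20) * n := by
    intro z hz
    rw [hW] at hz
    simp only [hub, mem_filter, mem_univ, true_and, not_le] at hz
    rw [dH_eq_nb hg]
    rw [← hnn] at hz
    linarith
  have hWY : W ⊆ Y := by
    intro z hz
    rw [hW] at hz
    simp only [hub, mem_filter, mem_univ, true_and] at hz
    rw [hY, mem_filter, dH_eq_nb hg]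
    refine ⟨mem_univ _, ?_⟩
    have h1 : (0 : ℝ) ≤ (wO (om g θ) z : ℝ) := Nat.cast_nonneg _
    rw [← hnn] at hz
    unfold eta
    linarith
  have hYn : ∀ z ∉ Y, (dH g z : ℝ) + (wO (om g θ) z : ℝ) ≤ eta * n := by
    intro z hz
    rw [hY, mem_filter, not_and] at hz
    exact (not_le.1 (hz (mem_univ _))).le
  have hYy : ∀ z ∈ Y, eta * n ≤ (dH g z : ℝ) + (wO (om g θ) z : ℝ) := by
    intro z hz
    rw [hY, mem_filter] at hz
    exact hz.2
  have hN : ∀ x y : V, x ≠ y →
      ((univ.filter (fun u => G.Adj u x ∨ G.Adj u y)).card : ℝ) ≤ (3 / 4 + 3 * eta) * n := by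
    intro x y hxy
    have h1 : univ.filter (fun u => G.Adj u x ∨ G.Adj u y) = gn G x ∪ gn G y := by
      ext u
      simp only [gn, mem_filter, mem_univ, true_and, mem_union]
      rw [G.adj_comm u x, G.adj_comm u y]
    rw [h1]
    have h2 := card_union_add_card_inter (gn G x) (gn G y)
    have h3 : ((gn G x ∪ gn G y).card : ℝ) + ((gn G x ∩ gn G y).card : ℝ) =
        ((gn G x).card : ℝ) + ((gn G y).card : ℝ) := by exact_mod_cast h2
    have h4 := (abs_le.1 (hG.q2 x)).2
    have h5 := (abs_le.1 (hG.q2 y)).2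
    have h6 : |((gn G x ∩ gn G y).card : ℝ) - nn V / 4| ≤ eta * nn V := by
      exact hG.q3d hxy
    have h7 := (abs_le.1 h6).1
    rw [← hnn] at h4 h5 h7
    linarith
  -- quantities
  set EW : ℝ := (((usedP g).filter (fun p => p.1 ∈ W ∨ p.2 ∈ W)).card : ℝ) with hEW
  set EO : ℝ := (((usedP g).filter (fun p => ¬ (p.1 ∈ W ∨ p.2 ∈ W))).card : ℝ) with hEO
  set Ku : ℝ := ((wastedP (om g θ)).card : ℝ) with hKu
  set S : ℝ := ∑ p ∈ restP g θ, ((kk (usedP g) p.1 p.2 : ℝ) + (tt (om g θ) p.1 p.2 : ℝ)) with hS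
  set T : ℝ := ∑ r ∈ restP g θ,
    Real.log (kk (usedP g) r.1 r.2 + 1 * tt (om g θ) r.1 r.2) with hT
  have he : ((usedP g).card : ℝ) = EW + EO := by
    have := card_filter_add_card_filter_not (s := usedP g) (fun p => p.1 ∈ W ∨ p.2 ∈ W)
    rw [hEW, hEO]
    exact_mod_cast this.symm
  have hrest := card_rest_le hg θ
  rw [← hnn, he] at hrest
  have hEW0 : 0 ≤ EW := Nat.cast_nonneg _
  have hEO0 : 0 ≤ EO := Nat.cast_nonneg _
  have hKu0 : 0 ≤ Ku := Nat.cast_nonneg _
  have hYc := card_Y_le hg θ Y hYy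
  rw [he, ← hKu] at hYc
  have hnum := first_numeric (n := n) (L := L) (EW := EW) (EO := EO) (Ku := Ku)
    (K := (Kw (om g θ) : ℝ)) (lam := ((lightP g θ).card : ℝ)) (R := ((restP g θ).card : ℝ))
    (S := S) (T := T) hL hn0 hLn hEW0 hEO0 hKu0 (Nat.cast_nonneg _) hrest
    (Kw_le (om g θ) (om_self g θ)) ?_ ?_ ?_
  · rcases hnum with h | h
    · left
      obtain ⟨g1, g2, g3, g4⟩ := h
      have hYb : (Y.card : ℝ) ≤ 0.001 * n := by
        have h1 : (Y.card : ℝ) * (eta * n) * L ≤ 1.02 * n ^ 2 := by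
          have := mul_le_mul_of_nonneg_right hYc hL0.le
          linarith
        have h2 : (Y.card : ℝ) * (eta * n) * (10 : ℝ) ^ 100 ≤ (Y.card : ℝ) * (eta * n) * L :=
          mul_le_mul_of_nonneg_left hL (by positivity)
        have h3 : (Y.card : ℝ) * n * 10 ^ 94 ≤ 1.02 * n ^ 2 := by
          have h4 : (Y.card : ℝ) * (eta * n) * (10 : ℝ) ^ 100 = (Y.card : ℝ) * n * 10 ^ 94 := by
            unfold eta
            ring
          linarith
        have h5 : (Y.card : ℝ) * 10 ^ 94 ≤ 1.02 * n := by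
          have h6 : ((Y.card : ℝ) * 10 ^ 94) * n ≤ (1.02 * n) * n := by linarith
          exact le_of_mul_le_mul_right h6 hn0
        have h7 : (0 : ℝ) ≤ (Y.card : ℝ) := Nat.cast_nonneg _
        nlinarith
      have hWc : (W.card : ℝ) ≤ 0.001 * n :=
        le_trans (by exact_mod_cast card_le_card hWY) hYb
      have hW0 : (0 : ℝ) ≤ (W.card : ℝ) := Nat.cast_nonneg _
      have hs1 := EW_le hg W
      have hs2 := sum_dH_W hg W
      have hs3 : ∑ z ∈ W, (dH g z : ℝ) ≤ (W.card : ℝ) * ((1 / 2 + eta) * n) := by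
        rw [← nsmul_eq_mul]
        exact sum_le_card_nsmul _ _ _ fun z _ => hdeg z
      have hs4 : (W.card : ℝ) * (9 / 20 * n) ≤ ∑ z ∈ W, (dH g z : ℝ) := by
        rw [← nsmul_eq_mul]
        refine card_nsmul_le_sum _ _ _ fun z hz => ?_
        rw [hW] at hz
        simp only [hub, mem_filter, mem_univ, true_and] at hz
        rw [dH_eq_nb hg]
        exact hz
      rw [← hEW] at hs1 hs2
      have hnL : n / L * L = n := by field_simp
      refine ⟨?_, ?_, ?_⟩
      · rw [hh_def]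
        have h1 : 0.488 * n ^ 2 ≤ L * EW := by linarith
        have h2 : L * EW ≤ L * ((W.card : ℝ) * ((1 / 2 + eta) * n)) :=
          mul_le_mul_of_nonneg_left (hs1.trans hs3) hL0.le
        have h3 : 0.488 * n ≤ L * ((W.card : ℝ) * (1 / 2 + eta)) := by
          have h4 : (0.488 * n) * n ≤ (L * ((W.card : ℝ) * (1 / 2 + eta))) * n := by linarith
          exact le_of_mul_le_mul_right h4 hn0
        have h5 : 97 / 100 * (n / L) = (97 / 100 * n) / L := by ring
        rw [h5, div_le_iff₀ hL0]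
        have h6 : 0 ≤ (W.card : ℝ) * L := by positivity
        unfold eta at h3
        nlinarith
      · rw [hh_def]
        have h1 : (W.card : ℝ) * (9 / 20 * n) ≤ EW + (W.card : ℝ) * (0.001 * n) := by
          have h2 : (W.card : ℝ) ^ 2 ≤ (W.card : ℝ) * (0.001 * n) := by
            rw [sq]; exact mul_le_mul_of_nonneg_left hWc hW0
          linarith
        have h3 : L * ((W.card : ℝ) * (9 / 20 * n)) ≤
            L * EW + L * ((W.card : ℝ) * (0.001 * n)) := by
          have := mul_le_mul_of_nonneg_left h1 hL0.le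
          linarith
        have hLEO : 0 ≤ L * EO := mul_nonneg hL0.le hEO0
        have hLKu : 0 ≤ L * Ku := mul_nonneg hL0.le hKu0
        have h4 : 0.449 * (L * (W.card : ℝ)) * n ≤ (0.51 * n) * n := by linarith
        have h5 := le_of_mul_le_mul_right h4 hn0
        have h6 : 115 / 100 * (n / L) = (115 / 100 * n) / L := by ring
        rw [h6, le_div_iff₀ hL0]
        have h7 : 0 ≤ L * (W.card : ℝ) := by positivity
        linarith
      · rw [he, hh_def]
        have h5 : n * (n / L) = n ^ 2 / L := by ring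
        rw [h5, le_div_iff₀ hL0]
        have : 0 < n ^ 2 := by positivity
        linarith
    · right
      refine le_trans (le_of_eq ?_) h
      unfold Mfun cost
      rw [← hLL, ← hθdef, ← hT]
      have h1 : ((symmDiff (usedP g) ∅).card : ℝ) = EW + EO := by
        rw [← he]
        congr 2
        simp [symmDiff]
      rw [h1]
      ring
  · -- crude
    rw [hT, ← nsmul_eq_mul]
    refine sum_le_card_nsmul _ _ _ fun r hr => ?_
    have h1 := one_le_kk_add_tt hg hθ hr
    rw [hLn]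
    apply Real.log_le_log (by linarith)
    have h2 := kk_add_tt_le hg θ r.1 r.2
    have h3 : (kk (usedP g) r.1 r.2 : ℝ) + (tt (om g θ) r.1 r.2 : ℝ) ≤ (Fintype.card V : ℝ) := by
      exact_mod_cast h2
    rw [hnn]
    unfold nn
    linarith
  · -- tangent
    intro μ hμ
    have h1 : ∀ r ∈ restP g θ, Real.log (kk (usedP g) r.1 r.2 + 1 * tt (om g θ) r.1 r.2) ≤
        (Real.log μ - 1) +
          ((kk (usedP g) r.1 r.2 : ℝ) + (tt (om g θ) r.1 r.2 : ℝ)) / μ := by
      intro r hr
      have h2 := one_le_kk_add_tt hg hθ hr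
      have h3 := log_tangent (a := (kk (usedP g) r.1 r.2 : ℝ) + 1 * tt (om g θ) r.1 r.2)
        (by linarith) hμ
      have h4 : ((kk (usedP g) r.1 r.2 : ℝ) + 1 * tt (om g θ) r.1 r.2 - μ) / μ =
          ((kk (usedP g) r.1 r.2 : ℝ) + (tt (om g θ) r.1 r.2 : ℝ)) / μ - 1 := by
        field_simp
      linarith
    rw [hT, hS, sum_div]
    refine (sum_le_sum h1).trans (le_of_eq ?_)
    rw [sum_add_distrib, sum_const, nsmul_eq_mul]
  · -- option sum
    intro hB
    have h1 := option_sum_le hg θ (n := n) (η := eta) (η1 := 1 / 20) heta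
      (by unfold eta; norm_num) hn0.le (by norm_num) (by norm_num) W Y hWY hdeg hWdeg hYn hN
    rw [← hEW, ← hEO, ← hKu, ← hS] at h1
    refine h1.trans ?_
    -- n |Y|^2 <= eta n B
    have hB0 : 0 ≤ EW + EO + Ku := by positivity
    have hy0 : (0 : ℝ) ≤ (Y.card : ℝ) := Nat.cast_nonneg _
    have h2 : n * (Y.card : ℝ) ^ 2 ≤ n * (eta * (EW + EO + Ku)) := by
      apply mul_le_mul_of_nonneg_left _ hn0.le
      -- |Y| eta n <= 2 B, |Y|^2 eta^2 n^2 <= 4 B^2 <= B eta^3 n^2
      have h3 : ((Y.card : ℝ) * (eta * n)) ^ 2 ≤ (2 * (EW + EO + Ku)) ^ 2 :=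
        pow_le_pow_left₀ (by positivity) hYc 2
      have h4 : (2 * (EW + EO + Ku)) ^ 2 ≤ (EW + EO + Ku) * (eta ^ 3 * n ^ 2) := by
        have := mul_le_mul_of_nonneg_left hB hB0
        nlinarith
      have h5 : (Y.card : ℝ) ^ 2 * (eta ^ 2 * n ^ 2) ≤
          (eta * (EW + EO + Ku)) * (eta ^ 2 * n ^ 2) := by
        calc (Y.card : ℝ) ^ 2 * (eta ^ 2 * n ^ 2) = ((Y.card : ℝ) * (eta * n)) ^ 2 := by ring
          _ ≤ (EW + EO + Ku) * (eta ^ 3 * n ^ 2) := h3.trans h4
          _ = (eta * (EW + EO + Ku)) * (eta ^ 2 * n ^ 2) := by ring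
      have h6 : 0 < eta ^ 2 * n ^ 2 := by unfold eta; positivity
      exact le_of_mul_le_mul_right h5 h6
    have e1 : 0 ≤ n * (eta * EW) := by positivity
    have e2 : 0 ≤ n * (eta * EO) := by positivity
    have e3 : 0 ≤ n * (eta * Ku) := by positivity
    linarith

end

end CEB
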