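import Pool.Agent.Work.MP_ceb7a8_co.Moment
import Pool.Agent.Work.MP_ceb7a8_co.DiscCor

/-!
Degrees and codegrees of almost all labelled graphs (helper25).
-/

namespace Pool.Agent.Work.MP_ceb7a8_co

open Finset

/-- all degrees and codegrees are as in a random graph -/
def DegCodeg {n : ℕ} (η : ℝ) (G : SimpleGraph (Fin n)) : Prop :=
  (∀ u : Fin n, |(dgr G u univ : ℝ) - n / 2| ≤ η * n) ∧
    ∀ u v : Fin n, u ≠ v → |(codgr G u v univ : ℝ) - n / 4| ≤ η * n

namespace Rand

/-- number of `x` in `R` joined to both `u` and `v` -/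
noncomputable def cnt {n : ℕ} (u v : Fin n) (F : Finset (Sym2 (Fin n))) : ℕ :=
  ((univ \ {u, v}).filter fun x => s(u, x) ∈ F ∧ s(v, x) ∈ F).card

theorem codgr_eq_cnt {n : ℕ} {G : SimpleGraph (Fin n)} (u v : Fin n) :
    codgr G u v univ = cnt u v (toF G) := by
  classical
  unfold codgr cnt
  congr 1
  ext x
  simp only [mem_filter, mem_univ, true_and, mem_sdiff, mem_insert, mem_singleton, not_or, mem_toF,
    SimpleGraph.mem_edgeSet]
  constructor
  · rintro ⟨h1, h2⟩
    exact ⟨⟨h1.ne', h2.ne'⟩, h1, h2⟩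
  · rintro ⟨-, h1, h2⟩
    exact ⟨h1, h2⟩

theorem cnt_tail {n : ℕ} {u v : Fin n} (huv : u ≠ v) (σ : ℝ) (hσ : σ ^ 2 = 1) {τ : ℝ}
    (hτ : 0 ≤ τ) (hτn : 2 * τ ≤ (n : ℝ) - 2) (hn : 2 < n) :
    (((E n).powerset.filter fun F => τ ≤ σ * ((cnt u v F : ℝ) - ((n : ℝ) - 2) / 4)).card : ℝ) ≤
      2 ^ (E n).card * Real.exp (-(τ ^ 2 / n)) := by
  classical
  set r : ℝ := (n : ℝ) - 2 with hr
  have hr0 : 0 < r := by
    have : (2 : ℝ) < n := by exact_mod_cast hn
    linarith
  set R : Finset (Fin n) := univ \ {u, v} with hR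
  have hRc : (R.card : ℝ) = r := by
    rw [hR, card_sdiff_of_subset (subset_univ _), card_univ, Fintype.card_fin, card_pair huv,
      Nat.cast_sub (by omega)]
    rfl
  set l : ℝ := 2 * τ / r * σ with hl
  have hl2 : l ^ 2 = (2 * τ / r) ^ 2 := by
    rw [hl, mul_pow, hσ, mul_one]
  have hl1 : |l| ≤ 1 := by
    rw [← sq_le_one_iff_abs_le_one, hl2]
    have h1 : 2 * τ / r ≤ 1 := by
      rw [div_le_one hr0]
      exact hτn
    exact pow_le_one₀ (by positivity) h1
  have h1 := pair_moment (E n) (fun x => s(u, x)) (fun x => s(v, x)) (Real.exp (-(l / 4)))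
    (Real.exp (3 * l / 4)) R
    (fun x hx => by
      rw [hR, mem_sdiff, mem_insert, mem_singleton, not_or] at hx
      exact mem_filter.2 ⟨mem_univ _, fun h => hx.2.1 (Sym2.mk_isDiag_iff.1 h).symm⟩)
    (fun x hx => by
      rw [hR, mem_sdiff, mem_insert, mem_singleton, not_or] at hx
      exact mem_filter.2 ⟨mem_univ _, fun h => hx.2.2 (Sym2.mk_isDiag_iff.1 h).symm⟩)
    (fun x hx => by
      rw [hR, mem_sdiff, mem_insert, mem_singleton, not_or] at hx
      intro h
      rw [Sym2.eq_iff] at h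
      rcases h with h | h
      · exact huv h.1
      · exact hx.2.1 h.1.symm)
    (fun x hx y hy hxy => by
      rw [hR, mem_sdiff, mem_insert, mem_singleton, not_or] at hx hy
      refine ⟨?_, ?_, ?_⟩
      · intro h
        rw [Sym2.eq_iff] at h
        rcases h with h | h
        · exact hxy h.2
        · exact hy.2.1 h.1.symm
      · intro h
        rw [Sym2.eq_iff] at h
        rcases h with h | h
        · exact huv h.1
        · exact hx.2.2 h.2
      · intro h
        rw [Sym2.eq_iff] at h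
        rcases h with h | h
        · exact hxy h.2
        · exact hy.2.2 h.1.symm)
  have h2 : ∀ F : Finset (Sym2 (Fin n)), Real.exp (l * ((cnt u v F : ℝ) - r / 4)) =
      ∏ x ∈ R, (if s(u, x) ∈ F ∧ s(v, x) ∈ F then Real.exp (3 * l / 4) else Real.exp (-(l / 4))) := by
    intro F
    have h3 : ∏ x ∈ R, (if s(u, x) ∈ F ∧ s(v, x) ∈ F then Real.exp (3 * l / 4)
        else Real.exp (-(l / 4))) =
        ∏ x ∈ R, Real.exp (-(l / 4) + l * (if s(u, x) ∈ F ∧ s(v, x) ∈ F then (1 : ℝ) else 0)) := by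
      refine prod_congr rfl (fun x _ => ?_)
      split_ifs
      · congr 1
        ring
      · congr 1
        ring
    rw [h3, ← Real.exp_sum, sum_add_distrib, sum_const, ← mul_sum, nsmul_eq_mul, hRc]
    congr 1
    have h4 : ∑ x ∈ R, (if s(u, x) ∈ F ∧ s(v, x) ∈ F then (1 : ℝ) else 0) = (cnt u v F : ℝ) := by
      unfold cnt
      rw [sum_boole]
    rw [h4]
    ring
  have h3 : (((E n).powerset.filter fun F => τ ≤ σ * ((cnt u v F : ℝ) - r / 4)).card : ℝ) *
      Real.exp (2 * τ / r * τ) ≤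
      ∑ F ∈ (E n).powerset, Real.exp (l * ((cnt u v F : ℝ) - r / 4)) := by
    rw [← nsmul_eq_mul, ← sum_const]
    refine (sum_le_sum (fun F hF => ?_)).trans
      (sum_le_sum_of_subset_of_nonneg (filter_subset _ _) (fun F _ _ => (Real.exp_pos _).le))
    have h4 := (mem_filter.1 hF).2
    rw [Real.exp_le_exp, hl, mul_assoc]
    exact mul_le_mul_of_nonneg_left h4 (by positivity)
  rw [sum_congr rfl (fun F _ => h2 F), h1] at h3
  have h4 : ((3 * Real.exp (-(l / 4)) + Real.exp (3 * l / 4)) / 4) ^ R.card ≤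
      Real.exp (τ ^ 2 / r) := by
    refine (pow_le_pow_left₀ (by positivity) (base_le hl1) _).trans (le_of_eq ?_)
    rw [← Real.exp_nat_mul, hRc, hl2]
    congr 1
    field_simp
    ring
  have h5 := h3.trans (mul_le_mul_of_nonneg_left h4 (by positivity))
  have h6 : Real.exp (-(τ ^ 2 / r)) = Real.exp (τ ^ 2 / r) / Real.exp (2 * τ / r * τ) := by
    rw [← Real.exp_sub]
    congr 1
    ring
  have h7 : (((E n).powerset.filter fun F => τ ≤ σ * ((cnt u v F : ℝ) - r / 4)).card : ℝ) ≤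
      2 ^ (E n).card * Real.exp (-(τ ^ 2 / r)) := by
    rw [h6, ← mul_div_assoc, le_div_iff₀ (Real.exp_pos _)]
    exact h5
  refine h7.trans (mul_le_mul_of_nonneg_left (Real.exp_le_exp.2 (neg_le_neg ?_)) (by positivity))
  exact div_le_div_of_nonneg_left (by positivity) hr0 (by linarith)

open Classical in
theorem card_le_of_tail {n : ℕ} (P : Finset (Sym2 (Fin n)) → Prop) :
    (univ.filter fun G : SimpleGraph (Fin n) => P (toF G)).card ≤
      ((E n).powerset.filter P).card := by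
  refine card_le_card_of_injOn toF ?_ (fun G _ G' _ h => toF_inj h)
  intro G hG
  exact mem_coe.2 (mem_filter.2 ⟨mem_powerset.2 (filter_subset _ _), (mem_filter.1 hG).2⟩)

theorem deg_dev {n : ℕ} {η : ℝ} (hn' : 1 ≤ η * n) {G : SimpleGraph (Fin n)} {u : Fin n}
    (h : η * n < |(dgr G u univ : ℝ) - n / 2|) :
    η / 2 * n ≤ 1 * dev {u} univ (toF G) ∨ η / 2 * n ≤ (-1) * dev {u} univ (toF G) := by
  have h1 : dgr G u univ = eST G {u} univ := by
    rw [eST_eq_sum, sum_singleton]
  have h2 : ((∑ e ∈ E n, c {u} (univ : Finset (Fin n)) e : ℕ) : ℝ) + 1 = n := by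
    have h3 := sum_c ({u} : Finset (Fin n)) univ
    rw [inter_univ, card_singleton, card_univ, Fintype.card_fin, one_mul] at h3
    exact_mod_cast h3
  have h3 : dev {u} univ (toF G) = (dgr G u univ : ℝ) - (n - 1) / 2 := by
    unfold dev
    rw [h1, eST_eq]
    push_cast at h2 ⊢
    linarith
  rw [h3]
  rcases lt_abs.1 h with h4 | h4
  · left
    linarith
  · right
    linarith

theorem codeg_dev {n : ℕ} {η : ℝ} (hn' : 1 ≤ η * n) {G : SimpleGraph (Fin n)} {u v : Fin n}
    (h : η * n < |(codgr G u v univ : ℝ) - n / 4|) :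
    η / 2 * n ≤ 1 * ((cnt u v (toF G) : ℝ) - ((n : ℝ) - 2) / 4) ∨
      η / 2 * n ≤ (-1) * ((cnt u v (toF G) : ℝ) - ((n : ℝ) - 2) / 4) := by
  rw [← codgr_eq_cnt]
  rcases lt_abs.1 h with h4 | h4
  · left
    linarith
  · right
    linarith

end Rand

open Classical in
/-- almost all labelled graphs have all degrees `n / 2 ± η n` and all codegrees `n / 4 ± η n` -/
theorem card_not_degCodeg {η : ℝ} (hη : 0 < η) (hη' : η ≤ 1 / 2) {n : ℕ} (hn : 4 ≤ n)
    (hn' : 1 ≤ η * n) :
    ((univ.filter fun G : SimpleGraph (Fin n) => ¬ DegCodeg η G).card : ℝ) ≤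
      2 * n ^ 2 * Real.exp (-(η ^ 2 * n / 4)) * Fintype.card (SimpleGraph (Fin n)) := by
  have hn0 : (4 : ℝ) ≤ n := by exact_mod_cast hn
  have hexp : (η / 2 * n) ^ 2 / n = η ^ 2 * n / 4 := by
    field_simp
    ring
  set B : ℝ := 2 ^ (Rand.E n).card * Real.exp (-(η ^ 2 * n / 4)) with hB
  have hB0 : 0 ≤ B := by positivity
  have hdeg : ∀ σ : ℝ, σ ^ 2 = 1 → ∀ u : Fin n, ((univ.filter fun G : SimpleGraph (Fin n) =>
      η / 2 * n ≤ σ * Rand.dev {u} univ (Rand.toF G)).card : ℝ) ≤ B := by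
    intro σ hσ u
    have h1 := Rand.dev_le ({u} : Finset (Fin n)) univ σ hσ (τ := η / 2 * n) (by positivity) (by
      rw [card_singleton, card_univ, Fintype.card_fin]
      push_cast
      linarith)
    rw [card_singleton, card_univ, Fintype.card_fin, Nat.cast_one, one_mul, hexp] at h1
    refine le_trans ?_ h1
    exact Nat.cast_le.2 (Rand.card_le_of_tail (fun F => η / 2 * n ≤ σ *
      (∑ e ∈ F, (Rand.c {u} univ e : ℝ) - (∑ e ∈ Rand.E n, (Rand.c {u} univ e : ℝ)) / 2)))
  have hcod : ∀ σ : ℝ, σ ^ 2 = 1 → ∀ u v : Fin n, u ≠ v →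
      ((univ.filter fun G : SimpleGraph (Fin n) =>
      η / 2 * n ≤ σ * ((Rand.cnt u v (Rand.toF G) : ℝ) - ((n : ℝ) - 2) / 4)).card : ℝ) ≤ B := by
    intro σ hσ u v huv
    have h1 := Rand.cnt_tail huv σ hσ (τ := η / 2 * n) (by positivity) (by nlinarith) (by omega)
    rw [hexp] at h1
    refine le_trans ?_ h1
    exact_mod_cast Rand.card_le_of_tail (fun F => η / 2 * n ≤ σ *
      ((Rand.cnt u v F : ℝ) - ((n : ℝ) - 2) / 4))
  have hsub : (univ.filter fun G : SimpleGraph (Fin n) => ¬ DegCodeg η G) ⊆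
      (univ : Finset (Fin n)).biUnion (fun u =>
        (univ.filter fun G : SimpleGraph (Fin n) => η / 2 * n ≤ 1 * Rand.dev {u} univ (Rand.toF G)) ∪
        (univ.filter fun G : SimpleGraph (Fin n) =>
          η / 2 * n ≤ (-1) * Rand.dev {u} univ (Rand.toF G))) ∪
      ((univ : Finset (Fin n × Fin n)).filter (fun q => q.1 ≠ q.2)).biUnion (fun q =>
        (univ.filter fun G : SimpleGraph (Fin n) =>
          η / 2 * n ≤ 1 * ((Rand.cnt q.1 q.2 (Rand.toF G) : ℝ) - ((n : ℝ) - 2) / 4)) ∪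
        (univ.filter fun G : SimpleGraph (Fin n) =>
          η / 2 * n ≤ (-1) * ((Rand.cnt q.1 q.2 (Rand.toF G) : ℝ) - ((n : ℝ) - 2) / 4))) := by
    intro G hG
    have h1 := (mem_filter.1 hG).2
    unfold DegCodeg at h1
    rw [not_and_or] at h1
    rw [mem_union]
    rcases h1 with h1 | h1
    · left
      push Not at h1
      obtain ⟨u, hu⟩ := h1
      rw [mem_biUnion]
      refine ⟨u, mem_univ _, ?_⟩
      rw [mem_union, mem_filter, mem_filter]
      rcases Rand.deg_dev hn' hu with h2 | h2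
      · exact Or.inl ⟨mem_univ _, h2⟩
      · exact Or.inr ⟨mem_univ _, h2⟩
    · right
      push Not at h1
      obtain ⟨u, v, huv, hu⟩ := h1
      rw [mem_biUnion]
      refine ⟨(u, v), mem_filter.2 ⟨mem_univ _, huv⟩, ?_⟩
      rw [mem_union, mem_filter, mem_filter]
      rcases Rand.codeg_dev hn' hu with h2 | h2
      · exact Or.inl ⟨mem_univ _, h2⟩
      · exact Or.inr ⟨mem_univ _, h2⟩
  have h1 : ((univ.filter fun G : SimpleGraph (Fin n) => ¬ DegCodeg η G).card : ℝ) ≤
      ∑ u : Fin n, (2 * B) + ∑ q ∈ (univ : Finset (Fin n × Fin n)).filter (fun q => q.1 ≠ q.2),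
        (2 * B) := by
    have h2 := (card_le_card hsub).trans (card_union_le _ _)
    have h3 : (((univ : Finset (Fin n)).biUnion (fun u =>
        (univ.filter fun G : SimpleGraph (Fin n) => η / 2 * n ≤ 1 * Rand.dev {u} univ (Rand.toF G)) ∪
        (univ.filter fun G : SimpleGraph (Fin n) =>
          η / 2 * n ≤ (-1) * Rand.dev {u} univ (Rand.toF G)))).card : ℝ) ≤
        ∑ u : Fin n, (2 * B) := by
      have h4 : (((univ : Finset (Fin n)).biUnion (fun u =>
        (univ.filter fun G : SimpleGraph (Fin n) => η / 2 * n ≤ 1 * Rand.dev {u} univ (Rand.toF G)) ∪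
        (univ.filter fun G : SimpleGraph (Fin n) =>
          η / 2 * n ≤ (-1) * Rand.dev {u} univ (Rand.toF G)))).card : ℝ) ≤
          ∑ u : Fin n, (((univ.filter fun G : SimpleGraph (Fin n) =>
            η / 2 * n ≤ 1 * Rand.dev {u} univ (Rand.toF G)).card : ℝ) +
          ((univ.filter fun G : SimpleGraph (Fin n) =>
            η / 2 * n ≤ (-1) * Rand.dev {u} univ (Rand.toF G)).card : ℝ)) := by
        exact_mod_cast card_biUnion_le.trans (sum_le_sum (fun u _ => card_union_le _ _))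
      refine h4.trans (sum_le_sum (fun u _ => ?_))
      have h5 := hdeg 1 (by norm_num) u
      have h6 := hdeg (-1) (by norm_num) u
      linarith
    have h3' : ((((univ : Finset (Fin n × Fin n)).filter (fun q => q.1 ≠ q.2)).biUnion (fun q =>
        (univ.filter fun G : SimpleGraph (Fin n) =>
          η / 2 * n ≤ 1 * ((Rand.cnt q.1 q.2 (Rand.toF G) : ℝ) - ((n : ℝ) - 2) / 4)) ∪
        (univ.filter fun G : SimpleGraph (Fin n) =>
          η / 2 * n ≤ (-1) * ((Rand.cnt q.1 q.2 (Rand.toF G) : ℝ) - ((n : ℝ) - 2) / 4)))).card : ℝ) ≤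
        ∑ q ∈ (univ : Finset (Fin n × Fin n)).filter (fun q => q.1 ≠ q.2), (2 * B) := by
      have h4 : ((((univ : Finset (Fin n × Fin n)).filter (fun q => q.1 ≠ q.2)).biUnion (fun q =>
        (univ.filter fun G : SimpleGraph (Fin n) =>
          η / 2 * n ≤ 1 * ((Rand.cnt q.1 q.2 (Rand.toF G) : ℝ) - ((n : ℝ) - 2) / 4)) ∪
        (univ.filter fun G : SimpleGraph (Fin n) =>
          η / 2 * n ≤ (-1) * ((Rand.cnt q.1 q.2 (Rand.toF G) : ℝ) - ((n : ℝ) - 2) / 4)))).card : ℝ) ≤
          ∑ q ∈ (univ : Finset (Fin n × Fin n)).filter (fun q => q.1 ≠ q.2),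
          (((univ.filter fun G : SimpleGraph (Fin n) =>
            η / 2 * n ≤ 1 * ((Rand.cnt q.1 q.2 (Rand.toF G) : ℝ) - ((n : ℝ) - 2) / 4)).card : ℝ) +
          ((univ.filter fun G : SimpleGraph (Fin n) => η / 2 * n ≤
            (-1) * ((Rand.cnt q.1 q.2 (Rand.toF G) : ℝ) - ((n : ℝ) - 2) / 4)).card : ℝ)) := by
        exact_mod_cast card_biUnion_le.trans (sum_le_sum (fun u _ => card_union_le _ _))
      refine h4.trans (sum_le_sum (fun q hq => ?_))
      have h7 := (mem_filter.1 hq).2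
      have h5 := hcod 1 (by norm_num) q.1 q.2 h7
      have h6 := hcod (-1) (by norm_num) q.1 q.2 h7
      linarith
    have h8 : ((univ.filter fun G : SimpleGraph (Fin n) => ¬ DegCodeg η G).card : ℝ) ≤
      (((univ : Finset (Fin n)).biUnion (fun u =>
        (univ.filter fun G : SimpleGraph (Fin n) => η / 2 * n ≤ 1 * Rand.dev {u} univ (Rand.toF G)) ∪
        (univ.filter fun G : SimpleGraph (Fin n) =>
          η / 2 * n ≤ (-1) * Rand.dev {u} univ (Rand.toF G)))).card : ℝ) +
      ((((univ : Finset (Fin n × Fin n)).filter (fun q => q.1 ≠ q.2)).biUnion (fun q =>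
        (univ.filter fun G : SimpleGraph (Fin n) =>
          η / 2 * n ≤ 1 * ((Rand.cnt q.1 q.2 (Rand.toF G) : ℝ) - ((n : ℝ) - 2) / 4)) ∪
        (univ.filter fun G : SimpleGraph (Fin n) =>
          η / 2 * n ≤ (-1) * ((Rand.cnt q.1 q.2 (Rand.toF G) : ℝ) -
            ((n : ℝ) - 2) / 4)))).card : ℝ) := by
      exact_mod_cast h2
    exact h8.trans (add_le_add h3 h3')
  have hpairs : (((univ : Finset (Fin n × Fin n)).filter (fun q => q.1 ≠ q.2)).card : ℝ) + n ≤
      (n : ℝ) ^ 2 := by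
    have h2 : ((univ : Finset (Fin n × Fin n)).filter (fun q => q.1 ≠ q.2)).card +
        ((univ : Finset (Fin n × Fin n)).filter (fun q => ¬ q.1 ≠ q.2)).card = n ^ 2 := by
      rw [card_filter_add_card_filter_not, card_univ, Fintype.card_prod, Fintype.card_fin, sq]
    have h3 : n ≤ ((univ : Finset (Fin n × Fin n)).filter (fun q => ¬ q.1 ≠ q.2)).card := by
      calc n = (univ : Finset (Fin n)).card := by rw [card_univ, Fintype.card_fin]
        _ ≤ _ := by
          refine card_le_card_of_injOn (fun a => (a, a)) ?_ ?_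
          · intro a _
            exact mem_coe.2 (mem_filter.2 ⟨mem_univ _, by simp⟩)
          · intro a _ b _ h
            exact (Prod.mk.inj h).1
    have h4 : ((univ : Finset (Fin n × Fin n)).filter (fun q => q.1 ≠ q.2)).card + n ≤ n ^ 2 := by
      omega
    exact_mod_cast h4
  have hcard : (Fintype.card (SimpleGraph (Fin n)) : ℝ) = 2 ^ (Rand.E n).card := by
    rw [Rand.card_graph]
    push_cast
    rfl
  rw [sum_const, sum_const, card_univ, Fintype.card_fin, nsmul_eq_mul, nsmul_eq_mul] at h1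
  rw [hcard]
  calc ((univ.filter fun G : SimpleGraph (Fin n) => ¬ DegCodeg η G).card : ℝ) ≤
      n * (2 * B) +
        (((univ : Finset (Fin n × Fin n)).filter (fun q => q.1 ≠ q.2)).card : ℝ) * (2 * B) := h1
    _ = ((((univ : Finset (Fin n × Fin n)).filter (fun q => q.1 ≠ q.2)).card : ℝ) + n) *
        (2 * B) := by ring
    _ ≤ (n : ℝ) ^ 2 * (2 * B) := mul_le_mul_of_nonneg_right hpairs (by positivity)
    _ = 2 * n ^ 2 * Real.exp (-(η ^ 2 * n / 4)) * 2 ^ (Rand.E n).card := by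
      rw [hB]
      ring

end Pool.Agent.Work.MP_ceb7a8_co
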