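import Pool.Agent.Work.MP_ceb7a8_co.L6Defs

/-!
Lemma 6 (crossing), second half: given the events (a), (b), (c) at u, all crossings exist.
-/

namespace CEB

namespace L6

open Finset Rg

noncomputable section

open scoped Classical

/-! ### Pairs with the same value -/

section pairs

variable {V : Type*}

theorem pairs_ge (T Z : Finset V) (f : V → V) (B : V → V → Prop)
    (hT : ∀ c ∈ T, f c ∈ Z) (m : ℝ)
    (hB : ∀ c ∈ T, (#{d ∈ T | f c = f d ∧ B c d} : ℝ) ≤ m) :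
    (#T : ℝ) ^ 2 ≤ #Z * ((#{q ∈ T ×ˢ T | f q.1 = f q.2 ∧ ¬ B q.1 q.2} : ℝ) + m * #T) := by
  have h1 : (#T : ℝ) = ∑ z ∈ Z, (#{c ∈ T | f c = z} : ℝ) := by
    have := Finset.card_eq_sum_card_fiberwise (f := f) (s := T) (t := Z)
      (fun c hc => Finset.mem_coe.2 (hT c (Finset.mem_coe.1 hc)))
    exact_mod_cast this
  have h2 : (#T : ℝ) ^ 2 ≤ #Z * ∑ z ∈ Z, (#{c ∈ T | f c = z} : ℝ) ^ 2 := by
    rw [h1]
    exact sq_sum_le_card_mul_sum_sq
  have h3 : ∑ z ∈ Z, (#{c ∈ T | f c = z} : ℝ) ^ 2 = ∑ c ∈ T, (#{d ∈ T | f c = f d} : ℝ) := by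
    rw [← Finset.sum_fiberwise_of_maps_to (g := f) hT]
    apply Finset.sum_congr rfl
    intro z _
    rw [Finset.sum_congr rfl (g := fun _ => (#{c ∈ T | f c = z} : ℝ))]
    · rw [Finset.sum_const, nsmul_eq_mul, sq]
    · intro c hc
      have hcz := (mem_filter.1 hc).2
      congr 2
      ext d
      simp only [mem_filter]
      constructor
      · rintro ⟨h4, h5⟩; exact ⟨h4, by rw [← h5, hcz]⟩
      · rintro ⟨h4, h5⟩; exact ⟨h4, by rw [h5, hcz]⟩
  have h4 : ∑ c ∈ T, (#{d ∈ T | f c = f d} : ℝ) ≤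
      (#{q ∈ T ×ˢ T | f q.1 = f q.2 ∧ ¬ B q.1 q.2} : ℝ) + m * #T := by
    have h5 : (#{q ∈ T ×ˢ T | f q.1 = f q.2 ∧ ¬ B q.1 q.2} : ℝ) =
        ∑ c ∈ T, (#{d ∈ T | f c = f d ∧ ¬ B c d} : ℝ) := by
      rw [card_filter, sum_product]
      push_cast
      apply Finset.sum_congr rfl
      intro c _
      rw [card_filter]
      push_cast
      rfl
    have h6 : m * #T = ∑ c ∈ T, m := by rw [Finset.sum_const, nsmul_eq_mul, mul_comm]
    rw [h5, h6, ← Finset.sum_add_distrib]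
    apply Finset.sum_le_sum
    intro c hc
    have h7 : #{d ∈ T | f c = f d} ≤
        #{d ∈ T | f c = f d ∧ ¬ B c d} + #{d ∈ T | f c = f d ∧ B c d} := by
      refine le_trans (card_le_card ?_) (card_union_le _ _)
      intro d hd
      obtain ⟨h8, h9⟩ := mem_filter.1 hd
      by_cases h10 : B c d
      · exact mem_union_right _ (mem_filter.2 ⟨h8, h9, h10⟩)
      · exact mem_union_left _ (mem_filter.2 ⟨h8, h9, h10⟩)
    have h8 : (#{d ∈ T | f c = f d} : ℝ) ≤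
        #{d ∈ T | f c = f d ∧ ¬ B c d} + #{d ∈ T | f c = f d ∧ B c d} := by exact_mod_cast h7
    have h9 := hB c hc
    linarith
  rw [h3] at h2
  exact h2.trans (mul_le_mul_of_nonneg_left h4 (Nat.cast_nonneg _))

end pairs

section main

variable {V : Type*} [Fintype V] {G : SimpleGraph V} {g : V → V → V} {u : V}
  {p p' : Sym2 V} {ω : Sym2 V → V}

theorem mem_Vu {c : V} : c ∈ Vu G g u p p' ↔ c ∈ reg G g ∧ c ∉ hub g ∧ c ≠ u ∧
    c ∉ bad G g u ∧ c ∉ exc G g u ∧ s(u, c) ≠ p ∧ s(u, c) ≠ p' := by simp [Vu]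

omit [Fintype V] in
theorem mem_SZ {S Z : Finset V} {c : V} : c ∈ SZ S u ω Z ↔ c ∈ S ∧ ω s(u, c) ∈ Z := by
  simp [SZ]

theorem big_rho (hn : Big (Fintype.card V)) : 10 ^ 60 ≤ nn V ^ (1 - CEB.sig / 2) := by
  have h1 := LL_le_rho hn
  have h2 := LL_ge hn
  have h3 : (1 : ℝ) ≤ LL V := le_trans (by norm_num) h2
  rw [le_div_iff₀ (by positivity)] at h1
  nlinarith

theorem rho_le_n (hn : Big (Fintype.card V)) : nn V ^ (1 - CEB.sig / 2) ≤ nn V / 10 ^ 60 := by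
  have h1 := rho_le hn
  have h2 := hh_le hn
  have h3 := nn_pos hn
  have h4 : hh V ≤ nn V := by
    refine h2.trans (div_le_self h3.le (by norm_num))
  exact h1.trans (div_le_div_of_nonneg_right h4 (by positivity))

/-- For at least half of the a in A the set of vertices c with middle vertex outside A is well
attached to a. -/
theorem many_good (hG : QR G) (hn : Big (Fintype.card V)) {u : V}
    (hω : Good G g u p p' ω) {A : Finset V} (hA : A ⊆ Nu G g u)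
    (hr : hh V / 20 ≤ (#(Nu G g u \ A) : ℝ)) :
    (#A : ℝ) / 2 ≤ #{a ∈ A | nn V / 400 ≤
      (#(SZ (Vu G g u p p') u ω (Nu G g u \ A) ∩ nb g a) : ℝ)} := by
  have hnp := nn_pos hn
  set Z := Nu G g u \ A with hZ
  set S := SZ (Vu G g u p p') u ω Z with hS
  set ρ := nn V ^ (1 - CEB.sig / 2) with hρ
  have hZs : Z ⊆ Nu G g u := sdiff_subset
  have hNZ : Nu G g u \ Z = A := by
    rw [hZ, sdiff_sdiff_right_self]
    exact inf_eq_right.2 hA
  rcases le_or_gt (#A : ℝ) ρ with hsmall | hlarge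
  · have h1 : 85 / 100 * nn V ≤ (#S : ℝ) := hω.b Z hZs (by rw [hNZ]; exact hsmall)
    have h2 : {a ∈ A | nn V / 400 ≤ (#(S ∩ nb g a) : ℝ)} = A := by
      apply filter_true_of_mem
      intro a ha
      have h3 : 9 / 20 * nn V ≤ (#(nb g a) : ℝ) := mem_hub.1 (mem_Nu.1 (hA ha)).2.1
      have h4 : #S + #(nb g a) = #(S ∪ nb g a) + #(S ∩ nb g a) :=
        (card_union_add_card_inter _ _).symm
      have h5 : (#(S ∪ nb g a) : ℝ) ≤ nn V := by
        unfold nn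
        exact_mod_cast card_le_univ _
      have h6 : (#S : ℝ) + #(nb g a) = #(S ∪ nb g a) + #(S ∩ nb g a) := by exact_mod_cast h4
      linarith
    rw [h2]
    have : (0:ℝ) ≤ #A := Nat.cast_nonneg _
    linarith
  · have h1 : nn V / 120 ≤ (#S : ℝ) := hω.a Z hZs hr
    have hSp : (0:ℝ) < #S := lt_of_lt_of_le (by positivity) h1
    -- vertices with few neighbours in S
    set X : Finset V := univ.filter fun a => (#(gn G a ∩ S) : ℝ) ≤ 1 / 3 * #S with hX
    have h2 := q1_low hG S X (c := 1 / 3) (by norm_num) (fun v hv => (mem_filter.1 hv).2)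
    have h3 : (#X : ℝ) ≤ 69120 := by
      have h4 : (#X : ℝ) * (nn V / 120) ≤ (#X : ℝ) * #S :=
        mul_le_mul_of_nonneg_left h1 (Nat.cast_nonneg _)
      have h5 : (#X : ℝ) * (nn V / 120) ≤ 69120 * (nn V / 120) := by
        norm_num at h2
        nlinarith
      exact le_of_mul_le_mul_right h5 (by positivity)
    have h4 : A \ X ⊆ {a ∈ A | nn V / 400 ≤ (#(S ∩ nb g a) : ℝ)} := by
      intro a ha
      obtain ⟨ha1, ha2⟩ := mem_sdiff.1 ha
      refine mem_filter.2 ⟨ha1, ?_⟩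
      have h5 : 1 / 3 * (#S : ℝ) < #(gn G a ∩ S) := by
        by_contra h6
        exact ha2 (mem_filter.2 ⟨mem_univ _, not_lt.1 h6⟩)
      have h6 := mem_Nu.1 (hA ha1)
      have h7 := card_nb_inter_ge (G := G) (g := g) (a := a) (mem_hubr.2 h6.2) S
      rw [inter_comm] at h7
      rw [inter_comm S]
      have h8 := rho_le_n hn
      rw [← hρ] at h8 h7
      rw [inter_comm S (gn G a)] at h7
      have h9 : nn V / 10 ^ 60 ≤ nn V / 10 ^ 6 :=
        div_le_div_of_nonneg_left hnp.le (by norm_num) (by norm_num)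
      linarith
    have h5 : (#A : ℝ) - #X ≤ #(A \ X) := by
      have := card_le_card_sdiff_add_card (s := A) (t := X)
      have h6 : (#A : ℝ) ≤ #(A \ X) + #X := by exact_mod_cast this
      linarith
    have h6 : (#(A \ X) : ℝ) ≤ #{a ∈ A | nn V / 400 ≤ (#(S ∩ nb g a) : ℝ)} := by
      exact_mod_cast card_le_card h4
    have h7 := big_rho hn
    rw [← hρ] at h7
    have h8 : (10:ℝ) ^ 60 ≤ #A := h7.trans hlarge.le
    norm_num at h8
    linarith

/-- valid pairs: same middle vertex towards u, in Z -/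
def JA (G : SimpleGraph V) (g : V → V → V) (u : V) (p p' : Sym2 V) (ω : Sym2 V → V)
    (Z : Finset V) : Finset (Sym2 V) :=
  univ.filter fun e => ∃ c d, e = s(c, d) ∧ c ≠ d ∧ c ∈ Vu G g u p p' ∧ d ∈ Vu G g u p p' ∧
    ω s(u, c) = ω s(u, d) ∧ ω s(u, c) ∈ Z ∧ d ∉ bad G g c ∧ e ≠ p ∧ e ≠ p'

theorem mem_JA {Z : Finset V} {e : Sym2 V} : e ∈ JA G g u p p' ω Z ↔
    ∃ c d, e = s(c, d) ∧ c ≠ d ∧ c ∈ Vu G g u p p' ∧ d ∈ Vu G g u p p' ∧
    ω s(u, c) = ω s(u, d) ∧ ω s(u, c) ∈ Z ∧ d ∉ bad G g c ∧ e ≠ p ∧ e ≠ p' := by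
  simp [JA]

theorem card_fiber_le_two (e : Sym2 V) :
    #{q ∈ (univ : Finset (V × V)) | s(q.1, q.2) = e} ≤ 2 := by
  induction e using Sym2.ind with
  | _ a b =>
    have h1 : ({q ∈ (univ : Finset (V × V)) | s(q.1, q.2) = s(a, b)}) ⊆ {(a, b), (b, a)} := by
      intro q hq
      have h2 := (mem_filter.1 hq).2
      simp only [mem_insert, mem_singleton]
      rcases Sym2.eq_iff.1 h2 with ⟨h3, h4⟩ | ⟨h3, h4⟩
      · left; exact Prod.ext h3 h4
      · right; exact Prod.ext h3 h4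
    exact (card_le_card h1).trans card_le_two

omit [Fintype V] in
/-- for fixed c at most one d gives the pair p -/
theorem card_eq_pair_le (c : V) (T : Finset V) (p : Sym2 V) : #{d ∈ T | s(c, d) = p} ≤ 1 := by
  rw [card_le_one]
  intro d hd d' hd'
  have h1 := (mem_filter.1 hd).2
  have h2 := (mem_filter.1 hd').2
  rw [← h2] at h1
  rcases Sym2.eq_iff.1 h1 with ⟨_, h3⟩ | ⟨h3, h4⟩
  · exact h3
  · rw [h4, h3]

/-- many valid pairs inside the used neighbourhood of a -/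
theorem card_JA_ge (hn : Big (Fintype.card V)) (hg : IsSys G g) (ht : Typ G g)
    (hu : u ∈ reg G g) (hu' : u ∉ hub g)
    (hω : Good G g u p p' ω) {Z : Finset V} (hZ : Z ⊆ Nu G g u) {a : V}
    (ha : nn V / 400 ≤ (#(SZ (Vu G g u p p') u ω Z ∩ nb g a) : ℝ)) :
    nn V * LL V / 400000 ≤ #{e ∈ JA G g u p p' ω Z | a ∈ mids g e} := by
  have hnp := nn_pos hn
  have hhp := hh_pos hn
  set T := SZ (Vu G g u p p') u ω Z ∩ nb g a with hT
  have hTn : (#T : ℝ) ≤ nn V := by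
    unfold nn; exact_mod_cast card_le_univ _
  have hTmem : ∀ c ∈ T, c ∈ Vu G g u p p' ∧ ω s(u, c) ∈ Z ∧ Used g a c := by
    intro c hc
    obtain ⟨h1, h2⟩ := mem_inter.1 hc
    obtain ⟨h3, h4⟩ := mem_SZ.1 h1
    exact ⟨h3, h4, mem_nb.1 h2⟩
  have hZc : (#Z : ℝ) ≤ 12 / 10 * hh V := by
    have h1 : (#Z : ℝ) ≤ #(nb g u) := by
      exact_mod_cast card_le_card (hZ.trans inter_subset_left)
    exact h1.trans (card_nb_le hn hg ht hu hu')
  have hB : ∀ c ∈ T, (#{d ∈ T | ω s(u, c) = ω s(u, d) ∧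
      (c = d ∨ d ∈ bad G g c ∨ s(c, d) = p ∨ s(c, d) = p')} : ℝ) ≤ 10 ^ 9 + 3 := by
    intro c hc
    have h1 : ({d ∈ T | ω s(u, c) = ω s(u, d) ∧
      (c = d ∨ d ∈ bad G g c ∨ s(c, d) = p ∨ s(c, d) = p')}) ⊆
      ({c} ∪ ((Vu G g u p p').filter fun d => d ∈ bad G g c ∧ ω s(u, d) = ω s(u, c))) ∪
        ({d ∈ T | s(c, d) = p} ∪ {d ∈ T | s(c, d) = p'}) := by
      intro d hd
      obtain ⟨h2, h3, h4⟩ := mem_filter.1 hd
      rcases h4 with h4 | h4 | h4 | h4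
      · exact mem_union_left _ (mem_union_left _ (mem_singleton.2 h4.symm))
      · exact mem_union_left _ (mem_union_right _
          (mem_filter.2 ⟨(hTmem d h2).1, h4, h3.symm⟩))
      · exact mem_union_right _ (mem_union_left _ (mem_filter.2 ⟨h2, h4⟩))
      · exact mem_union_right _ (mem_union_right _ (mem_filter.2 ⟨h2, h4⟩))
    have h2 := hω.c c (hTmem c hc).1 (ω s(u, c))
    have h3 := (card_le_card h1).trans ((card_union_le _ _).trans
      (Nat.add_le_add (card_union_le _ _) (card_union_le _ _)))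
    have h4 := card_eq_pair_le c T p
    have h5 := card_eq_pair_le c T p'
    rw [card_singleton] at h3
    have h6 : (#{d ∈ T | ω s(u, c) = ω s(u, d) ∧
      (c = d ∨ d ∈ bad G g c ∨ s(c, d) = p ∨ s(c, d) = p')} : ℝ) ≤
      1 + #((Vu G g u p p').filter fun d => d ∈ bad G g c ∧ ω s(u, d) = ω s(u, c)) + 2 := by
      exact_mod_cast h3.trans (by omega)
    linarith
  set R : Finset (V × V) := {q ∈ T ×ˢ T | ω s(u, q.1) = ω s(u, q.2) ∧
    ¬ (q.1 = q.2 ∨ q.2 ∈ bad G g q.1 ∨ s(q.1, q.2) = p ∨ s(q.1, q.2) = p')} with hR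
  have h1 : (#T : ℝ) ^ 2 ≤ #Z * ((#R : ℝ) + (10 ^ 9 + 3) * #T) := by
    have h0 := pairs_ge T Z (fun c => ω s(u, c))
      (fun c d => c = d ∨ d ∈ bad G g c ∨ s(c, d) = p ∨ s(c, d) = p')
      (fun c hc => (hTmem c hc).2.1) (10 ^ 9 + 3) (by
        intro c hc
        convert hB c hc)
    convert h0
  have h2 : #R ≤ 2 * #{e ∈ JA G g u p p' ω Z | a ∈ mids g e} := by
    apply Finset.card_le_mul_card_image_of_maps_to (f := fun q : V × V => s(q.1, q.2))
    · intro q hq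
      obtain ⟨h3, h4, h5⟩ := mem_filter.1 hq
      obtain ⟨h6, h7⟩ := mem_product.1 h3
      simp only [not_or] at h5
      obtain ⟨m1, m2, m3⟩ := hTmem _ h6
      obtain ⟨l1, l2, l3⟩ := hTmem _ h7
      refine mem_filter.2 ⟨mem_JA.2 ⟨q.1, q.2, rfl, h5.1, m1, l1, h4, m2, h5.2.1, h5.2.2.1,
        h5.2.2.2⟩, ?_⟩
      have hq1 : Q g q.1 q.2 := q_of_off h5.1 (mem_Vu.1 m1).2.1 (mem_Vu.1 l1).2.1 h5.2.1
      rw [mem_mids hq1]
      exact ⟨hg.used_symm m3, hg.used_symm l3⟩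
    · intro e _
      refine le_trans (card_le_card ?_) (card_fiber_le_two e)
      intro q hq
      obtain ⟨_, h4⟩ := mem_filter.1 hq
      exact mem_filter.2 ⟨mem_univ _, h4⟩
  have h3 : (#R : ℝ) ≤ 2 * #{e ∈ JA G g u p p' ω Z | a ∈ mids g e} := by exact_mod_cast h2
  have h4 : (#T : ℝ) ^ 2 ≤ 12 / 10 * hh V * ((#R : ℝ) + (10 ^ 9 + 3) * nn V) := by
    refine h1.trans ?_
    apply mul_le_mul hZc _ (by positivity) (by positivity)
    have : (10 ^ 9 + 3) * (#T : ℝ) ≤ (10 ^ 9 + 3) * nn V :=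
      mul_le_mul_of_nonneg_left hTn (by norm_num)
    linarith
  have h5 : (nn V / 400) ^ 2 ≤ (#T : ℝ) ^ 2 := pow_le_pow_left₀ (by positivity) ha 2
  have h6 := hh_mul hn
  have h7 : nn V * (nn V / 160000) ≤ hh V * (12 / 10 * ((#R : ℝ) + (10 ^ 9 + 3) * nn V)) := by
    nlinarith
  have h8 : LL V * (nn V / 160000) ≤ 12 / 10 * ((#R : ℝ) + (10 ^ 9 + 3) * nn V) := by
    have h9 : hh V * (LL V * (nn V / 160000)) ≤
        hh V * (12 / 10 * ((#R : ℝ) + (10 ^ 9 + 3) * nn V)) := by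
      rw [← mul_assoc, h6]; exact h7
    exact le_of_mul_le_mul_left h9 hhp
  have h9 := LL_ge hn
  have h10 : (10:ℝ) ^ 100 * nn V ≤ LL V * nn V := mul_le_mul_of_nonneg_right h9 hnp.le
  norm_num at h10 h8
  nlinarith

theorem sum_JA_ge (hG : QR G) (hn : Big (Fintype.card V)) (hg : IsSys G g) (ht : Typ G g)
    (hu : u ∈ reg G g) (hu' : u ∉ hub g)
    (hω : Good G g u p p' ω) {A : Finset V} (hA : A ⊆ Nu G g u)
    (hr : hh V / 20 ≤ (#(Nu G g u \ A) : ℝ)) :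
    (#A : ℝ) * (nn V * LL V / 800000) ≤
      ∑ e ∈ JA G g u p p' ω (Nu G g u \ A), (#(mids g e ∩ A) : ℝ) := by
  have hnp := nn_pos hn
  have hLp := LL_pos hn
  have h1 := many_good hG hn hω hA hr
  set Z := Nu G g u \ A with hZ
  set X : Finset V := {a ∈ A | nn V / 400 ≤
      (#(SZ (Vu G g u p p') u ω Z ∩ nb g a) : ℝ)} with hX
  have h2 : ∑ e ∈ JA G g u p p' ω Z, (#(mids g e ∩ A) : ℝ) =
      ∑ a ∈ A, (#{e ∈ JA G g u p p' ω Z | a ∈ mids g e} : ℝ) := by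
    have h3 : ∀ e ∈ JA G g u p p' ω Z, (#(mids g e ∩ A) : ℝ) =
        ∑ a ∈ A, if a ∈ mids g e then (1:ℝ) else 0 := by
      intro e _
      rw [Finset.sum_ite, Finset.sum_const_zero, add_zero, Finset.sum_const, nsmul_eq_mul,
        mul_one]
      congr 2
      ext a; simp only [mem_inter, mem_filter]; tauto
    rw [Finset.sum_congr rfl h3, Finset.sum_comm]
    apply Finset.sum_congr rfl
    intro a _
    rw [Finset.sum_ite, Finset.sum_const_zero, add_zero, Finset.sum_const, nsmul_eq_mul,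
        mul_one]
  rw [h2]
  calc (#A : ℝ) * (nn V * LL V / 800000) ≤ #X * (nn V * LL V / 400000) := by
        have : (0:ℝ) ≤ nn V * LL V := by positivity
        nlinarith
    _ = ∑ a ∈ X, nn V * LL V / 400000 := by rw [Finset.sum_const, nsmul_eq_mul]
    _ ≤ ∑ a ∈ X, (#{e ∈ JA G g u p p' ω Z | a ∈ mids g e} : ℝ) := by
        apply Finset.sum_le_sum
        intro a ha
        exact card_JA_ge hn hg ht hu hu' hω sdiff_subset (mem_filter.1 ha).2
    _ ≤ ∑ a ∈ A, (#{e ∈ JA G g u p p' ω Z | a ∈ mids g e} : ℝ) :=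
        Finset.sum_le_sum_of_subset_of_nonneg (filter_subset _ _)
          (fun _ _ _ => Nat.cast_nonneg _)

theorem mean_JA_ge (hG : QR G) (hn : Big (Fintype.card V)) (hg : IsSys G g) (ht : Typ G g)
    (hu : u ∈ reg G g) (hu' : u ∉ hub g)
    (hω : Good G g u p p' ω) {A : Finset V} (hA : A ⊆ Nu G g u)
    (hr : hh V / 20 ≤ (#(Nu G g u \ A) : ℝ)) :
    (#A : ℝ) * (LL V ^ 2 / 960000) ≤
      ∑ e ∈ JA G g u p p' ω (Nu G g u \ A), (#(mids g e ∩ A) : ℝ) / #(mids g e) := by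
  have hhp := hh_pos hn
  have h1 := sum_JA_ge hG hn hg ht hu hu' hω hA hr
  have h2 : (∑ e ∈ JA G g u p p' ω (Nu G g u \ A), (#(mids g e ∩ A) : ℝ)) /
      (12 / 10 * hh V) ≤
      ∑ e ∈ JA G g u p p' ω (Nu G g u \ A), (#(mids g e ∩ A) : ℝ) / #(mids g e) := by
    rw [Finset.sum_div]
    apply Finset.sum_le_sum
    intro e he
    obtain ⟨c, d, rfl, hcd, hc, hd, _, _, hb, _, _⟩ := mem_JA.1 he
    have hq : Q g c d := q_of_off hcd (mem_Vu.1 hc).2.1 (mem_Vu.1 hd).2.1 hb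
    have h3 : (#(mids g s(c, d)) : ℝ) ≤ 12 / 10 * hh V := by
      rw [mids_eq hq]
      have h4 : (#(nb g c ∩ nb g d) : ℝ) ≤ #(nb g c) := by
        exact_mod_cast card_le_card inter_subset_left
      exact h4.trans (card_nb_le hn hg ht (mem_Vu.1 hc).1 (mem_Vu.1 hc).2.1)
    rcases Nat.eq_zero_or_pos (#(mids g s(c, d))) with h0 | h0
    · have h5 : #(mids g s(c, d) ∩ A) = 0 := by
        have := card_le_card (inter_subset_left : mids g s(c, d) ∩ A ⊆ mids g s(c, d))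
        omega
      rw [h5, h0]
      simp
    · have h6 : (0:ℝ) < #(mids g s(c, d)) := by exact_mod_cast h0
      exact div_le_div_of_nonneg_left (Nat.cast_nonneg _) h6 h3
  refine le_trans ?_ h2
  rw [le_div_iff₀ (by positivity)]
  refine le_trans (le_of_eq ?_) h1
  rw [← hh_mul hn]
  ring

/-- the coordinates at u -/
def Iu (V : Type*) [Fintype V] (u : V) : Finset (Sym2 V) := univ.filter fun e => u ∈ e

theorem notMem_Iu {Z : Finset V} {e : Sym2 V} (he : e ∈ JA G g u p p' ω Z) : e ∉ Iu V u := by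
  obtain ⟨c, d, rfl, hcd, hc, hd, _, _, hb, _, _⟩ := mem_JA.1 he
  simp only [Iu, mem_filter, mem_univ, true_and, Sym2.mem_iff, not_or]
  exact ⟨(mem_Vu.1 hc).2.2.1.symm, (mem_Vu.1 hd).2.2.1.symm⟩

theorem no_hit_le (hG : QR G) (hn : Big (Fintype.card V)) (hg : IsSys G g) (ht : Typ G g)
    (hu : u ∈ reg G g) (hu' : u ∉ hub g) {ω0 : Sym2 V → V}
    (hω : Good G g u p p' ω0) {A : Finset V} (hA : A ⊆ Nu G g u)
    (hr : hh V / 20 ≤ (#(Nu G g u \ A) : ℝ)) :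
    (#{ω ∈ Fintype.piFinset (freeze (mids g) (Iu V u) ω0) |
      ∀ e ∈ JA G g u p p' ω0 (Nu G g u \ A), ω e ∉ A} : ℝ) ≤
      Real.exp (-((#A : ℝ) * (LL V ^ 2 / 960000))) *
        #(Fintype.piFinset (freeze (mids g) (Iu V u) ω0)) := by
  apply T1 (freeze (mids g) (Iu V u) ω0) (JA G g u p p' ω0 (Nu G g u \ A)) (fun _ => A)
  refine (mean_JA_ge hG hn hg ht hu hu' hω hA hr).trans (le_of_eq ?_)
  apply Finset.sum_congr rfl
  intro e he
  rw [freeze_of_notMem (notMem_Iu he)]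

/-- a crossing for A -/
def Cross (g : V → V → V) (u : V) (N A : Finset V) (p p' : Sym2 V) : Prop :=
  ∃ z ∈ N \ A, ∃ a ∈ A, ∃ c d, c ≠ d ∧ Q g u c ∧ Q g u d ∧ Q g c d ∧
      g u c = z ∧ g u d = z ∧ g c d = a ∧
      s(u, c) ≠ p ∧ s(u, c) ≠ p' ∧ s(u, d) ≠ p ∧ s(u, d) ≠ p' ∧ s(c, d) ≠ p ∧ s(c, d) ≠ p'

theorem q_Vu (hu' : u ∉ hub g) {c : V} (hc : c ∈ Vu G g u p p') : Q g u c := by
  have h := mem_Vu.1 hc
  exact q_of_off h.2.2.1.symm hu' h.2.1 h.2.2.2.1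

theorem cross_of_hit (hg : IsSys G g) (hu' : u ∉ hub g) {ω0 : Sym2 V → V}
    (h0 : ω0 ∈ Fintype.piFinset (mids g)) {A : Finset V}
    (hω : ω ∈ Fintype.piFinset (freeze (mids g) (Iu V u) ω0)) {e : Sym2 V}
    (he : e ∈ JA G g u p p' ω0 (Nu G g u \ A)) (hA : ω e ∈ A) :
    Cross (mk g ω) u (Nu G g u) A p p' := by
  obtain ⟨hω1, hω2⟩ := (mem_freeze h0).1 hω
  obtain ⟨c, d, rfl, hcd, hc, hd, h1, h2, hb, h3, h4⟩ := mem_JA.1 he
  have hqc := q_Vu hu' hc
  have hqd := q_Vu hu' hd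
  have hqcd : Q g c d := q_of_off hcd (mem_Vu.1 hc).2.1 (mem_Vu.1 hd).2.1 hb
  have hcI : ω s(u, c) = ω0 s(u, c) := hω2 _ (by simp [Iu])
  have hdI : ω s(u, d) = ω0 s(u, d) := hω2 _ (by simp [Iu])
  refine ⟨ω0 s(u, c), h2, ω s(c, d), hA, c, d, hcd, (mk_q_iff hg hω1).2 hqc,
    (mk_q_iff hg hω1).2 hqd, (mk_q_iff hg hω1).2 hqcd, ?_, ?_, ?_, ?_⟩
  · rw [mk_q hqc, hcI]
  · rw [mk_q hqd, hdI, h1]
  · rw [mk_q hqcd]
  · have hc' := (mem_Vu.1 hc).2.2.2.2.2
    have hd' := (mem_Vu.1 hd).2.2.2.2.2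
    exact ⟨hc'.1, hc'.2, hd'.1, hd'.2, h3, h4⟩

theorem good_freeze {ω0 : Sym2 V → V} (h0 : ω0 ∈ Fintype.piFinset (mids g))
    (hω : ω ∈ Fintype.piFinset (freeze (mids g) (Iu V u) ω0))
    (hgood : Good G g u p p' ω) : Good G g u p p' ω0 := by
  obtain ⟨hω1, hω2⟩ := (mem_freeze h0).1 hω
  have h1 : ∀ c, ω s(u, c) = ω0 s(u, c) := fun c => hω2 _ (by simp [Iu])
  have h2 : ∀ S Z : Finset V, SZ S u ω Z = SZ S u ω0 Z := by
    intro S Z
    ext c
    rw [mem_SZ, mem_SZ, h1]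
  obtain ⟨ha, hb, hc⟩ := hgood
  refine ⟨?_, ?_, ?_⟩
  · intro Z hZ hr
    rw [← h2]; exact ha Z hZ hr
  · intro Z hZ hr
    rw [← h2]; exact hb Z hZ hr
  · intro c hcV x
    have h3 := hc c hcV x
    simp only [h1] at h3
    exact h3

theorem no_cross_le (hG : QR G) (hn : Big (Fintype.card V)) (hg : IsSys G g) (ht : Typ G g)
    (hu : u ∈ reg G g) (hu' : u ∉ hub g) {A : Finset V} (hA : A ⊆ Nu G g u)
    (hr : hh V / 20 ≤ (#(Nu G g u \ A) : ℝ)) (p p' : Sym2 V) :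
    (#{ω ∈ Fintype.piFinset (mids g) | Good G g u p p' ω ∧
      ¬ Cross (mk g ω) u (Nu G g u) A p p'} : ℝ) ≤
      Real.exp (-((#A : ℝ) * (LL V ^ 2 / 960000))) * #(Fintype.piFinset (mids g)) := by
  apply cond_bound (mids g) (Iu V u)
  intro ω0 h0
  by_cases hgood : Good G g u p p' ω0
  · refine le_trans ?_ (no_hit_le hG hn hg ht hu hu' hgood hA hr)
    have h1 : ({ω ∈ Fintype.piFinset (freeze (mids g) (Iu V u) ω0) | Good G g u p p' ω ∧
        ¬ Cross (mk g ω) u (Nu G g u) A p p'}) ⊆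
        {ω ∈ Fintype.piFinset (freeze (mids g) (Iu V u) ω0) |
        ∀ e ∈ JA G g u p p' ω0 (Nu G g u \ A), ω e ∉ A} := by
      intro ω hω
      obtain ⟨h1, h2, h3⟩ := mem_filter.1 hω
      refine mem_filter.2 ⟨h1, fun e he hA' => h3 ?_⟩
      exact cross_of_hit hg hu' h0 h1 he hA'
    exact_mod_cast card_le_card h1
  · have h1 : ({ω ∈ Fintype.piFinset (freeze (mids g) (Iu V u) ω0) | Good G g u p p' ω ∧
        ¬ Cross (mk g ω) u (Nu G g u) A p p'}) = ∅ := by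
      apply Finset.filter_eq_empty_iff.2
      rintro ω hω ⟨h2, _⟩
      exact hgood (good_freeze h0 hω h2)
    rw [h1]
    simp only [card_empty, Nat.cast_zero]
    positivity

omit [Fintype V] in
/-- sum over the nonempty subsets -/
theorem sum_subsets_le (N : Finset V) (K : Finset (Finset V)) (hK : ∀ A ∈ K, A ⊆ N ∧ A.Nonempty)
    {x : ℝ} (hx : 0 ≤ x) (hx1 : #N * x ≤ 1 / 2) :
    ∑ A ∈ K, x ^ #A ≤ 2 * (#N * x) := by
  have h1 : ∑ A ∈ insert ∅ K, x ^ #A ≤ ∑ A ∈ N.powerset, x ^ #A := by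
    apply Finset.sum_le_sum_of_subset_of_nonneg
    · intro A hA
      rcases mem_insert.1 hA with rfl | hA
      · exact empty_mem_powerset N
      · exact mem_powerset.2 (hK A hA).1
    · intro A _ _
      positivity
  have h2 : ∑ A ∈ insert ∅ K, x ^ #A = 1 + ∑ A ∈ K, x ^ #A := by
    rw [Finset.sum_insert]
    · simp
    · intro h3
      exact not_nonempty_empty (hK _ h3).2
  have h3 : ∑ A ∈ N.powerset, x ^ #A = (x + 1) ^ #N := by
    have := Finset.sum_pow_mul_eq_add_pow x 1 N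
    simpa using this
  have h4 : (x + 1) ^ #N ≤ Real.exp (#N * x) := by
    rw [Real.exp_nat_mul]
    exact pow_le_pow_left₀ (by positivity) (Real.add_one_le_exp x) _
  have h5 : Real.exp (#N * x) ≤ 1 + 2 * (#N * x) := by
    have hy0 : 0 ≤ (#N : ℝ) * x := by positivity
    have h6 := Real.exp_bound_div_one_sub_of_interval hy0 (by linarith)
    refine h6.trans ?_
    rw [div_le_iff₀ (by linarith)]
    nlinarith
  linarith

theorem part2 (hG : QR G) (hn : Big (Fintype.card V)) (hg : IsSys G g) (ht : Typ G g)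
    (hu : u ∈ reg G g) (hu' : u ∉ hub g) (p p' : Sym2 V) :
    (#{ω ∈ Fintype.piFinset (mids g) | ∃ A ∈ (Nu G g u).powerset.filter (fun A =>
      A.Nonempty ∧ hh V / 20 ≤ (#(Nu G g u \ A) : ℝ)), Good G g u p p' ω ∧
      ¬ Cross (mk g ω) u (Nu G g u) A p p'} : ℝ) ≤
      Real.exp (-(8 * LL V)) * #(Fintype.piFinset (mids g)) := by
  have hLp := LL_pos hn
  have hLg := LL_ge hn
  refine (card_filter_exists_le _ _ _).trans ?_
  have h1 : ∀ A ∈ (Nu G g u).powerset.filter (fun A =>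
      A.Nonempty ∧ hh V / 20 ≤ (#(Nu G g u \ A) : ℝ)),
      (#{ω ∈ Fintype.piFinset (mids g) | Good G g u p p' ω ∧
      ¬ Cross (mk g ω) u (Nu G g u) A p p'} : ℝ) ≤
      Real.exp (-(LL V ^ 2 / 960000)) ^ #A * #(Fintype.piFinset (mids g)) := by
    intro A hA
    obtain ⟨h2, h3, h4⟩ := mem_filter.1 hA
    have h5 := no_cross_le hG hn hg ht hu hu' (mem_powerset.1 h2) h4 p p'
    refine h5.trans (le_of_eq ?_)
    congr 1
    rw [← Real.exp_nat_mul]
    congr 1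
    ring
  refine (Finset.sum_le_sum h1).trans ?_
  rw [← Finset.sum_mul]
  apply mul_le_mul_of_nonneg_right _ (Nat.cast_nonneg _)
  have h6 : (#(Nu G g u) : ℝ) ≤ Real.exp (LL V) := by
    rw [← nn_eq_exp hn]
    unfold nn
    exact_mod_cast card_le_univ _
  have h7 : (#(Nu G g u) : ℝ) * Real.exp (-(LL V ^ 2 / 960000)) ≤
      Real.exp (-(9 * LL V)) := by
    calc (#(Nu G g u) : ℝ) * Real.exp (-(LL V ^ 2 / 960000))
        ≤ Real.exp (LL V) * Real.exp (-(LL V ^ 2 / 960000)) :=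
          mul_le_mul_of_nonneg_right h6 (Real.exp_pos _).le
      _ = Real.exp (LL V - LL V ^ 2 / 960000) := by rw [← Real.exp_add]; ring_nf
      _ ≤ Real.exp (-(9 * LL V)) := by
          apply Real.exp_le_exp.2
          have h8 : (10:ℝ) ^ 100 * LL V ≤ LL V * LL V := mul_le_mul_of_nonneg_right hLg hLp.le
          norm_num at h8
          nlinarith
  have h8 : Real.exp (-(9 * LL V)) ≤ 1 / 2 * Real.exp (-(8 * LL V)) := by
    have h9 : Real.exp (-(9 * LL V)) = Real.exp (-LL V) * Real.exp (-(8 * LL V)) := by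
      rw [← Real.exp_add]; ring_nf
    rw [h9]
    apply mul_le_mul_of_nonneg_right _ (Real.exp_pos _).le
    rw [Real.exp_neg, one_div]
    apply inv_anti₀ (by norm_num)
    have := Real.add_one_le_exp (LL V)
    have h10 : (1:ℝ) ≤ LL V := one_le_LL hn
    linarith
  have h9 : Real.exp (-(8 * LL V)) ≤ 1 := by
    rw [Real.exp_le_one_iff]; linarith
  have h10 := sum_subsets_le (Nu G g u) ((Nu G g u).powerset.filter (fun A =>
      A.Nonempty ∧ hh V / 20 ≤ (#(Nu G g u \ A) : ℝ))) (by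
        intro A hA
        obtain ⟨h2, h3, h4⟩ := mem_filter.1 hA
        exact ⟨mem_powerset.1 h2, h3⟩) (Real.exp_pos (-(LL V ^ 2 / 960000))).le
        (by linarith)
  linarith

/-- all crossings at u for the pairs p, p' -/
theorem not_cross_le (hG : QR G) (hn : Big (Fintype.card V)) (hg : IsSys G g) (ht : Typ G g)
    (hu : u ∈ reg G g) (hu' : u ∉ hub g) (p p' : Sym2 V)
    (h1 : (#{ω ∈ Fintype.piFinset (mids g) | ¬ Good G g u p p' ω} : ℝ) ≤
      Real.exp (-(8 * LL V)) * #(Fintype.piFinset (mids g))) :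
    (#{ω ∈ Fintype.piFinset (mids g) | ¬ ∀ A ⊆ Nu G g u, A.Nonempty →
      hh V / 20 ≤ (#(Nu G g u \ A) : ℝ) → Cross (mk g ω) u (Nu G g u) A p p'} : ℝ) ≤
      2 * Real.exp (-(8 * LL V)) * #(Fintype.piFinset (mids g)) := by
  have h2 := part2 hG hn hg ht hu hu' p p'
  have h3 : ({ω ∈ Fintype.piFinset (mids g) | ¬ ∀ A ⊆ Nu G g u, A.Nonempty →
      hh V / 20 ≤ (#(Nu G g u \ A) : ℝ) → Cross (mk g ω) u (Nu G g u) A p p'}) ⊆
      {ω ∈ Fintype.piFinset (mids g) | ¬ Good G g u p p' ω} ∪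
      {ω ∈ Fintype.piFinset (mids g) | ∃ A ∈ (Nu G g u).powerset.filter (fun A =>
      A.Nonempty ∧ hh V / 20 ≤ (#(Nu G g u \ A) : ℝ)), Good G g u p p' ω ∧
      ¬ Cross (mk g ω) u (Nu G g u) A p p'} := by
    intro ω hω
    obtain ⟨h4, h5⟩ := mem_filter.1 hω
    by_cases h6 : Good G g u p p' ω
    · apply mem_union_right
      push Not at h5
      obtain ⟨A, hA1, hA2, hA3, hA4⟩ := h5
      exact mem_filter.2 ⟨h4, A, mem_filter.2 ⟨mem_powerset.2 hA1, hA2, hA3⟩, h6, hA4⟩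
    · exact mem_union_left _ (mem_filter.2 ⟨h4, h6⟩)
  have h4 := (card_le_card h3).trans (card_union_le _ _)
  have h5 : (#{ω ∈ Fintype.piFinset (mids g) | ¬ ∀ A ⊆ Nu G g u, A.Nonempty →
      hh V / 20 ≤ (#(Nu G g u \ A) : ℝ) → Cross (mk g ω) u (Nu G g u) A p p'} : ℝ) ≤
      (#{ω ∈ Fintype.piFinset (mids g) | ¬ Good G g u p p' ω} : ℝ) +
      #{ω ∈ Fintype.piFinset (mids g) | ∃ A ∈ (Nu G g u).powerset.filter (fun A =>
      A.Nonempty ∧ hh V / 20 ≤ (#(Nu G g u \ A) : ℝ)), Good G g u p p' ω ∧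
      ¬ Cross (mk g ω) u (Nu G g u) A p p'} := by exact_mod_cast h4
  linarith

theorem card_sym2_le (V : Type*) [Fintype V] : (#(univ : Finset (Sym2 V)) : ℝ) ≤ nn V ^ 2 := by
  have h1 : Fintype.card (Sym2 V) ≤ Fintype.card (V × V) :=
    Fintype.card_le_of_surjective (fun q : V × V => s(q.1, q.2)) (by
      intro e
      induction e using Sym2.ind with
      | _ a b => exact ⟨(a, b), rfl⟩)
  rw [Fintype.card_prod] at h1
  rw [card_univ]
  unfold nn
  rw [sq]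
  exact_mod_cast h1

theorem lemma6_of (hG : QR G) (hn : Big (Fintype.card V)) (hg : IsSys G g) (ht : Typ G g)
    (h1 : ∀ u ∈ reg G g, u ∉ hub g → ∀ p p' : Sym2 V,
      (#{ω ∈ Fintype.piFinset (mids g) | ¬ Good G g u p p' ω} : ℝ) ≤
      Real.exp (-(8 * LL V)) * #(Fintype.piFinset (mids g))) :
    (#{ω ∈ Fintype.piFinset (mids g) | ¬ ∀ u ∈ reg G g \ hub g,
      SCross (mk g ω) u (nb g u ∩ hubr G g) (hh V / 20)} : ℝ) ≤
      1 / nn V * #(Fintype.piFinset (mids g)) := by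
  have hnp := nn_pos hn
  have hLp := LL_pos hn
  set K : Finset (V × Sym2 V × Sym2 V) := (reg G g \ hub g) ×ˢ univ with hK
  have h2 : ({ω ∈ Fintype.piFinset (mids g) | ¬ ∀ u ∈ reg G g \ hub g,
      SCross (mk g ω) u (nb g u ∩ hubr G g) (hh V / 20)}) ⊆
      {ω ∈ Fintype.piFinset (mids g) | ∃ k ∈ K, ¬ ∀ A ⊆ Nu G g k.1, A.Nonempty →
      hh V / 20 ≤ (#(Nu G g k.1 \ A) : ℝ) →
      Cross (mk g ω) k.1 (Nu G g k.1) A k.2.1 k.2.2} := by
    intro ω hω
    obtain ⟨h3, h4⟩ := mem_filter.1 hω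
    push Not at h4
    obtain ⟨u, hu, h5⟩ := h4
    unfold SCross at h5
    push Not at h5
    obtain ⟨A, hA1, hA2, hA3, p, p', h6⟩ := h5
    refine mem_filter.2 ⟨h3, (u, p, p'), mem_product.2 ⟨hu, mem_univ _⟩, ?_⟩
    intro h7
    obtain ⟨z, hz, a, ha, c, d, h8⟩ := h7 A hA1 hA2 hA3
    obtain ⟨k1, k2, k3, k4, k5, k6, k7, k8, k9, k10, k11, k12, k13⟩ := h8
    exact k13 (h6 z hz a ha c d k1 k2 k3 k4 k5 k6 k7 k8 k9 k10 k11 k12)
  have h3 := card_filter_exists_le (Fintype.piFinset (mids g)) K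
    (fun k ω => ¬ ∀ A ⊆ Nu G g k.1, A.Nonempty →
      hh V / 20 ≤ (#(Nu G g k.1 \ A) : ℝ) →
      Cross (mk g ω) k.1 (Nu G g k.1) A k.2.1 k.2.2)
  have h4 : (#{ω ∈ Fintype.piFinset (mids g) | ¬ ∀ u ∈ reg G g \ hub g,
      SCross (mk g ω) u (nb g u ∩ hubr G g) (hh V / 20)} : ℝ) ≤
      ∑ k ∈ K, 2 * Real.exp (-(8 * LL V)) * #(Fintype.piFinset (mids g)) := by
    refine le_trans (by exact_mod_cast card_le_card h2) (h3.trans ?_)
    apply Finset.sum_le_sum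
    rintro ⟨u, p, p'⟩ hk
    obtain ⟨hu, hu'⟩ := mem_sdiff.1 (mem_product.1 hk).1
    exact not_cross_le hG hn hg ht hu hu' p p' (h1 u hu hu' p p')
  refine h4.trans ?_
  rw [Finset.sum_const, nsmul_eq_mul, ← mul_assoc]
  apply mul_le_mul_of_nonneg_right _ (Nat.cast_nonneg _)
  have h5 : (#K : ℝ) ≤ nn V ^ 5 := by
    rw [hK, card_product]
    have h6 : #(univ : Finset (Sym2 V × Sym2 V)) =
        #(univ : Finset (Sym2 V)) * #(univ : Finset (Sym2 V)) := by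
      rw [← univ_product_univ, card_product]
    rw [h6]
    push_cast
    have h7 := card_sym2_le V
    have h8 : (#(reg G g \ hub g) : ℝ) ≤ nn V := by
      unfold nn; exact_mod_cast card_le_univ _
    calc (#(reg G g \ hub g) : ℝ) * (#(univ : Finset (Sym2 V)) * #(univ : Finset (Sym2 V)))
        ≤ nn V * (nn V ^ 2 * nn V ^ 2) := by
          apply mul_le_mul h8 _ (by positivity) hnp.le
          exact mul_le_mul h7 h7 (by positivity) (by positivity)
      _ = nn V ^ 5 := by ring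
  have h6 : Real.exp (-(8 * LL V)) = 1 / nn V ^ 8 := by
    rw [nn_eq_exp hn, Real.exp_neg, ← Real.exp_nat_mul, one_div]
    norm_num
  rw [h6]
  have h7 : 2 ≤ nn V := by
    rw [nn_eq_exp hn]
    have := Real.add_one_le_exp (LL V)
    have h10 : (1:ℝ) ≤ LL V := one_le_LL hn
    linarith
  calc (#K : ℝ) * (2 * (1 / nn V ^ 8)) ≤ nn V ^ 5 * (2 * (1 / nn V ^ 8)) :=
        mul_le_mul_of_nonneg_right h5 (by positivity)
    _ = 2 / nn V ^ 3 := by field_simp
    _ ≤ 1 / nn V := by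
        rw [div_le_div_iff₀ (by positivity) hnp]
        nlinarith [sq_nonneg (nn V), mul_pos hnp hnp]

end main

end

end L6

end CEB
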