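import Pool.Agent.Work.MP_ceb7a8_co.L6B
import Pool.Agent.Work.MP_ceb7a8_co.ProdTools

/-!
Lemma 6, events at u.
-/

namespace CEB

namespace L6

open Finset Rg

noncomputable section

open scoped Classical

section main

variable {V : Type*} [Fintype V] {G : SimpleGraph V} {g : V → V → V} {u : V}
  {p p' : Sym2 V}

omit [Fintype V] in
theorem inj_s (u : V) : Function.Injective (fun d : V => s(u, d)) := by
  intro d d' h
  rcases Sym2.eq_iff.1 h with ⟨_, h3⟩ | ⟨h3, h4⟩
  · exact h3
  · rw [h4, ← h3]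

omit [Fintype V] in
theorem hits_image (u : V) (S : Finset V) (Y : Finset V) (ω : Sym2 V → V) :
    hits (S.image (fun d => s(u, d))) (fun _ => Y) ω = #{d ∈ S | ω s(u, d) ∈ Y} := by
  unfold hits
  rw [filter_image, card_image_of_injective _ (inj_s u)]

theorem mids_Vu_ge (hn : Big (Fintype.card V)) (ht : Typ G g)
    (hu : u ∈ reg G g) (hu' : u ∉ hub g) {c : V} (hc : c ∈ Vu G g u p p') :
    23 / 100 * hh V ≤ (#(mids g s(u, c)) : ℝ) := by
  have h := mem_Vu.1 hc
  rw [mids_eq (q_Vu hu' hc)]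
  exact card_mids_ge hn ht hu h.1 h.2.2.2.2.1

theorem mids_Vu_le (hn : Big (Fintype.card V)) (hg : IsSys G g) (ht : Typ G g)
    (hu : u ∈ reg G g) (hu' : u ∉ hub g) {c : V} (hc : c ∈ Vu G g u p p') :
    (#(mids g s(u, c)) : ℝ) ≤ 12 / 10 * hh V := by
  rw [mids_eq (q_Vu hu' hc)]
  have h4 : (#(nb g u ∩ nb g c) : ℝ) ≤ #(nb g u) := by
    exact_mod_cast card_le_card inter_subset_left
  exact h4.trans (card_nb_le hn hg ht hu hu')

theorem card_Vu_ge (hG : QR G) (hn : Big (Fintype.card V)) (ht : Typ G g)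
    (hu : u ∈ reg G g) : nn V - 2 * hh V ≤ (#(Vu G g u p p') : ℝ) := by
  have hhp := hh_pos hn
  have h1 : (univ : Finset V) ⊆ Vu G g u p p' ∪ ((univ \ reg G g) ∪ (hub g ∪ (({u} : Finset V) ∪
      (bad G g u ∪ (exc G g u ∪ ({d ∈ (univ : Finset V) | s(u, d) = p} ∪
        {d ∈ (univ : Finset V) | s(u, d) = p'})))))) := by
    intro c _
    by_contra h
    simp only [mem_union, mem_sdiff, mem_univ, true_and, mem_singleton, mem_filter, not_or,
      not_not] at h
    obtain ⟨h1, h2, h3, h4, h5, h6, h7, h8⟩ := h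
    exact h1 (mem_Vu.2 ⟨h2, h3, h4, h5, h6, h7, h8⟩)
  have h2 := card_le_card h1
  have h3 : #(univ : Finset V) ≤ #(Vu G g u p p') + (#(univ \ reg G g) + (#(hub g) + (1 +
      (#(bad G g u) + (#(exc G g u) + (#{d ∈ (univ : Finset V) | s(u, d) = p} +
        #{d ∈ (univ : Finset V) | s(u, d) = p'})))))) := by
    refine h2.trans ((card_union_le _ _).trans (Nat.add_le_add_left ?_ _))
    refine (card_union_le _ _).trans (Nat.add_le_add_left ?_ _)
    refine (card_union_le _ _).trans (Nat.add_le_add_left ?_ _)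
    refine (card_union_le _ _).trans (Nat.add_le_add (card_singleton u).le ?_)
    refine (card_union_le _ _).trans (Nat.add_le_add_left ?_ _)
    refine (card_union_le _ _).trans (Nat.add_le_add_left ?_ _)
    exact card_union_le _ _
  have h4 := card_eq_pair_le u (univ : Finset V) p
  have h5 := card_eq_pair_le u (univ : Finset V) p'
  have h6 : nn V ≤ #(Vu G g u p p') + (#(univ \ reg G g) + (#(hub g) + (1 +
      (#(bad G g u) + (#(exc G g u) + 2))))) := by
    unfold nn
    rw [← card_univ]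
    exact_mod_cast h3.trans (by omega)
  have h7 := card_irr_le hG hn ht
  have h8 := card_exc_le hG hn ht hu
  have h9 := card_bad_le hu
  have h10 := ht.s2
  have h11 := CEB.Rg.jj_le hn
  have h12 := CEB.Rg.rho_le hn
  have h13 := CEB.Rg.LL_le_rho hn
  have h14 : hh V / 10 ^ 50 ≤ hh V / 100 :=
    div_le_div_of_nonneg_left hhp.le (by norm_num) (by norm_num)
  have h15 : hh V / 10 ^ 60 ≤ hh V / 100 :=
    div_le_div_of_nonneg_left hhp.le (by norm_num) (by norm_num)
  have h16 : (1:ℝ) ≤ hh V / 100 := by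
    have := big_rho hn
    linarith
  have h17 : nn V ^ (1 - CEB.sig / 2) / 10 ^ 60 ≤ nn V ^ (1 - CEB.sig / 2) / 10 ^ 6 :=
    div_le_div_of_nonneg_left (rho_pos hn).le (by norm_num) (by norm_num)
  have h18 : 10 ^ 6 * LL V ≤ nn V ^ (1 - CEB.sig / 2) := by
    norm_num at h17 ⊢
    linarith
  linarith

/-- event (c) -/
theorem ev_c (hn : Big (Fintype.card V)) (ht : Typ G g)
    (hu : u ∈ reg G g) (hu' : u ∉ hub g) (p p' : Sym2 V) :
    (#{ω ∈ Fintype.piFinset (mids g) | ∃ k ∈ (Vu G g u p p') ×ˢ (univ : Finset V),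
      (10 ^ 9 : ℕ) ≤ hits (((Vu G g u p p').filter fun d => d ∈ bad G g k.1).image
        (fun d => s(u, d))) (fun _ => {k.2}) ω} : ℝ) ≤
      Real.exp (-(20 * LL V)) * #(Fintype.piFinset (mids g)) := by
  have hnp := nn_pos hn
  have hhp := hh_pos hn
  have hLp := LL_pos hn
  refine (card_filter_exists_le _ _ _).trans ?_
  set ρ := nn V ^ (1 - CEB.sig / 2) with hρ
  have hρp : 0 < ρ := rho_pos hn
  set q : ℝ := 1 / (23 / 100 * hh V) with hq
  have hqp : 0 < q := by rw [hq]; positivity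
  have h1 : ρ * q ≤ Real.exp (-(CEB.sig / 4 * LL V)) := by
    have e1 : ρ = nn V * Real.exp (-(CEB.sig / 2 * LL V)) := by
      rw [hρ, Real.rpow_sub hnp, Real.rpow_one, Real.exp_neg, div_eq_mul_inv]
      congr 1
      rw [Real.rpow_def_of_pos hnp, LL, mul_comm]
    have e2 : ρ * q = (100 / 23 * LL V) * Real.exp (-(CEB.sig / 2 * LL V)) := by
      rw [e1, hq, ← hh_mul hn]
      field_simp
    rw [e2]
    have e3 : Real.exp (-(CEB.sig / 2 * LL V)) =
        Real.exp (-(CEB.sig / 4 * LL V)) * Real.exp (-(CEB.sig / 4 * LL V)) := by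
      rw [← Real.exp_add]; ring_nf
    rw [e3, ← mul_assoc]
    apply mul_le_of_le_one_left (Real.exp_pos _).le
    rw [Real.exp_neg, ← div_eq_mul_inv, div_le_one (Real.exp_pos _)]
    have e4 : (CEB.sig / 4 * LL V) ^ 2 / 2 ≤ Real.exp (CEB.sig / 4 * LL V) :=
      sq_half_le_exp (by unfold CEB.sig; positivity)
    refine le_trans ?_ e4
    have e5 : (CEB.sig / 4 * LL V) ^ 2 / 2 = LL V * (LL V / (32 * 10 ^ 14)) := by
      unfold CEB.sig; ring
    rw [e5, mul_comm]
    apply mul_le_mul_of_nonneg_left _ hLp.le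
    rw [le_div_iff₀ (by norm_num)]
    exact le_trans (by norm_num) (LL_ge hn)
  have h2 : ∀ k ∈ (Vu G g u p p') ×ˢ (univ : Finset V),
      (#{ω ∈ Fintype.piFinset (mids g) |
      (10 ^ 9 : ℕ) ≤ hits (((Vu G g u p p').filter fun d => d ∈ bad G g k.1).image
        (fun d => s(u, d))) (fun _ => {k.2}) ω} : ℝ) ≤
      Real.exp (-(22 * LL V)) * #(Fintype.piFinset (mids g)) := by
    rintro ⟨c, x⟩ hk
    have hc := (mem_product.1 hk).1
    have h3 := T3 (mids g) (((Vu G g u p p').filter fun d => d ∈ bad G g c).image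
        (fun d => s(u, d))) (fun _ => {x}) (p := q) (by
        intro e he
        obtain ⟨d, hd, rfl⟩ := mem_image.1 he
        have h4 := mids_Vu_ge hn ht hu hu' (mem_filter.1 hd).1
        have h5 : (#(mids g s(u, d) ∩ {x}) : ℝ) ≤ 1 := by
          have := card_le_card (inter_subset_right : mids g s(u, d) ∩ {x} ⊆ {x})
          rw [card_singleton] at this
          exact_mod_cast this
        refine h5.trans ?_
        rw [hq, one_div, inv_mul_eq_div, le_div_iff₀ (by positivity)]
        linarith) (10 ^ 9)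
    refine h3.trans ?_
    apply mul_le_mul_of_nonneg_right _ (Nat.cast_nonneg _)
    have h6 : (#(((Vu G g u p p').filter fun d => d ∈ bad G g c).image
        (fun d => s(u, d))) : ℝ) ≤ ρ := by
      rw [card_image_of_injective _ (inj_s u)]
      have h7 : #((Vu G g u p p').filter fun d => d ∈ bad G g c) ≤ #(bad G g c) :=
        card_le_card (fun d hd => (mem_filter.1 hd).2)
      have h8 := card_bad_le (mem_Vu.1 hc).1
      exact le_trans (by exact_mod_cast h7) h8
    set m := #(((Vu G g u p p').filter fun d => d ∈ bad G g c).image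
        (fun d => s(u, d))) with hm
    have h7 : ((m.choose (10 ^ 9) : ℕ) : ℝ) ≤ (m : ℝ) ^ (10 ^ 9) := by
      exact_mod_cast Nat.choose_le_pow m (10 ^ 9)
    calc ((m.choose (10 ^ 9) : ℕ) : ℝ) * q ^ (10 ^ 9) ≤ (m : ℝ) ^ (10 ^ 9) * q ^ (10 ^ 9) :=
          mul_le_mul_of_nonneg_right h7 (by positivity)
      _ = (m * q) ^ (10 ^ 9) := by rw [mul_pow]
      _ ≤ (ρ * q) ^ (10 ^ 9) := by
          apply pow_le_pow_left₀ (by positivity)
          exact mul_le_mul_of_nonneg_right h6 hqp.le
      _ ≤ Real.exp (-(CEB.sig / 4 * LL V)) ^ (10 ^ 9) :=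
          pow_le_pow_left₀ (by positivity) h1 _
      _ = Real.exp (-(25 * LL V)) := by
          rw [← Real.exp_nat_mul]
          congr 1
          unfold CEB.sig
          push_cast
          ring
      _ ≤ Real.exp (-(22 * LL V)) := by
          apply Real.exp_le_exp.2; linarith
  refine (Finset.sum_le_sum h2).trans ?_
  rw [Finset.sum_const, nsmul_eq_mul, ← mul_assoc]
  apply mul_le_mul_of_nonneg_right _ (Nat.cast_nonneg _)
  have h3 : (#((Vu G g u p p') ×ˢ (univ : Finset V)) : ℝ) ≤ Real.exp (2 * LL V) := by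
    rw [card_product]
    push_cast
    have e1 : (#(Vu G g u p p') : ℝ) ≤ nn V := by unfold nn; exact_mod_cast card_le_univ _
    have e2 : (#(univ : Finset V) : ℝ) = nn V := by unfold nn; rw [card_univ]
    have e3 : Real.exp (2 * LL V) = nn V * nn V := by
      rw [nn_eq_exp hn, ← Real.exp_add]; ring_nf
    rw [e2, e3]
    exact mul_le_mul_of_nonneg_right e1 hnp.le
  calc (#((Vu G g u p p') ×ˢ (univ : Finset V)) : ℝ) * Real.exp (-(22 * LL V))
      ≤ Real.exp (2 * LL V) * Real.exp (-(22 * LL V)) :=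
        mul_le_mul_of_nonneg_right h3 (Real.exp_pos _).le
    _ = Real.exp (-(20 * LL V)) := by rw [← Real.exp_add]; ring_nf

end main

end

end L6

end CEB
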