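import Pool.Agent.Work.MP_ceb7a8_co.L6C

/-!
Lemma 6, event (a).
-/

namespace CEB

namespace L6

open Finset Rg

noncomputable section

open scoped Classical

section main

variable {V : Type*} [Fintype V] {G : SimpleGraph V} {g : V → V → V} {u : V}
  {p p' : Sym2 V}

/-- mean of the number of c with middle vertex in Z -/
theorem mean_a (hG : QR G) (hn : Big (Fintype.card V)) (hg : IsSys G g) (ht : Typ G g)
    (hu : u ∈ reg G g) (hu' : u ∉ hub g) {Z : Finset V} (hZ : Z ⊆ Nu G g u)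
    (hr : hh V / 20 ≤ (#Z : ℝ)) :
    nn V / 60 ≤ ∑ i ∈ (Vu G g u p p').image (fun d => s(u, d)),
      (#(mids g i ∩ Z) : ℝ) / #(mids g i) := by
  have hnp := nn_pos hn
  have hhp := hh_pos hn
  have hhn := CEB.Rg.hh_le hn
  rw [Finset.sum_image (fun c _ d _ h => inj_s u h)]
  have h1 : ∀ c ∈ Vu G g u p p', (#(nb g c ∩ Z) : ℝ) / (12 / 10 * hh V) ≤
      (#(mids g s(u, c) ∩ Z) : ℝ) / #(mids g s(u, c)) := by
    intro c hc
    have h2 := mids_Vu_le hn hg ht hu hu' hc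
    have h3 := mids_Vu_ge hn ht hu hu' hc
    have h4 : nb g c ∩ Z ⊆ mids g s(u, c) ∩ Z := by
      rw [mids_eq (q_Vu hu' hc)]
      intro x hx
      obtain ⟨h5, h6⟩ := mem_inter.1 hx
      exact mem_inter.2 ⟨mem_inter.2 ⟨(mem_inter.1 (hZ h6)).1, h5⟩, h6⟩
    have h5 : (#(nb g c ∩ Z) : ℝ) ≤ #(mids g s(u, c) ∩ Z) := by
      exact_mod_cast card_le_card h4
    have h6 : (0:ℝ) < #(mids g s(u, c)) := lt_of_lt_of_le (by positivity) h3
    exact div_le_div₀ (Nat.cast_nonneg _) h5 h6 h2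
  refine le_trans ?_ (Finset.sum_le_sum h1)
  rw [← Finset.sum_div, le_div_iff₀ (by positivity)]
  have h2 : ∑ c ∈ Vu G g u p p', (#(nb g c ∩ Z) : ℝ) =
      ∑ z ∈ Z, (#(nb g z ∩ Vu G g u p p') : ℝ) := by
    have h3 : ∀ c ∈ Vu G g u p p', (#(nb g c ∩ Z) : ℝ) =
        ∑ z ∈ Z, if Used g c z then (1:ℝ) else 0 := by
      intro c _
      rw [Finset.sum_ite, Finset.sum_const_zero, add_zero, Finset.sum_const, nsmul_eq_mul,
        mul_one]
      congr 2
      ext a; simp only [mem_inter, mem_filter, mem_nb]; tauto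
    rw [Finset.sum_congr rfl h3, Finset.sum_comm]
    apply Finset.sum_congr rfl
    intro z _
    rw [Finset.sum_ite, Finset.sum_const_zero, add_zero, Finset.sum_const, nsmul_eq_mul,
        mul_one]
    congr 2
    ext a; simp only [mem_inter, mem_filter, mem_nb, hg.used_comm (u := a) (v := z)]; tauto
  rw [h2]
  have h3 : ∀ z ∈ Z, 4 / 10 * nn V ≤ (#(nb g z ∩ Vu G g u p p') : ℝ) := by
    intro z hz
    have h4 : 9 / 20 * nn V ≤ (#(nb g z) : ℝ) := mem_hub.1 (mem_Nu.1 (hZ hz)).2.1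
    have h5 := card_Vu_ge (p := p) (p' := p') hG hn ht hu
    have h6 : #(nb g z) + #(Vu G g u p p') = #(nb g z ∪ Vu G g u p p') +
        #(nb g z ∩ Vu G g u p p') := (card_union_add_card_inter _ _).symm
    have h7 : (#(nb g z ∪ Vu G g u p p') : ℝ) ≤ nn V := by
      unfold nn
      exact_mod_cast card_le_univ _
    have h8 : (#(nb g z) : ℝ) + #(Vu G g u p p') = #(nb g z ∪ Vu G g u p p') +
        #(nb g z ∩ Vu G g u p p') := by exact_mod_cast h6
    have h9 : nn V / 10 ^ 90 ≤ nn V / 100 :=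
      div_le_div_of_nonneg_left hnp.le (by norm_num) (by norm_num)
    linarith
  have h4 : (#Z : ℝ) * (4 / 10 * nn V) ≤ ∑ z ∈ Z, (#(nb g z ∩ Vu G g u p p') : ℝ) := by
    rw [← nsmul_eq_mul]
    exact Finset.card_nsmul_le_sum _ _ _ h3
  have h5 : hh V / 20 * (4 / 10 * nn V) ≤ (#Z : ℝ) * (4 / 10 * nn V) :=
    mul_le_mul_of_nonneg_right hr (by positivity)
  refine le_trans (le_of_eq ?_) (h5.trans h4)
  ring

/-- event (a) -/
theorem ev_a (hG : QR G) (hn : Big (Fintype.card V)) (hg : IsSys G g) (ht : Typ G g)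
    (hu : u ∈ reg G g) (hu' : u ∉ hub g) (p p' : Sym2 V) :
    (#{ω ∈ Fintype.piFinset (mids g) | ∃ Z ∈ (Nu G g u).powerset.filter (fun Z =>
      hh V / 20 ≤ (#Z : ℝ)), (hits ((Vu G g u p p').image (fun d => s(u, d)))
        (fun _ => Z) ω : ℝ) ≤ nn V / 60 / 2} : ℝ) ≤
      Real.exp (-(20 * LL V)) * #(Fintype.piFinset (mids g)) := by
  have hnp := nn_pos hn
  have hhp := hh_pos hn
  have hLp := LL_pos hn
  refine (card_filter_exists_le _ _ _).trans ?_
  have h2 : ∀ Z ∈ (Nu G g u).powerset.filter (fun Z => hh V / 20 ≤ (#Z : ℝ)),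
      (#{ω ∈ Fintype.piFinset (mids g) | (hits ((Vu G g u p p').image (fun d => s(u, d)))
        (fun _ => Z) ω : ℝ) ≤ nn V / 60 / 2} : ℝ) ≤
      Real.exp (-(nn V / 60) / 8) * #(Fintype.piFinset (mids g)) := by
    intro Z hZ
    obtain ⟨h3, h4⟩ := mem_filter.1 hZ
    exact T2 (mids g) _ (fun _ => Z) (mean_a hG hn hg ht hu hu' (mem_powerset.1 h3) h4)
  refine (Finset.sum_le_sum h2).trans ?_
  rw [Finset.sum_const, nsmul_eq_mul, ← mul_assoc]
  apply mul_le_mul_of_nonneg_right _ (Nat.cast_nonneg _)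
  have h3 : (#((Nu G g u).powerset.filter (fun Z => hh V / 20 ≤ (#Z : ℝ))) : ℝ) ≤
      Real.exp (12 / 10 * hh V) := by
    have e1 : #((Nu G g u).powerset.filter (fun Z => hh V / 20 ≤ (#Z : ℝ))) ≤
        2 ^ #(Nu G g u) := by
      rw [← card_powerset]
      exact card_filter_le _ _
    have e2 : (#(Nu G g u) : ℝ) ≤ 12 / 10 * hh V := by
      have : (#(Nu G g u) : ℝ) ≤ #(nb g u) := by
        exact_mod_cast card_le_card inter_subset_left
      exact this.trans (card_nb_le hn hg ht hu hu')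
    have e3 : (2:ℝ) ^ #(Nu G g u) ≤ Real.exp (#(Nu G g u)) := by
      have := Real.add_one_le_exp (1:ℝ)
      calc (2:ℝ) ^ #(Nu G g u) ≤ Real.exp 1 ^ #(Nu G g u) :=
            pow_le_pow_left₀ (by norm_num) (by linarith) _
        _ = Real.exp (#(Nu G g u)) := by rw [← Real.exp_nat_mul, mul_one]
    calc (#((Nu G g u).powerset.filter (fun Z => hh V / 20 ≤ (#Z : ℝ))) : ℝ)
        ≤ (2:ℝ) ^ #(Nu G g u) := by exact_mod_cast e1
      _ ≤ Real.exp (#(Nu G g u)) := e3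
      _ ≤ Real.exp (12 / 10 * hh V) := Real.exp_le_exp.2 e2
  refine (mul_le_mul_of_nonneg_right h3 (Real.exp_pos _).le).trans ?_
  rw [← Real.exp_add]
  apply Real.exp_le_exp.2
  have h4 := CEB.Rg.hh_le hn
  have h5 := CEB.Rg.LL_le_rho hn
  have h6 := rho_le_n hn
  have h7 : nn V / 10 ^ 90 ≤ nn V / 10 ^ 6 :=
    div_le_div_of_nonneg_left hnp.le (by norm_num) (by norm_num)
  have h8 : nn V / 10 ^ 60 ≤ nn V / 10 ^ 6 :=
    div_le_div_of_nonneg_left hnp.le (by norm_num) (by norm_num)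
  have h9 : nn V ^ (1 - CEB.sig / 2) / 10 ^ 60 ≤ nn V ^ (1 - CEB.sig / 2) :=
    div_le_self (rho_pos hn).le (by norm_num)
  have h10 : LL V ≤ nn V / 10 ^ 6 := by linarith
  have h11 : hh V ≤ nn V / 10 ^ 6 := by linarith
  norm_num at h10 h11
  linarith

end main

end

end L6

end CEB
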