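import Pool.Agent.Work.MP_ceb7a8_co.Sys

/-!
Rigidity of metrizable systems (Lemma 7) and the claim that a switched system determines the
switched pair.  Author: helper43.
-/

namespace CEB

open Finset

variable {V : Type*}

/-- The data of a metric for g: edge weights w and distances D. -/
def MetrWith (G : SimpleGraph V) (g : V → V → V) (w D : V → V → ℝ) : Prop :=
  (∀ u v, w u v = w v u) ∧ (∀ u v, G.Adj u v → 0 < w u v) ∧
    (∀ u, D u u = 0) ∧ (∀ u v, u ≠ v → D u v = w u (g u v) + D (g u v) v) ∧
    (∀ u v x, G.Adj u x → D u v ≤ w u x + D x v)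

theorem metr_iff {G : SimpleGraph V} {g : V → V → V} :
    Metr G g ↔ ∃ w D, MetrWith G g w D := Iff.rfl

namespace MetrWith

variable {G : SimpleGraph V} {g : V → V → V} {w D : V → V → ℝ}

/-- Distances between distinct points are positive. -/
theorem pos (hm : MetrWith G g w D) (h : IsSys G g) {u v : V} (huv : u ≠ v) : 0 < D u v := by
  obtain ⟨_, h2, h3, h4, _⟩ := hm
  obtain ⟨d, hd⟩ := h.len
  have key : ∀ n : ℕ, ∀ u v : V, u ≠ v → d u v = n → 0 < D u v := by
    intro n
    induction n with
    | zero =>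
      intro u v huv h0
      exact absurd (hd.eq_zero.1 h0) huv
    | succ n ih =>
      intro u v huv hn
      have h5 := h2 u (g u v) (h.adj u v huv)
      rw [h4 u v huv]
      by_cases hv : g u v = v
      · rw [hv, h3]
        rw [hv] at h5
        linarith
      · have h6 := hd.2.2 u v huv
        have := ih (g u v) v hv (by omega)
        linarith
  exact key _ u v huv rfl

theorem nonneg (hm : MetrWith G g w D) (h : IsSys G g) (u v : V) : 0 ≤ D u v := by
  by_cases huv : u = v
  · subst huv
    rw [hm.2.2.1]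
  · exact (hm.pos h huv).le

/-- The triangle inequality. -/
theorem tri (hm : MetrWith G g w D) (h : IsSys G g) (u x v : V) :
    D u v ≤ D u x + D x v := by
  obtain ⟨_, _, h3, h4, h5⟩ := hm
  obtain ⟨d, hd⟩ := h.len
  have key : ∀ n : ℕ, ∀ u : V, d u x = n → D u v ≤ D u x + D x v := by
    intro n
    induction n with
    | zero =>
      intro u h0
      have := hd.eq_zero.1 h0
      subst this
      rw [h3]
      linarith
    | succ n ih =>
      intro u hn
      have hne : u ≠ x := by
        rintro rfl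
        rw [hd.2.1] at hn
        omega
      have h6 := hd.2.2 u x hne
      have h7 := ih (g u x) (by omega)
      have h8 := h5 u v (g u x) (h.adj u x hne)
      rw [h4 u x hne]
      linarith
  exact key _ u rfl

theorem le_edge (hm : MetrWith G g w D) {u v : V} (h : G.Adj u v) : D u v ≤ w u v := by
  have := hm.2.2.2.2 u v v h
  rw [hm.2.2.1] at this
  linarith

theorem le_two (hm : MetrWith G g w D) {u x v : V} (h1 : G.Adj u x) (h2 : G.Adj x v) :
    D u v ≤ w u x + w x v := by
  have h3 := hm.2.2.2.2 u v x h1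
  have h4 := hm.le_edge h2
  linarith

/-- The distance function is symmetric. -/
theorem symm (hm : MetrWith G g w D) (h : IsSys G g) (u v : V) : D u v = D v u := by
  obtain ⟨d, hd⟩ := h.len
  have key : ∀ n : ℕ, ∀ u v : V, d u v = n → D v u ≤ D u v := by
    intro n
    induction n with
    | zero =>
      intro u v h0
      have := hd.eq_zero.1 h0
      subst this
      exact le_rfl
    | succ n ih =>
      intro u v hn
      have hne : u ≠ v := by
        rintro rfl
        rw [hd.2.1] at hn
        omega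
      have h6 := hd.2.2 u v hne
      have h7 := ih (g u v) v (by omega)
      have h8 := hm.tri h v (g u v) u
      have h9 := hm.le_edge (h.adj u v hne).symm
      have h10 := hm.2.2.2.1 u v hne
      have h11 := hm.1 u (g u v)
      linarith
  exact le_antisymm (key _ v u rfl) (key _ u v rfl)

/-- The distance across a used edge. -/
theorem eq_used (hm : MetrWith G g w D) {u v : V} (h : Used g u v) : D u v = w u v := by
  have := hm.2.2.2.1 u v h.1
  rw [h.2, hm.2.2.1] at this
  linarith

/-- The distance along a 2-path. -/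
theorem eq_two (hm : MetrWith G g w D) (h : IsSys G g) {u v z : V} (huv : u ≠ v)
    (h1 : g u v = z) (h2 : g v u = z) : D u v = w u z + w z v := by
  have h3 := (h.used_first huv.symm)
  rw [h2] at h3
  have h4 := hm.eq_used h3
  have h5 := hm.2.2.2.1 u v huv
  have h6 := hm.symm h v z
  have h7 := hm.1 v z
  rw [h1] at h5
  linarith

/-- The distance along a path with first step a and last step b, a and b distinct. -/
theorem lt_of_ends (hm : MetrWith G g w D) (h : IsSys G g) {u v a b : V} (huv : u ≠ v)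
    (h1 : g u v = a) (h2 : g v u = b) (hab : a ≠ b) (hav : a ≠ v) :
    w u a + w v b < D u v := by
  have hn : g u v ≠ v := by rw [h1]; exact hav
  have ho := h.opt_self huv hn
  rw [h1, h2] at ho
  have h3 := hm.2.2.2.1 u v huv
  rw [h1] at h3
  have h4 := hm.2.2.2.1 v a ho.2.1
  rw [ho.2.2.2] at h4
  have h5 := hm.symm h a v
  have h6 := hm.pos h hab.symm
  linarith

end MetrWith

/-! ### Crossings -/

variable [DecidableEq V]

/-- The systems agree outside the two pairs. -/
def AgreeOff (g g' : V → V → V) (p p' : Sym2 V) : Prop :=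
  ∀ s t, s(s, t) ≠ p → s(s, t) ≠ p' → g s t = g' s t

/-- Every large part A of N is crossed. -/
def SCross (g : V → V → V) (u : V) (N : Finset V) (r : ℝ) : Prop :=
  ∀ A ⊆ N, A.Nonempty → r ≤ ((N \ A).card : ℝ) → ∀ p p' : Sym2 V,
    ∃ z ∈ N \ A, ∃ a ∈ A, ∃ c d, c ≠ d ∧ Q g u c ∧ Q g u d ∧ Q g c d ∧
      g u c = z ∧ g u d = z ∧ g c d = a ∧
      s(u, c) ≠ p ∧ s(u, c) ≠ p' ∧ s(u, d) ≠ p ∧ s(u, d) ≠ p' ∧ s(c, d) ≠ p ∧ s(c, d) ≠ p'

/-- Lemma 7 (rigidity): in a metrizable system g' that differs from g in at most two pairs,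
almost all points of N are at minimal distance from u. -/
theorem rigidity {G : SimpleGraph V} {g g' : V → V → V} {w D : V → V → ℝ} (h : IsSys G g)
    (h' : IsSys G g') (hm : MetrWith G g' w D) {p p' : Sym2 V} (hag : AgreeOff g g' p p')
    {u : V} {N : Finset V} (hN : ∀ a ∈ N, G.Adj u a) {r : ℝ} (hs : SCross g u N r)
    (hne : N.Nonempty) :
    ((N \ (N.filter (fun a => ∀ b ∈ N, w u a ≤ w u b))).card : ℝ) < r := by
  classical
  set A := N.filter (fun a => ∀ b ∈ N, w u a ≤ w u b) with hA
  by_contra hlt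
  push Not at hlt
  have hAne : A.Nonempty := by
    obtain ⟨a, ha, hmin⟩ := N.exists_min_image (fun a => w u a) hne
    exact ⟨a, by rw [hA, mem_filter]; exact ⟨ha, hmin⟩⟩
  obtain ⟨z, hz, a, ha, c, d, hcd, huc, hud, hqcd, h1, h2, h3, e1, e2, e3, e4, e5, e6⟩ :=
    hs A (filter_subset _ _) hAne hlt p p'
  have hz' := mem_sdiff.1 hz
  have ha' : a ∈ N ∧ ∀ b ∈ N, w u a ≤ w u b := by
    have := ha
    rw [hA, mem_filter] at this
    exact this
  apply hz'.2
  rw [hA, mem_filter]
  refine ⟨hz'.1, ?_⟩
  have e1' : s(c, u) ≠ p := by rw [Sym2.eq_swap]; exact e1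
  have e2' : s(c, u) ≠ p' := by rw [Sym2.eq_swap]; exact e2
  have e3' : s(d, u) ≠ p := by rw [Sym2.eq_swap]; exact e3
  have e4' : s(d, u) ≠ p' := by rw [Sym2.eq_swap]; exact e4
  have e5' : s(d, c) ≠ p := by rw [Sym2.eq_swap]; exact e5
  have e6' : s(d, c) ≠ p' := by rw [Sym2.eq_swap]; exact e6
  -- the three distances
  have hDc : D u c = w u z + w z c :=
    hm.eq_two h' huc.1 (by rw [← hag u c e1 e2]; exact h1)
      (by rw [← hag c u e1' e2', ← huc.2.2.1]; exact h1)
  have hDd : D u d = w u z + w z d :=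
    hm.eq_two h' hud.1 (by rw [← hag u d e3 e4]; exact h2)
      (by rw [← hag d u e3' e4', ← hud.2.2.1]; exact h2)
  have hDcd : D c d = w c a + w a d :=
    hm.eq_two h' hcd (by rw [← hag c d e5 e6]; exact h3)
      (by rw [← hag d c e5' e6', ← hqcd.2.2.1]; exact h3)
  -- adjacencies
  have aua : G.Adj u a := hN a ha'.1
  obtain ⟨q1, q2⟩ := h.q_used hqcd
  rw [h3] at q1 q2
  have aca := h.used_adj q1
  have ada := h.used_adj q2
  obtain ⟨q3, q4⟩ := h.q_used huc
  obtain ⟨q5, q6⟩ := h.q_used hud
  rw [h1] at q3 q4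
  rw [h2] at q5 q6
  have acz := h.used_adj q4
  have adz := h.used_adj q6
  have i1 := hm.le_two aua aca.symm
  have i2 := hm.le_two aua ada.symm
  have i3 := hm.le_two acz adz.symm
  have s1 := hm.1 a c
  have s2 := hm.1 c z
  intro b hb
  have := ha'.2 b hb
  linarith

/-- The data of a three-step switch at the pair (u, v) to the type (a, b) in a system whose
neighbourhoods N are crossed. -/
structure Swit (G : SimpleGraph V) (g : V → V → V) (N : V → Finset V) (r : ℝ)
    (u v a b : V) : Prop where
  q : Q g u v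
  opt : Opt g u v a b
  ne : a ≠ b
  mem_left : a ∈ N u
  mem_right : b ∈ N v
  cross_left : SCross g u (N u) r
  cross_right : SCross g v (N v) r
  inter : 2 * r ≤ ((N u ∩ N v).card : ℝ)

theorem switch_agree {g : V → V → V} {u v x y : V} (s t : V) (h : s(s, t) ≠ s(u, v)) :
    switch g u v x y s t = g s t := by
  apply switch_of_ne
  · rintro ⟨rfl, rfl⟩; exact h rfl
  · rintro ⟨rfl, rfl⟩; exact h Sym2.eq_swap

/-- The claim: the switched system determines the switched pair. -/
theorem switch_pair {G : SimpleGraph V} {g₁ g₂ : V → V → V} (h₁ : IsSys G g₁)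
    (h₂ : IsSys G g₂) (hm : Metr G g₂) {N : V → Finset V}
    (hN : ∀ u, ∀ a ∈ N u, G.Adj u a) {r : ℝ} {u v a b u' v' a' b' : V}
    (hs : Swit G g₁ N r u v a b)
    (he : switch g₁ u v a b = switch g₂ u' v' a' b') : s(u, v) = s(u', v') := by
  classical
  by_contra hne
  obtain ⟨w, D, hm⟩ := hm
  have hm : MetrWith G g₂ w D := hm
  have huv : u ≠ v := hs.q.1
  have hag : AgreeOff g₁ g₂ s(u, v) s(u', v') := by
    intro s t h1 h2
    have h3 := congrFun (congrFun he s) t
    rw [switch_agree s t h1, switch_agree s t h2] at h3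
    exact h3
  have hua : g₂ u v = a := by
    have h3 := congrFun (congrFun he u) v
    rw [switch_left, switch_agree u v hne] at h3
    exact h3.symm
  have hvb : g₂ v u = b := by
    have h3 := congrFun (congrFun he v) u
    rw [switch_right huv, switch_agree v u (by rw [Sym2.eq_swap]; exact hne)] at h3
    exact h3.symm
  have r1 := rigidity h₁ h₂ hm hag (hN u) hs.cross_left ⟨a, hs.mem_left⟩
  have r2 := rigidity h₁ h₂ hm hag (hN v) hs.cross_right ⟨b, hs.mem_right⟩
  -- a point of both minimal sets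
  have hex : ∃ z, z ∈ N u ∧ z ∈ N v ∧ (∀ b ∈ N u, w u z ≤ w u b) ∧
      (∀ b ∈ N v, w v z ≤ w v b) := by
    by_contra hno
    push Not at hno
    have hsub : N u ∩ N v ⊆ (N u \ (N u).filter (fun a => ∀ b ∈ N u, w u a ≤ w u b)) ∪
        (N v \ (N v).filter (fun a => ∀ b ∈ N v, w v a ≤ w v b)) := by
      intro z hz
      rw [mem_inter] at hz
      rw [mem_union, mem_sdiff, mem_sdiff, mem_filter, mem_filter]
      by_cases hz1 : ∀ b ∈ N u, w u z ≤ w u b
      · right
        refine ⟨hz.2, ?_⟩
        rintro ⟨_, h5⟩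
        obtain ⟨b', hb', hlt⟩ := hno z hz.1 hz.2 hz1
        exact absurd (h5 b' hb') (not_le.2 hlt)
      · left
        exact ⟨hz.1, fun h5 => hz1 h5.2⟩
    have hc := card_le_card hsub
    have hc2 := card_union_le (N u \ (N u).filter (fun a => ∀ b ∈ N u, w u a ≤ w u b))
      (N v \ (N v).filter (fun a => ∀ b ∈ N v, w v a ≤ w v b))
    have hc3 : ((N u ∩ N v).card : ℝ) ≤
        ((N u \ (N u).filter (fun a => ∀ b ∈ N u, w u a ≤ w u b)).card : ℝ) +
        ((N v \ (N v).filter (fun a => ∀ b ∈ N v, w v a ≤ w v b)).card : ℝ) := by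
      exact_mod_cast hc.trans hc2
    have := hs.inter
    linarith
  obtain ⟨z, hzu, hzv, hz1, hz2⟩ := hex
  have hlt := hm.lt_of_ends h₂ huv hua hvb hs.ne hs.opt.2.1.symm
  have hle := hm.le_two (hN u z hzu) (hN v z hzv).symm
  have k1 := hz1 a hs.mem_left
  have k2 := hz2 b hs.mem_right
  have k3 := hm.1 v z
  linarith

end CEB
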