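import Pool.Agent.Work.MP_ceb7a8_co.Reg
import Pool.Agent.Work.MP_ceb7a8_co.M43Metr

/-!
Lemma 6 (crossing): definitions.
-/

namespace CEB

namespace L6

open Finset Rg

noncomputable section

open scoped Classical

variable {V : Type*} [Fintype V]

/-- the vertices c considered at u -/
def Vu (G : SimpleGraph V) (g : V → V → V) (u : V) (p p' : Sym2 V) : Finset V :=
  univ.filter fun c => c ∈ reg G g ∧ c ∉ hub g ∧ c ≠ u ∧ c ∉ bad G g u ∧ c ∉ exc G g u ∧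
    s(u, c) ≠ p ∧ s(u, c) ≠ p'

/-- vertices whose middle vertex towards u lies in Z -/
def SZ (S : Finset V) (u : V) (ω : Sym2 V → V) (Z : Finset V) : Finset V :=
  S.filter fun c => ω s(u, c) ∈ Z

/-- events (a), (b), (c) -/
structure Good (G : SimpleGraph V) (g : V → V → V) (u : V) (p p' : Sym2 V)
    (ω : Sym2 V → V) : Prop where
  a : ∀ Z ⊆ Nu G g u, hh V / 20 ≤ (#Z : ℝ) → nn V / 120 ≤ (#(SZ (Vu G g u p p') u ω Z) : ℝ)
  b : ∀ Z ⊆ Nu G g u, (#(Nu G g u \ Z) : ℝ) ≤ nn V ^ (1 - sig / 2) →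
    85 / 100 * nn V ≤ (#(SZ (Vu G g u p p') u ω Z) : ℝ)
  c : ∀ c ∈ Vu G g u p p', ∀ x : V,
    (#((Vu G g u p p').filter fun d => d ∈ bad G g c ∧ ω s(u, d) = x) : ℝ) ≤ 10 ^ 9

end

end L6

end CEB
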