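import Mathlib

/-!
Consistent path systems as functions to vertex lists: the definitions.
-/

namespace CEBL

variable {V : Type*}

/-- `l` lists the vertices, in order, of a path of `G` from `u` to `v`. -/
structure IsPathList (G : SimpleGraph V) (u v : V) (l : List V) : Prop where
  nodup : l.Nodup
  chain : l.IsChain G.Adj
  head : l.head? = some u
  last : l.getLast? = some v

/-- A consistent path system of `G`: one path `P u v` for every pair (on the diagonal the trivial
path), `P v u` is the reversed path, and every segment of a path of the system is the path of the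
system between its ends. -/
structure IsSystem (G : SimpleGraph V) (P : V → V → List V) : Prop where
  path : ∀ u v, IsPathList G u v (P u v)
  symm : ∀ u v, P v u = (P u v).reverse
  seg : ∀ u v x y l₁ l₂ l₃, P u v = l₁ ++ x :: (l₂ ++ y :: l₃) → P x y = x :: (l₂ ++ [y])

/-- Sum of the weights of the consecutive pairs of a list of vertices. -/
def wt (w : Sym2 V → ℝ) : List V → ℝ
  | [] => 0
  | [_] => 0
  | a :: b :: l => w s(a, b) + wt w (b :: l)

/-- Metrizable: for some positive weights of the edges every path of the system is a shortest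
path. -/
def Metrizable (G : SimpleGraph V) (P : V → V → List V) : Prop :=
  ∃ w : Sym2 V → ℝ, (∀ e ∈ G.edgeSet, 0 < w e) ∧
    ∀ u v l, IsPathList G u v l → wt w (P u v) ≤ wt w l

/-- Reducible: the vertex set splits into two nonempty parts, each closed under the paths. -/
def Reducible (P : V → V → List V) : Prop :=
  ∃ A : Set V, A.Nonempty ∧ Aᶜ.Nonempty ∧ (∀ u ∈ A, ∀ v ∈ A, ∀ z ∈ P u v, z ∈ A) ∧
    (∀ u ∈ Aᶜ, ∀ v ∈ Aᶜ, ∀ z ∈ P u v, z ∈ Aᶜ)

end CEBL
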