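import Pool.Agent.Work.MP_ceb7a8_co.ListDefs

/-!
Consistent path systems as functions to vertex lists: basic facts.
-/

namespace CEBL

variable {V : Type*}

namespace IsPathList

variable {G : SimpleGraph V} {u v : V} {l : List V}

theorem ne_nil (h : IsPathList G u v l) : l ≠ [] := by
  rintro rfl
  simpa using h.head

theorem head_mem (h : IsPathList G u v l) : u ∈ l := List.mem_of_mem_head? h.head

theorem last_mem (h : IsPathList G u v l) : v ∈ l := List.mem_of_mem_getLast? h.last

theorem exists_cons (h : IsPathList G u v l) : ∃ t, l = u :: t := by
  cases l with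
  | nil => exact absurd rfl h.ne_nil
  | cons a t =>
    have := h.head
    simp only [List.head?_cons, Option.some.injEq] at this
    exact ⟨t, by rw [this]⟩

theorem exists_concat (h : IsPathList G u v l) : ∃ t, l = t ++ [v] := by
  obtain ⟨t, a, rfl⟩ : ∃ t a, l = t ++ [a] := ⟨l.dropLast, l.getLast h.ne_nil,
    (List.dropLast_append_getLast h.ne_nil).symm⟩
  have := h.last
  simp only [List.getLast?_append, List.getLast?_singleton, Option.some_or,
    Option.some.injEq] at this
  exact ⟨t, by rw [this]⟩

theorem reverse (h : IsPathList G u v l) : IsPathList G v u l.reverse where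
  nodup := List.nodup_reverse.mpr h.nodup
  chain := by
    rw [List.isChain_reverse]
    exact h.chain.imp (fun a b hab => hab.symm)
  head := by rw [List.head?_reverse]; exact h.last
  last := by rw [List.getLast?_reverse]; exact h.head

theorem self_eq (h : IsPathList G u u l) : l = [u] := by
  obtain ⟨t, rfl⟩ := h.exists_cons
  cases t with
  | nil => rfl
  | cons a t =>
    exfalso
    have h1 : (a :: t).getLast? = some u := by
      have := h.last
      rwa [List.getLast?_cons_cons] at this
    exact (List.nodup_cons.mp h.nodup).1 (List.mem_of_mem_getLast? h1)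

theorem single (G : SimpleGraph V) (u : V) : IsPathList G u u [u] :=
  ⟨List.nodup_singleton u, List.isChain_singleton u, rfl, rfl⟩

theorem pair (h : G.Adj u v) : IsPathList G u v [u, v] where
  nodup := by simp [h.ne]
  chain := by simp [h]
  head := rfl
  last := rfl

theorem triple {b : V} (h1 : G.Adj u b) (h2 : G.Adj b v) (h3 : u ≠ v) :
    IsPathList G u v [u, b, v] where
  nodup := by simp [h1.ne, h2.ne, h3]
  chain := by simp [h1, h2]
  head := rfl
  last := rfl

end IsPathList

namespace IsSystem

variable {G : SimpleGraph V} {P : V → V → List V}

theorem self (h : IsSystem G P) (u : V) : P u u = [u] := (h.path u u).self_eq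

theorem left_mem (h : IsSystem G P) (u v : V) : u ∈ P u v := (h.path u v).head_mem

theorem right_mem (h : IsSystem G P) (u v : V) : v ∈ P u v := (h.path u v).last_mem

theorem mem_symm (h : IsSystem G P) {u v z : V} : z ∈ P v u ↔ z ∈ P u v := by
  rw [h.symm u v, List.mem_reverse]

/-- A vertex of `P u v` splits it into the two paths of the system. -/
theorem split (h : IsSystem G P) {u v z : V} (hz : z ∈ P u v) :
    ∃ s t, P u z = s ++ [z] ∧ P z v = z :: t ∧ P u v = s ++ z :: t := by
  obtain ⟨s, t, hst⟩ := List.mem_iff_append.mp hz
  refine ⟨s, t, ?_, ?_, hst⟩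
  · -- `P u z`
    obtain ⟨r, hr⟩ := (h.path u v).exists_cons
    cases s with
    | nil =>
      rw [List.nil_append] at hst
      rw [hst] at hr
      have : z = u := (List.cons.inj hr).1
      subst this
      simpa using h.self z
    | cons a s =>
      have hau : a = u := by
        rw [hst, List.cons_append] at hr
        exact (List.cons.inj hr).1
      subst hau
      have := h.seg a v a z [] s t (by simpa using hst)
      simpa using this
  · obtain ⟨r, hr⟩ := (h.path u v).exists_concat
    rcases List.eq_nil_or_concat t with rfl | ⟨t', b, rfl⟩
    · have hzv : z = v := by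
        rw [hst] at hr
        exact List.append_inj_right' hr rfl |> List.cons.inj |>.1
      subst hzv
      exact h.self z
    · have hbv : b = v := by
        rw [hst] at hr
        have : s ++ z :: (t'.concat b) = (s ++ z :: t') ++ [b] := by simp
        rw [this] at hr
        exact List.append_inj_right' hr rfl |> List.cons.inj |>.1
      subst hbv
      have := h.seg u b z b s t' [] (by simpa using hst)
      simpa using this

theorem subset_left (h : IsSystem G P) {u v z : V} (hz : z ∈ P u v) : P u z ⊆ P u v := by
  obtain ⟨s, t, h1, _, h3⟩ := h.split hz
  rw [h1, h3]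
  intro x hx
  simp only [List.mem_append, List.mem_cons] at hx ⊢
  tauto

theorem subset_right (h : IsSystem G P) {u v z : V} (hz : z ∈ P u v) : P z v ⊆ P u v := by
  obtain ⟨s, t, _, h2, h3⟩ := h.split hz
  rw [h2, h3]
  intro x hx
  simp only [List.mem_append, List.mem_cons] at hx ⊢
  tauto

/-- Two vertices of `P u v` are in order, one way or the other. -/
theorem mem_mem (h : IsSystem G P) {u v x y : V} (hx : x ∈ P u v) (hy : y ∈ P u v) :
    x ∈ P u y ∨ y ∈ P u x := by
  obtain ⟨s, t, h1, h2, h3⟩ := h.split hx
  rw [h3, List.mem_append, List.mem_cons] at hy
  rcases hy with hy | rfl | hy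
  · right; rw [h1]; simp [hy]
  · left; exact h.right_mem u y
  · left
    obtain ⟨t1, t2, ht⟩ := List.mem_iff_append.mp hy
    obtain ⟨s', t', h1', h2', h3'⟩ := h.split (z := y) (u := u) (v := v)
      (by rw [h3]; simp [hy])
    -- both splittings of `P u v` at `y`
    have e1 : P u v = (s ++ x :: t1) ++ y :: t2 := by rw [h3, ht]; simp
    have hnd := (h.path u v).nodup
    have e2 : s' = s ++ x :: t1 := by
      have hnd' := hnd
      rw [h3'] at e1
      rcases List.append_eq_append_iff.mp e1 with ⟨as, ha, hb⟩ | ⟨as, ha, hb⟩
      · cases as with
        | nil => simpa using ha.symm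
        | cons c as =>
          exfalso
          rw [List.cons_append] at hb
          obtain ⟨rfl, hb⟩ := List.cons.inj hb
          rw [h3', hb] at hnd
          have := (List.nodup_append.mp hnd).2.1
          rw [List.nodup_cons] at this
          exact this.1 (by simp)
      · cases as with
        | nil => simpa using ha
        | cons c as =>
          exfalso
          rw [List.cons_append] at hb
          obtain ⟨rfl, hb⟩ := List.cons.inj hb
          rw [h3', ha] at hnd
          have := (List.nodup_append.mp hnd).2.2 y (by simp) y (by simp)
          exact this rfl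
    rw [h1', e2]
    simp

/-- Any two vertices of `P u v`: the path between them is contained in `P u v`. -/
theorem subset_of_mem (h : IsSystem G P) {u v x y : V} (hx : x ∈ P u v) (hy : y ∈ P u v) :
    P x y ⊆ P u v := by
  rcases h.mem_mem hx hy with h1 | h1
  · exact List.Subset.trans (h.subset_right h1) (h.subset_left hy)
  · intro z hz
    rw [h.mem_symm] at hz
    exact (h.subset_left hx) ((h.subset_right h1) hz)

/-- The first step. -/
theorem exists_first (h : IsSystem G P) {u v : V} (huv : u ≠ v) :
    ∃ x, P u v = u :: P x v ∧ G.Adj u x := by
  obtain ⟨t, ht⟩ := (h.path u v).exists_cons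
  cases t with
  | nil =>
    have := (h.path u v).last
    rw [ht] at this
    simp at this
    exact absurd this huv
  | cons x t =>
    refine ⟨x, ?_, ?_⟩
    · have hx : x ∈ P u v := by rw [ht]; simp
      obtain ⟨s, t', h1, h2, h3⟩ := h.split hx
      have hnd := (h.path u v).nodup
      rw [ht] at h3
      cases s with
      | nil =>
        exfalso
        rw [List.nil_append] at h3
        obtain ⟨rfl, _⟩ := List.cons.inj h3
        rw [ht] at hnd
        simp at hnd
      | cons a s =>
        rw [List.cons_append] at h3
        obtain ⟨rfl, h3⟩ := List.cons.inj h3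
        cases s with
        | nil =>
          rw [List.nil_append] at h3
          rw [ht, h2, h3]
        | cons b s =>
          exfalso
          rw [List.cons_append] at h3
          have h4 := (List.cons.inj h3).2
          have h5 : x = b := (List.cons.inj h4).1
          rw [ht, h4, ← h5] at hnd
          simp at hnd
    · have := (h.path u v).chain
      rw [ht] at this
      exact (List.isChain_cons_cons.mp this).1

end IsSystem

end CEBL
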