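import Pool.Agent.Work.MP_ceb7a8_co.Det78

/-!
Further deterministic facts about regular vertices: exceptional pairs, common used hubs.
Author: helper43.
-/

namespace CEB

namespace Det

open Finset

noncomputable section

open scoped Classical

variable {V : Type*} [Fintype V] {G : SimpleGraph V} {g g' : V → V → V}

/-- vertices with few common neighbours with u among the hubs -/
def exc (G : SimpleGraph V) (g : V → V → V) (u : V) : Finset V :=
  univ.filter fun v => ((gn G u ∩ gn G v ∩ hub g).card : ℝ) < 24 / 100 * ((hub g).card : ℝ)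

theorem mem_exc {u v : V} : v ∈ exc G g u ↔
    ((gn G u ∩ gn G v ∩ hub g).card : ℝ) < 24 / 100 * ((hub g).card : ℝ) := by
  simp [exc]

theorem exc_symm {u v : V} : v ∈ exc G g u ↔ u ∈ exc G g v := by
  rw [mem_exc, mem_exc, inter_comm (gn G u) (gn G v)]

theorem exc_sgt (h : sgt g' = sgt g) (u : V) : exc G g' u = exc G g u := by
  unfold exc
  rw [hub_sgt h]

theorem badP_symm (hg : IsSys G g) {u v : V} : BadP G g u v ↔ BadP G g v u := by
  have h1 : ∀ u v : V, BadP G g u v → BadP G g v u := by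
    intro u v
    rintro ⟨h1, h2⟩
    refine ⟨h1.symm, ?_⟩
    rcases h2 with ⟨⟨h3, h4⟩, h5⟩ | ⟨h3, h4⟩
    · left
      exact ⟨⟨h3.symm, h4.symm⟩, fun h6 => h5 (hg.used_symm h6)⟩
    · right
      refine ⟨?_, fun h6 => h4 (hg.q_symm h6)⟩
      rintro ⟨h6, h7⟩
      exact h3 ⟨h6.symm, h7.symm⟩
  exact ⟨h1 u v, h1 v u⟩

theorem bad_symm (hg : IsSys G g) {u v : V} : v ∈ bad G g u ↔ u ∈ bad G g v := by
  rw [mem_bad, mem_bad]
  exact badP_symm hg

theorem exc_card (hG : QR G) (hn : Big (Fintype.card V)) (hs : S3 G g) {u : V}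
    (hu : u ∈ reg G g) : ((exc G g u).card : ℝ) ≤ rr V := by
  have hhp := hh_pos hn
  have h0 := (mem_reg.1 hu).2
  have h1 := hs.s1
  have hpos : (0 : ℝ) < ((gn G u ∩ hub g).card : ℝ) := by linarith
  have hpos' : 0 < (gn G u ∩ hub g).card := by exact_mod_cast hpos
  have h2 := hG.card_co_low (W := hub g) (u := u) (e := 1 / 100) (by norm_num) hpos'
  have h3 : ((exc G g u).card : ℝ) ≤
      ((univ.filter fun v : V => ((gn G u ∩ gn G v ∩ hub g).card : ℝ) ≤
      (1 / 2 - 1 / 100) * (gn G u ∩ hub g).card).card : ℝ) := by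
    refine Nat.cast_le.2 (card_le_card ?_)
    intro v hv
    rw [mem_exc] at hv
    rw [mem_filter]
    refine ⟨mem_univ _, ?_⟩
    nlinarith
  refine h3.trans (h2.trans ?_)
  have h4 := hh_mul hn
  have h5 := rr_ge hn
  have hL := LL_pos hn
  have h6 : 0 ≤ rr V := (rr_pos hn).le
  rw [div_le_iff₀ (by positivity)]
  have h7 : (10 : ℝ) ^ 15 * LL V * (47 / 100 * hh V) ≤
      rr V * ((gn G u ∩ hub g).card : ℝ) := by
    apply mul_le_mul h5 (by linarith) (by positivity) h6
  nlinarith

/-- two regular vertices that are not exceptional for each other have many common used hubs -/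
theorem common_ge (hG : QR G) (hn : Big (Fintype.card V)) (hs : S3 G g) {u v : V}
    (hu : u ∈ reg G g) (hv : v ∈ reg G g) (he : v ∉ exc G g u) :
    23 / 100 * hh V ≤ ((nb g u ∩ nb g v ∩ hubr G g).card : ℝ) := by
  rw [mem_exc, not_lt] at he
  have h1 := hub_sdiff_card hG hn hs
  have h2 := reg_bad hu
  have h3 := reg_bad hv
  have h4 : gn G u ∩ gn G v ∩ hub g ⊆ (nb g u ∩ nb g v ∩ hubr G g) ∪ bad G g u ∪ bad G g v ∪
      (hub g \ hubr G g) := by
    intro w hw
    simp only [mem_inter] at hw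
    have h5 := gn_hub_sub (g := g) u (mem_inter.2 ⟨hw.1.1, hw.2⟩)
    have h6 := gn_hub_sub (g := g) v (mem_inter.2 ⟨hw.1.2, hw.2⟩)
    rw [mem_union] at h5 h6
    simp only [mem_union, mem_inter, mem_sdiff]
    have h7 := hw.2
    tauto
  have h5 : ((gn G u ∩ gn G v ∩ hub g).card : ℝ) ≤ ((nb g u ∩ nb g v ∩ hubr G g).card : ℝ) +
      ((bad G g u).card : ℝ) + ((bad G g v).card : ℝ) + ((hub g \ hubr G g).card : ℝ) := by
    have h6 := card_le_card h4
    have h7 := card_union_le ((nb g u ∩ nb g v ∩ hubr G g) ∪ bad G g u ∪ bad G g v)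
      (hub g \ hubr G g)
    have h8 := card_union_le ((nb g u ∩ nb g v ∩ hubr G g) ∪ bad G g u) (bad G g v)
    have h9 := card_union_le (nb g u ∩ nb g v ∩ hubr G g) (bad G g u)
    have h10 : (gn G u ∩ gn G v ∩ hub g).card ≤ (nb g u ∩ nb g v ∩ hubr G g).card +
      (bad G g u).card + (bad G g v).card + (hub g \ hubr G g).card := by omega
    exact_mod_cast h10
  have h6 := hs.s1
  have h7 := jj_le_hh hn
  have h8 := rr_le_hh hn
  have h9 := hh_pos hn
  have h10 := rr_pos hn
  nlinarith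

/-- few used neighbours of a regular non-hub are not regular hubs -/
theorem nb_sdiff_card (hg : IsSys G g) (hG : QR G) (hn : Big (Fintype.card V)) (hs : S3 G g)
    {u : V} (hu : u ∈ reg G g) (hu' : u ∉ hub g) :
    ((nb g u \ hubr G g).card : ℝ) ≤ 2 * jj V := by
  have h1 := hub_sdiff_card hG hn hs
  have h2 := reg_bad hu
  have h4 : nb g u \ hubr G g ⊆ bad G g u ∪ (hub g \ hubr G g) := by
    intro w hw
    rw [mem_sdiff] at hw
    have h5 := nb_sub_of_not_hub hg hu' hw.1
    simp only [mem_union, mem_inter, mem_sdiff] at h5 ⊢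
    have := hw.2
    tauto
  have h5 : ((nb g u \ hubr G g).card : ℝ) ≤
      ((bad G g u).card : ℝ) + ((hub g \ hubr G g).card : ℝ) := by
    exact_mod_cast (card_le_card h4).trans (card_union_le _ _)
  have h6 := rr_pos hn
  have h7 := jj_eq V
  linarith

theorem mids_eq {u v : V} (hq : Q g u v) : mids g s(u, v) = nb g u ∩ nb g v := by
  ext z
  rw [mem_mids hq, mem_inter, mem_nb, mem_nb]

/-- the choice sets are large -/
theorem mids_ge (hG : QR G) (hn : Big (Fintype.card V)) (hs : S3 G g) {u v : V} (hq : Q g u v)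
    (hu : u ∈ reg G g) (hv : v ∈ reg G g) (he : v ∉ exc G g u) :
    23 / 100 * hh V ≤ ((mids g s(u, v)).card : ℝ) := by
  refine (common_ge hG hn hs hu hv he).trans ?_
  rw [mids_eq hq]
  exact Nat.cast_le.2 (card_le_card inter_subset_left)

/-- the choice sets are small -/
theorem mids_le (hg : IsSys G g) (hn : Big (Fintype.card V)) (hs : S3 G g) {u v : V}
    (hq : Q g u v) (hu : u ∈ reg G g) (hu' : u ∉ hub g) :
    ((mids g s(u, v)).card : ℝ) ≤ 12 / 10 * hh V := by
  refine le_trans ?_ (nb_card_le hg hn hs hu hu')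
  rw [mids_eq hq]
  exact Nat.cast_le.2 (card_le_card inter_subset_left)

/-- few middle vertices are not regular hubs -/
theorem mids_compl_le (hg : IsSys G g) (hG : QR G) (hn : Big (Fintype.card V)) (hs : S3 G g)
    {u v : V} (hq : Q g u v) (hu : u ∈ reg G g) (hu' : u ∉ hub g) :
    ((mids g s(u, v) ∩ (hubr G g)ᶜ).card : ℝ) ≤ 2 * jj V := by
  refine le_trans ?_ (nb_sdiff_card hg hG hn hs hu hu')
  refine Nat.cast_le.2 (card_le_card ?_)
  intro z hz
  rw [mids_eq hq, mem_inter, mem_inter, mem_compl] at hz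
  rw [mem_sdiff]
  exact ⟨hz.1.1, hz.2⟩

end

end Det

end CEB
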