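import Mathlib

/-!
Exponential moments over all subsets of a finite set (helper25).
-/

namespace Pool.Agent.Work.MP_ceb7a8_co.Rand

open Finset

/-- sum of weights over a random subset -/
theorem moment {α : Type*} [DecidableEq α] (E : Finset α) (c : α → ℝ) (l : ℝ) :
    ∑ F ∈ E.powerset, Real.exp (l * (∑ e ∈ F, c e - (∑ e ∈ E, c e) / 2)) ≤
      2 ^ E.card * Real.exp (l ^ 2 / 8 * ∑ e ∈ E, c e ^ 2) := by
  have h1 : ∑ F ∈ E.powerset, Real.exp (l * (∑ e ∈ F, c e - (∑ e ∈ E, c e) / 2)) =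
      ∏ e ∈ E, (Real.exp (l * c e / 2) + Real.exp (-(l * c e / 2))) := by
    rw [prod_add]
    refine sum_congr rfl (fun F hF => ?_)
    rw [mem_powerset] at hF
    rw [← Real.exp_sum, ← Real.exp_sum, ← Real.exp_add]
    congr 1
    rw [sum_neg_distrib, ← sum_div, ← sum_div, ← mul_sum, ← mul_sum]
    have h2 : ∑ e ∈ E, c e = ∑ e ∈ E \ F, c e + ∑ e ∈ F, c e := (sum_sdiff hF).symm
    rw [h2]
    ring
  rw [h1]
  have h2 : ∀ e ∈ E, Real.exp (l * c e / 2) + Real.exp (-(l * c e / 2)) ≤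
      2 * Real.exp (l ^ 2 / 8 * c e ^ 2) := by
    intro e _
    have h3 := Real.cosh_le_exp_half_sq (l * c e / 2)
    rw [Real.cosh_eq] at h3
    have h4 : (l * c e / 2) ^ 2 / 2 = l ^ 2 / 8 * c e ^ 2 := by ring
    rw [h4] at h3
    linarith
  refine (prod_le_prod (fun e _ => by positivity) h2).trans (le_of_eq ?_)
  rw [prod_mul_distrib, prod_const, ← Real.exp_sum, mul_sum]

/-- Chernoff bound for a subset `S` of a base set `E` -/
theorem tail_low {α : Type*} [DecidableEq α] (E S : Finset α) (hS : S ⊆ E) {τ : ℝ} (hτ : 0 ≤ τ)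
    (hpos : 0 < S.card) :
    ((E.powerset.filter fun F => ((F ∩ S).card : ℝ) ≤ S.card / 2 - τ).card : ℝ) ≤
      2 ^ E.card * Real.exp (-(2 * τ ^ 2 / S.card)) := by
  set m : ℝ := (S.card : ℝ) with hm
  have hm0 : 0 < m := by rw [hm]; exact_mod_cast hpos
  set l : ℝ := -(4 * τ / m) with hl
  have h1 := moment E (fun e => if e ∈ S then (1 : ℝ) else 0) l
  have h3 : ∀ F : Finset α, ∑ e ∈ F, (if e ∈ S then (1 : ℝ) else 0) = ((F ∩ S).card : ℝ) := by
    intro F
    rw [sum_ite_mem, sum_const, nsmul_eq_mul, mul_one]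
  have h4 : ∑ e ∈ E, (if e ∈ S then (1 : ℝ) else 0) ^ 2 = m := by
    have h5 : ∀ e ∈ E, (if e ∈ S then (1 : ℝ) else 0) ^ 2 = if e ∈ S then (1 : ℝ) else 0 := by
      intro e _
      split_ifs <;> norm_num
    rw [sum_congr rfl h5, h3, inter_eq_right.2 hS]
  rw [h4, h3, inter_eq_right.2 hS, ← hm] at h1
  have h2 : ((E.powerset.filter fun F => ((F ∩ S).card : ℝ) ≤ m / 2 - τ).card : ℝ) *
      Real.exp (-(l * τ)) ≤
      ∑ F ∈ E.powerset, Real.exp (l * (∑ e ∈ F, (if e ∈ S then (1 : ℝ) else 0) - m / 2)) := by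
    rw [← nsmul_eq_mul, ← sum_const]
    refine (sum_le_sum (fun F hF => ?_)).trans
      (sum_le_sum_of_subset_of_nonneg (filter_subset _ _) (fun F _ _ => (Real.exp_pos _).le))
    have h5 := (mem_filter.1 hF).2
    rw [h3, Real.exp_le_exp]
    have h6 : l ≤ 0 := by
      rw [hl]
      exact neg_nonpos.2 (by positivity)
    nlinarith
  have h5 := h2.trans h1
  have h6 : -(l * τ) = 4 * (τ ^ 2 / m) := by
    rw [hl]
    ring
  have h7 : l ^ 2 / 8 * m = 2 * (τ ^ 2 / m) := by
    rw [hl]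
    field_simp
    ring
  rw [h6, h7] at h5
  have h8 : Real.exp (-(2 * τ ^ 2 / m)) =
      Real.exp (2 * (τ ^ 2 / m)) / Real.exp (4 * (τ ^ 2 / m)) := by
    rw [← Real.exp_sub]
    congr 1
    ring
  rw [h8, ← mul_div_assoc, le_div_iff₀ (Real.exp_pos _)]
  exact h5

theorem two_toggle {α : Type*} [DecidableEq α] {E : Finset α} {e e' : α} (he : e ∉ insert e' E)
    (he' : e' ∉ E) (f : Finset α → ℝ) :
    ∑ F ∈ (insert e (insert e' E)).powerset, f F =
      ∑ F ∈ E.powerset, (f F + f (insert e' F) + (f (insert e F) + f (insert e (insert e' F)))) := by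
  rw [sum_powerset_insert he, sum_powerset_insert he', sum_powerset_insert he', sum_add_distrib,
    sum_add_distrib, sum_add_distrib]

/-- a product over disjoint pairs of elements -/
theorem pair_moment {α β : Type*} [DecidableEq α] [DecidableEq β] (E : Finset α) (p q : β → α)
    (a b : ℝ) (R : Finset β) (hp : ∀ x ∈ R, p x ∈ E) (hq : ∀ x ∈ R, q x ∈ E)
    (hpq : ∀ x ∈ R, p x ≠ q x)
    (hdis : ∀ x ∈ R, ∀ y ∈ R, x ≠ y → p x ≠ p y ∧ p x ≠ q y ∧ q x ≠ q y) :
    ∑ F ∈ E.powerset, ∏ x ∈ R, (if p x ∈ F ∧ q x ∈ F then b else a) =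
      2 ^ E.card * ((3 * a + b) / 4) ^ R.card := by
  induction R using Finset.induction_on with
  | empty =>
    simp
  | insert x R hx ih =>
    have ih' := ih (fun y hy => hp y (mem_insert_of_mem hy)) (fun y hy => hq y (mem_insert_of_mem hy))
      (fun y hy => hpq y (mem_insert_of_mem hy))
      (fun y hy z hz => hdis y (mem_insert_of_mem hy) z (mem_insert_of_mem hz))
    have hx0 : x ∈ insert x R := mem_insert_self _ _
    have h1 : q x ∉ (E.erase (p x)).erase (q x) := fun h => (mem_erase.1 h).1 rfl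
    have h2 : p x ∉ insert (q x) ((E.erase (p x)).erase (q x)) := by
      rw [mem_insert, not_or]
      exact ⟨hpq x hx0, fun h => (mem_erase.1 (mem_erase.1 h).2).1 rfl⟩
    have h3 : insert (p x) (insert (q x) ((E.erase (p x)).erase (q x))) = E := by
      rw [insert_erase (mem_erase.2 ⟨(hpq x hx0).symm, hq x hx0⟩), insert_erase (hp x hx0)]
    have hne : ∀ y ∈ R, p y ≠ p x ∧ p y ≠ q x ∧ q y ≠ p x ∧ q y ≠ q x := by
      intro y hy
      have hyx : y ≠ x := fun h => hx (h ▸ hy)
      have h4 := hdis y (mem_insert_of_mem hy) x hx0 hyx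
      have h5 := hdis x hx0 y (mem_insert_of_mem hy) hyx.symm
      exact ⟨h4.1, h4.2.1, h5.2.1.symm, h4.2.2⟩
    have hg : ∀ F : Finset α, ∏ y ∈ R, (if p y ∈ insert (p x) F ∧ q y ∈ insert (p x) F then b else a)
        = ∏ y ∈ R, (if p y ∈ F ∧ q y ∈ F then b else a) := by
      intro F
      refine prod_congr rfl (fun y hy => ?_)
      have h4 := hne y hy
      simp only [mem_insert, h4.1, h4.2.2.1, false_or]
    have hg' : ∀ F : Finset α, ∏ y ∈ R, (if p y ∈ insert (q x) F ∧ q y ∈ insert (q x) F then b else a)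
        = ∏ y ∈ R, (if p y ∈ F ∧ q y ∈ F then b else a) := by
      intro F
      refine prod_congr rfl (fun y hy => ?_)
      have h4 := hne y hy
      simp only [mem_insert, h4.2.1, h4.2.2.2, false_or]
    rw [← h3, two_toggle h2 h1] at ih' ⊢
    have h4 : ∀ F ∈ ((E.erase (p x)).erase (q x)).powerset, p x ∉ F ∧ q x ∉ F := by
      intro F hF
      rw [mem_powerset] at hF
      exact ⟨fun h => (mem_erase.1 (mem_erase.1 (hF h)).2).1 rfl,
        fun h => (mem_erase.1 (hF h)).1 rfl⟩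
    have h5 : ∑ F ∈ ((E.erase (p x)).erase (q x)).powerset,
        ((∏ y ∈ insert x R, (if p y ∈ F ∧ q y ∈ F then b else a)) +
          (∏ y ∈ insert x R, (if p y ∈ insert (q x) F ∧ q y ∈ insert (q x) F then b else a)) +
          ((∏ y ∈ insert x R, (if p y ∈ insert (p x) F ∧ q y ∈ insert (p x) F then b else a)) +
          (∏ y ∈ insert x R, (if p y ∈ insert (p x) (insert (q x) F) ∧
            q y ∈ insert (p x) (insert (q x) F) then b else a)))) =
        (3 * a + b) * ∑ F ∈ ((E.erase (p x)).erase (q x)).powerset,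
          ∏ y ∈ R, (if p y ∈ F ∧ q y ∈ F then b else a) := by
      rw [mul_sum]
      refine sum_congr rfl (fun F hF => ?_)
      obtain ⟨h6, h7⟩ := h4 F hF
      rw [prod_insert hx, prod_insert hx, prod_insert hx, prod_insert hx, hg, hg', hg, hg']
      have h8 : ¬ (p x ∈ F ∧ q x ∈ F) := fun h => h6 h.1
      have h9 : ¬ (p x ∈ insert (q x) F ∧ q x ∈ insert (q x) F) := by
        rw [mem_insert]
        rintro ⟨h | h, -⟩
        · exact hpq x hx0 h
        · exact h6 h
      have h10 : ¬ (p x ∈ insert (p x) F ∧ q x ∈ insert (p x) F) := by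
        rw [mem_insert, mem_insert]
        rintro ⟨-, h | h⟩
        · exact hpq x hx0 h.symm
        · exact h7 h
      have h11 : p x ∈ insert (p x) (insert (q x) F) ∧ q x ∈ insert (p x) (insert (q x) F) :=
        ⟨mem_insert_self _ _, mem_insert_of_mem (mem_insert_self _ _)⟩
      rw [if_neg h8, if_neg h9, if_neg h10, if_pos h11]
      ring
    have h6 : ∑ F ∈ ((E.erase (p x)).erase (q x)).powerset,
        ((∏ y ∈ R, (if p y ∈ F ∧ q y ∈ F then b else a)) +
          (∏ y ∈ R, (if p y ∈ insert (q x) F ∧ q y ∈ insert (q x) F then b else a)) +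
          ((∏ y ∈ R, (if p y ∈ insert (p x) F ∧ q y ∈ insert (p x) F then b else a)) +
          (∏ y ∈ R, (if p y ∈ insert (p x) (insert (q x) F) ∧
            q y ∈ insert (p x) (insert (q x) F) then b else a)))) =
        4 * ∑ F ∈ ((E.erase (p x)).erase (q x)).powerset,
          ∏ y ∈ R, (if p y ∈ F ∧ q y ∈ F then b else a) := by
      rw [mul_sum]
      refine sum_congr rfl (fun F _ => ?_)
      rw [hg, hg', hg, hg']
      ring
    rw [h5]
    rw [h6] at ih'
    rw [card_insert_of_notMem hx, pow_succ]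
    have h7 : ∑ F ∈ ((E.erase (p x)).erase (q x)).powerset,
        ∏ y ∈ R, (if p y ∈ F ∧ q y ∈ F then b else a) =
        2 ^ (insert (p x) (insert (q x) ((E.erase (p x)).erase (q x)))).card *
          ((3 * a + b) / 4) ^ R.card / 4 := by
      linarith
    rw [h7]
    ring

theorem base_le {l : ℝ} (hl : |l| ≤ 1) :
    (3 * Real.exp (-(l / 4)) + Real.exp (3 * l / 4)) / 4 ≤ Real.exp (l ^ 2 / 4) := by
  obtain ⟨h1, h2⟩ := abs_le.1 hl
  have h3 := Real.abs_exp_sub_one_sub_id_le (x := -(l / 4)) (by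
    rw [abs_le]; constructor <;> linarith)
  have h4 := Real.abs_exp_sub_one_sub_id_le (x := 3 * l / 4) (by
    rw [abs_le]; constructor <;> linarith)
  have h5 := Real.add_one_le_exp (l ^ 2 / 4)
  have h6 := (abs_le.1 h3).2
  have h7 := (abs_le.1 h4).2
  nlinarith

end Pool.Agent.Work.MP_ceb7a8_co.Rand
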