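import Pool.Agent.Work.MP_ceb7a8_co.Par
import Pool.Agent.Work.MP_ceb7a8_co.Enc
import Pool.Agent.Work.MP_ceb7a8_co.Domin

/-!
Pure hub systems: all graph edges that meet Z are used, all other pairs are joined by 2-paths
along such edges.  Lower bound for the number of all consistent path systems.
-/

namespace CEB

open Finset
open Pool.Agent.Work.MP_ceb7a8_co (DiscK eST dgr codgr card_low card_codgr)

noncomputable section

theorem QR.disc {V : Type*} [Fintype V] {G : SimpleGraph V} (h : QR G) : DiscK 4 G := by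
  intro S T
  exact h.q1 S T

theorem InE.symm {V : Type*} {G : SimpleGraph V} {W : Finset V} {u v : V} (h : InE G W u v) :
    InE G W v u := ⟨h.1.symm, h.2.symm⟩

theorem InE.comm {V : Type*} {G : SimpleGraph V} {W : Finset V} {u v : V} :
    InE G W u v ↔ InE G W v u := ⟨InE.symm, InE.symm⟩

section pure

variable {V : Type*} [Fintype V] [LinearOrder V]

open Classical in
/-- the possible middle vertices of 2-paths from u to v along G-edges that meet Z -/
def KS (G : SimpleGraph V) (Z : Finset V) (u v : V) : Finset V :=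
  univ.filter fun z => InE G Z u z ∧ InE G Z z v

/-- number of 2-paths from u to v along G-edges that meet Z -/
def KZ (G : SimpleGraph V) (Z : Finset V) (u v : V) : ℕ := (KS G Z u v).card

open Classical in
/-- the pairs that are not G-edges meeting Z -/
def NE (G : SimpleGraph V) (Z : Finset V) : Finset (V × V) :=
  (prs V).filter (fun q => ¬ InE G Z q.1 q.2)

/-- number of pure hub systems with hub set Z -/
def NZ (G : SimpleGraph V) (Z : Finset V) : ℕ := ∏ q ∈ NE G Z, KZ G Z q.1 q.2

omit [LinearOrder V] in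
theorem mem_KS {G : SimpleGraph V} {Z : Finset V} {u v z : V} :
    z ∈ KS G Z u v ↔ InE G Z u z ∧ InE G Z z v := by
  simp [KS]

theorem mem_NE {G : SimpleGraph V} {Z : Finset V} {q : V × V} :
    q ∈ NE G Z ↔ q.1 < q.2 ∧ ¬ InE G Z q.1 q.2 := by
  simp [NE, mem_prs]

open Classical in
/-- the pure hub system with given middle vertices -/
def mkPure (G : SimpleGraph V) (Z : Finset V) (f : ∀ q ∈ NE G Z, V) : V → V → V := fun u v =>
  if u = v then u else if InE G Z u v then v else
    if h : (u, v) ∈ NE G Z then f (u, v) h else if h : (v, u) ∈ NE G Z then f (v, u) h else u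

theorem mkPure_spec {G : SimpleGraph V} {Z : Finset V} {f : ∀ q ∈ NE G Z, V}
    (hf : f ∈ (NE G Z).pi fun q => KS G Z q.1 q.2) {u v : V} (huv : u ≠ v)
    (hE : ¬ InE G Z u v) : mkPure G Z f u v = mkPure G Z f v u ∧
      InE G Z u (mkPure G Z f u v) ∧ InE G Z (mkPure G Z f u v) v := by
  rw [mem_pi] at hf
  have hE' : ¬ InE G Z v u := fun h => hE h.symm
  unfold mkPure
  rcases lt_or_gt_of_ne huv with h | h
  · have h1 : (u, v) ∈ NE G Z := mem_NE.2 ⟨h, hE⟩
    have h2 : (v, u) ∉ NE G Z := fun h3 => absurd (mem_NE.1 h3).1 (not_lt.2 h.le)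
    have h3 := mem_KS.1 (hf (u, v) h1)
    rw [if_neg huv, if_neg hE, dif_pos h1, if_neg huv.symm, if_neg hE', dif_neg h2, dif_pos h1]
    exact ⟨rfl, h3.1, h3.2⟩
  · have h1 : (v, u) ∈ NE G Z := mem_NE.2 ⟨h, hE'⟩
    have h2 : (u, v) ∉ NE G Z := fun h3 => absurd (mem_NE.1 h3).1 (not_lt.2 h.le)
    have h3 := mem_KS.1 (hf (v, u) h1)
    rw [if_neg huv, if_neg hE, dif_neg h2, dif_pos h1, if_neg huv.symm, if_neg hE', dif_pos h1]
    exact ⟨rfl, h3.2.symm, h3.1.symm⟩

theorem mkPure_edge {G : SimpleGraph V} {Z : Finset V} {f : ∀ q ∈ NE G Z, V} {u v : V}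
    (hE : InE G Z u v) : mkPure G Z f u v = v := by
  unfold mkPure
  rw [if_neg hE.1.ne, if_pos hE]

theorem isSys_mkPure {G : SimpleGraph V} {Z : Finset V} {f : ∀ q ∈ NE G Z, V}
    (hf : f ∈ (NE G Z).pi fun q => KS G Z q.1 q.2) : IsSys G (mkPure G Z f) := by
  classical
  refine ⟨?_, ?_, ?_, fun u v => if u = v then 0 else if InE G Z u v then 1 else 2, ?_, ?_, ?_⟩
  · intro u
    unfold mkPure
    rw [if_pos rfl]
  · intro u v huv
    by_cases hE : InE G Z u v
    · rw [mkPure_edge hE]; exact hE.1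
    · exact (mkPure_spec hf huv hE).2.1.1
  · intro u v huv hn
    have hE : ¬ InE G Z u v := fun h => hn (mkPure_edge h)
    obtain ⟨h1, h2, h3⟩ := mkPure_spec hf huv hE
    rw [← h1]
    exact mkPure_edge h3.symm
  · intro u v
    by_cases h : u = v
    · simp [h]
    · have h' : ¬ v = u := fun h1 => h h1.symm
      simp only [if_neg h, if_neg h', InE.comm (u := u)]
  · intro u
    simp
  · intro u v huv
    by_cases hE : InE G Z u v
    · rw [mkPure_edge hE]
      simp [huv, hE]
    · obtain ⟨h1, h2, h3⟩ := mkPure_spec hf huv hE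
      simp [huv, hE, h3.1.ne, h3]

theorem nz_le (G : SimpleGraph V) (Z : Finset V) : NZ G Z ≤ (PS G).card := by
  classical
  unfold NZ KZ
  rw [← card_pi]
  refine card_le_card_of_injOn (mkPure G Z) ?_ ?_
  · intro f hf
    simp only [PS, coe_filter, mem_univ, true_and, Set.mem_ofPred_eq]
    exact isSys_mkPure hf
  · intro f hf f' hf' h
    funext q hq
    have h1 := mem_NE.1 hq
    have h2 := congrFun (congrFun h q.1) q.2
    unfold mkPure at h2
    rw [if_neg h1.1.ne, if_neg h1.2, dif_pos hq, if_neg h1.1.ne, if_neg h1.2, dif_pos hq] at h2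
    exact h2

end pure

end

end CEB
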