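import Pool.Agent.Work.MP_ceb7a8_co.Graph2
import Pool.Agent.Work.MP_ceb7a8_co.Domin

/-!
Quasirandom graphs on any finite vertex type: consequences, induced subgraphs, and almost all
labelled graphs (helper25).
-/

namespace Pool.Agent.Work.MP_ceb7a8_co

open Finset

/-- Quasirandom: discrepancy with constant `K`, degrees and codegrees up to `η` times the number
of vertices. -/
structure QRK {V : Type*} [Fintype V] (K η : ℝ) (G : SimpleGraph V) : Prop where
  disc : DiscK K G
  deg : ∀ u : V, |(dgr G u univ : ℝ) - (Fintype.card V : ℝ) / 2| ≤ η * Fintype.card V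
  codeg : ∀ u v : V, u ≠ v →
    |(codgr G u v univ : ℝ) - (Fintype.card V : ℝ) / 4| ≤ η * Fintype.card V

theorem DiscK.mono {V : Type*} [Fintype V] {K K' : ℝ} {G : SimpleGraph V} (h : DiscK K G)
    (hK : K ≤ K') : DiscK K' G := fun S T =>
  (h S T).trans (mul_le_mul_of_nonneg_right hK (Real.sqrt_nonneg _))

namespace QRK

theorem mono {V : Type*} [Fintype V] {K K' η η' : ℝ} {G : SimpleGraph V} (h : QRK K η G)
    (hK : K ≤ K') (hη : η ≤ η') : QRK K' η' G where
  disc := h.disc.mono hK
  deg u := (h.deg u).trans (mul_le_mul_of_nonneg_right hη (Nat.cast_nonneg _))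
  codeg u v huv := (h.codeg u v huv).trans (mul_le_mul_of_nonneg_right hη (Nat.cast_nonneg _))

theorem of_fin {n : ℕ} {η : ℝ} {G : SimpleGraph (Fin n)} (h1 : Disc G) (h2 : DegCodeg η G) :
    QRK 2 η G where
  disc := h1.discK
  deg u := by rw [Fintype.card_fin]; exact h2.1 u
  codeg u v huv := by rw [Fintype.card_fin]; exact h2.2 u v huv

end QRK

/-! ### induced subgraphs -/

theorem eST_comap {W V : Type*} (f : W ↪ V) (G : SimpleGraph V) (S T : Finset W) :
    eST (G.comap f) S T = eST G (S.map f) (T.map f) := by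
  classical
  unfold eST
  rw [← card_map (f.prodMap f)]
  congr 1
  ext ⟨a, b⟩
  simp only [mem_map, mem_filter, mem_product, Function.Embedding.coe_prodMap, Prod.exists,
    Prod.map_apply, Prod.mk.injEq, SimpleGraph.comap_adj]
  constructor
  · rintro ⟨x, y, ⟨⟨hx, hy⟩, hxy⟩, rfl, rfl⟩
    exact ⟨⟨⟨x, hx, rfl⟩, ⟨y, hy, rfl⟩⟩, hxy⟩
  · rintro ⟨⟨⟨x, hx, rfl⟩, ⟨y, hy, rfl⟩⟩, hxy⟩
    exact ⟨x, y, ⟨⟨hx, hy⟩, hxy⟩, rfl, rfl⟩

theorem dgr_comap {W V : Type*} (f : W ↪ V) (G : SimpleGraph V) (u : W) (T : Finset W) :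
    dgr (G.comap f) u T = dgr G (f u) (T.map f) := by
  classical
  unfold dgr
  rw [← card_map f]
  congr 1
  ext b
  simp only [mem_map, mem_filter, SimpleGraph.comap_adj]
  constructor
  · rintro ⟨y, ⟨hy, hxy⟩, rfl⟩
    exact ⟨⟨y, hy, rfl⟩, hxy⟩
  · rintro ⟨⟨y, hy, rfl⟩, hxy⟩
    exact ⟨y, ⟨hy, hxy⟩, rfl⟩

theorem codgr_comap {W V : Type*} (f : W ↪ V) (G : SimpleGraph V) (u v : W) (T : Finset W) :
    codgr (G.comap f) u v T = codgr G (f u) (f v) (T.map f) := by
  classical
  unfold codgr
  rw [← card_map f]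
  congr 1
  ext b
  simp only [mem_map, mem_filter, SimpleGraph.comap_adj]
  constructor
  · rintro ⟨y, ⟨hy, hxy⟩, rfl⟩
    exact ⟨⟨y, hy, rfl⟩, hxy⟩
  · rintro ⟨⟨y, hy, rfl⟩, hxy⟩
    exact ⟨y, ⟨hy, hxy⟩, rfl⟩

theorem DiscK.comap {W V : Type*} [Fintype W] [Fintype V] {K : ℝ} (hK : 0 ≤ K) (f : W ↪ V)
    {G : SimpleGraph V} (h : DiscK K G) (hc : Fintype.card V ≤ 4 * Fintype.card W) :
    DiscK (2 * K) (G.comap f) := by
  intro S T
  have h1 := h (S.map f) (T.map f)
  rw [eST_comap]
  rw [card_map, card_map] at h1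
  refine h1.trans ?_
  rw [show 2 * K * Real.sqrt (Fintype.card W * (S.card * T.card)) =
    K * (2 * Real.sqrt (Fintype.card W * (S.card * T.card))) by ring]
  refine mul_le_mul_of_nonneg_left ?_ hK
  have h2 : (2 : ℝ) * Real.sqrt (Fintype.card W * (S.card * T.card)) =
      Real.sqrt (4 * (Fintype.card W * (S.card * T.card))) := by
    rw [Real.sqrt_mul (by norm_num) ((Fintype.card W : ℝ) * (S.card * T.card)),
      show (4 : ℝ) = 2 ^ 2 by norm_num, Real.sqrt_sq (by norm_num)]
  rw [h2]
  refine Real.sqrt_le_sqrt ?_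
  have h3 : (Fintype.card V : ℝ) ≤ 4 * Fintype.card W := by exact_mod_cast hc
  have h4 : (0 : ℝ) ≤ S.card * T.card := by positivity
  nlinarith [mul_le_mul_of_nonneg_right h3 h4]

theorem dgr_univ_le {W V : Type*} [Fintype W] [Fintype V] (f : W ↪ V)
    (P : V → Prop) [DecidablePred P] :
    (univ.filter P).card ≤ ((univ.map f).filter P).card +
      (Fintype.card V - Fintype.card W) := by
  classical
  have h1 : univ.filter P ⊆ (univ.map f).filter P ∪ (univ \ univ.map f) := by
    intro x hx
    by_cases hx' : x ∈ univ.map f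
    · exact mem_union_left _ (mem_filter.2 ⟨hx', (mem_filter.1 hx).2⟩)
    · exact mem_union_right _ (mem_sdiff.2 ⟨mem_univ _, hx'⟩)
  refine (card_le_card h1).trans ((card_union_le _ _).trans ?_)
  rw [card_sdiff_of_subset (subset_univ _), card_map, card_univ, card_univ]

theorem QRK.comap {W V : Type*} [Fintype W] [Fintype V] {K η : ℝ} (hK : 0 ≤ K) (hη : 0 ≤ η)
    (hη' : η ≤ 1 / 2) (f : W ↪ V) {G : SimpleGraph V} (h : QRK K η G)
    (hc : (Fintype.card V : ℝ) - Fintype.card W ≤ η / 4 * Fintype.card V) :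
    QRK (2 * K) (2 * η) (G.comap f) := by
  classical
  have hWV : Fintype.card W ≤ Fintype.card V := Fintype.card_le_of_embedding f
  have hWV' : (Fintype.card W : ℝ) ≤ Fintype.card V := by exact_mod_cast hWV
  have hV0 : (0 : ℝ) ≤ Fintype.card V := Nat.cast_nonneg _
  have hsub : ((Fintype.card V - Fintype.card W : ℕ) : ℝ) =
      (Fintype.card V : ℝ) - Fintype.card W := by
    rw [Nat.cast_sub hWV]
  have hm : (7 / 8 : ℝ) * Fintype.card V ≤ Fintype.card W := by nlinarith
  refine ⟨h.disc.comap hK f ?_, fun u => ?_, fun u v huv => ?_⟩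
  · have : (Fintype.card V : ℝ) ≤ 4 * Fintype.card W := by linarith
    exact_mod_cast this
  · rw [dgr_comap]
    have h1 := abs_le.1 (h.deg (f u))
    have h2 : dgr G (f u) univ ≤ dgr G (f u) (univ.map f) +
        (Fintype.card V - Fintype.card W) := by
      unfold dgr
      exact dgr_univ_le f _
    have h3 : dgr G (f u) (univ.map f) ≤ dgr G (f u) univ := by
      unfold dgr
      exact card_le_card (filter_subset_filter _ (subset_univ _))
    have h2' : (dgr G (f u) univ : ℝ) ≤ dgr G (f u) (univ.map f) +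
        ((Fintype.card V : ℝ) - Fintype.card W) := by
      rw [← hsub]; exact_mod_cast h2
    have h3' : (dgr G (f u) (univ.map f) : ℝ) ≤ dgr G (f u) univ := by exact_mod_cast h3
    rw [abs_le]
    constructor <;> nlinarith
  · rw [codgr_comap]
    have h1 := abs_le.1 (h.codeg (f u) (f v) (fun h' => huv (f.injective h')))
    have h2 : codgr G (f u) (f v) univ ≤ codgr G (f u) (f v) (univ.map f) +
        (Fintype.card V - Fintype.card W) := by
      unfold codgr
      exact dgr_univ_le f _
    have h3 : codgr G (f u) (f v) (univ.map f) ≤ codgr G (f u) (f v) univ := by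
      unfold codgr
      exact card_le_card (filter_subset_filter _ (subset_univ _))
    have h2' : (codgr G (f u) (f v) univ : ℝ) ≤ codgr G (f u) (f v) (univ.map f) +
        ((Fintype.card V : ℝ) - Fintype.card W) := by
      rw [← hsub]; exact_mod_cast h2
    have h3' : (codgr G (f u) (f v) (univ.map f) : ℝ) ≤ codgr G (f u) (f v) univ := by
      exact_mod_cast h3
    rw [abs_le]
    constructor <;> nlinarith

/-- Quasirandomness passes to the induced subgraph on a set `B` that misses few vertices. -/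
theorem QRK.induce {V : Type*} [Fintype V] {K η : ℝ} (hK : 0 ≤ K) (hη : 0 ≤ η)
    (hη' : η ≤ 1 / 2) {G : SimpleGraph V} (h : QRK K η G) (B : Set V) [Fintype B]
    (hc : (Fintype.card V : ℝ) - Fintype.card B ≤ η / 4 * Fintype.card V) :
    QRK (2 * K) (2 * η) (G.induce B) :=
  QRK.comap (W := B) hK hη hη' (Function.Embedding.subtype (· ∈ B)) h hc

/-! ### consequences -/

namespace QRK

variable {V : Type*} [Fintype V] {K η : ℝ} {G : SimpleGraph V}

theorem deg_le (h : QRK K η G) (u : V) : (dgr G u univ : ℝ) ≤ (1 / 2 + η) * Fintype.card V := by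
  have := abs_le.1 (h.deg u)
  nlinarith

theorem le_deg (h : QRK K η G) (u : V) : (1 / 2 - η) * Fintype.card V ≤ dgr G u univ := by
  have := abs_le.1 (h.deg u)
  nlinarith

theorem codeg_le (h : QRK K η G) {u v : V} (huv : u ≠ v) :
    (codgr G u v univ : ℝ) ≤ (1 / 4 + η) * Fintype.card V := by
  have := abs_le.1 (h.codeg u v huv)
  nlinarith

theorem le_codeg (h : QRK K η G) {u v : V} (huv : u ≠ v) :
    (1 / 4 - η) * Fintype.card V ≤ codgr G u v univ := by
  have := abs_le.1 (h.codeg u v huv)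
  nlinarith

open Classical in
/-- (Q6): the union of two neighbourhoods. -/
theorem card_union_le (h : QRK K η G) {x y : V} (hxy : x ≠ y) :
    ((univ.filter fun z => G.Adj x z ∨ G.Adj y z).card : ℝ) ≤
      (3 / 4 + 3 * η) * Fintype.card V := by
  have h1 := card_union_add_card_inter (univ.filter fun z => G.Adj x z)
    (univ.filter fun z => G.Adj y z)
  rw [← filter_or, ← filter_and] at h1
  have h2 : (univ.filter fun z => G.Adj x z).card = dgr G x univ := rfl
  have h3 : (univ.filter fun z => G.Adj y z).card = dgr G y univ := rfl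
  have h4 : (univ.filter fun z => G.Adj x z ∧ G.Adj y z).card = codgr G x y univ := rfl
  rw [h2, h3, h4] at h1
  have h1' : ((univ.filter fun z => G.Adj x z ∨ G.Adj y z).card : ℝ) + codgr G x y univ =
      dgr G x univ + dgr G y univ := by exact_mod_cast h1
  have h5 := h.deg_le x
  have h6 := h.deg_le y
  have h7 := h.le_codeg hxy
  nlinarith

/-- (Q5): a small dominating set. -/
theorem domin (h : QRK K η G) (hη : η ≤ 1 / 20) (hn : 2 ≤ Fintype.card V) :
    ∃ R : Finset V, (R.card : ℝ) ≤ 20 * Real.log (Fintype.card V) ∧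
      ∀ u v : V, u ≠ v → ∃ z ∈ R, G.Adj u z ∧ G.Adj v z := by
  refine domination hn G (fun u v huv => ?_)
  have h1 := h.le_codeg huv
  have h2 : (0 : ℝ) ≤ Fintype.card V := Nat.cast_nonneg _
  nlinarith

end QRK

open Classical in
/-- The number of ordered pairs whose codegree in `W` is not about `|W| / 4`. -/
theorem card_bad_codgr {V : Type*} [Fintype V] {K : ℝ} {G : SimpleGraph V} (hG : DiscK K G)
    {W : Finset V} (hW : W.Nonempty) {ε : ℝ} (hε : 0 < ε) (hε' : ε ≤ 1 / 4) :
    ((univ.filter fun q : V × V => ε * W.card ≤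
      |(codgr G q.1 q.2 W : ℝ) - (W.card : ℝ) / 4|).card : ℝ) ≤
      34 * K ^ 2 * (Fintype.card V : ℝ) ^ 2 / (ε ^ 2 * W.card) := by
  have hh : (0 : ℝ) < W.card := by exact_mod_cast card_pos.2 hW
  have hV : (0 : ℝ) ≤ Fintype.card V := Nat.cast_nonneg _
  set X : Finset V := univ.filter fun u : V =>
    ε * W.card ≤ |(dgr G u W : ℝ) - (W.card : ℝ) / 2| with hX
  have hXc := card_dgr hG hW hε
  rw [← hX] at hXc
  have h1 : ((univ.filter fun q : V × V => ε * W.card ≤
      |(codgr G q.1 q.2 W : ℝ) - (W.card : ℝ) / 4|).card : ℝ) =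
      ∑ u : V, ((univ.filter fun v : V => ε * W.card ≤
        |(codgr G u v W : ℝ) - (W.card : ℝ) / 4|).card : ℝ) := by
    rw [← Nat.cast_sum]
    congr 1
    rw [card_filter, ← univ_product_univ, sum_product]
    refine sum_congr rfl (fun u _ => ?_)
    rw [card_filter]
  rw [h1, ← sum_add_sum_compl X]
  have h2 : ∑ u ∈ X, ((univ.filter fun v : V => ε * W.card ≤
        |(codgr G u v W : ℝ) - (W.card : ℝ) / 4|).card : ℝ) ≤
      X.card * (Fintype.card V : ℝ) := by
    rw [← nsmul_eq_mul]
    refine sum_le_card_nsmul _ _ _ (fun u _ => ?_)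
    exact_mod_cast card_le_univ _
  have h3 : ∑ u ∈ Xᶜ, ((univ.filter fun v : V => ε * W.card ≤
        |(codgr G u v W : ℝ) - (W.card : ℝ) / 4|).card : ℝ) ≤
      (Fintype.card V : ℝ) * (32 * K ^ 2 * Fintype.card V / (ε ^ 2 * W.card)) := by
    calc _ ≤ ∑ u ∈ Xᶜ, 32 * K ^ 2 * Fintype.card V / (ε ^ 2 * W.card) := by
          refine sum_le_sum (fun u hu => ?_)
          have hu' : |(dgr G u W : ℝ) - (W.card : ℝ) / 2| < ε * W.card := by
            by_contra hcon
            exact (mem_compl.1 hu) (mem_filter.2 ⟨mem_univ _, not_lt.1 hcon⟩)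
          have hu2 := abs_lt.1 hu'
          have hd : (W.card : ℝ) / 4 ≤ dgr G u W := by nlinarith
          have hd1 : (dgr G u W : ℝ) ≤ W.card := by
            unfold dgr
            exact_mod_cast card_filter_le _ _
          have hd0 : (0 : ℝ) < dgr G u W := by linarith
          have h4 := card_codgr hG (u := u) (W := W) (half_pos hε) (by exact_mod_cast hd0)
          have h5 : ((univ.filter fun v : V => ε * W.card ≤
              |(codgr G u v W : ℝ) - (W.card : ℝ) / 4|).card : ℝ) ≤
              ((univ.filter fun v : V => ε / 2 * dgr G u W ≤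
                |(codgr G u v W : ℝ) - (dgr G u W : ℝ) / 2|).card : ℝ) := by
            refine Nat.cast_le.2 (card_le_card (fun v hv => ?_))
            rw [mem_filter] at hv ⊢
            refine ⟨hv.1, ?_⟩
            have h6 := hv.2
            have h7 : |(codgr G u v W : ℝ) - (W.card : ℝ) / 4| ≤
                |(codgr G u v W : ℝ) - (dgr G u W : ℝ) / 2| +
                |(dgr G u W : ℝ) / 2 - (W.card : ℝ) / 4| := by
              have := abs_add_le ((codgr G u v W : ℝ) - (dgr G u W : ℝ) / 2)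
                ((dgr G u W : ℝ) / 2 - (W.card : ℝ) / 4)
              rwa [sub_add_sub_cancel] at this
            have h8 : |(dgr G u W : ℝ) / 2 - (W.card : ℝ) / 4| ≤ ε * W.card / 2 := by
              rw [abs_le]
              constructor <;> linarith
            have h9 : ε / 2 * dgr G u W ≤ ε / 2 * W.card :=
              mul_le_mul_of_nonneg_left hd1 (half_pos hε).le
            linarith
          refine h5.trans (h4.trans ?_)
          rw [div_le_div_iff₀ (by positivity) (by positivity)]
          have h10 : (0 : ℝ) ≤ K ^ 2 * Fintype.card V * ε ^ 2 := by positivity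
          nlinarith [mul_le_mul_of_nonneg_left hd h10]
      _ = (Xᶜ.card : ℝ) * (32 * K ^ 2 * Fintype.card V / (ε ^ 2 * W.card)) := by
          rw [sum_const, nsmul_eq_mul]
      _ ≤ _ := by
          refine mul_le_mul_of_nonneg_right ?_ (by positivity)
          exact_mod_cast card_le_univ _
  have h4 : (X.card : ℝ) * (Fintype.card V : ℝ) ≤
      2 * K ^ 2 * Fintype.card V / (ε ^ 2 * W.card) * Fintype.card V :=
    mul_le_mul_of_nonneg_right hXc hV
  have h5 : 34 * K ^ 2 * (Fintype.card V : ℝ) ^ 2 / (ε ^ 2 * W.card) =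
      2 * K ^ 2 * Fintype.card V / (ε ^ 2 * W.card) * Fintype.card V +
      (Fintype.card V : ℝ) * (32 * K ^ 2 * Fintype.card V / (ε ^ 2 * W.card)) := by
    ring
  rw [h5]
  linarith

open Classical in
/-- Almost all labelled graphs are quasirandom. -/
theorem card_not_QRK {η : ℝ} (hη : 0 < η) (hη' : η ≤ 1 / 2) {n : ℕ} (hn : 4 ≤ n)
    (hn' : 1 ≤ η * n) :
    ((univ.filter fun G : SimpleGraph (Fin n) => ¬ QRK 2 η G).card : ℝ) ≤
      (2 * Real.exp (-((n : ℝ) / 2)) + 2 * (n : ℝ) ^ 2 * Real.exp (-(η ^ 2 * n / 4))) *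
        Fintype.card (SimpleGraph (Fin n)) := by
  have h1 := card_not_disc (n := n) (by omega)
  have h2 := card_not_degCodeg hη hη' hn hn'
  have h3 : (univ.filter fun G : SimpleGraph (Fin n) => ¬ QRK 2 η G) ⊆
      (univ.filter fun G : SimpleGraph (Fin n) => ¬ Disc G) ∪
      (univ.filter fun G : SimpleGraph (Fin n) => ¬ DegCodeg η G) := by
    intro G hG
    rw [mem_filter] at hG
    rw [mem_union, mem_filter, mem_filter]
    by_contra hcon
    push Not at hcon
    exact hG.2 (QRK.of_fin (hcon.1 (mem_univ _)) (hcon.2 (mem_univ _)))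
  have h4 : ((univ.filter fun G : SimpleGraph (Fin n) => ¬ QRK 2 η G).card : ℝ) ≤
      (univ.filter fun G : SimpleGraph (Fin n) => ¬ Disc G).card +
      (univ.filter fun G : SimpleGraph (Fin n) => ¬ DegCodeg η G).card := by
    exact_mod_cast (card_le_card h3).trans (Finset.card_union_le _ _)
  rw [add_mul]
  refine h4.trans (add_le_add ?_ ?_)
  · rwa [neg_div] at h1
  · exact h2

end Pool.Agent.Work.MP_ceb7a8_co
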