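import Pool.Agent.Work.MP_ceb7a8_co.QR
import Pool.Agent.Work.MP_ceb7a8_co.Lower

/-!
Consequences of quasirandomness, in the names of Par (helper25).
-/

namespace CEB

open Finset
open Pool.Agent.Work.MP_ceb7a8_co (DiscK eST dgr codgr)

noncomputable section

open scoped Classical

variable {V : Type*} [Fintype V] {G : SimpleGraph V}

theorem mem_gn {u v : V} : v ∈ gn G u ↔ G.Adj u v := by
  simp [gn]

theorem dgr_eq_gn (G : SimpleGraph V) (u : V) (W : Finset V) :
    dgr G u W = (gn G u ∩ W).card := by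
  unfold dgr
  congr 1
  ext x
  rw [mem_filter, mem_inter, mem_gn, and_comm]

theorem codgr_eq_gn (G : SimpleGraph V) (u v : V) (W : Finset V) :
    codgr G u v W = (gn G u ∩ gn G v ∩ W).card := by
  unfold codgr
  congr 1
  ext x
  rw [mem_filter, mem_inter, mem_inter, mem_gn, mem_gn, and_comm]

namespace QR

theorem gn_le (h : QR G) (v : V) : ((gn G v).card : ℝ) ≤ (1 / 2 + eta) * nn V := by
  have := abs_le.1 (h.q2 v)
  linarith

theorem gn_ge (h : QR G) (v : V) : (1 / 2 - eta) * nn V ≤ ((gn G v).card : ℝ) := by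
  have := abs_le.1 (h.q2 v)
  linarith

theorem co_le (h : QR G) {u v : V} (huv : u ≠ v) :
    ((gn G u ∩ gn G v).card : ℝ) ≤ (1 / 4 + eta) * nn V := by
  have := abs_le.1 (h.q3 u v huv)
  linarith

theorem co_ge (h : QR G) {u v : V} (huv : u ≠ v) :
    (1 / 4 - eta) * nn V ≤ ((gn G u ∩ gn G v).card : ℝ) := by
  have := abs_le.1 (h.q3 u v huv)
  linarith

/-- (Q6) -/
theorem union_le (h : QR G) {u v : V} (huv : u ≠ v) :
    ((gn G u ∪ gn G v).card : ℝ) ≤ (3 / 4 + 3 * eta) * nn V := by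
  have h1 : ((gn G u ∪ gn G v).card : ℝ) + (gn G u ∩ gn G v).card =
      (gn G u).card + (gn G v).card := by
    exact_mod_cast card_union_add_card_inter (gn G u) (gn G v)
  have h2 := h.gn_le u
  have h3 := h.gn_le v
  have h4 := h.co_ge huv
  linarith

/-- neighbours of u that are not neighbours of v -/
theorem sdiff_ge (h : QR G) {u v : V} (huv : u ≠ v) :
    (1 / 4 - 2 * eta) * nn V ≤ ((gn G u \ gn G v).card : ℝ) := by
  have h1 : ((gn G u \ gn G v).card : ℝ) + (gn G u ∩ gn G v).card = (gn G u).card := by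
    exact_mod_cast card_sdiff_add_card_inter (gn G u) (gn G v)
  have h2 := h.gn_ge u
  have h4 := h.co_le huv
  linarith

/-- (Q4), low degrees into W -/
theorem card_low (h : QR G) {W : Finset V} (hW : W.Nonempty) {e : ℝ} (he : 0 < e) :
    ((univ.filter fun v : V => ((gn G v ∩ W).card : ℝ) ≤ (1 / 2 - e) * W.card).card : ℝ) ≤
      16 * nn V / (e ^ 2 * W.card) := by
  have h1 := Pool.Agent.Work.MP_ceb7a8_co.card_low h.disc hW he
  simp only [dgr_eq_gn] at h1
  refine h1.trans (le_of_eq ?_)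
  unfold nn
  norm_num

/-- (Q4), high degrees into W -/
theorem card_high (h : QR G) {W : Finset V} (hW : W.Nonempty) {e : ℝ} (he : 0 < e) :
    ((univ.filter fun v : V => (1 / 2 + e) * W.card ≤ ((gn G v ∩ W).card : ℝ)).card : ℝ) ≤
      16 * nn V / (e ^ 2 * W.card) := by
  have h1 := Pool.Agent.Work.MP_ceb7a8_co.card_high h.disc hW he
  simp only [dgr_eq_gn] at h1
  refine h1.trans (le_of_eq ?_)
  unfold nn
  norm_num

/-- (Q4), both sides -/
theorem card_dev (h : QR G) {W : Finset V} (hW : W.Nonempty) {e : ℝ} (he : 0 < e) :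
    ((univ.filter fun v : V =>
      e * W.card ≤ |((gn G v ∩ W).card : ℝ) - (W.card : ℝ) / 2|).card : ℝ) ≤
      32 * nn V / (e ^ 2 * W.card) := by
  have h1 := Pool.Agent.Work.MP_ceb7a8_co.card_dgr h.disc hW he
  simp only [dgr_eq_gn] at h1
  refine h1.trans (le_of_eq ?_)
  unfold nn
  norm_num

/-- (Q4) for codegrees with a fixed vertex u, low side -/
theorem card_co_low (h : QR G) {W : Finset V} {u : V} {e : ℝ} (he : 0 < e)
    (hu : 0 < (gn G u ∩ W).card) :
    ((univ.filter fun v : V => ((gn G u ∩ gn G v ∩ W).card : ℝ) ≤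
      (1 / 2 - e) * (gn G u ∩ W).card).card : ℝ) ≤
      16 * nn V / (e ^ 2 * (gn G u ∩ W).card) := by
  have h1 := h.card_low (W := gn G u ∩ W) (card_pos.1 hu) he
  refine le_trans (Nat.cast_le.2 (card_le_card ?_)) h1
  intro v hv
  rw [mem_filter] at hv ⊢
  refine ⟨hv.1, ?_⟩
  have : gn G v ∩ (gn G u ∩ W) = gn G u ∩ gn G v ∩ W := by
    ext x
    simp only [mem_inter]
    tauto
  rw [this]
  exact hv.2

/-- (Q4) for codegrees with a fixed vertex u, both sides -/
theorem card_co_dev (h : QR G) {W : Finset V} {u : V} {e : ℝ} (he : 0 < e)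
    (hu : 0 < (gn G u ∩ W).card) :
    ((univ.filter fun v : V => e * (gn G u ∩ W).card ≤
      |((gn G u ∩ gn G v ∩ W).card : ℝ) - ((gn G u ∩ W).card : ℝ) / 2|).card : ℝ) ≤
      32 * nn V / (e ^ 2 * (gn G u ∩ W).card) := by
  have h1 := h.card_dev (W := gn G u ∩ W) (card_pos.1 hu) he
  refine le_trans (Nat.cast_le.2 (card_le_card ?_)) h1
  intro v hv
  rw [mem_filter] at hv ⊢
  refine ⟨hv.1, ?_⟩
  have : gn G v ∩ (gn G u ∩ W) = gn G u ∩ gn G v ∩ W := by
    ext x
    simp only [mem_inter]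
    tauto
  rw [this]
  exact hv.2

/-- ordered pairs whose codegree into W is not about |W|/4 -/
theorem card_pairs_dev (h : QR G) {W : Finset V} (hW : W.Nonempty) {e : ℝ} (he : 0 < e)
    (he' : e ≤ 1 / 4) :
    (((univ : Finset (V × V)).filter fun q => e * W.card ≤
      |((gn G q.1 ∩ gn G q.2 ∩ W).card : ℝ) - (W.card : ℝ) / 4|).card : ℝ) ≤
      544 * nn V ^ 2 / (e ^ 2 * W.card) := by
  have h1 := Pool.Agent.Work.MP_ceb7a8_co.card_bad_codgr h.disc hW he he'
  simp only [codgr_eq_gn] at h1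
  refine h1.trans (le_of_eq ?_)
  unfold nn
  norm_num

/-- few adjacent ordered pairs in a set -/
theorem adj_pairs_le (h : QR G) (S : Finset V) :
    (((S ×ˢ S).filter fun q => G.Adj q.1 q.2).card : ℝ) ≤
      (S.card : ℝ) ^ 2 / 2 + 4 * (Real.sqrt (nn V) * S.card) := by
  have h1 := (abs_le.1 (h.q1 S S)).2
  have h2 : Real.sqrt (nn V * (S.card * S.card)) = Real.sqrt (nn V) * S.card := by
    have h0 : (0 : ℝ) ≤ nn V := Nat.cast_nonneg _
    rw [Real.sqrt_mul h0, Real.sqrt_mul_self (Nat.cast_nonneg _)]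
  rw [h2] at h1
  have h3 : eS G S S = ((S ×ˢ S).filter fun q => G.Adj q.1 q.2).card := rfl
  rw [h3] at h1
  linarith

/-- many non-adjacent ordered pairs in a set -/
theorem nonadj_pairs_ge (h : QR G) (S : Finset V) :
    (S.card : ℝ) ^ 2 / 2 - S.card - 4 * (Real.sqrt (nn V) * S.card) ≤
      (((S ×ˢ S).filter fun q => q.1 ≠ q.2 ∧ ¬ G.Adj q.1 q.2).card : ℝ) := by
  have h1 := h.adj_pairs_le S
  have h2 : (S ×ˢ S) ⊆ ((S ×ˢ S).filter fun q => G.Adj q.1 q.2) ∪
      ((S ×ˢ S).filter fun q => q.1 ≠ q.2 ∧ ¬ G.Adj q.1 q.2) ∪ S.diag := by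
    intro q hq
    rw [mem_union, mem_union, mem_filter, mem_filter, mem_diag]
    by_cases h3 : G.Adj q.1 q.2
    · exact Or.inl (Or.inl ⟨hq, h3⟩)
    · by_cases h4 : q.1 = q.2
      · exact Or.inr ⟨(mem_product.1 hq).1, h4⟩
      · exact Or.inl (Or.inr ⟨hq, h4, h3⟩)
  have h3 := card_le_card h2
  have h4 := card_union_le (((S ×ˢ S).filter fun q => G.Adj q.1 q.2) ∪
      ((S ×ˢ S).filter fun q => q.1 ≠ q.2 ∧ ¬ G.Adj q.1 q.2)) S.diag
  have h5 := card_union_le ((S ×ˢ S).filter fun q => G.Adj q.1 q.2)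
      ((S ×ˢ S).filter fun q => q.1 ≠ q.2 ∧ ¬ G.Adj q.1 q.2)
  rw [diag_card] at h4
  rw [card_product] at h3
  have h6 : S.card * S.card ≤ ((S ×ˢ S).filter fun q => G.Adj q.1 q.2).card +
      ((S ×ˢ S).filter fun q => q.1 ≠ q.2 ∧ ¬ G.Adj q.1 q.2).card + S.card := by omega
  have h7 : (S.card : ℝ) * S.card ≤ (((S ×ˢ S).filter fun q => G.Adj q.1 q.2).card : ℝ) +
      (((S ×ˢ S).filter fun q => q.1 ≠ q.2 ∧ ¬ G.Adj q.1 q.2).card : ℝ) + S.card := by
    exact_mod_cast h6
  nlinarith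

end QR

end

end CEB
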