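import Mathlib

/-!
Almost all labelled graphs have small discrepancy (helper25): for all sets `S`, `T` of vertices
the number of adjacent pairs `(s, t)` in `S × T` differs from `|S| |T| / 2` by at most
`2 √(n |S| |T|)`.
-/

namespace Pool.Agent.Work.MP_ceb7a8_co

open Finset

open Classical in
/-- the number of pairs `(s, t)` in `S × T` with `s` adjacent to `t` -/
noncomputable def eST {V : Type*} (G : SimpleGraph V) (S T : Finset V) : ℕ :=
  ((S ×ˢ T).filter fun q => G.Adj q.1 q.2).card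

/-- small discrepancy, with constant `K` -/
def DiscK {V : Type*} [Fintype V] (K : ℝ) (G : SimpleGraph V) : Prop :=
  ∀ S T : Finset V, |(eST G S T : ℝ) - (S.card : ℝ) * T.card / 2| ≤
    K * Real.sqrt (Fintype.card V * (S.card * T.card))

/-- small discrepancy -/
def Disc {n : ℕ} (G : SimpleGraph (Fin n)) : Prop :=
  ∀ S T : Finset (Fin n),
    |(eST G S T : ℝ) - (S.card : ℝ) * T.card / 2| ≤ 2 * Real.sqrt (n * (S.card * T.card))

theorem Disc.discK {n : ℕ} {G : SimpleGraph (Fin n)} (h : Disc G) : DiscK 2 G := by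
  intro S T
  rw [Fintype.card_fin]
  exact h S T

namespace Rand

/-- the set of all pairs of different vertices -/
def E (n : ℕ) : Finset (Sym2 (Fin n)) := univ.filter fun e => ¬ e.IsDiag

open Classical in
/-- multiplicity of the pair `e` in `S × T` -/
noncomputable def c {n : ℕ} (S T : Finset (Fin n)) (e : Sym2 (Fin n)) : ℕ :=
  ((S ×ˢ T).filter fun q => s(q.1, q.2) = e).card

theorem c_le_two {n : ℕ} (S T : Finset (Fin n)) (e : Sym2 (Fin n)) : c S T e ≤ 2 := by
  classical
  unfold c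
  induction e using Sym2.ind with
  | _ a b =>
    have h1 : ((S ×ˢ T).filter fun q => s(q.1, q.2) = s(a, b)) ⊆ {(a, b), (b, a)} := by
      intro q hq
      have h2 := (mem_filter.1 hq).2
      rw [Sym2.eq_iff] at h2
      rw [mem_insert, mem_singleton]
      rcases h2 with h2 | h2
      · left; exact Prod.ext h2.1 h2.2
      · right; exact Prod.ext h2.1 h2.2
    exact (card_le_card h1).trans card_le_two

/-- the exponential moment -/
theorem exp_moment {n : ℕ} (c : Sym2 (Fin n) → ℝ) (l : ℝ) :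
    ∑ F ∈ (E n).powerset, Real.exp (l * (∑ e ∈ F, c e - (∑ e ∈ E n, c e) / 2)) ≤
      2 ^ (E n).card * Real.exp (l ^ 2 / 8 * ∑ e ∈ E n, c e ^ 2) := by
  classical
  have h1 : ∑ F ∈ (E n).powerset, Real.exp (l * (∑ e ∈ F, c e - (∑ e ∈ E n, c e) / 2)) =
      ∏ e ∈ E n, (Real.exp (l * c e / 2) + Real.exp (-(l * c e / 2))) := by
    rw [prod_add]
    refine sum_congr rfl (fun F hF => ?_)
    rw [mem_powerset] at hF
    rw [← Real.exp_sum, ← Real.exp_sum, ← Real.exp_add]
    congr 1
    rw [sum_neg_distrib, ← sum_div, ← sum_div, ← mul_sum, ← mul_sum]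
    have h2 : ∑ e ∈ E n, c e = ∑ e ∈ E n \ F, c e + ∑ e ∈ F, c e := (sum_sdiff hF).symm
    rw [h2]
    ring
  rw [h1]
  have h2 : ∀ e ∈ E n, Real.exp (l * c e / 2) + Real.exp (-(l * c e / 2)) ≤
      2 * Real.exp (l ^ 2 / 8 * c e ^ 2) := by
    intro e _
    have h3 := Real.cosh_le_exp_half_sq (l * c e / 2)
    rw [Real.cosh_eq] at h3
    have h4 : (l * c e / 2) ^ 2 / 2 = l ^ 2 / 8 * c e ^ 2 := by ring
    rw [h4] at h3
    linarith
  refine (prod_le_prod (fun e _ => by positivity) h2).trans (le_of_eq ?_)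
  rw [prod_mul_distrib, prod_const, ← Real.exp_sum, mul_sum]

/-- one-sided deviation -/
theorem dev_le {n : ℕ} (S T : Finset (Fin n)) (σ : ℝ) (hσ : σ ^ 2 = 1) {τ : ℝ} (hτ : 0 ≤ τ)
    (hST : 0 < (S.card : ℝ) * T.card) :
    (((E n).powerset.filter fun F =>
      τ ≤ σ * (∑ e ∈ F, (c S T e : ℝ) - (∑ e ∈ E n, (c S T e : ℝ)) / 2)).card : ℝ) ≤
      2 ^ (E n).card * Real.exp (-(τ ^ 2 / (S.card * T.card))) := by
  classical
  set m : ℝ := (S.card : ℝ) * T.card with hm
  have hsq : ∑ e ∈ E n, ((c S T e : ℝ)) ^ 2 ≤ 2 * m := by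
    have h1 : ∀ e ∈ E n, ((c S T e : ℝ)) ^ 2 ≤ 2 * (c S T e : ℝ) := by
      intro e _
      have h2 : (c S T e : ℝ) ≤ 2 := by exact_mod_cast c_le_two S T e
      have h3 : (0 : ℝ) ≤ c S T e := Nat.cast_nonneg _
      nlinarith
    refine (sum_le_sum h1).trans ?_
    rw [← mul_sum]
    have h4 : ∑ e ∈ E n, c S T e ≤ S.card * T.card := by
      unfold c
      rw [← card_product]
      refine (le_of_eq ?_).trans (card_filter_le (S ×ˢ T) (fun q => s(q.1, q.2) ∈ E n))
      rw [card_eq_sum_card_fiberwise (f := fun q : Fin n × Fin n => s(q.1, q.2)) (t := E n)]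
      · refine sum_congr rfl (fun e he => ?_)
        congr 1
        ext q
        simp only [mem_filter]
        constructor
        · rintro ⟨h5, h6⟩
          exact ⟨⟨h5, h6 ▸ he⟩, h6⟩
        · rintro ⟨⟨h5, _⟩, h6⟩
          exact ⟨h5, h6⟩
      · intro q hq
        exact (mem_filter.1 hq).2
    have h5 : (∑ e ∈ E n, (c S T e : ℝ)) ≤ m := by
      rw [hm]
      exact_mod_cast h4
    linarith
  set l : ℝ := 2 * τ / m with hl
  have h1 := exp_moment (fun e => (c S T e : ℝ)) (l * σ)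
  have h2 : (((E n).powerset.filter fun F =>
      τ ≤ σ * (∑ e ∈ F, (c S T e : ℝ) - (∑ e ∈ E n, (c S T e : ℝ)) / 2)).card : ℝ) *
      Real.exp (l * τ) ≤
      ∑ F ∈ (E n).powerset, Real.exp (l * σ * (∑ e ∈ F, (c S T e : ℝ) -
        (∑ e ∈ E n, (c S T e : ℝ)) / 2)) := by
    rw [← nsmul_eq_mul, ← sum_const]
    refine (sum_le_sum (fun F hF => ?_)).trans
      (sum_le_sum_of_subset_of_nonneg (filter_subset _ _) (fun F _ _ => (Real.exp_pos _).le))
    have h3 := (mem_filter.1 hF).2
    rw [Real.exp_le_exp, mul_assoc]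
    exact mul_le_mul_of_nonneg_left h3 (by positivity)
  have h3 : (l * σ) ^ 2 / 8 * ∑ e ∈ E n, ((c S T e : ℝ)) ^ 2 ≤ τ ^ 2 / m := by
    have h4 : (l * σ) ^ 2 / 8 * (2 * m) = τ ^ 2 / m := by
      rw [mul_pow, hσ, hl]
      field_simp
      ring
    rw [← h4]
    exact mul_le_mul_of_nonneg_left hsq (by positivity)
  have h4 := h2.trans (h1.trans (mul_le_mul_of_nonneg_left (Real.exp_le_exp.2 h3) (by positivity)))
  have h5 : l * τ = 2 * (τ ^ 2 / m) := by
    rw [hl]
    ring
  rw [h5] at h4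
  have h6 : Real.exp (-(τ ^ 2 / m)) = Real.exp (τ ^ 2 / m) / Real.exp (2 * (τ ^ 2 / m)) := by
    rw [← Real.exp_sub]
    congr 1
    ring
  rw [h6, ← mul_div_assoc, le_div_iff₀ (Real.exp_pos _)]
  exact h4

open Classical in
/-- the edge set of a graph as a finite set -/
noncomputable def toF {n : ℕ} (G : SimpleGraph (Fin n)) : Finset (Sym2 (Fin n)) :=
  (E n).filter fun e => e ∈ G.edgeSet

theorem mem_toF {n : ℕ} {G : SimpleGraph (Fin n)} {e : Sym2 (Fin n)} :
    e ∈ toF G ↔ e ∈ G.edgeSet := by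
  unfold toF E
  simp only [mem_filter, mem_univ, true_and]
  constructor
  · exact fun h => h.2
  · exact fun h => ⟨G.not_isDiag_of_mem_edgeSet h, h⟩

theorem toF_inj {n : ℕ} {G G' : SimpleGraph (Fin n)} (h : toF G = toF G') : G = G' := by
  rw [← SimpleGraph.edgeSet_inj]
  ext e
  rw [← mem_toF, ← mem_toF, h]

theorem toF_surj {n : ℕ} {F : Finset (Sym2 (Fin n))} (hF : F ∈ (E n).powerset) :
    ∃ G : SimpleGraph (Fin n), toF G = F := by
  refine ⟨SimpleGraph.fromEdgeSet (F : Set (Sym2 (Fin n))), ?_⟩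
  ext e
  rw [mem_toF, SimpleGraph.edgeSet_fromEdgeSet]
  constructor
  · exact fun h => h.1
  · intro h
    refine ⟨h, ?_⟩
    have h1 := (mem_filter.1 (mem_powerset.1 hF h)).2
    exact h1

theorem eST_eq {n : ℕ} (G : SimpleGraph (Fin n)) (S T : Finset (Fin n)) :
    eST G S T = ∑ e ∈ toF G, c S T e := by
  classical
  unfold eST c
  rw [card_eq_sum_card_fiberwise (f := fun q : Fin n × Fin n => s(q.1, q.2)) (t := toF G)]
  · refine sum_congr rfl (fun e he => ?_)
    congr 1
    ext q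
    simp only [mem_filter]
    constructor
    · rintro ⟨⟨h5, _⟩, h6⟩
      exact ⟨h5, h6⟩
    · rintro ⟨h5, h6⟩
      refine ⟨⟨h5, ?_⟩, h6⟩
      rw [← h6, mem_toF, SimpleGraph.mem_edgeSet] at he
      exact he
  · intro q hq
    rw [mem_coe, mem_toF, SimpleGraph.mem_edgeSet]
    exact (mem_filter.1 hq).2

theorem sum_c {n : ℕ} (S T : Finset (Fin n)) :
    ∑ e ∈ E n, c S T e + (S ∩ T).card = S.card * T.card := by
  classical
  have h1 : ∑ e ∈ E n, c S T e = ((S ×ˢ T).filter fun q => q.1 ≠ q.2).card := by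
    unfold c
    rw [card_eq_sum_card_fiberwise (f := fun q : Fin n × Fin n => s(q.1, q.2)) (t := E n)]
    · refine sum_congr rfl (fun e he => ?_)
      congr 1
      ext q
      simp only [mem_filter]
      constructor
      · rintro ⟨h5, h6⟩
        refine ⟨⟨h5, ?_⟩, h6⟩
        rw [← h6] at he
        exact (mem_filter.1 he).2
      · rintro ⟨⟨h5, _⟩, h6⟩
        exact ⟨h5, h6⟩
    · intro q hq
      exact mem_filter.2 ⟨mem_univ _, (mem_filter.1 hq).2⟩
  have h2 : (S ∩ T).card = ((S ×ˢ T).filter fun q => ¬ q.1 ≠ q.2).card := by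
    refine card_bij' (fun a _ => (a, a)) (fun q _ => q.1) ?_ ?_ ?_ ?_
    · intro a ha
      rw [mem_inter] at ha
      exact mem_filter.2 ⟨mem_product.2 ⟨ha.1, ha.2⟩, by simp⟩
    · intro q hq
      rw [mem_filter, mem_product, not_not] at hq
      exact mem_inter.2 ⟨hq.1.1, hq.2 ▸ hq.1.2⟩
    · intro a _
      rfl
    · intro q hq
      rw [mem_filter, not_not] at hq
      exact Prod.ext rfl hq.2
  rw [h1, h2, card_filter_add_card_filter_not, card_product]

open Classical in
theorem card_graph (n : ℕ) :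
    (Fintype.card (SimpleGraph (Fin n))) = 2 ^ (E n).card := by
  rw [← card_powerset, ← card_univ]
  refine card_bij (fun G _ => toF G) ?_ ?_ ?_
  · intro G _
    rw [mem_powerset]
    exact filter_subset _ _
  · intro G _ G' _ h
    exact toF_inj h
  · intro F hF
    obtain ⟨G, hG⟩ := toF_surj hF
    exact ⟨G, mem_univ _, hG⟩

/-- the deviation -/
noncomputable def dev {n : ℕ} (S T : Finset (Fin n)) (F : Finset (Sym2 (Fin n))) : ℝ :=
  ∑ e ∈ F, (c S T e : ℝ) - (∑ e ∈ E n, (c S T e : ℝ)) / 2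

theorem dev_of_not_disc {n : ℕ} (hn : 1 ≤ n) {G : SimpleGraph (Fin n)} (h : ¬ Disc G) :
    ∃ S T : Finset (Fin n), 0 < (S.card : ℝ) * T.card ∧
      (3 / 2 * Real.sqrt (n * (S.card * T.card)) ≤ 1 * dev S T (toF G) ∨
        3 / 2 * Real.sqrt (n * (S.card * T.card)) ≤ (-1) * dev S T (toF G)) := by
  classical
  unfold Disc at h
  push Not at h
  obtain ⟨S, T, h⟩ := h
  set m : ℝ := (S.card : ℝ) * T.card with hm
  have hm0 : 0 ≤ m := by positivity
  have hcases : 0 < m := by
    rcases hm0.lt_or_eq with h0 | h0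
    · exact h0
    · exfalso
      have h1 : S.card * T.card = 0 := by
        have : ((S.card * T.card : ℕ) : ℝ) = 0 := by
          rw [Nat.cast_mul]
          exact h0.symm
        exact_mod_cast this
      have h2 : eST G S T = 0 := by
        have h3 : eST G S T ≤ S.card * T.card := by
          unfold eST
          exact (card_filter_le _ _).trans (le_of_eq (card_product _ _))
        omega
      rw [h2, ← h0] at h
      simp at h
  refine ⟨S, T, hcases, ?_⟩
  have hi : ((S ∩ T).card : ℝ) ≤ Real.sqrt (n * m) := by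
    refine Real.le_sqrt_of_sq_le ?_
    have h1 : ((S ∩ T).card : ℝ) ≤ S.card := by exact_mod_cast card_le_card inter_subset_left
    have h2 : ((S ∩ T).card : ℝ) ≤ T.card := by exact_mod_cast card_le_card inter_subset_right
    have h3 : (1 : ℝ) ≤ n := by exact_mod_cast hn
    have h4 : (0 : ℝ) ≤ (S ∩ T).card := Nat.cast_nonneg _
    calc ((S ∩ T).card : ℝ) ^ 2 = (S ∩ T).card * (S ∩ T).card := by ring
      _ ≤ S.card * T.card := mul_le_mul h1 h2 h4 (Nat.cast_nonneg _)
      _ ≤ n * m := by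
        rw [← hm]
        nlinarith
  have h1 : ((∑ e ∈ E n, c S T e : ℕ) : ℝ) + ((S ∩ T).card : ℝ) = m := by
    rw [hm]
    exact_mod_cast sum_c S T
  have h2 : dev S T (toF G) = (eST G S T : ℝ) - (m - (S ∩ T).card) / 2 := by
    unfold dev
    rw [eST_eq]
    push_cast at h1 ⊢
    linarith
  have h3 : (0 : ℝ) ≤ (S ∩ T).card := Nat.cast_nonneg _
  rcases le_or_gt 0 ((eST G S T : ℝ) - m / 2) with h4 | h4
  · rw [abs_of_nonneg h4] at h
    left
    rw [h2]
    nlinarith [Real.sqrt_nonneg (n * m)]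
  · rw [abs_of_neg h4] at h
    right
    rw [h2]
    nlinarith [Real.sqrt_nonneg (n * m)]

end Rand

open Classical in
/-- all but a proportion `2 exp (-n/2)` of the labelled graphs on `n` vertices have small
discrepancy -/
theorem card_not_disc {n : ℕ} (hn : 1 ≤ n) :
    ((univ.filter fun G : SimpleGraph (Fin n) => ¬ Disc G).card : ℝ) ≤
      2 * Real.exp (-(n : ℝ) / 2) * Fintype.card (SimpleGraph (Fin n)) := by
  have h0 : ∀ σ : ℝ, σ ^ 2 = 1 → ∀ S T : Finset (Fin n), 0 < (S.card : ℝ) * T.card →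
      ((univ.filter fun G : SimpleGraph (Fin n) =>
        3 / 2 * Real.sqrt (n * (S.card * T.card)) ≤ σ * Rand.dev S T (Rand.toF G)).card : ℝ) ≤
      2 ^ (Rand.E n).card * Real.exp (-(9 / 4 * n)) := by
    intro σ hσ S T hST
    have h1 := Rand.dev_le S T σ hσ (τ := 3 / 2 * Real.sqrt (n * (S.card * T.card)))
      (by positivity) hST
    have h2 : (3 / 2 * Real.sqrt (n * (S.card * T.card))) ^ 2 / ((S.card : ℝ) * T.card) =
        9 / 4 * n := by
      rw [mul_pow, Real.sq_sqrt (by positivity), div_eq_iff hST.ne']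
      ring
    rw [h2] at h1
    refine le_trans ?_ h1
    have h3 : (univ.filter fun G : SimpleGraph (Fin n) =>
        3 / 2 * Real.sqrt (n * (S.card * T.card)) ≤ σ * Rand.dev S T (Rand.toF G)).card ≤
      ((Rand.E n).powerset.filter fun F => 3 / 2 * Real.sqrt (n * (S.card * T.card)) ≤
        σ * (∑ e ∈ F, (Rand.c S T e : ℝ) - (∑ e ∈ Rand.E n, (Rand.c S T e : ℝ)) / 2)).card := by
      refine card_le_card_of_injOn Rand.toF ?_ (fun G _ G' _ h => Rand.toF_inj h)
      intro G hG
      refine mem_coe.2 (mem_filter.2 ⟨mem_powerset.2 (filter_subset _ _), ?_⟩)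
      exact (mem_filter.1 hG).2
    exact_mod_cast h3
  have h1 : (univ.filter fun G : SimpleGraph (Fin n) => ¬ Disc G) ⊆
      ((univ : Finset (Finset (Fin n) × Finset (Fin n))).filter
        (fun q => 0 < (q.1.card : ℝ) * q.2.card)).biUnion fun q =>
        (univ.filter fun G : SimpleGraph (Fin n) => 3 / 2 * Real.sqrt (n * (q.1.card * q.2.card)) ≤
          1 * Rand.dev q.1 q.2 (Rand.toF G)) ∪
        (univ.filter fun G : SimpleGraph (Fin n) => 3 / 2 * Real.sqrt (n * (q.1.card * q.2.card)) ≤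
          (-1) * Rand.dev q.1 q.2 (Rand.toF G)) := by
    intro G hG
    obtain ⟨S, T, h2, h3⟩ := Rand.dev_of_not_disc hn (mem_filter.1 hG).2
    rw [mem_biUnion]
    refine ⟨(S, T), mem_filter.2 ⟨mem_univ _, h2⟩, ?_⟩
    rw [mem_union, mem_filter, mem_filter]
    rcases h3 with h3 | h3
    · exact Or.inl ⟨mem_univ _, h3⟩
    · exact Or.inr ⟨mem_univ _, h3⟩
  have h2 : ((univ.filter fun G : SimpleGraph (Fin n) => ¬ Disc G).card : ℝ) ≤
      ∑ q ∈ ((univ : Finset (Finset (Fin n) × Finset (Fin n))).filter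
        (fun q => 0 < (q.1.card : ℝ) * q.2.card)),
        (2 * (2 ^ (Rand.E n).card * Real.exp (-(9 / 4 * n)))) := by
    have h3 : ((univ.filter fun G : SimpleGraph (Fin n) => ¬ Disc G).card : ℝ) ≤
        ∑ q ∈ ((univ : Finset (Finset (Fin n) × Finset (Fin n))).filter
        (fun q => 0 < (q.1.card : ℝ) * q.2.card)),
        (((univ.filter fun G : SimpleGraph (Fin n) =>
          3 / 2 * Real.sqrt (n * (q.1.card * q.2.card)) ≤
          1 * Rand.dev q.1 q.2 (Rand.toF G)).card : ℝ) +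
        ((univ.filter fun G : SimpleGraph (Fin n) =>
          3 / 2 * Real.sqrt (n * (q.1.card * q.2.card)) ≤
          (-1) * Rand.dev q.1 q.2 (Rand.toF G)).card : ℝ)) := by
      have h4 := (card_le_card h1).trans card_biUnion_le
      have h5 : ∀ q ∈ ((univ : Finset (Finset (Fin n) × Finset (Fin n))).filter
        (fun q => 0 < (q.1.card : ℝ) * q.2.card)), _ := fun q _ => card_union_le
          (univ.filter fun G : SimpleGraph (Fin n) =>
            3 / 2 * Real.sqrt (n * (q.1.card * q.2.card)) ≤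
            1 * Rand.dev q.1 q.2 (Rand.toF G))
          (univ.filter fun G : SimpleGraph (Fin n) =>
            3 / 2 * Real.sqrt (n * (q.1.card * q.2.card)) ≤
            (-1) * Rand.dev q.1 q.2 (Rand.toF G))
      have h6 := h4.trans (sum_le_sum h5)
      exact_mod_cast h6
    refine h3.trans (sum_le_sum (fun q hq => ?_))
    have hq1 := (mem_filter.1 hq).2
    have h4 := h0 1 (by norm_num) q.1 q.2 hq1
    have h5 := h0 (-1) (by norm_num) q.1 q.2 hq1
    linarith
  rw [sum_const, nsmul_eq_mul] at h2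
  have h3 : ((((univ : Finset (Finset (Fin n) × Finset (Fin n))).filter
        (fun q => 0 < (q.1.card : ℝ) * q.2.card)).card : ℕ) : ℝ) ≤ 4 ^ n := by
    have h4 : ((univ : Finset (Finset (Fin n) × Finset (Fin n))).filter
        (fun q => 0 < (q.1.card : ℝ) * q.2.card)).card ≤ 4 ^ n := by
      refine (card_filter_le _ _).trans (le_of_eq ?_)
      rw [card_univ, Fintype.card_prod, Fintype.card_finset, Fintype.card_fin, ← mul_pow]
      norm_num
    exact_mod_cast h4
  have h4 : (4 : ℝ) ^ n * Real.exp (-(9 / 4 * n)) ≤ Real.exp (-(n : ℝ) / 2) := by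
    have h5 : (4 : ℝ) ≤ Real.exp (7 / 4) := by
      have h6 : (2 : ℝ) ≤ Real.exp (7 / 8) := by
        have h7 := Real.quadratic_le_exp_of_nonneg (x := 7 / 8) (by norm_num)
        linarith
      have h8 : Real.exp (7 / 4) = Real.exp (7 / 8) * Real.exp (7 / 8) := by
        rw [← Real.exp_add]
        norm_num
      rw [h8]
      nlinarith
    calc (4 : ℝ) ^ n * Real.exp (-(9 / 4 * n)) ≤
          Real.exp (7 / 4) ^ n * Real.exp (-(9 / 4 * n)) :=
          mul_le_mul_of_nonneg_right (pow_le_pow_left₀ (by norm_num) h5 n) (Real.exp_pos _).le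
      _ = Real.exp (-(n : ℝ) / 2) := by
          rw [← Real.exp_nat_mul, ← Real.exp_add]
          congr 1
          ring
  have h5 : (Fintype.card (SimpleGraph (Fin n)) : ℝ) = 2 ^ (Rand.E n).card := by
    rw [Rand.card_graph]
    push_cast
    rfl
  rw [h5]
  have h6 : (0 : ℝ) ≤ 2 * (2 ^ (Rand.E n).card * Real.exp (-(9 / 4 * n))) := by positivity
  refine h2.trans ((mul_le_mul_of_nonneg_right h3 h6).trans ?_)
  have h7 : (0 : ℝ) ≤ 2 * 2 ^ (Rand.E n).card := by positivity
  have h8 := mul_le_mul_of_nonneg_left h4 h7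
  calc (4 : ℝ) ^ n * (2 * (2 ^ (Rand.E n).card * Real.exp (-(9 / 4 * n)))) =
        2 * 2 ^ (Rand.E n).card * (4 ^ n * Real.exp (-(9 / 4 * n))) := by ring
    _ ≤ 2 * 2 ^ (Rand.E n).card * Real.exp (-(n : ℝ) / 2) := h8
    _ = _ := by ring

end Pool.Agent.Work.MP_ceb7a8_co
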