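import Pool.Agent.Work.MP_ceb7a8_co.Par
import Pool.Agent.Work.MP_ceb7a8_co.ProdClass

/-!
Regular vertices: the facts (5.1)-(5.4), class invariance.
-/

namespace CEB

namespace Rg

open Finset

noncomputable section

open scoped Classical

/-! ### Numeric facts for Big n -/

section num

variable {V : Type*} [Fintype V]

theorem LL_ge (hn : Big (Fintype.card V)) : (10 : ℝ) ^ 100 ≤ LL V := hn

theorem LL_pos (hn : Big (Fintype.card V)) : 0 < LL V :=
  lt_of_lt_of_le (by positivity) (LL_ge hn)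

theorem nn_pos (hn : Big (Fintype.card V)) : 0 < nn V := by
  by_contra h
  have h1 : nn V = 0 := le_antisymm (not_lt.1 h) (Nat.cast_nonneg _)
  have h2 := LL_pos hn
  rw [LL, h1, Real.log_zero] at h2
  exact lt_irrefl _ h2

theorem nn_eq_exp (hn : Big (Fintype.card V)) : nn V = Real.exp (LL V) :=
  (Real.exp_log (nn_pos hn)).symm

theorem hh_mul (hn : Big (Fintype.card V)) : hh V * LL V = nn V := by
  rw [hh, div_mul_cancel₀ _ (LL_pos hn).ne']

theorem hh_pos (hn : Big (Fintype.card V)) : 0 < hh V := div_pos (nn_pos hn) (LL_pos hn)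

theorem sq_half_le_exp {x : ℝ} (hx : 0 ≤ x) : x ^ 2 / 2 ≤ Real.exp x := by
  have := Real.quadratic_le_exp_of_nonneg hx
  linarith

/-- n^(1 - sig/2) is much smaller than the number of hubs. -/
theorem rho_le (hn : Big (Fintype.card V)) :
    nn V ^ (1 - sig / 2) ≤ hh V / 10 ^ 60 := by
  have hL := LL_ge hn
  have hLp := LL_pos hn
  have hnp := nn_pos hn
  have h1 : nn V ^ (1 - sig / 2) = nn V * Real.exp (-(sig / 2 * LL V)) := by
    rw [Real.rpow_sub hnp, Real.rpow_one, Real.exp_neg, div_eq_mul_inv]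
    congr 1
    rw [Real.rpow_def_of_pos hnp, LL, mul_comm]
  rw [h1, hh, div_div, div_eq_mul_inv]
  apply mul_le_mul_of_nonneg_left _ hnp.le
  rw [Real.exp_neg]
  apply inv_anti₀ (by positivity)
  have h2 : (sig / 2 * LL V) ^ 2 / 2 ≤ Real.exp (sig / 2 * LL V) :=
    sq_half_le_exp (by unfold sig; positivity)
  refine le_trans ?_ h2
  have h3 : (sig / 2 * LL V) ^ 2 / 2 = LL V * (LL V / (8 * 10 ^ 14)) := by
    unfold sig; ring
  rw [h3]
  apply mul_le_mul_of_nonneg_left _ hLp.le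
  rw [le_div_iff₀ (by positivity)]
  refine le_trans ?_ hL
  norm_num

theorem rho_pos (hn : Big (Fintype.card V)) : 0 < nn V ^ (1 - sig / 2) :=
  Real.rpow_pos_of_pos (nn_pos hn) _

/-- log n is much smaller than n^(1 - sig/2). -/
theorem LL_le_rho (hn : Big (Fintype.card V)) :
    LL V ≤ nn V ^ (1 - sig / 2) / 10 ^ 60 := by
  have hL := LL_ge hn
  have hLp := LL_pos hn
  have hnp := nn_pos hn
  rw [le_div_iff₀ (by positivity)]
  have h1 : nn V ^ (1 - sig / 2) = Real.exp ((1 - sig / 2) * LL V) := by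
    rw [Real.rpow_def_of_pos hnp, LL, mul_comm]
  rw [h1]
  have h2 : (LL V / 2) ^ 2 / 2 ≤ Real.exp (LL V / 2) := sq_half_le_exp (by positivity)
  have h3 : Real.exp (LL V / 2) ≤ Real.exp ((1 - sig / 2) * LL V) := by
    apply Real.exp_le_exp.2
    unfold sig
    nlinarith
  refine le_trans ?_ (h2.trans h3)
  have h4 : (LL V / 2) ^ 2 / 2 = LL V * (LL V / 8) := by ring
  rw [h4]
  apply mul_le_mul_of_nonneg_left _ hLp.le
  rw [le_div_iff₀ (by positivity)]
  refine le_trans ?_ hL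
  norm_num

theorem jj_le (hn : Big (Fintype.card V)) : jj V ≤ hh V / 10 ^ 50 := by
  have h1 := rho_le hn
  have h2 := hh_pos hn
  unfold jj
  have h3 : 3 * (hh V / 10 ^ 60) ≤ hh V / 10 ^ 50 := by
    rw [← mul_div_assoc, div_le_div_iff₀ (by positivity) (by positivity)]
    nlinarith
  linarith

theorem hh_le (hn : Big (Fintype.card V)) : hh V ≤ nn V / 10 ^ 90 := by
  have hL := LL_ge hn
  have hLp := LL_pos hn
  have hnp := nn_pos hn
  unfold hh
  apply div_le_div_of_nonneg_left hnp.le (by positivity)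
  refine le_trans ?_ hL
  norm_num

theorem one_le_LL (hn : Big (Fintype.card V)) : 1 ≤ LL V :=
  le_trans (by norm_num) (LL_ge hn)

end num

/-! ### Quasi-randomness: few vertices with small degree into a set -/

section quasi

variable {V : Type*} [Fintype V] {G : SimpleGraph V}

theorem mem_gn {v w : V} : w ∈ gn G v ↔ G.Adj v w := by simp [gn]

theorem eS_eq_sum (S T : Finset V) : eS G S T = ∑ v ∈ S, #(gn G v ∩ T) := by
  unfold eS
  rw [card_filter, sum_product]
  apply Finset.sum_congr rfl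
  intro v _
  rw [← card_filter]
  congr 1
  ext w
  simp only [mem_filter, mem_inter, mem_gn]
  tauto

/-- If all vertices of T have at most c |S| neighbours in S, then |T||S| is O(n). -/
theorem q1_low (hG : QR G) (S T : Finset V) {c : ℝ} (hc : c < 1 / 2)
    (h : ∀ v ∈ T, (#(gn G v ∩ S) : ℝ) ≤ c * #S) :
    (1 / 2 - c) ^ 2 * ((#T : ℝ) * #S) ≤ 16 * nn V := by
  have h1 := hG.q1 T S
  have h2 : (eS G T S : ℝ) ≤ c * ((#T : ℝ) * #S) := by
    rw [eS_eq_sum]
    push_cast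
    calc ∑ v ∈ T, (#(gn G v ∩ S) : ℝ) ≤ ∑ v ∈ T, c * (#S : ℝ) := Finset.sum_le_sum h
      _ = c * ((#T : ℝ) * #S) := by rw [Finset.sum_const, nsmul_eq_mul]; ring
  have h3 := (abs_le.1 h1).1
  have hx0 : 0 ≤ (#T : ℝ) * #S := by positivity
  generalize (#T : ℝ) * #S = x at *
  have hn0 : 0 ≤ nn V := Nat.cast_nonneg _
  have h4 : (1 / 2 - c) * x ≤ 4 * Real.sqrt (nn V * x) := by linarith
  have h5 : ((1 / 2 - c) * x) ^ 2 ≤ (4 * Real.sqrt (nn V * x)) ^ 2 := by
    apply pow_le_pow_left₀ _ h4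
    apply mul_nonneg (by linarith) hx0
  rw [mul_pow, mul_pow, Real.sq_sqrt (mul_nonneg hn0 hx0)] at h5
  rcases hx0.eq_or_lt with h0 | h0
  · rw [← h0]; nlinarith
  · have h6 : ((1 / 2 - c) ^ 2 * x) * x ≤ (16 * nn V) * x := by nlinarith
    exact le_of_mul_le_mul_right h6 h0

end quasi

/-! ### Regular vertices -/

section reg

variable {V : Type*} [Fintype V] {G : SimpleGraph V} {g : V → V → V}

theorem mem_nb {u v : V} : v ∈ nb g u ↔ Used g u v := by simp [nb]

theorem mem_hub {z : V} : z ∈ hub g ↔ 9 / 20 * nn V ≤ (#(nb g z) : ℝ) := by simp [hub]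

theorem mem_bad {u v : V} : v ∈ bad G g u ↔ BadP G g u v := by simp [bad]

theorem mem_reg {v : V} : v ∈ reg G g ↔ (#(bad G g v) : ℝ) ≤ nn V ^ (1 - sig / 2) ∧
    49 / 100 * (#(hub g) : ℝ) ≤ (#(gn G v ∩ hub g) : ℝ) := by simp [reg]

theorem badP_symm (hg : IsSys G g) {u v : V} (h : BadP G g u v) : BadP G g v u := by
  obtain ⟨h1, h2⟩ := h
  have h3 : InE G (hub g) u v ↔ InE G (hub g) v u := by
    unfold InE
    rw [G.adj_comm u v, or_comm]
  refine ⟨h1.symm, ?_⟩
  rcases h2 with ⟨h4, h5⟩ | ⟨h4, h5⟩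
  · exact Or.inl ⟨h3.1 h4, fun h6 => h5 (hg.used_symm h6)⟩
  · exact Or.inr ⟨fun h6 => h4 (h3.2 h6), fun h6 => h5 (hg.q_symm h6)⟩

/-- (S1)-(S3): the part of the structure that is invariant under resampling. -/
structure Typ (G : SimpleGraph V) (g : V → V → V) : Prop where
  s1 : 97 / 100 * hh V ≤ (#(hub g) : ℝ)
  s2 : (#(hub g) : ℝ) ≤ 115 / 100 * hh V
  s3 : ((∑ u, #(bad G g u) : ℕ) : ℝ) ≤ 2 * nn V ^ (2 - sig)

theorem Struct.typ (h : Struct G g) : Typ G g := ⟨h.s1, h.s2, h.s3⟩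

/-! Class invariance -/

theorem sgt_nb {g' : V → V → V} (h : sgt g' = sgt g) : nb g' = nb g := by
  funext u; ext v; rw [mem_nb, mem_nb]; exact sgt_used h u v

theorem sgt_hub {g' : V → V → V} (h : sgt g' = sgt g) : hub g' = hub g := by
  ext z; rw [mem_hub, mem_hub, sgt_nb h]

theorem sgt_badP {g' : V → V → V} (h : sgt g' = sgt g) (u v : V) :
    BadP G g' u v ↔ BadP G g u v := by
  unfold BadP
  rw [sgt_hub h, sgt_used h u v, sgt_q h u v]

theorem sgt_bad {g' : V → V → V} (h : sgt g' = sgt g) : bad G g' = bad G g := by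
  funext u; ext v; rw [mem_bad, mem_bad]; exact sgt_badP h u v

theorem sgt_reg {g' : V → V → V} (h : sgt g' = sgt g) : reg G g' = reg G g := by
  ext v; rw [mem_reg, mem_reg, sgt_bad h, sgt_hub h]

theorem sgt_hubr {g' : V → V → V} (h : sgt g' = sgt g) : hubr G g' = hubr G g := by
  unfold hubr; rw [sgt_hub h, sgt_reg h]

theorem sgt_typ {g' : V → V → V} (h : sgt g' = sgt g) (ht : Typ G g') : Typ G g := by
  obtain ⟨h1, h2, h3⟩ := ht
  rw [sgt_hub h] at h1 h2
  rw [sgt_bad h] at h3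
  exact ⟨h1, h2, h3⟩

/-! The exceptional vertices -/

theorem card_hub_pos (hn : Big (Fintype.card V)) (ht : Typ G g) : (0 : ℝ) < #(hub g) := by
  have := ht.s1
  have := hh_pos hn
  linarith

/-- At most jj V vertices are irregular. -/
theorem card_irr_le (hG : QR G) (hn : Big (Fintype.card V)) (ht : Typ G g) :
    (#(univ \ reg G g) : ℝ) ≤ jj V := by
  have hrp := rho_pos hn
  have hnp := nn_pos hn
  set ρ := nn V ^ (1 - sig / 2) with hρ
  have h1 : univ \ reg G g ⊆ (univ.filter fun v => ρ < (#(bad G g v) : ℝ)) ∪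
      (univ.filter fun v => (#(gn G v ∩ hub g) : ℝ) < 49 / 100 * #(hub g)) := by
    intro v hv
    simp only [mem_sdiff, mem_univ, true_and, mem_reg, not_and_or, not_le] at hv
    simp only [mem_union, mem_filter, mem_univ, true_and]
    exact hv
  have h2 : (#(univ.filter fun v => ρ < (#(bad G g v) : ℝ)) : ℝ) ≤ 2 * ρ := by
    have h3 : (#(univ.filter fun v => ρ < (#(bad G g v) : ℝ)) : ℝ) * ρ ≤
        ((∑ u, #(bad G g u) : ℕ) : ℝ) := by
      push_cast
      rw [← nsmul_eq_mul]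
      refine le_trans ?_ (Finset.sum_le_sum_of_subset_of_nonneg (Finset.filter_subset
        (fun v => ρ < (#(bad G g v) : ℝ)) univ) (fun _ _ _ => Nat.cast_nonneg _))
      apply Finset.card_nsmul_le_sum
      intro v hv
      exact (mem_filter.1 hv).2.le
    have h4 : 2 * nn V ^ (2 - sig) = (2 * ρ) * ρ := by
      rw [hρ, mul_assoc, ← Real.rpow_add hnp]
      congr 2; ring
    have h5 := h3.trans ht.s3
    rw [h4] at h5
    exact le_of_mul_le_mul_right h5 hrp
  have h3 : (#(univ.filter fun v => (#(gn G v ∩ hub g) : ℝ) < 49 / 100 * #(hub g)) : ℝ) ≤ ρ := by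
    have h4 := q1_low hG (hub g)
      (univ.filter fun v => (#(gn G v ∩ hub g) : ℝ) < 49 / 100 * #(hub g)) (c := 49 / 100)
      (by norm_num) (fun v hv => (mem_filter.1 hv).2.le)
    set t := (#(univ.filter fun v => (#(gn G v ∩ hub g) : ℝ) < 49 / 100 * #(hub g)) : ℝ) with ht'
    have ht0 : 0 ≤ t := Nat.cast_nonneg _
    have h5 : t * (97 / 100 * hh V) ≤ t * #(hub g) := mul_le_mul_of_nonneg_left ht.s1 ht0
    have h6 : t * hh V ≤ 10 ^ 6 * nn V := by
      norm_num at h4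
      nlinarith
    have h7 : t ≤ 10 ^ 6 * LL V := by
      have h8 : t * hh V ≤ (10 ^ 6 * LL V) * hh V := by
        have := hh_mul hn
        nlinarith
      exact le_of_mul_le_mul_right h8 (hh_pos hn)
    have h8 := LL_le_rho hn
    have h9 : (0:ℝ) ≤ ρ := hrp.le
    rw [← hρ] at h8
    nlinarith
  have h4 := card_le_card h1
  have h5 : (#(univ \ reg G g) : ℝ) ≤
      (#(univ.filter fun v => ρ < (#(bad G g v) : ℝ)) : ℝ) +
      #(univ.filter fun v => (#(gn G v ∩ hub g) : ℝ) < 49 / 100 * #(hub g)) := by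
    exact_mod_cast h4.trans (card_union_le _ _)
  unfold jj
  rw [← hρ]
  linarith

/-- vertices with few common neighbours with u in the hubs -/
def exc (G : SimpleGraph V) (g : V → V → V) (u : V) : Finset V :=
  univ.filter fun v => (#(gn G u ∩ gn G v ∩ hub g) : ℝ) < 24 / 100 * #(hub g)

theorem mem_exc {u v : V} : v ∈ exc G g u ↔
    (#(gn G u ∩ gn G v ∩ hub g) : ℝ) < 24 / 100 * #(hub g) := by simp [exc]

theorem exc_symm {u v : V} (h : v ∈ exc G g u) : u ∈ exc G g v := by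
  rw [mem_exc] at h ⊢
  rwa [inter_comm (gn G v) (gn G u)]

theorem sgt_exc {g' : V → V → V} (h : sgt g' = sgt g) : exc G g' = exc G g := by
  funext u; ext v; rw [mem_exc, mem_exc, sgt_hub h]

theorem card_exc_le (hG : QR G) (hn : Big (Fintype.card V)) (ht : Typ G g) {u : V}
    (hu : u ∈ reg G g) : (#(exc G g u) : ℝ) ≤ 10 ^ 6 * LL V := by
  have hnp := nn_pos hn
  have hhub := card_hub_pos hn ht
  have h1 := (mem_reg.1 hu).2
  set S := gn G u ∩ hub g with hS
  have h4 := q1_low hG S (exc G g u) (c := 4899 / 10000) (by norm_num) (by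
    intro v hv
    have h2 := mem_exc.1 hv
    have h3 : gn G v ∩ S = gn G u ∩ gn G v ∩ hub g := by
      rw [hS]; ext x; simp only [mem_inter]; tauto
    rw [h3]
    nlinarith)
  set t := (#(exc G g u) : ℝ) with ht'
  have ht0 : 0 ≤ t := Nat.cast_nonneg _
  have h5 : t * (49 / 100 * (97 / 100 * hh V)) ≤ t * #S := by
    apply mul_le_mul_of_nonneg_left _ ht0
    have := ht.s1
    nlinarith
  have h6 : t * hh V ≤ 10 ^ 6 * nn V := by
    norm_num at h4
    nlinarith
  have h8 : t * hh V ≤ (10 ^ 6 * LL V) * hh V := by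
    have := hh_mul hn
    nlinarith
  exact le_of_mul_le_mul_right h8 (hh_pos hn)

/-- A good pair outside E(hub) is a maximal 2-path. -/
theorem q_of_not_bad {u v : V} (hne : u ≠ v) (h1 : v ∉ bad G g u)
    (h2 : ¬ InE G (hub g) u v) : Q g u v := by
  by_contra h3
  exact h1 (mem_bad.2 ⟨hne, Or.inr ⟨h2, h3⟩⟩)

/-- A good pair inside E(hub) is used. -/
theorem used_of_not_bad {u v : V} (h1 : v ∉ bad G g u)
    (h2 : InE G (hub g) u v) : Used g u v := by
  by_contra h3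
  exact h1 (mem_bad.2 ⟨h2.1.ne, Or.inl ⟨h2, h3⟩⟩)

/-- Good pairs outside the hubs are maximal 2-paths. -/
theorem q_of_off {u v : V} (hne : u ≠ v) (hu : u ∉ hub g) (hv : v ∉ hub g)
    (h1 : v ∉ bad G g u) : Q g u v := by
  apply q_of_not_bad hne h1
  rintro ⟨_, h | h⟩
  · exact hu h
  · exact hv h

theorem mem_hubr {z : V} : z ∈ hubr G g ↔ z ∈ hub g ∧ z ∈ reg G g := by
  unfold hubr; rw [mem_inter]

theorem nb_subset_gn (hg : IsSys G g) (u : V) : nb g u ⊆ gn G u := by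
  intro v hv
  exact mem_gn.2 (hg.used_adj (mem_nb.1 hv))

/-- (5.2) -/
theorem nb_subset (hg : IsSys G g) {u : V} (hu : u ∉ hub g) :
    nb g u ⊆ (gn G u ∩ hub g) ∪ bad G g u := by
  intro v hv
  have h1 := mem_nb.1 hv
  have h2 := hg.used_adj h1
  by_cases h3 : v ∈ hub g
  · exact mem_union_left _ (mem_inter.2 ⟨mem_gn.2 h2, h3⟩)
  · apply mem_union_right
    refine mem_bad.2 ⟨h1.1, Or.inr ⟨?_, used_not_q h1⟩⟩
    rintro ⟨_, h | h⟩
    · exact hu h
    · exact h3 h

/-- unused neighbours of a hub are bad -/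
theorem gn_sdiff_nb {a : V} (ha : a ∈ hub g) : gn G a \ nb g a ⊆ bad G g a := by
  intro v hv
  obtain ⟨h1, h2⟩ := mem_sdiff.1 hv
  by_contra h3
  exact h2 (mem_nb.2 (used_of_not_bad h3 ⟨mem_gn.1 h1, Or.inl ha⟩))

/-- unused hubs in the neighbourhood are bad -/
theorem gn_hub_sdiff_nb {u : V} : (gn G u ∩ hub g) \ nb g u ⊆ bad G g u := by
  intro v hv
  obtain ⟨h1, h2⟩ := mem_sdiff.1 hv
  obtain ⟨h1, h1'⟩ := mem_inter.1 h1
  by_contra h3
  exact h2 (mem_nb.2 (used_of_not_bad h3 ⟨mem_gn.1 h1, Or.inr h1'⟩))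

theorem card_bad_le {v : V} (hv : v ∈ reg G g) : (#(bad G g v) : ℝ) ≤ nn V ^ (1 - sig / 2) :=
  (mem_reg.1 hv).1

theorem card_nb_le (hn : Big (Fintype.card V)) (hg : IsSys G g) (ht : Typ G g) {u : V}
    (hu : u ∈ reg G g) (hu' : u ∉ hub g) : (#(nb g u) : ℝ) ≤ 12 / 10 * hh V := by
  have h1 := card_le_card (nb_subset hg hu')
  have h2 := h1.trans (card_union_le _ _)
  have h3 : (#(nb g u) : ℝ) ≤ #(gn G u ∩ hub g) + #(bad G g u) := by exact_mod_cast h2
  have h4 : (#(gn G u ∩ hub g) : ℝ) ≤ #(hub g) := by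
    exact_mod_cast card_le_card inter_subset_right
  have h5 := card_bad_le hu
  have h6 := rho_le hn
  have h7 := hh_pos hn
  have h8 := ht.s2
  have h9 : hh V / 10 ^ 60 ≤ hh V / 100 := by
    apply div_le_div_of_nonneg_left h7.le (by norm_num) (by norm_num)
  linarith

/-- used neighbours of u that are regular hubs -/
def Nu (G : SimpleGraph V) (g : V → V → V) (u : V) : Finset V := nb g u ∩ hubr G g

theorem mem_Nu {u z : V} : z ∈ Nu G g u ↔ Used g u z ∧ z ∈ hub g ∧ z ∈ reg G g := by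
  unfold Nu; rw [mem_inter, mem_nb, mem_hubr]

theorem sgt_Nu {g' : V → V → V} (h : sgt g' = sgt g) : Nu G g' = Nu G g := by
  funext u; unfold Nu; rw [sgt_nb h, sgt_hubr h]

theorem nb_sdiff_Nu (hg : IsSys G g) {u : V} (hu : u ∉ hub g) :
    nb g u \ Nu G g u ⊆ bad G g u ∪ (univ \ reg G g) := by
  intro v hv
  obtain ⟨h1, h2⟩ := mem_sdiff.1 hv
  rcases mem_union.1 (nb_subset hg hu h1) with h3 | h3
  · apply mem_union_right
    refine mem_sdiff.2 ⟨mem_univ _, fun h4 => h2 ?_⟩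
    exact mem_Nu.2 ⟨mem_nb.1 h1, (mem_inter.1 h3).2, h4⟩
  · exact mem_union_left _ h3

theorem card_nb_sdiff_Nu (hG : QR G) (hn : Big (Fintype.card V)) (hg : IsSys G g)
    (ht : Typ G g) {u : V} (hu : u ∈ reg G g) (hu' : u ∉ hub g) :
    (#(nb g u \ Nu G g u) : ℝ) ≤ 2 * jj V := by
  have h1 := (card_le_card (nb_sdiff_Nu hg hu')).trans (card_union_le _ _)
  have h2 : (#(nb g u \ Nu G g u) : ℝ) ≤ #(bad G g u) + #(univ \ reg G g) := by
    exact_mod_cast h1
  have h3 := card_bad_le hu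
  have h4 := card_irr_le hG hn ht
  have h5 : nn V ^ (1 - sig / 2) ≤ jj V := by
    have := rho_pos hn
    unfold jj; linarith
  linarith

theorem gn_hub_sdiff_Nu {u : V} :
    (gn G u ∩ hub g) \ Nu G g u ⊆ bad G g u ∪ (univ \ reg G g) := by
  intro v hv
  obtain ⟨h1, h2⟩ := mem_sdiff.1 hv
  by_cases h3 : v ∈ nb g u
  · apply mem_union_right
    refine mem_sdiff.2 ⟨mem_univ _, fun h4 => h2 ?_⟩
    exact mem_Nu.2 ⟨mem_nb.1 h3, (mem_inter.1 h1).2, h4⟩
  · exact mem_union_left _ (gn_hub_sdiff_nb (mem_sdiff.2 ⟨h1, h3⟩))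

theorem card_gn_hub_sdiff_Nu (hG : QR G) (hn : Big (Fintype.card V))
    (ht : Typ G g) {u : V} (hu : u ∈ reg G g) :
    (#((gn G u ∩ hub g) \ Nu G g u) : ℝ) ≤ 2 * jj V := by
  have h1 := (card_le_card (gn_hub_sdiff_Nu (G := G) (g := g) (u := u))).trans
    (card_union_le _ _)
  have h2 : (#((gn G u ∩ hub g) \ Nu G g u) : ℝ) ≤ #(bad G g u) + #(univ \ reg G g) := by
    exact_mod_cast h1
  have h3 := card_bad_le hu
  have h4 := card_irr_le hG hn ht
  have h5 : nn V ^ (1 - sig / 2) ≤ jj V := by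
    have := rho_pos hn
    unfold jj; linarith
  linarith

theorem card_Nu_ge (hG : QR G) (hn : Big (Fintype.card V))
    (ht : Typ G g) {u : V} (hu : u ∈ reg G g) :
    45 / 100 * hh V ≤ (#(Nu G g u) : ℝ) := by
  have h1 := card_gn_hub_sdiff_Nu hG hn ht hu
  have h2 := (mem_reg.1 hu).2
  have h3 := ht.s1
  have h4 : (#(gn G u ∩ hub g) : ℝ) ≤ #((gn G u ∩ hub g) \ Nu G g u) + #(Nu G g u) := by
    have h5 : gn G u ∩ hub g ⊆ ((gn G u ∩ hub g) \ Nu G g u) ∪ Nu G g u := by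
      intro x hx
      by_cases h : x ∈ Nu G g u
      · exact mem_union_right _ h
      · exact mem_union_left _ (mem_sdiff.2 ⟨hx, h⟩)
    exact_mod_cast (card_le_card h5).trans (card_union_le _ _)
  have h5 := jj_le hn
  have h6 := hh_pos hn
  have h7 : hh V / 10 ^ 50 ≤ hh V / 100 := by
    apply div_le_div_of_nonneg_left h6.le (by norm_num) (by norm_num)
  linarith

/-- (5.3) -/
theorem card_mids_ge (hn : Big (Fintype.card V))
    (ht : Typ G g) {u v : V} (hu : u ∈ reg G g) (hv : v ∈ reg G g) (hv' : v ∉ exc G g u) :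
    23 / 100 * hh V ≤ (#(nb g u ∩ nb g v) : ℝ) := by
  have h1 : gn G u ∩ gn G v ∩ hub g ⊆ (nb g u ∩ nb g v) ∪ (bad G g u ∪ bad G g v) := by
    intro x hx
    obtain ⟨h1, h2⟩ := mem_inter.1 hx
    obtain ⟨h1, h3⟩ := mem_inter.1 h1
    by_cases h4 : x ∈ nb g u
    · by_cases h5 : x ∈ nb g v
      · exact mem_union_left _ (mem_inter.2 ⟨h4, h5⟩)
      · exact mem_union_right _ (mem_union_right _
          (gn_hub_sdiff_nb (mem_sdiff.2 ⟨mem_inter.2 ⟨h3, h2⟩, h5⟩)))
    · exact mem_union_right _ (mem_union_left _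
          (gn_hub_sdiff_nb (mem_sdiff.2 ⟨mem_inter.2 ⟨h1, h2⟩, h4⟩)))
  have h2 : #(gn G u ∩ gn G v ∩ hub g) ≤ #(nb g u ∩ nb g v) + (#(bad G g u) + #(bad G g v)) :=
    (card_le_card h1).trans ((card_union_le _ _).trans
      (Nat.add_le_add_left (card_union_le _ _) _))
  have h3 : (#(gn G u ∩ gn G v ∩ hub g) : ℝ) ≤
      #(nb g u ∩ nb g v) + (#(bad G g u) + #(bad G g v)) := by exact_mod_cast h2
  have h4 := card_bad_le hu
  have h5 := card_bad_le hv
  have h6 : 24 / 100 * (#(hub g) : ℝ) ≤ #(gn G u ∩ gn G v ∩ hub g) :=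
    not_lt.1 (fun h => hv' (mem_exc.2 h))
  have h7 := ht.s1
  have h8 := rho_le hn
  have h9 := hh_pos hn
  have h10 : hh V / 10 ^ 60 ≤ hh V / 10000 := by
    apply div_le_div_of_nonneg_left h9.le (by norm_num) (by norm_num)
  linarith

/-- used neighbours of a regular hub inside a set -/
theorem card_nb_inter_ge {a : V} (ha : a ∈ hubr G g) (S : Finset V) :
    (#(gn G a ∩ S) : ℝ) - nn V ^ (1 - sig / 2) ≤ #(nb g a ∩ S) := by
  have h1 : gn G a ∩ S ⊆ (nb g a ∩ S) ∪ bad G g a := by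
    intro x hx
    obtain ⟨h1, h2⟩ := mem_inter.1 hx
    by_cases h3 : x ∈ nb g a
    · exact mem_union_left _ (mem_inter.2 ⟨h3, h2⟩)
    · exact mem_union_right _ (gn_sdiff_nb (mem_hubr.1 ha).1 (mem_sdiff.2 ⟨h1, h3⟩))
  have h2 : (#(gn G a ∩ S) : ℝ) ≤ #(nb g a ∩ S) + #(bad G g a) := by
    exact_mod_cast (card_le_card h1).trans (card_union_le _ _)
  have h3 := card_bad_le (mem_hubr.1 ha).2
  linarith

theorem mids_eq {u v : V} (hq : Q g u v) : mids g s(u, v) = nb g u ∩ nb g v := by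
  ext z
  rw [mem_mids hq, mem_inter, mem_nb, mem_nb]

end reg

end

end Rg

end CEB
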