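import Mathlib
import Pool.Agent.Work.MP_ceb7a8_co.Enc2
import Pool.Agent.Work.MP_ceb7a8_co.Par

/-!
Common sums for the first and second order inequalities.
-/

open Finset

namespace CEB

noncomputable section

open scoped Classical

variable {V : Type*} [Fintype V] [LinearOrder V]

/-! ### Unordered versus ordered pairs -/

theorem two_mul_sum_prs (φ : V → V → ℝ) (hsymm : ∀ u v, φ u v = φ v u) :
    2 * ∑ q ∈ prs V, φ q.1 q.2 = ∑ p ∈ (univ : Finset (V × V)).filter (fun p => p.1 ≠ p.2),
      φ p.1 p.2 := by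
  have h1 : (univ : Finset (V × V)).filter (fun p => p.1 ≠ p.2) =
      prs V ∪ (univ : Finset (V × V)).filter (fun p => p.2 < p.1) := by
    ext p
    simp only [mem_filter, mem_univ, true_and, mem_union, mem_prs]
    exact ne_iff_lt_or_gt
  have h2 : Disjoint (prs V) ((univ : Finset (V × V)).filter (fun p => p.2 < p.1)) := by
    rw [disjoint_left]
    intro p hp hp'
    rw [mem_prs] at hp
    rw [mem_filter] at hp'
    exact lt_asymm hp hp'.2
  rw [h1, sum_union h2, two_mul]
  congr 1
  refine sum_bij' (fun p _ => (p.2, p.1)) (fun p _ => (p.2, p.1)) ?_ ?_ ?_ ?_ ?_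
  · intro p hp
    rw [mem_prs] at hp
    simpa using hp
  · intro p hp
    rw [mem_filter] at hp
    rw [mem_prs]
    exact hp.2
  · intro p _; rfl
  · intro p _; rfl
  · intro p _; exact hsymm _ _

/-- Half of the ordered sum. -/
theorem sum_prs_le_half (φ : V → V → ℝ) (hsymm : ∀ u v, φ u v = φ v u) (h0 : ∀ u v, 0 ≤ φ u v) :
    ∑ q ∈ prs V, φ q.1 q.2 ≤ (∑ p : V × V, φ p.1 p.2) / 2 := by
  have h := two_mul_sum_prs φ hsymm
  have h2 : ∑ p ∈ (univ : Finset (V × V)).filter (fun p => p.1 ≠ p.2), φ p.1 p.2 ≤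
      ∑ p : V × V, φ p.1 p.2 :=
    sum_le_sum_of_subset_of_nonneg (filter_subset _ _) fun p _ _ => h0 _ _
  linarith

/-- The unordered pairs of a set of ordered pairs. -/
def unord (I : Finset (V × V)) : Finset (V × V) :=
  (prs V).filter (fun p => p ∈ I ∨ (p.2, p.1) ∈ I)

theorem mem_unord {I : Finset (V × V)} {p : V × V} :
    p ∈ unord I ↔ p.1 < p.2 ∧ (p ∈ I ∨ (p.2, p.1) ∈ I) := by
  simp only [unord, mem_filter, mem_prs]

/-- Sorting a pair. -/
def srt (p : V × V) : V × V := if p.1 < p.2 then p else (p.2, p.1)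

theorem srt_mem {I : Finset (V × V)} {p : V × V} (hp : p ∈ I) (hne : p.1 ≠ p.2) :
    srt p ∈ unord I := by
  rw [mem_unord]
  unfold srt
  rcases lt_or_gt_of_ne hne with h | h
  · rw [if_pos h]; exact ⟨h, Or.inl hp⟩
  · rw [if_neg (not_lt.2 h.le)]; exact ⟨h, Or.inr hp⟩

omit [Fintype V] in
theorem srt_eq {p q : V × V} (h : srt p = srt q) : p = q ∨ p = (q.2, q.1) := by
  unfold srt at h
  split_ifs at h with h1 h2 h2
  · exact Or.inl h
  · exact Or.inr h
  · right
    rw [← h]
  · left
    have := Prod.mk.inj h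
    exact Prod.ext this.2 this.1

/-- Incidences at Y: at most one for every unordered pair, up to pairs inside Y. -/
theorem card_filter_le_unord (I : Finset (V × V)) (hI : ∀ p ∈ I, p.1 ≠ p.2) (Y : Finset V) :
    (I.filter (fun p => p.2 ∈ Y)).card ≤ (unord I).card + Y.card ^ 2 := by
  have h1 : I.filter (fun p => p.2 ∈ Y) ⊆
      (I.filter (fun p => p.2 ∈ Y ∧ p.1 ∉ Y)) ∪ (Y ×ˢ Y) := by
    intro p hp
    rw [mem_filter] at hp
    rw [mem_union, mem_filter, mem_product]
    by_cases h : p.1 ∈ Y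
    · exact Or.inr ⟨h, hp.2⟩
    · exact Or.inl ⟨hp.1, hp.2, h⟩
  have h2 : (I.filter (fun p => p.2 ∈ Y ∧ p.1 ∉ Y)).card ≤ (unord I).card := by
    apply card_le_card_of_injOn srt
    · intro p hp
      rw [mem_coe, mem_filter] at hp
      exact srt_mem hp.1 (hI p hp.1)
    · intro p hp q hq hpq
      rw [mem_coe, mem_filter] at hp hq
      rcases srt_eq hpq with h | h
      · exact h
      · exfalso
        apply hp.2.2
        rw [h]
        exact hq.2.1
  calc (I.filter (fun p => p.2 ∈ Y)).card ≤ _ := card_le_card h1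
    _ ≤ _ := card_union_le _ _
    _ ≤ (unord I).card + Y.card ^ 2 := by
        rw [card_product, sq]
        omega

theorem card_le_two_unord (I : Finset (V × V)) (hI : ∀ p ∈ I, p.1 ≠ p.2) :
    I.card ≤ 2 * (unord I).card := by
  have h1 : I.card ≤ 2 * (I.image srt).card := by
    apply card_le_mul_card_image
    intro q hq
    rw [mem_image] at hq
    obtain ⟨p0, hp0, hq0⟩ := hq
    have : I.filter (fun p => srt p = q) ⊆ {p0, (p0.2, p0.1)} := by
      intro p hp
      rw [mem_filter, ← hq0] at hp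
      rw [mem_insert, mem_singleton]
      exact srt_eq hp.2
    exact (card_le_card this).trans (card_insert_le _ _)
  have h2 : (I.image srt).card ≤ (unord I).card := by
    apply card_le_card
    intro q hq
    rw [mem_image] at hq
    obtain ⟨p, hp, rfl⟩ := hq
    exact srt_mem hp (hI p hp)
  omega

/-! ### The heavy types -/

/-- Number of labels x in column y. -/
def mm (ω : V → V → Option V) (y x : V) : ℕ := (univ.filter (fun u => ω u y = some x)).card

/-- Heavy mass at y. -/
def wy (ω : V → V → Option V) (y : V) : ℕ := (univ.filter (fun u => ω u y ≠ none)).card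

/-- Wasted incidences. -/
def incW (ω : V → V → Option V) : Finset (V × V) := univ.filter (fun p => ω p.1 p.2 ≠ none)

theorem sum_mm (ω : V → V → Option V) (y : V) : ∑ x, mm ω y x = wy ω y := by
  unfold mm wy
  rw [← card_biUnion]
  · congr 1
    ext u
    simp only [mem_biUnion, mem_univ, true_and, mem_filter]
    rw [Option.ne_none_iff_exists']
  · intro x _ x' _ hne
    rw [Function.onFun, disjoint_left]
    intro u hu hu'
    simp only [mem_filter, mem_univ, true_and] at hu hu'
    rw [hu] at hu'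
    exact hne (Option.some_injective _ hu')

theorem sum_wy (ω : V → V → Option V) (Y : Finset V) :
    ∑ y ∈ Y, wy ω y = ((incW ω).filter (fun p => p.2 ∈ Y)).card := by
  unfold wy incW
  rw [filter_filter]
  rw [card_eq_sum_card_fiberwise (f := fun p : V × V => p.2) (t := Y)]
  · refine sum_congr rfl fun y hy => ?_
    symm
    apply card_bij (fun p _ => p.1)
    · intro p hp
      simp only [mem_filter, mem_univ, true_and] at hp ⊢
      rw [← hp.2]
      exact hp.1.1
    · intro p hp q hq h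
      simp only [mem_filter, mem_univ, true_and] at hp hq
      exact Prod.ext h (hp.2.trans hq.2.symm)
    · intro u hu
      simp only [mem_filter, mem_univ, true_and] at hu
      exact ⟨(u, y), by
        rw [mem_filter, mem_filter]
        exact ⟨⟨mem_univ _, hu, hy⟩, rfl⟩, rfl⟩
  · intro p hp
    rw [mem_coe, mem_filter] at hp
    exact hp.2.2

theorem incW_ne {g : V → V → V} {θ : ℝ} : ∀ p ∈ incW (om g θ), p.1 ≠ p.2 := by
  intro p hp
  simp only [incW, mem_filter, mem_univ, true_and] at hp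
  obtain ⟨x, hx⟩ := Option.ne_none_iff_exists'.1 hp
  exact (om_eq_some.1 hx).1

theorem unord_incW (ω : V → V → Option V) : unord (incW ω) = wastedP ω := by
  ext p
  rw [mem_unord, mem_wastedP]
  simp only [incW, mem_filter, mem_univ, true_and]

omit [LinearOrder V] in
theorem incW_card (ω : V → V → Option V) : (incW ω).card = Kw ω := rfl

theorem Kw_le_wasted {g : V → V → V} {θ : ℝ} : Kw (om g θ) ≤ 2 * (wastedP (om g θ)).card := by
  rw [← incW_card, ← unord_incW]
  exact card_le_two_unord _ incW_ne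

theorem sum_wy_le {g : V → V → V} {θ : ℝ} (Y : Finset V) :
    ∑ y ∈ Y, wy (om g θ) y ≤ (wastedP (om g θ)).card + Y.card ^ 2 := by
  rw [sum_wy, ← unord_incW]
  exact card_filter_le_unord _ incW_ne Y

theorem sum_wy_univ (ω : V → V → Option V) : ∑ y, wy ω y = Kw ω := by
  rw [sum_wy, ← incW_card]
  congr 1
  simp

theorem mm_add_le {G : SimpleGraph V} {g : V → V → V} (hG : QR G) (hg : IsSys G g) {θ : ℝ}
    (x y : V) : ((mm (om g θ) y x : ℝ) + mm (om g θ) x y) ≤ (3 / 4 + 3 * eta) * nn V := by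
  by_cases hxy : x = y
  · subst hxy
    have h0 : mm (om g θ) x x = 0 := by
      unfold mm
      rw [card_eq_zero, filter_eq_empty_iff]
      intro u _ hu
      exact (om_eq_some.1 hu).2.2.1 rfl
    rw [h0]
    have : (0 : ℝ) ≤ nn V := by unfold nn; positivity
    unfold eta
    push_cast
    nlinarith
  · have hsub1 : univ.filter (fun u => om g θ u y = some x) ⊆ gn G x := by
      intro u hu
      simp only [mem_filter, mem_univ, true_and] at hu
      have h1 := om_eq_some.1 hu
      simp only [gn, mem_filter, mem_univ, true_and]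
      have := hg.adj u y h1.1
      rw [h1.2.1] at this
      exact this.symm
    have hsub2 : univ.filter (fun u => om g θ u x = some y) ⊆ gn G y := by
      intro u hu
      simp only [mem_filter, mem_univ, true_and] at hu
      have h1 := om_eq_some.1 hu
      simp only [gn, mem_filter, mem_univ, true_and]
      have := hg.adj u x h1.1
      rw [h1.2.1] at this
      exact this.symm
    have hdisj : Disjoint (univ.filter (fun u => om g θ u y = some x))
        (univ.filter (fun u => om g θ u x = some y)) := by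
      rw [disjoint_left]
      intro u hu hu'
      simp only [mem_filter, mem_univ, true_and] at hu hu'
      have h1 := om_eq_some.1 hu
      have h2 := om_eq_some.1 hu'
      exact hg.class_disjoint hxy h1.1 h1.2.1 h2.2.1
    have h3 : mm (om g θ) y x + mm (om g θ) x y ≤ (gn G x ∪ gn G y).card := by
      unfold mm
      rw [← card_union_of_disjoint hdisj]
      exact card_le_card (union_subset_union hsub1 hsub2)
    have h4 := card_union_add_card_inter (gn G x) (gn G y)
    have h5 := abs_le.1 (hG.q2 x)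
    have h6 := abs_le.1 (hG.q2 y)
    have h7' : |((gn G x ∩ gn G y).card : ℝ) - nn V / 4| ≤ eta * nn V := by
      exact hG.q3d hxy
    have h7 := abs_le.1 h7'
    have h4' : ((gn G x ∪ gn G y).card : ℝ) + ((gn G x ∩ gn G y).card : ℝ) =
        (gn G x).card + (gn G y).card := by exact_mod_cast h4
    have h3' : ((mm (om g θ) y x : ℝ) + mm (om g θ) x y) ≤ ((gn G x ∪ gn G y).card : ℝ) := by
      exact_mod_cast h3
    linarith [h5.1, h5.2, h6.1, h6.2, h7.1, h7.2]

theorem sum_tt_eq (ω : V → V → Option V) :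
    ∑ p : V × V, (tt ω p.1 p.2 : ℝ) = ∑ o : V × V, (mm ω o.2 o.1 : ℝ) * mm ω o.1 o.2 := by
  have h1 : ∀ p : V × V, (tt ω p.1 p.2 : ℝ) = ∑ o : V × V,
      (if ω p.1 o.2 = some o.1 then (1 : ℝ) else 0) *
        (if ω p.2 o.1 = some o.2 then (1 : ℝ) else 0) := by
    intro p
    unfold tt
    rw [card_filter]
    push_cast
    refine sum_congr rfl fun o _ => ?_
    by_cases a : ω p.1 o.2 = some o.1 <;> by_cases b : ω p.2 o.1 = some o.2 <;> simp [a, b]
  rw [sum_congr rfl fun p _ => h1 p, sum_comm]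
  refine sum_congr rfl fun o _ => ?_
  have e1 : (mm ω o.2 o.1 : ℝ) = ∑ u, (if ω u o.2 = some o.1 then (1 : ℝ) else 0) := by
    unfold mm
    rw [card_filter]
    push_cast
    rfl
  have e2 : (mm ω o.1 o.2 : ℝ) = ∑ u, (if ω u o.1 = some o.2 then (1 : ℝ) else 0) := by
    unfold mm
    rw [card_filter]
    push_cast
    rfl
  rw [e1, e2, Finset.sum_mul_sum, Fintype.sum_prod_type]

theorem tt_symm2 (ω : V → V → Option V) (u v : V) : tt ω u v = tt ω v u := by
  unfold tt
  apply card_bij (fun o _ => (o.2, o.1))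
  · intro o ho
    simp only [mem_filter, mem_univ, true_and] at ho ⊢
    exact ⟨ho.2, ho.1⟩
  · intro o _ o' _ h
    have := Prod.mk.inj h
    exact Prod.ext this.2 this.1
  · intro o ho
    simp only [mem_filter, mem_univ, true_and] at ho
    exact ⟨(o.2, o.1), by simp only [mem_filter, mem_univ, true_and]; exact ⟨ho.2, ho.1⟩, rfl⟩

/-- The sum of the numbers of heavy options. -/
theorem sum_tt_le {G : SimpleGraph V} {g : V → V → V} (hG : QR G) (hg : IsSys G g) {θ : ℝ}
    (Y : Finset V) (hY : ∀ y ∉ Y, (wy (om g θ) y : ℝ) ≤ eta * nn V) :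
    ∑ q ∈ prs V, (tt (om g θ) q.1 q.2 : ℝ) ≤
      nn V * ((3 / 16 + 3 * eta) * (wastedP (om g θ)).card + (Y.card : ℝ) ^ 2) := by
  set ω := om g θ with hω
  set n := nn V with hn
  have hn0 : 0 ≤ n := by rw [hn]; unfold nn; positivity
  have he0 : 0 ≤ eta := by unfold eta; positivity
  have he1 : eta ≤ 1 / 4 := by unfold eta; norm_num
  have h1 := sum_prs_le_half (fun u v => (tt ω u v : ℝ))
    (fun u v => by rw [tt_symm2]) (fun u v => Nat.cast_nonneg _)
  have h2 := sum_tt_eq ω
  have hmw : ∀ x y, (mm ω y x : ℝ) ≤ wy ω y := by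
    intro x y
    have := sum_mm ω y
    have h3 : mm ω y x ≤ ∑ x, mm ω y x := single_le_sum (fun _ _ => Nat.zero_le _) (mem_univ x)
    rw [this] at h3
    exact_mod_cast h3
  have hpt : ∀ o : V × V, (mm ω o.2 o.1 : ℝ) * mm ω o.1 o.2 ≤
      eta * n * ((mm ω o.2 o.1 : ℝ) + mm ω o.1 o.2) +
        (if o.1 ∈ Y ∧ o.2 ∈ Y then (3 / 16 + 3 / 4 * eta) * n *
          ((mm ω o.2 o.1 : ℝ) + mm ω o.1 o.2) else 0) := by
    intro o
    set a : ℝ := (mm ω o.2 o.1 : ℝ) with ha
    set b : ℝ := (mm ω o.1 o.2 : ℝ) with hb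
    have ha0 : 0 ≤ a := Nat.cast_nonneg _
    have hb0 : 0 ≤ b := Nat.cast_nonneg _
    have hen : 0 ≤ eta * n := mul_nonneg he0 hn0
    split_ifs with h
    · have h3 := mm_add_le hG hg (θ := θ) o.1 o.2
      rw [← hω, ← ha, ← hb] at h3
      have h4 : a * b ≤ (a + b) ^ 2 / 4 := by nlinarith [sq_nonneg (a - b)]
      have h5 : (a + b) ^ 2 / 4 ≤ (a + b) * ((3 / 4 + 3 * eta) * n) / 4 := by nlinarith
      have h6 : 0 ≤ eta * n * (a + b) := by positivity
      nlinarith
    · rw [not_and_or] at h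
      rcases h with h | h
      · have h3 : b ≤ eta * n := (hmw o.2 o.1).trans (hY o.1 h)
        nlinarith
      · have h3 : a ≤ eta * n := (hmw o.1 o.2).trans (hY o.2 h)
        nlinarith
  have hsum : ∑ o : V × V, (mm ω o.2 o.1 : ℝ) * mm ω o.1 o.2 ≤
      eta * n * (2 * Kw ω) + (3 / 16 + 3 / 4 * eta) * n * (2 * ∑ y ∈ Y, (wy ω y : ℝ)) := by
    refine (sum_le_sum fun o _ => hpt o).trans ?_
    rw [sum_add_distrib]
    apply add_le_add
    · rw [← mul_sum]
      apply mul_le_mul_of_nonneg_left _ (mul_nonneg he0 hn0)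
      have h3 : ∑ o : V × V, ((mm ω o.2 o.1 : ℝ) + mm ω o.1 o.2) = 2 * Kw ω := by
        rw [sum_add_distrib]
        have h4 : ∑ o : V × V, (mm ω o.1 o.2 : ℝ) = Kw ω := by
          rw [Fintype.sum_prod_type]
          have h5 : ∀ y, ∑ x, (mm ω y x : ℝ) = wy ω y := by
            intro y
            exact_mod_cast sum_mm ω y
          simp only [h5]
          exact_mod_cast sum_wy_univ ω
        have h5 : ∑ o : V × V, (mm ω o.2 o.1 : ℝ) = ∑ o : V × V, (mm ω o.1 o.2 : ℝ) := by
          rw [Fintype.sum_prod_type, Fintype.sum_prod_type, sum_comm]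
        rw [h5, h4]
        ring
      rw [h3]
    · rw [← sum_filter, ← mul_sum]
      apply mul_le_mul_of_nonneg_left _ (by positivity)
      have h3 : (univ : Finset (V × V)).filter (fun o => o.1 ∈ Y ∧ o.2 ∈ Y) = Y ×ˢ Y := by
        ext o
        simp [mem_product]
      rw [h3, sum_add_distrib]
      have h4 : ∑ o ∈ Y ×ˢ Y, (mm ω o.1 o.2 : ℝ) ≤ ∑ y ∈ Y, (wy ω y : ℝ) := by
        rw [sum_product]
        refine sum_le_sum fun y _ => ?_
        have h5 : ∑ x ∈ Y, mm ω y x ≤ ∑ x, mm ω y x :=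
          sum_le_sum_of_subset_of_nonneg (subset_univ _) fun _ _ _ => Nat.zero_le _
        rw [sum_mm] at h5
        exact_mod_cast h5
      have h5 : ∑ o ∈ Y ×ˢ Y, (mm ω o.2 o.1 : ℝ) = ∑ o ∈ Y ×ˢ Y, (mm ω o.1 o.2 : ℝ) := by
        rw [sum_product, sum_product, sum_comm]
      rw [h5]
      linarith
  have h3 : ∑ y ∈ Y, (wy ω y : ℝ) ≤ (wastedP ω).card + (Y.card : ℝ) ^ 2 := by
    have := sum_wy_le (g := g) (θ := θ) Y
    exact_mod_cast this
  have h4 : (Kw ω : ℝ) ≤ 2 * (wastedP ω).card := by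
    have := Kw_le_wasted (g := g) (θ := θ)
    exact_mod_cast this
  have hW0 : (0 : ℝ) ≤ (wastedP ω).card := Nat.cast_nonneg _
  have hY0 : (0 : ℝ) ≤ (Y.card : ℝ) ^ 2 := by positivity
  have h5 : eta * n * (2 * Kw ω) ≤ eta * n * (4 * (wastedP ω).card) := by
    apply mul_le_mul_of_nonneg_left _ (mul_nonneg he0 hn0)
    linarith
  have h6 : (3 / 16 + 3 / 4 * eta) * n * (2 * ∑ y ∈ Y, (wy ω y : ℝ)) ≤
      (3 / 16 + 3 / 4 * eta) * n * (2 * ((wastedP ω).card + (Y.card : ℝ) ^ 2)) := by
    apply mul_le_mul_of_nonneg_left _ (by positivity)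
    linarith
  have h7 : ∑ q ∈ prs V, (tt ω q.1 q.2 : ℝ) ≤ (eta * n * (4 * (wastedP ω).card) +
      (3 / 16 + 3 / 4 * eta) * n * (2 * ((wastedP ω).card + (Y.card : ℝ) ^ 2))) / 2 := by
    linarith
  refine h7.trans ?_
  have h8 : 0 ≤ n * (wastedP ω).card := mul_nonneg hn0 hW0
  have h9 : 0 ≤ n * (Y.card : ℝ) ^ 2 := mul_nonneg hn0 hY0
  nlinarith

end

end CEB
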