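import Mathlib
import Pool.Agent.Work.MP_ceb7a8_co.SecA
import Pool.Agent.Work.MP_ceb7a8_co.Pure
import Pool.Agent.Work.MP_ceb7a8_co.DiscCor

/-!
Second order: extra options by edges off the hub set, exceptional pairs.
-/

open Finset

namespace CEB

noncomputable section

open scoped Classical

variable {V : Type*} [Fintype V] [LinearOrder V]

theorem hs_usedP2 {G : SimpleGraph V} {g : V → V → V} (hg : IsSys G g) {u z : V} :
    Hs (usedP g) u z ↔ Used g u z := by
  unfold Hs
  rw [mem_usedP, mem_usedP]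
  constructor
  · rintro (h | h)
    · exact h.2
    · exact hg.used_symm h.2
  · intro h
    rcases lt_or_gt_of_ne h.1 with h1 | h1
    · exact Or.inl ⟨h1, h⟩
    · exact Or.inr ⟨h1, hg.used_symm h⟩

/-- middle vertices through a used edge off Z -/
def aS (G : SimpleGraph V) (g : V → V → V) (Z : Finset V) (u v : V) : Finset V :=
  univ.filter (fun z => Used g u z ∧ Used g v z ∧ ¬ (InE G Z u z ∧ InE G Z z v))

/-- middle vertices through a missing edge -/
def bS (G : SimpleGraph V) (g : V → V → V) (Z : Finset V) (u v : V) : Finset V :=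
  univ.filter (fun z => InE G Z u z ∧ InE G Z z v ∧ ¬ (Used g u z ∧ Used g v z))

theorem kk_eq {G : SimpleGraph V} {g : V → V → V} (hg : IsSys G g) (Z : Finset V) (u v : V) :
    (kk (usedP g) u v : ℝ) = KZ G Z u v + (aS G g Z u v).card - (bS G g Z u v).card := by
  have h1 : kk (usedP g) u v = (univ.filter (fun z => Used g u z ∧ Used g v z)).card := by
    unfold kk
    simp only [hs_usedP2 hg]
  set A := univ.filter (fun z => Used g u z ∧ Used g v z) with hA
  set B := KS G Z u v with hB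
  have h2 : A \ B = aS G g Z u v := by
    ext z
    simp only [hA, hB, mem_sdiff, mem_filter, mem_univ, true_and, mem_KS, aS]
    tauto
  have h3 : B \ A = bS G g Z u v := by
    ext z
    simp only [hA, hB, mem_sdiff, mem_filter, mem_univ, true_and, mem_KS, bS]
    tauto
  have h4 : (A \ B).card + (A ∩ B).card = A.card := card_sdiff_add_card_inter A B
  have h5 : (B \ A).card + (B ∩ A).card = B.card := card_sdiff_add_card_inter B A
  rw [inter_comm] at h5
  rw [h2] at h4
  rw [h3] at h5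
  rw [h1]
  unfold KZ
  rw [← h4, ← h5]
  push_cast
  ring

/-- Used edges off Z, as ordered pairs. -/
def offI (G : SimpleGraph V) (g : V → V → V) (Z : Finset V) : Finset (V × V) :=
  univ.filter (fun p => Used g p.1 p.2 ∧ ¬ InE G Z p.1 p.2)

/-- off degree -/
def fz (G : SimpleGraph V) (g : V → V → V) (Z : Finset V) (z : V) : ℕ :=
  (univ.filter (fun u => Used g u z ∧ ¬ InE G Z u z)).card

/-- graph edges at Z as pairs u < v -/
def HP0 (G : SimpleGraph V) (Z : Finset V) : Finset (V × V) :=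
  (prs V).filter (fun p => InE G Z p.1 p.2)

omit [LinearOrder V] in
theorem offI_ne {G : SimpleGraph V} {g : V → V → V} {Z : Finset V} :
    ∀ p ∈ offI G g Z, p.1 ≠ p.2 := by
  intro p hp
  simp only [offI, mem_filter, mem_univ, true_and] at hp
  exact hp.1.1

theorem unord_offI {G : SimpleGraph V} {g : V → V → V} (hg : IsSys G g) (Z : Finset V) :
    unord (offI G g Z) = usedP g \ HP0 G Z := by
  ext p
  rw [mem_unord, mem_sdiff, mem_usedP]
  simp only [offI, HP0, mem_filter, mem_univ, true_and, mem_prs]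
  rw [hg.used_comm (u := p.2) (v := p.1), InE.comm (u := p.2) (v := p.1)]
  tauto

theorem sum_fz (G : SimpleGraph V) (g : V → V → V) (Z Y : Finset V) :
    ∑ z ∈ Y, fz G g Z z = ((offI G g Z).filter (fun p => p.2 ∈ Y)).card := by
  unfold fz offI
  rw [filter_filter]
  rw [card_eq_sum_card_fiberwise (f := fun p : V × V => p.2) (t := Y)]
  · refine sum_congr rfl fun y hy => ?_
    symm
    apply card_bij (fun p _ => p.1)
    · intro p hp
      rw [mem_filter, mem_filter] at hp
      rw [mem_filter]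
      refine ⟨mem_univ _, ?_⟩
      rw [← hp.2]
      exact hp.1.2.1
    · intro p hp q hq h
      rw [mem_filter, mem_filter] at hp hq
      exact Prod.ext h (hp.2.trans hq.2.symm)
    · intro u hu
      rw [mem_filter] at hu
      refine ⟨(u, y), ?_, rfl⟩
      rw [mem_filter, mem_filter]
      exact ⟨⟨mem_univ _, hu.2, hy⟩, rfl⟩
  · intro p hp
    rw [mem_coe, mem_filter] at hp
    exact hp.2.2

theorem sum_fz_le {G : SimpleGraph V} {g : V → V → V} (hg : IsSys G g) (Z Y : Finset V) :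
    ∑ z ∈ Y, fz G g Z z ≤ (usedP g \ HP0 G Z).card + Y.card ^ 2 := by
  rw [sum_fz, ← unord_offI hg]
  exact card_filter_le_unord _ offI_ne Y

theorem sum_fz_univ_le {G : SimpleGraph V} {g : V → V → V} (hg : IsSys G g) (Z : Finset V) :
    ∑ z, fz G g Z z ≤ 2 * (usedP g \ HP0 G Z).card := by
  rw [sum_fz, ← unord_offI hg]
  refine le_trans (card_le_card (filter_subset _ _)) ?_
  exact card_le_two_unord _ offI_ne

/-- on degree -/
def ez (G : SimpleGraph V) (g : V → V → V) (Z : Finset V) (z : V) : ℕ :=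
  (univ.filter (fun u => Used g u z ∧ InE G Z u z)).card

omit [LinearOrder V] in
theorem fz_eq_zero {G : SimpleGraph V} {g : V → V → V} (hg : IsSys G g) {Z : Finset V} {z : V}
    (hz : z ∈ Z) : fz G g Z z = 0 := by
  unfold fz
  rw [card_eq_zero, filter_eq_empty_iff]
  rintro u _ ⟨h1, h2⟩
  exact h2 ⟨hg.used_adj h1, Or.inr hz⟩

theorem fz_mul_ez {G : SimpleGraph V} {g : V → V → V} (hg : IsSys G g) (Z : Finset V) (z : V) :
    fz G g Z z * ez G g Z z ≤ fz G g Z z * Z.card := by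
  by_cases hz : z ∈ Z
  · rw [fz_eq_zero hg hz]; simp
  · apply Nat.mul_le_mul_left
    unfold ez
    apply card_le_card
    intro u hu
    simp only [mem_filter, mem_univ, true_and] at hu
    rcases hu.2.2 with h | h
    · exact h
    · exact absurd h hz

theorem sum_aS_eq (G : SimpleGraph V) (g : V → V → V) (Z : Finset V) :
    ∑ p : V × V, ((aS G g Z p.1 p.2).card : ℝ) ≤
      ∑ z, ((fz G g Z z : ℝ) ^ 2 + 2 * (fz G g Z z * ez G g Z z)) := by
  have h1 : ∀ p : V × V, ((aS G g Z p.1 p.2).card : ℝ) = ∑ z,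
      (if Used g p.1 z ∧ Used g p.2 z ∧ ¬ (InE G Z p.1 z ∧ InE G Z z p.2) then (1 : ℝ) else 0) := by
    intro p
    unfold aS
    rw [card_filter]
    push_cast
    rfl
  rw [sum_congr rfl fun p _ => h1 p, sum_comm]
  apply sum_le_sum
  intro z _
  set D := univ.filter (fun u => Used g u z ∧ ¬ InE G Z u z) with hD
  set E := univ.filter (fun u => Used g u z ∧ InE G Z u z) with hE
  have h2 : ∑ p : V × V, (if Used g p.1 z ∧ Used g p.2 z ∧ ¬ (InE G Z p.1 z ∧ InE G Z z p.2)
      then (1 : ℝ) else 0) =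
      (((univ : Finset (V × V)).filter (fun p => Used g p.1 z ∧ Used g p.2 z ∧
        ¬ (InE G Z p.1 z ∧ InE G Z z p.2))).card : ℝ) := by
    rw [card_filter]
    push_cast
    rfl
  rw [h2]
  have h3 : (univ : Finset (V × V)).filter (fun p => Used g p.1 z ∧ Used g p.2 z ∧
        ¬ (InE G Z p.1 z ∧ InE G Z z p.2)) ⊆ (D ×ˢ D) ∪ ((D ×ˢ E) ∪ (E ×ˢ D)) := by
    intro p hp
    simp only [mem_filter, mem_univ, true_and] at hp
    rw [InE.comm (u := z)] at hp
    simp only [hD, hE, mem_union, mem_product, mem_filter, mem_univ, true_and]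
    by_cases a : InE G Z p.1 z <;> by_cases b : InE G Z p.2 z
    · exact absurd ⟨a, b⟩ hp.2.2
    · exact Or.inr (Or.inr ⟨⟨hp.1, a⟩, ⟨hp.2.1, b⟩⟩)
    · exact Or.inr (Or.inl ⟨⟨hp.1, a⟩, ⟨hp.2.1, b⟩⟩)
    · exact Or.inl ⟨⟨hp.1, a⟩, ⟨hp.2.1, b⟩⟩
  have h4 := (card_le_card h3).trans ((card_union_le _ _).trans
    (Nat.add_le_add_left (card_union_le _ _) _))
  rw [card_product, card_product, card_product] at h4
  have h5 : D.card = fz G g Z z := rfl
  have h6 : E.card = ez G g Z z := rfl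
  rw [h5, h6] at h4
  have h7 : (((univ : Finset (V × V)).filter (fun p => Used g p.1 z ∧ Used g p.2 z ∧
        ¬ (InE G Z p.1 z ∧ InE G Z z p.2))).card : ℝ) ≤
        ((fz G g Z z * fz G g Z z + (fz G g Z z * ez G g Z z + ez G g Z z * fz G g Z z) : ℕ) : ℝ) := by
    exact_mod_cast h4
  refine h7.trans (le_of_eq ?_)
  push_cast
  ring

theorem fz_le {G : SimpleGraph V} {g : V → V → V} (hg : IsSys G g) {Z : Finset V}
    (hZ : hub g ⊆ Z) (z : V) : (fz G g Z z : ℝ) ≤ 9 / 20 * nn V := by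
  by_cases hz : z ∈ Z
  · rw [fz_eq_zero hg hz]
    have : (0 : ℝ) ≤ nn V := by unfold nn; positivity
    push_cast
    linarith
  · have h1 : z ∉ hub g := fun h => hz (hZ h)
    have h2 : ((nb g z).card : ℝ) < 9 / 20 * nn V := by
      by_contra h3
      apply h1
      unfold hub
      rw [mem_filter]
      exact ⟨mem_univ _, not_lt.1 h3⟩
    have h3 : fz G g Z z ≤ (nb g z).card := by
      unfold fz nb
      apply card_le_card
      intro u hu
      rw [mem_filter] at hu ⊢
      exact ⟨mem_univ _, hg.used_symm hu.2.1⟩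
    have h4 : (fz G g Z z : ℝ) ≤ ((nb g z).card : ℝ) := by exact_mod_cast h3
    linarith

/-- The number of extra options by used edges off Z. -/
theorem sum_a_le {G : SimpleGraph V} {g : V → V → V} (hg : IsSys G g) {Z Y : Finset V}
    (hZ : hub g ⊆ Z) (hY : ∀ y ∉ Y, (fz G g Z y : ℝ) ≤ eta * nn V) :
    ∑ q ∈ prs V, ((aS G g Z q.1 q.2).card : ℝ) ≤
      nn V * ((9 / 40 + eta) * (usedP g \ HP0 G Z).card + 9 / 40 * (Y.card : ℝ) ^ 2) +
        2 * Z.card * (usedP g \ HP0 G Z).card := by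
  set F : ℝ := ((usedP g \ HP0 G Z).card : ℝ) with hF
  set n := nn V with hn
  have hn0 : 0 ≤ n := by rw [hn]; unfold nn; positivity
  have he0 : 0 ≤ eta := by unfold eta; positivity
  have hsymm : ∀ u v, ((aS G g Z u v).card : ℝ) = ((aS G g Z v u).card : ℝ) := by
    intro u v
    congr 2
    ext z
    simp only [aS, mem_filter, mem_univ, true_and]
    rw [InE.comm (u := u) (v := z), InE.comm (u := z) (v := v)]
    tauto
  have h1 := sum_prs_le_half (fun u v => ((aS G g Z u v).card : ℝ)) hsymm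
    (fun u v => Nat.cast_nonneg _)
  have h2 := sum_aS_eq G g Z
  have h3 : ∑ z, (fz G g Z z : ℝ) ≤ 2 * F := by
    have := sum_fz_univ_le hg Z
    rw [hF]
    exact_mod_cast this
  have h4 : ∑ z ∈ Y, (fz G g Z z : ℝ) ≤ F + (Y.card : ℝ) ^ 2 := by
    have := sum_fz_le hg Z Y
    rw [hF]
    exact_mod_cast this
  have h5 : ∑ z, (fz G g Z z : ℝ) ^ 2 ≤ eta * n * (2 * F) + 9 / 20 * n * (F + (Y.card : ℝ) ^ 2) := by
    have hpt : ∀ z, (fz G g Z z : ℝ) ^ 2 ≤ eta * n * fz G g Z z +
        (if z ∈ Y then 9 / 20 * n * fz G g Z z else 0) := by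
      intro z
      have h6 := fz_le hg hZ z
      have h7 : (0 : ℝ) ≤ fz G g Z z := Nat.cast_nonneg _
      have h8 : 0 ≤ eta * n * fz G g Z z := by positivity
      split_ifs with h
      · nlinarith
      · have h9 := hY z h
        nlinarith
    refine (sum_le_sum fun z _ => hpt z).trans ?_
    rw [sum_add_distrib, ← mul_sum, ← sum_filter, ← mul_sum]
    have h6 : (univ : Finset V).filter (fun z => z ∈ Y) = Y := by ext; simp
    rw [h6]
    have h7 : eta * n * ∑ z, (fz G g Z z : ℝ) ≤ eta * n * (2 * F) :=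
      mul_le_mul_of_nonneg_left h3 (by positivity)
    have h8 : 9 / 20 * n * ∑ z ∈ Y, (fz G g Z z : ℝ) ≤ 9 / 20 * n * (F + (Y.card : ℝ) ^ 2) :=
      mul_le_mul_of_nonneg_left h4 (by positivity)
    linarith
  have h6 : ∑ z, ((fz G g Z z : ℝ) * ez G g Z z) ≤ 2 * F * Z.card := by
    have h7 : ∀ z, ((fz G g Z z : ℝ) * ez G g Z z) ≤ (fz G g Z z : ℝ) * Z.card := by
      intro z
      exact_mod_cast fz_mul_ez hg Z z
    refine (sum_le_sum fun z _ => h7 z).trans ?_
    rw [← sum_mul]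
    exact mul_le_mul_of_nonneg_right h3 (Nat.cast_nonneg _)
  have h7 : ∑ z, ((fz G g Z z : ℝ) ^ 2 + 2 * (fz G g Z z * ez G g Z z)) =
      ∑ z, (fz G g Z z : ℝ) ^ 2 + 2 * ∑ z, ((fz G g Z z : ℝ) * ez G g Z z) := by
    rw [sum_add_distrib, ← mul_sum]
  rw [h7] at h2
  have h8 : ∑ q ∈ prs V, ((aS G g Z q.1 q.2).card : ℝ) ≤
      (eta * n * (2 * F) + 9 / 20 * n * (F + (Y.card : ℝ) ^ 2) + 2 * (2 * F * Z.card)) / 2 := by
    linarith
  refine h8.trans (le_of_eq ?_)
  ring

/-! ### Exceptional pairs -/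

open Pool.Agent.Work.MP_ceb7a8_co in
/-- Few pairs have an unusual number of common neighbours in Z. -/
theorem exc_pairs {G : SimpleGraph V} (hG : QR G) {Z : Finset V} (hZ : Z.Nonempty) {e : ℝ}
    (he : 0 < e) (he1 : e ≤ 1 / 4) :
    (((univ : Finset (V × V)).filter (fun p => e * Z.card ≤
      |(codgr G p.1 p.2 Z : ℝ) - (Z.card : ℝ) / 4|)).card : ℝ) ≤
      360 * nn V ^ 2 / (e ^ 2 * Z.card) := by
  set n := nn V with hn
  have hn0 : 0 ≤ n := by rw [hn]; unfold nn; positivity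
  have hz : (0 : ℝ) < Z.card := by exact_mod_cast card_pos.2 hZ
  set e' : ℝ := 2 / 3 * e with he'
  have he'0 : 0 < e' := by positivity
  set T1 := univ.filter (fun u : V => e' * Z.card ≤ |(dgr G u Z : ℝ) - (Z.card : ℝ) / 2|) with hT1
  have h1 : (T1.card : ℝ) ≤ 2 * 4 ^ 2 * n / (e' ^ 2 * Z.card) := card_dgr hG.disc hZ he'0
  set T2 : V → Finset V := fun u => univ.filter (fun v : V => e' * dgr G u Z ≤
      |(codgr G u v Z : ℝ) - (dgr G u Z : ℝ) / 2|) with hT2
  have hdeg : ∀ u ∉ T1, (Z.card : ℝ) / 4 ≤ dgr G u Z ∧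
      |(dgr G u Z : ℝ) - (Z.card : ℝ) / 2| < e' * Z.card := by
    intro u hu
    have h2 : |(dgr G u Z : ℝ) - (Z.card : ℝ) / 2| < e' * Z.card := by
      by_contra h3
      apply hu
      rw [hT1, mem_filter]
      exact ⟨mem_univ _, not_lt.1 h3⟩
    refine ⟨?_, h2⟩
    have h3 := (abs_lt.1 h2).1
    have h4 : e' * Z.card ≤ 1 / 6 * Z.card := by
      apply mul_le_mul_of_nonneg_right _ hz.le
      rw [he']; linarith
    linarith
  have h2 : ∀ u ∉ T1, ((T2 u).card : ℝ) ≤ 2 * 4 ^ 2 * n / (e' ^ 2 * (Z.card / 4)) := by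
    intro u hu
    obtain ⟨h3, _⟩ := hdeg u hu
    have h4 : 0 < dgr G u Z := by
      have : (0 : ℝ) < dgr G u Z := lt_of_lt_of_le (by positivity) h3
      exact_mod_cast this
    refine (card_codgr hG.disc he'0 h4).trans ?_
    show 2 * 4 ^ 2 * n / (e' ^ 2 * dgr G u Z) ≤ _
    apply div_le_div_of_nonneg_left (by positivity) (by positivity)
    exact mul_le_mul_of_nonneg_left h3 (by positivity)
  have hsub : (univ : Finset (V × V)).filter (fun p => e * Z.card ≤
      |(codgr G p.1 p.2 Z : ℝ) - (Z.card : ℝ) / 4|) ⊆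
      (T1 ×ˢ univ) ∪ (univ \ T1).biUnion (fun u => (T2 u).map ⟨fun v => (u, v), by
        intro a b hab; exact (Prod.mk.inj hab).2⟩) := by
    intro p hp
    rw [mem_filter] at hp
    rw [mem_union, mem_product, mem_biUnion]
    by_cases h3 : p.1 ∈ T1
    · exact Or.inl ⟨h3, mem_univ _⟩
    · right
      refine ⟨p.1, mem_sdiff.2 ⟨mem_univ _, h3⟩, ?_⟩
      rw [mem_map]
      refine ⟨p.2, ?_, rfl⟩
      rw [hT2, mem_filter]
      refine ⟨mem_univ _, ?_⟩
      by_contra h4
      rw [not_le] at h4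
      obtain ⟨_, h5⟩ := hdeg p.1 h3
      have h6 : (dgr G p.1 Z : ℝ) ≤ (1 / 2 + e') * Z.card := by
        have := (abs_lt.1 h5).2
        linarith
      have h7 : |(codgr G p.1 p.2 Z : ℝ) - (Z.card : ℝ) / 4| ≤
          |(codgr G p.1 p.2 Z : ℝ) - (dgr G p.1 Z : ℝ) / 2| +
          |(dgr G p.1 Z : ℝ) - (Z.card : ℝ) / 2| / 2 := by
        have h8 : (codgr G p.1 p.2 Z : ℝ) - (Z.card : ℝ) / 4 =
            ((codgr G p.1 p.2 Z : ℝ) - (dgr G p.1 Z : ℝ) / 2) +
            ((dgr G p.1 Z : ℝ) - (Z.card : ℝ) / 2) / 2 := by ring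
        rw [h8]
        refine (abs_add_le _ _).trans ?_
        rw [abs_div, abs_two]
      have h9 : e' * dgr G p.1 Z ≤ e' * ((1 / 2 + e') * Z.card) :=
        mul_le_mul_of_nonneg_left h6 he'0.le
      have h10 : e' * ((1 / 2 + e') * Z.card) + e' * Z.card / 2 ≤ e * Z.card := by
        have h11 : e' * ((1 / 2 + e') * Z.card) + e' * Z.card / 2 = (e' * (1 + e')) * Z.card := by
          ring
        rw [h11]
        apply mul_le_mul_of_nonneg_right _ hz.le
        rw [he']
        nlinarith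
      linarith [hp.2]
  have h3 : (((univ : Finset (V × V)).filter (fun p => e * Z.card ≤
      |(codgr G p.1 p.2 Z : ℝ) - (Z.card : ℝ) / 4|)).card : ℝ) ≤
      T1.card * n + ∑ u ∈ univ \ T1, ((T2 u).card : ℝ) := by
    have h4 := (card_le_card hsub).trans (card_union_le _ _)
    have h5 : (T1 ×ˢ (univ : Finset V)).card = T1.card * Fintype.card V := by
      rw [card_product, card_univ]
    have h6 : ((univ \ T1).biUnion (fun u => (T2 u).map ⟨fun v => (u, v), by
        intro a b hab; exact (Prod.mk.inj hab).2⟩)).card ≤ ∑ u ∈ univ \ T1, (T2 u).card := by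
      refine card_biUnion_le.trans (le_of_eq ?_)
      refine sum_congr rfl fun u _ => ?_
      rw [card_map]
    rw [h5] at h4
    have h7 := h4.trans (Nat.add_le_add_left h6 _)
    have h8 : n = (Fintype.card V : ℝ) := rfl
    rw [h8]
    exact_mod_cast h7
  have h4 : ∑ u ∈ univ \ T1, ((T2 u).card : ℝ) ≤
      n * (2 * 4 ^ 2 * n / (e' ^ 2 * (Z.card / 4))) := by
    have h5 : ∑ u ∈ univ \ T1, ((T2 u).card : ℝ) ≤ ∑ u ∈ univ \ T1,
        (2 * 4 ^ 2 * n / (e' ^ 2 * (Z.card / 4))) :=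
      sum_le_sum fun u hu => h2 u (mem_sdiff.1 hu).2
    refine h5.trans ?_
    rw [sum_const, nsmul_eq_mul]
    apply mul_le_mul_of_nonneg_right _ (by positivity)
    have : ((univ \ T1).card : ℝ) ≤ (Fintype.card V : ℝ) := by
      exact_mod_cast card_le_univ _
    exact this
  have h5 : (T1.card : ℝ) * n ≤ (2 * 4 ^ 2 * n / (e' ^ 2 * Z.card)) * n :=
    mul_le_mul_of_nonneg_right h1 hn0
  refine h3.trans ((add_le_add h5 h4).trans (le_of_eq ?_))
  rw [he']
  field_simp
  ring

/-- The exceptional pairs. -/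
def EXC (G : SimpleGraph V) (W Z : Finset V) : Finset (V × V) :=
  (NE G Z).filter (fun q => (KZ G Z q.1 q.2 : ℝ) < (1 / 4 - 2 * eta) * W.card ∨
    (¬ (q.1 ∈ Z ∧ q.2 ∈ Z) ∧ (1 / 4 + 2 * eta) * W.card < (KZ G Z q.1 q.2 : ℝ)))

open Pool.Agent.Work.MP_ceb7a8_co in
theorem KZ_eq_codgr {G : SimpleGraph V} {Z : Finset V} {u v : V} (h : ¬ (u ∈ Z ∧ v ∈ Z)) :
    KZ G Z u v = codgr G u v Z := by
  unfold KZ codgr
  congr 1
  ext z
  rw [mem_KS, mem_filter]
  unfold InE
  constructor
  · rintro ⟨⟨h1, h2⟩, ⟨h3, h4⟩⟩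
    refine ⟨?_, h1, h3.symm⟩
    by_contra h5
    exact h ⟨by tauto, by tauto⟩
  · rintro ⟨h1, h2, h3⟩
    exact ⟨⟨h2, Or.inr h1⟩, ⟨h3.symm, Or.inl h1⟩⟩

theorem KZ_both {G : SimpleGraph V} (hG : QR G) {Z : Finset V} {u v : V} (h : u ∈ Z ∧ v ∈ Z)
    (huv : u ≠ v) : (1 / 4 - eta) * nn V ≤ KZ G Z u v := by
  have h1 : (gn G u ∩ gn G v).card ≤ KZ G Z u v := by
    unfold KZ
    apply card_le_card
    intro z hz
    rw [mem_inter] at hz
    unfold gn at hz
    rw [mem_filter, mem_filter] at hz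
    rw [mem_KS]
    exact ⟨⟨hz.1.2, Or.inl h.1⟩, ⟨hz.2.2.symm, Or.inr h.2⟩⟩
  have h2 : |((gn G u ∩ gn G v).card : ℝ) - nn V / 4| ≤ eta * nn V := by
    exact hG.q3d huv
  have h3 := (abs_le.1 h2).1
  have h4 : ((gn G u ∩ gn G v).card : ℝ) ≤ KZ G Z u v := by exact_mod_cast h1
  linarith

open Pool.Agent.Work.MP_ceb7a8_co in
theorem EXC_card {G : SimpleGraph V} (hG : QR G) {W Z : Finset V} (hWZ : W ⊆ Z)
    (hW : W.Nonempty) (hWn : (W.card : ℝ) ≤ nn V / 4)
    (hZ : (Z.card : ℝ) ≤ (1 + eta) * W.card) :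
    ((EXC G W Z).card : ℝ) ≤ 360 * nn V ^ 2 / (eta ^ 2 * W.card) := by
  have he0 : 0 < eta := by unfold eta; positivity
  have he1 : eta ≤ 1 / 4 := by unfold eta; norm_num
  have hZne : Z.Nonempty := hW.mono hWZ
  have hw : (0 : ℝ) < W.card := by exact_mod_cast card_pos.2 hW
  have hz : (W.card : ℝ) ≤ Z.card := by exact_mod_cast card_le_card hWZ
  have h1 := exc_pairs hG hZne he0 he1
  have hsub : EXC G W Z ⊆ (univ : Finset (V × V)).filter (fun p => eta * Z.card ≤
      |(codgr G p.1 p.2 Z : ℝ) - (Z.card : ℝ) / 4|) := by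
    intro q hq
    unfold EXC at hq
    rw [mem_filter, mem_NE] at hq
    rw [mem_filter]
    refine ⟨mem_univ _, ?_⟩
    by_cases hb : q.1 ∈ Z ∧ q.2 ∈ Z
    · exfalso
      have h2 := KZ_both hG hb hq.1.1.ne
      rcases hq.2 with h3 | h3
      · have hn : (0 : ℝ) ≤ nn V := by unfold nn; positivity
        have h5 : (1 / 4 - 2 * eta) * W.card ≤ (1 / 4 - eta) * nn V := by
          unfold eta
          nlinarith
        linarith
      · exact h3.1 hb
    · have h2 := KZ_eq_codgr (G := G) hb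
      rw [h2] at hq
      have e1 : eta = 1 / 10 ^ 6 := rfl
      rcases hq.2 with h3 | h3
      · rw [le_abs]
        right
        have : (1 / 4 - 2 * eta) * W.card ≤ (1 / 4 - eta) * Z.card := by
          rw [e1]; nlinarith
        linarith
      · rw [le_abs]
        left
        have h4 : (1 / 4 + eta) * Z.card ≤ (1 / 4 + 2 * eta) * W.card := by
          have h5 : (1 / 4 + eta) * Z.card ≤ (1 / 4 + eta) * ((1 + eta) * W.card) :=
            mul_le_mul_of_nonneg_left hZ (by rw [e1]; norm_num)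
          refine h5.trans ?_
          rw [e1]; nlinarith
        linarith [h3.2]
  have h2 : ((EXC G W Z).card : ℝ) ≤ 360 * nn V ^ 2 / (eta ^ 2 * Z.card) := by
    refine le_trans ?_ h1
    exact_mod_cast card_le_card hsub
  refine h2.trans ?_
  apply div_le_div_of_nonneg_left (by positivity) (by positivity)
  exact mul_le_mul_of_nonneg_left hz (by positivity)

end

end CEB
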