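import Mathlib
import Pool.Agent.Work.MP_ceb7a8_co.SecB

/-!
Second order: options lost by missing hub edges.
-/

open Finset

namespace CEB

noncomputable section

open scoped Classical

variable {V : Type*} [Fintype V] [LinearOrder V]

/-- Ordered missing edges with second end in W, first end outside Z or in W. -/
def Mi (G : SimpleGraph V) (g : V → V → V) (W Z : Finset V) : Finset (V × V) :=
  univ.filter (fun p => InE G Z p.1 p.2 ∧ ¬ Used g p.1 p.2 ∧ p.2 ∈ W ∧ (p.1 ∉ Z ∨ p.1 ∈ W))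

/-- The third vertices of a triple. -/
def Vs (g : V → V → V) (Z : Finset V) (GS : Finset (V × V)) (p : V × V) : Finset V :=
  univ.filter (fun v => Used g v p.2 ∧ v ∉ Z ∧ srt (p.1, v) ∈ GS)

omit [Fintype V] in
theorem srt_comm (u v : V) (h : u ≠ v) : srt (u, v) = srt (v, u) := by
  unfold srt
  rcases lt_or_gt_of_ne h with h1 | h1
  · rw [if_pos h1, if_neg (not_lt.2 h1.le)]
  · rw [if_neg (not_lt.2 h1.le), if_pos h1]

omit [Fintype V] in
theorem srt_cases (p : V × V) : srt p = p ∨ srt p = (p.2, p.1) := by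
  unfold srt
  split_ifs
  · exact Or.inl rfl
  · exact Or.inr rfl

theorem triples_le {G : SimpleGraph V} {g : V → V → V} (hg : IsSys G g) {W Z : Finset V}
    (hWZ : W ⊆ Z) (GS : Finset (V × V)) :
    ∑ p ∈ Mi G g W Z, (Vs g Z GS p).card ≤
      ∑ q ∈ GS.filter (fun q => ¬ (q.1 ∈ Z ∧ q.2 ∈ Z)), (bS G g Z q.1 q.2).card := by
  rw [← card_sigma, ← card_sigma]
  apply card_le_card_of_injOn
    (fun t => (⟨srt (t.1.1, t.2), t.1.2⟩ : (_ : V × V) × V))
  · rintro ⟨⟨u, z⟩, v⟩ ht
    rw [mem_coe, mem_sigma] at ht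
    obtain ⟨h1, h2⟩ := ht
    simp only [Mi, mem_filter, mem_univ, true_and] at h1
    simp only [Vs, mem_filter, mem_univ, true_and] at h2
    obtain ⟨hin, hnu, hzW, huZ⟩ := h1
    obtain ⟨hvz, hvZ, hGS⟩ := h2
    have hvin : InE G Z v z := ⟨hg.used_adj hvz, Or.inr (hWZ hzW)⟩
    rw [mem_coe, mem_sigma]
    refine ⟨?_, ?_⟩
    · rw [mem_filter]
      refine ⟨hGS, ?_⟩
      show ¬ ((srt (u, v)).1 ∈ Z ∧ (srt (u, v)).2 ∈ Z)
      rcases srt_cases (u, v) with h | h <;> rw [h]
      · exact fun h3 => hvZ h3.2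
      · exact fun h3 => hvZ h3.1
    · show z ∈ bS G g Z (srt (u, v)).1 (srt (u, v)).2
      simp only [bS, mem_filter, mem_univ, true_and]
      rcases srt_cases (u, v) with h | h <;> rw [h]
      · exact ⟨hin, hvin.symm, fun h3 => hnu h3.1⟩
      · exact ⟨hvin, hin.symm, fun h3 => hnu h3.2⟩
  · rintro ⟨⟨u, z⟩, v⟩ ht ⟨⟨u', z'⟩, v'⟩ ht' heq
    rw [mem_coe, mem_sigma] at ht ht'
    obtain ⟨h1, h2⟩ := ht
    obtain ⟨h1', h2'⟩ := ht'
    simp only [Mi, mem_filter, mem_univ, true_and] at h1 h1'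
    simp only [Vs, mem_filter, mem_univ, true_and] at h2 h2'
    simp only [Sigma.mk.injEq] at heq
    obtain ⟨h3, h4⟩ := heq
    have h4 : z = z' := eq_of_heq h4
    subst h4
    rcases srt_eq h3 with h5 | h5
    · obtain ⟨h6, h7⟩ := Prod.mk.inj h5
      subst h6; subst h7
      rfl
    · exfalso
      obtain ⟨h6, h7⟩ := Prod.mk.inj h5
      simp only at h6 h7
      subst h6
      exact h1.2.1 h2'.1

omit [LinearOrder V] in
theorem nb_card_eq {G : SimpleGraph V} {g : V → V → V} (hg : IsSys G g) (z : V) :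
    (univ.filter (fun v => Used g v z)).card = (nb g z).card := by
  unfold nb
  congr 1
  ext v
  rw [mem_filter, mem_filter, hg.used_comm]

/-- Number of bad partners. -/
def rr (RR : Finset (V × V)) (u : V) : ℕ := (univ.filter (fun v => srt (u, v) ∈ RR)).card

theorem vs_ge {G : SimpleGraph V} {g : V → V → V} (hG : QR G) (hg : IsSys G g) {W Z : Finset V}
    (hW : ∀ z ∈ W, 9 / 20 * nn V ≤ ((nb g z).card : ℝ))
    (hZ : (Z.card : ℝ) + 1 ≤ nn V / 1000) {GS : Finset (V × V)}
    {p : V × V} (hp : p ∈ Mi G g W Z) :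
    (if p.1 ∉ Z then 39 / 100 * nn V else 39 / 200 * nn V) - (rr (NE G Z \ GS) p.1 : ℝ) ≤
      ((Vs g Z GS p).card : ℝ) := by
  obtain ⟨u, z⟩ := p
  simp only [Mi, mem_filter, mem_univ, true_and] at hp
  obtain ⟨hin, hnu, hzW, huZ⟩ := hp
  set A := univ.filter (fun v => Used g v z) with hA
  have hn0 : (0 : ℝ) ≤ nn V := by unfold nn; positivity
  have hAc : 9 / 20 * nn V ≤ (A.card : ℝ) := by
    rw [hA, nb_card_eq hg]; exact hW z hzW
  set I := univ.filter (fun v => InE G Z u v ∧ v ∉ Z) with hI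
  have hsub : A ⊆ (Z ∪ {u}) ∪ ((A ∩ I) ∪ (Vs g Z GS (u, z) ∪
      univ.filter (fun v => srt (u, v) ∈ NE G Z \ GS))) := by
    intro v hv
    rw [hA, mem_filter] at hv
    rw [mem_union, mem_union, mem_union, mem_union, mem_singleton]
    by_cases h1 : v ∈ Z
    · exact Or.inl (Or.inl h1)
    · by_cases h2 : v = u
      · exact Or.inl (Or.inr h2)
      · right
        by_cases h3 : InE G Z u v
        · left
          rw [mem_inter, hA, hI, mem_filter, mem_filter]
          exact ⟨⟨mem_univ _, hv.2⟩, mem_univ _, h3, h1⟩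
        · right
          by_cases h4 : srt (u, v) ∈ GS
          · left
            simp only [Vs, mem_filter, mem_univ, true_and]
            exact ⟨hv.2, h1, h4⟩
          · right
            rw [mem_filter]
            refine ⟨mem_univ _, ?_⟩
            rw [mem_sdiff]
            refine ⟨?_, h4⟩
            rw [mem_NE]
            unfold srt
            rcases lt_or_gt_of_ne (Ne.symm h2) with h5 | h5
            · rw [if_pos h5]; exact ⟨h5, h3⟩
            · rw [if_neg (not_lt.2 h5.le)]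
              exact ⟨h5, fun h6 => h3 h6.symm⟩
  have hcard := (card_le_card hsub).trans ((card_union_le _ _).trans
    (Nat.add_le_add (card_union_le _ _) ((card_union_le _ _).trans
      (Nat.add_le_add_left (card_union_le _ _) _))))
  rw [card_singleton] at hcard
  have hrr : (univ.filter (fun v => srt (u, v) ∈ NE G Z \ GS)).card = rr (NE G Z \ GS) u := rfl
  rw [hrr] at hcard
  have hcard' : (A.card : ℝ) ≤ (Z.card + 1) + ((A ∩ I).card + ((Vs g Z GS (u, z)).card +
      rr (NE G Z \ GS) u)) := by exact_mod_cast hcard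
  show (if u ∉ Z then 39 / 100 * nn V else 39 / 200 * nn V) - (rr (NE G Z \ GS) u : ℝ) ≤
      ((Vs g Z GS (u, z)).card : ℝ)
  by_cases h : u ∈ Z
  swap
  · rw [if_pos h]
    have h1 : A ∩ I = ∅ := by
      rw [eq_empty_iff_forall_notMem]
      intro v hv
      have hv2 := (mem_inter.1 hv).2
      rw [hI, mem_filter] at hv2
      rcases hv2.2.1.2 with h2 | h2
      · exact h h2
      · exact hv2.2.2 h2
    rw [h1, card_empty] at hcard'
    push_cast at hcard'
    linarith
  · rw [if_neg (not_not.2 h)]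
    have huz : u ≠ z := hin.1.ne
    have h1 : (A ∩ I).card ≤ (gn G u ∩ gn G z).card := by
      apply card_le_card
      intro v hv
      have hv1 := (mem_inter.1 hv).1
      have hv2 := (mem_inter.1 hv).2
      rw [hA, mem_filter] at hv1
      rw [hI, mem_filter] at hv2
      rw [mem_inter]
      unfold gn
      rw [mem_filter, mem_filter]
      exact ⟨⟨mem_univ _, hv2.2.1.1⟩, mem_univ _, (hg.used_adj hv1.2).symm⟩
    have h2 : |((gn G u ∩ gn G z).card : ℝ) - nn V / 4| ≤ eta * nn V := by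
      exact hG.q3d huz
    have h3 := (abs_le.1 h2).2
    have h4 : ((A ∩ I).card : ℝ) ≤ ((gn G u ∩ gn G z).card : ℝ) := by exact_mod_cast h1
    have h5 : eta * nn V ≤ 1 / 1000 * nn V :=
      mul_le_mul_of_nonneg_right (by unfold eta; norm_num) hn0
    linarith

theorem sum_rr {G : SimpleGraph V} {Z : Finset V} {RR : Finset (V × V)}
    (hRR : RR ⊆ NE G Z) : ∑ u, rr RR u ≤ 2 * RR.card := by
  have h1 : ∑ u, rr RR u = (univ.filter (fun p : V × V => srt p ∈ RR)).card := by
    unfold rr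
    rw [card_eq_sum_card_fiberwise (f := fun p : V × V => p.1) (t := univ)]
    · refine sum_congr rfl fun u _ => ?_
      apply card_bij (fun v _ => (u, v))
      · intro v hv
        rw [mem_filter] at hv
        rw [mem_filter, mem_filter]
        exact ⟨⟨mem_univ _, hv.2⟩, rfl⟩
      · intro v _ v' _ h
        exact (Prod.mk.inj h).2
      · intro p hp
        rw [mem_filter, mem_filter] at hp
        refine ⟨p.2, ?_, ?_⟩
        · rw [mem_filter]
          refine ⟨mem_univ _, ?_⟩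
          rw [← hp.2]
          exact hp.1.2
        · rw [← hp.2]
    · intro p _
      exact mem_coe.2 (mem_univ _)
  rw [h1]
  have hne : ∀ p ∈ univ.filter (fun p : V × V => srt p ∈ RR), p.1 ≠ p.2 := by
    intro p hp heq
    rw [mem_filter] at hp
    have h2 := (mem_NE.1 (hRR hp.2)).1
    rcases srt_cases p with h3 | h3 <;> rw [h3] at h2
    · exact absurd h2 (by rw [heq]; exact lt_irrefl _)
    · simp only at h2
      exact absurd h2 (by rw [heq]; exact lt_irrefl _)
  refine (card_le_two_unord _ hne).trans ?_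
  apply Nat.mul_le_mul_left
  apply card_le_card
  intro p hp
  rw [mem_unord, mem_filter, mem_filter] at hp
  obtain ⟨hlt, h | h⟩ := hp
  · have : srt p = p := by unfold srt; rw [if_pos hlt]
    rw [this] at h
    exact h.2
  · have : srt (p.2, p.1) = p := by
      unfold srt
      simp only
      rw [if_neg (not_lt.2 hlt.le)]
    rw [this] at h
    exact h.2

theorem missing_le {G : SimpleGraph V} {g : V → V → V} (hg : IsSys G g) {W R0 : Finset V} :
    2 * (HP0 G (W ∪ R0) \ usedP g).card ≤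
      2 * ((Mi G g W (W ∪ R0)).filter (fun p => p.1 ∉ W ∪ R0)).card +
      ((Mi G g W (W ∪ R0)).filter (fun p => ¬ p.1 ∉ W ∪ R0)).card +
      2 * (R0.card * Fintype.card V) := by
  set Z := W ∪ R0 with hZ
  set MO : Finset (V × V) := univ.filter (fun p => p.1 ≠ p.2 ∧ InE G Z p.1 p.2 ∧
    ¬ Used g p.1 p.2) with hMO
  set P1 := (Mi G g W Z).filter (fun p => p.1 ∉ Z) with hP1
  set P2 := (Mi G g W Z).filter (fun p => ¬ p.1 ∉ Z) with hP2
  have h1 : 2 * (HP0 G Z \ usedP g).card = MO.card := by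
    have h2 := two_mul_sum_prs (V := V)
      (fun u v => if InE G Z u v ∧ ¬ Used g u v then (1 : ℝ) else 0) (by
        intro u v
        rw [InE.comm (u := u), hg.used_comm (u := u)])
    have h3 : ∑ q ∈ prs V, (if InE G Z q.1 q.2 ∧ ¬ Used g q.1 q.2 then (1 : ℝ) else 0) =
        ((HP0 G Z \ usedP g).card : ℝ) := by
      rw [← sum_filter, sum_const, nsmul_eq_mul, mul_one]
      congr 2
      ext q
      rw [mem_filter, mem_sdiff, mem_usedP]
      unfold HP0
      rw [mem_filter, mem_prs]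
      tauto
    have h4 : ∑ p ∈ (univ : Finset (V × V)).filter (fun p => p.1 ≠ p.2),
        (if InE G Z p.1 p.2 ∧ ¬ Used g p.1 p.2 then (1 : ℝ) else 0) = (MO.card : ℝ) := by
      rw [← sum_filter, sum_const, nsmul_eq_mul, mul_one, filter_filter]
    rw [h3, h4] at h2
    exact_mod_cast h2
  have h2 : MO ⊆ (P1 ∪ P1.image (fun p => (p.2, p.1))) ∪ (P2 ∪ ((R0 ×ˢ univ) ∪ (univ ×ˢ R0))) := by
    intro p hp
    rw [hMO, mem_filter] at hp
    obtain ⟨_, hne, hin, hnu⟩ := hp
    rw [mem_union, mem_union, mem_union, mem_union, mem_image, mem_product, mem_product]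
    by_cases ha : p.1 ∈ R0
    · exact Or.inr (Or.inr (Or.inl ⟨ha, mem_univ _⟩))
    by_cases hb : p.2 ∈ R0
    · exact Or.inr (Or.inr (Or.inr ⟨mem_univ _, hb⟩))
    by_cases hc : p.2 ∈ W
    · by_cases hd : p.1 ∈ Z
      · right; left
        rw [hP2, mem_filter, Mi, mem_filter]
        have : p.1 ∈ W := by
          rw [hZ, mem_union] at hd
          exact hd.resolve_right ha
        exact ⟨⟨mem_univ _, hin, hnu, hc, Or.inr this⟩, not_not.2 hd⟩
      · left; left
        rw [hP1, mem_filter, Mi, mem_filter]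
        exact ⟨⟨mem_univ _, hin, hnu, hc, Or.inl hd⟩, hd⟩
    · have h2Z : p.2 ∉ Z := by
        rw [hZ, mem_union]
        rintro (h | h)
        · exact hc h
        · exact hb h
      have h1W : p.1 ∈ W := by
        rcases hin.2 with h | h
        · rw [hZ, mem_union] at h
          exact h.resolve_right ha
        · exact absurd h h2Z
      left; right
      refine ⟨(p.2, p.1), ?_, rfl⟩
      rw [hP1, mem_filter, Mi, mem_filter]
      exact ⟨⟨mem_univ _, hin.symm, fun h => hnu (hg.used_symm h), h1W, Or.inl h2Z⟩, h2Z⟩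
  have h3 := (card_le_card h2).trans ((card_union_le _ _).trans
    (Nat.add_le_add (card_union_le _ _) ((card_union_le _ _).trans
      (Nat.add_le_add_left (card_union_le _ _) _))))
  have h4 : (P1.image (fun p : V × V => (p.2, p.1))).card ≤ P1.card := card_image_le
  rw [card_product, card_product, card_univ] at h3
  rw [h1]
  have h5 : Fintype.card V * R0.card = R0.card * Fintype.card V := mul_comm _ _
  omega

/-- The lost options. -/
theorem sum_b_ge {G : SimpleGraph V} {g : V → V → V} (hG : QR G) (hg : IsSys G g)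
    {W R0 : Finset V} (hW : ∀ z ∈ W, 9 / 20 * nn V ≤ ((nb g z).card : ℝ))
    (hZ : ((W ∪ R0).card : ℝ) + 1 ≤ nn V / 1000) {GS : Finset (V × V)} :
    39 / 100 * nn V * ((HP0 G (W ∪ R0) \ usedP g).card - R0.card * nn V) -
        2 * W.card * (NE G (W ∪ R0) \ GS).card ≤
      ∑ q ∈ GS.filter (fun q => ¬ (q.1 ∈ W ∪ R0 ∧ q.2 ∈ W ∪ R0)),
        ((bS G g (W ∪ R0) q.1 q.2).card : ℝ) := by
  set Z := W ∪ R0 with hZdef
  have hWZ : W ⊆ Z := subset_union_left
  have hn0 : (0 : ℝ) ≤ nn V := by unfold nn; positivity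
  have h1 := triples_le hg hWZ GS
  have h2 : ∑ p ∈ Mi G g W Z, ((if p.1 ∉ Z then 39 / 100 * nn V else 39 / 200 * nn V) -
      (rr (NE G Z \ GS) p.1 : ℝ)) ≤ ∑ p ∈ Mi G g W Z, ((Vs g Z GS p).card : ℝ) :=
    sum_le_sum fun p hp => vs_ge hG hg hW hZ hp
  have h3 : ∑ p ∈ Mi G g W Z, (rr (NE G Z \ GS) p.1 : ℝ) ≤
      2 * W.card * (NE G Z \ GS).card := by
    have h4 : ∑ p ∈ Mi G g W Z, rr (NE G Z \ GS) p.1 ≤
        ∑ p ∈ (univ : Finset V) ×ˢ W, rr (NE G Z \ GS) p.1 := by
      apply sum_le_sum_of_subset_of_nonneg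
      · intro p hp
        rw [Mi, mem_filter] at hp
        rw [mem_product]
        exact ⟨mem_univ _, hp.2.2.2.1⟩
      · intro _ _ _
        exact Nat.zero_le _
    have h5 : ∑ p ∈ (univ : Finset V) ×ˢ W, rr (NE G Z \ GS) p.1 =
        W.card * ∑ u, rr (NE G Z \ GS) u := by
      rw [sum_product, mul_sum]
      refine sum_congr rfl fun u _ => ?_
      simp only [sum_const, smul_eq_mul]
    have h6 : ∑ u, rr (NE G Z \ GS) u ≤ 2 * (NE G Z \ GS).card :=
      sum_rr (G := G) (Z := Z) sdiff_subset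
    have h7 : ∑ p ∈ Mi G g W Z, rr (NE G Z \ GS) p.1 ≤ W.card * (2 * (NE G Z \ GS).card) := by
      rw [h5] at h4
      exact h4.trans (Nat.mul_le_mul_left _ h6)
    have h8 : ∑ p ∈ Mi G g W Z, (rr (NE G Z \ GS) p.1 : ℝ) ≤
        (W.card : ℝ) * (2 * (NE G Z \ GS).card) := by exact_mod_cast h7
    linarith
  have h4 : ∑ p ∈ Mi G g W Z, (if p.1 ∉ Z then 39 / 100 * nn V else 39 / 200 * nn V) =
      39 / 200 * nn V * (2 * ((Mi G g W Z).filter (fun p => p.1 ∉ Z)).card +
        ((Mi G g W Z).filter (fun p => ¬ p.1 ∉ Z)).card) := by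
    rw [sum_ite, sum_const, sum_const, nsmul_eq_mul, nsmul_eq_mul]
    ring
  have h5 := missing_le (G := G) hg (W := W) (R0 := R0)
  rw [← hZdef] at h5
  have h5' : (2 * ((HP0 G Z \ usedP g).card : ℝ)) ≤
      2 * (((Mi G g W Z).filter (fun p => p.1 ∉ Z)).card : ℝ) +
      (((Mi G g W Z).filter (fun p => ¬ p.1 ∉ Z)).card : ℝ) + 2 * (R0.card * nn V) := by
    unfold nn
    exact_mod_cast h5
  have h1' : ∑ p ∈ Mi G g W Z, ((Vs g Z GS p).card : ℝ) ≤
      ∑ q ∈ GS.filter (fun q => ¬ (q.1 ∈ Z ∧ q.2 ∈ Z)), ((bS G g Z q.1 q.2).card : ℝ) := by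
    exact_mod_cast h1
  rw [sum_sub_distrib, h4] at h2
  have h6 : 39 / 200 * nn V * (2 * ((HP0 G Z \ usedP g).card : ℝ) - 2 * (R0.card * nn V)) ≤
      39 / 200 * nn V * (2 * ((Mi G g W Z).filter (fun p => p.1 ∉ Z)).card +
        ((Mi G g W Z).filter (fun p => ¬ p.1 ∉ Z)).card) := by
    apply mul_le_mul_of_nonneg_left _ (by positivity)
    linarith
  nlinarith

end

end CEB
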