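import Mathlib
import Pool.Agent.Work.MP_ceb7a8_co.SecC
import Pool.Agent.Work.MP_ceb7a8_co.Lower
import Pool.Agent.Work.MP_ceb7a8_co.First

/-!
Second order: the pointwise inequality.
-/

open Finset

namespace CEB

noncomputable section

open scoped Classical

/-- Final linear step. -/
theorem second_final {n L m f Ku K lam Y2 X R T lg : ℝ}
    (c2 : T ≤ m * (L + 2) + 2 * X * (L + 2) - (L - lg - 2) * (f + Ku + lam) +
      (4124 / 1000 * L * ((9 / 40 + 1 / 10 ^ 6) * f + 9 / 40 * Y2) + 9 * f) +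
      1011 / 1000 * (4124 / 1000 * L * ((3 / 16 + 3 * (1 / 10 ^ 6)) * Ku + Y2)) +
      (-(3478 / 1000 * 39 / 100 * L * m) + 4124 / 1000 * L * (39 / 100) * (R * n) +
      8 * (f + Ku + lam + X)))
    (d1 : lg * (f + Ku + lam) ≤ 1 / 10 ^ 19 * L * (f + Ku + lam) - 8 * (f + Ku + lam))
    (d2 : 2 * m ≤ 1 / 10 ^ 19 * L * m) (d3 : L * Y2 ≤ L * ((f + Ku) / 10 ^ 3))
    (d4 : L * K ≤ L * (2 * Ku)) (d5 : 19 * (f + Ku + lam) ≤ 1 / 10 ^ 18 * L * (f + Ku + lam))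
    (d6 : 0 ≤ L * f) (d7 : 0 ≤ L * Ku) (d8 : 0 ≤ L * lam) (d9 : 0 ≤ L * m)
    (d10 : X * L ≤ 10 ^ 15 * (n * L ^ 2)) (d11 : 12 * X ≤ X * L)
    (d12 : L * (R * n) ≤ 20 * (n * L ^ 2)) (d13 : 0 ≤ n * L ^ 2) (d14 : 0 ≤ f) (d15 : 0 ≤ Ku)
    (d16 : 0 ≤ lam) :
    T + (1 - 5 / 10 ^ 6 / 2) * L * lam + 5 / 10 ^ 6 * L * (m + f) + 2 * (5 / 10 ^ 6) * L * K +
      5 / 10 ^ 6 / 8 * L * lam + 5 / 10 ^ 6 / 8 * L * (m + f + K + lam) ≤ 10 ^ 17 * (n * L ^ 2) := by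
  linarith

/-- The numerical second order inequality. -/
theorem second_numeric {n L w Z R m f Ku K lam Y2 X T A B S κ1 κ2 RR : ℝ}
    (hL : (10 : ℝ) ^ 100 ≤ L) (hn : 0 < n)
    (hw1 : 97 / 100 * (n / L) ≤ w) (hw2 : w ≤ 115 / 100 * (n / L))
    (hZ : Z ≤ w + R) (hZw : R ≤ w / 10) (hR0 : 0 ≤ R) (hR : R ≤ 20 * L)
    (hm : 0 ≤ m) (hf : 0 ≤ f) (hKu : 0 ≤ Ku) (hlam : 0 ≤ lam) (hX : 0 ≤ X) (hY2 : 0 ≤ Y2)
    (hK : K ≤ 2 * Ku) (hK0 : 0 ≤ K)
    (hκ1 : κ1 = (1 / 4 - 2 * eta) * w) (hκ2 : κ2 = (1 / 4 + 2 * eta) * w)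
    (hT : T ≤ m * (L + 2) + 2 * X * (L + 2) - (L - Real.log L - 2) * (f + Ku + lam) +
      (A + 1011 / 1000 * S) / κ1 - B / κ2)
    (hA : A ≤ n * ((9 / 40 + eta) * f + 9 / 40 * Y2) + 2 * Z * f)
    (hS : S ≤ n * ((3 / 16 + 3 * eta) * Ku + Y2))
    (hB : 39 / 100 * n * (m - R * n) - 2 * w * RR ≤ B)
    (hRR : RR ≤ f + Ku + lam + X)
    (hY : Y2 ≤ (f + Ku) / 10 ^ 3)
    (hXle : X ≤ 10 ^ 15 * n * L) :
    T + (1 - kap / 2) * L * lam + kap * L * (m + f) + 2 * kap * L * K + kap / 8 * L * lam +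
      kap / 8 * L * (m + f + K + lam) ≤ 10 ^ 17 * n * L ^ 2 := by
  have hL0 : 0 < L := lt_of_lt_of_le (by positivity) hL
  have hlog := log_large hL
  have e1 : eta = 1 / 10 ^ 6 := rfl
  have e2 : kap = 5 / 10 ^ 6 := rfl
  have hh : 0 < n / L := by positivity
  have hw : 0 < w := lt_of_lt_of_le (by positivity) hw1
  have hk1 : 0 < κ1 := by rw [hκ1, e1]; nlinarith
  have hk2 : 0 < κ2 := by rw [hκ2, e1]; nlinarith
  -- n / κ1 <= 4.124 L
  have a1 : n / κ1 ≤ 4124 / 1000 * L := by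
    rw [div_le_iff₀ hk1, hκ1, e1]
    have h1 : n = L * (n / L) := by field_simp
    have h2 : L * (97 / 100 * (n / L)) ≤ L * w := mul_le_mul_of_nonneg_left hw1 hL0.le
    nlinarith
  have a2 : 3478 / 1000 * L ≤ n / κ2 := by
    rw [le_div_iff₀ hk2, hκ2, e1]
    have h1 : n = L * (n / L) := by field_simp
    have h2 : L * w ≤ L * (115 / 100 * (n / L)) := mul_le_mul_of_nonneg_left hw2 hL0.le
    nlinarith
  have a3 : n / κ2 ≤ 4124 / 1000 * L := by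
    refine le_trans ?_ a1
    apply div_le_div_of_nonneg_left hn.le hk1
    rw [hκ1, hκ2, e1]
    nlinarith
  have a4 : Z / κ1 ≤ 45 / 10 := by
    rw [div_le_iff₀ hk1, hκ1, e1]
    nlinarith
  have a5 : w / κ2 ≤ 4 := by
    rw [div_le_iff₀ hk2, hκ2, e1]
    nlinarith
  -- A / κ1
  have b1 : A / κ1 ≤ 4124 / 1000 * L * ((9 / 40 + eta) * f + 9 / 40 * Y2) + 9 * f := by
    have h1 : A / κ1 ≤ (n * ((9 / 40 + eta) * f + 9 / 40 * Y2) + 2 * Z * f) / κ1 := by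
      gcongr
    have h2 : (n * ((9 / 40 + eta) * f + 9 / 40 * Y2) + 2 * Z * f) / κ1 =
        n / κ1 * ((9 / 40 + eta) * f + 9 / 40 * Y2) + Z / κ1 * (2 * f) := by ring
    have h3 : n / κ1 * ((9 / 40 + eta) * f + 9 / 40 * Y2) ≤
        4124 / 1000 * L * ((9 / 40 + eta) * f + 9 / 40 * Y2) := by
      apply mul_le_mul_of_nonneg_right a1
      rw [e1]; positivity
    have h4 : Z / κ1 * (2 * f) ≤ 45 / 10 * (2 * f) :=
      mul_le_mul_of_nonneg_right a4 (by positivity)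
    linarith
  have b2 : S / κ1 ≤ 4124 / 1000 * L * ((3 / 16 + 3 * eta) * Ku + Y2) := by
    have h1 : S / κ1 ≤ (n * ((3 / 16 + 3 * eta) * Ku + Y2)) / κ1 := by gcongr
    have h2 : (n * ((3 / 16 + 3 * eta) * Ku + Y2)) / κ1 =
        n / κ1 * ((3 / 16 + 3 * eta) * Ku + Y2) := by ring
    rw [h2] at h1
    refine h1.trans ?_
    apply mul_le_mul_of_nonneg_right a1
    rw [e1]; positivity
  have b3 : -(B / κ2) ≤ -(3478 / 1000 * 39 / 100 * L * m) + 4124 / 1000 * L * (39 / 100) * (R * n) +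
      8 * (f + Ku + lam + X) := by
    have h1 : (39 / 100 * n * (m - R * n) - 2 * w * RR) / κ2 ≤ B / κ2 := by gcongr
    have h2 : (39 / 100 * n * (m - R * n) - 2 * w * RR) / κ2 =
        n / κ2 * (39 / 100 * m) - n / κ2 * (39 / 100 * (R * n)) - w / κ2 * (2 * RR) := by ring
    have h3 : 3478 / 1000 * L * (39 / 100 * m) ≤ n / κ2 * (39 / 100 * m) :=
      mul_le_mul_of_nonneg_right a2 (by positivity)
    have h4 : n / κ2 * (39 / 100 * (R * n)) ≤ 4124 / 1000 * L * (39 / 100 * (R * n)) :=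
      mul_le_mul_of_nonneg_right a3 (by positivity)
    have h5 : w / κ2 * (2 * RR) ≤ 4 * (2 * (f + Ku + lam + X)) := by
      have h6 : w / κ2 * (2 * RR) ≤ w / κ2 * (2 * (f + Ku + lam + X)) := by
        apply mul_le_mul_of_nonneg_left _ (by positivity)
        linarith
      have h7 : w / κ2 * (2 * (f + Ku + lam + X)) ≤ 4 * (2 * (f + Ku + lam + X)) :=
        mul_le_mul_of_nonneg_right a5 (by positivity)
      linarith
    linarith
  have c1 : (A + 1011 / 1000 * S) / κ1 = A / κ1 + 1011 / 1000 * (S / κ1) := by ring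
  rw [c1] at hT
  have c2 : T ≤ m * (L + 2) + 2 * X * (L + 2) - (L - Real.log L - 2) * (f + Ku + lam) +
      (4124 / 1000 * L * ((9 / 40 + eta) * f + 9 / 40 * Y2) + 9 * f) +
      1011 / 1000 * (4124 / 1000 * L * ((3 / 16 + 3 * eta) * Ku + Y2)) +
      (-(3478 / 1000 * 39 / 100 * L * m) + 4124 / 1000 * L * (39 / 100) * (R * n) +
      8 * (f + Ku + lam + X)) := by
    have hS' : 1011 / 1000 * (S / κ1) ≤
        1011 / 1000 * (4124 / 1000 * L * ((3 / 16 + 3 * eta) * Ku + Y2)) :=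
      mul_le_mul_of_nonneg_left b2 (by norm_num)
    linarith [b1, b3, hT, hS']
  clear hT hA hS hB hRR b1 b2 b3 c1 a1 a2 a3 a4 a5 hκ1 hκ2 hk1 hk2 hw1 hw2 hZ hZw
  have d1 : Real.log L * (f + Ku + lam) ≤ 1 / 10 ^ 19 * L * (f + Ku + lam) - 8 * (f + Ku + lam) := by
    have h1 : Real.log L ≤ 1 / 10 ^ 19 * L - 8 := by linarith
    have h2 := mul_le_mul_of_nonneg_right h1 (by positivity : 0 ≤ f + Ku + lam)
    linarith
  have hL12 : (10 : ℝ) ^ 20 ≤ L := le_trans (by norm_num) hL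
  have d2 : 2 * m ≤ 1 / 10 ^ 19 * L * m := by
    have h1 : (2 : ℝ) ≤ 1 / 10 ^ 19 * L := by
      have := mul_le_mul_of_nonneg_left hL12 (by norm_num : (0 : ℝ) ≤ 1 / 10 ^ 19)
      refine le_trans ?_ this
      norm_num
    exact mul_le_mul_of_nonneg_right h1 hm
  have d3 : L * Y2 ≤ L * ((f + Ku) / 10 ^ 3) := mul_le_mul_of_nonneg_left hY hL0.le
  have d4 : L * K ≤ L * (2 * Ku) := mul_le_mul_of_nonneg_left hK hL0.le
  have d5 : 19 * (f + Ku + lam) ≤ 1 / 10 ^ 18 * L * (f + Ku + lam) := by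
    have h1 : (19 : ℝ) ≤ 1 / 10 ^ 18 * L := by
      have := mul_le_mul_of_nonneg_left hL12 (by norm_num : (0 : ℝ) ≤ 1 / 10 ^ 18)
      refine le_trans ?_ this
      norm_num
    exact mul_le_mul_of_nonneg_right h1 (by positivity)
  have d10 : X * L ≤ 10 ^ 15 * (n * L ^ 2) := by
    have h1 := mul_le_mul_of_nonneg_right hXle hL0.le
    refine h1.trans (le_of_eq ?_)
    ring
  have d11 : 12 * X ≤ X * L := by
    have h1 : (12 : ℝ) ≤ L := le_trans (by norm_num) hL12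
    have h2 := mul_le_mul_of_nonneg_left h1 hX
    linarith
  have d12 : L * (R * n) ≤ 20 * (n * L ^ 2) := by
    have h1 : R * n ≤ 20 * L * n := mul_le_mul_of_nonneg_right hR hn.le
    have h2 := mul_le_mul_of_nonneg_left h1 hL0.le
    refine h2.trans (le_of_eq ?_)
    ring
  have d13 : 0 ≤ n * L ^ 2 := by positivity
  rw [e1] at c2
  rw [e2]
  have hfin := second_final c2 d1 d2 d3 d4 d5 (by positivity) (by positivity) (by positivity)
    (by positivity) d10 d11 d12 d13 hf hKu hlam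
  refine hfin.trans (le_of_eq ?_)
  ring

end

end CEB
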