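import Mathlib
import Pool.Agent.Work.MP_ceb7a8_co.SecD

/-!
Second order: the pointwise inequality for one system.
-/

open Finset

namespace CEB

noncomputable section

open scoped Classical

variable {V : Type*} [Fintype V] [LinearOrder V]

theorem prs_eq (G : SimpleGraph V) (Z : Finset V) : prs V = HP0 G Z ∪ NE G Z := by
  ext p
  rw [mem_union, mem_NE]
  unfold HP0
  rw [mem_filter, mem_prs]
  tauto

theorem HP0_disj_NE (G : SimpleGraph V) (Z : Finset V) : Disjoint (HP0 G Z) (NE G Z) := by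
  rw [disjoint_left]
  intro p hp hp'
  rw [mem_NE] at hp'
  unfold HP0 at hp
  rw [mem_filter] at hp
  exact hp'.2 hp.2

theorem rest_sub_prs (g : V → V → V) (θ : ℝ) : restP g θ ⊆ prs V := sdiff_subset
theorem used_sub_prs (g : V → V → V) : usedP g ⊆ prs V := filter_subset _ _
theorem wasted_sub_prs (ω : V → V → Option V) : wastedP ω ⊆ prs V := filter_subset _ _
theorem light_sub_prs (g : V → V → V) (θ : ℝ) : lightP g θ ⊆ prs V := filter_subset _ _

theorem used_wasted_disj {G : SimpleGraph V} {g : V → V → V} (hg : IsSys G g) (θ : ℝ) :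
    Disjoint (usedP g) (wastedP (om g θ)) := by
  rw [disjoint_left]
  intro p hp hw
  rw [mem_usedP] at hp
  rw [mem_wastedP] at hw
  rcases hw.2 with h | h
  · obtain ⟨x, hx⟩ := Option.ne_none_iff_exists'.1 h
    have h1 := om_eq_some.1 hx
    exact h1.2.2.1 (h1.2.1.symm.trans hp.2.2)
  · obtain ⟨x, hx⟩ := Option.ne_none_iff_exists'.1 h
    have h1 := om_eq_some.1 hx
    exact h1.2.2.1 (h1.2.1.symm.trans (hg.used_symm hp.2).2)

theorem used_light_disj (g : V → V → V) (θ : ℝ) : Disjoint (usedP g) (lightP g θ) := by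
  rw [disjoint_left]
  intro p hp hl
  rw [mem_usedP] at hp
  rw [mem_lightP] at hl
  exact hl.2.1 hp.2

theorem wasted_light_disj (g : V → V → V) (θ : ℝ) :
    Disjoint (wastedP (om g θ)) (lightP g θ) := by
  rw [disjoint_left]
  intro p hp hl
  rw [mem_wastedP] at hp
  rw [mem_lightP] at hl
  rcases hp.2 with h | h
  · exact h hl.2.2.1
  · exact h hl.2.2.2.1

theorem rest_used_disj (g : V → V → V) (θ : ℝ) : Disjoint (restP g θ) (usedP g) := by
  rw [disjoint_left]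
  intro p hp hu
  exact (mem_restP.1 hp).2.1 hu

theorem rest_wasted_disj (g : V → V → V) (θ : ℝ) :
    Disjoint (restP g θ) (wastedP (om g θ)) := by
  rw [disjoint_left]
  intro p hp hu
  exact (mem_restP.1 hp).2.2.1 hu

theorem rest_light_disj (g : V → V → V) (θ : ℝ) : Disjoint (restP g θ) (lightP g θ) := by
  rw [disjoint_left]
  intro p hp hu
  exact (mem_restP.1 hp).2.2.2 hu

/-- The missing edges contain the rest, wasted and light pairs that are hub edges. -/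
theorem abc_le {G : SimpleGraph V} {g : V → V → V} (hg : IsSys G g) (θ : ℝ) (Z : Finset V) :
    (restP g θ ∩ HP0 G Z).card + (wastedP (om g θ) ∩ HP0 G Z).card +
      (lightP g θ ∩ HP0 G Z).card ≤ (HP0 G Z \ usedP g).card := by
  have h1 : Disjoint (restP g θ ∩ HP0 G Z) (wastedP (om g θ) ∩ HP0 G Z) :=
    (rest_wasted_disj g θ).mono inter_subset_left inter_subset_left
  have h2 : Disjoint ((restP g θ ∩ HP0 G Z) ∪ (wastedP (om g θ) ∩ HP0 G Z))
      (lightP g θ ∩ HP0 G Z) := by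
    rw [disjoint_union_left]
    exact ⟨(rest_light_disj g θ).mono inter_subset_left inter_subset_left,
      (wasted_light_disj g θ).mono inter_subset_left inter_subset_left⟩
  rw [← card_union_of_disjoint h1, ← card_union_of_disjoint h2]
  apply card_le_card
  intro p hp
  rw [mem_union, mem_union, mem_inter, mem_inter, mem_inter] at hp
  rw [mem_sdiff]
  rcases hp with (⟨h3, h4⟩ | ⟨h3, h4⟩) | ⟨h3, h4⟩
  · exact ⟨h4, disjoint_left.1 (rest_used_disj g θ) h3⟩
  · exact ⟨h4, fun h5 => disjoint_left.1 (used_wasted_disj hg θ) h5 h3⟩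
  · exact ⟨h4, fun h5 => disjoint_left.1 (used_light_disj g θ) h5 h3⟩

theorem ne_rest_ge {G : SimpleGraph V} {g : V → V → V} (hg : IsSys G g) (θ : ℝ) (Z : Finset V) :
    (usedP g \ HP0 G Z).card + (wastedP (om g θ)).card + (lightP g θ).card ≤
      (NE G Z \ restP g θ).card + (wastedP (om g θ) ∩ HP0 G Z).card +
      (lightP g θ ∩ HP0 G Z).card := by
  have hNE : ∀ p ∈ prs V, p ∉ HP0 G Z → p ∈ NE G Z := by
    intro p hp hp'
    rw [prs_eq G Z, mem_union] at hp
    exact hp.resolve_left hp'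
  have h1 : (wastedP (om g θ)).card = (wastedP (om g θ) \ HP0 G Z).card +
      (wastedP (om g θ) ∩ HP0 G Z).card := (card_sdiff_add_card_inter _ _).symm
  have h2 : (lightP g θ).card = (lightP g θ \ HP0 G Z).card +
      (lightP g θ ∩ HP0 G Z).card := (card_sdiff_add_card_inter _ _).symm
  have h3 : (usedP g \ HP0 G Z).card + (wastedP (om g θ) \ HP0 G Z).card +
      (lightP g θ \ HP0 G Z).card ≤ (NE G Z \ restP g θ).card := by
    have d1 : Disjoint (usedP g \ HP0 G Z) (wastedP (om g θ) \ HP0 G Z) :=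
      (used_wasted_disj hg θ).mono sdiff_subset sdiff_subset
    have d2 : Disjoint ((usedP g \ HP0 G Z) ∪ (wastedP (om g θ) \ HP0 G Z))
        (lightP g θ \ HP0 G Z) := by
      rw [disjoint_union_left]
      exact ⟨(used_light_disj g θ).mono sdiff_subset sdiff_subset,
        (wasted_light_disj g θ).mono sdiff_subset sdiff_subset⟩
    rw [← card_union_of_disjoint d1, ← card_union_of_disjoint d2]
    apply card_le_card
    intro p hp
    rw [mem_union, mem_union, mem_sdiff, mem_sdiff, mem_sdiff] at hp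
    rw [mem_sdiff]
    rcases hp with (⟨h3, h4⟩ | ⟨h3, h4⟩) | ⟨h3, h4⟩
    · exact ⟨hNE p (used_sub_prs g h3) h4, fun h5 => disjoint_left.1 (rest_used_disj g θ) h5 h3⟩
    · exact ⟨hNE p (wasted_sub_prs _ h3) h4,
        fun h5 => disjoint_left.1 (rest_wasted_disj g θ) h5 h3⟩
    · exact ⟨hNE p (light_sub_prs g θ h3) h4,
        fun h5 => disjoint_left.1 (rest_light_disj g θ) h5 h3⟩
  omega

theorem ne_gs_le {G : SimpleGraph V} {g : V → V → V} (θ : ℝ) (W Z : Finset V) :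
    (NE G Z \ ((restP g θ ∩ NE G Z) \ EXC G W Z)).card ≤
      (usedP g \ HP0 G Z).card + (wastedP (om g θ)).card + (lightP g θ).card +
        (EXC G W Z).card := by
  have h1 : NE G Z \ ((restP g θ ∩ NE G Z) \ EXC G W Z) ⊆
      (((usedP g \ HP0 G Z) ∪ wastedP (om g θ)) ∪ lightP g θ) ∪ EXC G W Z := by
    intro p hp
    rw [mem_sdiff, mem_sdiff, mem_inter] at hp
    rw [mem_union, mem_union, mem_union, mem_sdiff]
    by_cases hE : p ∈ EXC G W Z
    · exact Or.inr hE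
    · left
      have h2 : p ∉ restP g θ := fun h => hp.2 ⟨⟨h, hp.1⟩, hE⟩
      have h3 : p.1 < p.2 := (mem_NE.1 hp.1).1
      rw [mem_restP] at h2
      by_cases a : p ∈ usedP g
      · left; left
        refine ⟨a, ?_⟩
        intro h4
        exact disjoint_left.1 (HP0_disj_NE G Z) h4 hp.1
      · by_cases b : p ∈ wastedP (om g θ)
        · exact Or.inl (Or.inr b)
        · right
          by_contra c
          exact h2 ⟨h3, a, b, c⟩
  exact (card_le_card h1).trans ((card_union_le _ _).trans (Nat.add_le_add_right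
    ((card_union_le _ _).trans (Nat.add_le_add_right (card_union_le _ _) _)) _))

/-- The comparison of the options with the pure hub system. -/
theorem compare {G : SimpleGraph V} {g : V → V → V} (hg : IsSys G g)
    {θ : ℝ} (hθ : 0 < θ) {W Z : Finset V} (hKZ : ∀ q ∈ NE G Z, 1 ≤ KZ G Z q.1 q.2)
    {s L l0 : ℝ} (hs1 : 1 ≤ s) (hs2 : s ≤ 1011 / 1000)
    (hF : ∀ q ∈ restP g θ, Real.log (kk (usedP g) q.1 q.2 + s * tt (om g θ) q.1 q.2) ≤ L + 2)
    (hl0 : 0 ≤ l0) (hl0L : l0 ≤ L + 2)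
    (hκ : 0 < (1 / 4 - 2 * eta) * (W.card : ℝ))
    (hlow : l0 ≤ Real.log ((1 / 4 - 2 * eta) * (W.card : ℝ))) :
    ∑ r ∈ restP g θ, Real.log (kk (usedP g) r.1 r.2 + s * tt (om g θ) r.1 r.2) -
      ∑ q ∈ NE G Z, Real.log (KZ G Z q.1 q.2) ≤
    ((HP0 G Z \ usedP g).card : ℝ) * (L + 2) + 2 * (EXC G W Z).card * (L + 2) -
      l0 * ((usedP g \ HP0 G Z).card + (wastedP (om g θ)).card + (lightP g θ).card) +
      (∑ q ∈ prs V, ((aS G g Z q.1 q.2).card : ℝ) +
        1011 / 1000 * ∑ q ∈ prs V, (tt (om g θ) q.1 q.2 : ℝ)) / ((1 / 4 - 2 * eta) * W.card) -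
      (∑ q ∈ ((restP g θ ∩ NE G Z) \ EXC G W Z).filter (fun q => ¬ (q.1 ∈ Z ∧ q.2 ∈ Z)),
        ((bS G g Z q.1 q.2).card : ℝ)) / ((1 / 4 + 2 * eta) * W.card) := by
  set F : V × V → ℝ := fun q =>
    Real.log (kk (usedP g) q.1 q.2 + s * tt (om g θ) q.1 q.2) with hFdef
  set E := EXC G W Z with hE
  set GS := (restP g θ ∩ NE G Z) \ E with hGS
  set κ1 := (1 / 4 - 2 * eta) * (W.card : ℝ) with hκ1
  set κ2 := (1 / 4 + 2 * eta) * (W.card : ℝ) with hκ2
  have e1 : eta = 1 / 10 ^ 6 := rfl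
  have hW : 0 < (W.card : ℝ) := by
    by_contra h
    have h1 : (W.card : ℝ) ≤ 0 := not_lt.1 h
    have h2 : κ1 ≤ 0 := by rw [hκ1, e1]; nlinarith
    linarith
  have hκ2pos : 0 < κ2 := by rw [hκ2, e1]; positivity
  have hL2 : 0 ≤ L + 2 := hl0.trans hl0L
  -- splitting of the rest sum
  have hsplit1 : ∑ r ∈ restP g θ, F r = ∑ r ∈ restP g θ ∩ HP0 G Z, F r +
      (∑ r ∈ (restP g θ ∩ NE G Z) ∩ E, F r + ∑ r ∈ GS, F r) := by
    have h1 : restP g θ = (restP g θ ∩ HP0 G Z) ∪ (restP g θ ∩ NE G Z) := by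
      rw [← inter_union_distrib_left, ← prs_eq, inter_eq_left.2 (rest_sub_prs g θ)]
    have h2 : Disjoint (restP g θ ∩ HP0 G Z) (restP g θ ∩ NE G Z) :=
      (HP0_disj_NE G Z).mono inter_subset_right inter_subset_right
    have h3 : ∑ r ∈ (restP g θ ∩ NE G Z) ∩ E, F r + ∑ r ∈ GS, F r =
        ∑ r ∈ restP g θ ∩ NE G Z, F r := by
      rw [hGS]
      exact sum_inter_add_sum_sdiff _ _ _
    rw [h3, ← sum_union h2, ← h1]
  have hGSsub : GS ⊆ NE G Z := sdiff_subset.trans inter_subset_right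
  have hsplit2 : ∑ q ∈ NE G Z, Real.log (KZ G Z q.1 q.2) =
      ∑ q ∈ NE G Z \ GS, Real.log (KZ G Z q.1 q.2) + ∑ q ∈ GS, Real.log (KZ G Z q.1 q.2) :=
    (sum_sdiff hGSsub).symm
  -- first part
  have p1 : ∑ r ∈ restP g θ ∩ HP0 G Z, F r ≤ ((restP g θ ∩ HP0 G Z).card : ℝ) * (L + 2) := by
    rw [← nsmul_eq_mul]
    exact sum_le_card_nsmul _ _ _ fun r hr => hF r (mem_inter.1 hr).1
  have p2 : ∑ r ∈ (restP g θ ∩ NE G Z) ∩ E, F r ≤ (E.card : ℝ) * (L + 2) := by
    have h1 : ∑ r ∈ (restP g θ ∩ NE G Z) ∩ E, F r ≤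
        (((restP g θ ∩ NE G Z) ∩ E).card : ℝ) * (L + 2) := by
      rw [← nsmul_eq_mul]
      exact sum_le_card_nsmul _ _ _ fun r hr => hF r (mem_inter.1 (mem_inter.1 hr).1).1
    refine h1.trans ?_
    apply mul_le_mul_of_nonneg_right _ hL2
    exact_mod_cast card_le_card inter_subset_right
  have hlogK : ∀ q ∈ NE G Z, 0 ≤ Real.log (KZ G Z q.1 q.2) := by
    intro q hq
    apply Real.log_nonneg
    exact_mod_cast hKZ q hq
  have hlogK' : ∀ q ∈ NE G Z, q ∉ E → κ1 ≤ (KZ G Z q.1 q.2 : ℝ) ∧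
      (¬ (q.1 ∈ Z ∧ q.2 ∈ Z) → (KZ G Z q.1 q.2 : ℝ) ≤ κ2) := by
    intro q hq hqE
    rw [hE, EXC, mem_filter, not_and_or] at hqE
    rcases hqE with h | h
    · exact absurd hq h
    · rw [not_or, not_lt, not_and] at h
      exact ⟨h.1, fun h2 => not_lt.1 (h.2 h2)⟩
  have p3 : l0 * (((NE G Z \ restP g θ).card : ℝ) - E.card) ≤
      ∑ q ∈ NE G Z \ GS, Real.log (KZ G Z q.1 q.2) := by
    have h1 : (NE G Z \ restP g θ) \ E ⊆ NE G Z \ GS := by
      intro q hq
      rw [mem_sdiff, mem_sdiff] at hq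
      rw [mem_sdiff, hGS, mem_sdiff, mem_inter]
      exact ⟨hq.1.1, fun h => hq.1.2 h.1.1⟩
    have h2 : ∑ q ∈ (NE G Z \ restP g θ) \ E, Real.log (KZ G Z q.1 q.2) ≤
        ∑ q ∈ NE G Z \ GS, Real.log (KZ G Z q.1 q.2) :=
      sum_le_sum_of_subset_of_nonneg h1 fun q hq _ => hlogK q (mem_sdiff.1 hq).1
    have h3 : (((NE G Z \ restP g θ) \ E).card : ℝ) * l0 ≤
        ∑ q ∈ (NE G Z \ restP g θ) \ E, Real.log (KZ G Z q.1 q.2) := by
      rw [← nsmul_eq_mul]
      apply card_nsmul_le_sum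
      intro q hq
      rw [mem_sdiff, mem_sdiff] at hq
      refine hlow.trans ?_
      exact Real.log_le_log hκ (hlogK' q hq.1.1 hq.2).1
    have h4 : ((NE G Z \ restP g θ).card : ℝ) - E.card ≤
        (((NE G Z \ restP g θ) \ E).card : ℝ) := by
      have := le_card_sdiff E (NE G Z \ restP g θ)
      have h5 : (NE G Z \ restP g θ).card ≤ ((NE G Z \ restP g θ) \ E).card + E.card := by omega
      have h6 : ((NE G Z \ restP g θ).card : ℝ) ≤
        (((NE G Z \ restP g θ) \ E).card : ℝ) + E.card := by exact_mod_cast h5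
      linarith
    have h5 := mul_le_mul_of_nonneg_left h4 hl0
    linarith
  -- main part
  have p4 : ∑ q ∈ GS, F q - ∑ q ∈ GS, Real.log (KZ G Z q.1 q.2) ≤
      (∑ q ∈ GS, (((aS G g Z q.1 q.2).card : ℝ) + 1011 / 1000 * (tt (om g θ) q.1 q.2 : ℝ))) / κ1 -
      (∑ q ∈ GS.filter (fun q => ¬ (q.1 ∈ Z ∧ q.2 ∈ Z)), ((bS G g Z q.1 q.2).card : ℝ)) / κ2 := by
    rw [← sum_sub_distrib, sum_div, sum_div, sum_filter, ← sum_sub_distrib]
    apply sum_le_sum
    intro q hq
    have hqr : q ∈ restP g θ := by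
      rw [hGS, mem_sdiff, mem_inter] at hq
      exact hq.1.1
    have hqN := hGSsub hq
    have hqE : q ∉ E := by
      rw [hGS, mem_sdiff] at hq
      exact hq.2
    obtain ⟨hK1, hK2⟩ := hlogK' q hqN hqE
    set K : ℝ := (KZ G Z q.1 q.2 : ℝ) with hKdef
    have hK0 : 0 < K := lt_of_lt_of_le hκ hK1
    set a : ℝ := ((aS G g Z q.1 q.2).card : ℝ) with ha
    set b : ℝ := ((bS G g Z q.1 q.2).card : ℝ) with hb
    set t : ℝ := (tt (om g θ) q.1 q.2 : ℝ) with ht
    have ha0 : 0 ≤ a := Nat.cast_nonneg _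
    have hb0 : 0 ≤ b := Nat.cast_nonneg _
    have ht0 : 0 ≤ t := Nat.cast_nonneg _
    have hk : (kk (usedP g) q.1 q.2 : ℝ) = K + a - b := kk_eq hg Z q.1 q.2
    have hpos : 0 < (kk (usedP g) q.1 q.2 : ℝ) + s * t := by
      have h1 := one_le_kk_add_tt hg hθ hqr
      rw [one_mul] at h1
      nlinarith
    have h1 : F q - Real.log K ≤ ((kk (usedP g) q.1 q.2 : ℝ) + s * t) / K - 1 := by
      have h2 : F q - Real.log K = Real.log (((kk (usedP g) q.1 q.2 : ℝ) + s * t) / K) := by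
        rw [Real.log_div hpos.ne' hK0.ne']
      rw [h2]
      exact Real.log_le_sub_one_of_pos (by positivity)
    have h2 : ((kk (usedP g) q.1 q.2 : ℝ) + s * t) / K - 1 = (a + s * t) / K - b / K := by
      rw [hk]
      field_simp
      ring
    have h3 : (a + s * t) / K ≤ (a + 1011 / 1000 * t) / κ1 := by
      apply div_le_div₀ (by positivity) _ hκ hK1
      nlinarith
    have h4 : (if ¬ (q.1 ∈ Z ∧ q.2 ∈ Z) then b / κ2 else 0) ≤ b / K := by
      by_cases h5 : (q.1 ∈ Z ∧ q.2 ∈ Z)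
      · rw [if_neg (not_not.2 h5)]
        positivity
      · rw [if_pos h5]
        exact div_le_div_of_nonneg_left hb0 hK0 (hK2 h5)
    have h5 : (if ¬ (q.1 ∈ Z ∧ q.2 ∈ Z) then b else 0) / κ2 =
        (if ¬ (q.1 ∈ Z ∧ q.2 ∈ Z) then b / κ2 else 0) := by
      split_ifs <;> simp
    linarith
  have p5 : ∑ q ∈ GS, (((aS G g Z q.1 q.2).card : ℝ) + 1011 / 1000 * (tt (om g θ) q.1 q.2 : ℝ)) ≤
      ∑ q ∈ prs V, ((aS G g Z q.1 q.2).card : ℝ) +
        1011 / 1000 * ∑ q ∈ prs V, (tt (om g θ) q.1 q.2 : ℝ) := by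
    rw [mul_sum, ← sum_add_distrib]
    apply sum_le_sum_of_subset_of_nonneg
    · intro q hq
      exact (prs_eq G Z) ▸ (mem_union_right _ (hGSsub hq))
    · intro q _ _
      positivity
  have p6 : (∑ q ∈ GS, (((aS G g Z q.1 q.2).card : ℝ) +
      1011 / 1000 * (tt (om g θ) q.1 q.2 : ℝ))) / κ1 ≤
      (∑ q ∈ prs V, ((aS G g Z q.1 q.2).card : ℝ) +
        1011 / 1000 * ∑ q ∈ prs V, (tt (om g θ) q.1 q.2 : ℝ)) / κ1 := by
    gcongr
  have n1 := abc_le hg θ Z
  have n2 := ne_rest_ge hg θ Z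
  have n1' : ((restP g θ ∩ HP0 G Z).card : ℝ) + (wastedP (om g θ) ∩ HP0 G Z).card +
      (lightP g θ ∩ HP0 G Z).card ≤ (HP0 G Z \ usedP g).card := by exact_mod_cast n1
  have n2' : ((usedP g \ HP0 G Z).card : ℝ) + (wastedP (om g θ)).card + (lightP g θ).card ≤
      (NE G Z \ restP g θ).card + (wastedP (om g θ) ∩ HP0 G Z).card +
      (lightP g θ ∩ HP0 G Z).card := by exact_mod_cast n2
  set a : ℝ := ((restP g θ ∩ HP0 G Z).card : ℝ)
  set b : ℝ := ((wastedP (om g θ) ∩ HP0 G Z).card : ℝ)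
  set c : ℝ := ((lightP g θ ∩ HP0 G Z).card : ℝ)
  set m : ℝ := ((HP0 G Z \ usedP g).card : ℝ)
  set x : ℝ := (E.card : ℝ)
  have hb0 : 0 ≤ b := Nat.cast_nonneg _
  have hc0 : 0 ≤ c := Nat.cast_nonneg _
  have hx0 : 0 ≤ x := Nat.cast_nonneg _
  have q1 : (a + b + c) * (L + 2) ≤ m * (L + 2) := mul_le_mul_of_nonneg_right n1' hL2
  have q2 : l0 * (((usedP g \ HP0 G Z).card : ℝ) + (wastedP (om g θ)).card + (lightP g θ).card) ≤
      l0 * ((NE G Z \ restP g θ).card + b + c) := mul_le_mul_of_nonneg_left n2' hl0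
  have q3 : l0 * (b + c + x) ≤ (L + 2) * (b + c + x) :=
    mul_le_mul_of_nonneg_right hl0L (by positivity)
  rw [hsplit1, hsplit2]
  linarith

end

end CEB
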