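import Pool.Agent.Work.MP_ceb7a8_co.StructOf
import Pool.Agent.Work.MP_ceb7a8_co.First
import Pool.Agent.Work.MP_ceb7a8_co.Random

/-!
The structure theorem from the first order theorem and the second order inequality (helper25).
-/

namespace CEB

namespace TheoremS

open Finset

noncomputable section

open scoped Classical

variable {V : Type*} [Fintype V] [LinearOrder V]

/-- The second order inequality for one system. -/
def Sec (G : SimpleGraph V) (R : Finset V) (g : V → V → V) : Prop :=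
  Mfun kap (Real.exp (1 / 100)) g +
      cost kap ((prs V).filter fun p => InE G (hub g ∪ R) p.1 p.2) g +
      kap / 8 * LL V * ((symmDiff (usedP g)
        ((prs V).filter fun p => InE G (hub g ∪ R) p.1 p.2)).card +
        Kw (om g (th V kap)) + (lightP g (th V kap)).card) ≤
    Real.log (NZ G (hub g ∪ R)) + nn V ^ (2 - kap / 8)

/-- the condition of the first order theorem -/
def Fst (g : V → V → V) : Prop :=
  97 / 100 * hh V ≤ ((hub g).card : ℝ) ∧ ((hub g).card : ℝ) ≤ 115 / 100 * hh V ∧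
    ((usedP g).card : ℝ) + ((wastedP (om g (th V kap))).card : ℝ) ≤ nn V * hh V

theorem nz_pos {G : SimpleGraph V} {Z R : Finset V} (hRZ : R ⊆ Z)
    (hR : ∀ u v, u ≠ v → ∃ z ∈ R, G.Adj u z ∧ G.Adj v z) : 0 < NZ G Z := by
  unfold NZ
  refine prod_pos fun q hq => ?_
  rw [mem_NE] at hq
  obtain ⟨z, hz, h1, h2⟩ := hR q.1 q.2 hq.1.ne
  unfold KZ
  rw [card_pos]
  exact ⟨z, mem_KS.2 ⟨⟨h1, Or.inr (hRZ hz)⟩, ⟨h2.symm, Or.inl (hRZ hz)⟩⟩⟩

theorem master_card {G : SimpleGraph V} {s Φ : ℝ} (hn : Big (Fintype.card V)) (hs : 1 ≤ s)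
    (HP0 : Finset (V × V)) (hHP0 : HP0 ⊆ prs V) (A : Finset (V → V → V))
    (hA : ∀ g ∈ A, IsSys G g) (hΦ : ∀ g ∈ A, Mfun kap s g + cost kap HP0 g ≤ Φ) :
    ∑ g ∈ A, s ^ eta2 g (th V kap) ≤ Real.exp (Φ + 12 * nn V ^ (2 - kap / 8)) := by
  obtain ⟨hL, he, h0, h30⟩ := big_facts hn
  refine master (by unfold kap; norm_num) (by unfold kap; norm_num) hs ?_ HP0 hHP0 A hA hΦ
  have h1 : nn V ^ (1 - kap / 2) = Real.exp ((1 - kap / 2) * LL V) := by
    rw [Real.rpow_def_of_pos h0, mul_comm]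
    rfl
  rw [h1]
  have h2 := Real.add_one_le_exp ((1 - kap / 2) * LL V)
  have h3 : (1 / 2 : ℝ) * LL V ≤ (1 - kap / 2) * LL V := by
    refine mul_le_mul_of_nonneg_right ?_ (le_trans (by positivity) hL)
    unfold kap
    norm_num
  have h4 : (100 : ℝ) ≤ LL V := le_trans (by norm_num) hL
  linarith

/-- numerical facts -/
theorem num (hn : Big (Fintype.card V)) :
    nn V ≤ nn V ^ (2 - kap / 8) ∧
    10 ^ 60 * nn V ^ (2 - kap / 8) ≤ nn V ^ (2 - kap / 10) ∧
    10 ^ 60 * nn V ^ (2 - kap / 8) ≤ nn V ^ 2 := by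
  obtain ⟨hL, he, h0, h30⟩ := big_facts hn
  have hL0 : 0 < LL V := lt_of_lt_of_le (by positivity) hL
  have hL1 : (1 : ℝ) ≤ LL V := le_trans (by norm_num) hL
  have hpow : ∀ a : ℝ, nn V ^ a = Real.exp (a * LL V) := by
    intro a
    rw [Real.rpow_def_of_pos h0, mul_comm]
    rfl
  have hbig : ∀ c : ℝ, 1 / 10 ^ 10 ≤ c → 10 ^ 60 ≤ nn V ^ c := by
    intro c hc
    rw [hpow]
    refine le_trans ?_ (exp_big hc hL)
    have : (1 : ℝ) ≤ LL V ^ 3 := one_le_pow₀ hL1
    nlinarith
  refine ⟨?_, ?_, ?_⟩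
  · conv_lhs => rw [← Real.rpow_one (nn V)]
    rw [hpow, hpow]
    refine Real.exp_le_exp.2 (mul_le_mul_of_nonneg_right ?_ hL0.le)
    unfold kap
    norm_num
  · have h1 : nn V ^ (2 - kap / 10) = nn V ^ (kap / 40) * nn V ^ (2 - kap / 8) := by
      rw [← Real.rpow_add h0]
      congr 1
      ring
    rw [h1]
    exact mul_le_mul_of_nonneg_right (hbig _ (by unfold kap; norm_num))
      (Real.rpow_nonneg h0.le _)
  · have h1 : nn V ^ 2 = nn V ^ (kap / 8) * nn V ^ (2 - kap / 8) := by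
      rw [← Real.rpow_add h0, ← Real.rpow_natCast]
      congr 1
      push_cast
      ring
    rw [h1]
    exact mul_le_mul_of_nonneg_right (hbig _ (by unfold kap; norm_num))
      (Real.rpow_nonneg h0.le _)

/-- first order exceptional systems -/
theorem card_A0 {G : SimpleGraph V} (hG : QR G) (hn : Big (Fintype.card V)) :
    (((PS G).filter fun g => ¬ Fst g).card : ℝ) ≤ Real.exp (-(4 * nn V)) * (PS G).card := by
  obtain ⟨hn1, -, hn3⟩ := num hn
  obtain ⟨hL, he, h0, h30⟩ := big_facts hn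
  have hlow := lower_bound hG hn
  set Φ0 : ℝ := nn V ^ 2 / 2 * (LL V - Real.log (LL V) - Real.log 4 - 1 - 10 * eta) with hΦ0
  have h1 := master_card (G := G) (s := 1) (Φ := Φ0 - eta * nn V ^ 2 / 4) hn le_rfl ∅
    (empty_subset _) ((PS G).filter fun g => ¬ Fst g)
    (fun g hg => (mem_filter.1 (mem_filter.1 hg).1).2)
    (fun g hg => by
      obtain ⟨h1, h2⟩ := mem_filter.1 hg
      have h3 : IsSys G g := (mem_filter.1 h1).2
      rcases first_order hG hn h3 with h4 | h4
      · exact absurd h4 h2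
      · exact h4)
  simp only [one_pow, sum_const, nsmul_eq_mul, mul_one] at h1
  refine h1.trans ?_
  have h2 : Real.exp (Φ0 - eta * nn V ^ 2 / 4 + 12 * nn V ^ (2 - kap / 8)) ≤
      Real.exp (-(4 * nn V)) * Real.exp Φ0 := by
    rw [← Real.exp_add]
    refine Real.exp_le_exp.2 ?_
    unfold eta
    nlinarith
  exact h2.trans (mul_le_mul_of_nonneg_left hlow (Real.exp_pos _).le)

theorem s_one : (1 : ℝ) ≤ Real.exp (1 / 100) := Real.one_le_exp (by norm_num)

/-- systems with hub set W and a large error set -/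
theorem card_A1 {G : SimpleGraph V} (hn : Big (Fintype.card V)) (R : Finset V)
    (hR : ∀ u v, u ≠ v → ∃ z ∈ R, G.Adj u z ∧ G.Adj v z)
    (hS : ∀ g, IsSys G g → Fst g → Sec G R g) (W : Finset V) :
    (((PS G).filter fun g => Fst g ∧ hub g = W ∧ nn V ^ (2 - kap / 10) <
      (symmDiff (usedP g) ((prs V).filter fun p => InE G (hub g ∪ R) p.1 p.2)).card +
        Kw (om g (th V kap)) + (lightP g (th V kap)).card).card : ℝ) ≤
      Real.exp (-(4 * nn V)) * (PS G).card := by
  obtain ⟨hn1, hn2, hn3⟩ := num hn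
  obtain ⟨hL, he, h0, h30⟩ := big_facts hn
  set A := (PS G).filter fun g => Fst g ∧ hub g = W ∧ nn V ^ (2 - kap / 10) <
      (symmDiff (usedP g) ((prs V).filter fun p => InE G (hub g ∪ R) p.1 p.2)).card +
        Kw (om g (th V kap)) + (lightP g (th V kap)).card with hA
  have hsys : ∀ g ∈ A, IsSys G g := fun g hg => (mem_filter.1 (mem_filter.1 hg).1).2
  have hNZ := nz_pos (Z := W ∪ R) (subset_union_right) hR
  have hNZ' : (0 : ℝ) < NZ G (W ∪ R) := by exact_mod_cast hNZ
  have hT0 : 0 ≤ nn V ^ (2 - kap / 8) := Real.rpow_nonneg h0.le _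
  have h1 := master_card (G := G) (s := Real.exp (1 / 100))
    (Φ := Real.log (NZ G (W ∪ R)) - 10 ^ 60 * nn V ^ (2 - kap / 8) + nn V ^ (2 - kap / 8)) hn
    s_one ((prs V).filter fun p => InE G (W ∪ R) p.1 p.2) (filter_subset _ _) A hsys
    (fun g hg => by
      obtain ⟨-, hf, hw, hT⟩ := mem_filter.1 hg
      have h2 := hS g (hsys g hg) hf
      unfold Sec at h2
      rw [hw] at h2 hT
      have h3 : 1 ≤ kap / 8 * LL V := by
        have : (10 : ℝ) ^ 8 ≤ LL V := le_trans (by norm_num) hL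
        unfold kap
        linarith
      have h4 : (0 : ℝ) ≤ (symmDiff (usedP g)
        ((prs V).filter fun p => InE G (W ∪ R) p.1 p.2)).card +
        Kw (om g (th V kap)) + (lightP g (th V kap)).card := by positivity
      have h5 := mul_le_mul_of_nonneg_right h3 h4
      linarith)
  have h2 : (A.card : ℝ) ≤ ∑ g ∈ A, Real.exp (1 / 100) ^ eta2 g (th V kap) := by
    have : (A.card : ℝ) = ∑ g ∈ A, (1 : ℝ) := by simp
    rw [this]
    exact sum_le_sum fun g _ => one_le_pow₀ s_one
  refine h2.trans (h1.trans ?_)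
  have h3 : Real.log (NZ G (W ∪ R)) - 10 ^ 60 * nn V ^ (2 - kap / 8) + nn V ^ (2 - kap / 8) +
      12 * nn V ^ (2 - kap / 8) ≤ -(4 * nn V) + Real.log (NZ G (W ∪ R)) := by
    nlinarith
  refine (Real.exp_le_exp.2 h3).trans ?_
  rw [Real.exp_add, Real.exp_log hNZ']
  refine mul_le_mul_of_nonneg_left ?_ (Real.exp_pos _).le
  exact_mod_cast nz_le G (W ∪ R)

/-- systems with hub set W and many pairs of heavy type -/
theorem card_A2 {G : SimpleGraph V} (hn : Big (Fintype.card V)) (R : Finset V)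
    (hR : ∀ u v, u ≠ v → ∃ z ∈ R, G.Adj u z ∧ G.Adj v z)
    (hS : ∀ g, IsSys G g → Fst g → Sec G R g) (W : Finset V) :
    (((PS G).filter fun g => Fst g ∧ hub g = W ∧ nn V ^ (2 - kap / 10) <
      (eta2 g (th V kap) : ℝ)).card : ℝ) ≤
      Real.exp (-(4 * nn V)) * (PS G).card := by
  obtain ⟨hn1, hn2, hn3⟩ := num hn
  obtain ⟨hL, he, h0, h30⟩ := big_facts hn
  set A := (PS G).filter fun g => Fst g ∧ hub g = W ∧ nn V ^ (2 - kap / 10) <
      (eta2 g (th V kap) : ℝ) with hA
  have hsys : ∀ g ∈ A, IsSys G g := fun g hg => (mem_filter.1 (mem_filter.1 hg).1).2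
  have hNZ := nz_pos (Z := W ∪ R) (subset_union_right) hR
  have hNZ' : (0 : ℝ) < NZ G (W ∪ R) := by exact_mod_cast hNZ
  have hT0 : 0 ≤ nn V ^ (2 - kap / 8) := Real.rpow_nonneg h0.le _
  have h1 := master_card (G := G) (s := Real.exp (1 / 100))
    (Φ := Real.log (NZ G (W ∪ R)) + nn V ^ (2 - kap / 8)) hn
    s_one ((prs V).filter fun p => InE G (W ∪ R) p.1 p.2) (filter_subset _ _) A hsys
    (fun g hg => by
      obtain ⟨-, hf, hw, hT⟩ := mem_filter.1 hg
      have h2 := hS g (hsys g hg) hf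
      unfold Sec at h2
      rw [hw] at h2
      have h3 : 0 ≤ kap / 8 * LL V := by
        have : (0 : ℝ) ≤ LL V := le_trans (by norm_num) hL
        unfold kap
        linarith
      have h4 : (0 : ℝ) ≤ (symmDiff (usedP g)
        ((prs V).filter fun p => InE G (W ∪ R) p.1 p.2)).card +
        Kw (om g (th V kap)) + (lightP g (th V kap)).card := by positivity
      have h5 := mul_nonneg h3 h4
      linarith)
  have h2 : (A.card : ℝ) * Real.exp (nn V ^ (2 - kap / 10) / 100) ≤
      ∑ g ∈ A, Real.exp (1 / 100) ^ eta2 g (th V kap) := by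
    rw [← nsmul_eq_mul]
    refine card_nsmul_le_sum _ _ _ fun g hg => ?_
    obtain ⟨-, hf, hw, hT⟩ := mem_filter.1 hg
    rw [← Real.exp_nat_mul]
    refine Real.exp_le_exp.2 ?_
    linarith
  have h4 : (A.card : ℝ) ≤ Real.exp (Real.log (NZ G (W ∪ R)) + nn V ^ (2 - kap / 8) +
      12 * nn V ^ (2 - kap / 8) - nn V ^ (2 - kap / 10) / 100) := by
    rw [Real.exp_sub, le_div_iff₀ (Real.exp_pos _)]
    exact h2.trans h1
  refine h4.trans ?_
  have h3 : Real.log (NZ G (W ∪ R)) + nn V ^ (2 - kap / 8) +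
      12 * nn V ^ (2 - kap / 8) - nn V ^ (2 - kap / 10) / 100 ≤
      -(4 * nn V) + Real.log (NZ G (W ∪ R)) := by
    nlinarith
  refine (Real.exp_le_exp.2 h3).trans ?_
  rw [Real.exp_add, Real.exp_log hNZ']
  refine mul_le_mul_of_nonneg_left ?_ (Real.exp_pos _).le
  exact_mod_cast nz_le G (W ∪ R)

/-- the structure theorem from the second order inequality -/
theorem main {G : SimpleGraph V} (hG : QR G) (hn : Big (Fintype.card V)) (R : Finset V)
    (hRc : (R.card : ℝ) ≤ 20 * LL V)
    (hR : ∀ u v, u ≠ v → ∃ z ∈ R, G.Adj u z ∧ G.Adj v z)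
    (hS : ∀ g, IsSys G g → Fst g → Sec G R g) :
    (((PS G).filter fun g => ¬ Struct G g).card : ℝ) ≤ Real.exp (- nn V) * (PS G).card := by
  obtain ⟨hL, he, h0, h30⟩ := big_facts hn
  set A0 := (PS G).filter fun g => ¬ Fst g with hA0
  set A1 : Finset V → Finset (V → V → V) := fun W =>
    (PS G).filter fun g => Fst g ∧ hub g = W ∧ nn V ^ (2 - kap / 10) <
      (symmDiff (usedP g) ((prs V).filter fun p => InE G (hub g ∪ R) p.1 p.2)).card +
        Kw (om g (th V kap)) + (lightP g (th V kap)).card with hA1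
  set A2 : Finset V → Finset (V → V → V) := fun W =>
    (PS G).filter fun g => Fst g ∧ hub g = W ∧ nn V ^ (2 - kap / 10) <
      (eta2 g (th V kap) : ℝ) with hA2
  have hsub : ((PS G).filter fun g => ¬ Struct G g) ⊆
      A0 ∪ (univ : Finset (Finset V)).biUnion fun W => A1 W ∪ A2 W := by
    intro g hg
    obtain ⟨hgP, hns⟩ := mem_filter.1 hg
    have hsys : IsSys G g := (mem_filter.1 hgP).2
    rw [mem_union, mem_biUnion]
    by_cases hf : Fst g
    · right
      refine ⟨hub g, mem_univ _, ?_⟩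
      rw [mem_union, hA1, hA2, mem_filter, mem_filter]
      by_contra hcon
      rw [not_or] at hcon
      obtain ⟨c1, c2⟩ := hcon
      have d1 : ((symmDiff (usedP g)
          ((prs V).filter fun p => InE G (hub g ∪ R) p.1 p.2)).card +
          Kw (om g (th V kap)) + (lightP g (th V kap)).card : ℝ) ≤ nn V ^ (2 - kap / 10) := by
        by_contra h
        exact c1 ⟨hgP, hf, rfl, not_le.1 h⟩
      have d2 : (eta2 g (th V kap) : ℝ) ≤ nn V ^ (2 - kap / 10) := by
        by_contra h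
        exact c2 ⟨hgP, hf, rfl, not_le.1 h⟩
      have e1 : (0 : ℝ) ≤ ((symmDiff (usedP g)
          ((prs V).filter fun p => InE G (hub g ∪ R) p.1 p.2)).card : ℝ) := Nat.cast_nonneg _
      have e2 : (0 : ℝ) ≤ (Kw (om g (th V kap)) : ℝ) := Nat.cast_nonneg _
      have e3 : (0 : ℝ) ≤ ((lightP g (th V kap)).card : ℝ) := Nat.cast_nonneg _
      exact hns (struct_of hG hn hsys R hRc hf.1 hf.2.1 (by linarith) (by linarith)
        (by linarith) d2)
    · left
      exact mem_filter.2 ⟨hgP, hf⟩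
  have hcard : (((PS G).filter fun g => ¬ Struct G g).card : ℝ) ≤
      A0.card + ∑ W : Finset V, (((A1 W).card : ℝ) + (A2 W).card) := by
    have h1 := (card_le_card hsub).trans ((card_union_le _ _).trans
      (Nat.add_le_add_left (card_biUnion_le.trans
        (sum_le_sum fun W _ => card_union_le (A1 W) (A2 W))) _))
    exact_mod_cast h1
  have hA0c := card_A0 hG hn
  have hsum : ∑ W : Finset V, (((A1 W).card : ℝ) + (A2 W).card) ≤
      Real.exp (nn V) * (2 * (Real.exp (-(4 * nn V)) * (PS G).card)) := by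
    have h1 : ∀ W ∈ (univ : Finset (Finset V)), (((A1 W).card : ℝ) + (A2 W).card) ≤
        2 * (Real.exp (-(4 * nn V)) * (PS G).card) := by
      intro W _
      have h2 := card_A1 hn R hR hS W
      have h3 := card_A2 hn R hR hS W
      rw [two_mul]
      exact add_le_add h2 h3
    have h2 := sum_le_card_nsmul _ _ _ h1
    rw [nsmul_eq_mul] at h2
    refine h2.trans (mul_le_mul_of_nonneg_right ?_ (by positivity))
    rw [card_univ, Fintype.card_finset]
    push_cast
    have h4 : (2 : ℝ) ≤ Real.exp 1 := by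
      have := Real.add_one_le_exp (1 : ℝ)
      linarith
    calc (2 : ℝ) ^ Fintype.card V ≤ Real.exp 1 ^ Fintype.card V :=
          pow_le_pow_left₀ (by norm_num) h4 _
      _ = Real.exp (nn V) := by
          rw [← Real.exp_nat_mul, mul_one]
          rfl
  have hP : (0 : ℝ) ≤ (PS G).card := Nat.cast_nonneg _
  have h1 : Real.exp (nn V) * (2 * (Real.exp (-(4 * nn V)) * (PS G).card)) =
      2 * Real.exp (-(3 * nn V)) * (PS G).card := by
    have : Real.exp (nn V) * Real.exp (-(4 * nn V)) = Real.exp (-(3 * nn V)) := by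
      rw [← Real.exp_add]
      congr 1
      ring
    rw [← this]
    ring
  rw [h1] at hsum
  have h2 : Real.exp (-(4 * nn V)) ≤ Real.exp (-(3 * nn V)) := by
    refine Real.exp_le_exp.2 ?_
    linarith
  have h3 : 3 * Real.exp (-(3 * nn V)) ≤ Real.exp (- nn V) := by
    have h4 : Real.exp (- nn V) = Real.exp (2 * nn V) * Real.exp (-(3 * nn V)) := by
      rw [← Real.exp_add]
      congr 1
      ring
    rw [h4]
    refine mul_le_mul_of_nonneg_right ?_ (Real.exp_pos _).le
    have h5 := Real.add_one_le_exp (2 * nn V)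
    have h6 : (1 : ℝ) ≤ nn V := by
      have : (1 : ℝ) ≤ LL V := le_trans (by norm_num) hL
      nlinarith
    linarith
  have h4 : (A0.card : ℝ) + 2 * Real.exp (-(3 * nn V)) * (PS G).card ≤
      3 * Real.exp (-(3 * nn V)) * (PS G).card := by
    have := mul_le_mul_of_nonneg_right h2 hP
    linarith
  have h5 := mul_le_mul_of_nonneg_right h3 hP
  linarith

end

end TheoremS

end CEB
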