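import Mathlib
import Pool.Agent.Work.MP_ceb7a8_co.SecE
import Pool.Agent.Work.MP_ceb7a8_co.TheoremS

/-!
Second order: the pointwise inequality for one system, and the structure theorem.
-/

open Finset

namespace CEB

noncomputable section

open scoped Classical

variable {V : Type*} [Fintype V] [LinearOrder V]

theorem log_NZ {G : SimpleGraph V} {Z : Finset V} (hKZ : ∀ q ∈ NE G Z, 1 ≤ KZ G Z q.1 q.2) :
    Real.log (NZ G Z) = ∑ q ∈ NE G Z, Real.log (KZ G Z q.1 q.2) := by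
  unfold NZ
  push_cast
  apply Real.log_prod
  intro q hq
  have h1 := hKZ q hq
  have h2 : KZ G Z q.1 q.2 ≠ 0 := by omega
  exact_mod_cast h2

omit [Fintype V] in
theorem card_symmDiff_eq (A B : Finset (V × V)) :
    ((symmDiff A B).card : ℝ) = ((B \ A).card : ℝ) + ((A \ B).card : ℝ) := by
  have h1 : (symmDiff A B).card = (B \ A).card + (A \ B).card := by
    rw [symmDiff_def, sup_eq_union, card_union_of_disjoint disjoint_sdiff_sdiff, add_comm]
  exact_mod_cast h1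

/-- The set of vertices with many used edges off Z or many heavy labels is small. -/
theorem y_sq_le {n L f Ku K y : ℝ} (hL : (10 : ℝ) ^ 100 ≤ L) (hn : 0 < n) (hf : 0 ≤ f)
    (hKu : 0 ≤ Ku) (hy : 0 ≤ y) (hK : K ≤ 2 * Ku) (h1 : y * (eta * n) ≤ 2 * f + K)
    (h2 : f + Ku ≤ n * (n / L)) : y ^ 2 ≤ (f + Ku) / 10 ^ 3 := by
  have hL0 : 0 < L := lt_of_lt_of_le (by positivity) hL
  have e1 : eta = 1 / 10 ^ 6 := rfl
  have h3 : y * n ≤ 2 * 10 ^ 6 * (f + Ku) := by
    rw [e1] at h1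
    have : y * (1 / 10 ^ 6 * n) = y * n / 10 ^ 6 := by ring
    rw [this, div_le_iff₀ (by positivity)] at h1
    nlinarith
  have h4 : (y * n) ^ 2 ≤ 4 * 10 ^ 12 * (f + Ku) * (n * (n / L)) := by
    have h5 : (y * n) ^ 2 ≤ (2 * 10 ^ 6 * (f + Ku)) ^ 2 :=
      pow_le_pow_left₀ (by positivity) h3 2
    have h6 : (2 * 10 ^ 6 * (f + Ku)) ^ 2 = 4 * 10 ^ 12 * (f + Ku) * (f + Ku) := by ring
    rw [h6] at h5
    refine h5.trans ?_
    exact mul_le_mul_of_nonneg_left h2 (by positivity)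
  have h5 : y ^ 2 * n ^ 2 ≤ (4 * 10 ^ 12 * (f + Ku) / L) * n ^ 2 := by
    have e3 : (4 * 10 ^ 12 * (f + Ku) / L) * n ^ 2 = 4 * 10 ^ 12 * (f + Ku) * (n * (n / L)) := by
      ring
    rw [e3]
    calc y ^ 2 * n ^ 2 = (y * n) ^ 2 := by ring
      _ ≤ _ := h4
  have h6 : y ^ 2 ≤ 4 * 10 ^ 12 * (f + Ku) / L := le_of_mul_le_mul_right h5 (by positivity)
  refine h6.trans ?_
  rw [div_le_div_iff₀ hL0 (by positivity)]
  have h7 : (4 * 10 ^ 15 : ℝ) ≤ L := le_trans (by norm_num) hL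
  have h8 : 0 ≤ f + Ku := by positivity
  have h9 := mul_le_mul_of_nonneg_left h7 h8
  linarith

/-- THE SECOND ORDER INEQUALITY. -/
theorem second_point {G : SimpleGraph V} {g : V → V → V} (hG : QR G)
    (hn : Big (Fintype.card V)) (hg : IsSys G g) {R : Finset V}
    (hRc : (R.card : ℝ) ≤ 20 * LL V)
    (hR : ∀ u v, u ≠ v → ∃ z ∈ R, G.Adj u z ∧ G.Adj v z)
    (hm1 : 97 / 100 * hh V ≤ ((hub g).card : ℝ)) (hm2 : ((hub g).card : ℝ) ≤ 115 / 100 * hh V)
    (hm3 : ((usedP g).card : ℝ) + ((wastedP (om g (th V kap))).card : ℝ) ≤ nn V * hh V)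
    {s : ℝ} (hs1 : 1 ≤ s) (hs2 : s ≤ 1011 / 1000) :
    Mfun kap s g + cost kap (HP0 G (hub g ∪ R)) g +
      kap / 8 * LL V * ((symmDiff (usedP g) (HP0 G (hub g ∪ R))).card +
        Kw (om g (th V kap)) + (lightP g (th V kap)).card) ≤
    Real.log (NZ G (hub g ∪ R)) + 10 ^ 17 * nn V * LL V ^ 2 := by
  obtain ⟨hL, he, h0, h30⟩ := big_facts hn
  have hL0 : 0 < LL V := lt_of_lt_of_le (by positivity) hL
  have hlog := log_large hL
  have e1 : eta = 1 / 10 ^ 6 := rfl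
  set W := hub g with hW
  set Z := W ∪ R with hZ
  set θ := th V kap with hθdef
  have hθ : 0 < θ := Real.rpow_pos_of_pos h0 _
  set n := nn V with hndef
  set L := LL V with hLdef
  have hhdef : hh V = n / L := rfl
  rw [hhdef] at hm1 hm2 hm3
  have hnL : 10 ^ 30 * L ≤ n / L := by
    rw [le_div_iff₀ hL0]
    calc 10 ^ 30 * L * L = 10 ^ 30 * L ^ 2 := by ring
      _ ≤ n := h30
  have hhpos : 0 < n / L := by positivity
  set w : ℝ := (W.card : ℝ) with hw
  have hwpos : 0 < w := lt_of_lt_of_le (by positivity) hm1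
  have hWne : W.Nonempty := by
    rw [← card_pos]
    have h1 : (0 : ℝ) < (W.card : ℝ) := hwpos
    exact_mod_cast h1
  have hWZ : W ⊆ Z := subset_union_left
  have hRZ : R ⊆ Z := subset_union_right
  have hnLn : n / L ≤ n / 10 ^ 100 := div_le_div_of_nonneg_left h0.le (by positivity) hL
  have hRw : (R.card : ℝ) ≤ eta * w := by
    rw [e1]
    have h1 : (20 : ℝ) * L ≤ 1 / 10 ^ 6 * (97 / 100 * (10 ^ 30 * L)) := by
      have : (0 : ℝ) ≤ L := hL0.le
      nlinarith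
    have h2 : 1 / 10 ^ 6 * (97 / 100 * (10 ^ 30 * L)) ≤ 1 / 10 ^ 6 * (97 / 100 * (n / L)) := by
      gcongr
    have h3 : 1 / 10 ^ 6 * (97 / 100 * (n / L)) ≤ 1 / 10 ^ 6 * w := by
      gcongr
    linarith
  have hZc : (Z.card : ℝ) ≤ w + R.card := by
    have := card_union_le W R
    rw [hw, hZ]
    exact_mod_cast this
  have hZc2 : (Z.card : ℝ) ≤ (1 + eta) * W.card := by
    rw [← hw]
    linarith
  have hWn : (W.card : ℝ) ≤ n / 4 := by
    rw [← hw]
    have : (10 : ℝ) ^ 100 ≥ 10 := by norm_num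
    have h1 : n / 10 ^ 100 ≤ n / 10 := div_le_div_of_nonneg_left h0.le (by positivity) this
    linarith
  have hZn : ((W ∪ R).card : ℝ) + 1 ≤ n / 1000 := by
    have h1 : (1 : ℝ) ≤ eta * w := by
      rw [e1]
      have h2 : (1 : ℝ) ≤ L := le_trans (by norm_num) hL
      have h3 : 10 ^ 30 * 1 ≤ 10 ^ 30 * L := by gcongr
      linarith
    have h2 : (10 : ℝ) ^ 100 ≥ 10 ^ 10 := by norm_num
    have h3 : n / 10 ^ 100 ≤ n / 10 ^ 10 := div_le_div_of_nonneg_left h0.le (by positivity) h2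
    rw [e1] at h1 hRw
    rw [← hZ]
    linarith
  -- the quantities
  set m : ℝ := ((HP0 G Z \ usedP g).card : ℝ) with hm
  set f : ℝ := ((usedP g \ HP0 G Z).card : ℝ) with hf
  set Ku : ℝ := ((wastedP (om g θ)).card : ℝ) with hKu
  set K : ℝ := (Kw (om g θ) : ℝ) with hK
  set lam : ℝ := ((lightP g θ).card : ℝ) with hlam
  set X : ℝ := ((EXC G W Z).card : ℝ) with hX
  have hm0 : 0 ≤ m := Nat.cast_nonneg _
  have hf0 : 0 ≤ f := Nat.cast_nonneg _
  have hKu0 : 0 ≤ Ku := Nat.cast_nonneg _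
  have hK0 : 0 ≤ K := Nat.cast_nonneg _
  have hlam0 : 0 ≤ lam := Nat.cast_nonneg _
  have hX0 : 0 ≤ X := Nat.cast_nonneg _
  have hKKu : K ≤ 2 * Ku := by
    have := Kw_le_wasted (g := g) (θ := θ)
    rw [hK, hKu]
    exact_mod_cast this
  set Y := univ.filter (fun z => eta * n < (fz G g Z z : ℝ) + wy (om g θ) z) with hY
  have hYf : ∀ y ∉ Y, (fz G g Z y : ℝ) ≤ eta * nn V := by
    intro y hy
    rw [hY, mem_filter, not_and] at hy
    have h1 := not_lt.1 (hy (mem_univ _))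
    have h2 : (0 : ℝ) ≤ wy (om g θ) y := Nat.cast_nonneg _
    rw [← hndef]
    linarith
  have hYw : ∀ y ∉ Y, (wy (om g θ) y : ℝ) ≤ eta * nn V := by
    intro y hy
    rw [hY, mem_filter, not_and] at hy
    have h1 := not_lt.1 (hy (mem_univ _))
    have h2 : (0 : ℝ) ≤ fz G g Z y := Nat.cast_nonneg _
    rw [← hndef]
    linarith
  have hYc : (Y.card : ℝ) * (eta * n) ≤ 2 * f + K := by
    have h1 : (Y.card : ℝ) * (eta * n) ≤ ∑ z ∈ Y, ((fz G g Z z : ℝ) + wy (om g θ) z) := by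
      rw [← nsmul_eq_mul]
      apply card_nsmul_le_sum
      intro z hz
      rw [hY, mem_filter] at hz
      exact hz.2.le
    have h2 : ∑ z ∈ Y, ((fz G g Z z : ℝ) + wy (om g θ) z) ≤
        ∑ z, ((fz G g Z z : ℝ) + wy (om g θ) z) :=
      sum_le_sum_of_subset_of_nonneg (subset_univ _) fun z _ _ => by positivity
    have h3 : ∑ z, ((fz G g Z z : ℝ) + wy (om g θ) z) = ((∑ z, fz G g Z z : ℕ) : ℝ) +
        ((∑ z, wy (om g θ) z : ℕ) : ℝ) := by
      rw [sum_add_distrib]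
      push_cast
      rfl
    have h4 : ((∑ z, fz G g Z z : ℕ) : ℝ) ≤ 2 * f := by
      have := sum_fz_univ_le hg Z
      rw [hf]
      exact_mod_cast this
    have h5 : ((∑ z, wy (om g θ) z : ℕ) : ℝ) = K := by
      rw [sum_wy_univ]
    linarith
  have hfKu : f + Ku ≤ n * (n / L) := by
    have h1 : f ≤ ((usedP g).card : ℝ) := by
      rw [hf]
      exact_mod_cast card_le_card sdiff_subset
    linarith
  have hY2 := y_sq_le hL h0 hf0 hKu0 (Nat.cast_nonneg Y.card) hKKu hYc hfKu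
  have hXle : X ≤ 10 ^ 15 * n * L := by
    have h1 := EXC_card hG hWZ hWne hWn hZc2
    rw [← hX, ← hw] at h1
    refine h1.trans ?_
    rw [e1, div_le_iff₀ (by positivity)]
    have h2 : 97 / 100 * n ≤ L * w := by
      have h3 : L * (97 / 100 * (n / L)) ≤ L * w := mul_le_mul_of_nonneg_left hm1 hL0.le
      have h4 : L * (97 / 100 * (n / L)) = 97 / 100 * n := by field_simp
      linarith
    have h3 := mul_le_mul_of_nonneg_left h2 (by positivity : (0 : ℝ) ≤ 10 ^ 3 * n)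
    rw [← hndef]
    nlinarith
  have hKZ : ∀ q ∈ NE G Z, 1 ≤ KZ G Z q.1 q.2 := by
    intro q hq
    rw [mem_NE] at hq
    obtain ⟨z, hz, h1, h2⟩ := hR q.1 q.2 hq.1.ne
    unfold KZ
    rw [Nat.succ_le_iff, card_pos]
    exact ⟨z, mem_KS.2 ⟨⟨h1, Or.inr (hRZ hz)⟩, ⟨h2.symm, Or.inl (hRZ hz)⟩⟩⟩
  have hF : ∀ q ∈ restP g θ, Real.log (kk (usedP g) q.1 q.2 + s * tt (om g θ) q.1 q.2) ≤ L + 2 := by
    intro q hq
    have h1 := one_le_kk_add_tt hg hθ hq
    rw [one_mul] at h1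
    have h2 : (kk (usedP g) q.1 q.2 : ℝ) + tt (om g θ) q.1 q.2 ≤ n := by
      have := kk_add_tt_le hg θ q.1 q.2
      rw [hndef]
      unfold nn
      exact_mod_cast this
    have h3 : (0 : ℝ) ≤ kk (usedP g) q.1 q.2 := Nat.cast_nonneg _
    have h4 : (0 : ℝ) ≤ tt (om g θ) q.1 q.2 := Nat.cast_nonneg _
    have h5 : (kk (usedP g) q.1 q.2 : ℝ) + s * tt (om g θ) q.1 q.2 ≤ 2 * n := by nlinarith
    have h6 : 0 < (kk (usedP g) q.1 q.2 : ℝ) + s * tt (om g θ) q.1 q.2 := by nlinarith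
    refine (Real.log_le_log h6 h5).trans ?_
    rw [Real.log_mul (by norm_num) h0.ne']
    have h7 : Real.log 2 ≤ 2 := by
      have := Real.log_two_lt_d9
      linarith
    have h8 : Real.log n = L := rfl
    linarith
  have hlL : 0 ≤ Real.log L := Real.log_nonneg (le_trans (by norm_num) hL)
  set l0 : ℝ := L - Real.log L - 2 with hl0def
  have hl0 : 0 ≤ l0 := by
    rw [hl0def]
    have : 1 / 10 ^ 19 * L ≤ L := by
      have : (0 : ℝ) ≤ L := hL0.le
      nlinarith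
    linarith
  have hl0L : l0 ≤ L + 2 := by rw [hl0def]; linarith
  have hκ : 0 < (1 / 4 - 2 * eta) * (W.card : ℝ) := by
    rw [e1, ← hw]
    positivity
  have hlow : l0 ≤ Real.log ((1 / 4 - 2 * eta) * (W.card : ℝ)) := by
    rw [Real.le_log_iff_exp_le hκ, hl0def, Real.exp_sub, Real.exp_sub, Real.exp_log hL0, ← he]
    have h1 : (5 : ℝ) ≤ Real.exp 2 := by
      have := Real.quadratic_le_exp_of_nonneg (x := 2) (by norm_num)
      linarith
    have h2 : n / L / Real.exp 2 ≤ n / L / 5 :=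
      div_le_div_of_nonneg_left hhpos.le (by norm_num) h1
    rw [e1, ← hw]
    linarith
  have hcmp := compare hg hθ hKZ hs1 hs2 hF hl0 hl0L hκ hlow
  have hA := sum_a_le hg hWZ hYf
  have hS := sum_tt_le hG hg Y hYw
  have hB := sum_b_ge hG hg (W := W) (R0 := R) (fun z hz => by
    rw [hW, hub, mem_filter] at hz
    exact hz.2) hZn (GS := (restP g θ ∩ NE G Z) \ EXC G W Z)
  have hRR : ((NE G Z \ ((restP g θ ∩ NE G Z) \ EXC G W Z)).card : ℝ) ≤ f + Ku + lam + X := by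
    have := ne_gs_le (G := G) (g := g) θ W Z
    rw [hf, hKu, hlam, hX]
    exact_mod_cast this
  have hnum := second_numeric (n := n) (L := L) (w := w) (Z := (Z.card : ℝ)) (R := (R.card : ℝ))
    (m := m) (f := f) (Ku := Ku) (K := K) (lam := lam) (Y2 := (Y.card : ℝ) ^ 2) (X := X)
    hL h0 hm1 hm2 hZc (by rw [e1] at hRw; linarith) (Nat.cast_nonneg _) hRc hm0 hf0 hKu0 hlam0 hX0
    (sq_nonneg _) hKKu hK0 rfl rfl hcmp hA hS hB hRR hY2 hXle
  rw [log_NZ hKZ]
  unfold Mfun cost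
  rw [card_symmDiff_eq, ← hm, ← hf, ← hK, ← hlam, ← hLdef, ← hθdef]
  linarith

theorem sec_of_fst {G : SimpleGraph V} (hG : QR G) (hn : Big (Fintype.card V)) {R : Finset V}
    (hRc : (R.card : ℝ) ≤ 20 * LL V)
    (hR : ∀ u v, u ≠ v → ∃ z ∈ R, G.Adj u z ∧ G.Adj v z) {g : V → V → V} (hg : IsSys G g)
    (hf : TheoremS.Fst g) : TheoremS.Sec G R g := by
  obtain ⟨h1, h2, h3⟩ := hf
  have hs : Real.exp (1 / 100) ≤ 1011 / 1000 := by
    have h4 : Real.exp (1 / 100 : ℝ) ≤ 1 / (1 - 1 / 100) := by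
      have := Real.exp_bound_div_one_sub_of_interval (x := (1 / 100 : ℝ)) (by norm_num)
        (by norm_num)
      exact this
    refine h4.trans ?_
    norm_num
  have h4 := second_point hG hn hg hRc hR h1 h2 h3 TheoremS.s_one hs
  unfold TheoremS.Sec
  obtain ⟨hL, he, h0, h30⟩ := big_facts hn
  have hL0 : 0 < LL V := lt_of_lt_of_le (by positivity) hL
  have h5 : 10 ^ 17 * nn V * LL V ^ 2 ≤ nn V ^ (2 - kap / 8) := by
    have h6 : nn V ^ (2 - kap / 8) = nn V * nn V ^ (1 - kap / 8) := by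
      rw [← Real.rpow_one_add' h0.le]
      · congr 1
        ring
      · unfold kap
        norm_num
    rw [h6]
    have h7 : nn V ^ (1 - kap / 8) = Real.exp ((1 - kap / 8) * LL V) := by
      rw [Real.rpow_def_of_pos h0, mul_comm]
      rfl
    have h8 : 10 ^ 60 * LL V ^ 3 ≤ Real.exp ((1 - kap / 8) * LL V) :=
      exp_big (by unfold kap; norm_num) hL
    rw [h7]
    have h9 : 10 ^ 17 * LL V ^ 2 ≤ 10 ^ 60 * LL V ^ 3 := by
      have h10 : (1 : ℝ) ≤ LL V := le_trans (by norm_num) hL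
      have h11 : LL V ^ 2 ≤ LL V ^ 3 := pow_le_pow_right₀ h10 (by norm_num)
      have h12 : (0 : ℝ) ≤ LL V ^ 2 := by positivity
      nlinarith
    calc 10 ^ 17 * nn V * LL V ^ 2 = nn V * (10 ^ 17 * LL V ^ 2) := by ring
      _ ≤ nn V * Real.exp ((1 - kap / 8) * LL V) :=
          mul_le_mul_of_nonneg_left (h9.trans h8) h0.le
  have h6 : ((prs V).filter fun p => InE G (hub g ∪ R) p.1 p.2) = HP0 G (hub g ∪ R) := rfl
  rw [h6]
  linarith

end

open Classical in
/-- THEOREM S (the structure of a typical path system of a quasi-random graph). -/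
theorem theorem_S {V : Type*} [Fintype V] {G : SimpleGraph V} (hG : QR G)
    (hn : Big (Fintype.card V)) :
    (((PS G).filter fun g => ¬ Struct G g).card : ℝ) ≤ Real.exp (- nn V) * (PS G).card := by
  let _ : LinearOrder V := LinearOrder.lift' (Fintype.equivFin V) (Fintype.equivFin V).injective
  obtain ⟨R, hRc, hR⟩ := dom_of_qr hG hn
  exact TheoremS.main hG hn R hRc hR fun g hg hf => sec_of_fst hG hn hRc hR hg hf

theorem thmS : ThmS := fun _ _ _ hG hn => theorem_S hG hn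

end CEB
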