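import Pool.Agent.Work.MP_ceb7a8_co.Enc2
import Pool.Agent.Work.MP_ceb7a8_co.Lower

/-!
Deterministic end of the structure theorem: small error sets give the typical structure
(helper25).
-/

namespace CEB

namespace StructOf

open Finset

noncomputable section

open scoped Classical

variable {V : Type*} [Fintype V] [LinearOrder V]

/-- pairs whose path has length at least three -/
def L3 (g : V → V → V) : Finset (V × V) :=
  (prs V).filter fun p => ¬ Used g p.1 p.2 ∧ g p.1 p.2 ≠ g p.2 p.1

/-- ordered pairs whose path has length at least three -/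
def L3o (g : V → V → V) : Finset (V × V) :=
  univ.filter fun p => p.1 ≠ p.2 ∧ ¬ Used g p.1 p.2 ∧ g p.1 p.2 ≠ g p.2 p.1

/-- pairs with a 2-path that is not maximal -/
def N2 (g : V → V → V) : Finset (V × V) :=
  (prs V).filter fun p => ¬ Used g p.1 p.2 ∧ g p.1 p.2 = g p.2 p.1 ∧ ¬ Maxl g p.1 p.2

/-- sorted pair -/
def st (u v : V) : V × V := if u < v then (u, v) else (v, u)

omit [Fintype V] in
theorem st_of_lt {u v : V} (h : u < v) : st u v = (u, v) := if_pos h

omit [Fintype V] in
theorem st_of_gt {u v : V} (h : v < u) : st u v = (v, u) := if_neg (not_lt.2 h.le)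

theorem card_L3o {G : SimpleGraph V} {g : V → V → V} (hg : IsSys G g) :
    (L3o g).card ≤ 2 * (L3 g).card := by
  have h1 : L3o g ⊆ L3 g ∪ (L3 g).image fun p => (p.2, p.1) := by
    rintro ⟨u, v⟩ hp
    simp only [L3o, mem_filter, mem_univ, true_and] at hp
    obtain ⟨hne, hu, hd⟩ := hp
    rw [mem_union, mem_image]
    rcases lt_or_gt_of_ne hne with h | h
    · left
      simp only [L3, mem_filter, mem_prs]
      exact ⟨h, hu, hd⟩
    · right
      refine ⟨(v, u), ?_, rfl⟩
      simp only [L3, mem_filter, mem_prs]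
      exact ⟨h, fun h' => hu (hg.used_symm h'), fun h' => hd h'.symm⟩
  refine (card_le_card h1).trans ((card_union_le _ _).trans ?_)
  have := card_image_le (s := L3 g) (f := fun p : V × V => (p.2, p.1))
  omega

omit [Fintype V] [LinearOrder V] in
/-- a longer path over a 2-path -/
theorem long_of_not_max {G : SimpleGraph V} {g : V → V → V} (hg : IsSys G g) {u v s : V}
    (huv : u ≠ v) (hnu : ¬ Used g u v) (hsv : s ≠ v) (hs : g s v = u) :
    ¬ Used g s v ∧ g s v ≠ g v s := by
  constructor
  · intro h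
    exact huv (hs.symm.trans h.2)
  · intro h
    have h1 : g s v ≠ v := by rw [hs]; exact huv
    have h2 := hg.cons s v hsv h1
    rw [hs] at h2
    -- h2 : g v u = g v s
    have h3 : g v u = u := by rw [h2, ← h, hs]
    exact hnu (hg.used_symm ⟨huv.symm, h3⟩)

theorem card_N2 {G : SimpleGraph V} {g : V → V → V} (hg : IsSys G g) :
    (N2 g).card ≤ (L3o g).card := by
  have h1 : N2 g ⊆ (L3o g).image fun p => st (g p.1 p.2) p.2 := by
    rintro ⟨u, v⟩ hp
    simp only [N2, mem_filter, mem_prs] at hp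
    obtain ⟨hlt, hnu, heq, hm⟩ := hp
    rw [mem_image]
    unfold Maxl at hm
    rw [not_and_or] at hm
    rcases hm with hm | hm
    · push Not at hm
      obtain ⟨s, hsv, hs⟩ := hm
      refine ⟨(s, v), ?_, ?_⟩
      · simp only [L3o, mem_filter, mem_univ, true_and]
        exact ⟨hsv, long_of_not_max hg hlt.ne hnu hsv hs⟩
      · show st (g s v) v = (u, v)
        rw [hs, st_of_lt hlt]
    · push Not at hm
      obtain ⟨s, hsu, hs⟩ := hm
      refine ⟨(s, u), ?_, ?_⟩
      · simp only [L3o, mem_filter, mem_univ, true_and]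
        exact ⟨hsu, long_of_not_max hg hlt.ne' (fun h => hnu (hg.used_symm h)) hsu hs⟩
      · show st (g s u) u = (u, v)
        rw [hs, st_of_gt hlt]
  exact (card_le_card h1).trans card_image_le

theorem card_L3_le {g : V → V → V} {θ : ℝ} :
    (L3 g).card ≤ (wastedP (om g θ)).card + (lightP g θ).card + eta2 g θ := by
  have h1 : L3 g ⊆ wastedP (om g θ) ∪ lightP g θ ∪
      (restP g θ).filter (fun p => g p.1 p.2 ≠ g p.2 p.1) := by
    intro p hp
    simp only [L3, mem_filter, mem_prs] at hp
    obtain ⟨hlt, hnu, hne⟩ := hp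
    rw [mem_union, mem_union, mem_filter, mem_restP]
    by_cases h2 : p ∈ wastedP (om g θ)
    · exact Or.inl (Or.inl h2)
    · by_cases h3 : p ∈ lightP g θ
      · exact Or.inl (Or.inr h3)
      · right
        refine ⟨⟨hlt, fun h => hnu (mem_usedP.1 h).2, h2, h3⟩, hne⟩
  refine (card_le_card h1).trans ((card_union_le _ _).trans ?_)
  exact Nat.add_le_add_right (card_union_le _ _) _

theorem card_wastedP_le (ω : V → V → Option V) : (wastedP ω).card ≤ Kw ω := by
  have h1 : wastedP ω ⊆ (univ.filter fun p : V × V => ω p.1 p.2 ≠ none).image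
      fun p => st p.1 p.2 := by
    rintro ⟨u, v⟩ hp
    rw [mem_wastedP] at hp
    obtain ⟨hlt, h⟩ := hp
    rw [mem_image]
    rcases h with h | h
    · exact ⟨(u, v), mem_filter.2 ⟨mem_univ _, h⟩, st_of_lt hlt⟩
    · exact ⟨(v, u), mem_filter.2 ⟨mem_univ _, h⟩, st_of_gt hlt⟩
  exact (card_le_card h1).trans card_image_le

theorem badP_symm {G : SimpleGraph V} {g : V → V → V} (hg : IsSys G g) {u v : V}
    (h : BadP G g u v) : BadP G g v u := by
  obtain ⟨hne, h⟩ := h
  refine ⟨hne.symm, ?_⟩
  rcases h with ⟨h1, h2⟩ | ⟨h1, h2⟩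
  · exact Or.inl ⟨h1.symm, fun h => h2 (hg.used_symm h)⟩
  · exact Or.inr ⟨fun h => h1 h.symm, fun h => h2 (hg.q_symm h)⟩

theorem sum_bad {G : SimpleGraph V} {g : V → V → V} (hg : IsSys G g) :
    ∑ u, (bad G g u).card ≤ 2 * ((prs V).filter fun p => BadP G g p.1 p.2).card := by
  have h1 : ∑ u, (bad G g u).card =
      ((univ : Finset (V × V)).filter fun p => BadP G g p.1 p.2).card := by
    unfold bad
    rw [card_filter, ← univ_product_univ, sum_product]
    refine sum_congr rfl fun u _ => ?_
    rw [card_filter]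
  rw [h1]
  have h2 : ((univ : Finset (V × V)).filter fun p => BadP G g p.1 p.2) ⊆
      ((prs V).filter fun p => BadP G g p.1 p.2) ∪
      ((prs V).filter fun p => BadP G g p.1 p.2).image fun p => (p.2, p.1) := by
    rintro ⟨u, v⟩ hp
    have hb := (mem_filter.1 hp).2
    rw [mem_union, mem_image]
    rcases lt_or_gt_of_ne hb.1 with h | h
    · exact Or.inl (mem_filter.2 ⟨mem_prs.2 h, hb⟩)
    · exact Or.inr ⟨(v, u), mem_filter.2 ⟨mem_prs.2 h, badP_symm hg hb⟩, rfl⟩
  refine (card_le_card h2).trans ((card_union_le _ _).trans ?_)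
  have := card_image_le (s := (prs V).filter fun p => BadP G g p.1 p.2)
    (f := fun p : V × V => (p.2, p.1))
  omega

theorem card_badP {G : SimpleGraph V} {g : V → V → V} (hg : IsSys G g) (R : Finset V) (θ : ℝ) :
    ((prs V).filter fun p => BadP G g p.1 p.2).card ≤
      (symmDiff (usedP g) ((prs V).filter fun p => InE G (hub g ∪ R) p.1 p.2)).card +
      ((prs V).filter fun p => InE G R p.1 p.2).card +
      3 * (Kw (om g θ) + (lightP g θ).card + eta2 g θ) := by
  have h1 : ((prs V).filter fun p => BadP G g p.1 p.2) ⊆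
      symmDiff (usedP g) ((prs V).filter fun p => InE G (hub g ∪ R) p.1 p.2) ∪
      ((prs V).filter fun p => InE G R p.1 p.2) ∪ (L3 g ∪ N2 g) := by
    rintro ⟨u, v⟩ hp
    obtain ⟨hlt, hb⟩ := mem_filter.1 hp
    rw [mem_prs] at hlt
    simp only at hlt
    obtain ⟨hne, hb⟩ := hb
    simp only at hb
    rw [mem_union, mem_union, mem_union]
    rcases hb with ⟨h2, h3⟩ | ⟨h2, h3⟩
    · left; left
      rw [mem_symmDiff]
      right
      refine ⟨mem_filter.2 ⟨mem_prs.2 hlt, h2.1, ?_⟩, fun h => h3 (mem_usedP.1 h).2⟩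
      rcases h2.2 with h | h
      · exact Or.inl (mem_union_left _ h)
      · exact Or.inr (mem_union_left _ h)
    · by_cases h4 : Used g u v
      · left
        have hadj := hg.used_adj h4
        by_cases h5 : InE G R u v
        · right
          exact mem_filter.2 ⟨mem_prs.2 hlt, h5⟩
        · left
          rw [mem_symmDiff]
          left
          refine ⟨mem_usedP.2 ⟨hlt, h4⟩, fun h => ?_⟩
          obtain ⟨-, h6⟩ := mem_filter.1 h
          rcases h6.2 with h7 | h7
          · rcases mem_union.1 h7 with h8 | h8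
            · exact h2 ⟨hadj, Or.inl h8⟩
            · exact h5 ⟨hadj, Or.inl h8⟩
          · rcases mem_union.1 h7 with h8 | h8
            · exact h2 ⟨hadj, Or.inr h8⟩
            · exact h5 ⟨hadj, Or.inr h8⟩
      · right
        by_cases h5 : g u v = g v u
        · right
          refine mem_filter.2 ⟨mem_prs.2 hlt, h4, h5, fun h6 => h3 ⟨hne, ?_, h5, h6⟩⟩
          exact fun h7 => h4 ⟨hne, h7⟩
        · left
          exact mem_filter.2 ⟨mem_prs.2 hlt, h4, h5⟩
  have h2 := card_N2 hg
  have h3 := card_L3o hg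
  have h4 := card_L3_le (g := g) (θ := θ)
  have h5 := card_wastedP_le (om g θ)
  have h6 := (card_le_card h1).trans ((card_union_le _ _).trans
    (Nat.add_le_add (card_union_le _ _) (card_union_le _ _)))
  omega

theorem mem_thick {V : Type*} [Fintype V] {g : V → V → V} {y : V} : y ∈ thick g ↔
    ∃ x, x ≠ y ∧ nn V ^ (1 - sig / 2) < ((cl g y x).card : ℝ) := by
  simp [thick]

theorem mem_cl {V : Type*} [Fintype V] {g : V → V → V} {y x u : V} :
    u ∈ cl g y x ↔ u ≠ y ∧ g u y = x := by
  simp [cl]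

theorem C_eq_cl (g : V → V → V) (y x : V) : C g y x = cl g y x := by
  ext u
  rw [mem_C, mem_cl]

/-- the number of thick vertices -/
theorem card_thick (g : V → V → V) {θ : ℝ} (hθ : θ ≤ nn V ^ (1 - sig / 2)) :
    ((thick g).card : ℝ) * nn V ^ (1 - sig / 2) ≤ Kw (om g θ) := by
  have h1 : (Kw (om g θ) : ℝ) =
      ∑ y, ((univ.filter fun u : V => om g θ u y ≠ none).card : ℝ) := by
    unfold Kw
    rw [card_filter, ← univ_product_univ, sum_product_right]
    push_cast
    refine sum_congr rfl fun y _ => ?_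
    rw [card_filter]
    push_cast
    rfl
  rw [h1]
  have h2 : ∑ y ∈ thick g, nn V ^ (1 - sig / 2) ≤
      ∑ y ∈ thick g, ((univ.filter fun u : V => om g θ u y ≠ none).card : ℝ) := by
    refine sum_le_sum fun y hy => ?_
    obtain ⟨x, hxy, hx⟩ := mem_thick.1 hy
    refine hx.le.trans (Nat.cast_le.2 (card_le_card ?_))
    intro u hu
    obtain ⟨huy, hux⟩ := mem_cl.1 hu
    refine mem_filter.2 ⟨mem_univ _, ?_⟩
    have : om g θ u y = some x := by
      rw [om_eq_some]
      refine ⟨huy, hux, hxy, hθ.trans ?_⟩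
      rw [C_eq_cl]
      exact hx.le
    rw [this]
    simp
  rw [sum_const, nsmul_eq_mul] at h2
  refine h2.trans (sum_le_sum_of_subset_of_nonneg (subset_univ _) fun _ _ _ => ?_)
  positivity

end

end StructOf

open Finset

open scoped Classical in
/-- Small error sets give the typical structure. -/
theorem struct_of {V : Type*} [Fintype V] [LinearOrder V] {G : SimpleGraph V} {g : V → V → V}
    (hG : QR G) (hn : Big (Fintype.card V)) (hg : IsSys G g)
    (R : Finset V) (hR : (R.card : ℝ) ≤ 20 * LL V)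
    (s1 : 97 / 100 * hh V ≤ ((hub g).card : ℝ)) (s2 : ((hub g).card : ℝ) ≤ 115 / 100 * hh V)
    (h1 : ((symmDiff (usedP g) ((prs V).filter fun p => InE G (hub g ∪ R) p.1 p.2)).card : ℝ) ≤
      nn V ^ (2 - kap / 10))
    (h2 : (Kw (om g (th V kap)) : ℝ) ≤ nn V ^ (2 - kap / 10))
    (h3 : ((lightP g (th V kap)).card : ℝ) ≤ nn V ^ (2 - kap / 10))
    (h4 : (eta2 g (th V kap) : ℝ) ≤ nn V ^ (2 - kap / 10)) : Struct G g := by
  obtain ⟨hL, he, h0, h30⟩ := big_facts hn
  have hL0 : 0 < LL V := lt_of_lt_of_le (by positivity) hL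
  have hL1 : (1 : ℝ) ≤ LL V := le_trans (by norm_num) hL
  have hpow : ∀ a : ℝ, nn V ^ a = Real.exp (a * LL V) := by
    intro a
    rw [Real.rpow_def_of_pos h0, mul_comm]
    rfl
  refine ⟨s1, s2, ?_, ?_⟩
  · have h5 := StructOf.sum_bad hg
    have h6 := StructOf.card_badP hg R (th V kap)
    have h7 := card_inE_le hG R
    have h8 : ((∑ u, (bad G g u).card : ℕ) : ℝ) ≤
        2 * ((symmDiff (usedP g) ((prs V).filter fun p => InE G (hub g ∪ R) p.1 p.2)).card +
        ((prs V).filter fun p => InE G R p.1 p.2).card +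
        3 * (Kw (om g (th V kap)) + (lightP g (th V kap)).card + eta2 g (th V kap)) : ℝ) := by
      exact_mod_cast h5.trans (Nat.mul_le_mul_left 2 h6)
    have h9 : (R.card : ℝ) * ((1 / 2 + eta) * nn V) ≤ 20 * LL V * nn V := by
      refine (mul_le_mul_of_nonneg_right hR (by unfold eta; positivity)).trans ?_
      refine mul_le_mul_of_nonneg_left ?_ (by positivity)
      unfold eta
      nlinarith
    have h10 : 20 * LL V * nn V ≤ nn V ^ (2 - kap / 10) := by
      have e1 : nn V ^ (2 - kap / 10) = nn V * nn V ^ (1 - kap / 10) := by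
        rw [show (2 : ℝ) - kap / 10 = 1 + (1 - kap / 10) by ring, Real.rpow_add h0, Real.rpow_one]
      rw [e1, mul_comm]
      refine mul_le_mul_of_nonneg_left ?_ h0.le
      rw [hpow]
      have e2 := Real.pow_div_factorial_le_exp ((1 - kap / 10) * LL V)
        (mul_nonneg (by unfold kap; norm_num) hL0.le) 2
      refine le_trans ?_ e2
      have e3 : (Nat.factorial 2 : ℝ) = 2 := by norm_num [Nat.factorial]
      rw [e3, le_div_iff₀ (by norm_num), mul_pow]
      have e4 : (1 / 2 : ℝ) ≤ (1 - kap / 10) ^ 2 := by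
        unfold kap
        norm_num
      have e5 : (100 : ℝ) ≤ LL V := le_trans (by norm_num) hL
      nlinarith [sq_nonneg (LL V), mul_le_mul_of_nonneg_right e4 (sq_nonneg (LL V))]
    have h11 : 11 * nn V ^ (2 - kap / 10) ≤ nn V ^ (2 - sig) := by
      have e1 : nn V ^ (2 - sig) = nn V ^ (kap / 10 - sig) * nn V ^ (2 - kap / 10) := by
        rw [← Real.rpow_add h0]
        congr 1
        ring
      rw [e1]
      refine mul_le_mul_of_nonneg_right ?_ (Real.rpow_nonneg h0.le _)
      rw [hpow]
      have e2 := Real.add_one_le_exp ((kap / 10 - sig) * LL V)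
      have e3 : 4 / 10 ^ 7 * LL V ≤ (kap / 10 - sig) * LL V := by
        refine mul_le_mul_of_nonneg_right ?_ hL0.le
        unfold kap sig
        norm_num
      have e4 : (10 : ℝ) ^ 10 ≤ LL V := le_trans (by norm_num) hL
      nlinarith
    linarith
  · have h5 : th V kap ≤ nn V ^ (1 - sig / 2) := by
      show nn V ^ (1 - kap) ≤ nn V ^ (1 - sig / 2)
      rw [hpow, hpow]
      refine Real.exp_le_exp.2 (mul_le_mul_of_nonneg_right ?_ hL0.le)
      unfold kap sig
      norm_num
    have h6 := (StructOf.card_thick g h5).trans h2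
    have h7 : 0 < nn V ^ (1 - sig / 2) := Real.rpow_pos_of_pos h0 _
    have h8 : nn V ^ (2 - kap / 10) ≤ nn V ^ (1 - sig / 2) * nn V ^ (1 - sig / 2) := by
      rw [← Real.rpow_add h0, hpow, hpow]
      refine Real.exp_le_exp.2 (mul_le_mul_of_nonneg_right ?_ hL0.le)
      unfold kap sig
      norm_num
    exact le_of_mul_le_mul_right (h6.trans h8) h7

end CEB
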